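import Pool.Agent.Lib.MP_d2a91d_an.Final

namespace Pool.Agent.Lib.MP_d2a91d_an

open MvPolynomial

variable {N : ℕ} {K : Finset (Finset (Fin N))} {p : Fin N → Fin 3 → ℝ}
  {cyc : Finset (Fin N) → ℕ → Finset (Fin N)}

/-- A family of pairs of interior edges in common triangles; the first edge of a pair lies in no
other pair with the same triangle. -/
structure Fam (K : Finset (Finset (Fin N))) (cyc : Finset (Fin N) → ℕ → Finset (Fin N))
    (ι : Type) where
  E1 : ι → interiorFaces K 2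
  E2 : ι → interiorFaces K 2
  I : ∀ x, Fin (degree K (E1 x).1)
  J : ∀ x, Fin (degree K (E2 x).1)
  ne : ∀ x, E1 x ≠ E2 x
  hIJ : ∀ x, fi cyc (E1 x).1 (I x) = fi cyc (E2 x).1 (J x)
  priv : ∀ x y, x ≠ y → fi cyc (E1 x).1 (I x) = fi cyc (E1 y).1 (I y) →
    E1 x ≠ E1 y ∧ E1 x ≠ E2 y

section

variable (K cyc)

/-- The difference map. -/
noncomputable def DF {ι : Type} (S : Fam K cyc ι) (d : ℕ) :
    VA K d →ₗ[ℝ] (ι → restrictTotalDegree (Fin 3) ℝ d) where
  toFun v x := ss cyc (S.E1 x).1 (S.I x) • v (S.E1 x) (S.I x) -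
    ss cyc (S.E2 x).1 (S.J x) • v (S.E2 x) (S.J x)
  map_add' v w := by
    funext x
    simp only [Pi.add_apply, smul_add]
    abel
  map_smul' c v := by
    funext x
    simp only [Pi.smul_apply, RingHom.id_apply, smul_sub, smul_comm c]

theorem DF_apply {ι : Type} (S : Fam K cyc ι) (d : ℕ) (v : VA K d) (x : ι) :
    DF K cyc S d v x = ss cyc (S.E1 x).1 (S.I x) • v (S.E1 x) (S.I x) -
      ss cyc (S.E2 x).1 (S.J x) • v (S.E2 x) (S.J x) := rfl

end

theorem range_PT_le_F (hcard : ∀ t ∈ K, t.card = 4) (hcyc : Nice K cyc) {ι : Type}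
    (S : Fam K cyc ι) (p : Fin N → Fin 3 → ℝ) (r d : ℕ) :
    LinearMap.range (PT K cyc p r d) ≤
      (LinearMap.ker (DF K cyc S d)).map (PhiAll K cyc p r d) := by
  rintro _ ⟨q, rfl⟩
  refine ⟨fun e i => ss cyc e.1 i • q ⟨fi cyc e.1 i, fi_mem hcard hcyc e.2 i.2⟩, ?_, ?_⟩
  · rw [SetLike.mem_coe, LinearMap.mem_ker]
    funext x
    rw [DF_apply, smul_smul, smul_smul, ss_mul hcard hcyc, ss_mul hcard hcyc, one_smul,
      one_smul]
    have h1 : (⟨fi cyc (S.E1 x).1 (S.I x), fi_mem hcard hcyc (S.E1 x).2 (S.I x).2⟩ :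
        interiorFaces K 3) = ⟨fi cyc (S.E2 x).1 (S.J x), fi_mem hcard hcyc (S.E2 x).2
        (S.J x).2⟩ := Subtype.ext (S.hIJ x)
    rw [h1, sub_self]
    rfl
  · funext e
    rw [PhiAll_apply, PT_eq_Phi hcard hcyc]
    rfl

theorem DF_surj (hcard : ∀ t ∈ K, t.card = 4) (hcyc : Nice K cyc) {ι : Type}
    [Fintype ι] (S : Fam K cyc ι) (d : ℕ) : Function.Surjective (DF K cyc S d) := by
  classical
  have h1 : ∀ (x : ι) (z : restrictTotalDegree (Fin 3) ℝ d),
      ∃ v, DF K cyc S d v = Pi.single x z := by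
    intro x z
    refine ⟨Pi.single (S.E1 x) (Pi.single (S.I x) (ss cyc (S.E1 x).1 (S.I x) • z)), ?_⟩
    -- the value at a place of another triangle or edge vanishes
    have hz : ∀ (e : interiorFaces K 2) (i : Fin (degree K e.1)),
        (e ≠ S.E1 x ∨ fi cyc e.1 i ≠ fi cyc (S.E1 x).1 (S.I x)) →
        (Pi.single (S.E1 x) (Pi.single (S.I x) (ss cyc (S.E1 x).1 (S.I x) • z)) :
          VA K d) e i = 0 := by
      intro e i h
      by_cases he : e = S.E1 x
      · subst he
        rw [Pi.single_eq_same]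
        have hi : i ≠ S.I x := by
          rintro rfl
          rcases h with h | h
          · exact h rfl
          · exact h rfl
        rw [Pi.single_eq_of_ne hi]
      · rw [Pi.single_eq_of_ne he]
        rfl
    funext y
    rw [DF_apply]
    by_cases hxy : y = x
    · subst hxy
      rw [Pi.single_eq_same, Pi.single_eq_same, hz (S.E2 y) (S.J y) (Or.inl (S.ne y).symm),
        smul_zero, sub_zero, smul_smul, ss_mul hcard hcyc, one_smul, Pi.single_eq_same]
    · rw [Pi.single_eq_of_ne hxy]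
      by_cases hg : fi cyc (S.E1 x).1 (S.I x) = fi cyc (S.E1 y).1 (S.I y)
      · obtain ⟨k1, k2⟩ := S.priv x y (Ne.symm hxy) hg
        rw [hz (S.E1 y) (S.I y) (Or.inl k1.symm), hz (S.E2 y) (S.J y) (Or.inl k2.symm),
          smul_zero, smul_zero, sub_zero]
      · rw [hz (S.E1 y) (S.I y) (Or.inr (Ne.symm hg)),
          hz (S.E2 y) (S.J y) (Or.inr (by rw [← S.hIJ y]; exact Ne.symm hg)),
          smul_zero, smul_zero, sub_zero]
  choose w hw using h1
  intro y
  refine ⟨∑ x, w x (y x), ?_⟩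
  rw [map_sum]
  simp only [hw]
  exact Finset.univ_sum_single y

theorem DF_ker_le {ι : Type} [Fintype ι] (S : Fam K cyc ι) (p : Fin N → Fin 3 → ℝ) (r d : ℕ) :
    (LinearMap.ker (PhiAll K cyc p r d)).map (DF K cyc S d) ≤
      Submodule.pi Set.univ (fun x => entry r d (le K cyc p (S.E1 x).1) (S.I x) ⊔
        entry r d (le K cyc p (S.E2 x).1) (S.J x)) := by
  rintro _ ⟨v, hv, rfl⟩
  rw [SetLike.mem_coe, LinearMap.mem_ker] at hv
  intro x _
  have h1 : v (S.E1 x) (S.I x) ∈ entry r d (le K cyc p (S.E1 x).1) (S.I x) :=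
    ⟨v (S.E1 x), congrFun hv (S.E1 x), rfl⟩
  have h2 : v (S.E2 x) (S.J x) ∈ entry r d (le K cyc p (S.E2 x).1) (S.J x) :=
    ⟨v (S.E2 x), congrFun hv (S.E2 x), rfl⟩
  rw [DF_apply]
  exact Submodule.sub_mem _ (Submodule.smul_mem _ _ (Submodule.mem_sup_left h1))
    (Submodule.smul_mem _ _ (Submodule.mem_sup_right h2))

theorem finrank_range_PhiAll (p : Fin N → Fin 3 → ℝ) (r d : ℕ) :
    Module.finrank ℝ (LinearMap.range (PhiAll K cyc p r d)) =
      ∑ e : interiorFaces K 2,
        Module.finrank ℝ (LinearMap.range (Phi r d (le K cyc p e.1))) := by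
  have hr : LinearMap.range (PhiAll K cyc p r d) =
      Submodule.pi Set.univ (fun e => LinearMap.range (Phi r d (le K cyc p e.1))) := by
    apply le_antisymm
    · rintro _ ⟨v, rfl⟩ e _
      exact ⟨v e, rfl⟩
    · intro y hy
      choose x hx using fun e => hy e trivial
      exact ⟨x, funext hx⟩
  rw [hr]
  let f : Submodule.pi Set.univ (fun e : interiorFaces K 2 =>
      LinearMap.range (Phi r d (le K cyc p e.1))) ≃ₗ[ℝ]
      (∀ e : interiorFaces K 2, LinearMap.range (Phi r d (le K cyc p e.1))) :=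
    { toFun := fun x i => ⟨x.1 i, x.2 i trivial⟩
      invFun := fun y => ⟨fun i => (y i).1, fun i _ => (y i).2⟩
      left_inv := fun x => rfl
      right_inv := fun y => rfl
      map_add' := fun x y => rfl
      map_smul' := fun c x => rfl }
  rw [f.finrank_eq, Module.finrank_pi_fintype]

theorem rank_fam (hcard : ∀ t ∈ K, t.card = 4) (hcyc : Nice K cyc) {ι : Type}
    [Fintype ι] (S : Fam K cyc ι) (p : Fin N → Fin 3 → ℝ) (r d : ℕ) :
    Module.finrank ℝ (LinearMap.range (PT K cyc p r d)) +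
      ∑ _x : ι, Module.finrank ℝ (restrictTotalDegree (Fin 3) ℝ d) ≤
    ∑ e : interiorFaces K 2, Module.finrank ℝ (LinearMap.range (Phi r d (le K cyc p e.1))) +
      ∑ x : ι, Module.finrank ℝ (entry r d (le K cyc p (S.E1 x).1) (S.I x) ⊔
        entry r d (le K cyc p (S.E2 x).1) (S.J x) : Submodule ℝ _) := by
  classical
  have a0 : Module.finrank ℝ (LinearMap.range (PT K cyc p r d)) ≤
      Module.finrank ℝ ((LinearMap.ker (DF K cyc S d)).map (PhiAll K cyc p r d)) :=
    Submodule.finrank_mono (range_PT_le_F hcard hcyc S p r d)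
  have a1 := H79.rank_restrict (PhiAll K cyc p r d) (LinearMap.ker (DF K cyc S d))
  have a2 := H79.rank_restrict (DF K cyc S d) (LinearMap.ker (PhiAll K cyc p r d))
  have a3 := LinearMap.finrank_range_add_finrank_ker (DF K cyc S d)
  have a4 := LinearMap.finrank_range_add_finrank_ker (PhiAll K cyc p r d)
  have a6 := Submodule.finrank_mono (DF_ker_le S p r d)
  rw [finrank_submodule_pi] at a6
  rw [LinearMap.range_eq_top.mpr (DF_surj hcard hcyc S d), finrank_top,
    Module.finrank_pi_fintype] at a3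
  rw [inf_comm] at a2
  rw [finrank_range_PhiAll] at a4
  omega

/-- The common vertex of two interior edges in a triangle and the two other ends. -/
theorem exists_fork {e e' t : Finset (Fin N)} (he : e ∈ interiorFaces K 2)
    (he' : e' ∈ interiorFaces K 2) (hne : e ≠ e') {g : Finset (Fin N)} (hg : g.card = 3)
    (s1 : e ⊆ g) (s2 : e' ⊆ g) (hgt : g ⊆ t) :
    ∃ v b b', (v ∈ e ∧ v ∈ e') ∧ b ∈ e ∧ b' ∈ e' ∧ v ≠ b ∧ v ≠ b' ∧ b ≠ b' ∧ v ∈ t ∧
      b ∈ t ∧ b' ∈ t := by
  obtain ⟨v, hv⟩ : (e ∩ e').Nonempty := by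
    rw [← Finset.card_pos]
    have c1 := card_edge he
    have c2 := card_edge he'
    have c4 := Finset.card_union_add_card_inter e e'
    have c5 := Finset.card_le_card (Finset.union_subset s1 s2)
    omega
  rw [Finset.mem_inter] at hv
  obtain ⟨b, hb, hbv⟩ := Finset.exists_mem_ne (by rw [card_edge he]; norm_num) v (s := e)
  obtain ⟨b', hb', hbv'⟩ := Finset.exists_mem_ne (by rw [card_edge he']; norm_num) v (s := e')
  refine ⟨v, b, b', hv, hb, hb', hbv.symm, hbv'.symm, ?_, hgt (s1 hv.1), hgt (s1 hb),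
    hgt (s2 hb')⟩
  rintro rfl
  apply hne
  have k1 : ({v, b} : Finset (Fin N)) = e :=
    Finset.eq_of_subset_of_card_le (by
      intro y hy
      rw [Finset.mem_insert, Finset.mem_singleton] at hy
      rcases hy with rfl | rfl
      · exact hv.1
      · exact hb) (by rw [card_edge he, Finset.card_pair hbv.symm])
  have k2 : ({v, b} : Finset (Fin N)) = e' :=
    Finset.eq_of_subset_of_card_le (by
      intro y hy
      rw [Finset.mem_insert, Finset.mem_singleton] at hy
      rcases hy with rfl | rfl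
      · exact hv.2
      · exact hb') (by rw [card_edge he', Finset.card_pair hbv.symm])
  exact k1.symm.trans k2

theorem rank_fam_mu (hp : WR K p) (hcyc : Nice K cyc)
    (hdist : ∀ e ∈ interiorFaces K 2, DistinctAt K p e) {ι : Type} [Fintype ι]
    (S : Fam K cyc ι) (r d : ℕ) :
    Module.finrank ℝ (LinearMap.range (PT K cyc p r d)) +
      ∑ x : ι, mu (degree K (S.E1 x).1) (degree K (S.E2 x).1) r d ≤
    ∑ e ∈ interiorFaces K 2, lam (degree K e) r d := by
  have h3 := rank_fam hp.card hcyc S p r d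
  have h4 : ∑ e : interiorFaces K 2,
      Module.finrank ℝ (LinearMap.range (Phi r d (le K cyc p e.1))) =
      ∑ e ∈ interiorFaces K 2, lam (degree K e) r d := by
    rw [← Finset.sum_coe_sort (interiorFaces K 2) (fun e => lam (degree K e) r d)]
    refine Finset.sum_congr rfl fun e _ => ?_
    obtain ⟨u, hu, v, hv, huv⟩ := exists_ends_w hp e.2
    have hpen := pencil_w hp hcyc e.2 (hdist e.1 e.2) hu hv
    exact H79.L3 _ r d _ (p u) (p v) huv hpen.deg hpen.van hpen.dist hpen.ne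
  have h5 : ∑ _x : ι, Module.finrank ℝ (restrictTotalDegree (Fin 3) ℝ d) =
      ∑ x : ι, Module.finrank ℝ (entry r d (le K cyc p (S.E1 x).1) (S.I x) ⊔
        entry r d (le K cyc p (S.E2 x).1) (S.J x) : Submodule ℝ _) +
      ∑ x : ι, mu (degree K (S.E1 x).1) (degree K (S.E2 x).1) r d := by
    rw [← Finset.sum_add_distrib]
    refine Finset.sum_congr rfl fun x _ => ?_
    have hg : fi cyc (S.E1 x).1 (S.I x) ∈ faces K 3 :=
      (mem_interiorFaces.mp (fi_mem hp.card hcyc (S.E1 x).2 (S.I x).2)).1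
    have s1 : (S.E1 x).1 ⊆ fi cyc (S.E1 x).1 (S.I x) := sub_fi hcyc (S.E1 x).2 (S.I x).2
    have s2 : (S.E2 x).1 ⊆ fi cyc (S.E1 x).1 (S.I x) := by
      rw [S.hIJ x]
      exact sub_fi hcyc (S.E2 x).2 (S.J x).2
    have hne' : (S.E1 x).1 ≠ (S.E2 x).1 := fun h => S.ne x (Subtype.ext h)
    obtain ⟨hg3, t, ht, hgt⟩ := mem_faces.mp hg
    obtain ⟨v, b, b', hv, hb, hb', n1, n2, n3, t1, t2, t3⟩ :=
      exists_fork (S.E1 x).2 (S.E2 x).2 hne' hg3 s1 s2 hgt
    exact stP _ _ r d _ _ (S.I x) (S.J x) (p v) (p b) (p b')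
      (pencil_w hp hcyc (S.E1 x).2 (hdist _ (S.E1 x).2) hv.1 hb)
      (pencil_w hp hcyc (S.E2 x).2 (hdist _ (S.E2 x).2) hv.2 hb')
      (hcyc.three _ (S.E1 x).2) (hcyc.three _ (S.E2 x).2)
      (by
        unfold le
        rw [S.hIJ x])
      (affInd3_w hp ht t1 t2 t3 n1 n2 n3)
  omega

end Pool.Agent.Lib.MP_d2a91d_an
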