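import Pool.Agent.Lib.MP_d2a91d_an.Adj

namespace Pool.Agent.Lib.MP_d2a91d_an

open MvPolynomial

variable {N : ℕ} {K : Finset (Finset (Fin N))} {p : Fin N → Fin 3 → ℝ}
  {cyc : Finset (Fin N) → ℕ → Finset (Fin N)}

/-- The family of a set of pairs. -/
theorem exists_fam (hcard : ∀ t ∈ K, t.card = 4) (hcyc : Nice K cyc)
    (P : Finset (Finset (Fin N) × Finset (Fin N)))
    (h1 : ∀ x ∈ P, x.1 ∈ interiorFaces K 2 ∧ x.2 ∈ interiorFaces K 2 ∧ x.1 ≠ x.2 ∧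
      x.1 ∪ x.2 ∈ faces K 3)
    (h2 : ∀ x ∈ P, ∀ y ∈ P, x ≠ y → x.1 ∪ x.2 = y.1 ∪ y.2 → x.1 ≠ y.1 ∧ x.1 ≠ y.2) :
    ∃ S : Fam K cyc P, ∀ x : P, (S.E1 x).1 = x.1.1 ∧ (S.E2 x).1 = x.1.2 := by
  have hI : ∀ x : P, ∃ i < degree K x.1.1, fi cyc x.1.1 i = x.1.1 ∪ x.1.2 := fun x =>
    fi_surj hcard hcyc (h1 x.1 x.2).1 (h1 x.1 x.2).2.2.2 Finset.subset_union_left
  have hJ : ∀ x : P, ∃ i < degree K x.1.2, fi cyc x.1.2 i = x.1.1 ∪ x.1.2 := fun x =>
    fi_surj hcard hcyc (h1 x.1 x.2).2.1 (h1 x.1 x.2).2.2.2 Finset.subset_union_right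
  choose I hI hI' using hI
  choose J hJ hJ' using hJ
  refine ⟨⟨fun x => ⟨x.1.1, (h1 x.1 x.2).1⟩, fun x => ⟨x.1.2, (h1 x.1 x.2).2.1⟩,
    fun x => ⟨I x, hI x⟩, fun x => ⟨J x, hJ x⟩, ?_, ?_, ?_⟩, fun x => ⟨rfl, rfl⟩⟩
  · intro x h
    exact (h1 x.1 x.2).2.2.1 (congrArg Subtype.val h)
  · intro x
    exact (hI' x).trans (hJ' x).symm
  · intro x y hxy h
    have h3 : x.1.1 ∪ x.1.2 = y.1.1 ∪ y.1.2 := (hI' x).symm.trans (h.trans (hI' y))
    obtain ⟨k1, k2⟩ := h2 x.1 x.2 y.1 y.2 (fun h => hxy (Subtype.ext h)) h3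
    exact ⟨fun h => k1 (congrArg Subtype.val h), fun h => k2 (congrArg Subtype.val h)⟩

/-- The moment curve. -/
def mc (N : ℕ) : Fin N → Fin 3 → ℝ := fun i => ![(i : ℝ), (i : ℝ) ^ 2, (i : ℝ) ^ 3]

theorem wr_mc (hU5 : StU5) (hcard : ∀ t ∈ K, t.card = 4) : WR K (mc N) :=
  ⟨hcard, fun t ht => hU5 N t (hcard t ht)⟩

theorem dist_mc (hU5 : StU5) : ∀ e ∈ interiorFaces K 2, DistinctAt K (mc N) e := by
  intro e he f hf g hg hef heg hfg
  apply hU5 N (f ∪ g)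
  have c1 := card_edge he
  have c2 : f.card = 3 := (mem_faces.mp hf).1
  have c3 : g.card = 3 := (mem_faces.mp hg).1
  have c4 := Finset.card_union_add_card_inter f g
  have c5 := Finset.card_le_card (Finset.subset_inter hef heg)
  have c6 : (f ∩ g).card < 3 := by
    by_contra hc
    have d1 : f ∩ g = f := Finset.eq_of_subset_of_card_le Finset.inter_subset_left
      (by rw [c2]; omega)
    have d2 : f ∩ g = g := Finset.eq_of_subset_of_card_le Finset.inter_subset_right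
      (by rw [c3]; omega)
    exact hfg (d1.symm.trans d2)
  omega

/-- The bound for the rank at every position. -/
theorem rank_pairs (hU1 : StU1) (hU2 : StU2) (hU5 : StU5) (hcard : ∀ t ∈ K, t.card = 4)
    (hcyc : Nice K cyc) (P : Finset (Finset (Fin N) × Finset (Fin N)))
    (h1 : ∀ x ∈ P, x.1 ∈ interiorFaces K 2 ∧ x.2 ∈ interiorFaces K 2 ∧ x.1 ≠ x.2 ∧
      x.1 ∪ x.2 ∈ faces K 3)
    (h2 : ∀ x ∈ P, ∀ y ∈ P, x ≠ y → x.1 ∪ x.2 = y.1 ∪ y.2 → x.1 ≠ y.1 ∧ x.1 ≠ y.2)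
    (p : Fin N → Fin 3 → ℝ) (r d : ℕ) :
    Module.finrank ℝ (LinearMap.range (PT K cyc p r d)) +
      ∑ x ∈ P, mu (degree K x.1) (degree K x.2) r d ≤
    ∑ e ∈ interiorFaces K 2, lam (degree K e) r d := by
  obtain ⟨S, hS⟩ := exists_fam hcard hcyc P h1 h2
  have e1 := hU1 N K cyc p (mc N) r d
  have e2 : ∀ᶠ s in nhdsWithin (0 : ℝ) {0}ᶜ, ∀ t ∈ K,
      AffineIndependent ℝ (fun i : t => ln p (mc N) s i) := by
    rw [Filter.eventually_all_finset]
    intro t ht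
    exact hU2 N t p (mc N) ((wr_mc hU5 hcard).nondeg t ht)
  have e3 : ∀ᶠ s in nhdsWithin (0 : ℝ) {0}ᶜ, ∀ e ∈ interiorFaces K 2, ∀ f ∈ faces K 3,
      ∀ g ∈ faces K 3, e ⊆ f → e ⊆ g → f ≠ g →
        AffineIndependent ℝ (fun i : (f ∪ g : Finset (Fin N)) => ln p (mc N) s i) := by
    rw [Filter.eventually_all_finset]
    intro e he
    rw [Filter.eventually_all_finset]
    intro f hf
    rw [Filter.eventually_all_finset]
    intro g hg
    by_cases h : e ⊆ f ∧ e ⊆ g ∧ f ≠ g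
    · filter_upwards [hU2 N (f ∪ g) p (mc N)
        (dist_mc hU5 e he f hf g hg h.1 h.2.1 h.2.2)] with s hs
      exact fun _ _ _ => hs
    · exact Filter.Eventually.of_forall fun s h1 h2 h3 => absurd ⟨h1, h2, h3⟩ h
  obtain ⟨s, k1, k2, k3⟩ := (e1.and (e2.and e3)).exists
  have h4 := rank_fam_mu (p := ln p (mc N) s) ⟨hcard, k2⟩ hcyc k3 S r d
  have h5 : ∑ x ∈ P, mu (degree K x.1) (degree K x.2) r d =
      ∑ x : P, mu (degree K (S.E1 x).1) (degree K (S.E2 x).1) r d := by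
    rw [← Finset.sum_coe_sort P (fun x => mu (degree K x.1) (degree K x.2) r d)]
    refine Finset.sum_congr rfl fun x _ => ?_
    rw [(hS x).1, (hS x).2]
  omega

/-- The lower bound at every realisation. -/
theorem pos_pairs (hU1 : StU1) (hU2 : StU2) (hU5 : StU5) (hne : K.Nonempty)
    (hcyc : Nice K cyc) (P : Finset (Finset (Fin N) × Finset (Fin N)))
    (h1 : ∀ x ∈ P, x.1 ∈ interiorFaces K 2 ∧ x.2 ∈ interiorFaces K 2 ∧ x.1 ≠ x.2 ∧
      x.1 ∪ x.2 ∈ faces K 3)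
    (h2 : ∀ x ∈ P, ∀ y ∈ P, x ≠ y → x.1 ∪ x.2 = y.1 ∪ y.2 → x.1 ≠ y.1 ∧ x.1 ≠ y.2)
    (r d : ℕ) (hp : Realises K p) :
    (d + r + 4).choose 3 + (interiorFaces K 3).card * (d + 3).choose 3 +
      ∑ x ∈ P, mu (degree K x.1) (degree K x.2) r d ≤
    Module.finrank ℝ (Spline r (d + r + 1) K p) +
      ∑ e ∈ interiorFaces K 2, lam (degree K e) r d := by
  have a1 := dim_rank hne hcyc r d hp
  have a2 := rank_pairs hU1 hU2 hU5 hp.card hcyc P h1 h2 p r d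
  omega

/-- The lower bound for the generic dimension. -/
theorem gen_pairs (hU1 : StU1) (hU2 : StU2) (hU5 : StU5) (hne : K.Nonempty)
    (hcyc : Nice K cyc) (P : Finset (Finset (Fin N) × Finset (Fin N)))
    (h1 : ∀ x ∈ P, x.1 ∈ interiorFaces K 2 ∧ x.2 ∈ interiorFaces K 2 ∧ x.1 ≠ x.2 ∧
      x.1 ∪ x.2 ∈ faces K 3)
    (h2 : ∀ x ∈ P, ∀ y ∈ P, x ≠ y → x.1 ∪ x.2 = y.1 ∪ y.2 → x.1 ≠ y.1 ∧ x.1 ≠ y.2)
    (r d : ℕ) (h : ∃ p, Realises K p) :
    (d + r + 4).choose 3 + (interiorFaces K 3).card * (d + 3).choose 3 +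
      ∑ x ∈ P, mu (degree K x.1) (degree K x.2) r d ≤
    genDim r (d + r + 1) K + ∑ e ∈ interiorFaces K 2, lam (degree K e) r d := by
  obtain ⟨p, hp, hg⟩ := genDim_spec r (d + r + 1) h
  rw [hg]
  exact pos_pairs hU1 hU2 hU5 hne hcyc P h1 h2 r d hp

/-- `mu` is positive exactly for edges in at most `r + 2` tetrahedra. -/
theorem mu_pos {n n' r d : ℕ} (hn : n ≤ r + 2) (hn' : n' ≤ r + 2) : 1 ≤ mu n n' r d := by
  unfold mu
  rw [Nat.one_le_iff_ne_zero, Finset.card_ne_zero]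
  refine ⟨(0, 0, 0), ?_⟩
  simp only [Finset.mem_filter, Finset.mem_product, Finset.mem_range]
  refine ⟨⟨by omega, by omega, by omega⟩, by omega, by omega, by omega⟩

/-- the matching condition through the number of partners -/
theorem matched_of (h : ∀ e ∈ interiorFaces K 2, (partners K e).card ≤ 1) : Matched K := by
  intro e he e' he' e'' he'' h1 h2 h3 h4
  exact Finset.card_le_one.mp (h e he) e' (Finset.mem_filter.mpr ⟨he', h1, h3⟩) e''
    (Finset.mem_filter.mpr ⟨he'', h2, h4⟩)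

/-- The exact dimension at every realisation with distinct planes, in the matched case. -/
theorem pos_matched (hne : K.Nonempty) (hcyc : Nice K cyc) (hM : Matched K) (r d : ℕ)
    (hp : Realises K p) (hdist : ∀ e ∈ interiorFaces K 2, DistinctAt K p e) :
    2 * (Module.finrank ℝ (Spline r (d + r + 1) K p) +
        ∑ e ∈ interiorFaces K 2, lam (degree K e) r d) =
      2 * ((d + r + 4).choose 3 + (interiorFaces K 3).card * (d + 3).choose 3) +
        ∑ e ∈ interiorFaces K 2, ∑ e' ∈ partners K e, mu (degree K e) (degree K e') r d := by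
  have a3 := dim_rank hne hcyc r d hp
  have a4 := rank_four hp.wr hcyc hM hdist r d
  omega

end Pool.Agent.Lib.MP_d2a91d_an
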