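import Pool.Agent.Lib.MP_d2a91d_an.Coord

namespace Pool.Agent.Lib.MP_d2a91d_an

open MvPolynomial Set

theorem contDiff_eval (P : MvPolynomial (Fin 3) ℝ) {n : WithTop ℕ∞} :
    ContDiff ℝ n (fun x : Fin 3 → ℝ => eval x P) := by
  induction P using MvPolynomial.induction_on with
  | C a => simpa using contDiff_const
  | add p q hp hq => simpa using hp.add hq
  | mul_X p i hp => simpa using hp.mul (contDiff_apply ℝ ℝ i)

/-- A polynomial vanishing on a nonempty open set is zero. -/
theorem eq_zero_of_open (P : MvPolynomial (Fin 3) ℝ) (U : Set (Fin 3 → ℝ)) (hU : IsOpen U)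
    (hne : U.Nonempty) (h : ∀ x ∈ U, eval x P = 0) : P = 0 := by
  obtain ⟨x0, hx0⟩ := hne
  obtain ⟨ε, hε, hball⟩ := Metric.isOpen_iff.mp hU x0 hx0
  refine MvPolynomial.funext_set (fun i => Metric.ball (x0 i) ε) (fun i => ?_) fun x hx => ?_
  · rw [Real.ball_eq_Ioo]
    exact Set.Ioo_infinite (by linarith)
  · rw [map_zero]
    refine h x (hball ?_)
    rw [ball_pi _ hε]
    exact hx

variable {N : ℕ} {K : Finset (Finset (Fin N))} {p : Fin N → Fin 3 → ℝ}

/-- The four vertices of a tetrahedron as an affine basis. -/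
noncomputable def basis (h : Realises K p) {t : Finset (Fin N)} (ht : t ∈ K) :
    AffineBasis t ℝ (Fin 3 → ℝ) :=
  ⟨fun i : t => p i, h.nondeg t ht, by
    rw [(h.nondeg t ht).affineSpan_eq_top_iff_card_eq_finrank_add_one]
    simp [h.card t ht]⟩

theorem basis_apply (h : Realises K p) {t : Finset (Fin N)} (ht : t ∈ K) (i : t) :
    basis h ht i = p i := rfl

theorem tet_eq (h : Realises K p) {t : Finset (Fin N)} (ht : t ∈ K) :
    tet p t = convexHull ℝ (range (basis h ht)) := by
  unfold tet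
  congr 1
  ext x
  simp only [mem_image, mem_range, Finset.mem_coe]
  constructor
  · rintro ⟨i, hi, rfl⟩
    exact ⟨⟨i, hi⟩, rfl⟩
  · rintro ⟨i, rfl⟩
    exact ⟨i.1, i.2, rfl⟩

theorem interior_tet (h : Realises K p) {t : Finset (Fin N)} (ht : t ∈ K) :
    interior (tet p t) = {x | ∀ i, 0 < (basis h ht).coord i x} := by
  rw [tet_eq h ht, AffineBasis.interior_convexHull]

theorem interior_tet_nonempty (h : Realises K p) {t : Finset (Fin N)} (ht : t ∈ K) :
    (interior (tet p t)).Nonempty := by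
  rw [tet_eq h ht]
  exact ⟨_, (basis h ht).centroid_mem_interior_convexHull⟩

theorem isClosed_tet (p : Fin N → Fin 3 → ℝ) (t : Finset (Fin N)) : IsClosed (tet p t) := by
  unfold tet
  exact (((Finset.finite_toSet t).image p).isCompact_convexHull ℝ).isClosed

theorem tet_mono (p : Fin N → Fin 3 → ℝ) {t t' : Finset (Fin N)} (h : t ⊆ t') :
    tet p t ⊆ tet p t' :=
  convexHull_mono (image_mono (by exact_mod_cast h))

theorem mem_Omega {x : Fin 3 → ℝ} {t : Finset (Fin N)} (ht : t ∈ K) (hx : x ∈ tet p t) :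
    x ∈ Omega K p := mem_biUnion (by exact_mod_cast ht) hx

theorem uniqueDiffOn_tet (h : Realises K p) {t : Finset (Fin N)} (ht : t ∈ K) :
    UniqueDiffOn ℝ (tet p t) :=
  uniqueDiffOn_convex (convex_convexHull ℝ _) (interior_tet_nonempty h ht)

theorem uniqueDiffOn_Omega (h : Realises K p) : UniqueDiffOn ℝ (Omega K p) := by
  intro x hx
  obtain ⟨t, ht, hx'⟩ := mem_iUnion₂.mp hx
  exact (uniqueDiffOn_tet h ht x hx').mono fun y hy => mem_Omega ht hy

/-- A barycentric coordinate vanishes on the faces without its vertex. -/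
theorem coord_eq_zero (h : Realises K p) {t : Finset (Fin N)} (ht : t ∈ K) (i : t)
    {g : Finset (Fin N)} (hg : g ⊆ t) (hi : i.1 ∉ g) {x : Fin 3 → ℝ} (hx : x ∈ tet p g) :
    (basis h ht).coord i x = 0 := by
  have hconv : Convex ℝ {x | (basis h ht).coord i x = 0} := by
    have : {x | (basis h ht).coord i x = 0} = ((basis h ht).coord i) ⁻¹' {0} := rfl
    rw [this]
    exact (convex_singleton (0 : ℝ)).affine_preimage _
  have hsub : p '' (g : Set (Fin N)) ⊆ {x | (basis h ht).coord i x = 0} := by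
    rintro _ ⟨j, hj, rfl⟩
    have hj' : j ∈ t := hg hj
    have h1 : (basis h ht).coord i (basis h ht ⟨j, hj'⟩) = 0 :=
      (basis h ht).coord_apply_ne (fun hij => hi (by rw [hij]; exact hj))
    exact h1
  exact convexHull_min hsub hconv hx

theorem eq_of_mem_interior (h : Realises K p) {t t' : Finset (Fin N)} (ht : t ∈ K) (ht' : t' ∈ K)
    {x : Fin 3 → ℝ} (hx : x ∈ interior (tet p t)) (hx' : x ∈ tet p t') : t' = t := by
  by_contra hne
  have hsub : ¬ t ⊆ t' := fun hs => hne (Finset.eq_of_subset_of_card_le hs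
    (by rw [h.card t ht, h.card t' ht'])).symm
  obtain ⟨i, hi, hi'⟩ := Finset.not_subset.mp hsub
  have hmem : x ∈ tet p (t ∩ t') := by
    rw [← h.meet t ht t' ht']
    exact ⟨interior_subset hx, hx'⟩
  have h0 := coord_eq_zero h ht ⟨i, hi⟩ Finset.inter_subset_left
    (fun hc => hi' (Finset.mem_inter.mp hc).2) hmem
  rw [interior_tet h ht] at hx
  exact absurd h0 (ne_of_gt (hx ⟨i, hi⟩))

theorem glue_interior (h : Realises K p) (P : K → MvPolynomial (Fin 3) ℝ) (t : K)
    {x : Fin 3 → ℝ} (hx : x ∈ interior (tet p t.1)) : glue K p P x = eval x (P t) := by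
  have hex : ∃ t : K, x ∈ tet p t.1 := ⟨t, interior_subset hx⟩
  have h1 : hex.choose = t := Subtype.ext
    (eq_of_mem_interior h t.2 hex.choose.2 hx hex.choose_spec)
  refine (dif_pos hex : glue K p P x = eval x (P hex.choose)).trans ?_
  rw [h1]

theorem stG1 : StG1 := by
  intro N K p h P hP
  funext t
  refine eq_zero_of_open _ _ isOpen_interior (interior_tet_nonempty h t.2) fun x hx => ?_
  rw [← glue_interior h P t hx]
  exact hP t x (interior_subset hx)

theorem glue_of_notMem (P : K → MvPolynomial (Fin 3) ℝ) {x : Fin 3 → ℝ}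
    (hx : x ∉ Omega K p) : glue K p P x = 0 := by
  have hex : ¬ ∃ t : K, x ∈ tet p t.1 := fun ⟨t, ht⟩ => hx (mem_Omega t.2 ht)
  exact dif_neg hex

theorem glue_mem (P : K → MvPolynomial (Fin 3) ℝ) {x : Fin 3 → ℝ}
    (hx : x ∈ Omega K p) : ∃ t : K, x ∈ tet p t.1 ∧ glue K p P x = eval x (P t) := by
  have hex : ∃ t : K, x ∈ tet p t.1 := by
    obtain ⟨t, ht, hx'⟩ := mem_iUnion₂.mp hx
    exact ⟨⟨t, ht⟩, hx'⟩
  exact ⟨hex.choose, hex.choose_spec, dif_pos hex⟩

end Pool.Agent.Lib.MP_d2a91d_an
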