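import Pool.Agent.Lib.MP_d2a91d_an.Comp79

/-!
Rows L of MP_d2a91d (helper79): the rank of `Phi` for planes through the `z`-axis is the sum of
the ranks in the components.
-/

set_option autoImplicit false

namespace Pool.Agent.Lib.MP_d2a91d_an.H79

open Polynomial

theorem finrank_degreeLT (k : ℕ) : Module.finrank ℝ (degreeLT ℝ k) = k := by
  rw [(degreeLTEquiv ℝ k).finrank_eq, Module.finrank_fintype_fun_eq_card, Fintype.card_fin]

theorem finite_degreeLT (k : ℕ) : Module.Finite ℝ (degreeLT ℝ k) :=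
  Module.Finite.equiv (degreeLTEquiv ℝ k).symm

theorem mem_degreeLT_of {g : ℝ[X]} {m : ℕ} (h : g.natDegree ≤ m) : g ∈ degreeLT ℝ (m + 1) := by
  rw [mem_degreeLT]
  exact lt_of_le_of_lt degree_le_natDegree (by exact_mod_cast Nat.lt_succ_of_le h)

theorem natDegree_of_mem {g : ℝ[X]} {m : ℕ} (h : g ∈ degreeLT ℝ (m + 1)) : g.natDegree ≤ m := by
  by_cases hg : g = 0
  · rw [hg, natDegree_zero]
    exact Nat.zero_le _
  · rw [mem_degreeLT, degree_eq_natDegree hg, Nat.cast_lt] at h
    exact Nat.le_of_lt_succ h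

/-- The component of `Phi` in degree `m`. -/
noncomputable def phi {n : ℕ} (s : ℕ) (a b : Fin n → ℝ) (m : ℕ) :
    (Fin n → degreeLT ℝ (m + 1)) →ₗ[ℝ] ℝ[X] :=
  ∑ i, (LinearMap.mulLeft ℝ ((C (a i) * X + C (b i)) ^ s)) ∘ₗ (Submodule.subtype _) ∘ₗ
    LinearMap.proj i

theorem phi_apply {n : ℕ} (s : ℕ) (a b : Fin n → ℝ) (m : ℕ)
    (g : Fin n → degreeLT ℝ (m + 1)) :
    phi s a b m g = ∑ i, (C (a i) * X + C (b i)) ^ s * (g i : ℝ[X]) := by
  simp [phi, LinearMap.sum_apply]

theorem comp_eq_zero {m c d : ℕ} {P : MvPolynomial (Fin 3) ℝ} (hP : P.totalDegree ≤ d)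
    (h : d < m + c) : comp m c P = 0 := by
  rw [← MvPolynomial.support_sum_monomial_coeff P, map_sum]
  refine Finset.sum_eq_zero fun e he => ?_
  have hdeg : e 0 + e 1 + e 2 ≤ d := by
    refine le_trans ?_ ((MvPolynomial.le_totalDegree he).trans hP)
    rw [Finsupp.sum_fintype _ _ (fun _ => rfl), Fin.sum_univ_three]
  rw [comp_monomial, if_neg]
  rintro ⟨h1, h2⟩
  omega

/-- components of the image -/
theorem comp_Phi (r d : ℕ) {n : ℕ} (a b : Fin n → ℝ)
    (q : Fin n → MvPolynomial.restrictTotalDegree (Fin 3) ℝ d) (m c : ℕ) :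
    comp (m + (r + 1)) c (Phi r d (fun i => lin (a i) (b i)) q) =
      phi (r + 1) a b m (fun i => ⟨comp m c (q i : MvPolynomial (Fin 3) ℝ),
        mem_degreeLT_of (comp_natDegree _ _ _)⟩) := by
  rw [Phi_apply, map_sum, phi_apply]
  exact Finset.sum_congr rfl fun i _ => comp_mul _ _ _ _ _ _

/-- the index set of the components -/
abbrev Idx (d : ℕ) : Type := (m : Fin (d + 1)) × Fin (d - m + 1)

/-- the map to the components -/
noncomputable def Th (r d : ℕ) {n : ℕ} (a b : Fin n → ℝ) :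
    LinearMap.range (Phi r d (fun i => lin (a i) (b i))) →ₗ[ℝ]
      ((x : Idx d) → LinearMap.range (phi (r + 1) a b x.1)) :=
  LinearMap.pi fun x => LinearMap.codRestrict _
    ((comp ((x.1 : ℕ) + (r + 1)) (x.2 : ℕ)) ∘ₗ Submodule.subtype _) (by
      rintro ⟨_, q, rfl⟩
      exact ⟨_, (comp_Phi r d a b q x.1 x.2).symm⟩)

theorem Th_apply (r d : ℕ) {n : ℕ} (a b : Fin n → ℝ)
    (P : LinearMap.range (Phi r d (fun i => lin (a i) (b i)))) (x : Idx d) :
    (Th r d a b P x : ℝ[X]) = comp ((x.1 : ℕ) + (r + 1)) (x.2 : ℕ) P := rfl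

theorem Th_injective (r d : ℕ) {n : ℕ} (a b : Fin n → ℝ) :
    Function.Injective (Th r d a b) := by
  rw [injective_iff_map_eq_zero]
  rintro ⟨_, q, rfl⟩ hP
  apply Subtype.ext
  change Phi r d (fun i => lin (a i) (b i)) q = 0
  refine ext_comp fun M c => ?_
  rw [map_zero]
  rcases Nat.lt_or_ge M (r + 1) with h | h
  · rw [Phi_apply, map_sum]
    exact Finset.sum_eq_zero fun i _ => comp_mul_lt _ _ h _ _
  · obtain ⟨m, rfl⟩ : ∃ m, M = m + (r + 1) := ⟨M - (r + 1), by omega⟩
    by_cases hd : m + c ≤ d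
    · have h1 := congrArg Subtype.val (congrFun hP ⟨⟨m, by omega⟩, ⟨c, by
        change c < d - m + 1
        omega⟩⟩)
      exact h1
    · rw [comp_Phi, phi_apply]
      refine Finset.sum_eq_zero fun i _ => ?_
      change _ * comp m c (q i : MvPolynomial (Fin 3) ℝ) = 0
      rw [comp_eq_zero ((MvPolynomial.mem_restrictTotalDegree _ _ _).1 (q i).2) (by omega),
        mul_zero]

theorem Th_surjective (r d : ℕ) {n : ℕ} (a b : Fin n → ℝ) :
    Function.Surjective (Th r d a b) := by
  intro G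
  have hG : ∀ x : Idx d, ∃ g, phi (r + 1) a b x.1 g = (G x : ℝ[X]) := fun x => (G x).2
  choose g hg using hG
  have hmem : ∀ i, ∑ x : Idx d, hom (x.1 : ℕ) (x.2 : ℕ) (g x i : ℝ[X]) ∈
      MvPolynomial.restrictTotalDegree (Fin 3) ℝ d := by
    intro i
    refine Submodule.sum_mem _ fun x _ => hom_mem _ _ _ ?_ _
    have h1 := x.1.2
    have h2 := x.2.2
    omega
  refine ⟨⟨Phi r d (fun i => lin (a i) (b i)) (fun i =>
    ⟨∑ x : Idx d, hom (x.1 : ℕ) (x.2 : ℕ) (g x i : ℝ[X]), hmem i⟩), ⟨_, rfl⟩⟩, ?_⟩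
  funext x
  apply Subtype.ext
  rw [Th_apply, ← hg x]
  change comp ((x.1 : ℕ) + (r + 1)) (x.2 : ℕ) (Phi r d (fun i => lin (a i) (b i)) _) = _
  rw [comp_Phi]
  congr 1
  funext i
  apply Subtype.ext
  change comp (x.1 : ℕ) (x.2 : ℕ) (∑ y : Idx d, hom (y.1 : ℕ) (y.2 : ℕ) (g y i : ℝ[X])) =
    (g x i : ℝ[X])
  rw [map_sum, Finset.sum_eq_single x]
  · rw [comp_hom _ _ _ (natDegree_of_mem (g x i).2), if_pos ⟨rfl, rfl⟩]
  · intro y _ hy
    rw [comp_hom _ _ _ (natDegree_of_mem (g y i).2), if_neg]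
    rintro ⟨h1, h2⟩
    apply hy
    obtain ⟨⟨x1, hx1⟩, ⟨x2, hx2⟩⟩ := x
    obtain ⟨⟨y1, hy1⟩, ⟨y2, hy2⟩⟩ := y
    change x1 = y1 at h1
    change x2 = y2 at h2
    subst h1
    subst h2
    rfl
  · intro h
    exact absurd (Finset.mem_univ _) h

/-- The rank of `Phi` is the sum of the ranks of its components. -/
theorem finrank_Phi (r d : ℕ) {n : ℕ} (a b : Fin n → ℝ) :
    Module.finrank ℝ (LinearMap.range (Phi r d (fun i => lin (a i) (b i)))) =
      ∑ m ∈ Finset.range (d + 1), (d - m + 1) *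
        Module.finrank ℝ (LinearMap.range (phi (r + 1) a b m)) := by
  have : ∀ k : ℕ, Module.Finite ℝ (degreeLT ℝ k) := finite_degreeLT
  rw [(LinearEquiv.ofBijective (Th r d a b) ⟨Th_injective r d a b,
    Th_surjective r d a b⟩).finrank_eq, Module.finrank_pi_fintype, Fintype.sum_sigma,
    Finset.sum_range]
  refine Finset.sum_congr rfl fun m _ => ?_
  change ∑ _y : Fin (d - (m : ℕ) + 1), Module.finrank ℝ
    (LinearMap.range (phi (r + 1) a b (m : ℕ))) = _
  rw [Finset.sum_const, Finset.card_univ, Fintype.card_fin, smul_eq_mul]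

/-- Bound for the rank of a component. -/
theorem finrank_phi_le (s : ℕ) {n : ℕ} (a b : Fin n → ℝ) (m : ℕ) :
    Module.finrank ℝ (LinearMap.range (phi s a b m)) ≤ min (m + s + 1) (n * (m + 1)) := by
  have hfin : ∀ k : ℕ, Module.Finite ℝ (degreeLT ℝ k) := finite_degreeLT
  refine le_min ?_ ?_
  · have h1 : LinearMap.range (phi s a b m) ≤ degreeLT ℝ (m + s + 1) := by
      rintro _ ⟨g, rfl⟩
      rw [phi_apply]
      refine Submodule.sum_mem _ fun i _ => mem_degreeLT_of ?_
      refine natDegree_mul_le.trans ?_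
      have h2 : ((C (a i) * X + C (b i) : ℝ[X]) ^ s).natDegree ≤ s := by
        refine natDegree_pow_le.trans ?_
        have h3 : (C (a i) * X + C (b i) : ℝ[X]).natDegree ≤ 1 := natDegree_linear_le
        calc s * _ ≤ s * 1 := Nat.mul_le_mul_left _ h3
          _ = s := mul_one _
      have h4 := natDegree_of_mem (g i).2
      omega
    have h2 := Submodule.finrank_mono h1
    rwa [finrank_degreeLT] at h2
  · refine (LinearMap.finrank_range_le _).trans ?_
    rw [Module.finrank_pi_fintype]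
    simp only [finrank_degreeLT, Finset.sum_const, Finset.card_univ, Fintype.card_fin,
      smul_eq_mul, le_refl]

/-- The rank of a component for distinct lines. -/
theorem finrank_phi_eq (s : ℕ) {n : ℕ} (α β : Fin n → ℝ) (hα : ∀ i, α i ≠ 0)
    (hp : Function.Injective fun i => -(β i) / α i) (m : ℕ) :
    Module.finrank ℝ (LinearMap.range (phi s α β m)) = min (m + s + 1) (n * (m + 1)) := by
  have hfin : ∀ k : ℕ, Module.Finite ℝ (degreeLT ℝ k) := finite_degreeLT
  have hlin : ∀ i, (C (α i) * X + C (β i) : ℝ[X]) = C (α i) * (X - C (-(β i) / α i)) := by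
    intro i
    rw [mul_sub, ← C_mul, mul_div_cancel₀ _ (hα i), C_neg, sub_neg_eq_add]
  refine le_antisymm (finrank_phi_le s α β m) ?_
  rcases le_total (n * (m + 1)) (m + s + 1) with h | h
  · -- injective
    have hinj : Function.Injective (phi s α β m) := by
      rw [injective_iff_map_eq_zero]
      intro g hg
      rw [phi_apply] at hg
      have h2 := inj_one hp h (fun i => C (α i ^ s) * (g i : ℝ[X]))
        (fun i => (natDegree_C_mul_le _ _).trans (natDegree_of_mem (g i).2)) (by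
          rw [← hg]
          refine Finset.sum_congr rfl fun i _ => ?_
          rw [hlin, mul_pow, C_pow]
          ring)
      funext i
      apply Subtype.ext
      exact (mul_eq_zero.1 (h2 i)).resolve_left (C_ne_zero.2 (pow_ne_zero _ (hα i)))
    rw [LinearMap.finrank_range_of_inj hinj, Module.finrank_pi_fintype]
    simp only [finrank_degreeLT, Finset.sum_const, Finset.card_univ, Fintype.card_fin,
      smul_eq_mul]
    exact min_le_right _ _
  · -- surjective
    have h1 : degreeLT ℝ (m + s + 1) ≤ LinearMap.range (phi s α β m) := by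
      intro f hf
      obtain ⟨g, hg, hgs⟩ := surj_one hp h f (natDegree_of_mem hf)
      refine ⟨fun i => ⟨C ((α i ^ s)⁻¹) * g i, mem_degreeLT_of
        ((natDegree_C_mul_le _ _).trans (hg i))⟩, ?_⟩
      rw [phi_apply, ← hgs]
      refine Finset.sum_congr rfl fun i _ => ?_
      change (C (α i) * X + C (β i)) ^ s * (C ((α i ^ s)⁻¹) * g i) = _
      have h3 : (C (α i) : ℝ[X]) ^ s * C ((α i ^ s)⁻¹) = 1 := by
        rw [← C_pow, ← C_mul, mul_inv_cancel₀ (pow_ne_zero _ (hα i)), C_1]
      rw [hlin, mul_pow]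
      calc C (α i) ^ s * (X - C (-(β i) / α i)) ^ s * (C ((α i ^ s)⁻¹) * g i)
          = (C (α i) ^ s * C ((α i ^ s)⁻¹)) * ((X - C (-(β i) / α i)) ^ s * g i) := by ring
        _ = _ := by rw [h3, one_mul]
    have h2 := Submodule.finrank_mono h1
    rw [finrank_degreeLT] at h2
    exact (min_le_left _ _).trans h2

/-- Two proportional forms. -/
theorem finrank_phi_zero_lt (s : ℕ) {n : ℕ} (a b : Fin n → ℝ) {i j : Fin n} (hij : i ≠ j)
    {c c' : ℝ} (hc : c ≠ 0) (ha : c * a i = c' * a j) (hb : c * b i = c' * b j) :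
    Module.finrank ℝ (LinearMap.range (phi s a b 0)) < n := by
  have hfin : ∀ k : ℕ, Module.Finite ℝ (degreeLT ℝ k) := finite_degreeLT
  have h0 := LinearMap.finrank_range_add_finrank_ker (phi s a b 0)
  rw [Module.finrank_pi_fintype] at h0
  simp only [finrank_degreeLT, Finset.sum_const, Finset.card_univ, Fintype.card_fin,
    smul_eq_mul, zero_add, mul_one] at h0
  have hC : ∀ z : ℝ, (C z : ℝ[X]) ∈ degreeLT ℝ (0 + 1) := fun z =>
    mem_degreeLT_of (by rw [natDegree_C])
  have hpos : 0 < Module.finrank ℝ (LinearMap.ker (phi s a b 0)) := by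
    by_contra hcon
    have hbot : LinearMap.ker (phi s a b 0) = ⊥ := Submodule.finrank_eq_zero.1 (by omega)
    have hmem : (fun k => if k = i then ⟨C (c ^ s), hC _⟩ else
        if k = j then ⟨C (-(c' ^ s)), hC _⟩ else 0 : Fin n → degreeLT ℝ (0 + 1)) ∈
        LinearMap.ker (phi s a b 0) := by
      rw [LinearMap.mem_ker, phi_apply, Finset.sum_eq_add i j hij]
      · rw [if_pos rfl, if_neg (Ne.symm hij), if_pos rfl]
        change (C (a i) * X + C (b i)) ^ s * C (c ^ s) +
          (C (a j) * X + C (b j)) ^ s * C (-(c' ^ s)) = 0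
        have h4 : C c * (C (a i) * X + C (b i)) = C c' * (C (a j) * X + C (b j) : ℝ[X]) := by
          rw [mul_add, mul_add, ← mul_assoc, ← mul_assoc, ← C_mul, ← C_mul, ← C_mul, ← C_mul,
            ha, hb]
        have h5 := congrArg (fun z => z ^ s) h4
        simp only [mul_pow] at h5
        rw [C_neg, C_pow, C_pow]
        linear_combination h5
      · intro k _ hk
        rw [if_neg hk.1, if_neg hk.2]
        simp
      · intro hcon
        exact absurd (Finset.mem_univ _) hcon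
      · intro hcon
        exact absurd (Finset.mem_univ _) hcon
    rw [hbot, Submodule.mem_bot] at hmem
    have h6 := congrArg Subtype.val (congrFun hmem i)
    rw [if_pos rfl] at h6
    change (C (c ^ s) : ℝ[X]) = 0 at h6
    exact (pow_ne_zero s hc) (C_eq_zero.1 h6)
  omega

end Pool.Agent.Lib.MP_d2a91d_an.H79
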