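import Pool.Agent.Lib.MP_d2a91d_an.Stmts4

namespace Pool.Agent.Lib.MP_d2a91d_an

open MvPolynomial

/-- `q` vanishes to order `L` at `a`. -/
def Ord (a : Fin 3 → ℝ) (L : ℕ) (q : MvPolynomial (Fin 3) ℝ) : Prop :=
  ∀ v : Fin 3 → ℝ, ∃ G : Polynomial ℝ, ∀ s : ℝ, eval (a + s • v) q = s ^ L * G.eval s

/-- (K) Two pencils with a common plane: everything that vanishes to order `2 r` at the common
point is a sum of two entries of relations that use only the planes in `I`, `I'`. -/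
def StK : Prop := ∀ (n n' r d : ℕ) (l : Fin n → MvPolynomial (Fin 3) ℝ)
  (l' : Fin n' → MvPolynomial (Fin 3) ℝ) (i : Fin n) (j : Fin n') (a b b' : Fin 3 → ℝ)
  (I : Finset (Fin n)) (I' : Finset (Fin n')),
  Pencil l a b → Pencil l' a b' → l i = l' j → AffineIndependent ℝ ![a, b, b'] →
  i ∈ I → j ∈ I' → 2 ≤ I.card → 2 ≤ I'.card → ¬ (I.card = 2 ∧ I'.card = 2) →
  ∀ q : restrictTotalDegree (Fin 3) ℝ d, Ord a (2 * r) q.1 →
    ∃ (k : Fin n → restrictTotalDegree (Fin 3) ℝ d)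
      (k' : Fin n' → restrictTotalDegree (Fin 3) ℝ d),
      Phi r d l k = 0 ∧ Phi r d l' k' = 0 ∧ (∀ m, m ∉ I → k m = 0) ∧
      (∀ m, m ∉ I' → k' m = 0) ∧ q = k i + k' j

/-- (T) Truncation of relations between planes through `a`. -/
def StT : Prop := ∀ (n r d L : ℕ) (l : Fin n → MvPolynomial (Fin 3) ℝ) (a : Fin 3 → ℝ),
  (∀ i, (l i).totalDegree ≤ 1) → (∀ i, eval a (l i) = 0) →
  ∀ k : Fin n → restrictTotalDegree (Fin 3) ℝ d, Phi r d l k = 0 →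
    ∃ k0 k1 : Fin n → restrictTotalDegree (Fin 3) ℝ d, k = k0 + k1 ∧
      Phi r d l k0 = 0 ∧ Phi r d l k1 = 0 ∧ (∀ i, (k0 i).1.totalDegree ≤ L) ∧
      (∀ i, Ord a L (k1 i).1)

/-- (F) A cut-off polynomial. -/
def StF : Prop := ∀ (a b : Fin 3 → ℝ) (L : ℕ), a ≠ b →
  ∃ φ : MvPolynomial (Fin 3) ℝ, φ.totalDegree ≤ 2 * L ∧ Ord b L φ ∧ Ord a L (φ - 1)

end Pool.Agent.Lib.MP_d2a91d_an
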