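import Pool.Agent.Lib.MP_d2a91d_an.Z2_42
import Pool.Agent.Lib.MP_d2a91d_an.Stmts7
import Pool.Agent.Lib.MP_d2a91d_an.Adj2

namespace Pool.Agent.Lib.MP_d2a91d_an.Chain

open MvPolynomial

variable {N : ℕ} {K A : Finset (Finset (Fin N))} {p : Fin N → Fin 3 → ℝ}
  {cyc : Finset (Fin N) → ℕ → Finset (Fin N)}

/-- The triangles with two edges of `A`; two of them at the same edge sit at different ends. -/
structure SharedC (K A : Finset (Finset (Fin N))) (cyc : Finset (Fin N) → ℕ → Finset (Fin N))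
    (ι : Type) where
  g : ι → Finset (Fin N)
  E1 : ι → A
  E2 : ι → A
  I : ∀ x, Fin (degree K (E1 x).1)
  J : ∀ x, Fin (degree K (E2 x).1)
  V : ι → Fin N
  ne : ∀ x, E1 x ≠ E2 x
  hI : ∀ x, fi cyc (E1 x).1 (I x) = g x
  hJ : ∀ x, fi cyc (E2 x).1 (J x) = g x
  inj : Function.Injective g
  all : ∀ (e e' : A), e ≠ e' → ∀ (i : Fin (degree K e.1))
    (j : Fin (degree K e'.1)), fi cyc e.1 i = fi cyc e'.1 j →
    ∃ x, (e = E1 x ∧ e' = E2 x ∨ e = E2 x ∧ e' = E1 x) ∧ fi cyc e.1 i = g x
  V1 : ∀ x, V x ∈ (E1 x).1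
  V2 : ∀ x, V x ∈ (E2 x).1
  sep : ∀ x y, x ≠ y → ∀ e : A, (e = E1 x ∨ e = E2 x) → (e = E1 y ∨ e = E2 y) → V x ≠ V y

section

variable (K A cyc)

/-- The difference map. -/
noncomputable def DD {ι : Type} (S : SharedC K A cyc ι) (d : ℕ) :
    Z2_42.VA K A d →ₗ[ℝ] (ι → restrictTotalDegree (Fin 3) ℝ d) where
  toFun v x := ss cyc (S.E1 x).1 (S.I x) • v (S.E1 x) (S.I x) -
    ss cyc (S.E2 x).1 (S.J x) • v (S.E2 x) (S.J x)
  map_add' v w := by
    funext x
    simp only [Pi.add_apply, smul_add]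
    abel
  map_smul' c v := by
    funext x
    simp only [Pi.smul_apply, RingHom.id_apply, smul_sub, smul_comm c]

theorem DD_apply {ι : Type} (S : SharedC K A cyc ι) (d : ℕ) (v : Z2_42.VA K A d) (x : ι) :
    DD K A cyc S d v x = ss cyc (S.E1 x).1 (S.I x) • v (S.E1 x) (S.I x) -
      ss cyc (S.E2 x).1 (S.J x) • v (S.E2 x) (S.J x) := rfl

end

/-- The range of the closing map. -/
theorem range_PT_eq (hA : A ⊆ interiorFaces K 2) (hcard : ∀ t ∈ K, t.card = 4)
    (hcyc : Nice K cyc) {ι : Type}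
    (S : SharedC K A cyc ι) (p : Fin N → Fin 3 → ℝ) (r d : ℕ) :
    LinearMap.range (PTB K cyc p r d A) =
      (LinearMap.ker (DD K A cyc S d)).map (Z2_42.PhiAll K A cyc p r d) := by
  classical
  apply le_antisymm
  · rintro _ ⟨q, rfl⟩
    refine ⟨fun e i => ss cyc e.1 i • q ⟨fi cyc e.1 i, fi_mem hcard hcyc (hA e.2) i.2⟩, ?_, ?_⟩
    · rw [SetLike.mem_coe, LinearMap.mem_ker]
      funext x
      rw [DD_apply, smul_smul, smul_smul, Z2_42.ss_mul hA hcard hcyc, Z2_42.ss_mul hA hcard hcyc, one_smul,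
        one_smul]
      have h1 : (⟨fi cyc (S.E1 x).1 (S.I x), fi_mem hcard hcyc (hA (S.E1 x).2) (S.I x).2⟩ :
          interiorFaces K 3) = ⟨fi cyc (S.E2 x).1 (S.J x), fi_mem hcard hcyc (hA (S.E2 x).2)
          (S.J x).2⟩ := Subtype.ext ((S.hI x).trans (S.hJ x).symm)
      rw [h1, sub_self]
      rfl
    · funext e
      rw [Z2_42.PhiAll_apply, Z2_42.PTB_eq_Phi hA hcard hcyc]
      rfl
  · rintro _ ⟨v, hv, rfl⟩
    rw [SetLike.mem_coe, LinearMap.mem_ker] at hv
    have key : ∀ (e e' : A) (i : Fin (degree K e.1)) (j : Fin (degree K e'.1)),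
        fi cyc e.1 i = fi cyc e'.1 j → ss cyc e.1 i • v e i = ss cyc e'.1 j • v e' j := by
      intro e e' i j hij
      by_cases hee : e = e'
      · subst hee
        have : i = j := Fin.ext (fi_inj hcard hcyc (hA e.2) i.2 j.2 hij)
        rw [this]
      · obtain ⟨x, hx, hg⟩ := S.all e e' hee i j hij
        have h0 := congrFun hv x
        rw [DD_apply] at h0
        have h1 := sub_eq_zero.mp h0
        rcases hx with ⟨rfl, rfl⟩ | ⟨rfl, rfl⟩
        · have a1 : i = S.I x := Fin.ext (fi_inj hcard hcyc (hA (S.E1 x).2) i.2 (S.I x).2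
            (hg.trans (S.hI x).symm))
          have a2 : j = S.J x := Fin.ext (fi_inj hcard hcyc (hA (S.E2 x).2) j.2 (S.J x).2
            (hij.symm.trans (hg.trans (S.hJ x).symm)))
          rw [a1, a2]
          exact h1
        · have a1 : i = S.J x := Fin.ext (fi_inj hcard hcyc (hA (S.E2 x).2) i.2 (S.J x).2
            (hg.trans (S.hJ x).symm))
          have a2 : j = S.I x := Fin.ext (fi_inj hcard hcyc (hA (S.E1 x).2) j.2 (S.I x).2
            (hij.symm.trans (hg.trans (S.hI x).symm)))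
          rw [a1, a2]
          exact h1.symm
    let q : interiorFaces K 3 → restrictTotalDegree (Fin 3) ℝ d := fun f =>
      if h : ∃ ei : (e : A) × Fin (degree K e.1), fi cyc ei.1.1 ei.2 = f.1 then
        ss cyc h.choose.1.1 h.choose.2 • v h.choose.1 h.choose.2
      else 0
    have hq : ∀ (e : A) (i : Fin (degree K e.1)),
        q ⟨fi cyc e.1 i, fi_mem hcard hcyc (hA e.2) i.2⟩ = ss cyc e.1 i • v e i := by
      intro e i
      have h : ∃ ei : (e : A) × Fin (degree K e.1),
          fi cyc ei.1.1 ei.2 = fi cyc e.1 i := ⟨⟨e, i⟩, rfl⟩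
      have h1 : q ⟨fi cyc e.1 i, fi_mem hcard hcyc (hA e.2) i.2⟩ =
        ss cyc h.choose.1.1 h.choose.2 • v h.choose.1 h.choose.2 := dif_pos h
      rw [h1]
      exact key _ _ _ _ h.choose_spec
    refine ⟨q, ?_⟩
    funext e
    rw [Z2_42.PhiAll_apply, Z2_42.PTB_eq_Phi hA hcard hcyc]
    congr 1
    funext i
    rw [hq e i]
    change ss cyc e.1 i • (ss cyc e.1 i • v e i) = v e i
    rw [smul_smul, Z2_42.ss_mul hA hcard hcyc, one_smul]

/-- The difference map is surjective. -/
theorem DD_surj (hA : A ⊆ interiorFaces K 2) (hcard : ∀ t ∈ K, t.card = 4)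
    (hcyc : Nice K cyc) {ι : Type}
    [Fintype ι] (S : SharedC K A cyc ι) (d : ℕ) : Function.Surjective (DD K A cyc S d) := by
  classical
  have h1 : ∀ (x : ι) (z : restrictTotalDegree (Fin 3) ℝ d),
      ∃ v, DD K A cyc S d v = Pi.single x z := by
    intro x z
    refine ⟨Pi.single (S.E1 x) (Pi.single (S.I x) (ss cyc (S.E1 x).1 (S.I x) • z)), ?_⟩
    have hz : ∀ (e : A) (i : Fin (degree K e.1)),
        (e ≠ S.E1 x ∨ fi cyc e.1 i ≠ fi cyc (S.E1 x).1 (S.I x)) →
        (Pi.single (S.E1 x) (Pi.single (S.I x) (ss cyc (S.E1 x).1 (S.I x) • z)) :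
          Z2_42.VA K A d) e i = 0 := by
      intro e i h
      by_cases he : e = S.E1 x
      · subst he
        rw [Pi.single_eq_same]
        have hi : i ≠ S.I x := by
          rintro rfl
          rcases h with h | h
          · exact h rfl
          · exact h rfl
        rw [Pi.single_eq_of_ne hi]
      · rw [Pi.single_eq_of_ne he]
        rfl
    funext y
    rw [DD_apply]
    by_cases hxy : y = x
    · subst hxy
      rw [Pi.single_eq_same, Pi.single_eq_same, hz (S.E2 y) (S.J y) (Or.inl (S.ne y).symm),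
        smul_zero, sub_zero, smul_smul, Z2_42.ss_mul hA hcard hcyc, one_smul, Pi.single_eq_same]
    · have hg : S.g y ≠ S.g x := fun h => hxy (S.inj h)
      rw [Pi.single_eq_of_ne hxy,
        hz (S.E1 y) (S.I y) (Or.inr (by rw [S.hI y, S.hI x]; exact hg)),
        hz (S.E2 y) (S.J y) (Or.inr (by rw [S.hJ y, S.hI x]; exact hg)),
        smul_zero, smul_zero, sub_zero]
  choose w hw using h1
  intro y
  refine ⟨∑ x, w x (y x), ?_⟩
  rw [map_sum]
  simp only [hw]
  exact Finset.univ_sum_single y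

section Dual

variable {ι : Type} [Fintype ι] [DecidableEq ι] (S : SharedC K A cyc ι) {r d : ℕ}
  (ψ : (ι → restrictTotalDegree (Fin 3) ℝ d) →ₗ[ℝ] ℝ)

/-- `DD` of a tuple at one edge. -/
theorem DD_single (e : A) (y : ι) :
    (∀ k : Fin (degree K e.1) → restrictTotalDegree (Fin 3) ℝ d,
      DD K A cyc S d (Pi.single e k) y = 0) ∨
    (e = S.E1 y ∨ e = S.E2 y) ∧ ∃ (c : ℝ) (m : Fin (degree K e.1)), fi cyc e.1 m = S.g y ∧
      ∀ k : Fin (degree K e.1) → restrictTotalDegree (Fin 3) ℝ d,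
        DD K A cyc S d (Pi.single e k) y = c • k m := by
  by_cases h1 : e = S.E1 y
  · right
    subst h1
    refine ⟨Or.inl rfl, ss cyc (S.E1 y).1 (S.I y), S.I y, S.hI y, fun k => ?_⟩
    rw [DD_apply, Pi.single_eq_same, Pi.single_eq_of_ne (S.ne y).symm, Pi.zero_apply, smul_zero,
      sub_zero]
  · by_cases h2 : e = S.E2 y
    · right
      subst h2
      refine ⟨Or.inr rfl, -ss cyc (S.E2 y).1 (S.J y), S.J y, S.hJ y, fun k => ?_⟩
      rw [DD_apply, Pi.single_eq_same, Pi.single_eq_of_ne (S.ne y), Pi.zero_apply, smul_zero,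
        zero_sub]
      exact (neg_smul _ _).symm
    · left
      intro k
      rw [DD_apply, Pi.single_eq_of_ne (Ne.symm h1), Pi.single_eq_of_ne (Ne.symm h2),
        Pi.zero_apply, Pi.zero_apply, smul_zero, smul_zero, sub_zero]

/-- A relation at an edge whose other values are killed. -/
theorem rel (p : Fin N → Fin 3 → ℝ)
    (hψ : (LinearMap.ker (Z2_42.PhiAll K A cyc p r d)).map (DD K A cyc S d) ≤ LinearMap.ker ψ)
    (e : A) (k : Fin (degree K e.1) → restrictTotalDegree (Fin 3) ℝ d)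
    (hk : Phi r d (le K cyc p e.1) k = 0) (x : ι)
    (h : ∀ y, y ≠ x → ψ (Pi.single y (DD K A cyc S d (Pi.single e k) y)) = 0) :
    ψ (Pi.single x (DD K A cyc S d (Pi.single e k) x)) = 0 := by
  have h1 : Pi.single e k ∈ LinearMap.ker (Z2_42.PhiAll K A cyc p r d) := by
    rw [LinearMap.mem_ker]
    funext e'
    rw [Z2_42.PhiAll_apply]
    by_cases he : e' = e
    · subst he
      rw [Pi.single_eq_same, hk]
      rfl
    · rw [Pi.single_eq_of_ne he, map_zero]
      rfl
  have h2 : ψ (DD K A cyc S d (Pi.single e k)) = 0 := hψ ⟨_, h1, rfl⟩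
  rw [← Finset.univ_sum_single (DD K A cyc S d (Pi.single e k)), map_sum,
    Finset.sum_eq_single x (fun y _ hy => h y hy) (fun h => absurd (Finset.mem_univ _) h)] at h2
  exact h2

/-- The indices at `e` that do not belong to another shared triangle. -/
noncomputable def freeI (x : ι) (e : A) : Finset (Fin (degree K e.1)) := by
  classical
  exact Finset.univ.filter (fun m => ∀ y, y ≠ x → (e = S.E1 y ∨ e = S.E2 y) →
    fi cyc e.1 m ≠ S.g y)

theorem mem_freeI {x : ι} {e : A} {m : Fin (degree K e.1)} : m ∈ freeI S x e ↔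
    ∀ y, y ≠ x → (e = S.E1 y ∨ e = S.E2 y) → fi cyc e.1 m ≠ S.g y := by
  unfold freeI
  simp

theorem card_freeI (hA : A ⊆ interiorFaces K 2) (hcard : ∀ t ∈ K, t.card = 4)
    (hcyc : Nice K cyc) (x : ι) (e : A) (he : e = S.E1 x ∨ e = S.E2 x) :
    degree K e.1 ≤ (freeI S x e).card + 1 := by
  classical
  have h1 : ((freeI S x e)ᶜ).card ≤ 1 := by
    rw [Finset.card_le_one]
    intro m hm m' hm'
    rw [Finset.mem_compl, mem_freeI] at hm hm'
    push Not at hm hm'
    obtain ⟨y, hy, hye, hg⟩ := hm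
    obtain ⟨y', hy', hye', hg'⟩ := hm'
    have hVV : y = y' := by
      by_contra hne
      have c1 := S.sep y y' hne e hye hye'
      have c2 := S.sep x y (Ne.symm hy) e he hye
      have c3 := S.sep x y' (Ne.symm hy') e he hye'
      have m1 : S.V x ∈ e.1 := by
        rcases he with h | h
        · rw [h]; exact S.V1 x
        · rw [h]; exact S.V2 x
      have m2 : S.V y ∈ e.1 := by
        rcases hye with h | h
        · rw [h]; exact S.V1 y
        · rw [h]; exact S.V2 y
      have m3 : S.V y' ∈ e.1 := by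
        rcases hye' with h | h
        · rw [h]; exact S.V1 y'
        · rw [h]; exact S.V2 y'
      have c4 : ({S.V x, S.V y, S.V y'} : Finset (Fin N)).card = 3 := by
        rw [Finset.card_insert_of_notMem, Finset.card_pair c1]
        rw [Finset.mem_insert, Finset.mem_singleton]
        rintro (h | h)
        · exact c2 h
        · exact c3 h
      have c5 : ({S.V x, S.V y, S.V y'} : Finset (Fin N)) ⊆ e.1 := by
        intro z hz
        rw [Finset.mem_insert, Finset.mem_insert, Finset.mem_singleton] at hz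
        rcases hz with rfl | rfl | rfl
        · exact m1
        · exact m2
        · exact m3
      have c6 := Finset.card_le_card c5
      rw [card_edge (hA e.2)] at c6
      omega
    subst hVV
    exact Fin.ext (fi_inj hcard hcyc (hA e.2) m.2 m'.2 (hg.trans hg'.symm))
  have h2 := Finset.card_compl_add_card (freeI S x e)
  rw [Fintype.card_fin] at h2
  omega

/-- (1) Everything of high order at the common vertex is killed. -/
theorem kill (hK : StK) (hA : A ⊆ interiorFaces K 2) (hp : WR K p) (hcyc : Nice K cyc)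
    (hdist : ∀ e ∈ A, DistinctAt K p e)
    (h3 : ∀ x, ¬ (degree K (S.E1 x).1 = 3 ∧ degree K (S.E2 x).1 = 3))
    (hψ : (LinearMap.ker (Z2_42.PhiAll K A cyc p r d)).map (DD K A cyc S d) ≤ LinearMap.ker ψ)
    (x : ι) (q : restrictTotalDegree (Fin 3) ℝ d) (hq : Ord (p (S.V x)) (2 * r) q.1) :
    ψ (Pi.single x q) = 0 := by
  classical
  have hcard := hp.card
  have hg : S.g x ∈ faces K 3 := by
    rw [← S.hI x]
    exact (mem_interiorFaces.mp (fi_mem hp.card hcyc (hA (S.E1 x).2) (S.I x).2)).1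
  have s1 : (S.E1 x).1 ⊆ S.g x := by
    have := sub_fi hcyc (hA (S.E1 x).2) (S.I x).2
    rwa [S.hI x] at this
  have s2 : (S.E2 x).1 ⊆ S.g x := by
    have := sub_fi hcyc (hA (S.E2 x).2) (S.J x).2
    rwa [S.hJ x] at this
  have hne' : (S.E1 x).1 ≠ (S.E2 x).1 := fun h => S.ne x (Subtype.ext h)
  obtain ⟨hg3, t, ht, hgt⟩ := mem_faces.mp hg
  obtain ⟨b, hb, hbv⟩ := Finset.exists_mem_ne
    (by rw [card_edge (hA (S.E1 x).2)]; norm_num) (S.V x) (s := (S.E1 x).1)
  obtain ⟨b', hb', hbv'⟩ := Finset.exists_mem_ne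
    (by rw [card_edge (hA (S.E2 x).2)]; norm_num) (S.V x) (s := (S.E2 x).1)
  have hbb : b ≠ b' := by
    rintro rfl
    apply hne'
    have k1 : ({S.V x, b} : Finset (Fin N)) = (S.E1 x).1 :=
      Finset.eq_of_subset_of_card_le (by
        intro y hy
        rw [Finset.mem_insert, Finset.mem_singleton] at hy
        rcases hy with rfl | rfl
        · exact S.V1 x
        · exact hb) (by rw [card_edge (hA (S.E1 x).2), Finset.card_pair hbv.symm])
    have k2 : ({S.V x, b} : Finset (Fin N)) = (S.E2 x).1 :=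
      Finset.eq_of_subset_of_card_le (by
        intro y hy
        rw [Finset.mem_insert, Finset.mem_singleton] at hy
        rcases hy with rfl | rfl
        · exact S.V2 x
        · exact hb') (by rw [card_edge (hA (S.E2 x).2), Finset.card_pair hbv.symm])
    exact k1.symm.trans k2
  have c1 := card_freeI S hA hcard hcyc x (S.E1 x) (Or.inl rfl)
  have c2 := card_freeI S hA hcard hcyc x (S.E2 x) (Or.inr rfl)
  have t1 := hcyc.three _ (hA (S.E1 x).2)
  have t2 := hcyc.three _ (hA (S.E2 x).2)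
  have t3 := h3 x
  obtain ⟨k, k', hk, hk', hz, hz', hqq⟩ := hK _ _ r d (le K cyc p (S.E1 x).1)
    (le K cyc p (S.E2 x).1) (S.I x) (S.J x) (p (S.V x)) (p b) (p b')
    (freeI S x (S.E1 x)) (freeI S x (S.E2 x))
    (pencil_w hp hcyc (hA (S.E1 x).2) (hdist _ (S.E1 x).2) (S.V1 x) hb)
    (pencil_w hp hcyc (hA (S.E2 x).2) (hdist _ (S.E2 x).2) (S.V2 x) hb')
    (by
      unfold le
      rw [S.hI x, S.hJ x])
    (affInd3_w hp ht (hgt (s1 (S.V1 x))) (hgt (s1 hb)) (hgt (s2 hb')) hbv.symm hbv'.symm hbb)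
    ((mem_freeI S).mpr (fun y hy _ h => hy (S.inj (h.symm.trans (S.hI x)))))
    ((mem_freeI S).mpr (fun y hy _ h => hy (S.inj (h.symm.trans (S.hJ x)))))
    (by omega) (by omega) (by omega) q hq
  -- the two relations
  have main : ∀ (e : A) (k : Fin (degree K e.1) → restrictTotalDegree (Fin 3) ℝ d),
      Phi r d (le K cyc p e.1) k = 0 → (∀ m, m ∉ freeI S x e → k m = 0) →
      ψ (Pi.single x (DD K A cyc S d (Pi.single e k) x)) = 0 := by
    intro e k hk hz
    refine rel S ψ p hψ e k hk x ?_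
    intro y hy
    rcases DD_single S (d := d) e y with h | ⟨hye, c, m, hm, h⟩
    · rw [h k, Pi.single_zero, map_zero]
    · have : m ∉ freeI S x e := by
        rw [mem_freeI]
        push Not
        exact ⟨y, hy, hye, hm⟩
      rw [h k, hz m this, smul_zero, Pi.single_zero, map_zero]
  have r1 := main (S.E1 x) k hk hz
  have r2 := main (S.E2 x) k' hk' hz'
  rw [DD_apply, Pi.single_eq_same, Pi.single_eq_of_ne (S.ne x).symm, Pi.zero_apply, smul_zero,
    sub_zero, Pi.single_smul, map_smul, smul_eq_mul] at r1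
  rw [DD_apply, Pi.single_eq_same, Pi.single_eq_of_ne (S.ne x), Pi.zero_apply, smul_zero,
    zero_sub, Pi.single_neg, map_neg, Pi.single_smul, map_smul, smul_eq_mul, neg_eq_zero] at r2
  have n1 : ss cyc (S.E1 x).1 (S.I x) ≠ 0 := fun h => by
    have := Z2_42.ss_mul hA hcard hcyc (S.E1 x) (S.I x)
    rw [h, mul_zero] at this
    exact zero_ne_one this
  have n2 : ss cyc (S.E2 x).1 (S.J x) ≠ 0 := fun h => by
    have := Z2_42.ss_mul hA hcard hcyc (S.E2 x) (S.J x)
    rw [h, mul_zero] at this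
    exact zero_ne_one this
  rw [hqq, Pi.single_add, map_add, (mul_eq_zero.mp r1).resolve_left n1,
    (mul_eq_zero.mp r2).resolve_left n2, add_zero]

end Dual

end Pool.Agent.Lib.MP_d2a91d_an.Chain
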