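import Pool.Agent.Lib.MP_d2a91d_an.Chain

namespace Pool.Agent.Lib.MP_d2a91d_an.Chain

open MvPolynomial

theorem ord_add {a : Fin 3 → ℝ} {L : ℕ} {q q' : MvPolynomial (Fin 3) ℝ} (h : Ord a L q)
    (h' : Ord a L q') : Ord a L (q + q') := by
  intro v
  obtain ⟨G, hG⟩ := h v
  obtain ⟨G', hG'⟩ := h' v
  refine ⟨G + G', fun s => ?_⟩
  rw [map_add, hG, hG', Polynomial.eval_add]
  ring

theorem ord_neg {a : Fin 3 → ℝ} {L : ℕ} {q : MvPolynomial (Fin 3) ℝ} (h : Ord a L q) :
    Ord a L (-q) := by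
  intro v
  obtain ⟨G, hG⟩ := h v
  refine ⟨-G, fun s => ?_⟩
  rw [map_neg, hG, Polynomial.eval_neg]
  ring

theorem ord_smul {a : Fin 3 → ℝ} {L : ℕ} {q : MvPolynomial (Fin 3) ℝ} (h : Ord a L q) (c : ℝ) :
    Ord a L (c • q) := by
  intro v
  obtain ⟨G, hG⟩ := h v
  refine ⟨Polynomial.C c * G, fun s => ?_⟩
  rw [smul_eval, hG, Polynomial.eval_mul, Polynomial.eval_C]
  ring

theorem eval_line (a v : Fin 3 → ℝ) (g : MvPolynomial (Fin 3) ℝ) :
    ∃ G : Polynomial ℝ, ∀ s : ℝ, eval (a + s • v) g = G.eval s := by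
  refine ⟨aeval (fun i => Polynomial.C (a i) + Polynomial.X * Polynomial.C (v i)) g, fun s => ?_⟩
  induction g using MvPolynomial.induction_on with
  | C c => simp
  | add g g' hg hg' => rw [map_add, map_add, Polynomial.eval_add, hg, hg']
  | mul_X g i hg =>
    rw [map_mul, map_mul, Polynomial.eval_mul, hg, eval_X, aeval_X]
    congr 1
    rw [Polynomial.eval_add, Polynomial.eval_C, Polynomial.eval_mul, Polynomial.eval_X,
      Polynomial.eval_C, Pi.add_apply, Pi.smul_apply, smul_eq_mul]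

theorem ord_mul {a : Fin 3 → ℝ} {L : ℕ} {q : MvPolynomial (Fin 3) ℝ} (h : Ord a L q)
    (g : MvPolynomial (Fin 3) ℝ) : Ord a L (q * g) := by
  intro v
  obtain ⟨G, hG⟩ := h v
  obtain ⟨G', hG'⟩ := eval_line a v g
  refine ⟨G * G', fun s => ?_⟩
  rw [map_mul, hG, hG', Polynomial.eval_mul]
  ring

variable {N : ℕ} {K A : Finset (Finset (Fin N))} {p : Fin N → Fin 3 → ℝ}
  {cyc : Finset (Fin N) → ℕ → Finset (Fin N)}

section Dual

variable {ι : Type} [Fintype ι] [DecidableEq ι] (S : SharedC K A cyc ι) {r d : ℕ}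
  (ψ : (ι → restrictTotalDegree (Fin 3) ℝ d) →ₗ[ℝ] ℝ)

/-- (2) The entries of all relations are killed. -/
theorem kill_entry (hK : StK) (hT : StT) (hF : StF) (hA : A ⊆ interiorFaces K 2) (hp : WR K p)
    (hcyc : Nice K cyc)
    (hdist : ∀ e ∈ A, DistinctAt K p e)
    (h3 : ∀ x, ¬ (degree K (S.E1 x).1 = 3 ∧ degree K (S.E2 x).1 = 3))
    (hd : 6 * r ≤ d)
    (hψ : (LinearMap.ker (Z2_42.PhiAll K A cyc p r d)).map (DD K A cyc S d) ≤ LinearMap.ker ψ)
    (x : ι) (e : A) (he : e = S.E1 x ∨ e = S.E2 x)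
    (k : Fin (degree K e.1) → restrictTotalDegree (Fin 3) ℝ d)
    (hk : Phi r d (le K cyc p e.1) k = 0) :
    ψ (Pi.single x (DD K A cyc S d (Pi.single e k) x)) = 0 := by
  classical
  have hve : S.V x ∈ e.1 := by
    rcases he with h | h
    · rw [h]; exact S.V1 x
    · rw [h]; exact S.V2 x
  obtain ⟨b, hb, hbv⟩ := Finset.exists_mem_ne
    (by rw [card_edge (hA e.2)]; norm_num) (S.V x) (s := e.1)
  have hpen := pencil_w hp hcyc (hA e.2) (hdist _ e.2) hve hb
  have hab : p (S.V x) ≠ p b := by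
    obtain ⟨t, ht, het⟩ : ∃ t ∈ K, e.1 ⊆ t := by
      have := (mem_interiorFaces.mp (hA e.2)).1
      exact (mem_faces.mp this).2
    intro h
    have h1 := (hp.nondeg t ht).injective (a₁ := ⟨S.V x, het hve⟩) (a₂ := ⟨b, het hb⟩) h
    exact hbv (congrArg Subtype.val h1).symm
  obtain ⟨k0, k1, hk01, hk0, hk1, hdeg0, hord1⟩ := hT _ r d (2 * r) (le K cyc p e.1) (p (S.V x))
    hpen.deg (fun i => (hpen.van i).1) k hk
  obtain ⟨φ, hφd, hφb, hφa⟩ := hF (p (S.V x)) (p b) (2 * r) hab
  -- the relation times the cut-off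
  have hdeg2 : ∀ i, φ * (k0 i).1 ∈ restrictTotalDegree (Fin 3) ℝ d := by
    intro i
    rw [mem_restrictTotalDegree]
    refine (totalDegree_mul _ _).trans ?_
    have := hdeg0 i
    omega
  let k2 : Fin (degree K e.1) → restrictTotalDegree (Fin 3) ℝ d := fun i => ⟨_, hdeg2 i⟩
  have hk2 : Phi r d (le K cyc p e.1) k2 = 0 := by
    rw [Phi_apply] at hk0 ⊢
    have : ∑ i, le K cyc p e.1 i ^ (r + 1) * (k2 i).1 =
        φ * ∑ i, le K cyc p e.1 i ^ (r + 1) * (k0 i).1 := by
      rw [Finset.mul_sum]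
      refine Finset.sum_congr rfl fun i _ => ?_
      change _ * (φ * (k0 i).1) = _
      ring
    rw [this, hk0, mul_zero]
  have hsplit : k = k2 + (k - k2) := by
    rw [add_sub_cancel]
  have hord3 : ∀ i, Ord (p (S.V x)) (2 * r) ((k - k2) i).1 := by
    intro i
    have h1 : ((k - k2) i).1 = -((φ - 1) * (k0 i).1) + (k1 i).1 := by
      rw [hk01]
      change (k0 i).1 + (k1 i).1 - φ * (k0 i).1 = _
      ring
    rw [h1]
    exact ord_add (ord_neg (ord_mul hφa _)) (hord1 i)
  -- first part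
  have p1 : ψ (Pi.single x (DD K A cyc S d (Pi.single e k2) x)) = 0 := by
    refine rel S ψ p hψ e k2 hk2 x ?_
    intro y hy
    rcases DD_single S (d := d) e y with h | ⟨hye, c, m, hm, h⟩
    · rw [h k2, Pi.single_zero, map_zero]
    · have hVy : S.V y ∈ e.1 := by
        rcases hye with h' | h'
        · rw [h']; exact S.V1 y
        · rw [h']; exact S.V2 y
      have hne : S.V y ≠ S.V x := S.sep y x hy e hye he
      have hVb : S.V y = b := by
        by_contra hc
        have c4 : ({S.V x, S.V y, b} : Finset (Fin N)).card = 3 := by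
          rw [Finset.card_insert_of_notMem, Finset.card_pair hc]
          rw [Finset.mem_insert, Finset.mem_singleton]
          rintro (h | h)
          · exact hne h.symm
          · exact hbv h.symm
        have c5 : ({S.V x, S.V y, b} : Finset (Fin N)) ⊆ e.1 := by
          intro z hz
          rw [Finset.mem_insert, Finset.mem_insert, Finset.mem_singleton] at hz
          rcases hz with rfl | rfl | rfl
          · exact hve
          · exact hVy
          · exact hb
        have c6 := Finset.card_le_card c5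
        rw [card_edge (hA e.2)] at c6
        omega
      rw [h k2, Pi.single_smul, map_smul, smul_eq_mul]
      rw [kill S ψ hK hA hp hcyc hdist h3 hψ y (k2 m) ?_, mul_zero]
      rw [hVb]
      exact ord_mul hφb _
  -- second part
  have p2 : ψ (Pi.single x (DD K A cyc S d (Pi.single e (k - k2)) x)) = 0 := by
    rcases DD_single S (d := d) e x with h | ⟨-, c, m, -, h⟩
    · rw [h, Pi.single_zero, map_zero]
    · rw [h, Pi.single_smul, map_smul, smul_eq_mul]
      rw [kill S ψ hK hA hp hcyc hdist h3 hψ x _ (hord3 m), mul_zero]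
  have p3 : DD K A cyc S d (Pi.single e k) x = DD K A cyc S d (Pi.single e k2) x +
      DD K A cyc S d (Pi.single e (k - k2)) x := by
    rw [← Pi.add_apply, ← map_add, ← Pi.single_add, ← hsplit]
  rw [p3, Pi.single_add, map_add, p1, p2, add_zero]

end Dual

/-- The image of the relations. -/
theorem DD_ker (hK : StK) (hT : StT) (hF : StF) (hA : A ⊆ interiorFaces K 2) (hp : WR K p)
    (hcyc : Nice K cyc) (hdist : ∀ e ∈ A, DistinctAt K p e) {ι : Type}
    [Fintype ι] (S : SharedC K A cyc ι)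
    (h3 : ∀ x, ¬ (degree K (S.E1 x).1 = 3 ∧ degree K (S.E2 x).1 = 3)) (r d : ℕ)
    (hd : 6 * r ≤ d) :
    (LinearMap.ker (Z2_42.PhiAll K A cyc p r d)).map (DD K A cyc S d) =
      Submodule.pi Set.univ (fun x => entry r d (le K cyc p (S.E1 x).1) (S.I x) ⊔
        entry r d (le K cyc p (S.E2 x).1) (S.J x)) := by
  classical
  have hcard := hp.card
  apply le_antisymm
  · rintro _ ⟨v, hv, rfl⟩
    rw [SetLike.mem_coe, LinearMap.mem_ker] at hv
    intro x _
    have h1 : v (S.E1 x) (S.I x) ∈ entry r d (le K cyc p (S.E1 x).1) (S.I x) :=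
      ⟨v (S.E1 x), congrFun hv (S.E1 x), rfl⟩
    have h2 : v (S.E2 x) (S.J x) ∈ entry r d (le K cyc p (S.E2 x).1) (S.J x) :=
      ⟨v (S.E2 x), congrFun hv (S.E2 x), rfl⟩
    rw [DD_apply]
    exact Submodule.sub_mem _ (Submodule.smul_mem _ _ (Submodule.mem_sup_left h1))
      (Submodule.smul_mem _ _ (Submodule.mem_sup_right h2))
  · intro y hy
    by_contra hn
    obtain ⟨ψ, hψy, hψ⟩ := Submodule.exists_le_ker_of_notMem hn
    apply hψy
    rw [← Finset.univ_sum_single y, map_sum]
    refine Finset.sum_eq_zero fun x _ => ?_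
    obtain ⟨u, ⟨k, hk, hku⟩, w, ⟨k', hk', hkw⟩, huw⟩ := Submodule.mem_sup.mp (hy x trivial)
    have a1 := kill_entry S ψ hK hT hF hA hp hcyc hdist h3 hd hψ x (S.E1 x) (Or.inl rfl) k hk
    have a2 := kill_entry S ψ hK hT hF hA hp hcyc hdist h3 hd hψ x (S.E2 x) (Or.inr rfl) k' hk'
    rw [DD_apply, Pi.single_eq_same, Pi.single_eq_of_ne (S.ne x).symm, Pi.zero_apply, smul_zero,
      sub_zero, Pi.single_smul, map_smul, smul_eq_mul] at a1
    rw [DD_apply, Pi.single_eq_same, Pi.single_eq_of_ne (S.ne x), Pi.zero_apply, smul_zero,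
      zero_sub, Pi.single_neg, map_neg, Pi.single_smul, map_smul, smul_eq_mul, neg_eq_zero] at a2
    have n1 : ss cyc (S.E1 x).1 (S.I x) ≠ 0 := fun h => by
      have := Z2_42.ss_mul hA hcard hcyc (S.E1 x) (S.I x)
      rw [h, mul_zero] at this
      exact zero_ne_one this
    have n2 : ss cyc (S.E2 x).1 (S.J x) ≠ 0 := fun h => by
      have := Z2_42.ss_mul hA hcard hcyc (S.E2 x) (S.J x)
      rw [h, mul_zero] at this
      exact zero_ne_one this
    have b1 := (mul_eq_zero.mp a1).resolve_left n1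
    have b2 := (mul_eq_zero.mp a2).resolve_left n2
    have c1 : k (S.I x) = u := hku
    have c2 : k' (S.J x) = w := hkw
    rw [← huw, Pi.single_add, map_add, ← c1, ← c2, b1, b2, add_zero]

/-- The rank of the closing map. -/
theorem rank_shared (hK : StK) (hT : StT) (hF : StF) (hA : A ⊆ interiorFaces K 2) (hp : WR K p)
    (hcyc : Nice K cyc) (hdist : ∀ e ∈ A, DistinctAt K p e) {ι : Type}
    [Fintype ι] (S : SharedC K A cyc ι)
    (h3 : ∀ x, ¬ (degree K (S.E1 x).1 = 3 ∧ degree K (S.E2 x).1 = 3)) (r d : ℕ)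
    (hd : 6 * r ≤ d) :
    Module.finrank ℝ (LinearMap.range (PTB K cyc p r d A)) +
      ∑ _x : ι, Module.finrank ℝ (restrictTotalDegree (Fin 3) ℝ d) =
    ∑ e : A, Module.finrank ℝ (LinearMap.range (Phi r d (le K cyc p e.1))) +
      ∑ x : ι, Module.finrank ℝ (entry r d (le K cyc p (S.E1 x).1) (S.I x) ⊔
        entry r d (le K cyc p (S.E2 x).1) (S.J x) : Submodule ℝ _) := by
  classical
  have hcard := hp.card
  have a1 := H79.rank_restrict (Z2_42.PhiAll K A cyc p r d) (LinearMap.ker (DD K A cyc S d))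
  have a2 := H79.rank_restrict (DD K A cyc S d) (LinearMap.ker (Z2_42.PhiAll K A cyc p r d))
  have a3 := LinearMap.finrank_range_add_finrank_ker (DD K A cyc S d)
  have a4 := LinearMap.finrank_range_add_finrank_ker (Z2_42.PhiAll K A cyc p r d)
  rw [← range_PT_eq hA hcard hcyc S p r d] at a1
  rw [DD_ker hK hT hF hA hp hcyc hdist S h3 r d hd, finrank_submodule_pi] at a2
  rw [LinearMap.range_eq_top.mpr (DD_surj hA hcard hcyc S d), finrank_top,
    Module.finrank_pi_fintype] at a3
  have a5 : Module.finrank ℝ (LinearMap.range (Z2_42.PhiAll K A cyc p r d)) =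
      ∑ e : A,
        Module.finrank ℝ (LinearMap.range (Phi r d (le K cyc p e.1))) := by
    have hr : LinearMap.range (Z2_42.PhiAll K A cyc p r d) =
        Submodule.pi Set.univ (fun e => LinearMap.range (Phi r d (le K cyc p e.1))) := by
      apply le_antisymm
      · rintro _ ⟨v, rfl⟩ e _
        exact ⟨v e, rfl⟩
      · intro y hy
        choose x hx using fun e => hy e trivial
        exact ⟨x, funext hx⟩
    rw [hr]
    let f : Submodule.pi Set.univ (fun e : A =>
        LinearMap.range (Phi r d (le K cyc p e.1))) ≃ₗ[ℝ]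
        (∀ e : A, LinearMap.range (Phi r d (le K cyc p e.1))) :=
      { toFun := fun x i => ⟨x.1 i, x.2 i trivial⟩
        invFun := fun y => ⟨fun i => (y i).1, fun i _ => (y i).2⟩
        left_inv := fun x => rfl
        right_inv := fun y => rfl
        map_add' := fun x y => rfl
        map_smul' := fun c x => rfl }
    rw [f.finrank_eq, Module.finrank_pi_fintype]
  rw [inf_comm] at a2
  rw [a5] at a4
  omega

end Pool.Agent.Lib.MP_d2a91d_an.Chain
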