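import Pool.Agent.Lib.MP_d2a91d_an.Chain2

namespace Pool.Agent.Lib.MP_d2a91d_an.Chain

open MvPolynomial

variable {N : ℕ} {K A : Finset (Finset (Fin N))} {p : Fin N → Fin 3 → ℝ}
  {cyc : Finset (Fin N) → ℕ → Finset (Fin N)}

/-- The triangle is the union of its two edges. -/
theorem g_eq (hA : A ⊆ interiorFaces K 2) (hcard : ∀ t ∈ K, t.card = 4) (hcyc : Nice K cyc)
    {ι : Type} (S : SharedC K A cyc ι) (x : ι) : (S.E1 x).1 ∪ (S.E2 x).1 = S.g x := by
  have s1 : (S.E1 x).1 ⊆ S.g x := by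
    have := sub_fi hcyc (hA (S.E1 x).2) (S.I x).2
    rwa [S.hI x] at this
  have s2 : (S.E2 x).1 ⊆ S.g x := by
    have := sub_fi hcyc (hA (S.E2 x).2) (S.J x).2
    rwa [S.hJ x] at this
  have hg : S.g x ∈ faces K 3 := by
    rw [← S.hI x]
    exact (mem_interiorFaces.mp (fi_mem hcard hcyc (hA (S.E1 x).2) (S.I x).2)).1
  exact union_eq (card_edge (hA (S.E1 x).2)) (card_edge (hA (S.E2 x).2)) (mem_faces.mp hg).1
    (fun h => S.ne x (Subtype.ext h)) s1 s2

/-- The data of the triangles with two edges in `A`. -/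
theorem exists_sharedC (hA : A ⊆ interiorFaces K 2) (hcard : ∀ t ∈ K, t.card = 4)
    (hcyc : Nice K cyc)
    (h2 : ∀ f ∈ faces K 3, (A.filter (fun e => e ⊆ f)).card ≤ 2)
    (h1 : ∀ e ∈ A, ∀ v ∈ e, ((partnersIn K A e).filter (fun e' => v ∈ e')).card ≤ 1) :
    Nonempty (SharedC K A cyc (Z2_42.ShA K A)) := by
  classical
  have hdata : ∀ x : Z2_42.ShA K A, ∃ (e e' : A), e ≠ e' ∧
      (∃ i : Fin (degree K e.1), fi cyc e.1 i = x.1) ∧
      (∃ j : Fin (degree K e'.1), fi cyc e'.1 j = x.1) := by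
    rintro ⟨g, hg⟩
    obtain ⟨hg3, e, he, e', he', hne, hs, hs'⟩ := Finset.mem_filter.mp hg
    obtain ⟨i, hi, hfi⟩ := fi_surj hcard hcyc (hA he) hg3 hs
    obtain ⟨j, hj, hfj⟩ := fi_surj hcard hcyc (hA he') hg3 hs'
    exact ⟨⟨e, he⟩, ⟨e', he'⟩, fun h => hne (congrArg Subtype.val h), ⟨⟨i, hi⟩, hfi⟩,
      ⟨⟨j, hj⟩, hfj⟩⟩
  choose E1 E2 hne hI hJ using hdata
  choose I hI using hI
  choose J hJ using hJ
  have s1 : ∀ x, (E1 x).1 ⊆ x.1 := fun x => by
    have := sub_fi hcyc (hA (E1 x).2) (I x).2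
    rwa [hI x] at this
  have s2 : ∀ x, (E2 x).1 ⊆ x.1 := fun x => by
    have := sub_fi hcyc (hA (E2 x).2) (J x).2
    rwa [hJ x] at this
  have hf : ∀ x : Z2_42.ShA K A, x.1 ∈ faces K 3 := fun x => (Finset.mem_filter.mp x.2).1
  have hc : ∀ x : Z2_42.ShA K A, x.1.card = 3 := fun x => (mem_faces.mp (hf x)).1
  have hne' : ∀ x, (E1 x).1 ≠ (E2 x).1 := fun x h => hne x (Subtype.ext h)
  have hu : ∀ x, (E1 x).1 ∪ (E2 x).1 = x.1 := fun x =>
    union_eq (card_edge (hA (E1 x).2)) (card_edge (hA (E2 x).2)) (hc x) (hne' x) (s1 x) (s2 x)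
  have hv : ∀ x, ∃ v, v ∈ (E1 x).1 ∧ v ∈ (E2 x).1 := by
    intro x
    obtain ⟨v, hv⟩ : ((E1 x).1 ∩ (E2 x).1).Nonempty := by
      rw [← Finset.card_pos]
      have c1 := card_edge (hA (E1 x).2)
      have c2 := card_edge (hA (E2 x).2)
      have c4 := Finset.card_union_add_card_inter (E1 x).1 (E2 x).1
      rw [hu x, hc x] at c4
      omega
    exact ⟨v, Finset.mem_inter.mp hv⟩
  choose V hV1 hV2 using hv
  refine ⟨⟨fun x => x.1, E1, E2, I, J, V, hne, hI, hJ, Subtype.val_injective, ?_, hV1, hV2, ?_⟩⟩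
  · intro e e' hee i j hij
    have q1 : e.1 ⊆ fi cyc e.1 i := sub_fi hcyc (hA e.2) i.2
    have q2 : e'.1 ⊆ fi cyc e.1 i := by rw [hij]; exact sub_fi hcyc (hA e'.2) j.2
    have q3 : fi cyc e.1 i ∈ faces K 3 :=
      (mem_interiorFaces.mp (fi_mem hcard hcyc (hA e.2) i.2)).1
    have hee' : e.1 ≠ e'.1 := fun h => hee (Subtype.ext h)
    have q4 : fi cyc e.1 i ∈ Z2_42.ShA K A :=
      Finset.mem_filter.mpr ⟨q3, e.1, e.2, e'.1, e'.2, hee', q1, q2⟩
    refine ⟨⟨fi cyc e.1 i, q4⟩, ?_, rfl⟩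
    set x : Z2_42.ShA K A := ⟨fi cyc e.1 i, q4⟩ with hx
    have hsub : ({(E1 x).1, (E2 x).1} : Finset (Finset (Fin N))) ⊆
        A.filter (fun e => e ⊆ x.1) := by
      intro z hz
      rw [Finset.mem_insert, Finset.mem_singleton] at hz
      rcases hz with rfl | rfl
      · exact Finset.mem_filter.mpr ⟨(E1 x).2, s1 x⟩
      · exact Finset.mem_filter.mpr ⟨(E2 x).2, s2 x⟩
    have heq := Finset.eq_of_subset_of_card_le hsub
      (by rw [Finset.card_pair (hne' x)]; exact h2 x.1 (hf x))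
    have m1 : e.1 ∈ ({(E1 x).1, (E2 x).1} : Finset (Finset (Fin N))) := by
      rw [heq]
      exact Finset.mem_filter.mpr ⟨e.2, q1⟩
    have m2 : e'.1 ∈ ({(E1 x).1, (E2 x).1} : Finset (Finset (Fin N))) := by
      rw [heq]
      exact Finset.mem_filter.mpr ⟨e'.2, q2⟩
    rw [Finset.mem_insert, Finset.mem_singleton] at m1 m2
    rcases m1 with m1 | m1 <;> rcases m2 with m2 | m2
    · exact absurd (m1.trans m2.symm) hee'
    · exact Or.inl ⟨Subtype.ext m1, Subtype.ext m2⟩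
    · exact Or.inr ⟨Subtype.ext m1, Subtype.ext m2⟩
    · exact absurd (m1.trans m2.symm) hee'
  · intro x y hxy e hx hy hVV
    have key : ∀ x : Z2_42.ShA K A, (e = E1 x ∨ e = E2 x) → ∃ e' ∈ A, e.1 ≠ e' ∧ V x ∈ e' ∧
        e.1 ⊆ x.1 ∧ e' ⊆ x.1 ∧ e.1 ∪ e' = x.1 := by
      rintro x (rfl | rfl)
      · exact ⟨(E2 x).1, (E2 x).2, hne' x, hV2 x, s1 x, s2 x, hu x⟩
      · exact ⟨(E1 x).1, (E1 x).2, (hne' x).symm, hV1 x, s2 x, s1 x, by
          rw [Finset.union_comm]; exact hu x⟩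
    obtain ⟨e', he', n', v', a', b', u'⟩ := key x hx
    obtain ⟨e'', he'', n'', v'', a'', b'', u''⟩ := key y hy
    have hVe : V x ∈ e.1 := by
      rcases hx with h | h
      · rw [h]; exact hV1 x
      · rw [h]; exact hV2 x
    have := Finset.card_le_one.mp (h1 e.1 e.2 (V x) hVe) e'
      (Finset.mem_filter.mpr ⟨Finset.mem_filter.mpr ⟨he', n', x.1, hf x, a', b'⟩, v'⟩) e''
      (Finset.mem_filter.mpr ⟨Finset.mem_filter.mpr ⟨he'', n'', y.1, hf y, a'', b''⟩,
        hVV ▸ v''⟩)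
    apply hxy
    apply Subtype.ext
    rw [← u', ← u'', this]

/-- The sum over ordered pairs is twice the sum over the shared triangles. -/
theorem sum_pairs (hA : A ⊆ interiorFaces K 2) (hcard : ∀ t ∈ K, t.card = 4) (hcyc : Nice K cyc)
    {ι : Type} [Fintype ι]
    (S : SharedC K A cyc ι) (F : ℕ → ℕ → ℕ) (hF : ∀ a b, F a b = F b a) :
    ∑ e ∈ A, ∑ e' ∈ partnersIn K A e, F (degree K e) (degree K e') =
      2 * ∑ x : ι, F (degree K (S.E1 x).1) (degree K (S.E2 x).1) := by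
  classical
  have hs : ∑ e ∈ A, ∑ e' ∈ partnersIn K A e, F (degree K e) (degree K e') =
      ∑ y ∈ (A).sigma (fun e => partnersIn K A e),
        F (degree K y.1) (degree K y.2) := by
    rw [Finset.sum_sigma]
  have s1 : ∀ x, (S.E1 x).1 ⊆ S.g x := fun x => by
    have := sub_fi hcyc (hA (S.E1 x).2) (S.I x).2
    rwa [S.hI x] at this
  have s2 : ∀ x, (S.E2 x).1 ⊆ S.g x := fun x => by
    have := sub_fi hcyc (hA (S.E2 x).2) (S.J x).2
    rwa [S.hJ x] at this
  have hg : ∀ x, S.g x ∈ faces K 3 := fun x => by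
    rw [← S.hI x]
    exact (mem_interiorFaces.mp (fi_mem hcard hcyc (hA (S.E1 x).2) (S.I x).2)).1
  have hne : ∀ x, (S.E1 x).1 ≠ (S.E2 x).1 := fun x h => S.ne x (Subtype.ext h)
  have hb : ∑ y : ι × Bool, (if y.2 then F (degree K (S.E1 y.1).1) (degree K (S.E2 y.1).1)
      else F (degree K (S.E2 y.1).1) (degree K (S.E1 y.1).1)) =
      ∑ y ∈ (A).sigma (fun e => partnersIn K A e),
        F (degree K y.1) (degree K y.2) := by
    refine Finset.sum_bij (fun y _ => if y.2 then ⟨(S.E1 y.1).1, (S.E2 y.1).1⟩ else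
      ⟨(S.E2 y.1).1, (S.E1 y.1).1⟩) ?_ ?_ ?_ ?_
    · rintro ⟨x, b⟩ _
      rw [Finset.mem_sigma]
      cases b
      · refine ⟨(S.E2 x).2, Finset.mem_filter.mpr ⟨(S.E1 x).2, (hne x).symm, S.g x, hg x, ?_⟩⟩
        exact ⟨s2 x, s1 x⟩
      · refine ⟨(S.E1 x).2, Finset.mem_filter.mpr ⟨(S.E2 x).2, hne x, S.g x, hg x, ?_⟩⟩
        exact ⟨s1 x, s2 x⟩
    · rintro ⟨x, b⟩ _ ⟨y, c⟩ _ h
      have key : ∀ (x y : ι) (h1 : (S.E1 x).1 ∪ (S.E2 x).1 = (S.E1 y).1 ∪ (S.E2 y).1), x = y := by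
        intro x y h1
        rw [g_eq hA hcard hcyc S x, g_eq hA hcard hcyc S y] at h1
        exact S.inj h1
      cases b <;> cases c
      · have h1 : (S.E2 x).1 = (S.E2 y).1 := congrArg Sigma.fst h
        have h2 : (S.E1 x).1 = (S.E1 y).1 :=
          congrArg (fun z : (_ : Finset (Fin N)) × Finset (Fin N) => z.2) h
        rw [key x y (by rw [h1, h2])]
      · have h1 : (S.E2 x).1 = (S.E1 y).1 := congrArg Sigma.fst h
        have h2 : (S.E1 x).1 = (S.E2 y).1 :=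
          congrArg (fun z : (_ : Finset (Fin N)) × Finset (Fin N) => z.2) h
        have hxy := key x y (by rw [h1, h2, Finset.union_comm])
        subst hxy
        exact absurd h1.symm (hne x)
      · have h1 : (S.E1 x).1 = (S.E2 y).1 := congrArg Sigma.fst h
        have h2 : (S.E2 x).1 = (S.E1 y).1 :=
          congrArg (fun z : (_ : Finset (Fin N)) × Finset (Fin N) => z.2) h
        have hxy := key x y (by rw [h1, h2, Finset.union_comm])
        subst hxy
        exact absurd h1 (hne x)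
      · have h1 : (S.E1 x).1 = (S.E1 y).1 := congrArg Sigma.fst h
        have h2 : (S.E2 x).1 = (S.E2 y).1 :=
          congrArg (fun z : (_ : Finset (Fin N)) × Finset (Fin N) => z.2) h
        rw [key x y (by rw [h1, h2])]
    · rintro ⟨e, e'⟩ h
      rw [Finset.mem_sigma] at h
      obtain ⟨he, h2⟩ := h
      obtain ⟨he', hee, f, hf, hef, hef'⟩ := Finset.mem_filter.mp h2
      obtain ⟨i, hi, hfi⟩ := fi_surj hcard hcyc (hA he) hf hef
      obtain ⟨j, hj, hfj⟩ := fi_surj hcard hcyc (hA he') hf hef'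
      obtain ⟨x, hx, -⟩ := S.all ⟨e, he⟩ ⟨e', he'⟩ (fun h => hee (congrArg Subtype.val h))
        ⟨i, hi⟩ ⟨j, hj⟩ (hfi.trans hfj.symm)
      rcases hx with ⟨h1, h2⟩ | ⟨h1, h2⟩
      · refine ⟨(x, true), Finset.mem_univ _, ?_⟩
        have k1 : (S.E1 x).1 = e := (congrArg Subtype.val h1).symm
        have k2 : (S.E2 x).1 = e' := (congrArg Subtype.val h2).symm
        simp only [if_true, k1, k2]
      · refine ⟨(x, false), Finset.mem_univ _, ?_⟩
        have k1 : (S.E2 x).1 = e := (congrArg Subtype.val h1).symm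
        have k2 : (S.E1 x).1 = e' := (congrArg Subtype.val h2).symm
        simp only [Bool.false_eq_true, if_false, k1, k2]
    · rintro ⟨x, b⟩ _
      cases b <;> rfl
  rw [hs, ← hb, Fintype.sum_prod_type, Finset.mul_sum]
  refine Finset.sum_congr rfl fun x _ => ?_
  rw [Fintype.sum_bool]
  simp only [if_true, Bool.false_eq_true, if_false]
  rw [hF (degree K (S.E2 x).1)]
  ring

/-- The rank of the closing map at a set of interior edges, each with at most one partner at each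
of its ends, if no triangle has three of them. -/
theorem rank_chain (hK : StK) (hT : StT) (hF : StF) (hA : A ⊆ interiorFaces K 2) (hp : WR K p)
    (hcyc : Nice K cyc) (hdist : ∀ e ∈ A, DistinctAt K p e)
    (h2 : ∀ f ∈ faces K 3, (A.filter (fun e => e ⊆ f)).card ≤ 2)
    (h1 : ∀ e ∈ A, ∀ v ∈ e, ((partnersIn K A e).filter (fun e' => v ∈ e')).card ≤ 1)
    (h3 : ∀ e ∈ A, ∀ e' ∈ partnersIn K A e, ¬ (degree K e = 3 ∧ degree K e' = 3)) (r d : ℕ)
    (hd : 6 * r ≤ d) :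
    2 * Module.finrank ℝ (LinearMap.range (PTB K cyc p r d A)) +
      ∑ e ∈ A, ∑ e' ∈ partnersIn K A e, mu (degree K e) (degree K e') r d =
    2 * ∑ e ∈ A, lam (degree K e) r d := by
  obtain ⟨S⟩ := exists_sharedC hA hp.card hcyc h2 h1
  have s1 : ∀ x, (S.E1 x).1 ⊆ S.g x := fun x => by
    have := sub_fi hcyc (hA (S.E1 x).2) (S.I x).2
    rwa [S.hI x] at this
  have s2 : ∀ x, (S.E2 x).1 ⊆ S.g x := fun x => by
    have := sub_fi hcyc (hA (S.E2 x).2) (S.J x).2
    rwa [S.hJ x] at this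
  have hg : ∀ x, S.g x ∈ faces K 3 := fun x => by
    rw [← S.hI x]
    exact (mem_interiorFaces.mp (fi_mem hp.card hcyc (hA (S.E1 x).2) (S.I x).2)).1
  have hne : ∀ x, (S.E1 x).1 ≠ (S.E2 x).1 := fun x h => S.ne x (Subtype.ext h)
  have h3' : ∀ x, ¬ (degree K (S.E1 x).1 = 3 ∧ degree K (S.E2 x).1 = 3) := fun x =>
    h3 _ (S.E1 x).2 _ (Finset.mem_filter.mpr ⟨(S.E2 x).2, hne x, S.g x, hg x, s1 x, s2 x⟩)
  have h3 := rank_shared hK hT hF hA hp hcyc hdist S h3' r d hd
  have h4 : ∑ e : A,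
      Module.finrank ℝ (LinearMap.range (Phi r d (le K cyc p e.1))) =
      ∑ e ∈ A, lam (degree K e) r d := by
    rw [← Finset.sum_coe_sort (A) (fun e => lam (degree K e) r d)]
    refine Finset.sum_congr rfl fun e _ => ?_
    obtain ⟨u, hu, v, hv, huv⟩ := exists_ends_w hp (hA e.2)
    have hpen := pencil_w hp hcyc (hA e.2) (hdist e.1 e.2) hu hv
    exact H79.L3 _ r d _ (p u) (p v) huv hpen.deg hpen.van hpen.dist hpen.ne
  have h5 : ∑ _x : Z2_42.ShA K A, Module.finrank ℝ (restrictTotalDegree (Fin 3) ℝ d) =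
      ∑ x : Z2_42.ShA K A, Module.finrank ℝ (entry r d (le K cyc p (S.E1 x).1) (S.I x) ⊔
        entry r d (le K cyc p (S.E2 x).1) (S.J x) : Submodule ℝ _) +
      ∑ x : Z2_42.ShA K A, mu (degree K (S.E1 x).1) (degree K (S.E2 x).1) r d := by
    rw [← Finset.sum_add_distrib]
    refine Finset.sum_congr rfl fun x _ => ?_
    obtain ⟨hg3, t, ht, hgt⟩ := mem_faces.mp (hg x)
    have hv := And.intro (S.V1 x) (S.V2 x)
    set v := S.V x
    obtain ⟨b, hb, hbv⟩ := Finset.exists_mem_ne (by rw [card_edge (hA (S.E1 x).2)]; norm_num) v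
      (s := (S.E1 x).1)
    obtain ⟨b', hb', hbv'⟩ := Finset.exists_mem_ne (by rw [card_edge (hA (S.E2 x).2)]; norm_num) v
      (s := (S.E2 x).1)
    have hbb : b ≠ b' := by
      rintro rfl
      apply hne x
      have k1 : ({v, b} : Finset (Fin N)) = (S.E1 x).1 :=
        Finset.eq_of_subset_of_card_le (by
          intro y hy
          rw [Finset.mem_insert, Finset.mem_singleton] at hy
          rcases hy with rfl | rfl
          · exact hv.1
          · exact hb) (by rw [card_edge (hA (S.E1 x).2), Finset.card_pair hbv.symm])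
      have k2 : ({v, b} : Finset (Fin N)) = (S.E2 x).1 :=
        Finset.eq_of_subset_of_card_le (by
          intro y hy
          rw [Finset.mem_insert, Finset.mem_singleton] at hy
          rcases hy with rfl | rfl
          · exact hv.2
          · exact hb') (by rw [card_edge (hA (S.E2 x).2), Finset.card_pair hbv.symm])
      exact k1.symm.trans k2
    exact stP _ _ r d _ _ (S.I x) (S.J x) (p v) (p b) (p b')
      (pencil_w hp hcyc (hA (S.E1 x).2) (hdist _ (S.E1 x).2) hv.1 hb)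
      (pencil_w hp hcyc (hA (S.E2 x).2) (hdist _ (S.E2 x).2) hv.2 hb')
      (hcyc.three _ (hA (S.E1 x).2)) (hcyc.three _ (hA (S.E2 x).2))
      (by
        unfold le
        rw [S.hI x, S.hJ x])
      (affInd3_w hp ht (hgt (s1 x hv.1)) (hgt (s1 x hb)) (hgt (s2 x hb')) hbv.symm hbv'.symm hbb)
  have h6 := sum_pairs hA hp.card hcyc S (fun a b => mu a b r d) (fun a b => mu_symm a b r d)
  rw [h4] at h3
  rw [h6]
  omega

end Pool.Agent.Lib.MP_d2a91d_an.Chain
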