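import Pool.Agent.Lib.MP_d2a91d_an.Stmts6

namespace Pool.Agent.Lib.MP_d2a91d_an

open MvPolynomial

/-- (AD) The closing conditions at two sets of interior edges without common triangle. -/
def StAD : Prop := ∀ (N : ℕ) (K : Finset (Finset (Fin N)))
  (cyc : Finset (Fin N) → ℕ → Finset (Fin N)) (p : Fin N → Fin 3 → ℝ) (r d : ℕ)
  (A B : Finset (Finset (Fin N))), (∀ t ∈ K, t.card = 4) → Nice K cyc →
  A ⊆ interiorFaces K 2 → B ⊆ interiorFaces K 2 → Disjoint A B →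
  (∀ e ∈ A, ∀ e' ∈ B, ∀ f ∈ faces K 3, ¬ (e ⊆ f ∧ e' ⊆ f)) →
  Module.finrank ℝ (LinearMap.range (PTB K cyc p r d (A ∪ B))) =
    Module.finrank ℝ (LinearMap.range (PTB K cyc p r d A)) +
      Module.finrank ℝ (LinearMap.range (PTB K cyc p r d B))

/-- (T3) The three sides of a triangle. -/
def StT3 : Prop := ∀ (N : ℕ) (K : Finset (Finset (Fin N)))
  (cyc : Finset (Fin N) → ℕ → Finset (Fin N)) (p : Fin N → Fin 3 → ℝ) (r d : ℕ)
  (f e1 e2 e3 : Finset (Fin N)), WR K p → Nice K cyc →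
  e1 ∈ interiorFaces K 2 → e2 ∈ interiorFaces K 2 → e3 ∈ interiorFaces K 2 →
  e1 ≠ e2 → e2 ≠ e3 → e1 ≠ e3 → f ∈ faces K 3 → e1 ⊆ f → e2 ⊆ f → e3 ⊆ f →
  DistinctAt K p e1 → DistinctAt K p e2 → DistinctAt K p e3 → 6 * r ≤ d →
  Module.finrank ℝ (LinearMap.range (PTB K cyc p r d {e1, e2, e3})) +
    (mu (degree K e1) (degree K e2) r d + mu (degree K e2) (degree K e3) r d +
      mu (degree K e1) (degree K e3) r d) =
  lam (degree K e1) r d + lam (degree K e2) r d + lam (degree K e3) r d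

end Pool.Agent.Lib.MP_d2a91d_an
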