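import Pool.Agent.Lib.MP_d2a91d_an.Chain3
import Pool.Agent.Lib.MP_d2a91d_an.Stmts9

namespace Pool.Agent.Lib.MP_d2a91d_an.Chain

open MvPolynomial

variable {N : ℕ} {K A : Finset (Finset (Fin N))} {p : Fin N → Fin 3 → ℝ}
  {cyc : Finset (Fin N) → ℕ → Finset (Fin N)}

theorem third {f e2 e3 : Finset (Fin N)} {v : Fin N} (hf : f.card = 3) (hv : v ∈ f)
    (h2 : e2.card = 2) (h3 : e3.card = 2) (s2 : e2 ⊆ f) (s3 : e3 ⊆ f) (h : e2 ≠ e3) :
    v ∈ e2 ∨ v ∈ e3 := by
  by_contra hc
  push Not at hc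
  apply h
  have k2 : e2 = f.erase v := Finset.eq_of_subset_of_card_le
    (fun x hx => Finset.mem_erase.mpr ⟨fun h => hc.1 (h ▸ hx), s2 hx⟩)
    (by rw [Finset.card_erase_of_mem hv, hf, h2])
  have k3 : e3 = f.erase v := Finset.eq_of_subset_of_card_le
    (fun x hx => Finset.mem_erase.mpr ⟨fun h => hc.2 (h ▸ hx), s3 hx⟩)
    (by rw [Finset.card_erase_of_mem hv, hf, h3])
  rw [k2, k3]

theorem common {f e e' : Finset (Fin N)} (hf : f.card = 3) (h2 : e.card = 2)
    (h3 : e'.card = 2) (s2 : e ⊆ f) (s3 : e' ⊆ f) : ∃ v, v ∈ e ∧ v ∈ e' := by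
  obtain ⟨v, hv⟩ : (e ∩ e').Nonempty := by
    rw [← Finset.card_pos]
    have c4 := Finset.card_union_add_card_inter e e'
    have c5 := Finset.card_le_card (Finset.union_subset s2 s3)
    omega
  exact ⟨v, Finset.mem_inter.mp hv⟩

theorem partners_tri {B : Finset (Finset (Fin N))} {f : Finset (Fin N)} (hf : f ∈ faces K 3)
    (hB : ∀ e ∈ B, e ⊆ f) {e : Finset (Fin N)} (he : e ∈ B) : partnersIn K B e = B.erase e := by
  ext x
  unfold partnersIn
  rw [Finset.mem_filter, Finset.mem_erase]
  constructor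
  · rintro ⟨h1, h2, -⟩
    exact ⟨fun h => h2 h.symm, h1⟩
  · rintro ⟨h1, h2⟩
    exact ⟨h2, fun h => h1 h.symm, f, hf, hB e he, hB x h2⟩

theorem sum_tri {f e1 e2 e3 : Finset (Fin N)} (hf : f ∈ faces K 3) (s1 : e1 ⊆ f) (s2 : e2 ⊆ f)
    (s3 : e3 ⊆ f) (h12 : e1 ≠ e2) (h23 : e2 ≠ e3) (h13 : e1 ≠ e3) (F : ℕ → ℕ → ℕ)
    (hF : ∀ a b, F a b = F b a) :
    ∑ e ∈ ({e1, e2, e3} : Finset (Finset (Fin N))), ∑ e' ∈ partnersIn K {e1, e2, e3} e,
      F (degree K e) (degree K e') =
    2 * (F (degree K e1) (degree K e2) + F (degree K e2) (degree K e3) +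
      F (degree K e1) (degree K e3)) := by
  classical
  have hB : ∀ e ∈ ({e1, e2, e3} : Finset (Finset (Fin N))), e ⊆ f := by
    intro e he
    rw [Finset.mem_insert, Finset.mem_insert, Finset.mem_singleton] at he
    rcases he with rfl | rfl | rfl
    · exact s1
    · exact s2
    · exact s3
  have hsum : ∀ G : Finset (Fin N) → ℕ, ∑ e ∈ ({e1, e2, e3} : Finset (Finset (Fin N))), G e =
      G e1 + G e2 + G e3 := by
    intro G
    rw [Finset.sum_insert, Finset.sum_pair h23, add_assoc]
    rw [Finset.mem_insert, Finset.mem_singleton]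
    rintro (h | h)
    · exact h12 h
    · exact h13 h
  have m1 : e1 ∈ ({e1, e2, e3} : Finset (Finset (Fin N))) := by simp
  have m2 : e2 ∈ ({e1, e2, e3} : Finset (Finset (Fin N))) := by simp
  have m3 : e3 ∈ ({e1, e2, e3} : Finset (Finset (Fin N))) := by simp
  have a1 := Finset.add_sum_erase _ (fun e' => F (degree K e1) (degree K e')) m1
  have a2 := Finset.add_sum_erase _ (fun e' => F (degree K e2) (degree K e')) m2
  have a3 := Finset.add_sum_erase _ (fun e' => F (degree K e3) (degree K e')) m3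
  rw [hsum] at a1 a2 a3
  rw [hsum, partners_tri hf hB m1, partners_tri hf hB m2, partners_tri hf hB m3]
  have b1 := hF (degree K e1) (degree K e2)
  have b2 := hF (degree K e2) (degree K e3)
  have b3 := hF (degree K e1) (degree K e3)
  omega

/-- The rank of the closing map at a set of interior edges, each with at most one partner at each
of its ends. -/
theorem rank_all (hK : StK) (hT : StT) (hF : StF) (hAD : StAD) (hT3 : StT3)
    (hp : WR K p) (hcyc : Nice K cyc) (r d : ℕ) (hd : 6 * r ≤ d) :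
    ∀ (A : Finset (Finset (Fin N))) (_ : A ⊆ interiorFaces K 2)
    (_ : ∀ e ∈ A, DistinctAt K p e)
    (_ : ∀ e ∈ A, ∀ v ∈ e, ((partnersIn K A e).filter (fun e' => v ∈ e')).card ≤ 1)
    (_ : ∀ e ∈ A, ∀ e' ∈ partnersIn K A e, ¬ (degree K e = 3 ∧ degree K e' = 3)),
    2 * Module.finrank ℝ (LinearMap.range (PTB K cyc p r d A)) +
      ∑ e ∈ A, ∑ e' ∈ partnersIn K A e, mu (degree K e) (degree K e') r d =
    2 * ∑ e ∈ A, lam (degree K e) r d := by
  classical
  intro A
  induction A using Finset.strongInduction with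
  | H A ih =>
    intro hA hdist h1 h3
    by_cases h2 : ∀ f ∈ faces K 3, (A.filter (fun e => e ⊆ f)).card ≤ 2
    · exact rank_chain hK hT hF hA hp hcyc hdist h2 h1 h3 r d hd
    push Not at h2
    obtain ⟨f, hf, hlt⟩ := h2
    obtain ⟨e1, e2, e3, m1, m2, m3, h12, h13, h23⟩ := Finset.two_lt_card_iff.mp hlt
    rw [Finset.mem_filter] at m1 m2 m3
    set B : Finset (Finset (Fin N)) := {e1, e2, e3} with hBdef
    have hBA : B ⊆ A := by
      intro e he
      rw [hBdef, Finset.mem_insert, Finset.mem_insert, Finset.mem_singleton] at he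
      rcases he with rfl | rfl | rfl
      · exact m1.1
      · exact m2.1
      · exact m3.1
    have hBf : ∀ e ∈ B, e ⊆ f := by
      intro e he
      rw [hBdef, Finset.mem_insert, Finset.mem_insert, Finset.mem_singleton] at he
      rcases he with rfl | rfl | rfl
      · exact m1.2
      · exact m2.2
      · exact m3.2
    have hf3 := (mem_faces.mp hf).1
    -- the partner in the triangle
    have hpart : ∀ e ∈ B, ∀ v ∈ e, ∃ e' ∈ B, e ≠ e' ∧ v ∈ e' := by
      intro e he v hv
      have hvf := hBf e he hv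
      rw [hBdef, Finset.mem_insert, Finset.mem_insert, Finset.mem_singleton] at he
      rcases he with rfl | rfl | rfl
      · rcases third hf3 hvf (card_edge (hA m2.1)) (card_edge (hA m3.1)) m2.2 m3.2 h23 with h | h
        · exact ⟨e2, by simp [hBdef], h12, h⟩
        · exact ⟨e3, by simp [hBdef], h13, h⟩
      · rcases third hf3 hvf (card_edge (hA m1.1)) (card_edge (hA m3.1)) m1.2 m3.2 h13 with h | h
        · exact ⟨e1, by simp [hBdef], h12.symm, h⟩
        · exact ⟨e3, by simp [hBdef], h23, h⟩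
      · rcases third hf3 hvf (card_edge (hA m1.1)) (card_edge (hA m2.1)) m1.2 m2.2 h12 with h | h
        · exact ⟨e1, by simp [hBdef], h13.symm, h⟩
        · exact ⟨e2, by simp [hBdef], h23.symm, h⟩
    have hno : ∀ e ∈ A \ B, ∀ e' ∈ B, ∀ f' ∈ faces K 3, ¬ (e ⊆ f' ∧ e' ⊆ f') := by
      rintro e he e' he' f' hf' ⟨q1, q2⟩
      rw [Finset.mem_sdiff] at he
      obtain ⟨v, hve, hve'⟩ := common (mem_faces.mp hf').1 (card_edge (hA he.1))
        (card_edge (hA (hBA he'))) q1 q2
      obtain ⟨e'', he'', hne, hv''⟩ := hpart e' he' v hve'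
      have hne' : e' ≠ e := fun h => he.2 (h ▸ he')
      have := Finset.card_le_one.mp (h1 e' (hBA he') v hve') e
        (Finset.mem_filter.mpr ⟨Finset.mem_filter.mpr ⟨he.1, hne', f', hf', q2, q1⟩, hve⟩) e''
        (Finset.mem_filter.mpr ⟨Finset.mem_filter.mpr ⟨hBA he'', hne, f, hf, hBf e' he',
          hBf e'' he''⟩, hv''⟩)
      exact he.2 (this ▸ he'')
    have hsub : A \ B ⊆ A := Finset.sdiff_subset
    have hmono : ∀ e, partnersIn K (A \ B) e ⊆ partnersIn K A e := fun e =>
      Finset.filter_subset_filter _ hsub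
    have hss : A \ B ⊂ A := by
      refine Finset.ssubset_iff_subset_ne.mpr ⟨hsub, fun h => ?_⟩
      have : e1 ∈ A \ B := by rw [h]; exact m1.1
      rw [Finset.mem_sdiff] at this
      exact this.2 (by simp [hBdef])
    have IH := ih (A \ B) hss (hsub.trans hA) (fun e he => hdist e (hsub he))
      (fun e he v hv => (Finset.card_le_card (Finset.filter_subset_filter _ (hmono e))).trans
        (h1 e (hsub he) v hv)) (fun e he e' he' => h3 e (hsub he) e' (hmono e he'))
    have c1 := hAD N K cyc p r d (A \ B) B hp.card hcyc (hsub.trans hA) (hBA.trans hA)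
      Finset.sdiff_disjoint hno
    rw [Finset.sdiff_union_of_subset hBA] at c1
    have c2 := hT3 N K cyc p r d f e1 e2 e3 hp hcyc (hA m1.1) (hA m2.1) (hA m3.1) h12 h23 h13 hf
      m1.2 m2.2 m3.2 (hdist _ m1.1) (hdist _ m2.1) (hdist _ m3.1) hd
    have c3 := sum_tri (K := K) hf m1.2 m2.2 m3.2 h12 h23 h13 (fun a b => mu a b r d)
      (fun a b => mu_symm a b r d)
    have c4 : ∑ e ∈ B, lam (degree K e) r d =
        lam (degree K e1) r d + lam (degree K e2) r d + lam (degree K e3) r d := by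
      rw [hBdef, Finset.sum_insert, Finset.sum_pair h23, add_assoc]
      rw [Finset.mem_insert, Finset.mem_singleton]
      rintro (h | h)
      · exact h12 h
      · exact h13 h
    have c5 : ∑ e ∈ A \ B, ∑ e' ∈ partnersIn K A e, mu (degree K e) (degree K e') r d =
        ∑ e ∈ A \ B, ∑ e' ∈ partnersIn K (A \ B) e, mu (degree K e) (degree K e') r d := by
      refine Finset.sum_congr rfl fun e he => ?_
      have : partnersIn K A e = partnersIn K (A \ B) e := by
        refine Finset.Subset.antisymm (fun x hx => ?_) (hmono e)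
        obtain ⟨x1, x2, f', hf', x3, x4⟩ := Finset.mem_filter.mp hx
        refine Finset.mem_filter.mpr ⟨Finset.mem_sdiff.mpr ⟨x1, fun hxB => ?_⟩, x2, f', hf', x3, x4⟩
        exact hno e he x hxB f' hf' ⟨x3, x4⟩
      rw [this]
    have c6 : ∑ e ∈ B, ∑ e' ∈ partnersIn K A e, mu (degree K e) (degree K e') r d =
        ∑ e ∈ B, ∑ e' ∈ partnersIn K B e, mu (degree K e) (degree K e') r d := by
      refine Finset.sum_congr rfl fun e he => ?_
      have : partnersIn K A e = partnersIn K B e := by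
        refine Finset.Subset.antisymm (fun x hx => ?_) (Finset.filter_subset_filter _ hBA)
        obtain ⟨x1, x2, f', hf', x3, x4⟩ := Finset.mem_filter.mp hx
        refine Finset.mem_filter.mpr ⟨?_, x2, f', hf', x3, x4⟩
        by_contra hxB
        exact hno x (Finset.mem_sdiff.mpr ⟨x1, hxB⟩) e he f' hf' ⟨x4, x3⟩
      rw [this]
    have c7 := Finset.sum_sdiff (f := fun e => ∑ e' ∈ partnersIn K A e,
      mu (degree K e) (degree K e') r d) hBA
    have c8 := Finset.sum_sdiff (f := fun e => lam (degree K e) r d) hBA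
    beta_reduce at c7 c8 c3
    rw [c5, c6] at c7
    rw [← hBdef] at c3 c2
    rw [c4] at c8
    omega

end Pool.Agent.Lib.MP_d2a91d_an.Chain
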