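import Pool.Agent.Lib.MP_d2a91d_an.Stmts5

/-!
# (U1) The rank of the closing map does not drop near `p`
-/

set_option autoImplicit false

namespace Pool.Agent.Lib.MP_d2a91d_an.U79

open MvPolynomial Filter Topology

/-! ## Polynomial families -/

/-- A family of polynomials that depends polynomially on the parameter. -/
def PFam (F : ℝ → MvPolynomial (Fin 3) ℝ) : Prop :=
  ∃ P : Polynomial (MvPolynomial (Fin 3) ℝ), ∀ s, F s = P.eval (C s)

theorem PFam.const (w : MvPolynomial (Fin 3) ℝ) : PFam (fun _ => w) :=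
  ⟨Polynomial.C w, fun s => by rw [Polynomial.eval_C]⟩

theorem PFam.par : PFam (fun s => C s) := ⟨Polynomial.X, fun s => by rw [Polynomial.eval_X]⟩

theorem PFam.add {F G : ℝ → MvPolynomial (Fin 3) ℝ} (hF : PFam F) (hG : PFam G) :
    PFam (fun s => F s + G s) := by
  obtain ⟨P, hP⟩ := hF
  obtain ⟨Q, hQ⟩ := hG
  exact ⟨P + Q, fun s => by rw [Polynomial.eval_add]; exact congrArg₂ _ (hP s) (hQ s)⟩

theorem PFam.sub {F G : ℝ → MvPolynomial (Fin 3) ℝ} (hF : PFam F) (hG : PFam G) :
    PFam (fun s => F s - G s) := by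
  obtain ⟨P, hP⟩ := hF
  obtain ⟨Q, hQ⟩ := hG
  exact ⟨P - Q, fun s => by rw [Polynomial.eval_sub]; exact congrArg₂ _ (hP s) (hQ s)⟩

theorem PFam.mul {F G : ℝ → MvPolynomial (Fin 3) ℝ} (hF : PFam F) (hG : PFam G) :
    PFam (fun s => F s * G s) := by
  obtain ⟨P, hP⟩ := hF
  obtain ⟨Q, hQ⟩ := hG
  exact ⟨P * Q, fun s => by rw [Polynomial.eval_mul]; exact congrArg₂ _ (hP s) (hQ s)⟩

theorem PFam.pow {F : ℝ → MvPolynomial (Fin 3) ℝ} (hF : PFam F) (n : ℕ) :
    PFam (fun s => F s ^ n) := by
  obtain ⟨P, hP⟩ := hF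
  exact ⟨P ^ n, fun s => by rw [Polynomial.eval_pow]; exact congrArg (· ^ n) (hP s)⟩

theorem PFam.smul {F : ℝ → MvPolynomial (Fin 3) ℝ} (hF : PFam F) (c : ℝ) :
    PFam (fun s => c • F s) := by
  have : (fun s => c • F s) = fun s => C c * F s := by
    funext s
    rw [MvPolynomial.smul_eq_C_mul]
  rw [this]
  exact (PFam.const _).mul hF

theorem PFam.sum {ι : Type*} {F : ι → ℝ → MvPolynomial (Fin 3) ℝ} (u : Finset ι)
    (hF : ∀ i ∈ u, PFam (F i)) : PFam (fun s => ∑ i ∈ u, F i s) := by
  classical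
  induction u using Finset.induction_on with
  | empty => simpa using PFam.const 0
  | insert a u ha ih =>
    have h1 := (hF a (Finset.mem_insert_self a u)).add
      (ih fun i hi => hF i (Finset.mem_insert_of_mem hi))
    simpa only [Finset.sum_insert ha] using h1

/-- Linear functionals of a polynomial family are continuous. -/
theorem PFam.cont {F : ℝ → MvPolynomial (Fin 3) ℝ} (hF : PFam F)
    (φ : MvPolynomial (Fin 3) ℝ →ₗ[ℝ] ℝ) : Continuous fun s => φ (F s) := by
  obtain ⟨P, hP⟩ := hF
  have h : (fun s => φ (F s)) =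
      fun s => ∑ k ∈ Finset.range (P.natDegree + 1), s ^ k * φ (P.coeff k) := by
    funext s
    rw [hP, Polynomial.eval_eq_sum_range, map_sum]
    refine Finset.sum_congr rfl fun k _ => ?_
    rw [← C_pow, mul_comm, ← MvPolynomial.smul_eq_C_mul, map_smul, smul_eq_mul]
  rw [h]
  exact continuous_finsetSum _ fun k _ => (continuous_pow k).mul continuous_const

theorem coord {N : ℕ} (p p' : Fin N → Fin 3 → ℝ) (i : Fin N) (j : Fin 3) :
    PFam (fun s => C (ln p p' s i j)) := by
  have h : (fun s => (C (ln p p' s i j) : MvPolynomial (Fin 3) ℝ)) =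
      fun s => C (p i j) + C s * C (p' i j - p i j) := by
    funext s
    unfold ln
    rw [Pi.add_apply, Pi.smul_apply, Pi.sub_apply, smul_eq_mul, map_add, map_mul]
  rw [h]
  exact (PFam.const _).add (PFam.par.mul (PFam.const _))

theorem pl_fam {N : ℕ} (p p' : Fin N → Fin 3 → ℝ) (a b c : Fin N) :
    PFam (fun s => pl (ln p p' s a) (ln p p' s b) (ln p p' s c)) := by
  unfold pl
  simp only [map_sub, map_mul]
  have h := coord p p'
  have hX : ∀ i : Fin 3, PFam (fun _ => (X i : MvPolynomial (Fin 3) ℝ)) := fun i => PFam.const _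
  exact ((((((h b 1).sub (h a 1)).mul ((h c 2).sub (h a 2))).sub
      (((h b 2).sub (h a 2)).mul ((h c 1).sub (h a 1)))).mul ((hX 0).sub (h a 0))).add
    ((((((h b 2).sub (h a 2)).mul ((h c 0).sub (h a 0))).sub
      (((h b 0).sub (h a 0)).mul ((h c 2).sub (h a 2)))).mul ((hX 1).sub (h a 1))))).add
    ((((((h b 0).sub (h a 0)).mul ((h c 1).sub (h a 1))).sub
      (((h b 1).sub (h a 1)).mul ((h c 0).sub (h a 0)))).mul ((hX 2).sub (h a 2))))

theorem lf_fam {N : ℕ} (p p' : Fin N → Fin 3 → ℝ) (f : Finset (Fin N)) :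
    PFam (fun s => lf (ln p p' s) f) := by
  unfold lf
  by_cases h : f.card = 3
  · simp only [dif_pos h]
    exact pl_fam p p' _ _ _
  · simp only [dif_neg h]
    exact PFam.const _

theorem PT_fam {N : ℕ} (K : Finset (Finset (Fin N))) (cyc : Finset (Fin N) → ℕ → Finset (Fin N))
    (p p' : Fin N → Fin 3 → ℝ) (r d : ℕ)
    (q : interiorFaces K 3 → restrictTotalDegree (Fin 3) ℝ d) (e : interiorFaces K 2) :
    PFam (fun s => PT K cyc (ln p p' s) r d q e) := by
  simp only [PT_apply, wq_apply]
  exact PFam.sum _ fun i _ => (((lf_fam p p' _).pow _).mul (PFam.const _)).smul _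

theorem ln_zero {N : ℕ} (p p' : Fin N → Fin 3 → ℝ) : ln p p' 0 = p := by
  funext i
  unfold ln
  rw [zero_smul, add_zero]

/-! ## Semicontinuity of the rank -/

/-- A family of linear maps whose coordinates are continuous. -/
theorem rank_le {A ι : Type*} [AddCommGroup A] [Module ℝ A] [Module.Finite ℝ A] [Fintype ι]
    {W : Type*} [AddCommGroup W] [Module ℝ W] (T : ℝ → A →ₗ[ℝ] (ι → W))
    (hT : ∀ (q : A) (e : ι) (φ : W →ₗ[ℝ] ℝ), Continuous fun s => φ (T s q e)) :
    ∀ᶠ s in 𝓝 (0 : ℝ), Module.finrank ℝ (LinearMap.range (T 0)) ≤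
      Module.finrank ℝ (LinearMap.range (T s)) := by
  classical
  obtain ⟨n, hn⟩ : ∃ n, n = Module.finrank ℝ (LinearMap.range (T 0)) := ⟨_, rfl⟩
  rw [← hn]
  obtain ⟨b⟩ : Nonempty (Module.Basis (Fin n) ℝ (LinearMap.range (T 0))) :=
    ⟨(Module.finBasis ℝ _).reindex (finCongr hn.symm)⟩
  have hq : ∀ i, ∃ q, T 0 q = (b i : ι → W) := fun i => (b i).2
  choose q hq using hq
  have hli : LinearIndependent ℝ (fun i => T 0 (q i)) := by
    have h1 := b.linearIndependent.map' (Submodule.subtype _) (Submodule.ker_subtype _)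
    have h2 : (fun i => T 0 (q i)) = (Submodule.subtype (LinearMap.range (T 0))) ∘ b := by
      funext i
      exact hq i
    rw [h2]
    exact h1
  -- a left inverse
  obtain ⟨g, hg⟩ := LinearMap.exists_leftInverse_of_injective
    (Fintype.linearCombination ℝ (fun i => T 0 (q i))) (by
      rw [LinearMap.ker_eq_bot']
      intro c hc
      rw [Fintype.linearCombination_apply] at hc
      funext i
      exact Fintype.linearIndependent_iff.1 hli c hc i)
  have hg' : ∀ i j, g (T 0 (q i)) j = if i = j then 1 else 0 := by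
    intro i j
    have h1 := LinearMap.congr_fun hg (Pi.single i 1)
    rw [LinearMap.comp_apply, Fintype.linearCombination_apply_single, one_smul,
      LinearMap.id_apply] at h1
    rw [h1, Pi.single_apply]
    simp only [eq_comm]
  set M : ℝ → Matrix (Fin n) (Fin n) ℝ := fun s => Matrix.of fun i j => g (T s (q i)) j with hM
  have hMc : Continuous M := by
    refine continuous_matrix fun i j => ?_
    have h1 : (fun s => M s i j) = fun s => ∑ e : ι,
        ((LinearMap.proj j ∘ₗ g) ∘ₗ LinearMap.single ℝ (fun _ : ι => W) e) (T s (q i) e) := by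
      funext s
      have h2 : T s (q i) = ∑ e : ι, (LinearMap.single ℝ (fun _ : ι => W) e) (T s (q i) e) :=
        (Finset.univ_sum_single (T s (q i))).symm
      have h3 : M s i j = g (T s (q i)) j := rfl
      rw [h3]
      conv_lhs => rw [h2]
      rw [map_sum, Finset.sum_apply]
      rfl
    rw [h1]
    exact continuous_finsetSum _ fun e _ => hT _ _ _
  have hM0 : (M 0).det = 1 := by
    have : M 0 = 1 := by
      ext i j
      have h3 : M 0 i j = g (T 0 (q i)) j := rfl
      rw [h3, hg', Matrix.one_apply]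
    rw [this, Matrix.det_one]
  have hev : ∀ᶠ s in 𝓝 (0 : ℝ), (M s).det ≠ 0 := by
    have h1 : ContinuousAt (fun s => (M s).det) 0 := (hMc.matrix_det).continuousAt
    refine h1.eventually_ne ?_
    rw [hM0]
    exact one_ne_zero
  filter_upwards [hev] with s hs
  have hind : LinearIndependent ℝ (fun i => T s (q i)) := by
    rw [Fintype.linearIndependent_iff]
    intro c hc
    have h1 : Matrix.vecMul c (M s) = 0 := by
      funext j
      have h2 : g (∑ i, c i • T s (q i)) j = 0 := by rw [hc, map_zero]; rfl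
      rw [map_sum, Finset.sum_apply] at h2
      rw [Matrix.vecMul, Pi.zero_apply, ← h2]
      simp only [dotProduct, hM, Matrix.of_apply, map_smul, Pi.smul_apply, smul_eq_mul]
    have h3 := Matrix.eq_zero_of_vecMul_eq_zero hs h1
    intro i
    rw [h3]
    rfl
  have hind2 : LinearIndependent ℝ
      (fun i => (⟨T s (q i), ⟨q i, rfl⟩⟩ : LinearMap.range (T s))) := by
    refine LinearIndependent.of_comp (Submodule.subtype _) ?_
    exact hind
  have h4 := hind2.fintype_card_le_finrank
  rw [Fintype.card_fin] at h4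
  exact h4

/-- (U1) -/
theorem stU1_79 : StU1 := by
  intro N K cyc p p' r d
  have hfin : Module.Finite ℝ (restrictTotalDegree (Fin 3) ℝ d) := inferInstance
  have h := rank_le (fun s => PT K cyc (ln p p' s) r d) (fun q e φ => (PT_fam K cyc p p' r d q e).cont φ)
  beta_reduce at h
  rw [ln_zero] at h
  exact h.filter_mono nhdsWithin_le_nhds

end Pool.Agent.Lib.MP_d2a91d_an.U79
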