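import Mathlib

/-!
Rows U2 and U5 of MP_d2a91d (helper42).
-/

set_option autoImplicit false

namespace Pool.Agent.Lib.MP_d2a91d_an.U2_42

open Filter Topology Polynomial

/-- A nonzero polynomial does not vanish near `0`, except perhaps at `0`. -/
theorem eventually_ne (P : ℝ[X]) (hP : P ≠ 0) : ∀ᶠ s in 𝓝[≠] (0 : ℝ), P.eval s ≠ 0 := by
  have h1 : ∀ᶠ s in 𝓝 (0 : ℝ), s ∉ ((P.roots.toFinset.erase 0 : Finset ℝ) : Set ℝ) := by
    refine (Finset.finite_toSet _).isClosed.isOpen_compl.mem_nhds ?_
    simp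
  have h2 := h1.filter_mono (nhdsWithin_le_nhds (s := {(0 : ℝ)}ᶜ))
  filter_upwards [h2, self_mem_nhdsWithin] with s hs hs0 h0
  apply hs
  rw [Finset.mem_coe, Finset.mem_erase, Multiset.mem_toFinset, mem_roots hP]
  exact ⟨hs0, h0⟩

theorem lin {ι : Type} [Fintype ι] [DecidableEq ι] (v v' : ι → Fin 3 → ℝ)
    (h : LinearIndependent ℝ v') :
    ∀ᶠ s in 𝓝[≠] (0 : ℝ), LinearIndependent ℝ (fun i => v i + s • (v' i - v i)) := by
  obtain ⟨g, hg⟩ := LinearMap.exists_leftInverse_of_injective
    (Finsupp.linearCombination ℝ v') (LinearMap.ker_eq_bot.mpr h)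
  have hg' : ∀ i, g (v' i) = Finsupp.single i 1 := by
    intro i
    have := LinearMap.congr_fun hg (Finsupp.single i 1)
    simpa using this
  let M : Matrix ι ι ℝ[X] := Matrix.of fun i j =>
    C (g (v i) j) + X * C (g (v' i) j - g (v i) j)
  have hM : ∀ s : ℝ, (M.det).eval s =
      (Matrix.of fun i j => g (v i + s • (v' i - v i)) j : Matrix ι ι ℝ).det := by
    intro s
    have h1 : (M.det).eval s = (Polynomial.evalRingHom s) M.det := rfl
    rw [h1, RingHom.map_det]
    congr 1
    ext i j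
    simp [M]
  have h1 : (M.det).eval 1 = 1 := by
    rw [hM]
    have : (Matrix.of fun i j => g (v i + (1 : ℝ) • (v' i - v i)) j : Matrix ι ι ℝ) = 1 := by
      ext i j
      rw [Matrix.of_apply, one_smul, add_sub_cancel, hg', Matrix.one_apply,
        Finsupp.single_apply]
    rw [this, Matrix.det_one]
  have hne : M.det ≠ 0 := by
    intro h0
    rw [h0] at h1
    simp at h1
  filter_upwards [eventually_ne _ hne] with s hs
  rw [hM] at hs
  have h2 := Matrix.linearIndependent_rows_of_det_ne_zero hs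
  refine LinearIndependent.of_comp
    ((Finsupp.linearEquivFunOnFinite ℝ ℝ ι).toLinearMap ∘ₗ g) ?_
  exact h2

/-- (U2), with `ln` unfolded. -/
theorem aff (N : ℕ) (u : Finset (Fin N)) (p p' : Fin N → Fin 3 → ℝ)
    (h : AffineIndependent ℝ (fun i : u => p' i)) :
    ∀ᶠ s in 𝓝[≠] (0 : ℝ), AffineIndependent ℝ (fun i : u => p i + s • (p' i - p i)) := by
  by_cases hu : u.Nonempty
  · obtain ⟨i0, hi0⟩ := hu
    let a : u := ⟨i0, hi0⟩
    have hl := (affineIndependent_iff_linearIndependent_vsub ℝ _ a).mp h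
    have hl' := lin (fun i : {x : u // x ≠ a} => p i.1 - p a)
      (fun i : {x : u // x ≠ a} => p' i.1 - p' a) hl
    filter_upwards [hl'] with s hs
    rw [affineIndependent_iff_linearIndependent_vsub ℝ _ a]
    have e : (fun i : {x : u // x ≠ a} =>
        (fun i : u => p i + s • (p' i - p i)) i.1 -ᵥ (fun i : u => p i + s • (p' i - p i)) a) =
        fun i : {x : u // x ≠ a} =>
          (p i.1 - p a) + s • ((p' i.1 - p' a) - (p i.1 - p a)) := by
      funext i
      funext k
      simp only [vsub_eq_sub, Pi.sub_apply, Pi.add_apply, Pi.smul_apply, smul_eq_mul]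
      ring
    exact e ▸ hs
  · have : IsEmpty u := by
      rw [Finset.not_nonempty_iff_eq_empty] at hu
      subst hu
      exact inferInstance
    exact Eventually.of_forall fun s => affineIndependent_of_subsingleton ℝ _

end Pool.Agent.Lib.MP_d2a91d_an.U2_42
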