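import Pool.Agent.Lib.MP_d2a91d_an.Stmts5
import Pool.Agent.Lib.MP_d2a91d_an.U2_42

/-!
Row U2 of MP_d2a91d in the form of the statement file (helper42).
-/

set_option autoImplicit false

namespace Pool.Agent.Lib.MP_d2a91d_an.U2_42

/-- Row U2. -/
theorem stU2_42 : StU2 := fun N u p p' h => aff N u p p' h

end Pool.Agent.Lib.MP_d2a91d_an.U2_42
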