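import Pool.Agent.Lib.MP_d2a91d_an.Stmts5

/-!
Row U5 of MP_d2a91d (helper42): four points of the moment curve are affinely independent.
-/

set_option autoImplicit false

namespace Pool.Agent.Lib.MP_d2a91d_an.U5_42

open Polynomial

/-- Row U5. -/
theorem stU5_42 : StU5 := by
  intro N u hu
  rw [affineIndependent_iff]
  intro s w h0 h1 e0 he0
  have hm : ∀ k ∈ Finset.range 4, ∑ e ∈ s, w e * ((e : Fin N) : ℝ) ^ k = 0 := by
    intro k hk
    have a0 := congrFun h1 0
    have a1 := congrFun h1 1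
    have a2 := congrFun h1 2
    simp only [Finset.sum_apply, Pi.smul_apply, smul_eq_mul, Matrix.cons_val_zero,
      Matrix.cons_val_one, Matrix.cons_val, Pi.zero_apply] at a0 a1 a2
    have hk4 : k < 4 := Finset.mem_range.mp hk
    interval_cases k
    · simpa using h0
    · simpa using a0
    · simpa using a1
    · simpa using a2
  set Q : ℝ[X] := ∏ e ∈ s.erase e0, (X - C (((e : Fin N) : ℝ))) with hQ
  have hdeg : Q.natDegree < 4 := by
    rw [hQ, natDegree_finsetProd_X_sub_C_eq_card, Finset.card_erase_of_mem he0]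
    have h4 : s.card ≤ 4 := by
      have h5 := Finset.card_le_univ s
      rw [Fintype.card_coe, hu] at h5
      exact h5
    have h6 : 0 < s.card := Finset.card_pos.mpr ⟨e0, he0⟩
    omega
  have hsum : ∑ e ∈ s, w e * Q.eval ((e : Fin N) : ℝ) = 0 := by
    have h2 : ∀ e ∈ s, w e * Q.eval ((e : Fin N) : ℝ) =
        ∑ k ∈ Finset.range 4, Q.coeff k * (w e * ((e : Fin N) : ℝ) ^ k) := by
      intro e _
      rw [eval_eq_sum_range' hdeg, Finset.mul_sum]
      refine Finset.sum_congr rfl fun k _ => ?_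
      ring
    rw [Finset.sum_congr rfl h2, Finset.sum_comm]
    refine Finset.sum_eq_zero fun k hk => ?_
    rw [← Finset.mul_sum, hm k hk, mul_zero]
  have h3 : ∑ e ∈ s, w e * Q.eval ((e : Fin N) : ℝ) = w e0 * Q.eval ((e0 : Fin N) : ℝ) := by
    refine Finset.sum_eq_single_of_mem e0 he0 fun e he hne => ?_
    have : Q.eval ((e : Fin N) : ℝ) = 0 := by
      rw [hQ, eval_prod]
      refine Finset.prod_eq_zero (Finset.mem_erase.mpr ⟨hne, he⟩) ?_
      simp
    rw [this, mul_zero]
  have h4 : Q.eval ((e0 : Fin N) : ℝ) ≠ 0 := by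
    rw [hQ, eval_prod]
    refine Finset.prod_ne_zero_iff.mpr fun e he => ?_
    rw [eval_sub, eval_X, eval_C, sub_ne_zero]
    intro h
    have h5 : ((e0 : Fin N) : ℕ) = ((e : Fin N) : ℕ) := by exact_mod_cast h
    exact (Finset.mem_erase.mp he).1 (Subtype.ext (Fin.ext h5)).symm
  rw [h3] at hsum
  exact (mul_eq_zero.mp hsum).resolve_right h4

end Pool.Agent.Lib.MP_d2a91d_an.U5_42
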