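import Pool.Agent.Lib.MP_d2a91d_an.Peel
import Pool.Agent.Lib.MP_d2a91d_an.U1_79
import Pool.Agent.Lib.MP_d2a91d_an.U2s_42
import Pool.Agent.Lib.MP_d2a91d_an.U5_42

namespace Pool.Agent.Lib.MP_d2a91d_an

open MvPolynomial

variable {N : ℕ} {K : Finset (Finset (Fin N))} {p : Fin N → Fin 3 → ℝ}
  {cyc : Finset (Fin N) → ℕ → Finset (Fin N)}

/-- The rank of the closing map after peeling. -/
theorem rank_core (hZ1 : StZ1) (hZ2 : StZ2) (hp : WR K p) (hcyc : Nice K cyc)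
    (hdist : ∀ e ∈ interiorFaces K 2, DistinctAt K p e)
    {A : Finset (Finset (Fin N))} (hA : A ⊆ interiorFaces K 2)
    (hAm : ∀ e ∈ A, (partnersIn K A e).card ≤ 1) (lv : Finset (Fin N) → ℕ)
    (r d : ℕ)
    (hfree : ∀ e ∈ interiorFaces K 2, e ∉ A → min (r + 2) (degree K e) ≤
      ((faces K 3).filter (fun f => e ⊆ f ∧ ∀ e' ∈ interiorFaces K 2, e' ⊆ f → e' = e ∨
        (e' ∉ A ∧ lv e' < lv e))).card) :
    2 * Module.finrank ℝ (LinearMap.range (PT K cyc p r d)) +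
      ∑ e ∈ A, ∑ e' ∈ partnersIn K A e, mu (degree K e) (degree K e') r d =
    2 * ∑ e ∈ interiorFaces K 2, lam (degree K e) r d := by
  have h1 := rank_peel hZ1 hp hcyc hdist hA lv r d hfree
  have h2 := hZ2 N K cyc p r d A hp hcyc hA (fun e he => hdist e (hA he)) hAm
  have h3 := Finset.sum_sdiff hA (f := fun e => lam (degree K e) r d)
  rw [h1, ← h3]
  omega

/-- The rank at any position. -/
theorem rank_core_le (hZ1 : StZ1) (hZ2 : StZ2) (hcard : ∀ t ∈ K, t.card = 4)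
    (hcyc : Nice K cyc)
    {A : Finset (Finset (Fin N))} (hA : A ⊆ interiorFaces K 2)
    (hAm : ∀ e ∈ A, (partnersIn K A e).card ≤ 1) (lv : Finset (Fin N) → ℕ)
    (p : Fin N → Fin 3 → ℝ) (r d : ℕ)
    (hfree : ∀ e ∈ interiorFaces K 2, e ∉ A → min (r + 2) (degree K e) ≤
      ((faces K 3).filter (fun f => e ⊆ f ∧ ∀ e' ∈ interiorFaces K 2, e' ⊆ f → e' = e ∨
        (e' ∉ A ∧ lv e' < lv e))).card) :
    2 * Module.finrank ℝ (LinearMap.range (PT K cyc p r d)) +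
      ∑ e ∈ A, ∑ e' ∈ partnersIn K A e, mu (degree K e) (degree K e') r d ≤
    2 * ∑ e ∈ interiorFaces K 2, lam (degree K e) r d := by
  have e1 := U79.stU1_79 N K cyc p (mc N) r d
  have e2 : ∀ᶠ s in nhdsWithin (0 : ℝ) {0}ᶜ, ∀ t ∈ K,
      AffineIndependent ℝ (fun i : t => ln p (mc N) s i) := by
    rw [Filter.eventually_all_finset]
    intro t ht
    exact U2_42.stU2_42 N t p (mc N) ((wr_mc U5_42.stU5_42 hcard).nondeg t ht)
  have e3 : ∀ᶠ s in nhdsWithin (0 : ℝ) {0}ᶜ, ∀ e ∈ interiorFaces K 2, ∀ f ∈ faces K 3,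
      ∀ g ∈ faces K 3, e ⊆ f → e ⊆ g → f ≠ g →
        AffineIndependent ℝ (fun i : (f ∪ g : Finset (Fin N)) => ln p (mc N) s i) := by
    rw [Filter.eventually_all_finset]
    intro e he
    rw [Filter.eventually_all_finset]
    intro f hf
    rw [Filter.eventually_all_finset]
    intro g hg
    by_cases h : e ⊆ f ∧ e ⊆ g ∧ f ≠ g
    · filter_upwards [U2_42.stU2_42 N (f ∪ g) p (mc N)
        (dist_mc U5_42.stU5_42 e he f hf g hg h.1 h.2.1 h.2.2)] with s hs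
      exact fun _ _ _ => hs
    · exact Filter.Eventually.of_forall fun s h1 h2 h3 => absurd ⟨h1, h2, h3⟩ h
  obtain ⟨s, k1, k2, k3⟩ := (e1.and (e2.and e3)).exists
  have h4 := rank_core hZ1 hZ2 (p := ln p (mc N) s) ⟨hcard, k2⟩ hcyc k3 hA hAm lv r d hfree
  omega

/-- The exact dimension at every realisation with distinct planes. -/
theorem pos_core (hZ1 : StZ1) (hZ2 : StZ2) (hne : K.Nonempty) (hcyc : Nice K cyc)
    {A : Finset (Finset (Fin N))} (hA : A ⊆ interiorFaces K 2)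
    (hAm : ∀ e ∈ A, (partnersIn K A e).card ≤ 1) (lv : Finset (Fin N) → ℕ) (r d : ℕ)
    (hfree : ∀ e ∈ interiorFaces K 2, e ∉ A → min (r + 2) (degree K e) ≤
      ((faces K 3).filter (fun f => e ⊆ f ∧ ∀ e' ∈ interiorFaces K 2, e' ⊆ f → e' = e ∨
        (e' ∉ A ∧ lv e' < lv e))).card)
    (hp : Realises K p) (hdist : ∀ e ∈ interiorFaces K 2, DistinctAt K p e) :
    2 * (Module.finrank ℝ (Spline r (d + r + 1) K p) +
        ∑ e ∈ interiorFaces K 2, lam (degree K e) r d) =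
      2 * ((d + r + 4).choose 3 + (interiorFaces K 3).card * (d + 3).choose 3) +
        ∑ e ∈ A, ∑ e' ∈ partnersIn K A e, mu (degree K e) (degree K e') r d := by
  have a3 := dim_rank hne hcyc r d hp
  have a4 := rank_core hZ1 hZ2 hp.wr hcyc hdist hA hAm lv r d hfree
  omega

/-- The exact generic dimension. -/
theorem gen_core (hU4a : StU4a) (hU4b : StU4b) (hZ1 : StZ1) (hZ2 : StZ2) (hne : K.Nonempty)
    (hcyc : Nice K cyc)
    {A : Finset (Finset (Fin N))} (hA : A ⊆ interiorFaces K 2)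
    (hAm : ∀ e ∈ A, (partnersIn K A e).card ≤ 1) (lv : Finset (Fin N) → ℕ) (r d : ℕ)
    (hfree : ∀ e ∈ interiorFaces K 2, e ∉ A → min (r + 2) (degree K e) ≤
      ((faces K 3).filter (fun f => e ⊆ f ∧ ∀ e' ∈ interiorFaces K 2, e' ⊆ f → e' = e ∨
        (e' ∉ A ∧ lv e' < lv e))).card)
    (h : ∃ p, Realises K p) :
    2 * (genDim r (d + r + 1) K + ∑ e ∈ interiorFaces K 2, lam (degree K e) r d) =
      2 * ((d + r + 4).choose 3 + (interiorFaces K 3).card * (d + 3).choose 3) +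
        ∑ e ∈ A, ∑ e' ∈ partnersIn K A e, mu (degree K e) (degree K e') r d := by
  obtain ⟨p1, hp1, hd1⟩ := exists_distinct U2_42.stU2_42 hU4a hU4b U5_42.stU5_42 h
  obtain ⟨p0, hp0, hg⟩ := genDim_spec r (d + r + 1) h
  have a1 := dim_rank hne hcyc r d hp0
  have a2 := rank_core_le hZ1 hZ2 hp0.card hcyc hA hAm lv p0 r d hfree
  have a3 := pos_core hZ1 hZ2 hne hcyc hA hAm lv r d hfree hp1 hd1
  have a5 := genDim_le r (d + r + 1) hp1
  rw [← hg] at a1
  omega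

end Pool.Agent.Lib.MP_d2a91d_an
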