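import Pool.Agent.Lib.MP_d2a91d_an.Defs

namespace Pool.Agent.Lib.MP_d2a91d_an

/-- The number attached to an interior edge in `n` tetrahedra, `d = k - r - 1`. -/
def lam (n r d : ℕ) : ℕ :=
  ∑ m ∈ Finset.range (d + 1), (d - m + 1) * min (m + r + 2) (n * (m + 1))

/-- `K` with cyclic orders `cyc e` of the tetrahedra around its interior edges `e`:
every triangle lies in at most two tetrahedra; the tetrahedra around an interior edge are
`cyc e 0, cyc e 1, ..., cyc e (deg e) = cyc e 0`, consecutive ones sharing a triangle; the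
tetrahedra containing a given face are connected through triangles containing it; and every
1-cochain on pairs of adjacent tetrahedra that is closed around the interior edges is exact
(no first cohomology). -/
structure Nice {N : ℕ} (K : Finset (Finset (Fin N)))
    (cyc : Finset (Fin N) → ℕ → Finset (Fin N)) : Prop where
  two : ∀ f ∈ faces K 3, degree K f ≤ 2
  three : ∀ e ∈ interiorFaces K 2, 3 ≤ degree K e
  mem : ∀ e ∈ interiorFaces K 2, ∀ i, i < degree K e → cyc e i ∈ K ∧ e ⊆ cyc e i
  inj : ∀ e ∈ interiorFaces K 2, ∀ i j, i < degree K e → j < degree K e →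
    cyc e i = cyc e j → i = j
  close : ∀ e ∈ interiorFaces K 2, cyc e (degree K e) = cyc e 0
  adj : ∀ e ∈ interiorFaces K 2, ∀ i, i < degree K e → (cyc e i ∩ cyc e (i + 1)).card = 3
  star : ∀ t ∈ K, ∀ t' ∈ K, Relation.ReflTransGen
    (fun a b => b ∈ K ∧ (a ∩ b).card = 3 ∧ t ∩ t' ⊆ b) t t'
  exact : ∀ (A : Type) [AddCommGroup A] (w : Finset (Fin N) → Finset (Fin N) → A),
    (∀ s t, w s t = - w t s) →
    (∀ e ∈ interiorFaces K 2,
      ∑ i ∈ Finset.range (degree K e), w (cyc e i) (cyc e (i + 1)) = 0) →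
    ∃ u : Finset (Fin N) → A, ∀ s ∈ K, ∀ t ∈ K, (s ∩ t).card = 3 → w s t = u t - u s

end Pool.Agent.Lib.MP_d2a91d_an
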