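import Pool.Agent.Lib.MP_d2a91d_an.Stmts7
import Pool.Agent.Lib.MP_d2a91d_an.DefsNice

namespace Pool.Agent.Lib.MP_d2a91d_an

open MvPolynomial

/-- (TR) Three pencils with a common plane, through the three sides of a triangle. -/
def StTR : Prop := ∀ (n n' n'' r d : ℕ) (l : Fin n → MvPolynomial (Fin 3) ℝ)
  (l' : Fin n' → MvPolynomial (Fin 3) ℝ) (l'' : Fin n'' → MvPolynomial (Fin 3) ℝ)
  (i : Fin n) (j : Fin n') (k : Fin n'') (a b c : Fin 3 → ℝ),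
  Pencil l a b → Pencil l' b c → Pencil l'' a c → 3 ≤ n → 3 ≤ n' → 3 ≤ n'' →
  l i = l' j → l i = l'' k → AffineIndependent ℝ ![a, b, c] → 6 * r ≤ d →
  Module.finrank ℝ (entry r d l i ⊓ entry r d l' j ⊓ entry r d l'' k : Submodule ℝ _) +
    2 * Module.finrank ℝ (restrictTotalDegree (Fin 3) ℝ d) =
  Module.finrank ℝ (entry r d l i) + Module.finrank ℝ (entry r d l' j) +
    Module.finrank ℝ (entry r d l'' k) + mu n n' r d + mu n' n'' r d + mu n n'' r d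

/-- (X) Two adjacent interior edges of degree three: there is a third one at their vertex. -/
def StX : Prop := ∀ (N : ℕ) (K : Finset (Finset (Fin N)))
  (cyc : Finset (Fin N) → ℕ → Finset (Fin N)), (∀ t ∈ K, t.card = 4) → Nice K cyc →
  ∀ e ∈ interiorFaces K 2, ∀ e' ∈ interiorFaces K 2, ∀ v : Fin N, ∀ f ∈ faces K 3,
  e ≠ e' → v ∈ e → v ∈ e' → e ⊆ f → e' ⊆ f → degree K e = 3 → degree K e' = 3 →
  ∃ g ∈ interiorFaces K 2, v ∈ g ∧ g ≠ e ∧ g ≠ e' ∧ degree K g = 3 ∧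
    ∃ f1 ∈ faces K 3, ∃ f2 ∈ faces K 3, f1 ≠ f2 ∧ g ⊆ f1 ∧ e ⊆ f1 ∧ g ⊆ f2 ∧ e' ⊆ f2

end Pool.Agent.Lib.MP_d2a91d_an
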