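import Pool.Agent.Lib.MP_d2a91d_an.Chain4
import Pool.Agent.Lib.MP_d2a91d_an.Stmts8
import Pool.Agent.Lib.MP_d2a91d_an.Peel2

namespace Pool.Agent.Lib.MP_d2a91d_an.Chain

open MvPolynomial

variable {N : ℕ} {K : Finset (Finset (Fin N))} {p : Fin N → Fin 3 → ℝ}
  {cyc : Finset (Fin N) → ℕ → Finset (Fin N)}

/-- At most `degree` triangles at an interior edge. -/
theorem card_tri_le (hcard : ∀ t ∈ K, t.card = 4) (hcyc : Nice K cyc) {g : Finset (Fin N)}
    (hg : g ∈ interiorFaces K 2) :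
    ((faces K 3).filter (fun f => g ⊆ f)).card ≤ degree K g := by
  classical
  have h : (faces K 3).filter (fun f => g ⊆ f) ⊆
      (Finset.range (degree K g)).image (fun i => fi cyc g i) := by
    intro f hf
    obtain ⟨h1, h2⟩ := Finset.mem_filter.mp hf
    obtain ⟨i, hi, hfi⟩ := fi_surj hcard hcyc hg h1 h2
    exact Finset.mem_image.mpr ⟨i, Finset.mem_range.mpr hi, hfi⟩
  have := (Finset.card_le_card h).trans Finset.card_image_le
  rwa [Finset.card_range] at this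

/-- No two adjacent edges of the core have degree three. -/
theorem no_three (hX : StX) (hcard : ∀ t ∈ K, t.card = 4) (hcyc : Nice K cyc)
    {A : Finset (Finset (Fin N))} (hA : A ⊆ interiorFaces K 2)
    (h1 : ∀ e ∈ A, ∀ v ∈ e, ((partnersIn K A e).filter (fun e' => v ∈ e')).card ≤ 1)
    (lv : Finset (Fin N) → ℕ) (r : ℕ)
    (hfree : ∀ e ∈ interiorFaces K 2, e ∉ A → min (r + 2) (degree K e) ≤
      ((faces K 3).filter (fun f => e ⊆ f ∧ ∀ e' ∈ interiorFaces K 2, e' ⊆ f → e' = e ∨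
        (e' ∉ A ∧ lv e' < lv e))).card) :
    ∀ e ∈ A, ∀ e' ∈ partnersIn K A e, ¬ (degree K e = 3 ∧ degree K e' = 3) := by
  classical
  rintro e he e' he' ⟨d1, d2⟩
  obtain ⟨he'A, hne, f, hf, hef, hef'⟩ := Finset.mem_filter.mp he'
  obtain ⟨v, hv, hv'⟩ := common (mem_faces.mp hf).1 (card_edge (hA he)) (card_edge (hA he'A)) hef
    hef'
  obtain ⟨g, hg, hvg, hge, hge', hdg, f1, hf1, f2, hf2, h12, g1, e1, g2, e2⟩ :=
    hX N K cyc hcard hcyc e (hA he) e' (hA he'A) v f hf hne hv hv' hef hef' d1 d2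
  by_cases hgA : g ∈ A
  · have := Finset.card_le_one.mp (h1 e he v hv) g
      (Finset.mem_filter.mpr ⟨Finset.mem_filter.mpr ⟨hgA, hge.symm, f1, hf1, e1, g1⟩, hvg⟩) e'
      (Finset.mem_filter.mpr ⟨he', hv'⟩)
    exact hge' this
  · have h := hfree g hg hgA
    have hsub : (faces K 3).filter (fun f => g ⊆ f ∧ ∀ e' ∈ interiorFaces K 2, e' ⊆ f → e' = g ∨
        (e' ∉ A ∧ lv e' < lv g)) ⊆ ((faces K 3).filter (fun f => g ⊆ f)) \ {f1, f2} := by
      intro x hx
      obtain ⟨x1, x2, x3⟩ := Finset.mem_filter.mp hx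
      rw [Finset.mem_sdiff, Finset.mem_insert, Finset.mem_singleton]
      refine ⟨Finset.mem_filter.mpr ⟨x1, x2⟩, ?_⟩
      rintro (rfl | rfl)
      · rcases x3 e (hA he) e1 with h | h
        · exact hge h.symm
        · exact h.1 he
      · rcases x3 e' (hA he'A) e2 with h | h
        · exact hge' h.symm
        · exact h.1 he'A
    have hpair : ({f1, f2} : Finset (Finset (Fin N))) ⊆
        (faces K 3).filter (fun f => g ⊆ f) := by
      intro x hx
      rw [Finset.mem_insert, Finset.mem_singleton] at hx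
      rcases hx with rfl | rfl
      · exact Finset.mem_filter.mpr ⟨hf1, g1⟩
      · exact Finset.mem_filter.mpr ⟨hf2, g2⟩
    have c1 := Finset.card_le_card hsub
    rw [Finset.card_sdiff_of_subset hpair, Finset.card_pair h12] at c1
    have c2 := card_tri_le hcard hcyc hg
    rw [hdg] at h c2
    omega

/-- The core and the peeled edges: the rank at a position with distinct planes. -/
theorem rank_core_c (hK : StK) (hT : StT) (hF : StF) (hAD : StAD) (hT3 : StT3) (hX : StX)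
    (hZ1 : StZ1) (hp : WR K p) (hcyc : Nice K cyc)
    (hdist : ∀ e ∈ interiorFaces K 2, DistinctAt K p e)
    {A : Finset (Finset (Fin N))} (hA : A ⊆ interiorFaces K 2)
    (h1 : ∀ e ∈ A, ∀ v ∈ e, ((partnersIn K A e).filter (fun e' => v ∈ e')).card ≤ 1)
    (lv : Finset (Fin N) → ℕ)
    (r d : ℕ) (hd : 6 * r ≤ d)
    (hfree : ∀ e ∈ interiorFaces K 2, e ∉ A → min (r + 2) (degree K e) ≤
      ((faces K 3).filter (fun f => e ⊆ f ∧ ∀ e' ∈ interiorFaces K 2, e' ⊆ f → e' = e ∨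
        (e' ∉ A ∧ lv e' < lv e))).card) :
    2 * Module.finrank ℝ (LinearMap.range (PT K cyc p r d)) +
      ∑ e ∈ A, ∑ e' ∈ partnersIn K A e, mu (degree K e) (degree K e') r d =
    2 * ∑ e ∈ interiorFaces K 2, lam (degree K e) r d := by
  have h2 := rank_peel hZ1 hp hcyc hdist hA lv r d hfree
  have h3 := rank_all hK hT hF hAD hT3 hp hcyc r d hd A hA (fun e he => hdist e (hA he)) h1
    (no_three hX hp.card hcyc hA h1 lv r hfree)
  have h4 := Finset.sum_sdiff hA (f := fun e => lam (degree K e) r d)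
  rw [h2, ← h4]
  omega

/-- The rank at any position. -/
theorem rank_core_c_le (hK : StK) (hT : StT) (hF : StF) (hAD : StAD) (hT3 : StT3) (hX : StX)
    (hZ1 : StZ1) (hcard : ∀ t ∈ K, t.card = 4) (hcyc : Nice K cyc)
    {A : Finset (Finset (Fin N))} (hA : A ⊆ interiorFaces K 2)
    (h1 : ∀ e ∈ A, ∀ v ∈ e, ((partnersIn K A e).filter (fun e' => v ∈ e')).card ≤ 1)
    (lv : Finset (Fin N) → ℕ)
    (p : Fin N → Fin 3 → ℝ) (r d : ℕ) (hd : 6 * r ≤ d)
    (hfree : ∀ e ∈ interiorFaces K 2, e ∉ A → min (r + 2) (degree K e) ≤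
      ((faces K 3).filter (fun f => e ⊆ f ∧ ∀ e' ∈ interiorFaces K 2, e' ⊆ f → e' = e ∨
        (e' ∉ A ∧ lv e' < lv e))).card) :
    2 * Module.finrank ℝ (LinearMap.range (PT K cyc p r d)) +
      ∑ e ∈ A, ∑ e' ∈ partnersIn K A e, mu (degree K e) (degree K e') r d ≤
    2 * ∑ e ∈ interiorFaces K 2, lam (degree K e) r d := by
  have e1 := U79.stU1_79 N K cyc p (mc N) r d
  have e2 : ∀ᶠ s in nhdsWithin (0 : ℝ) {0}ᶜ, ∀ t ∈ K,
      AffineIndependent ℝ (fun i : t => ln p (mc N) s i) := by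
    rw [Filter.eventually_all_finset]
    intro t ht
    exact U2_42.stU2_42 N t p (mc N) ((wr_mc U5_42.stU5_42 hcard).nondeg t ht)
  have e3 : ∀ᶠ s in nhdsWithin (0 : ℝ) {0}ᶜ, ∀ e ∈ interiorFaces K 2, ∀ f ∈ faces K 3,
      ∀ g ∈ faces K 3, e ⊆ f → e ⊆ g → f ≠ g →
        AffineIndependent ℝ (fun i : (f ∪ g : Finset (Fin N)) => ln p (mc N) s i) := by
    rw [Filter.eventually_all_finset]
    intro e he
    rw [Filter.eventually_all_finset]
    intro f hf
    rw [Filter.eventually_all_finset]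
    intro g hg
    by_cases h : e ⊆ f ∧ e ⊆ g ∧ f ≠ g
    · filter_upwards [U2_42.stU2_42 N (f ∪ g) p (mc N)
        (dist_mc U5_42.stU5_42 e he f hf g hg h.1 h.2.1 h.2.2)] with s hs
      exact fun _ _ _ => hs
    · exact Filter.Eventually.of_forall fun s h1 h2 h3 => absurd ⟨h1, h2, h3⟩ h
  obtain ⟨s, k1, k2, k3⟩ := (e1.and (e2.and e3)).exists
  have h4 := rank_core_c hK hT hF hAD hT3 hX hZ1 (p := ln p (mc N) s) ⟨hcard, k2⟩ hcyc k3 hA h1
    lv r d hd hfree
  omega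

/-- The exact dimension at every realisation with distinct planes. -/
theorem pos_core_c (hK : StK) (hT : StT) (hF : StF) (hAD : StAD) (hT3 : StT3) (hX : StX)
    (hZ1 : StZ1) (hne : K.Nonempty) (hcyc : Nice K cyc)
    {A : Finset (Finset (Fin N))} (hA : A ⊆ interiorFaces K 2)
    (h1 : ∀ e ∈ A, ∀ v ∈ e, ((partnersIn K A e).filter (fun e' => v ∈ e')).card ≤ 1)
    (lv : Finset (Fin N) → ℕ) (r d : ℕ) (hd : 6 * r ≤ d)
    (hfree : ∀ e ∈ interiorFaces K 2, e ∉ A → min (r + 2) (degree K e) ≤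
      ((faces K 3).filter (fun f => e ⊆ f ∧ ∀ e' ∈ interiorFaces K 2, e' ⊆ f → e' = e ∨
        (e' ∉ A ∧ lv e' < lv e))).card)
    (hp : Realises K p) (hdist : ∀ e ∈ interiorFaces K 2, DistinctAt K p e) :
    2 * (Module.finrank ℝ (Spline r (d + r + 1) K p) +
        ∑ e ∈ interiorFaces K 2, lam (degree K e) r d) =
      2 * ((d + r + 4).choose 3 + (interiorFaces K 3).card * (d + 3).choose 3) +
        ∑ e ∈ A, ∑ e' ∈ partnersIn K A e, mu (degree K e) (degree K e') r d := by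
  have a3 := dim_rank hne hcyc r d hp
  have a4 := rank_core_c hK hT hF hAD hT3 hX hZ1 hp.wr hcyc hdist hA h1 lv r d hd hfree
  omega

/-- The exact generic dimension. -/
theorem gen_core_c (hK : StK) (hT : StT) (hF : StF) (hAD : StAD) (hT3 : StT3) (hX : StX)
    (hU4a : StU4a) (hU4b : StU4b) (hZ1 : StZ1) (hne : K.Nonempty)
    (hcyc : Nice K cyc)
    {A : Finset (Finset (Fin N))} (hA : A ⊆ interiorFaces K 2)
    (h1 : ∀ e ∈ A, ∀ v ∈ e, ((partnersIn K A e).filter (fun e' => v ∈ e')).card ≤ 1)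
    (lv : Finset (Fin N) → ℕ) (r d : ℕ) (hd : 6 * r ≤ d)
    (hfree : ∀ e ∈ interiorFaces K 2, e ∉ A → min (r + 2) (degree K e) ≤
      ((faces K 3).filter (fun f => e ⊆ f ∧ ∀ e' ∈ interiorFaces K 2, e' ⊆ f → e' = e ∨
        (e' ∉ A ∧ lv e' < lv e))).card)
    (h : ∃ p, Realises K p) :
    2 * (genDim r (d + r + 1) K + ∑ e ∈ interiorFaces K 2, lam (degree K e) r d) =
      2 * ((d + r + 4).choose 3 + (interiorFaces K 3).card * (d + 3).choose 3) +
        ∑ e ∈ A, ∑ e' ∈ partnersIn K A e, mu (degree K e) (degree K e') r d := by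
  obtain ⟨p1, hp1, hd1⟩ := exists_distinct U2_42.stU2_42 hU4a hU4b U5_42.stU5_42 h
  obtain ⟨p0, hp0, hg⟩ := genDim_spec r (d + r + 1) h
  have a1 := dim_rank hne hcyc r d hp0
  have a2 := rank_core_c_le hK hT hF hAD hT3 hX hZ1 hp0.card hcyc hA h1 lv p0 r d hd hfree
  have a3 := pos_core_c hK hT hF hAD hT3 hX hZ1 hne hcyc hA h1 lv r d hd hfree hp1 hd1
  have a5 := genDim_le r (d + r + 1) hp1
  rw [← hg] at a1
  omega

end Pool.Agent.Lib.MP_d2a91d_an.Chain
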