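import Pool.Agent.Lib.MP_d2a91d_an.DimN

namespace Pool.Agent.Lib.MP_d2a91d_an

open MvPolynomial Set

theorem pl_fst (a b c : Fin 3 → ℝ) : eval a (pl a b c) = 0 := by
  rw [eval_pl_sub, dt_eq]; simp
theorem pl_snd (a b c : Fin 3 → ℝ) : eval b (pl a b c) = 0 := by
  rw [eval_pl_sub, dt_eq]; ring
theorem pl_trd (a b c : Fin 3 → ℝ) : eval c (pl a b c) = 0 := by
  rw [eval_pl_sub, dt_eq]; ring

theorem eval_pl_line (a b c v : Fin 3 → ℝ) (s : ℝ) :
    eval (a + s • v) (pl a b c) = s * dt v (b - a) (c - a) := by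
  rw [eval_pl_add]
  simp only [dt_eq, Pi.smul_apply, smul_eq_mul]
  ring

theorem zero_of_pow_mul (n : ℕ) (F : ℝ → ℝ) (hF : Continuous F) (h : ∀ s, s ^ n * F s = 0) :
    F 0 = 0 := by
  have h1 : Set.EqOn F (fun _ => (0 : ℝ)) ({0}ᶜ : Set ℝ) := by
    intro s hs
    have := h s
    exact (mul_eq_zero.mp this).resolve_left (pow_ne_zero n hs)
  have h2 := Continuous.ext_on (dense_compl_singleton (0 : ℝ)) hF continuous_const h1
  rw [h2]

/-- Two coefficients of an identity between powers of linear forms. -/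
theorem two_coeffs (m : ℕ) (a c α β c' γ δ e : ℝ)
    (h : ∀ t : ℝ, a * t ^ (m + 3) + c * (α + t * β) ^ (m + 3) + c' * (γ + t * δ) ^ (m + 3) + e = 0) :
    c * α ^ (m + 2) * β + c' * γ ^ (m + 2) * δ = 0 ∧
      c * α ^ (m + 1) * β ^ 2 + c' * γ ^ (m + 1) * δ ^ 2 = 0 := by
  set G : Polynomial ℝ := Polynomial.C a * Polynomial.X ^ (m + 3) +
    Polynomial.C c * (Polynomial.C α + Polynomial.X * Polynomial.C β) ^ (m + 3) +
    Polynomial.C c' * (Polynomial.C γ + Polynomial.X * Polynomial.C δ) ^ (m + 3) +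
    Polynomial.C e with hG
  have hG0 : G = 0 := by
    refine Polynomial.funext fun t => ?_
    rw [hG]
    have := h t
    simp only [Polynomial.eval_add, Polynomial.eval_mul, Polynomial.eval_C, Polynomial.eval_pow,
      Polynomial.eval_X, Polynomial.eval_zero]
    exact this
  have h1 : Polynomial.eval 0 (Polynomial.derivative G) = 0 := by rw [hG0]; simp
  have h2 : Polynomial.eval 0 (Polynomial.derivative (Polynomial.derivative G)) = 0 := by
    rw [hG0]; simp
  have hm3 : m + 3 - 1 = m + 2 := rfl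
  have hm2 : m + 2 - 1 = m + 1 := rfl
  have e1 : Polynomial.derivative G =
      Polynomial.C a * (Polynomial.C ((m + 3 : ℕ) : ℝ) * Polynomial.X ^ (m + 2)) +
      Polynomial.C c * (Polynomial.C ((m + 3 : ℕ) : ℝ) *
        (Polynomial.C α + Polynomial.X * Polynomial.C β) ^ (m + 2) * Polynomial.C β) +
      Polynomial.C c' * (Polynomial.C ((m + 3 : ℕ) : ℝ) *
        (Polynomial.C γ + Polynomial.X * Polynomial.C δ) ^ (m + 2) * Polynomial.C δ) := by
    rw [hG]
    simp only [Polynomial.derivative_add, Polynomial.derivative_mul, Polynomial.derivative_C,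
      Polynomial.derivative_pow, Polynomial.derivative_X, zero_mul,
      zero_add, mul_zero, add_zero, mul_one, one_mul, hm3]
  have e2 : Polynomial.derivative (Polynomial.derivative G) =
      Polynomial.C a * (Polynomial.C ((m + 3 : ℕ) : ℝ) * (Polynomial.C ((m + 2 : ℕ) : ℝ) *
        Polynomial.X ^ (m + 1))) +
      Polynomial.C c * (Polynomial.C ((m + 3 : ℕ) : ℝ) * (Polynomial.C ((m + 2 : ℕ) : ℝ) *
        (Polynomial.C α + Polynomial.X * Polynomial.C β) ^ (m + 1) * Polynomial.C β) *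
        Polynomial.C β) +
      Polynomial.C c' * (Polynomial.C ((m + 3 : ℕ) : ℝ) * (Polynomial.C ((m + 2 : ℕ) : ℝ) *
        (Polynomial.C γ + Polynomial.X * Polynomial.C δ) ^ (m + 1) * Polynomial.C δ) *
        Polynomial.C δ) := by
    rw [e1]
    simp only [Polynomial.derivative_add, Polynomial.derivative_mul, Polynomial.derivative_C,
      Polynomial.derivative_pow, Polynomial.derivative_X, zero_mul,
      zero_add, mul_zero, add_zero, mul_one, one_mul, hm2]
  rw [e1] at h1
  rw [e2] at h2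
  have n1 : ((m : ℝ) + 3) ≠ 0 := by positivity
  have n2 : ((m : ℝ) + 2) ≠ 0 := by positivity
  simp at h1 h2
  constructor
  · have : ((m : ℝ) + 3) * (c * α ^ (m + 2) * β + c' * γ ^ (m + 2) * δ) = 0 := by
      linear_combination h1
    exact (mul_eq_zero.mp this).resolve_left n1
  · have : (((m : ℝ) + 3) * ((m : ℝ) + 2)) *
        (c * α ^ (m + 1) * β ^ 2 + c' * γ ^ (m + 1) * δ ^ 2) = 0 := by
      linear_combination h2
    exact (mul_eq_zero.mp this).resolve_left (mul_ne_zero n1 n2)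

/-- The vector from vertex `0` to vertex `i`. -/
def bv (p : Fin 7 → Fin 3 → ℝ) (i : Fin 7) : Fin 3 → ℝ := p i - p 0

/-- The plane through the vertices `0, j, k`. -/
noncomputable def L (p : Fin 7 → Fin 3 → ℝ) (j k : Fin 7) : MvPolynomial (Fin 3) ℝ :=
  pl (p 0) (p j) (p k)

theorem dt_ne {p : Fin 7 → Fin 3 → ℝ} (h : Realises KA p) {t : Finset (Fin 7)} (ht : t ∈ KA)
    {i j k : Fin 7} (h0 : 0 ∈ t) (hi : i ∈ t) (hj : j ∈ t) (hk : k ∈ t) (h0i : 0 ≠ i)
    (h0j : 0 ≠ j) (h0k : 0 ≠ k) (hij : i ≠ j) (hik : i ≠ k) (hjk : j ≠ k) :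
    dt (bv p i) (bv p j) (bv p k) ≠ 0 :=
  (isUnit_cols (affInd4 h ht h0 hj hk hi h0j h0k h0i hjk hij.symm hik.symm)).ne_zero

theorem L_line (p : Fin 7 → Fin 3 → ℝ) (j k : Fin 7) (v : Fin 3 → ℝ) (s : ℝ) :
    eval (p 0 + s • v) (L p j k) = s * dt v (bv p j) (bv p k) := eval_pl_line _ _ _ _ _

theorem continuous_line (P : MvPolynomial (Fin 3) ℝ) (x v : Fin 3 → ℝ) :
    Continuous (fun s : ℝ => eval (x + s • v) P) :=
  (contDiff_eval P (n := 0)).continuous.comp
    (continuous_const.add (continuous_id.smul continuous_const))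

theorem claimX {p : Fin 7 → Fin 3 → ℝ} (h : Realises KA p) (m : ℕ)
    (q : Fin 6 → MvPolynomial (Fin 3) ℝ) (hα : dt (bv p 1) (bv p 2) (bv p 5) ≠ 0)
    (h1 : L p 1 2 ^ (m + 3) * q 0 + L p 1 4 ^ (m + 3) * q 1 + L p 1 3 ^ (m + 3) * q 2 =
      L p 1 2 ^ (m + 3))
    (h2 : L p 1 2 ^ (m + 3) * q 0 + L p 2 3 ^ (m + 3) * q 3 + L p 2 5 ^ (m + 3) * q 4 +
      L p 2 4 ^ (m + 3) * q 5 = 0) : False := by
  -- the leading parts at the vertex `0`
  have e1 : ∀ v : Fin 3 → ℝ, dt v (bv p 1) (bv p 2) ^ (m + 3) * (eval (p 0) (q 0) - 1) +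
      dt v (bv p 1) (bv p 4) ^ (m + 3) * eval (p 0) (q 1) +
      dt v (bv p 1) (bv p 3) ^ (m + 3) * eval (p 0) (q 2) = 0 := by
    intro v
    have := zero_of_pow_mul (m + 3) (fun s : ℝ =>
      dt v (bv p 1) (bv p 2) ^ (m + 3) * (eval (p 0 + s • v) (q 0) - 1) +
      dt v (bv p 1) (bv p 4) ^ (m + 3) * eval (p 0 + s • v) (q 1) +
      dt v (bv p 1) (bv p 3) ^ (m + 3) * eval (p 0 + s • v) (q 2)) (by
        have c0 := continuous_line (q 0) (p 0) v
        have c1 := continuous_line (q 1) (p 0) v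
        have c2 := continuous_line (q 2) (p 0) v
        fun_prop) (by
        intro s
        have := congrArg (eval (p 0 + s • v)) h1
        simp only [map_add, map_mul, map_pow, L_line] at this
        linear_combination this)
    simpa using this
  have e2 : ∀ v : Fin 3 → ℝ, dt v (bv p 1) (bv p 2) ^ (m + 3) * eval (p 0) (q 0) +
      dt v (bv p 2) (bv p 3) ^ (m + 3) * eval (p 0) (q 3) +
      dt v (bv p 2) (bv p 5) ^ (m + 3) * eval (p 0) (q 4) +
      dt v (bv p 2) (bv p 4) ^ (m + 3) * eval (p 0) (q 5) = 0 := by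
    intro v
    have := zero_of_pow_mul (m + 3) (fun s : ℝ =>
      dt v (bv p 1) (bv p 2) ^ (m + 3) * eval (p 0 + s • v) (q 0) +
      dt v (bv p 2) (bv p 3) ^ (m + 3) * eval (p 0 + s • v) (q 3) +
      dt v (bv p 2) (bv p 5) ^ (m + 3) * eval (p 0 + s • v) (q 4) +
      dt v (bv p 2) (bv p 4) ^ (m + 3) * eval (p 0 + s • v) (q 5)) (by
        have c0 := continuous_line (q 0) (p 0) v
        have c1 := continuous_line (q 3) (p 0) v
        have c2 := continuous_line (q 4) (p 0) v
        have c3 := continuous_line (q 5) (p 0) v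
        fun_prop) (by
        intro s
        have := congrArg (eval (p 0 + s • v)) h2
        simp only [map_add, map_mul, map_pow, L_line, map_zero] at this
        linear_combination this)
    simpa using this
  -- non-degeneracy
  have n123 : dt (bv p 1) (bv p 2) (bv p 3) ≠ 0 := dt_ne h (t := {0, 1, 2, 3}) (by decide +kernel)
    (by decide) (by decide) (by decide) (by decide) (by decide) (by decide) (by decide)
    (by decide) (by decide) (by decide)
  have n124 : dt (bv p 1) (bv p 2) (bv p 4) ≠ 0 := dt_ne h (t := {0, 1, 2, 4}) (by decide +kernel)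
    (by decide) (by decide) (by decide) (by decide) (by decide) (by decide) (by decide)
    (by decide) (by decide) (by decide)
  have n134 : dt (bv p 1) (bv p 3) (bv p 4) ≠ 0 := dt_ne h (t := {0, 1, 3, 4}) (by decide +kernel)
    (by decide) (by decide) (by decide) (by decide) (by decide) (by decide) (by decide)
    (by decide) (by decide) (by decide)
  have n235 : dt (bv p 2) (bv p 3) (bv p 5) ≠ 0 := dt_ne h (t := {0, 2, 3, 5}) (by decide +kernel)
    (by decide) (by decide) (by decide) (by decide) (by decide) (by decide) (by decide)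
    (by decide) (by decide) (by decide)
  have n245 : dt (bv p 2) (bv p 4) (bv p 5) ≠ 0 := dt_ne h (t := {0, 2, 4, 5}) (by decide +kernel)
    (by decide) (by decide) (by decide) (by decide) (by decide) (by decide) (by decide)
    (by decide) (by decide) (by decide)
  generalize bv p 1 = b1 at *
  generalize bv p 2 = b2 at *
  generalize bv p 3 = b3 at *
  generalize bv p 4 = b4 at *
  generalize bv p 5 = b5 at *
  generalize eval (p 0) (q 0) = q0 at *
  generalize eval (p 0) (q 1) = q1 at *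
  generalize eval (p 0) (q 2) = q2 at *
  generalize eval (p 0) (q 3) = q3 at *
  generalize eval (p 0) (q 4) = q4 at *
  generalize eval (p 0) (q 5) = q5 at *
  -- first edge: `q0 = 1`
  have f1 : ∀ t : ℝ, (dt b3 b1 b2 ^ (m + 3) * (q0 - 1)) * t ^ (m + 3) +
      q1 * (dt b2 b1 b4 + t * dt b3 b1 b4) ^ (m + 3) + 0 * (0 + t * 0) ^ (m + 3) +
      dt b2 b1 b3 ^ (m + 3) * q2 = 0 := by
    intro t
    have := e1 ((1 : ℝ) • b2 + t • b3)
    simp only [dt_smul_add] at this
    have z1 : dt b2 b1 b2 = 0 := by rw [dt_eq]; ring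
    have z2 : dt b3 b1 b3 = 0 := by rw [dt_eq]; ring
    rw [z1, z2] at this
    linear_combination this
  have nA : dt b3 b1 b2 ≠ 0 := by
    intro hz; apply n123; rw [dt_eq] at hz ⊢; linear_combination hz
  have nC : dt b2 b1 b4 ≠ 0 := by
    intro hz; apply n124; rw [dt_eq] at hz ⊢; linear_combination -hz
  have nD : dt b3 b1 b4 ≠ 0 := by
    intro hz; apply n134; rw [dt_eq] at hz ⊢; linear_combination -hz
  obtain ⟨g1, -⟩ := two_coeffs _ _ _ _ _ _ _ _ _ f1
  have hq1 : q1 = 0 := by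
    rw [zero_mul, zero_mul, add_zero] at g1
    rcases mul_eq_zero.mp g1 with h' | h'
    · rcases mul_eq_zero.mp h' with h'' | h''
      · exact h''
      · exact absurd h'' (pow_ne_zero _ nC)
    · exact absurd h' nD
  have hq0 : q0 = 1 := by
    have t0 := f1 0
    have t1 := f1 1
    rw [hq1] at t0 t1
    have : dt b3 b1 b2 ^ (m + 3) * (q0 - 1) = 0 := by
      have e0 : (0 : ℝ) ^ (m + 3) = 0 := by simp
      rw [e0] at t0
      simp only [one_pow] at t1
      linear_combination t1 - t0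
    have := (mul_eq_zero.mp this).resolve_left (pow_ne_zero _ nA)
    linarith
  -- second edge: `q0 = 0`
  have f2 : ∀ t : ℝ, (dt b3 b1 b2 ^ (m + 3) * q0) * t ^ (m + 3) +
      q4 * (dt b1 b2 b5 + t * dt b3 b2 b5) ^ (m + 3) +
      q5 * (dt b1 b2 b4 + t * dt b3 b2 b4) ^ (m + 3) +
      dt b1 b2 b3 ^ (m + 3) * q3 = 0 := by
    intro t
    have := e2 ((1 : ℝ) • b1 + t • b3)
    simp only [dt_smul_add] at this
    have z1 : dt b1 b1 b2 = 0 := by rw [dt_eq]; ring
    have z2 : dt b3 b2 b3 = 0 := by rw [dt_eq]; ring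
    rw [z1, z2] at this
    linear_combination this
  obtain ⟨g1, g2⟩ := two_coeffs _ _ _ _ _ _ _ _ _ f2
  have nβ : dt b3 b2 b5 ≠ 0 := by
    intro hz; apply n235; rw [dt_eq] at hz ⊢; linear_combination -hz
  have nP : dt b1 b2 b4 * dt b3 b2 b5 - dt b1 b2 b5 * dt b3 b2 b4 ≠ 0 := by
    have : dt b1 b2 b4 * dt b3 b2 b5 - dt b1 b2 b5 * dt b3 b2 b4 =
        -(dt b1 b2 b3 * dt b2 b4 b5) := by
      simp only [dt_eq]; ring
    rw [this]
    exact neg_ne_zero.mpr (mul_ne_zero n123 n245)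
  have hδ : q5 * dt b3 b2 b4 = 0 := by
    have : (q5 * dt b3 b2 b4) * (dt b1 b2 b4 ^ (m + 1) *
        (dt b1 b2 b4 * dt b3 b2 b5 - dt b1 b2 b5 * dt b3 b2 b4)) = 0 := by
      linear_combination dt b3 b2 b5 * g1 - dt b1 b2 b5 * g2
    exact (mul_eq_zero.mp this).resolve_right (mul_ne_zero (pow_ne_zero _ n124) nP)
  have hq4 : q4 = 0 := by
    have : q4 * (dt b1 b2 b5 ^ (m + 2) * dt b3 b2 b5) = 0 := by
      linear_combination g1 - dt b1 b2 b4 ^ (m + 2) * hδ
    exact (mul_eq_zero.mp this).resolve_right (mul_ne_zero (pow_ne_zero _ hα) nβ)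
  have hcase : q5 * (dt b1 b2 b4 + 1 * dt b3 b2 b4) ^ (m + 3) =
      q5 * (dt b1 b2 b4 + 0 * dt b3 b2 b4) ^ (m + 3) := by
    rcases mul_eq_zero.mp hδ with h' | h'
    · rw [h']; ring
    · rw [h']; ring
  have t0 := f2 0
  have t1 := f2 1
  rw [hcase] at t1
  rw [hq4, hq0] at t0 t1
  have : dt b3 b1 b2 ^ (m + 3) = 0 := by
    have e0 : (0 : ℝ) ^ (m + 3) = 0 := by simp
    rw [e0] at t0
    simp only [one_pow] at t1
    linear_combination t1 - t0
  exact pow_ne_zero _ nA this

end Pool.Agent.Lib.MP_d2a91d_an
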