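import Mathlib

/-!
Rows R3, R4 of MP_d2a91d (helper79): one variable.  Polynomials of degree at most `j` that are
divisible by high powers of `X - p i` are independent.
-/

set_option autoImplicit false

namespace Pool.Agent.Lib.MP_d2a91d_an.H79

open Polynomial

/-- lowering operator at `p` -/
noncomputable def Lo (p : ℝ) (j : ℕ) (f : ℝ[X]) : ℝ[X] := (X - C p) * derivative f - C (j : ℝ) * f

theorem eq_zero_of_dvd {f : ℝ[X]} {p : ℝ} {j k : ℕ} (hf : f.natDegree ≤ j) (hk : j < k)
    (hd : (X - C p) ^ k ∣ f) : f = 0 := by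
  by_contra h0
  have h1 := natDegree_le_of_dvd hd h0
  rw [natDegree_pow, natDegree_X_sub_C, mul_one] at h1
  omega

theorem lo_natDegree {p : ℝ} {j : ℕ} {f : ℝ[X]} (hf : f.natDegree ≤ j + 1) :
    (Lo p (j + 1) f).natDegree ≤ j := by
  rw [natDegree_le_iff_coeff_eq_zero]
  intro N hN
  have hz : ∀ M, j + 1 < M → f.coeff M = 0 := fun M hM =>
    coeff_eq_zero_of_natDegree_lt (lt_of_le_of_lt hf hM)
  obtain ⟨M, rfl⟩ : ∃ M, N = M + 1 := ⟨N - 1, by omega⟩
  unfold Lo
  rw [coeff_sub, sub_mul, coeff_sub, coeff_X_mul, coeff_C_mul, coeff_C_mul, coeff_derivative,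
    coeff_derivative]
  by_cases hM : M = j
  · subst hM
    rw [hz (M + 1 + 1) (by omega)]
    push_cast
    ring
  · rw [hz (M + 1 + 1) (by omega), hz (M + 1) (by omega)]
    ring

theorem lo_dvd {p q : ℝ} {j k : ℕ} {f : ℝ[X]} (h : (X - C q) ^ (k + 1) ∣ f) :
    (X - C q) ^ k ∣ Lo p j f := by
  have h1 := pow_sub_one_dvd_derivative_of_pow_dvd h
  rw [Nat.add_sub_cancel] at h1
  exact dvd_sub (h1.mul_left _) (((pow_dvd_pow _ (Nat.le_succ k)).trans h).mul_left _)

theorem lo_dvd_self {p : ℝ} {j k : ℕ} {f : ℝ[X]} (h : (X - C p) ^ k ∣ f) :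
    (X - C p) ^ k ∣ Lo p j f := by
  refine dvd_sub ?_ (h.mul_left _)
  rcases Nat.eq_zero_or_pos k with hk | hk
  · rw [hk, pow_zero]
    exact one_dvd _
  · obtain ⟨m, rfl⟩ : ∃ m, k = m + 1 := ⟨k - 1, by omega⟩
    have h1 := pow_sub_one_dvd_derivative_of_pow_dvd h
    rw [Nat.add_sub_cancel] at h1
    rw [pow_succ']
    exact mul_dvd_mul_left _ h1

theorem lo_ker {p q : ℝ} (hpq : p ≠ q) {j : ℕ} (hj : j ≠ 0) {f : ℝ[X]} (h : Lo p j f = 0)
    (hq : X - C q ∣ f) : f = 0 := by
  by_contra h0
  have hj0 : (j : ℝ) ≠ 0 := by exact_mod_cast hj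
  have hroot : f.IsRoot q := dvd_iff_isRoot.1 hq
  have h1 : (X - C p) * derivative f = C (j : ℝ) * f := by
    unfold Lo at h
    exact sub_eq_zero.1 h
  have hd0 : derivative f ≠ 0 := by
    intro hd
    rw [hd, mul_zero] at h1
    have h2 : C (j : ℝ) * f ≠ 0 := mul_ne_zero (C_ne_zero.2 hj0) h0
    exact h2 h1.symm
  have hx0 : (X - C p : ℝ[X]) ≠ 0 := X_sub_C_ne_zero p
  have h2 := congrArg (rootMultiplicity q) h1
  rw [rootMultiplicity_mul (mul_ne_zero hx0 hd0), rootMultiplicity_mul (mul_ne_zero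
    (C_ne_zero.2 hj0) h0), derivative_rootMultiplicity_of_root hroot, rootMultiplicity_C,
    rootMultiplicity_X_sub_C, if_neg (Ne.symm hpq)] at h2
  have h3 : 0 < rootMultiplicity q f := (rootMultiplicity_pos h0).2 hroot
  omega

/-- independence at finitely many finite points -/
theorem indep {n : ℕ} {p : Fin n → ℝ} (hp : Function.Injective p) : ∀ (N : ℕ) (b : Fin n → ℕ)
    (j : ℕ) (f : Fin n → ℝ[X]), ∑ i, b i = N → N ≤ j + 1 → (∀ i, (f i).natDegree ≤ j) →
    (∀ i, (X - C (p i)) ^ (j + 1 - b i) ∣ f i) → ∑ i, f i = 0 → ∀ i, f i = 0 := by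
  intro N
  induction N with
  | zero =>
    intro b j f hb hN hd hv hs i
    have hbi : b i = 0 := (Finset.sum_eq_zero_iff.1 hb) i (Finset.mem_univ i)
    have h1 := hv i
    rw [hbi, Nat.sub_zero] at h1
    exact eq_zero_of_dvd (hd i) (Nat.lt_succ_self j) h1
  | succ N ih =>
    intro b j f hb hN hd hv hs
    obtain ⟨i₀, hi0⟩ : ∃ i₀, 0 < b i₀ := by
      by_contra hcon
      push Not at hcon
      have h1 : ∑ i, b i = 0 := Finset.sum_eq_zero fun i _ => Nat.le_zero.1 (hcon i)
      omega
    have hle : ∀ i, i ≠ i₀ → b i + 1 ≤ N + 1 := by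
      intro i hi
      have h1 : b i + b i₀ ≤ ∑ i, b i := by
        rw [← Finset.sum_pair hi]
        exact Finset.sum_le_sum_of_subset (Finset.subset_univ _)
      omega
    have key : ∀ i, i ≠ i₀ → f i = 0 := by
      rcases Nat.eq_zero_or_pos j with hj | hj
      · intro i hi
        have h1 := hle i hi
        have h2 := hv i
        have h3 : b i = 0 := by omega
        rw [h3, Nat.sub_zero] at h2
        exact eq_zero_of_dvd (hd i) (Nat.lt_succ_self j) h2
      · obtain ⟨m, rfl⟩ : ∃ m, j = m + 1 := ⟨j - 1, by omega⟩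
        have h1 := ih (Function.update b i₀ (b i₀ - 1)) m (fun i => Lo (p i₀) (m + 1) (f i)) (by
          have h2 : ∑ i, Function.update b i₀ (b i₀ - 1) i + 1 = ∑ i, b i := by
            rw [← Finset.add_sum_erase _ _ (Finset.mem_univ i₀),
              ← Finset.add_sum_erase _ b (Finset.mem_univ i₀), Function.update_self]
            have h3 : ∑ x ∈ Finset.univ.erase i₀, Function.update b i₀ (b i₀ - 1) x =
                ∑ x ∈ Finset.univ.erase i₀, b x := by
              refine Finset.sum_congr rfl fun x hx => ?_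
              rw [Function.update_of_ne (Finset.ne_of_mem_erase hx)]
            rw [h3]
            omega
          omega) (by omega) (fun i => lo_natDegree (hd i)) (fun i => by
            by_cases hi : i = i₀
            · subst hi
              rw [Function.update_self]
              have h4 : m + 1 - (b i - 1) = m + 1 + 1 - b i := by omega
              rw [h4]
              exact lo_dvd_self (hv i)
            · rw [Function.update_of_ne hi]
              have h5 := hle i hi
              have h6 := hv i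
              have h7 : m + 1 + 1 - b i = m + 1 - b i + 1 := by omega
              rw [h7] at h6
              exact lo_dvd h6) (by
            unfold Lo
            rw [Finset.sum_sub_distrib, ← Finset.mul_sum, ← Finset.mul_sum, ← derivative_sum, hs,
              derivative_zero, mul_zero, mul_zero, sub_zero])
        intro i hi
        have h8 := hle i hi
        refine lo_ker (fun h => hi (hp h.symm)) (Nat.succ_ne_zero m) (h1 i) ?_
        exact (dvd_pow_self _ (by omega)).trans (hv i)
    intro i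
    by_cases hi : i = i₀
    · subst hi
      rw [← hs]
      exact (Finset.sum_eq_single i (fun x _ hx => key x hx) (fun h => absurd
        (Finset.mem_univ i) h)).symm
    · exact key i hi

/-- splitting of a number into small parts -/
theorem split_le (c : ℕ) : ∀ (n M : ℕ), M ≤ n * c → ∃ b : Fin n → ℕ, (∀ i, b i ≤ c) ∧
    ∑ i, b i = M := by
  intro n
  induction n with
  | zero =>
    intro M hM
    exact ⟨fun _ => 0, fun i => i.elim0, by simp at hM ⊢; omega⟩
  | succ n ih =>
    intro M hM
    rw [Nat.succ_mul] at hM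
    obtain ⟨b, hb, hs⟩ := ih (M - min c M) (by
      rcases le_total c M with h | h
      · rw [min_eq_left h]
        omega
      · rw [min_eq_right h]
        omega)
    refine ⟨Fin.cons (min c M) b, fun i => ?_, ?_⟩
    · refine Fin.cases ?_ (fun i => ?_) i
      · exact min_le_left _ _
      · exact hb i
    · rw [Fin.sum_univ_succ]
      simp only [Fin.cons_zero, Fin.cons_succ, hs]
      have := min_le_right c M
      omega

/-- injectivity in one degree -/
theorem inj_one {n : ℕ} {p : Fin n → ℝ} (hp : Function.Injective p) {m s : ℕ}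
    (h : n * (m + 1) ≤ m + s + 1) (g : Fin n → ℝ[X]) (hg : ∀ i, (g i).natDegree ≤ m)
    (hs : ∑ i, (X - C (p i)) ^ s * g i = 0) : ∀ i, g i = 0 := by
  have h1 := indep hp (n * (m + 1)) (fun _ => m + 1) (m + s)
    (fun i => (X - C (p i)) ^ s * g i) (by simp) (by omega) (fun i => by
      refine natDegree_mul_le.trans ?_
      have h2 : ((X - C (p i)) ^ s).natDegree ≤ s := by
        rw [natDegree_pow, natDegree_X_sub_C, mul_one]
      have h3 := hg i
      omega) (fun i => by
        have h4 : m + s + 1 - (m + 1) = s := by omega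
        rw [h4]
        exact dvd_mul_right _ _) hs
  intro i
  have h5 := h1 i
  exact (mul_eq_zero.1 h5).resolve_left (pow_ne_zero _ (X_sub_C_ne_zero _))

/-- surjectivity in one degree -/
theorem surj_one {n : ℕ} {p : Fin n → ℝ} (hp : Function.Injective p) {m s : ℕ}
    (h : m + s + 1 ≤ n * (m + 1)) (f : ℝ[X]) (hf : f.natDegree ≤ m + s) :
    ∃ g : Fin n → ℝ[X], (∀ i, (g i).natDegree ≤ m) ∧ ∑ i, (X - C (p i)) ^ s * g i = f := by
  obtain ⟨b, hb, hbs⟩ := split_le (m + 1) n (m + s + 1) h
  -- the linear map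
  let Ψ : ((i : Fin n) → degreeLT ℝ (b i)) →ₗ[ℝ] ℝ[X] :=
    ∑ i, (LinearMap.mulLeft ℝ ((X - C (p i)) ^ (m + s + 1 - b i))) ∘ₗ (Submodule.subtype _) ∘ₗ
      LinearMap.proj i
  have hΨ : ∀ g : (i : Fin n) → degreeLT ℝ (b i), Ψ g =
      ∑ i, (X - C (p i)) ^ (m + s + 1 - b i) * (g i : ℝ[X]) := by
    intro g
    simp [Ψ, LinearMap.sum_apply]
  have hdeg : ∀ (i : Fin n) (u : degreeLT ℝ (b i)), (X - C (p i)) ^ (m + s + 1 - b i) *
      (u : ℝ[X]) = 0 ∨ ((X - C (p i)) ^ (m + s + 1 - b i) * (u : ℝ[X])).natDegree ≤ m + s := by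
    intro i u
    by_cases hu : (u : ℝ[X]) = 0
    · left
      rw [hu, mul_zero]
    · right
      refine natDegree_mul_le.trans ?_
      have h2 : ((X - C (p i)) ^ (m + s + 1 - b i)).natDegree ≤ m + s + 1 - b i := by
        rw [natDegree_pow, natDegree_X_sub_C, mul_one]
      have h3 : (u : ℝ[X]).natDegree < b i := by
        have h4 := mem_degreeLT.1 u.2
        rwa [degree_eq_natDegree hu, Nat.cast_lt] at h4
      have h5 := hb i
      have h6 : b i ≤ m + s + 1 := by omega
      omega
  have hmem : ∀ g, Ψ g ∈ degreeLT ℝ (m + s + 1) := by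
    intro g
    rw [hΨ]
    refine Submodule.sum_mem _ fun i _ => ?_
    rcases hdeg i (g i) with h1 | h1
    · rw [h1]
      exact Submodule.zero_mem _
    · rw [mem_degreeLT]
      exact lt_of_le_of_lt degree_le_natDegree (by exact_mod_cast Nat.lt_succ_of_le h1)
  let Ψ' : ((i : Fin n) → degreeLT ℝ (b i)) →ₗ[ℝ] degreeLT ℝ (m + s + 1) :=
    LinearMap.codRestrict _ Ψ hmem
  have hinj : Function.Injective Ψ' := by
    rw [injective_iff_map_eq_zero]
    intro g hg
    have h1 : Ψ g = 0 := by
      have h2 := congrArg Subtype.val hg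
      exact h2
    rw [hΨ] at h1
    have h2 := indep hp (m + s + 1) b (m + s) (fun i => (X - C (p i)) ^ (m + s + 1 - b i) *
      (g i : ℝ[X])) hbs le_rfl (fun i => by
        rcases hdeg i (g i) with h3 | h3
        · rw [h3, natDegree_zero]
          exact Nat.zero_le _
        · exact h3) (fun i => dvd_mul_right _ _) h1
    funext i
    have h3 := h2 i
    have h4 := (mul_eq_zero.1 h3).resolve_left (pow_ne_zero _ (X_sub_C_ne_zero _))
    exact Subtype.ext h4
  have hfr : Module.finrank ℝ ((i : Fin n) → degreeLT ℝ (b i)) =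
      Module.finrank ℝ (degreeLT ℝ (m + s + 1)) := by
    have h1 : ∀ k : ℕ, Module.finrank ℝ (degreeLT ℝ k) = k := by
      intro k
      rw [(degreeLTEquiv ℝ k).finrank_eq, Module.finrank_fintype_fun_eq_card, Fintype.card_fin]
    rw [Module.finrank_pi_fintype]
    simp only [h1]
    exact hbs
  have hfd : ∀ k : ℕ, FiniteDimensional ℝ (degreeLT ℝ k) := fun k =>
    Module.Finite.equiv (degreeLTEquiv ℝ k).symm
  have : ∀ i : Fin n, FiniteDimensional ℝ (degreeLT ℝ (b i)) := fun i => hfd _
  have := hfd (m + s + 1)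
  have hsurj : Function.Surjective Ψ' :=
    (LinearMap.injective_iff_surjective_of_finrank_eq_finrank hfr).1 hinj
  obtain ⟨g, hg⟩ := hsurj ⟨f, by
    rw [mem_degreeLT]
    exact lt_of_le_of_lt degree_le_natDegree (by exact_mod_cast Nat.lt_succ_of_le hf)⟩
  refine ⟨fun i => (X - C (p i)) ^ (m + 1 - b i) * (g i : ℝ[X]), fun i => ?_, ?_⟩
  · change ((X - C (p i)) ^ (m + 1 - b i) * (g i : ℝ[X])).natDegree ≤ m
    by_cases hu : (g i : ℝ[X]) = 0
    · rw [hu, mul_zero, natDegree_zero]
      exact Nat.zero_le _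
    · refine natDegree_mul_le.trans ?_
      have h2 : ((X - C (p i)) ^ (m + 1 - b i)).natDegree ≤ m + 1 - b i := by
        rw [natDegree_pow, natDegree_X_sub_C, mul_one]
      have h3 : (g i : ℝ[X]).natDegree < b i := by
        have h4 := mem_degreeLT.1 (g i).2
        rwa [degree_eq_natDegree hu, Nat.cast_lt] at h4
      have h5 := hb i
      omega
  · have h1 : Ψ g = f := by
      have h2 := congrArg Subtype.val hg
      exact h2
    rw [hΨ] at h1
    rw [← h1]
    refine Finset.sum_congr rfl fun i _ => ?_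
    rw [← mul_assoc, ← pow_add]
    have h5 := hb i
    congr 2
    omega

end Pool.Agent.Lib.MP_d2a91d_an.H79
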