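import Pool.Agent.Lib.MP_d2a91d_an.Stmts
import Pool.Agent.Lib.MP_d2a91d_an.Poly79

/-!
Rows R3, R4 of MP_d2a91d (helper79): the components of a polynomial of three variables with
respect to the degree in the first two variables, and the comparison of ranks.
-/

set_option autoImplicit false

namespace Pool.Agent.Lib.MP_d2a91d_an.H79

open Polynomial

/-- `X 0 ↦ t S`, `X 1 ↦ S`, `X 2 ↦ Z`. -/
noncomputable def rho : MvPolynomial (Fin 3) ℝ →ₐ[ℝ] ℝ[X][X][X] :=
  MvPolynomial.aeval (![C (C X * X), C X, X] : Fin 3 → ℝ[X][X][X])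

theorem rho_monomial (e : Fin 3 →₀ ℕ) (r : ℝ) :
    rho (MvPolynomial.monomial e r) = C (C (C r * X ^ e 0) * X ^ (e 0 + e 1)) * X ^ e 2 := by
  unfold rho
  rw [MvPolynomial.aeval_monomial, Finsupp.prod_fintype _ _ (fun i => pow_zero _),
    Fin.prod_univ_three]
  have h : algebraMap ℝ ℝ[X][X][X] r = C (C (C r)) := rfl
  rw [h]
  simp only [Matrix.cons_val_zero, Matrix.cons_val_one, Matrix.cons_val_two, Matrix.head_cons,
    Matrix.tail_cons, map_mul, map_pow, pow_add]
  ring

/-- The component of bidegree `(m, c)`. -/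
noncomputable def comp (m c : ℕ) : MvPolynomial (Fin 3) ℝ →ₗ[ℝ] ℝ[X] where
  toFun P := ((rho P).coeff c).coeff m
  map_add' P Q := by simp
  map_smul' r P := by simp

theorem comp_apply (m c : ℕ) (P : MvPolynomial (Fin 3) ℝ) :
    comp m c P = ((rho P).coeff c).coeff m := rfl

theorem comp_monomial (m c : ℕ) (e : Fin 3 →₀ ℕ) (r : ℝ) :
    comp m c (MvPolynomial.monomial e r) =
      if m = e 0 + e 1 ∧ c = e 2 then C r * X ^ e 0 else 0 := by
  rw [comp_apply, rho_monomial, coeff_C_mul, coeff_X_pow]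
  by_cases hc : c = e 2
  · rw [if_pos hc, mul_one, coeff_C_mul, coeff_X_pow]
    by_cases hm : m = e 0 + e 1
    · rw [if_pos hm, if_pos ⟨hm, hc⟩, mul_one]
    · rw [if_neg hm, if_neg (fun h => hm h.1), mul_zero]
  · rw [if_neg hc, mul_zero, coeff_zero, if_neg (fun h => hc h.2)]

theorem coeff_comp (P : MvPolynomial (Fin 3) ℝ) (e : Fin 3 →₀ ℕ) :
    (comp (e 0 + e 1) (e 2) P).coeff (e 0) = MvPolynomial.coeff e P := by
  induction P using MvPolynomial.induction_on' with
  | monomial e' r =>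
    rw [comp_monomial, MvPolynomial.coeff_monomial]
    by_cases h : e' = e
    · subst h
      rw [if_pos ⟨rfl, rfl⟩, if_pos rfl, coeff_C_mul, coeff_X_pow, if_pos rfl, mul_one]
    · rw [if_neg h]
      by_cases h1 : e 0 + e 1 = e' 0 + e' 1 ∧ e 2 = e' 2
      · rw [if_pos h1, coeff_C_mul, coeff_X_pow]
        rw [if_neg, mul_zero]
        intro h2
        apply h
        ext i
        fin_cases i
        · exact h2.symm
        · have h3 := h1.1
          change e' 1 = e 1
          omega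
        · exact h1.2.symm
      · rw [if_neg h1, coeff_zero]
  | add p q hp hq => rw [map_add, coeff_add, MvPolynomial.coeff_add, hp, hq]

theorem ext_comp {P Q : MvPolynomial (Fin 3) ℝ} (h : ∀ m c, comp m c P = comp m c Q) : P = Q := by
  ext e
  rw [← coeff_comp, ← coeff_comp, h]

theorem comp_natDegree (m c : ℕ) (P : MvPolynomial (Fin 3) ℝ) : (comp m c P).natDegree ≤ m := by
  induction P using MvPolynomial.induction_on' with
  | monomial e r =>
    rw [comp_monomial]
    by_cases h : m = e 0 + e 1 ∧ c = e 2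
    · rw [if_pos h]
      refine (natDegree_C_mul_X_pow_le _ _).trans ?_
      have := h.1
      omega
    · rw [if_neg h, natDegree_zero]
      exact Nat.zero_le _
  | add p q hp hq =>
    rw [map_add]
    exact (natDegree_add_le _ _).trans (max_le hp hq)

/-- the linear form `a X + b Y` -/
noncomputable def lin (a b : ℝ) : MvPolynomial (Fin 3) ℝ :=
  MvPolynomial.C a * MvPolynomial.X 0 + MvPolynomial.C b * MvPolynomial.X 1

theorem rho_lin (a b : ℝ) : rho (lin a b) = C (C (C a * X + C b) * X) := by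
  have h : ∀ r : ℝ, rho (MvPolynomial.C r) = C (C (C r)) := by
    intro r
    unfold rho
    rw [MvPolynomial.aeval_C]
    rfl
  have h0 : rho (MvPolynomial.X 0) = C (C X * X) := by
    unfold rho
    rw [MvPolynomial.aeval_X]
    rfl
  have h1 : rho (MvPolynomial.X 1) = C X := by
    unfold rho
    rw [MvPolynomial.aeval_X]
    rfl
  unfold lin
  rw [map_add, map_mul, map_mul, h, h, h0, h1]
  simp only [map_mul, map_add]
  ring

theorem comp_mul (a b : ℝ) (s m c : ℕ) (q : MvPolynomial (Fin 3) ℝ) :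
    comp (m + s) c (lin a b ^ s * q) = (C a * X + C b) ^ s * comp m c q := by
  rw [comp_apply, map_mul, map_pow, rho_lin, ← C_pow, coeff_C_mul, mul_pow, ← C_pow, mul_assoc,
    coeff_C_mul, coeff_X_pow_mul, comp_apply]

theorem comp_mul_lt (a b : ℝ) {s m : ℕ} (h : m < s) (c : ℕ) (q : MvPolynomial (Fin 3) ℝ) :
    comp m c (lin a b ^ s * q) = 0 := by
  rw [comp_apply, map_mul, map_pow, rho_lin, ← C_pow, coeff_C_mul, mul_pow, ← C_pow, mul_assoc,
    coeff_C_mul, coeff_X_pow_mul', if_neg (by omega), mul_zero]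

/-- exponent vectors -/
noncomputable def e3 (a b c : ℕ) : Fin 3 →₀ ℕ := Finsupp.equivFunOnFinite.symm ![a, b, c]

/-- homogenisation -/
noncomputable def hom (m c : ℕ) (g : ℝ[X]) : MvPolynomial (Fin 3) ℝ :=
  ∑ k ∈ Finset.range (m + 1), MvPolynomial.monomial (e3 k (m - k) c) (g.coeff k)

theorem comp_hom (m c : ℕ) (g : ℝ[X]) (hg : g.natDegree ≤ m) (m' c' : ℕ) :
    comp m' c' (hom m c g) = if m' = m ∧ c' = c then g else 0 := by
  unfold hom
  rw [map_sum]
  by_cases h : m' = m ∧ c' = c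
  · rw [if_pos h]
    conv_rhs => rw [g.as_sum_range_C_mul_X_pow' (Nat.lt_succ_of_le hg)]
    refine Finset.sum_congr rfl fun k hk => ?_
    rw [Finset.mem_range] at hk
    rw [comp_monomial, if_pos]
    · rfl
    · refine ⟨?_, h.2⟩
      change m' = k + (m - k)
      omega
  · rw [if_neg h]
    refine Finset.sum_eq_zero fun k hk => ?_
    rw [Finset.mem_range] at hk
    rw [comp_monomial, if_neg]
    rintro ⟨h1, h2⟩
    refine h ⟨?_, h2⟩
    change m' = k + (m - k) at h1
    omega

theorem hom_mem (m c d : ℕ) (h : m + c ≤ d) (g : ℝ[X]) :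
    hom m c g ∈ MvPolynomial.restrictTotalDegree (Fin 3) ℝ d := by
  unfold hom
  refine Submodule.sum_mem _ fun k hk => ?_
  rw [Finset.mem_range] at hk
  rw [MvPolynomial.mem_restrictTotalDegree]
  refine (MvPolynomial.totalDegree_monomial_le _ _).trans ?_
  rw [Finsupp.sum_fintype _ _ (fun _ => rfl), Fin.sum_univ_three]
  change k + (m - k) + c ≤ d
  omega

/-! Linear algebra. -/

section LinAlg

variable {V W : Type*} [AddCommGroup V] [Module ℝ V] [FiniteDimensional ℝ V] [AddCommGroup W]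
  [Module ℝ W]

theorem rank_restrict (F : V →ₗ[ℝ] W) (VV : Submodule ℝ V) :
    Module.finrank ℝ (VV.map F) + Module.finrank ℝ ((LinearMap.ker F ⊓ VV : Submodule ℝ V)) =
      Module.finrank ℝ VV := by
  have h := LinearMap.finrank_range_add_finrank_ker (F.domRestrict VV)
  rw [LinearMap.range_domRestrict, LinearMap.ker_domRestrict] at h
  rw [← h]
  congr 1
  rw [← Submodule.finrank_map_subtype_eq, Submodule.map_comap_subtype, inf_comm]

theorem rank_le (F G : V →ₗ[ℝ] W) (VV : Submodule ℝ V) (hFG : VV.map F ≤ VV.map G)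
    (hk : LinearMap.ker G ≤ VV) :
    Module.finrank ℝ (LinearMap.range F) ≤ Module.finrank ℝ (LinearMap.range G) := by
  have h1 := rank_restrict F VV
  have h2 := rank_restrict G VV
  rw [inf_eq_left.2 hk] at h2
  have h3 := LinearMap.finrank_range_add_finrank_ker F
  have h4 := LinearMap.finrank_range_add_finrank_ker G
  have h5 := Submodule.finrank_mono hFG
  have h6 : Module.finrank ℝ ((LinearMap.ker F ⊓ VV : Submodule ℝ V)) ≤
      Module.finrank ℝ (LinearMap.ker F) := Submodule.finrank_mono inf_le_left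
  omega

theorem rank_lt (F G : V →ₗ[ℝ] W) (VV : Submodule ℝ V) (hFG : VV.map F ≤ VV.map G)
    (hk : LinearMap.ker G ≤ VV) (v : V) (hv : F v = 0) (hv' : v ∉ VV) :
    Module.finrank ℝ (LinearMap.range F) < Module.finrank ℝ (LinearMap.range G) := by
  have h1 := rank_restrict F VV
  have h2 := rank_restrict G VV
  rw [inf_eq_left.2 hk] at h2
  have h3 := LinearMap.finrank_range_add_finrank_ker F
  have h4 := LinearMap.finrank_range_add_finrank_ker G
  have h5 := Submodule.finrank_mono hFG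
  have h6 : Module.finrank ℝ ((LinearMap.ker F ⊓ VV : Submodule ℝ V)) <
      Module.finrank ℝ (LinearMap.ker F) := by
    refine Submodule.finrank_lt_finrank_of_lt (lt_of_le_of_ne inf_le_left fun h => hv' ?_)
    have h7 : v ∈ LinearMap.ker F ⊓ VV := by
      rw [h]
      exact hv
    exact h7.2
  omega

end LinAlg

/-! The comparison. -/

/-- The vectors all of whose components of low `(X, Y)`-degree vanish. -/
noncomputable def VV (d m₀ n : ℕ) :
    Submodule ℝ (Fin n → MvPolynomial.restrictTotalDegree (Fin 3) ℝ d) where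
  carrier := {q | ∀ i, ∀ m < m₀, ∀ c, comp m c (q i : MvPolynomial (Fin 3) ℝ) = 0}
  zero_mem' := fun i m _ c => by simp
  add_mem' := by
    intro q q' hq hq' i m hm c
    simp [hq i m hm c, hq' i m hm c]
  smul_mem' := by
    intro r q hq i m hm c
    simp [hq i m hm c]

theorem mem_VV {d m₀ n : ℕ} (q : Fin n → MvPolynomial.restrictTotalDegree (Fin 3) ℝ d) :
    q ∈ VV d m₀ n ↔ ∀ i, ∀ m < m₀, ∀ c, comp m c (q i : MvPolynomial (Fin 3) ℝ) = 0 := Iff.rfl

theorem Phi_apply (r d : ℕ) {n : ℕ} (l : Fin n → MvPolynomial (Fin 3) ℝ)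
    (q : Fin n → MvPolynomial.restrictTotalDegree (Fin 3) ℝ d) :
    Phi r d l q = ∑ i, l i ^ (r + 1) * (q i : MvPolynomial (Fin 3) ℝ) := by
  simp [Phi, LinearMap.sum_apply]

/-- `(i) ≤ (ii)`: images of `VV` -/
theorem map_le (r d m₀ n : ℕ) (a b α β : Fin n → ℝ) (hα : ∀ i, α i ≠ 0)
    (hp : Function.Injective fun i => -(β i) / α i)
    (hm₀ : ∀ m, m₀ ≤ m → m + (r + 1) + 1 ≤ n * (m + 1)) :
    (VV d m₀ n).map (Phi r d fun i => lin (a i) (b i)) ≤
      (VV d m₀ n).map (Phi r d fun i => lin (α i) (β i)) := by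
  rintro _ ⟨q, hq, rfl⟩
  rw [SetLike.mem_coe, mem_VV] at hq
  -- support of the image
  have hlow : ∀ m < m₀ + (r + 1), ∀ c, comp m c (Phi r d (fun i => lin (a i) (b i)) q) = 0 := by
    intro m hm c
    rw [Phi_apply, map_sum]
    refine Finset.sum_eq_zero fun i _ => ?_
    rcases Nat.lt_or_ge m (r + 1) with h | h
    · exact comp_mul_lt _ _ h _ _
    · obtain ⟨m', rfl⟩ : ∃ m', m = m' + (r + 1) := ⟨m - (r + 1), by omega⟩
      rw [comp_mul, hq i m' (by omega), mul_zero]
  have htot : (Phi r d (fun i => lin (a i) (b i)) q).totalDegree ≤ d + (r + 1) := by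
    rw [Phi_apply]
    refine MvPolynomial.totalDegree_finsetSum_le fun i _ => ?_
    refine (MvPolynomial.totalDegree_mul _ _).trans ?_
    have h1 : (lin (a i) (b i) ^ (r + 1)).totalDegree ≤ r + 1 := by
      refine (MvPolynomial.totalDegree_pow _ _).trans ?_
      have h2 : (lin (a i) (b i)).totalDegree ≤ 1 := by
        unfold lin
        refine (MvPolynomial.totalDegree_add _ _).trans (max_le ?_ ?_) <;>
        · refine (MvPolynomial.totalDegree_mul _ _).trans ?_
          rw [MvPolynomial.totalDegree_C, MvPolynomial.totalDegree_X]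
      calc (r + 1) * _ ≤ (r + 1) * 1 := Nat.mul_le_mul_left _ h2
        _ = r + 1 := mul_one _
    have h3 := (MvPolynomial.mem_restrictTotalDegree _ _ _).1 (q i).2
    omega
  generalize Phi r d (fun i => lin (a i) (b i)) q = P at hlow htot
  rw [← MvPolynomial.support_sum_monomial_coeff P]
  refine Submodule.sum_mem _ fun e he => ?_
  have hdeg : e 0 + e 1 + e 2 ≤ d + (r + 1) := by
    refine le_trans ?_ ((MvPolynomial.le_totalDegree he).trans htot)
    rw [Finsupp.sum_fintype _ _ (fun _ => rfl), Fin.sum_univ_three]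
  have hge : m₀ + (r + 1) ≤ e 0 + e 1 := by
    by_contra hcon
    push Not at hcon
    have h1 := hlow _ hcon (e 2)
    have h2 := coeff_comp P e
    rw [h1, coeff_zero] at h2
    exact (MvPolynomial.mem_support_iff.1 he) h2.symm
  generalize MvPolynomial.coeff e P = z
  obtain ⟨m, hm⟩ : ∃ m, e 0 + e 1 = m + (r + 1) := ⟨e 0 + e 1 - (r + 1), by omega⟩
  obtain ⟨g, hg, hgs⟩ := surj_one hp (hm₀ m (by omega)) (C z * X ^ e 0)
    ((natDegree_C_mul_X_pow_le _ _).trans (by omega))
  have hgd : ∀ i, (C ((α i ^ (r + 1))⁻¹) * g i).natDegree ≤ m := fun i =>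
    (natDegree_C_mul_le _ _).trans (hg i)
  refine ⟨fun i => ⟨hom m (e 2) (C ((α i ^ (r + 1))⁻¹) * g i), hom_mem _ _ _ (by omega) _⟩, ?_, ?_⟩
  · rw [SetLike.mem_coe, mem_VV]
    intro i m' hm' c
    change comp m' c (hom m (e 2) (C ((α i ^ (r + 1))⁻¹) * g i)) = 0
    rw [comp_hom _ _ _ (hgd i), if_neg]
    rintro ⟨h1, _⟩
    omega
  · rw [Phi_apply]
    refine ext_comp fun M c => ?_
    rw [map_sum, comp_monomial]
    rcases Nat.lt_or_ge M (r + 1) with h | h
    · rw [if_neg (by omega)]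
      exact Finset.sum_eq_zero fun i _ => comp_mul_lt _ _ h _ _
    · obtain ⟨m', rfl⟩ : ∃ m', M = m' + (r + 1) := ⟨M - (r + 1), by omega⟩
      by_cases h1 : m' = m ∧ c = e 2
      · rw [if_pos (by omega), ← hgs]
        refine Finset.sum_congr rfl fun i _ => ?_
        rw [comp_mul]
        change (C (α i) * X + C (β i)) ^ (r + 1) *
          comp m' c (hom m (e 2) (C ((α i ^ (r + 1))⁻¹) * g i)) = _
        rw [comp_hom _ _ _ (hgd i), if_pos h1]
        have h2 : (C (α i) * X + C (β i) : ℝ[X]) = C (α i) * (X - C (-(β i) / α i)) := by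
          rw [mul_sub, ← C_mul, mul_div_cancel₀ _ (hα i), C_neg, sub_neg_eq_add]
        have h3 : (C (α i) : ℝ[X]) ^ (r + 1) * C ((α i ^ (r + 1))⁻¹) = 1 := by
          rw [← C_pow, ← C_mul, mul_inv_cancel₀ (pow_ne_zero _ (hα i)), C_1]
        rw [h2, mul_pow]
        calc C (α i) ^ (r + 1) * (X - C (-(β i) / α i)) ^ (r + 1) *
              (C ((α i ^ (r + 1))⁻¹) * g i)
            = (C (α i) ^ (r + 1) * C ((α i ^ (r + 1))⁻¹)) *
              ((X - C (-(β i) / α i)) ^ (r + 1) * g i) := by ring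
          _ = _ := by rw [h3, one_mul]
      · rw [if_neg (by omega)]
        refine Finset.sum_eq_zero fun i _ => ?_
        rw [comp_mul]
        change (C (α i) * X + C (β i)) ^ (r + 1) *
          comp m' c (hom m (e 2) (C ((α i ^ (r + 1))⁻¹) * g i)) = _
        rw [comp_hom _ _ _ (hgd i), if_neg h1, mul_zero]

/-- `(iii)`: the kernel -/
theorem ker_le (r d m₀ n : ℕ) (α β : Fin n → ℝ) (hα : ∀ i, α i ≠ 0)
    (hp : Function.Injective fun i => -(β i) / α i)
    (hm₀ : ∀ m, m < m₀ → n * (m + 1) ≤ m + (r + 1) + 1) :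
    LinearMap.ker (Phi r d fun i => lin (α i) (β i)) ≤ VV d m₀ n := by
  intro q hq
  rw [LinearMap.mem_ker, Phi_apply] at hq
  rw [mem_VV]
  intro i m hm c
  have h1 := congrArg (comp (m + (r + 1)) c) hq
  rw [map_sum, map_zero] at h1
  have h2 := inj_one hp (hm₀ m hm)
    (fun i => C (α i ^ (r + 1)) * comp m c (q i : MvPolynomial (Fin 3) ℝ))
    (fun i => (natDegree_C_mul_le _ _).trans (comp_natDegree _ _ _)) (by
      rw [← h1]
      refine Finset.sum_congr rfl fun i _ => ?_
      rw [comp_mul]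
      have h2 : (C (α i) * X + C (β i) : ℝ[X]) = C (α i) * (X - C (-(β i) / α i)) := by
        rw [mul_sub, ← C_mul, mul_div_cancel₀ _ (hα i), C_neg, sub_neg_eq_add]
      rw [h2, mul_pow, C_pow]
      ring) i
  exact (mul_eq_zero.1 h2).resolve_left (C_ne_zero.2 (pow_ne_zero _ (hα i)))

/-- the threshold -/
theorem threshold {n : ℕ} (hn : 2 ≤ n) (s : ℕ) : ∃ m₀ : ℕ,
    (∀ m, m₀ ≤ m → m + s + 1 ≤ n * (m + 1)) ∧ (∀ m, m < m₀ → n * (m + 1) ≤ m + s + 1) ∧
    (n ≤ s + 1 → 1 ≤ m₀) := by
  have hex : ∃ m, m + s + 1 < n * (m + 1) := by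
    refine ⟨s, ?_⟩
    have : 2 * (s + 1) ≤ n * (s + 1) := Nat.mul_le_mul_right _ hn
    omega
  classical
  refine ⟨Nat.find hex, fun m hm => ?_, fun m hm => ?_, fun h => ?_⟩
  · have h1 := Nat.find_spec hex
    obtain ⟨k, rfl⟩ : ∃ k, m = Nat.find hex + k := ⟨m - Nat.find hex, by omega⟩
    have h2 : n * (Nat.find hex + k + 1) = n * (Nat.find hex + 1) + n * k := by ring
    have h3 : 2 * k ≤ n * k := Nat.mul_le_mul_right _ hn
    omega
  · have h1 := Nat.find_min hex hm
    omega
  · by_contra hcon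
    have h1 : Nat.find hex = 0 := by omega
    have h2 := Nat.find_spec hex
    rw [h1] at h2
    omega

/-- The rank is largest for distinct lines. -/
theorem finrank_lin_le {n : ℕ} (hn : 2 ≤ n) (r d : ℕ) (a b α β : Fin n → ℝ) (hα : ∀ i, α i ≠ 0)
    (hp : Function.Injective fun i => -(β i) / α i) :
    Module.finrank ℝ (LinearMap.range (Phi r d fun i => lin (a i) (b i))) ≤
      Module.finrank ℝ (LinearMap.range (Phi r d fun i => lin (α i) (β i))) := by
  obtain ⟨m₀, h1, h2, _⟩ := threshold hn (r + 1)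
  exact rank_le _ _ (VV d m₀ n) (map_le r d m₀ n a b α β hα hp h1) (ker_le r d m₀ n α β hα hp h2)

/-- Strictly, if two of the forms are proportional. -/
theorem finrank_lin_lt {n : ℕ} (hn : 2 ≤ n) (r d : ℕ) (hr : n ≤ r + 2) (a b α β : Fin n → ℝ)
    (hα : ∀ i, α i ≠ 0) (hp : Function.Injective fun i => -(β i) / α i) {i j : Fin n}
    (hij : i ≠ j) {c c' : ℝ} (hc : c ≠ 0) (h : c • lin (a i) (b i) = c' • lin (a j) (b j)) :
    Module.finrank ℝ (LinearMap.range (Phi r d fun i => lin (a i) (b i))) <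
      Module.finrank ℝ (LinearMap.range (Phi r d fun i => lin (α i) (β i))) := by
  obtain ⟨m₀, h1, h2, h3⟩ := threshold hn (r + 1)
  have hm0 := h3 (by omega)
  have hC : ∀ z : ℝ, (MvPolynomial.C z : MvPolynomial (Fin 3) ℝ) ∈
      MvPolynomial.restrictTotalDegree (Fin 3) ℝ d := by
    intro z
    rw [MvPolynomial.mem_restrictTotalDegree, MvPolynomial.totalDegree_C]
    exact Nat.zero_le _
  refine rank_lt _ _ (VV d m₀ n) (map_le r d m₀ n a b α β hα hp h1)
    (ker_le r d m₀ n α β hα hp h2)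
    (fun k => if k = i then ⟨MvPolynomial.C (c ^ (r + 1)), hC _⟩ else
      if k = j then ⟨MvPolynomial.C (-(c' ^ (r + 1))), hC _⟩ else 0) ?_ ?_
  · rw [Phi_apply]
    rw [Finset.sum_eq_add i j hij]
    · rw [if_pos rfl, if_neg (Ne.symm hij), if_pos rfl]
      change lin (a i) (b i) ^ (r + 1) * MvPolynomial.C (c ^ (r + 1)) +
        lin (a j) (b j) ^ (r + 1) * MvPolynomial.C (-(c' ^ (r + 1))) = 0
      have h4 : MvPolynomial.C c * lin (a i) (b i) = MvPolynomial.C c' * lin (a j) (b j) := by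
        rw [← MvPolynomial.smul_eq_C_mul, ← MvPolynomial.smul_eq_C_mul, h]
      have h5 := congrArg (fun z => z ^ (r + 1)) h4
      simp only [mul_pow] at h5
      rw [MvPolynomial.C_neg, MvPolynomial.C_pow, MvPolynomial.C_pow]
      linear_combination h5
    · intro k _ hk
      rw [if_neg hk.1, if_neg hk.2]
      simp
    · intro hcon
      exact absurd (Finset.mem_univ _) hcon
    · intro hcon
      exact absurd (Finset.mem_univ _) hcon
  · rw [mem_VV]
    intro hcon
    have h4 := hcon i 0 (by omega) 0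
    rw [if_pos rfl] at h4
    change comp 0 0 (MvPolynomial.monomial 0 (c ^ (r + 1))) = 0 at h4
    rw [comp_monomial, if_pos (by simp)] at h4
    have h5 := (mul_eq_zero.1 h4).resolve_right (pow_ne_zero _ X_ne_zero)
    exact (C_ne_zero.2 (pow_ne_zero _ hc)) h5

end Pool.Agent.Lib.MP_d2a91d_an.H79
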