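import Pool.Agent.Lib.MP_d2a91d_an.Stmts

namespace Pool.Agent.Lib.MP_d2a91d_an

open MvPolynomial

/-- Affine change of coordinates. -/
noncomputable def aff (o : Fin 3 → ℝ) (A : Matrix (Fin 3) (Fin 3) ℝ) :
    MvPolynomial (Fin 3) ℝ →ₐ[ℝ] MvPolynomial (Fin 3) ℝ :=
  aeval (fun i => C (o i) + ∑ j, C (A i j) * X j)

theorem eval_aff (o : Fin 3 → ℝ) (A : Matrix (Fin 3) (Fin 3) ℝ) (x : Fin 3 → ℝ)
    (P : MvPolynomial (Fin 3) ℝ) : eval x (aff o A P) = eval (o + A.mulVec x) P := by
  unfold aff
  induction P using MvPolynomial.induction_on with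
  | C a => simp
  | add p q hp hq => rw [map_add, map_add, hp, hq, map_add]
  | mul_X p i hp =>
    rw [map_mul, map_mul, hp, aeval_X, map_mul, eval_X]
    congr 1
    simp [Matrix.mulVec, dotProduct]

theorem aff_comp (o o' : Fin 3 → ℝ) (A B : Matrix (Fin 3) (Fin 3) ℝ)
    (P : MvPolynomial (Fin 3) ℝ) : aff o A (aff o' B P) = aff (o' + B.mulVec o) (B * A) P := by
  refine MvPolynomial.funext fun x => ?_
  rw [eval_aff, eval_aff, eval_aff, Matrix.mulVec_add, Matrix.mulVec_mulVec, add_assoc]

theorem aff_one (P : MvPolynomial (Fin 3) ℝ) : aff 0 1 P = P := by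
  refine MvPolynomial.funext fun x => ?_
  rw [eval_aff]; simp

/-- The automorphism of an invertible affine change of coordinates. -/
noncomputable def affE (o : Fin 3 → ℝ) (A : Matrix (Fin 3) (Fin 3) ℝ) (hA : IsUnit A.det) :
    MvPolynomial (Fin 3) ℝ ≃ₐ[ℝ] MvPolynomial (Fin 3) ℝ :=
  AlgEquiv.ofAlgHom (aff o A) (aff (-(A⁻¹.mulVec o)) A⁻¹)
    (by
      refine AlgHom.ext fun P => ?_
      rw [AlgHom.comp_apply, aff_comp, Matrix.nonsing_inv_mul A hA, neg_add_cancel, aff_one,
        AlgHom.id_apply])
    (by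
      refine AlgHom.ext fun P => ?_
      rw [AlgHom.comp_apply, aff_comp, Matrix.mul_nonsing_inv A hA, Matrix.mulVec_neg,
        Matrix.mulVec_mulVec, Matrix.mul_nonsing_inv A hA, Matrix.one_mulVec, add_neg_cancel,
        aff_one, AlgHom.id_apply])

theorem affE_apply (o : Fin 3 → ℝ) (A : Matrix (Fin 3) (Fin 3) ℝ) (hA : IsUnit A.det)
    (P : MvPolynomial (Fin 3) ℝ) : affE o A hA P = aff o A P := rfl

theorem affE_symm_apply (o : Fin 3 → ℝ) (A : Matrix (Fin 3) (Fin 3) ℝ) (hA : IsUnit A.det)
    (P : MvPolynomial (Fin 3) ℝ) :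
    (affE o A hA).symm P = aff (-(A⁻¹.mulVec o)) A⁻¹ P := rfl

theorem totalDegree_aff_le (o : Fin 3 → ℝ) (A : Matrix (Fin 3) (Fin 3) ℝ)
    (P : MvPolynomial (Fin 3) ℝ) : (aff o A P).totalDegree ≤ P.totalDegree := by
  have hlin : ∀ i : Fin 3, (C (o i) + ∑ j, C (A i j) * X j : MvPolynomial (Fin 3) ℝ).totalDegree
      ≤ 1 := by
    intro i
    refine (totalDegree_add _ _).trans (max_le (by simp) ?_)
    refine totalDegree_finsetSum_le fun j _ => ?_
    refine (totalDegree_mul _ _).trans ?_
    simp
  unfold aff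
  rw [aeval_def, eval₂_eq']
  refine totalDegree_finsetSum_le fun d hd => ?_
  refine (totalDegree_mul _ _).trans ?_
  have h1 : (algebraMap ℝ (MvPolynomial (Fin 3) ℝ) (coeff d P)).totalDegree = 0 := by
    rw [algebraMap_eq, totalDegree_C]
  rw [h1, zero_add]
  refine (totalDegree_finsetProd _ _).trans ?_
  calc ∑ i : Fin 3, ((C (o i) + ∑ j, C (A i j) * X j : MvPolynomial (Fin 3) ℝ) ^ d i).totalDegree
      ≤ ∑ i : Fin 3, d i := by
        refine Finset.sum_le_sum fun i _ => (totalDegree_pow _ _).trans ?_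
        calc d i * _ ≤ d i * 1 := Nat.mul_le_mul_left _ (hlin i)
          _ = d i := mul_one _
    _ = d.sum fun _ e => e := by
        rw [Finsupp.sum_fintype]; intro; rfl
    _ ≤ P.totalDegree := le_totalDegree hd

/-- A polynomial of degree at most `1` after a change of coordinates. -/
theorem totalDegree_affE_symm_le (o : Fin 3 → ℝ) (A : Matrix (Fin 3) (Fin 3) ℝ)
    (hA : IsUnit A.det) (P : MvPolynomial (Fin 3) ℝ) :
    ((affE o A hA).symm P).totalDegree ≤ P.totalDegree := by
  rw [affE_symm_apply]; exact totalDegree_aff_le _ _ _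

/-- Polynomials of degree at most `1` are determined by their values at `0, e_i`. -/
theorem eq_of_totalDegree_le_one (l : MvPolynomial (Fin 3) ℝ) (hl : l.totalDegree ≤ 1) :
    l = C (eval 0 l) + ∑ i, C (eval (Pi.single i 1) l - eval 0 l) * X i := by
  have key : l = C (coeff 0 l) + ∑ i, C (coeff (Finsupp.single i 1) l) * X i := by
    ext d
    rw [coeff_add, coeff_sum, coeff_C]
    by_cases hd : d = 0
    · subst hd
      simp
    · have hd' : (0 : Fin 3 →₀ ℕ) ≠ d := fun h => hd h.symm
      rw [if_neg hd', zero_add]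
      by_cases hdeg : d.degree = 1
      · obtain ⟨i, rfl⟩ : ∃ i, d = Finsupp.single i 1 := by
          have h3 : d 0 + d 1 + d 2 = 1 := by
            have := hdeg
            rw [Finsupp.degree_eq_sum, Fin.sum_univ_three] at this
            exact this
          rcases Nat.eq_zero_or_pos (d 0) with h | h
          · rcases Nat.eq_zero_or_pos (d 1) with h' | h'
            · refine ⟨2, Finsupp.ext fun j => ?_⟩
              fin_cases j <;> simp <;> omega
            · refine ⟨1, Finsupp.ext fun j => ?_⟩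
              fin_cases j <;> simp <;> omega
          · refine ⟨0, Finsupp.ext fun j => ?_⟩
            fin_cases j <;> simp <;> omega
        rw [Finset.sum_eq_single i]
        · simp [coeff_C_mul, coeff_X]
        · intro j _ hj
          rw [coeff_C_mul, coeff_X, if_neg, mul_zero]
          intro h
          exact hj ((Finsupp.single_left_injective one_ne_zero) h)
        · simp
      · have h0 : coeff d l = 0 := by
          refine coeff_eq_zero_of_totalDegree_lt (lt_of_le_of_lt hl ?_)
          have : d.degree ≠ 0 := fun h => hd ((Finsupp.degree_eq_zero_iff d).mp h)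
          have h2 : 1 < d.degree := by omega
          exact h2
        rw [h0, Finset.sum_eq_zero]
        intro j _
        rw [coeff_C_mul, coeff_X, if_neg, mul_zero]
        rintro rfl
        exact hdeg (by simp)
  have h0 : eval 0 l = coeff 0 l := by
    conv_lhs => rw [key]
    simp
  have hi : ∀ i, eval (Pi.single i 1) l = coeff 0 l + coeff (Finsupp.single i 1) l := by
    intro i
    conv_lhs => rw [key]
    simp [Pi.single_apply]
  conv_lhs => rw [key]
  rw [h0]
  congr 1
  refine Finset.sum_congr rfl fun i _ => ?_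
  rw [hi, add_sub_cancel_left]

end Pool.Agent.Lib.MP_d2a91d_an
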