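import Mathlib

namespace Pool.Agent.Lib.MP_d2a91d_an

open MvPolynomial

/-- The tetrahedron (or face) with vertex set `t`, when vertex `i` sits at `p i`. -/
def tet {N : ℕ} (p : Fin N → Fin 3 → ℝ) (t : Finset (Fin N)) : Set (Fin 3 → ℝ) :=
  convexHull ℝ (p '' (t : Set (Fin N)))

/-- `p` realises the combinatorial type `K` (a set of vertex sets of tetrahedra): every
tetrahedron is non-degenerate, and any two meet exactly in their common face. -/
structure Realises {N : ℕ} (K : Finset (Finset (Fin N))) (p : Fin N → Fin 3 → ℝ) : Prop where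
  card : ∀ t ∈ K, t.card = 4
  nondeg : ∀ t ∈ K, AffineIndependent ℝ (fun i : t => p i)
  meet : ∀ t ∈ K, ∀ t' ∈ K, tet p t ∩ tet p t' = tet p (t ∩ t')

/-- The domain: the union of the tetrahedra. -/
def Omega {N : ℕ} (K : Finset (Finset (Fin N))) (p : Fin N → Fin 3 → ℝ) : Set (Fin 3 → ℝ) :=
  ⋃ t ∈ K, tet p t

/-- The spline space `S_k^r`: functions on the domain (extended by `0`) of class `C^r` on the
domain whose restriction to every tetrahedron is a polynomial of total degree at most `k`. -/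
def Spline {N : ℕ} (r k : ℕ) (K : Finset (Finset (Fin N))) (p : Fin N → Fin 3 → ℝ) :
    Submodule ℝ ((Fin 3 → ℝ) → ℝ) where
  carrier := {s | (∀ x, x ∉ Omega K p → s x = 0) ∧ ContDiffOn ℝ r s (Omega K p) ∧
    ∀ t ∈ K, ∃ P : MvPolynomial (Fin 3) ℝ, P.totalDegree ≤ k ∧ ∀ x ∈ tet p t, s x = eval x P}
  zero_mem' := by
    refine ⟨fun x _ => rfl, contDiffOn_const, fun t _ => ⟨0, by simp, fun x _ => by simp⟩⟩
  add_mem' := by
    rintro a b ⟨ha, ha', ha''⟩ ⟨hb, hb', hb''⟩
    refine ⟨fun x hx => by simp [ha x hx, hb x hx], ha'.add hb', fun t ht => ?_⟩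
    obtain ⟨P, hP, hP'⟩ := ha'' t ht
    obtain ⟨Q, hQ, hQ'⟩ := hb'' t ht
    exact ⟨P + Q, (totalDegree_add P Q).trans (max_le hP hQ), fun x hx => by
      simp [hP' x hx, hQ' x hx]⟩
  smul_mem' := by
    rintro c a ⟨ha, ha', ha''⟩
    refine ⟨fun x hx => by simp [ha x hx], ha'.const_smul c, fun t ht => ?_⟩
    obtain ⟨P, hP, hP'⟩ := ha'' t ht
    exact ⟨c • P, (totalDegree_smul_le c P).trans hP, fun x hx => by simp [hP' x hx]⟩

/-- The generic dimension: the least dimension over all positions realising `K`. -/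
noncomputable def genDim {N : ℕ} (r k : ℕ) (K : Finset (Finset (Fin N))) : ℕ :=
  sInf {d | ∃ p : Fin N → Fin 3 → ℝ, Realises K p ∧ d = Module.finrank ℝ (Spline r k K p)}

/-- The faces with `m` vertices. -/
def faces {N : ℕ} (K : Finset (Finset (Fin N))) (m : ℕ) : Finset (Finset (Fin N)) :=
  (Finset.univ.powersetCard m).filter (fun s => ∃ t ∈ K, s ⊆ t)

/-- The number of tetrahedra that contain the face `s`. -/
def degree {N : ℕ} (K : Finset (Finset (Fin N))) (s : Finset (Fin N)) : ℕ :=
  (K.filter (fun t => s ⊆ t)).card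

/-- The interior faces with `m` vertices: those not contained in a triangle that lies in only
one tetrahedron. -/
def interiorFaces {N : ℕ} (K : Finset (Finset (Fin N))) (m : ℕ) : Finset (Finset (Fin N)) :=
  (faces K m).filter (fun s => ∀ f ∈ faces K 3, s ⊆ f → degree K f ≠ 1)

end Pool.Agent.Lib.MP_d2a91d_an
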