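import Pool.Agent.Lib.MP_d2a91d_an.DefsPeel

namespace Pool.Agent.Lib.MP_d2a91d_an

/-- The set `X` of edges peels to its subset `Y`: there are levels such that every edge `e` of `X`
outside `Y` lies in at least `min (r + 2) (deg e)` triangles of `K` whose other edges in `X` are
not in `Y` and have a smaller level than `e`. -/
def Peels {N : ℕ} (K : Finset (Finset (Fin N))) (r : ℕ) (X Y : Finset (Finset (Fin N))) : Prop :=
  Y ⊆ X ∧ ∃ lv : Finset (Fin N) → ℕ, ∀ e ∈ X, e ∉ Y → min (r + 2) (degree K e) ≤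
    ((faces K 3).filter (fun f => e ⊆ f ∧ ∀ e' ∈ X, e' ⊆ f → e' = e ∨
      (e' ∉ Y ∧ lv e' < lv e))).card

end Pool.Agent.Lib.MP_d2a91d_an
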