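import Pool.Agent.Lib.MP_d2a91d_an.DefsNice

namespace Pool.Agent.Lib.MP_d2a91d_an

/-- The number attached to two interior edges, in `n` and in `n'` tetrahedra, that lie in a
common triangle; `d = k - r - 1`. -/
def mu (n n' r d : ℕ) : ℕ :=
  ((Finset.range (d + 1) ×ˢ Finset.range (d + 1) ×ˢ Finset.range (d + 1)).filter
    (fun x => x.1 + x.2.1 + x.2.2 ≤ d ∧ (n - 2) * (x.1 + x.2.2 + 1) + x.1 ≤ r ∧
      (n' - 2) * (x.2.1 + x.2.2 + 1) + x.2.1 ≤ r)).card

/-- The interior edges that lie with the interior edge `e` in a triangle of `K`. -/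
def partners {N : ℕ} (K : Finset (Finset (Fin N))) (e : Finset (Fin N)) :
    Finset (Finset (Fin N)) :=
  (interiorFaces K 2).filter (fun e' => e ≠ e' ∧ ∃ f ∈ faces K 3, e ⊆ f ∧ e' ⊆ f)

end Pool.Agent.Lib.MP_d2a91d_an
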