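import Pool.Agent.Lib.MP_d2a91d_an.Defs

namespace Pool.Agent.Lib.MP_d2a91d_an

/-- Two interior edges, no common triangle. -/
def KV : Finset (Finset (Fin 9)) :=
  {{0, 1, 2, 3}, {0, 1, 2, 4}, {0, 1, 3, 5}, {0, 1, 4, 7}, {0, 2, 3, 6}, {0, 2, 4, 7},
    {0, 3, 5, 6}, {0, 5, 6, 8}}

/-- Two interior edges in a common triangle. -/
def KW : Finset (Finset (Fin 9)) :=
  {{0, 1, 2, 3}, {0, 1, 2, 4}, {0, 1, 3, 5}, {0, 1, 4, 7}, {0, 2, 3, 6}, {0, 2, 5, 6},
    {0, 3, 5, 6}, {0, 4, 7, 8}}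

/-- The data of a vertex `v`: the number of tetrahedra at `v`, and for every edge at `v` whether
it is interior and in how many tetrahedra it lies. -/
def vertexData {N : ℕ} (K : Finset (Finset (Fin N))) (v : Fin N) :
    ℕ × Multiset (Bool × ℕ) :=
  (degree K {v}, ((faces K 2).filter (fun e => v ∈ e)).val.map
    (fun e => (decide (e ∈ interiorFaces K 2), degree K e)))

end Pool.Agent.Lib.MP_d2a91d_an
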