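import Pool.Agent.Lib.MP_d2a91d_an.DefsMu

namespace Pool.Agent.Lib.MP_d2a91d_an

/-- The edges of `A` that lie with `e` in a triangle of `K`. -/
def partnersIn {N : ℕ} (K A : Finset (Finset (Fin N))) (e : Finset (Fin N)) :
    Finset (Finset (Fin N)) :=
  A.filter (fun e' => e ≠ e' ∧ ∃ f ∈ faces K 3, e ⊆ f ∧ e' ⊆ f)

end Pool.Agent.Lib.MP_d2a91d_an
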