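import Pool.Agent.Lib.MP_d2a91d_an.Stmts

/-!
# Row G2: divisibility across faces gives a spline
-/

set_option autoImplicit false

namespace Pool.Agent.Lib.MP_d2a91d_an.G2_42

open MvPolynomial

/-- the polynomial function -/
noncomputable def pe (P : MvPolynomial (Fin 3) ℝ) : (Fin 3 → ℝ) → ℝ := fun y => eval y P

theorem pe_contDiff (P : MvPolynomial (Fin 3) ℝ) (n : WithTop ℕ∞) : ContDiff ℝ n (pe P) := by
  induction P using MvPolynomial.induction_on with
  | C a =>
    have h : pe (C a) = fun _ => a := by funext y; simp [pe]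
    rw [h]; exact contDiff_const
  | add P Q hP hQ =>
    have h : pe (P + Q) = fun y => pe P y + pe Q y := by funext y; simp [pe]
    rw [h]; exact hP.add hQ
  | mul_X P i hP =>
    have h : pe (P * X i) = fun y => pe P y * y i := by funext y; simp [pe]
    rw [h]; exact hP.mul (contDiff_apply ℝ ℝ i)

/-- vanishing of order `a` at `x` -/
def J (f : (Fin 3 → ℝ) → ℝ) (x : Fin 3 → ℝ) (a : ℕ) : Prop :=
  ∀ m < a, iteratedFDeriv ℝ m f x = 0

theorem J_mul {P Q : MvPolynomial (Fin 3) ℝ} {x : Fin 3 → ℝ} {a b : ℕ} (h1 : J (pe P) x a)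
    (h2 : J (pe Q) x b) : J (pe (P * Q)) x (a + b) := by
  intro n hn
  have hf : pe (P * Q) = fun y => pe P y * pe Q y := by funext y; simp [pe]
  have h := norm_iteratedFDeriv_mul_le (pe_contDiff P n) (pe_contDiff Q n) x (n := n) le_rfl
  rw [hf]
  have h0 : ‖iteratedFDeriv ℝ n (fun y => pe P y * pe Q y) x‖ ≤ 0 := by
    refine h.trans (le_of_eq ?_)
    apply Finset.sum_eq_zero
    intro i hi
    rw [Finset.mem_range] at hi
    by_cases hia : i < a
    · rw [h1 i hia, norm_zero, mul_zero, zero_mul]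
    · rw [h2 (n - i) (by omega), norm_zero, mul_zero]
  exact norm_le_zero_iff.mp h0

theorem J_pow {l : MvPolynomial (Fin 3) ℝ} {x : Fin 3 → ℝ} (hl : eval x l = 0) (k : ℕ) :
    J (pe (l ^ k)) x k := by
  induction k with
  | zero => intro m hm; omega
  | succ k ih =>
    rw [pow_succ]
    apply J_mul ih
    intro m hm
    have hm0 : m = 0 := by omega
    subst hm0
    rw [← norm_le_zero_iff, norm_iteratedFDeriv_zero]
    show ‖eval x l‖ ≤ 0
    rw [hl, norm_zero]

theorem jet_eq {r : ℕ} {l P P' : MvPolynomial (Fin 3) ℝ} {x : Fin 3 → ℝ} (hl : eval x l = 0)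
    (hd : l ^ (r + 1) ∣ P - P') {m : ℕ} (hm : m ≤ r) :
    iteratedFDeriv ℝ m (pe P) x = iteratedFDeriv ℝ m (pe P') x := by
  obtain ⟨Q, hQ⟩ := hd
  have hP : P = P' + l ^ (r + 1) * Q := by rw [← hQ]; ring
  have hf : pe P = pe P' + pe (l ^ (r + 1) * Q) := by
    funext y
    rw [hP]
    simp [pe]
  have hJ : J (pe (l ^ (r + 1) * Q)) x (r + 1 + 0) :=
    J_mul (J_pow hl (r + 1)) (fun m hm => by omega)
  rw [hf, iteratedFDeriv_add_apply (pe_contDiff P' m).contDiffAt
    (pe_contDiff (l ^ (r + 1) * Q) m).contDiffAt, hJ m (by omega), add_zero]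

theorem tet_mono {N : ℕ} (p : Fin N → Fin 3 → ℝ) {s t : Finset (Fin N)} (h : s ⊆ t) :
    tet p s ⊆ tet p t := convexHull_mono (Set.image_mono (by exact_mod_cast h))

theorem tet_closed {N : ℕ} (p : Fin N → Fin 3 → ℝ) (t : Finset (Fin N)) :
    IsClosed (tet p t) := by
  unfold tet
  exact Set.Finite.isClosed_convexHull ℝ ((Finset.finite_toSet t).image p)

section main

variable {N r k : ℕ} {K : Finset (Finset (Fin N))} {p : Fin N → Fin 3 → ℝ}

theorem step {P : K → MvPolynomial (Fin 3) ℝ}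
    (hdiv : ∀ t t' : K, (t.1 ∩ t'.1).card = 3 → ∃ l : MvPolynomial (Fin 3) ℝ,
      (∀ x ∈ tet p (t.1 ∩ t'.1), eval x l = 0) ∧ l ^ (r + 1) ∣ P t - P t')
    {g : Finset (Fin N)} {s s' : K} (hs : Stp g s.1 s'.1) {x : Fin 3 → ℝ} (hx : x ∈ tet p g)
    {m : ℕ} (hm : m ≤ r) :
    iteratedFDeriv ℝ m (pe (P s)) x = iteratedFDeriv ℝ m (pe (P s')) x := by
  obtain ⟨h1 | h1, h2⟩ := hs
  · have : s = s' := Subtype.ext h1
    rw [this]
  · obtain ⟨l, hl, hd⟩ := hdiv s s' h1
    exact jet_eq (hl x (tet_mono p h2 hx)) hd hm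

theorem jets (hR : Realises K p) (hC : StarConn K) {P : K → MvPolynomial (Fin 3) ℝ}
    (hdiv : ∀ t t' : K, (t.1 ∩ t'.1).card = 3 → ∃ l : MvPolynomial (Fin 3) ℝ,
      (∀ x ∈ tet p (t.1 ∩ t'.1), eval x l = 0) ∧ l ^ (r + 1) ∣ P t - P t')
    {t t' : K} {x : Fin 3 → ℝ} (hx : x ∈ tet p t.1) (hx' : x ∈ tet p t'.1)
    {m : ℕ} (hm : m ≤ r) :
    iteratedFDeriv ℝ m (pe (P t)) x = iteratedFDeriv ℝ m (pe (P t')) x := by
  have hg : x ∈ tet p (t.1 ∩ t'.1) := by
    rw [← hR.meet t.1 t.2 t'.1 t'.2]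
    exact ⟨hx, hx'⟩
  obtain ⟨a, ha, b, hb, h1, h2, h3⟩ := hC t.1 t.2 t'.1 t'.2
  have e1 := step (s := t) (s' := ⟨a, ha⟩) hdiv h1 hg hm
  have e2 := step (s := ⟨a, ha⟩) (s' := ⟨b, hb⟩) hdiv h2 hg hm
  have e3 := step (s := ⟨b, hb⟩) (s' := t') hdiv h3 hg hm
  rw [e1, e2, e3]

theorem within_union {ι : Type*} (I : Finset ι) (T : ι → Set (Fin 3 → ℝ)) {F : Type*}
    [NormedAddCommGroup F] [NormedSpace ℝ F] {f : (Fin 3 → ℝ) → F}
    {f' : (Fin 3 → ℝ) →L[ℝ] F} {x : Fin 3 → ℝ}
    (h : ∀ i ∈ I, HasFDerivWithinAt f f' (T i) x) :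
    HasFDerivWithinAt f f' (⋃ i ∈ I, T i) x := by
  classical
  induction I using Finset.induction_on with
  | empty => simp
  | insert i I _ ih =>
    rw [Finset.set_biUnion_insert]
    exact (h i (Finset.mem_insert_self _ _)).union
      (ih fun j hj => h j (Finset.mem_insert_of_mem hj))

theorem cont_union {ι : Type*} (I : Finset ι) (T : ι → Set (Fin 3 → ℝ)) {F : Type*}
    [TopologicalSpace F] {f : (Fin 3 → ℝ) → F} {x : Fin 3 → ℝ}
    (h : ∀ i ∈ I, ContinuousWithinAt f (T i) x) :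
    ContinuousWithinAt f (⋃ i ∈ I, T i) x := by
  classical
  induction I using Finset.induction_on with
  | empty => simp [ContinuousWithinAt]
  | insert i I _ ih =>
    rw [Finset.set_biUnion_insert]
    exact (h i (Finset.mem_insert_self _ _)).union
      (ih fun j hj => h j (Finset.mem_insert_of_mem hj))

end main

/-- (G2) -/
theorem stG2_42 : StG2 := by
  classical
  intro N r k K p hR hC P hdeg hdiv
  -- values
  have hval : ∀ t : K, ∀ x ∈ tet p t.1, glue K p P x = eval x (P t) := by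
    intro t x hx
    have hex : ∃ t : K, x ∈ tet p t.1 := ⟨t, hx⟩
    show (if h : ∃ t : K, x ∈ tet p t.1 then eval x (P h.choose) else 0) = _
    rw [dif_pos hex]
    have h := jets hR hC hdiv hex.choose_spec hx (Nat.zero_le r)
    have h' := congrArg (fun z => z (fun _ => 0)) h
    simpa [pe] using h'
  refine ⟨⟨?_, ?_, ?_⟩, hval⟩
  · intro x hx
    show (if h : ∃ t : K, x ∈ tet p t.1 then eval x (P h.choose) else 0) = _
    rw [dif_neg]
    rintro ⟨t, ht⟩
    apply hx
    unfold Omega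
    rw [Set.mem_iUnion₂]
    exact ⟨t.1, t.2, ht⟩
  · -- the Taylor series
    by_cases hK : Nonempty K
    swap
    · have hO : Omega K p = ∅ := by
        unfold Omega
        rw [Set.eq_empty_iff_forall_notMem]
        intro x hx
        rw [Set.mem_iUnion₂] at hx
        obtain ⟨t, ht, _⟩ := hx
        exact hK ⟨⟨t, ht⟩⟩
      rw [hO]
      exact contDiffOn_empty
    let tx : (Fin 3 → ℝ) → K := fun x =>
      if h : ∃ t : K, x ∈ tet p t.1 then h.choose else hK.some
    have htx : ∀ t : K, ∀ x ∈ tet p t.1, x ∈ tet p (tx x).1 := by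
      intro t x hx
      have hex : ∃ t : K, x ∈ tet p t.1 := ⟨t, hx⟩
      show x ∈ tet p (if h : ∃ t : K, x ∈ tet p t.1 then h.choose else hK.some).1
      rw [dif_pos hex]
      exact hex.choose_spec
    let q : (Fin 3 → ℝ) → FormalMultilinearSeries ℝ (Fin 3 → ℝ) ℝ := fun x m =>
      iteratedFDeriv ℝ m (pe (P (tx x))) x
    have hq : ∀ t : K, ∀ x ∈ tet p t.1, ∀ m ≤ r, q x m = iteratedFDeriv ℝ m (pe (P t)) x := by
      intro t x hx m hm
      exact jets hR hC hdiv (htx t x hx) hx hm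
    have hmem : ∀ x ∈ Omega K p, ∃ t : K, x ∈ tet p t.1 := by
      intro x hx
      unfold Omega at hx
      rw [Set.mem_iUnion₂] at hx
      obtain ⟨t, ht, hx⟩ := hx
      exact ⟨⟨t, ht⟩, hx⟩
    have hser : HasFTaylorSeriesUpToOn (r : WithTop ℕ∞) (glue K p P) q (Omega K p) := by
      refine ⟨?_, ?_, ?_⟩
      · intro x hx
        obtain ⟨t, ht⟩ := hmem x hx
        rw [hval t x ht, hq t x ht 0 (Nat.zero_le r)]
        rfl
      · intro m hm x hx
        have hm' : m < r := by exact_mod_cast hm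
        apply within_union
        intro t ht
        by_cases hxt : x ∈ tet p t
        · have hsr : HasFTaylorSeriesUpTo ((m + 1 : ℕ) : WithTop ℕ∞) (pe (P ⟨t, ht⟩))
              (ftaylorSeries ℝ (pe (P ⟨t, ht⟩))) :=
            contDiff_iff_ftaylorSeries.mp (pe_contDiff _ _)
          have hfd := hsr.fderiv m (by exact_mod_cast Nat.lt_succ_self m) x
          have e : (q x m.succ) = iteratedFDeriv ℝ m.succ (pe (P ⟨t, ht⟩)) x :=
            hq ⟨t, ht⟩ x hxt m.succ hm'
          rw [e]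
          refine HasFDerivWithinAt.congr (f := fun y => iteratedFDeriv ℝ m (pe (P ⟨t, ht⟩)) y)
            hfd.hasFDerivWithinAt ?_ ?_
          · intro y hy
            exact hq ⟨t, ht⟩ y hy m hm'.le
          · exact hq ⟨t, ht⟩ x hxt m hm'.le
        · apply HasFDerivWithinAt.of_notMem_closure
          rw [(tet_closed p t).closure_eq]
          exact hxt
      · intro m hm x hx
        have hm' : m ≤ r := by exact_mod_cast hm
        apply cont_union
        intro t ht
        by_cases hxt : x ∈ tet p t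
        · have hc : Continuous (fun y => iteratedFDeriv ℝ m (pe (P ⟨t, ht⟩)) y) :=
            (pe_contDiff (P ⟨t, ht⟩) m).continuous_iteratedFDeriv le_rfl
          refine ContinuousWithinAt.congr (f := fun y => iteratedFDeriv ℝ m (pe (P ⟨t, ht⟩)) y)
            hc.continuousWithinAt ?_ ?_
          · intro y hy
            exact hq ⟨t, ht⟩ y hy m hm'
          · exact hq ⟨t, ht⟩ x hxt m hm'
        · rw [← (tet_closed p t).closure_eq] at hxt
          unfold ContinuousWithinAt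
          rw [notMem_closure_iff_nhdsWithin_eq_bot.mp hxt]
          exact Filter.tendsto_bot
    exact hser.contDiffOn
  · intro t ht
    exact ⟨P ⟨t, ht⟩, hdeg _, fun x hx => hval ⟨t, ht⟩ x hx⟩

end Pool.Agent.Lib.MP_d2a91d_an.G2_42
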