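import Pool.Agent.Lib.MP_d2a91d_an.Coord
import Pool.Agent.Lib.MP_d2a91d_an.Comp79

/-!
Rows R3, R4, R4s of MP_d2a91d (helper79).
-/

set_option autoImplicit false

namespace Pool.Agent.Lib.MP_d2a91d_an.H79

open MvPolynomial

/-- Invariance of the rank under a change of coordinates. -/
theorem finrank_affE (r d : ℕ) {n : ℕ} (l : Fin n → MvPolynomial (Fin 3) ℝ) (o : Fin 3 → ℝ)
    (A : Matrix (Fin 3) (Fin 3) ℝ) (hA : IsUnit A.det) :
    Module.finrank ℝ (LinearMap.range (Phi r d l)) =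
      Module.finrank ℝ (LinearMap.range (Phi r d fun i => affE o A hA (l i))) := by
  have key : LinearMap.range (Phi r d fun i => affE o A hA (l i)) =
      (LinearMap.range (Phi r d l)).map
        ((affE o A hA).toLinearEquiv : MvPolynomial (Fin 3) ℝ →ₗ[ℝ] MvPolynomial (Fin 3) ℝ) := by
    apply le_antisymm
    · rintro _ ⟨q, rfl⟩
      refine ⟨Phi r d l (fun i => ⟨(affE o A hA).symm (q i), ?_⟩), ⟨_, rfl⟩, ?_⟩
      · rw [mem_restrictTotalDegree]
        exact (totalDegree_affE_symm_le _ _ _ _).trans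
          ((mem_restrictTotalDegree _ _ _).1 (q i).2)
      · change affE o A hA _ = _
        rw [Phi_apply, Phi_apply, map_sum]
        refine Finset.sum_congr rfl fun i _ => ?_
        rw [map_mul, map_pow, AlgEquiv.apply_symm_apply]
    · rintro _ ⟨_, ⟨q, rfl⟩, rfl⟩
      refine ⟨fun i => ⟨affE o A hA (q i), ?_⟩, ?_⟩
      · rw [mem_restrictTotalDegree]
        exact (totalDegree_aff_le _ _ _).trans ((mem_restrictTotalDegree _ _ _).1 (q i).2)
      · change _ = affE o A hA _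
        rw [Phi_apply, Phi_apply, map_sum]
        refine Finset.sum_congr rfl fun i _ => ?_
        rw [map_mul, map_pow]
  rw [key]
  exact ((affE o A hA).toLinearEquiv.finrank_map_eq _).symm

/-- A matrix with a given third column. -/
theorem exists_matrix {v : Fin 3 → ℝ} (hv : v ≠ 0) :
    ∃ A : Matrix (Fin 3) (Fin 3) ℝ, IsUnit A.det ∧ A.mulVec (Pi.single 2 1) = v := by
  obtain ⟨e, he⟩ := SeparatingDual.exists_continuousLinearEquiv_apply_eq (R := ℝ)
    (x := (Pi.single 2 1 : Fin 3 → ℝ)) (y := v) (by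
      intro h
      have h1 := congrFun h 2
      simp at h1) hv
  refine ⟨LinearMap.toMatrix' (e : (Fin 3 → ℝ) →ₗ[ℝ] (Fin 3 → ℝ)), ?_, ?_⟩
  · have h1 := e.toLinearEquiv.isUnit_det (Pi.basisFun ℝ (Fin 3)) (Pi.basisFun ℝ (Fin 3))
    exact h1
  · rw [LinearMap.toMatrix'_mulVec]
    exact he

/-- Normal form of planes through a line. -/
theorem exists_lin {n : ℕ} (l : Fin n → MvPolynomial (Fin 3) ℝ) {a b : Fin 3 → ℝ} (hab : a ≠ b)
    (hl : ∀ i, (l i).totalDegree ≤ 1) (hv : ∀ i, eval a (l i) = 0 ∧ eval b (l i) = 0) :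
    ∃ (A : Matrix (Fin 3) (Fin 3) ℝ) (hA : IsUnit A.det) (u w : Fin n → ℝ),
      ∀ i, affE a A hA (l i) = lin (u i) (w i) := by
  obtain ⟨A, hA, hA2⟩ := exists_matrix (sub_ne_zero.2 hab.symm)
  refine ⟨A, hA, fun i => eval (Pi.single 0 1) (affE a A hA (l i)),
    fun i => eval (Pi.single 1 1) (affE a A hA (l i)), fun i => ?_⟩
  have h0 : eval 0 (affE a A hA (l i)) = 0 := by
    rw [affE_apply, eval_aff, Matrix.mulVec_zero, add_zero]
    exact (hv i).1
  have h2 : eval (Pi.single 2 1) (affE a A hA (l i)) = 0 := by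
    rw [affE_apply, eval_aff, hA2, add_sub_cancel]
    exact (hv i).2
  have h3 := eq_of_totalDegree_le_one (affE a A hA (l i))
    ((totalDegree_aff_le _ _ _).trans (hl i))
  rw [h0, Fin.sum_univ_three, h2, sub_zero, sub_zero, sub_zero, C_0, zero_mul, add_zero,
    zero_add] at h3
  exact h3

/-- The special position of R4 in normal form. -/
theorem special4 (r d : ℕ) :
    Module.finrank ℝ (LinearMap.range (Phi r d ![X 1, X 0, X 0 + X 1, X 0 - X 1])) =
      Module.finrank ℝ (LinearMap.range (Phi r d fun i : Fin 4 =>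
        lin ((![2, 1, 3, -1] : Fin 4 → ℝ) i) ((![1, 0, 1, -1] : Fin 4 → ℝ) i))) := by
  have hA : IsUnit (!![1, 0, 0; 2, 1, 0; 0, 0, 1] : Matrix (Fin 3) (Fin 3) ℝ).det := by
    rw [Matrix.det_fin_three]
    simp
  rw [finrank_affE r d _ 0 _ hA]
  have key : (fun i : Fin 4 => affE 0 _ hA
      ((![X 1, X 0, X 0 + X 1, X 0 - X 1] : Fin 4 → MvPolynomial (Fin 3) ℝ) i)) =
      fun i : Fin 4 => lin ((![2, 1, 3, -1] : Fin 4 → ℝ) i) ((![1, 0, 1, -1] : Fin 4 → ℝ) i) := by
    funext i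
    refine MvPolynomial.funext fun x => ?_
    rw [affE_apply, eval_aff]
    fin_cases i <;> simp [lin, dotProduct, Fin.sum_univ_three] <;> ring
  rw [key]

/-- The special position of R3 in normal form. -/
theorem special3 (r d : ℕ) :
    Module.finrank ℝ (LinearMap.range (Phi r d
      ![X 2, X 0 + X 1 + X 2 - 1, X 0 + X 1 - 1 + 2 * X 2])) =
      Module.finrank ℝ (LinearMap.range (Phi r d fun i : Fin 3 =>
        lin ((![1, 1, 2] : Fin 3 → ℝ) i) ((![0, 1, 1] : Fin 3 → ℝ) i))) := by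
  have hA : IsUnit (!![0, 0, 1; 0, 1, -1; 1, 0, 0] : Matrix (Fin 3) (Fin 3) ℝ).det := by
    rw [Matrix.det_fin_three]
    simp
  rw [finrank_affE r d _ ![0, 1, 0] _ hA]
  have key : (fun i : Fin 3 => affE ![0, 1, 0] _ hA
      ((![X 2, X 0 + X 1 + X 2 - 1, X 0 + X 1 - 1 + 2 * X 2] :
        Fin 3 → MvPolynomial (Fin 3) ℝ) i)) =
      fun i : Fin 3 => lin ((![1, 1, 2] : Fin 3 → ℝ) i) ((![0, 1, 1] : Fin 3 → ℝ) i) := by
    funext i
    refine MvPolynomial.funext fun x => ?_
    rw [affE_apply, eval_aff]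
    fin_cases i <;> simp [lin, dotProduct, Fin.sum_univ_three] <;> ring
  rw [key]

theorem four_ne : ∀ i : Fin 4, (![2, 1, 3, -1] : Fin 4 → ℝ) i ≠ 0 := by
  intro i
  fin_cases i <;> norm_num

theorem four_inj : Function.Injective fun i : Fin 4 =>
    -((![1, 0, 1, -1] : Fin 4 → ℝ) i) / (![2, 1, 3, -1] : Fin 4 → ℝ) i := by
  intro i j h
  fin_cases i <;> fin_cases j <;> first | rfl | (exfalso; norm_num at h)

theorem three_ne : ∀ i : Fin 3, (![1, 1, 2] : Fin 3 → ℝ) i ≠ 0 := by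
  intro i
  fin_cases i <;> norm_num

theorem three_inj : Function.Injective fun i : Fin 3 =>
    -((![0, 1, 1] : Fin 3 → ℝ) i) / (![1, 1, 2] : Fin 3 → ℝ) i := by
  intro i j h
  fin_cases i <;> fin_cases j <;> first | rfl | (exfalso; norm_num at h)

/-- Row R4. -/
theorem R4 : StR4 := by
  intro r d _ l a b hab hl hv
  obtain ⟨A, hA, u, w, huw⟩ := exists_lin l hab hl hv
  rw [finrank_affE r d l a A hA, special4, funext huw]
  exact finrank_lin_le (by norm_num) r d u w _ _ four_ne four_inj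

/-- Row R4s. -/
theorem R4s : StR4s := by
  intro r d hr l a b hab hl hv ⟨i, j, hij, c, c', hc, h⟩
  obtain ⟨A, hA, u, w, huw⟩ := exists_lin l hab hl hv
  rw [finrank_affE r d l a A hA, special4, funext huw]
  refine finrank_lin_lt (by norm_num) r d (by omega) u w _ _ four_ne four_inj hij hc (c' := c') ?_
  rw [← huw i, ← huw j, ← map_smul, ← map_smul, h]

/-- Row R3. -/
theorem R3 : StR3 := by
  intro r d l a b hab hl hv
  obtain ⟨A, hA, u, w, huw⟩ := exists_lin l hab hl hv
  rw [finrank_affE r d l a A hA, special3, funext huw]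
  exact finrank_lin_le (by norm_num) r d u w _ _ three_ne three_inj

end Pool.Agent.Lib.MP_d2a91d_an.H79
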