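import Pool.Agent.Lib.MP_d2a91d_an.ClaimX
import Pool.Agent.Lib.MP_d2a91d_an.G2_42
import Pool.Agent.Lib.MP_d2a91d_an.R4_79

namespace Pool.Agent.Lib.MP_d2a91d_an

open MvPolynomial Set

/-- The planes at the edge of degree three. -/
noncomputable def lC (p : Fin 7 → Fin 3 → ℝ) : Fin 3 → MvPolynomial (Fin 3) ℝ :=
  ![L p 1 2, L p 1 4, L p 1 3]

/-- The planes at the edge of degree four. -/
noncomputable def lD (p : Fin 7 → Fin 3 → ℝ) : Fin 4 → MvPolynomial (Fin 3) ℝ :=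
  ![L p 1 2, L p 2 3, L p 2 5, L p 2 4]

/-- The two conditions, sharing their first unknown. -/
noncomputable def Psi (r d : ℕ) (p : Fin 7 → Fin 3 → ℝ) :
    (Fin 6 → restrictTotalDegree (Fin 3) ℝ d) →ₗ[ℝ]
      (MvPolynomial (Fin 3) ℝ × MvPolynomial (Fin 3) ℝ) :=
  LinearMap.prod (Phi r d (lC p) ∘ₗ LinearMap.funLeft ℝ _ ![0, 1, 2])
    (Phi r d (lD p) ∘ₗ LinearMap.funLeft ℝ _ ![0, 3, 4, 5])

theorem Psi_fst (r d : ℕ) (p : Fin 7 → Fin 3 → ℝ)
    (q : Fin 6 → restrictTotalDegree (Fin 3) ℝ d) :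
    (Psi r d p q).1 = L p 1 2 ^ (r + 1) * (q 0).1 + L p 1 4 ^ (r + 1) * (q 1).1 +
      L p 1 3 ^ (r + 1) * (q 2).1 := by
  change Phi r d (lC p) (LinearMap.funLeft ℝ _ ![0, 1, 2] q) = _
  rw [Phi_apply, Fin.sum_univ_three]
  rfl

theorem Psi_snd (r d : ℕ) (p : Fin 7 → Fin 3 → ℝ)
    (q : Fin 6 → restrictTotalDegree (Fin 3) ℝ d) :
    (Psi r d p q).2 = L p 1 2 ^ (r + 1) * (q 0).1 + L p 2 3 ^ (r + 1) * (q 3).1 +
      L p 2 5 ^ (r + 1) * (q 4).1 + L p 2 4 ^ (r + 1) * (q 5).1 := by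
  change Phi r d (lD p) (LinearMap.funLeft ℝ _ ![0, 3, 4, 5] q) = _
  rw [Phi_apply, Fin.sum_univ_four]
  rfl

/-- The product of the two ranges. -/
noncomputable def PR (r d : ℕ) (p : Fin 7 → Fin 3 → ℝ) :
    Submodule ℝ (MvPolynomial (Fin 3) ℝ × MvPolynomial (Fin 3) ℝ) :=
  LinearMap.range ((LinearMap.range (Phi r d (lC p))).subtype.prodMap
    (LinearMap.range (Phi r d (lD p))).subtype)

theorem mem_PR (r d : ℕ) (p : Fin 7 → Fin 3 → ℝ)
    (x : MvPolynomial (Fin 3) ℝ × MvPolynomial (Fin 3) ℝ) :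
    x ∈ PR r d p ↔ x.1 ∈ LinearMap.range (Phi r d (lC p)) ∧
      x.2 ∈ LinearMap.range (Phi r d (lD p)) := by
  unfold PR
  rw [LinearMap.range_prodMap, Submodule.mem_prod, Submodule.range_subtype,
    Submodule.range_subtype]

theorem finrank_PR_le (r d : ℕ) (p : Fin 7 → Fin 3 → ℝ) :
    Module.finrank ℝ (PR r d p) ≤
      Module.finrank ℝ (LinearMap.range (Phi r d (lC p))) +
      Module.finrank ℝ (LinearMap.range (Phi r d (lD p))) := by
  unfold PR
  refine (LinearMap.finrank_range_le _).trans ?_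
  rw [Module.finrank_prod]

theorem range_Psi_le (r d : ℕ) (p : Fin 7 → Fin 3 → ℝ) :
    LinearMap.range (Psi r d p) ≤ PR r d p := by
  rintro _ ⟨q, rfl⟩
  rw [mem_PR]
  exact ⟨⟨LinearMap.funLeft ℝ _ ![0, 1, 2] q, rfl⟩, ⟨LinearMap.funLeft ℝ _ ![0, 3, 4, 5] q, rfl⟩⟩

theorem fin_PR (r d : ℕ) (p : Fin 7 → Fin 3 → ℝ) : Module.Finite ℝ (PR r d p) := by
  unfold PR
  infer_instance

theorem L_deg (p : Fin 7 → Fin 3 → ℝ) (j k : Fin 7) : (L p j k).totalDegree ≤ 1 :=
  totalDegree_pl _ _ _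

theorem p_ne {p : Fin 7 → Fin 3 → ℝ} (h : Realises KA p) {t : Finset (Fin 7)} (ht : t ∈ KA)
    {i j : Fin 7} (hi : i ∈ t) (hj : j ∈ t) (hij : i ≠ j) : p i ≠ p j := by
  intro he
  have := (h.nondeg t ht).injective (a₁ := ⟨i, hi⟩) (a₂ := ⟨j, hj⟩) he
  exact hij (congrArg Subtype.val this)

/-- The rank of the coupled conditions. -/
theorem rank_Psi {p : Fin 7 → Fin 3 → ℝ} (h : Realises KA p) (m d : ℕ) :
    Module.finrank ℝ (LinearMap.range (Psi (m + 2) d p)) + 1 ≤
      Module.finrank ℝ (LinearMap.range (Phi (m + 2) d lA)) +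
      Module.finrank ℝ (LinearMap.range (Phi (m + 2) d lB)) := by
  have := fin_PR (m + 2) d p
  have h1 := finrank_PR_le (m + 2) d p
  have hC : Module.finrank ℝ (LinearMap.range (Phi (m + 2) d (lC p))) ≤
      Module.finrank ℝ (LinearMap.range (Phi (m + 2) d lA)) := by
    refine H79.R3 (m + 2) d (lC p) (p 0) (p 1)
      (p_ne h (t := {0, 1, 2, 3}) (by decide +kernel) (by decide) (by decide) (by decide)) ?_ ?_
    · intro i
      fin_cases i <;> exact L_deg _ _ _
    · intro i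
      fin_cases i <;> exact ⟨pl_fst _ _ _, pl_snd _ _ _⟩
  have hvD : ∀ i, eval (p 0) (lD p i) = 0 ∧ eval (p 2) (lD p i) = 0 := by
    intro i
    fin_cases i
    · exact ⟨pl_fst _ _ _, pl_trd _ _ _⟩
    · exact ⟨pl_fst _ _ _, pl_snd _ _ _⟩
    · exact ⟨pl_fst _ _ _, pl_snd _ _ _⟩
    · exact ⟨pl_fst _ _ _, pl_snd _ _ _⟩
  have hdD : ∀ i, (lD p i).totalDegree ≤ 1 := by
    intro i
    fin_cases i <;> exact L_deg _ _ _
  have h02 : p 0 ≠ p 2 :=
    p_ne h (t := {0, 1, 2, 3}) (by decide +kernel) (by decide) (by decide) (by decide)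
  by_cases hα : dt (bv p 1) (bv p 2) (bv p 5) = 0
  · -- two planes coincide
    have hD : Module.finrank ℝ (LinearMap.range (Phi (m + 2) d (lD p))) <
        Module.finrank ℝ (LinearMap.range (Phi (m + 2) d lB)) := by
      refine H79.R4s (m + 2) d (by omega) (lD p) (p 0) (p 2) h02 hdD hvD ?_
      refine ⟨0, 2, by decide, dt (bv p 3) (bv p 2) (bv p 5), dt (bv p 1) (bv p 2) (bv p 3), ?_, ?_⟩
      · exact dt_ne h (t := {0, 2, 3, 5}) (by decide +kernel) (by decide) (by decide) (by decide)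
          (by decide) (by decide) (by decide) (by decide) (by decide) (by decide) (by decide)
      · refine MvPolynomial.funext fun x => ?_
        rw [smul_eval, smul_eval]
        show _ * eval x (L p 1 2) = _ * eval x (L p 2 5)
        unfold L
        rw [eval_pl_sub, eval_pl_sub]
        change _ * dt (x - p 0) (bv p 1) (bv p 2) = _ * dt (x - p 0) (bv p 2) (bv p 5)
        generalize bv p 1 = b1 at *
        generalize bv p 2 = b2 at *
        generalize bv p 3 = b3 at *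
        generalize bv p 5 = b5 at *
        generalize x - p 0 = v at *
        have hP : dt b3 b2 b5 * dt v b1 b2 - dt b1 b2 b3 * dt v b2 b5 =
            - (dt v b2 b3 * dt b1 b2 b5) := by
          simp only [dt_eq]; ring
        rw [hα] at hP
        linear_combination hP
    have h2 := Submodule.finrank_mono (range_Psi_le (m + 2) d p)
    omega
  · have hD : Module.finrank ℝ (LinearMap.range (Phi (m + 2) d (lD p))) ≤
        Module.finrank ℝ (LinearMap.range (Phi (m + 2) d lB)) :=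
      H79.R4 (m + 2) d (by omega) (lD p) (p 0) (p 2) h02 hdD hvD
    have hlt : LinearMap.range (Psi (m + 2) d p) < PR (m + 2) d p := by
      refine lt_of_le_of_ne (range_Psi_le _ _ _) fun he => ?_
      have hone : (1 : MvPolynomial (Fin 3) ℝ) ∈ restrictTotalDegree (Fin 3) ℝ d := by
        rw [mem_restrictTotalDegree]; simp
      have hmem : ((L p 1 2) ^ (m + 2 + 1), (0 : MvPolynomial (Fin 3) ℝ)) ∈ PR (m + 2) d p := by
        rw [mem_PR]
        refine ⟨⟨![⟨1, hone⟩, 0, 0], ?_⟩, Submodule.zero_mem _⟩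
        rw [Phi_apply, Fin.sum_univ_three]
        simp [lC]
      rw [← he] at hmem
      obtain ⟨q, hq⟩ := hmem
      have q1 := Psi_fst (m + 2) d p q
      have q2 := Psi_snd (m + 2) d p q
      rw [hq] at q1 q2
      exact claimX h m (fun i => (q i).1) hα q1.symm q2.symm
    have h2 := Submodule.finrank_lt_finrank_of_lt hlt
    omega

end Pool.Agent.Lib.MP_d2a91d_an
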