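import Pool.Agent.Lib.MP_d2a91d_an.Plane

namespace Pool.Agent.Lib.MP_d2a91d_an

open MvPolynomial Set

theorem Phi_apply (r d : ℕ) {n : ℕ} (l : Fin n → MvPolynomial (Fin 3) ℝ)
    (q : Fin n → restrictTotalDegree (Fin 3) ℝ d) :
    Phi r d l q = ∑ i, l i ^ (r + 1) * (q i).1 := by
  unfold Phi
  simp [LinearMap.sum_apply]

/-- The tetrahedra of `KN`, listed. -/
def TN : Fin 6 → Finset (Fin 7) :=
  ![{0, 1, 2, 3}, {0, 1, 2, 4}, {0, 1, 3, 4}, {1, 2, 3, 5}, {2, 3, 5, 6}, {0, 2, 3, 6}]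

/-- The tetrahedra of `KA`, listed. -/
def TA : Fin 6 → Finset (Fin 7) :=
  ![{0, 1, 2, 3}, {0, 1, 2, 4}, {0, 1, 3, 4}, {0, 2, 3, 5}, {0, 2, 4, 5}, {0, 3, 4, 6}]

/-- The place of a tetrahedron in the list. -/
def idx (T : Fin 6 → Finset (Fin 7)) (t : Finset (Fin 7)) : Fin 6 :=
  if t = T 0 then 0 else if t = T 1 then 1 else if t = T 2 then 2 else
    if t = T 3 then 3 else if t = T 4 then 4 else 5

theorem idx_TN : ∀ j, idx TN (TN j) = j := by decide +kernel
theorem TN_idx : ∀ t ∈ KN, TN (idx TN t) = t := by decide +kernel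
theorem TN_mem : ∀ j, TN j ∈ KN := by decide +kernel
theorem idx_TA : ∀ j, idx TA (TA j) = j := by decide +kernel
theorem TA_idx : ∀ t ∈ KA, TA (idx TA t) = t := by decide +kernel
theorem TA_mem : ∀ j, TA j ∈ KA := by decide +kernel

/-- The gluing map on lists of six polynomials. -/
noncomputable def gl (K : Finset (Finset (Fin 7))) (T : Fin 6 → Finset (Fin 7))
    (p : Fin 7 → Fin 3 → ℝ) :
    (Fin 6 → MvPolynomial (Fin 3) ℝ) →ₗ[ℝ] ((Fin 3 → ℝ) → ℝ) :=
  glue K p ∘ₗ LinearMap.funLeft ℝ (MvPolynomial (Fin 3) ℝ) (fun t : K => idx T t.1)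

theorem gl_apply (K : Finset (Finset (Fin 7))) (T : Fin 6 → Finset (Fin 7))
    (p : Fin 7 → Fin 3 → ℝ) (Q : Fin 6 → MvPolynomial (Fin 3) ℝ) :
    gl K T p Q = glue K p (fun t : K => Q (idx T t.1)) := rfl

/-- The planes at the edge of degree three of `posN`. -/
noncomputable def lA : Fin 3 → MvPolynomial (Fin 3) ℝ :=
  ![X 2, X 0 + X 1 + X 2 - 1, X 0 + X 1 - 1 + 2 * X 2]

/-- The planes at the edge of degree four of `posN`. -/
noncomputable def lB : Fin 4 → MvPolynomial (Fin 3) ℝ :=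
  ![X 1, X 0, X 0 + X 1, X 0 - X 1]

/-- Splines on `KN` from their data. -/
noncomputable def fN (r k d : ℕ) :
    (restrictTotalDegree (Fin 3) ℝ k × LinearMap.ker (Phi r d lA) × LinearMap.ker (Phi r d lB))
      →ₗ[ℝ] (Fin 6 → MvPolynomial (Fin 3) ℝ) where
  toFun v := ![v.1.1,
    v.1.1 + lA 0 ^ (r + 1) * (v.2.1.1 0).1,
    v.1.1 + lA 0 ^ (r + 1) * (v.2.1.1 0).1 + lA 2 ^ (r + 1) * (v.2.1.1 2).1,
    v.1.1 + lB 1 ^ (r + 1) * (v.2.2.1 1).1,
    v.1.1 + lB 1 ^ (r + 1) * (v.2.2.1 1).1 + lB 2 ^ (r + 1) * (v.2.2.1 2).1,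
    v.1.1 + lB 1 ^ (r + 1) * (v.2.2.1 1).1 + lB 2 ^ (r + 1) * (v.2.2.1 2).1 +
      lB 3 ^ (r + 1) * (v.2.2.1 3).1]
  map_add' v w := by
    funext j
    fin_cases j <;> simp <;> ring
  map_smul' c v := by
    funext j
    fin_cases j <;> simp [smul_add]

theorem finrank_pi_eq (n d : ℕ) :
    Module.finrank ℝ (Fin n → restrictTotalDegree (Fin 3) ℝ d) =
      n * Module.finrank ℝ (restrictTotalDegree (Fin 3) ℝ d) := by
  rw [Module.finrank_pi_fintype]; simp

theorem lA_one : ∀ i, (lA i).totalDegree = 1 := by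
  have h0 : ∀ i, ∃ x, eval x (lA i) = 0 := by
    intro i
    refine ⟨![1, 0, 0], ?_⟩
    fin_cases i <;> simp [lA]
  have h1 : ∀ i, lA i ≠ 0 := by
    intro i h
    have h2 : eval (fun _ => 1) (lA i) = 0 := by rw [h, map_zero]
    fin_cases i <;> norm_num [lA] at h2
  have h2 : ∀ i, (lA i).totalDegree ≤ 1 := by
    intro i
    have hX : ∀ j : Fin 3, (X j : MvPolynomial (Fin 3) ℝ).totalDegree ≤ 1 := fun j => by simp
    have h1' : (1 : MvPolynomial (Fin 3) ℝ).totalDegree ≤ 1 := by simp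
    have h2' : (2 * X 2 : MvPolynomial (Fin 3) ℝ).totalDegree ≤ 1 := by
      have : (2 * X 2 : MvPolynomial (Fin 3) ℝ) = X 2 + X 2 := by ring
      rw [this]
      exact (totalDegree_add _ _).trans (max_le (hX _) (hX _))
    fin_cases i
    · exact hX 2
    · exact (totalDegree_sub _ _).trans (max_le ((totalDegree_add _ _).trans (max_le
        ((totalDegree_add _ _).trans (max_le (hX _) (hX _))) (hX _))) h1')
    · exact (totalDegree_add _ _).trans (max_le ((totalDegree_sub _ _).trans (max_le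
        ((totalDegree_add _ _).trans (max_le (hX _) (hX _))) h1')) h2')
  intro i
  obtain ⟨x, hx⟩ := h0 i
  exact totalDegree_eq_one (h2 i) hx (h1 i)

theorem lB_one : ∀ i, (lB i).totalDegree = 1 := by
  have h0 : ∀ i, eval 0 (lB i) = 0 := by
    intro i
    fin_cases i <;> simp [lB]
  have h1 : ∀ i, lB i ≠ 0 := by
    intro i h
    have h2 : eval ![1, 2, 0] (lB i) = 0 := by rw [h, map_zero]
    fin_cases i <;> norm_num [lB] at h2
  have h2 : ∀ i, (lB i).totalDegree ≤ 1 := by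
    intro i
    have hX : ∀ j : Fin 3, (X j : MvPolynomial (Fin 3) ℝ).totalDegree ≤ 1 := fun j => by simp
    fin_cases i
    · exact hX 1
    · exact hX 0
    · exact (totalDegree_add _ _).trans (max_le (hX _) (hX _))
    · exact (totalDegree_sub _ _).trans (max_le (hX _) (hX _))
  intro i
  exact totalDegree_eq_one (h2 i) (h0 i) (h1 i)

theorem spline_le (hN : Realises KN posN) (r k d : ℕ) (hk : k = d + (r + 1)) :
    Spline r k KN posN ≤ LinearMap.range (gl KN TN posN ∘ₗ fN r k d) := by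
  intro s hs
  obtain ⟨P, hPdeg, hPs, hPe, hPdvd⟩ := stG3 7 r k KN posN hN s hs
  set Q : Fin 6 → MvPolynomial (Fin 3) ℝ := fun j => P ⟨TN j, TN_mem j⟩ with hQ
  have hQdeg : ∀ j, (Q j).totalDegree ≤ k := fun j => hPdeg _
  have hQs : gl KN TN posN Q = s := by
    rw [gl_apply, ← hPs]
    congr 1
    funext t
    rw [hQ]
    have : (⟨TN (idx TN t.1), TN_mem _⟩ : KN) = t := Subtype.ext (TN_idx t.1 t.2)
    show P _ = P t
    rw [this]
  have hstep : ∀ (i j : Fin 6) (l : MvPolynomial (Fin 3) ℝ), (TN i ∩ TN j).card = 3 →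
      l.totalDegree = 1 → (∀ v ∈ TN i ∩ TN j, eval (posN v) l = 0) →
      ∃ q : restrictTotalDegree (Fin 3) ℝ d, Q j = Q i + l ^ (r + 1) * q.1 := by
    intro i j l hc hl hv
    have hc' : (TN j ∩ TN i).card = 3 := by rw [Finset.inter_comm]; exact hc
    have hl0 : l ≠ 0 := by
      rintro rfl; simp at hl
    have h1 := hPdvd ⟨TN j, TN_mem j⟩ ⟨TN i, TN_mem i⟩ hc' l hl0 hl.le
      (fun v hv' => hv v (by rw [Finset.inter_comm]; exact hv'))
    have h2 : (Q j - Q i).totalDegree ≤ d + (r + 1) := by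
      rw [← hk]
      exact (totalDegree_sub _ _).trans (max_le (hQdeg _) (hQdeg _))
    obtain ⟨q, hq, he⟩ := exists_quot hl h1 h2
    exact ⟨⟨q, hq⟩, by rw [← he]; ring⟩
  obtain ⟨a0, ha0⟩ := hstep 0 1 (lA 0) (by decide +kernel) (lA_one 0) (by
    intro v hv
    have : v = 0 ∨ v = 1 ∨ v = 2 := by revert hv; revert v; decide +kernel
    rcases this with rfl | rfl | rfl <;> simp [lA, posN])
  obtain ⟨a2, ha2⟩ := hstep 1 2 (lA 2) (by decide +kernel) (lA_one 2) (by
    intro v hv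
    have : v = 0 ∨ v = 1 ∨ v = 4 := by revert hv; revert v; decide +kernel
    rcases this with rfl | rfl | rfl <;> simp [lA, posN])
  obtain ⟨a1, ha1⟩ := hstep 2 0 (lA 1) (by decide +kernel) (lA_one 1) (by
    intro v hv
    have : v = 0 ∨ v = 1 ∨ v = 3 := by revert hv; revert v; decide +kernel
    rcases this with rfl | rfl | rfl <;> simp [lA, posN])
  obtain ⟨b1, hb1⟩ := hstep 0 3 (lB 1) (by decide +kernel) (lB_one 1) (by
    intro v hv
    have : v = 1 ∨ v = 2 ∨ v = 3 := by revert hv; revert v; decide +kernel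
    rcases this with rfl | rfl | rfl <;> simp [lB, posN])
  obtain ⟨b2, hb2⟩ := hstep 3 4 (lB 2) (by decide +kernel) (lB_one 2) (by
    intro v hv
    have : v = 2 ∨ v = 3 ∨ v = 5 := by revert hv; revert v; decide +kernel
    rcases this with rfl | rfl | rfl <;> simp [lB, posN])
  obtain ⟨b3, hb3⟩ := hstep 4 5 (lB 3) (by decide +kernel) (lB_one 3) (by
    intro v hv
    have : v = 2 ∨ v = 3 ∨ v = 6 := by revert hv; revert v; decide +kernel
    rcases this with rfl | rfl | rfl <;> simp [lB, posN])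
  obtain ⟨b0, hb0⟩ := hstep 5 0 (lB 0) (by decide +kernel) (lB_one 0) (by
    intro v hv
    have : v = 0 ∨ v = 2 ∨ v = 3 := by revert hv; revert v; decide +kernel
    rcases this with rfl | rfl | rfl <;> simp [lB, posN])
  have hA : (![a0, a1, a2] : Fin 3 → restrictTotalDegree (Fin 3) ℝ d) ∈
      LinearMap.ker (Phi r d lA) := by
    rw [LinearMap.mem_ker, Phi_apply, Fin.sum_univ_three]
    simp only [Matrix.cons_val_zero, Matrix.cons_val_one, Matrix.cons_val]
    linear_combination -ha0 - ha1 - ha2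
  have hB : (![b0, b1, b2, b3] : Fin 4 → restrictTotalDegree (Fin 3) ℝ d) ∈
      LinearMap.ker (Phi r d lB) := by
    rw [LinearMap.mem_ker, Phi_apply, Fin.sum_univ_four]
    simp only [Matrix.cons_val_zero, Matrix.cons_val_one, Matrix.cons_val]
    linear_combination -hb0 - hb1 - hb2 - hb3
  refine ⟨⟨⟨Q 0, (mem_restrictTotalDegree _ _ _).mpr (hQdeg 0)⟩, ⟨_, hA⟩, ⟨_, hB⟩⟩, ?_⟩
  rw [LinearMap.comp_apply, ← hQs]
  congr 1
  funext j
  fin_cases j
  · rfl
  · simp [fN, ha0]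
  · simp [fN, ha2, ha0]
  · simp [fN, hb1]
  · simp [fN, hb2, hb1]
  · simp [fN, hb3, hb2, hb1]

theorem freeSub (d : ℕ) {n : ℕ} (W : Submodule ℝ (Fin n → restrictTotalDegree (Fin 3) ℝ d)) :
    Module.Free ℝ W :=
  @Module.Free.of_divisionRing ℝ W _ (Submodule.addCommGroup W) _

theorem finrank_three {A B C : Type} [AddCommMonoid A] [AddCommMonoid B] [AddCommMonoid C]
    [Module ℝ A] [Module ℝ B] [Module ℝ C] [Module.Free ℝ A] [Module.Free ℝ B] [Module.Free ℝ C]
    [Module.Finite ℝ A] [Module.Finite ℝ B] [Module.Finite ℝ C] :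
    Module.finrank ℝ (A × B × C) =
      Module.finrank ℝ A + (Module.finrank ℝ B + Module.finrank ℝ C) := by
  rw [Module.finrank_prod, Module.finrank_prod]

theorem finrank_ker_add (r d : ℕ) {n : ℕ} (l : Fin n → MvPolynomial (Fin 3) ℝ) :
    Module.finrank ℝ (LinearMap.ker (Phi r d l)) +
      Module.finrank ℝ (LinearMap.range (Phi r d l)) =
      n * Module.finrank ℝ (restrictTotalDegree (Fin 3) ℝ d) := by
  rw [← finrank_pi_eq, ← LinearMap.finrank_range_add_finrank_ker (Phi r d l), add_comm]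

/-- The upper bound for the dimension at `posN`. -/
theorem upper (hN : Realises KN posN) (r k d : ℕ) (hk : k = d + (r + 1)) :
    Module.finrank ℝ (Spline r k KN posN) + Module.finrank ℝ (LinearMap.range (Phi r d lA)) +
      Module.finrank ℝ (LinearMap.range (Phi r d lB)) ≤
      Module.finrank ℝ (restrictTotalDegree (Fin 3) ℝ k) +
        7 * Module.finrank ℝ (restrictTotalDegree (Fin 3) ℝ d) := by
  have h1 : Module.finrank ℝ (Spline r k KN posN) ≤
      Module.finrank ℝ (LinearMap.range (gl KN TN posN ∘ₗ fN r k d)) :=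
    Submodule.finrank_mono (spline_le hN r k d hk)
  have h2 := LinearMap.finrank_range_le (gl KN TN posN ∘ₗ fN r k d)
  have := freeSub d (LinearMap.ker (Phi r d lA))
  have := freeSub d (LinearMap.ker (Phi r d lB))
  rw [finrank_three] at h2
  have h3 := finrank_ker_add r d lA
  have h4 := finrank_ker_add r d lB
  omega

end Pool.Agent.Lib.MP_d2a91d_an
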