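import Pool.Agent.Lib.MP_d2a91d_an.Stmts7

/-!
MP_d2a91d_an, row F: a cut-off polynomial (helper83).
-/

namespace Pool.Agent.Lib.MP_d2a91d_an

open MvPolynomial

namespace F83

/-- one variable -/
theorem one_var (L : ℕ) : ∃ p p1 p2 : Polynomial ℝ, p.natDegree ≤ 2 * L ∧
    p = Polynomial.X ^ L * p1 ∧ p - 1 = (Polynomial.X - 1) ^ L * p2 := by
  have h1 : IsCoprime (Polynomial.X : Polynomial ℝ) (Polynomial.X - 1) :=
    ⟨1, -1, by ring⟩
  obtain ⟨u, v, huv⟩ := h1.pow (m := L) (n := L)
  have hm : ((Polynomial.X : Polynomial ℝ) ^ L * (Polynomial.X - 1) ^ L).Monic := by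
    have h3 : (Polynomial.X - 1 : Polynomial ℝ).Monic := by
      have := Polynomial.monic_X_sub_C (1 : ℝ)
      rwa [Polynomial.C_1] at this
    exact (Polynomial.monic_X.pow L).mul (h3.pow L)
  set M := (Polynomial.X : Polynomial ℝ) ^ L * (Polynomial.X - 1) ^ L with hM
  have hMd : M.natDegree ≤ 2 * L := by
    rw [hM]
    refine Polynomial.natDegree_mul_le.trans ?_
    have e1 : ((Polynomial.X : Polynomial ℝ) ^ L).natDegree ≤ L := Polynomial.natDegree_X_pow_le L
    have e2 : ((Polynomial.X - 1 : Polynomial ℝ) ^ L).natDegree ≤ L := by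
      refine Polynomial.natDegree_pow_le.trans ?_
      have : (Polynomial.X - 1 : Polynomial ℝ).natDegree ≤ 1 := by
        have := Polynomial.natDegree_X_sub_C_le (1 : ℝ)
        rwa [Polynomial.C_1] at this
      nlinarith
    omega
  have hdiv := Polynomial.modByMonic_add_div (u * Polynomial.X ^ L) M
  refine ⟨(u * Polynomial.X ^ L) %ₘ M, u - (Polynomial.X - 1) ^ L * ((u * Polynomial.X ^ L) /ₘ M),
    -v - Polynomial.X ^ L * ((u * Polynomial.X ^ L) /ₘ M), ?_, ?_, ?_⟩
  · exact (Polynomial.natDegree_modByMonic_le _ hm).trans hMd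
  · linear_combination hdiv + (-(u * Polynomial.X ^ L /ₘ M)) * hM
  · linear_combination hdiv + (-(u * Polynomial.X ^ L /ₘ M)) * hM + huv

/-- degree of a polynomial in one affine form -/
theorem totalDegree_aeval_le (p : Polynomial ℝ) (l : MvPolynomial (Fin 3) ℝ)
    (hl : l.totalDegree ≤ 1) : (Polynomial.aeval l p).totalDegree ≤ p.natDegree := by
  rw [Polynomial.aeval_eq_sum_range]
  refine (totalDegree_finsetSum _ _).trans (Finset.sup_le fun i hi => ?_)
  refine (totalDegree_smul_le _ _).trans ((totalDegree_pow _ _).trans ?_)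
  rw [Finset.mem_range] at hi
  nlinarith

theorem eval_aeval (p : Polynomial ℝ) (l : MvPolynomial (Fin 3) ℝ) (x : Fin 3 → ℝ) :
    eval x (Polynomial.aeval l p) = p.eval (eval x l) := by
  rw [Polynomial.aeval_def, Polynomial.eval₂_eq_sum, Polynomial.sum, map_sum,
    Polynomial.eval_eq_sum, Polynomial.sum]
  refine Finset.sum_congr rfl fun i _ => ?_
  rw [map_mul, map_pow]
  simp

end F83

open F83 in
theorem stF_83 : StF := by
  intro a b L hab
  obtain ⟨p, p1, p2, hp, h1, h2⟩ := one_var L
  -- the affine form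
  set N : ℝ := ∑ i, (a i - b i) * (a i - b i) with hN
  have hN0 : N ≠ 0 := by
    intro h
    apply hab
    rw [hN, Finset.sum_eq_zero_iff_of_nonneg (fun i _ => mul_self_nonneg _)] at h
    funext i
    have := mul_self_eq_zero.mp (h i (Finset.mem_univ i))
    linarith
  set l : MvPolynomial (Fin 3) ℝ := ∑ i, C ((a i - b i) / N) * (X i - C (b i)) with hl
  have hld : l.totalDegree ≤ 1 := by
    rw [hl]
    refine (totalDegree_finsetSum _ _).trans (Finset.sup_le fun i _ => ?_)
    refine (totalDegree_mul _ _).trans ?_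
    rw [totalDegree_C, zero_add]
    refine (totalDegree_sub _ _).trans ?_
    rw [totalDegree_X, totalDegree_C]
    simp
  have hle : ∀ x : Fin 3 → ℝ, eval x l = ∑ i, (a i - b i) / N * (x i - b i) := by
    intro x
    rw [hl, map_sum]
    refine Finset.sum_congr rfl fun i _ => ?_
    simp
  -- value along lines
  have hb : ∀ v : Fin 3 → ℝ, ∀ s : ℝ, eval (b + s • v) l = s * ∑ i, (a i - b i) / N * v i := by
    intro v s
    rw [hle, Finset.mul_sum]
    refine Finset.sum_congr rfl fun i _ => ?_
    simp only [Pi.add_apply, Pi.smul_apply, smul_eq_mul]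
    ring
  have ha : ∀ v : Fin 3 → ℝ, ∀ s : ℝ,
      eval (a + s • v) l = 1 + s * ∑ i, (a i - b i) / N * v i := by
    intro v s
    have h3 : (1 : ℝ) = ∑ i, (a i - b i) / N * (a i - b i) := by
      have h4 : ∑ i, (a i - b i) / N * (a i - b i) = (∑ i, (a i - b i) * (a i - b i)) / N := by
        rw [Finset.sum_div]
        refine Finset.sum_congr rfl fun i _ => ?_
        ring
      rw [h4, ← hN, div_self hN0]
    rw [hle, h3, Finset.mul_sum, ← Finset.sum_add_distrib]
    refine Finset.sum_congr rfl fun i _ => ?_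
    simp only [Pi.add_apply, Pi.smul_apply, smul_eq_mul]
    ring
  refine ⟨Polynomial.aeval l p, (totalDegree_aeval_le p l hld).trans hp, ?_, ?_⟩
  · intro v
    set c : ℝ := ∑ i, (a i - b i) / N * v i with hc
    refine ⟨Polynomial.C (c ^ L) * p1.comp (Polynomial.C c * Polynomial.X), fun s => ?_⟩
    rw [eval_aeval, hb, ← hc, h1]
    simp only [Polynomial.eval_mul, Polynomial.eval_pow, Polynomial.eval_X, Polynomial.eval_C,
      Polynomial.eval_comp]
    rw [mul_pow, mul_comm c s]
    ring
  · intro v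
    set c : ℝ := ∑ i, (a i - b i) / N * v i with hc
    refine ⟨Polynomial.C (c ^ L) * p2.comp (1 + Polynomial.C c * Polynomial.X), fun s => ?_⟩
    have h3 : eval (a + s • v) (Polynomial.aeval l p - 1) = (p - 1).eval (eval (a + s • v) l) := by
      rw [map_sub, map_one, eval_aeval, Polynomial.eval_sub, Polynomial.eval_one]
    rw [h3, ha, ← hc, h2]
    simp only [Polynomial.eval_mul, Polynomial.eval_pow, Polynomial.eval_X, Polynomial.eval_C,
      Polynomial.eval_comp, Polynomial.eval_sub, Polynomial.eval_add, Polynomial.eval_one]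
    rw [mul_comm c s]
    ring

end Pool.Agent.Lib.MP_d2a91d_an
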