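import Pool.Agent.Lib.MP_d2a91d_an.Stmts10
import Pool.Agent.Lib.MP_d2a91d_an.F_83

/-!
MP_d2a91d_an, row F3: a cut-off polynomial for three points (helper83).
-/

namespace Pool.Agent.Lib.MP_d2a91d_an

open MvPolynomial

open F83 in
theorem stF3_83 : StF3 := by
  intro a b c L hab
  obtain ⟨p, p1, p2, hp, h1, h2⟩ := one_var L
  -- the affine form
  set PP : ℝ := ∑ i, (a i - b i) * (a i - b i) with hPP
  set PQ : ℝ := ∑ i, (a i - b i) * (c i - b i) with hPQ
  set QQ : ℝ := ∑ i, (c i - b i) * (c i - b i) with hQQ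
  have hinj := hab.injective
  have hQ0 : QQ ≠ 0 := by
    intro h
    rw [hQQ, Finset.sum_eq_zero_iff_of_nonneg (fun i _ => mul_self_nonneg _)] at h
    have hcb : c = b := by
      funext i
      have := mul_self_eq_zero.mp (h i (Finset.mem_univ i))
      linarith
    have h3 : (![a, b, c] : Fin 3 → Fin 3 → ℝ) 1 = (![a, b, c] : Fin 3 → Fin 3 → ℝ) 2 := by
      simp [hcb]
    have h4 := hinj h3
    exact absurd h4 (by decide)
  have hD0 : PP * QQ - PQ * PQ ≠ 0 := by
    intro h
    have hR : ∑ i, (QQ * (a i - b i) - PQ * (c i - b i)) *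
        (QQ * (a i - b i) - PQ * (c i - b i)) = 0 := by
      have : ∑ i, (QQ * (a i - b i) - PQ * (c i - b i)) *
        (QQ * (a i - b i) - PQ * (c i - b i)) = QQ * QQ * PP - 2 * QQ * PQ * PQ +
          PQ * PQ * QQ := by
        rw [hPP, hPQ, hQQ]
        simp only [Fin.sum_univ_three]
        ring
      rw [this]
      linear_combination QQ * h
    rw [Finset.sum_eq_zero_iff_of_nonneg (fun i _ => mul_self_nonneg _)] at hR
    rw [affineIndependent_iff] at hab
    have h5 := hab Finset.univ ![QQ, PQ - QQ, -PQ] (by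
      simp [Fin.sum_univ_three]) (by
      rw [Fin.sum_univ_three]
      funext i
      have := mul_self_eq_zero.mp (hR i (Finset.mem_univ i))
      simp only [Matrix.cons_val_zero, Matrix.cons_val_one, Matrix.cons_val_two,
        Matrix.head_cons, Matrix.tail_cons, Pi.add_apply, Pi.smul_apply, smul_eq_mul,
        Pi.zero_apply]
      linarith) 0 (Finset.mem_univ _)
    exact hQ0 (by simpa using h5)
  set w : Fin 3 → ℝ := fun i => (QQ * (a i - b i) - PQ * (c i - b i)) / (PP * QQ - PQ * PQ)
    with hw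
  have hwa : ∑ i, w i * (a i - b i) = 1 := by
    have : ∑ i, w i * (a i - b i) = (PP * QQ - PQ * PQ) / (PP * QQ - PQ * PQ) := by
      rw [hw]
      simp only [Fin.sum_univ_three]
      rw [hPP, hPQ, hQQ] at hD0 ⊢
      simp only [Fin.sum_univ_three] at hD0 ⊢
      field_simp
      ring
    rw [this, div_self hD0]
  have hwc : ∑ i, w i * (c i - b i) = 0 := by
    have : ∑ i, w i * (c i - b i) = 0 / (PP * QQ - PQ * PQ) := by
      rw [hw]
      simp only [Fin.sum_univ_three]
      rw [hPP, hPQ, hQQ] at hD0 ⊢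
      simp only [Fin.sum_univ_three] at hD0 ⊢
      field_simp
      ring
    rw [this, zero_div]
  set l : MvPolynomial (Fin 3) ℝ := ∑ i, C (w i) * (X i - C (b i)) with hl
  have hld : l.totalDegree ≤ 1 := by
    rw [hl]
    refine (totalDegree_finsetSum _ _).trans (Finset.sup_le fun i _ => ?_)
    refine (totalDegree_mul _ _).trans ?_
    rw [totalDegree_C, zero_add]
    refine (totalDegree_sub _ _).trans ?_
    rw [totalDegree_X, totalDegree_C]
    simp
  have hle : ∀ x : Fin 3 → ℝ, eval x l = ∑ i, w i * (x i - b i) := by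
    intro x
    rw [hl, map_sum]
    refine Finset.sum_congr rfl fun i _ => ?_
    simp
  -- value along lines
  have hb : ∀ v : Fin 3 → ℝ, ∀ s : ℝ, eval (b + s • v) l = s * ∑ i, w i * v i := by
    intro v s
    rw [hle, Finset.mul_sum]
    refine Finset.sum_congr rfl fun i _ => ?_
    simp only [Pi.add_apply, Pi.smul_apply, smul_eq_mul]
    ring
  have hc : ∀ v : Fin 3 → ℝ, ∀ s : ℝ, eval (c + s • v) l = s * ∑ i, w i * v i := by
    intro v s
    rw [hle, Finset.mul_sum]
    have : ∑ i, w i * ((c + s • v) i - b i) = ∑ i, w i * (c i - b i) + ∑ i, s * (w i * v i) := by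
      rw [← Finset.sum_add_distrib]
      refine Finset.sum_congr rfl fun i _ => ?_
      simp only [Pi.add_apply, Pi.smul_apply, smul_eq_mul]
      ring
    rw [this, hwc, zero_add]
  have ha : ∀ v : Fin 3 → ℝ, ∀ s : ℝ, eval (a + s • v) l = 1 + s * ∑ i, w i * v i := by
    intro v s
    rw [hle, Finset.mul_sum]
    have : ∑ i, w i * ((a + s • v) i - b i) = ∑ i, w i * (a i - b i) + ∑ i, s * (w i * v i) := by
      rw [← Finset.sum_add_distrib]
      refine Finset.sum_congr rfl fun i _ => ?_
      simp only [Pi.add_apply, Pi.smul_apply, smul_eq_mul]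
      ring
    rw [this, hwa]
  refine ⟨Polynomial.aeval l p, (totalDegree_aeval_le p l hld).trans hp, ?_, ?_, ?_⟩
  · intro v
    set c' : ℝ := ∑ i, w i * v i with hc'
    refine ⟨Polynomial.C (c' ^ L) * p1.comp (Polynomial.C c' * Polynomial.X), fun s => ?_⟩
    rw [eval_aeval, hb, ← hc', h1]
    simp only [Polynomial.eval_mul, Polynomial.eval_pow, Polynomial.eval_X, Polynomial.eval_C,
      Polynomial.eval_comp]
    rw [mul_pow, mul_comm c' s]
    ring
  · intro v
    set c' : ℝ := ∑ i, w i * v i with hc'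
    refine ⟨Polynomial.C (c' ^ L) * p1.comp (Polynomial.C c' * Polynomial.X), fun s => ?_⟩
    rw [eval_aeval, hc, ← hc', h1]
    simp only [Polynomial.eval_mul, Polynomial.eval_pow, Polynomial.eval_X, Polynomial.eval_C,
      Polynomial.eval_comp]
    rw [mul_pow, mul_comm c' s]
    ring
  · intro v
    set c' : ℝ := ∑ i, w i * v i with hc'
    refine ⟨Polynomial.C (c' ^ L) * p2.comp (1 + Polynomial.C c' * Polynomial.X), fun s => ?_⟩
    have h3 : eval (a + s • v) (Polynomial.aeval l p - 1) = (p - 1).eval (eval (a + s • v) l) := by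
      rw [map_sub, map_one, eval_aeval, Polynomial.eval_sub, Polynomial.eval_one]
    rw [h3, ha, ← hc', h2]
    simp only [Polynomial.eval_mul, Polynomial.eval_pow, Polynomial.eval_X, Polynomial.eval_C,
      Polynomial.eval_comp, Polynomial.eval_sub, Polynomial.eval_add, Polynomial.eval_one]
    rw [mul_comm c' s]
    ring

end Pool.Agent.Lib.MP_d2a91d_an
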