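import Pool.Agent.Lib.MP_d2a91d_an.Stmts2
import Pool.Agent.Lib.MP_d2a91d_an.DefsPair

namespace Pool.Agent.Lib.MP_d2a91d_an

def zV : Fin 9 → Fin 3 → ℤ :=
  ![![0, 0, 1], ![3, 0, 0], ![0, 3, 0], ![0, 0, 0], ![2, 2, 0], ![-2, -2, 0], ![-2, 2, 0],
    ![3, 3, 0], ![-4, 0, 0]]

def zW : Fin 9 → Fin 3 → ℤ :=
  ![![0, 0, 1], ![2, -2, 0], ![0, 3, 0], ![0, 0, 0], ![3, 1, 0], ![-3, 0, 0], ![-1, 1, 0],
    ![5, -2, 0], ![6, 1, 0]]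

/-- planes for the checks -/
def sepV : List (ℤ × ℤ × ℤ × ℤ) :=
  [(0, 0, 1, 0), (-1, 0, 0, 0), (0, 1, 0, 0), (-1, -1, -3, 3), (-1, -2, -6, 6), (-2, -1, -6, 6),
   (-1, 1, 0, 0), (-2, 5, -6, 6), (-1, 0, -3, 3), (1, 1, 0, 0), (-1, 2, 6, -6), (0, -1, -3, 3),
   (1, 0, -2, 2), (-1, 1, 4, -4), (-1, -1, 4, -4)]

def sepW : List (ℤ × ℤ × ℤ × ℤ) :=
  [(0, 0, 1, 0), (1, 0, 0, 0), (1, 1, 0, 0), (-5, -2, -6, 6), (-2, -3, -9, 9), (-3, 1, -8, 8),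
   (0, 1, 0, 0), (-2, -5, 6, -6), (-3, -2, -11, 11), (0, -1, 2, -2), (2, -1, -3, 3),
   (1, -2, -3, 3), (-1, 1, 3, -3), (-3, 1, -17, 17), (0, -1, -1, 1), (-1, 0, 0, 0)]

/-- cyclic orders for `KV` -/
def cycV (e : Finset (Fin 9)) (i : ℕ) : Finset (Fin 9) :=
  if e = {0, 3} then
    (![{0, 1, 2, 3}, {0, 2, 3, 6}, {0, 3, 5, 6}, {0, 1, 3, 5}] : Fin 4 → Finset (Fin 9))
      ⟨i % 4, Nat.mod_lt _ (by norm_num)⟩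
  else (![{0, 1, 2, 4}, {0, 2, 4, 7}, {0, 1, 4, 7}] : Fin 3 → Finset (Fin 9))
      ⟨i % 3, Nat.mod_lt _ (by norm_num)⟩

/-- cyclic orders for `KW` -/
def cycW (e : Finset (Fin 9)) (i : ℕ) : Finset (Fin 9) :=
  if e = {0, 3} then
    (![{0, 1, 2, 3}, {0, 2, 3, 6}, {0, 3, 5, 6}, {0, 1, 3, 5}] : Fin 4 → Finset (Fin 9))
      ⟨i % 4, Nat.mod_lt _ (by norm_num)⟩
  else (![{0, 2, 3, 6}, {0, 3, 5, 6}, {0, 2, 5, 6}] : Fin 3 → Finset (Fin 9))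
      ⟨i % 3, Nat.mod_lt _ (by norm_num)⟩

/-- (X1), (X2) -/
def StX1 : Prop := Realises KV (fun i j => (zV i j : ℝ))
def StX2 : Prop := Realises KW (fun i j => (zW i j : ℝ))

/-- (X3), (X4) -/
def StX3 : Prop := Nice KV cycV
def StX4 : Prop := Nice KW cycW

end Pool.Agent.Lib.MP_d2a91d_an
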