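import Pool.Agent.Lib.MP_d2a91d_an.Gen
import Pool.Agent.Lib.MP_d2a91d_an.Stmts3

namespace Pool.Agent.Lib.MP_d2a91d_an

theorem interiorFaces_eq {N : ℕ} {K : Finset (Finset (Fin N))} {m : ℕ}
    {B Fm : Finset (Finset (Fin N))} (hB : (faces K 3).filter (fun f => degree K f = 1) = B)
    (hm : faces K m = Fm) :
    interiorFaces K m = Fm.filter (fun s => ∀ f ∈ B, ¬ s ⊆ f) := by
  subst hm
  unfold interiorFaces
  refine Finset.filter_congr fun s _ => ?_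
  rw [← hB]
  constructor
  · intro h f hf hs
    rw [Finset.mem_filter] at hf
    exact h f hf.1 hs hf.2
  · intro h f hf hs hd
    exact h f (Finset.mem_filter.mpr ⟨hf, hd⟩) hs

theorem vertexData_eq {N : ℕ} {K : Finset (Finset (Fin N))}
    {F2 I2 : Finset (Finset (Fin N))} (h2 : faces K 2 = F2) (hI : interiorFaces K 2 = I2) :
    vertexData K = fun v => (degree K {v}, (F2.filter (fun e => v ∈ e)).val.map
      (fun e => (decide (e ∈ I2), degree K e))) := by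
  subst h2; subst hI; rfl

theorem fV0 : faces KV 0 = {∅} := by decide +kernel
theorem fV1 : faces KV 1 = {{0}, {1}, {2}, {3}, {4}, {5}, {6}, {7}, {8}} := by decide +kernel
theorem fV2 : faces KV 2 = {{0, 1}, {0, 2}, {0, 3}, {0, 4}, {0, 5}, {0, 6}, {0, 7}, {0, 8},
    {1, 2}, {1, 3}, {1, 4}, {1, 5}, {1, 7}, {2, 3}, {2, 4}, {2, 6}, {2, 7}, {3, 5}, {3, 6}, {4,
    7}, {5, 6}, {5, 8}, {6, 8}} := by decide +kernel
theorem fV3 : faces KV 3 = {{0, 1, 2}, {0, 1, 3}, {0, 1, 4}, {0, 1, 5}, {0, 1, 7}, {0, 2, 3},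
    {0, 2, 4}, {0, 2, 6}, {0, 2, 7}, {0, 3, 5}, {0, 3, 6}, {0, 4, 7}, {0, 5, 6}, {0, 5, 8}, {0, 6,
    8}, {1, 2, 3}, {1, 2, 4}, {1, 3, 5}, {1, 4, 7}, {2, 3, 6}, {2, 4, 7}, {3, 5, 6}, {5, 6, 8}} :=
    by decide +kernel
theorem fV4 : faces KV 4 = {{0, 1, 2, 3}, {0, 1, 2, 4}, {0, 1, 3, 5}, {0, 1, 4, 7}, {0, 2, 3,
    6}, {0, 2, 4, 7}, {0, 3, 5, 6}, {0, 5, 6, 8}} := by decide +kernel
theorem bV : (faces KV 3).filter (fun f => degree KV f = 1) = {{0, 1, 5}, {0, 1, 7}, {0, 2,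
    6}, {0, 2, 7}, {0, 5, 8}, {0, 6, 8}, {1, 2, 3}, {1, 2, 4}, {1, 3, 5}, {1, 4, 7}, {2, 3, 6},
    {2, 4, 7}, {3, 5, 6}, {5, 6, 8}} := by
  rw [fV3]; decide +kernel
theorem iV0 : interiorFaces KV 0 = ∅ := by
  rw [interiorFaces_eq bV fV0]; decide +kernel
theorem iV1 : interiorFaces KV 1 = ∅ := by
  rw [interiorFaces_eq bV fV1]; decide +kernel
theorem iV2 : interiorFaces KV 2 = {{0, 3}, {0, 4}} := by
  rw [interiorFaces_eq bV fV2]; decide +kernel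
theorem iV3 : interiorFaces KV 3 = {{0, 1, 2}, {0, 1, 3}, {0, 1, 4}, {0, 2, 3}, {0, 2, 4}, {0,
    3, 5}, {0, 3, 6}, {0, 4, 7}, {0, 5, 6}} := by
  rw [interiorFaces_eq bV fV3]; decide +kernel
theorem iV4 : interiorFaces KV 4 = {{0, 1, 2, 3}, {0, 1, 2, 4}, {0, 1, 3, 5}, {0, 1, 4, 7},
    {0, 2, 3, 6}, {0, 2, 4, 7}, {0, 3, 5, 6}, {0, 5, 6, 8}} := by
  rw [interiorFaces_eq bV fV4]; decide +kernel
theorem fW0 : faces KW 0 = {∅} := by decide +kernel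
theorem fW1 : faces KW 1 = {{0}, {1}, {2}, {3}, {4}, {5}, {6}, {7}, {8}} := by decide +kernel
theorem fW2 : faces KW 2 = {{0, 1}, {0, 2}, {0, 3}, {0, 4}, {0, 5}, {0, 6}, {0, 7}, {0, 8},
    {1, 2}, {1, 3}, {1, 4}, {1, 5}, {1, 7}, {2, 3}, {2, 4}, {2, 5}, {2, 6}, {3, 5}, {3, 6}, {4,
    7}, {4, 8}, {5, 6}, {7, 8}} := by decide +kernel
theorem fW3 : faces KW 3 = {{0, 1, 2}, {0, 1, 3}, {0, 1, 4}, {0, 1, 5}, {0, 1, 7}, {0, 2, 3},
    {0, 2, 4}, {0, 2, 5}, {0, 2, 6}, {0, 3, 5}, {0, 3, 6}, {0, 4, 7}, {0, 4, 8}, {0, 5, 6}, {0, 7,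
    8}, {1, 2, 3}, {1, 2, 4}, {1, 3, 5}, {1, 4, 7}, {2, 3, 6}, {2, 5, 6}, {3, 5, 6}, {4, 7, 8}} :=
    by decide +kernel
theorem fW4 : faces KW 4 = {{0, 1, 2, 3}, {0, 1, 2, 4}, {0, 1, 3, 5}, {0, 1, 4, 7}, {0, 2, 3,
    6}, {0, 2, 5, 6}, {0, 3, 5, 6}, {0, 4, 7, 8}} := by decide +kernel
theorem bW : (faces KW 3).filter (fun f => degree KW f = 1) = {{0, 1, 5}, {0, 1, 7}, {0, 2,
    4}, {0, 2, 5}, {0, 4, 8}, {0, 7, 8}, {1, 2, 3}, {1, 2, 4}, {1, 3, 5}, {1, 4, 7}, {2, 3, 6},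
    {2, 5, 6}, {3, 5, 6}, {4, 7, 8}} := by
  rw [fW3]; decide +kernel
theorem iW0 : interiorFaces KW 0 = ∅ := by
  rw [interiorFaces_eq bW fW0]; decide +kernel
theorem iW1 : interiorFaces KW 1 = ∅ := by
  rw [interiorFaces_eq bW fW1]; decide +kernel
theorem iW2 : interiorFaces KW 2 = {{0, 3}, {0, 6}} := by
  rw [interiorFaces_eq bW fW2]; decide +kernel
theorem iW3 : interiorFaces KW 3 = {{0, 1, 2}, {0, 1, 3}, {0, 1, 4}, {0, 2, 3}, {0, 2, 6}, {0,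
    3, 5}, {0, 3, 6}, {0, 4, 7}, {0, 5, 6}} := by
  rw [interiorFaces_eq bW fW3]; decide +kernel
theorem iW4 : interiorFaces KW 4 = {{0, 1, 2, 3}, {0, 1, 2, 4}, {0, 1, 3, 5}, {0, 1, 4, 7},
    {0, 2, 3, 6}, {0, 2, 5, 6}, {0, 3, 5, 6}, {0, 4, 7, 8}} := by
  rw [interiorFaces_eq bW fW4]; decide +kernel

theorem dataVW : (Finset.univ.val.map (vertexData KV)) = (Finset.univ.val.map (vertexData KW)) := by
  rw [vertexData_eq fV2 iV2, vertexData_eq fW2 iW2]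
  decide +kernel

theorem cardsVW (m : ℕ) (hm : m ≤ 4) : (faces KV m).card = (faces KW m).card ∧
    (interiorFaces KV m).card = (interiorFaces KW m).card := by
  interval_cases m
  · rw [fV0, fW0, iV0, iW0]; decide +kernel
  · rw [fV1, fW1, iV1, iW1]; decide +kernel
  · rw [fV2, fW2, iV2, iW2]; decide +kernel
  · rw [fV3, fW3, iV3, iW3]; decide +kernel
  · rw [fV4, fW4, iV4, iW4]; decide +kernel

end Pool.Agent.Lib.MP_d2a91d_an
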