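import Pool.Agent.Lib.MP_d2a91d_an.Weak

namespace Pool.Agent.Lib.MP_d2a91d_an

open MvPolynomial

variable {N : ℕ} {K : Finset (Finset (Fin N))}
  {cyc : Finset (Fin N) → ℕ → Finset (Fin N)}

/-- A realisation can be moved so that no two triangles at an interior edge are coplanar. -/
theorem exists_distinct (hU2 : StU2) (hU4a : StU4a) (hU4b : StU4b) (hU5 : StU5)
    (h : ∃ p, Realises K p) :
    ∃ p, Realises K p ∧ ∀ e ∈ interiorFaces K 2, DistinctAt K p e := by
  obtain ⟨p, hp⟩ := h
  let p' : Fin N → Fin 3 → ℝ := fun i => ![(i : ℝ), (i : ℝ) ^ 2, (i : ℝ) ^ 3]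
  have e1 := hU4b N K p p' hp (hU4a N K p hp)
  have e3 : ∀ᶠ s in nhdsWithin (0 : ℝ) {0}ᶜ, ∀ e ∈ interiorFaces K 2, ∀ f ∈ faces K 3,
      ∀ g ∈ faces K 3, e ⊆ f → e ⊆ g → f ≠ g →
        AffineIndependent ℝ (fun i : (f ∪ g : Finset (Fin N)) => ln p p' s i) := by
    rw [Filter.eventually_all_finset]
    intro e he
    rw [Filter.eventually_all_finset]
    intro f hf
    rw [Filter.eventually_all_finset]
    intro g hg
    by_cases h : e ⊆ f ∧ e ⊆ g ∧ f ≠ g
    · have hcard : (f ∪ g).card = 4 := by
        have c1 := card_edge he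
        have c2 : f.card = 3 := (mem_faces.mp hf).1
        have c3 : g.card = 3 := (mem_faces.mp hg).1
        have c4 := Finset.card_union_add_card_inter f g
        have c5 := Finset.card_le_card (Finset.subset_inter h.1 h.2.1)
        have c6 : (f ∩ g).card < 3 := by
          by_contra hc
          have d1 : f ∩ g = f := Finset.eq_of_subset_of_card_le Finset.inter_subset_left
            (by rw [c2]; omega)
          have d2 : f ∩ g = g := Finset.eq_of_subset_of_card_le Finset.inter_subset_right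
            (by rw [c3]; omega)
          exact h.2.2 (d1.symm.trans d2)
        omega
      filter_upwards [hU2 N (f ∪ g) p p' (hU5 N (f ∪ g) hcard)] with s hs
      exact fun _ _ _ => hs
    · exact Filter.Eventually.of_forall fun s h1 h2 h3 => absurd ⟨h1, h2, h3⟩ h
  obtain ⟨s, h1, h2⟩ := (e1.and e3).exists
  exact ⟨_, h1, h2⟩

/-- The generic dimension in the matched case. -/
theorem gen_four (hU1 : StU1) (hU2 : StU2) (hU4a : StU4a) (hU4b : StU4b) (hU5 : StU5)
    (hne : K.Nonempty) (hcyc : Nice K cyc) (hM : Matched K) (h : ∃ p, Realises K p)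
    (r d : ℕ) :
    2 * (genDim r (d + r + 1) K + ∑ e ∈ interiorFaces K 2, lam (degree K e) r d) =
      2 * ((d + r + 4).choose 3 + (interiorFaces K 3).card * (d + 3).choose 3) +
        ∑ e ∈ interiorFaces K 2, ∑ e' ∈ partners K e, mu (degree K e) (degree K e') r d := by
  obtain ⟨p1, hp1, hd1⟩ := exists_distinct hU2 hU4a hU4b hU5 h
  obtain ⟨p0, hp0, hg⟩ := genDim_spec r (d + r + 1) h
  have a1 := dim_rank hne hcyc r d hp0
  have a2 := rank_le_four hU1 hU2 hp1.wr hcyc hM hd1 p0 r d
  have a3 := dim_rank hne hcyc r d hp1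
  have a4 := rank_four hp1.wr hcyc hM hd1 r d
  have a5 := genDim_le r (d + r + 1) hp1
  rw [← hg] at a1
  omega

/-- The generic dimension has its expected value if and only if no triangle contains two
interior edges. -/
theorem gen_iff (hU2 : StU2) (hU4a : StU4a) (hU4b : StU4b) (hU5 : StU5)
    (hne : K.Nonempty) (hcyc : Nice K cyc) (h : ∃ p, Realises K p)
    (r d : ℕ) (hdeg : ∀ e ∈ interiorFaces K 2, degree K e ≤ r + 2) :
    (d + r + 4).choose 3 + (interiorFaces K 3).card * (d + 3).choose 3 =
      genDim r (d + r + 1) K + ∑ e ∈ interiorFaces K 2, lam (degree K e) r d ↔ Sep K := by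
  constructor
  · intro h' f hf e he e' he' hef hef'
    by_contra hne'
    have := gen_three H79.L0 H79.L1 H79.L2 H79.L4 hne hcyc r d h he he' hne' hf hef hef'
      (hdeg e he) (hdeg e' he')
    omega
  · intro hs
    exact gen_two H79.L0 H79.L1 H79.L3 hne hcyc hs r d
      (exists_distinct hU2 hU4a hU4b hU5 h)

end Pool.Agent.Lib.MP_d2a91d_an
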