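import Pool.Agent.Lib.MP_d2a91d_an.Nec

namespace Pool.Agent.Lib.MP_d2a91d_an

open MvPolynomial Set

variable {N : ℕ} {K : Finset (Finset (Fin N))} {p : Fin N → Fin 3 → ℝ}

theorem affInd4 (h : Realises K p) {t : Finset (Fin N)} (ht : t ∈ K) {i0 i1 i2 i3 : Fin N}
    (h0 : i0 ∈ t) (h1 : i1 ∈ t) (h2 : i2 ∈ t) (h3 : i3 ∈ t) (h01 : i0 ≠ i1) (h02 : i0 ≠ i2)
    (h03 : i0 ≠ i3) (h12 : i1 ≠ i2) (h13 : i1 ≠ i3) (h23 : i2 ≠ i3) :
    AffineIndependent ℝ ![p i0, p i1, p i2, p i3] := by
  have hinj : Function.Injective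
      (![⟨i0, h0⟩, ⟨i1, h1⟩, ⟨i2, h2⟩, ⟨i3, h3⟩] : Fin 4 → t) := by
    intro a b hab
    have hab' := congrArg Subtype.val hab
    fin_cases a <;> fin_cases b <;> first
      | rfl
      | (exfalso; simp at hab'; first
          | exact h01 hab' | exact h02 hab' | exact h03 hab' | exact h12 hab' | exact h13 hab'
          | exact h23 hab' | exact h01 hab'.symm | exact h02 hab'.symm | exact h03 hab'.symm
          | exact h12 hab'.symm | exact h13 hab'.symm | exact h23 hab'.symm)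
  have := (h.nondeg t ht).comp_embedding ⟨_, hinj⟩
  convert this using 1
  funext i
  fin_cases i <;> rfl

theorem isUnit_cols {a0 a1 a2 a3 : Fin 3 → ℝ} (h : AffineIndependent ℝ ![a0, a1, a2, a3]) :
    IsUnit (cols (a3 - a0) (a1 - a0) (a2 - a0)).det := by
  rw [← Matrix.isUnit_iff_isUnit_det, ← Matrix.mulVec_injective_iff_isUnit]
  have key : ∀ v : Fin 3 → ℝ, (cols (a3 - a0) (a1 - a0) (a2 - a0)).mulVec v = 0 → v = 0 := by
    intro v hv
    rw [cols_mulVec] at hv
    have h' := (affineIndependent_iff (k := ℝ)).mp h Finset.univ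
      ![-v 0 - v 1 - v 2, v 1, v 2, v 0] (by
        rw [Fin.sum_univ_four]
        simp only [Matrix.cons_val_zero, Matrix.cons_val_one, Matrix.cons_val]
        ring)
      (by
        rw [Fin.sum_univ_four]
        simp only [Matrix.cons_val_zero, Matrix.cons_val_one, Matrix.cons_val]
        rw [← hv]
        module)
    funext i
    fin_cases i
    · simpa using h' 3 (Finset.mem_univ _)
    · simpa using h' 1 (Finset.mem_univ _)
    · simpa using h' 2 (Finset.mem_univ _)
  intro v w hvw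
  have := key (v - w) (by rw [Matrix.mulVec_sub]; exact sub_eq_zero.mpr hvw)
  exact sub_eq_zero.mp this

theorem stG3 : StG3 := by
  intro N r k K p h s hs
  choose P hPdeg hPeq using fun t : K => hs.2.2 t.1 t.2
  refine ⟨P, hPdeg, ?_, hPeq, ?_⟩
  · funext x
    by_cases hx : x ∈ Omega K p
    · obtain ⟨t, ht, he⟩ := glue_mem P hx
      rw [he, hPeq t x ht]
    · rw [glue_of_notMem P hx, hs.1 x hx]
  · intro t t' hcard l hl hl1 hvan
    obtain ⟨i0, i1, i2, h01, h02, h12, he⟩ := Finset.card_eq_three.mp hcard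
    have hi0 : i0 ∈ t.1 ∩ t'.1 := by rw [he]; simp
    have hi1 : i1 ∈ t.1 ∩ t'.1 := by rw [he]; simp
    have hi2 : i2 ∈ t.1 ∩ t'.1 := by rw [he]; simp
    have hns : ¬ t.1 ⊆ t'.1 := by
      intro hsub
      have : (t.1 ∩ t'.1).card = 4 := by
        rw [Finset.inter_eq_left.mpr hsub, h.card t.1 t.2]
      omega
    obtain ⟨i3, hi3, hi3'⟩ := Finset.not_subset.mp hns
    have hne : ∀ i ∈ t.1 ∩ t'.1, i ≠ i3 := fun i hi hc =>
      hi3' (hc ▸ (Finset.mem_inter.mp hi).2)
    have hA := isUnit_cols (affInd4 h t.2 (Finset.mem_inter.mp hi0).1 (Finset.mem_inter.mp hi1).1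
      (Finset.mem_inter.mp hi2).1 hi3 h01 h02 (hne _ hi0) h12 (hne _ hi1) (hne _ hi2))
    refine dvd_of_jets r _ l (p i0) (p i1) (p i2) (p i3) hA hl hl1 (hvan _ hi0) (hvan _ hi1)
      (hvan _ hi2) ?_
    intro x hx m hm
    have hx' : x ∈ tet p (t.1 ∩ t'.1) := by
      unfold tet
      rw [he]
      simpa [Set.image_insert_eq] using hx
    have hxt : x ∈ tet p t.1 := tet_mono p Finset.inter_subset_left hx'
    have hxt' : x ∈ tet p t'.1 := tet_mono p Finset.inter_subset_right hx'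
    have j1 := jet_eq h hs t.2 (P t) (hPeq t) hxt hm
    have j2 := jet_eq h hs t'.2 (P t') (hPeq t') hxt' hm
    have e : (fun y => eval y (P t - P t')) =
        (fun y => eval y (P t)) - (fun y => eval y (P t')) := by
      funext y; simp
    rw [e, iteratedFDeriv_sub_apply ((contDiff_eval _).contDiffAt) ((contDiff_eval _).contDiffAt),
      ← j1, ← j2, sub_self]

end Pool.Agent.Lib.MP_d2a91d_an
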