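import Pool.Agent.Lib.MP_d2a91d_an.Stmts2
import Pool.Agent.Lib.MP_d2a91d_an.DimN

namespace Pool.Agent.Lib.MP_d2a91d_an

open MvPolynomial

variable {N : ℕ} {K : Finset (Finset (Fin N))} {p : Fin N → Fin 3 → ℝ}
  {cyc : Finset (Fin N) → ℕ → Finset (Fin N)}

/-- An enumeration of finite sets, to orient pairs. -/
noncomputable def enc (t : Finset (Fin N)) : ℕ := (Fintype.equivFin (Finset (Fin N)) t : ℕ)

theorem enc_inj {s t : Finset (Fin N)} (h : enc s = enc t) : s = t :=
  (Fintype.equivFin (Finset (Fin N))).injective (Fin.ext h)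

/-- The sign of an oriented pair. -/
noncomputable def sg (s t : Finset (Fin N)) : ℝ :=
  if enc s < enc t then 1 else if enc t < enc s then -1 else 0

theorem sg_neg (s t : Finset (Fin N)) : sg s t = - sg t s := by
  unfold sg
  rcases lt_trichotomy (enc s) (enc t) with h | h | h
  · simp [h, h.le.not_gt]
  · simp [h]
  · simp [h, h.le.not_gt]

theorem sg_lt {s t : Finset (Fin N)} (h : enc s < enc t) : sg s t = 1 := by
  unfold sg; simp [h]

theorem sg_gt {s t : Finset (Fin N)} (h : enc t < enc s) : sg s t = -1 := by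
  rw [sg_neg, sg_lt h]

theorem sg_ne {s t : Finset (Fin N)} (h : s ≠ t) : sg s t = 1 ∨ sg s t = -1 := by
  rcases lt_trichotomy (enc s) (enc t) with h' | h' | h'
  · exact Or.inl (sg_lt h')
  · exact absurd (enc_inj h') h
  · exact Or.inr (sg_gt h')

theorem mem_faces {m : ℕ} {f : Finset (Fin N)} :
    f ∈ faces K m ↔ f.card = m ∧ ∃ t ∈ K, f ⊆ t := by
  unfold faces
  rw [Finset.mem_filter, Finset.mem_powersetCard]
  simp

theorem mem_interiorFaces {m : ℕ} {s : Finset (Fin N)} :
    s ∈ interiorFaces K m ↔ s ∈ faces K m ∧ ∀ f ∈ faces K 3, s ⊆ f → degree K f ≠ 1 := by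
  unfold interiorFaces
  rw [Finset.mem_filter]

theorem ne_of_adj {s t : Finset (Fin N)} (hs : s.card = 4) (h : (s ∩ t).card = 3) : s ≠ t := by
  rintro rfl
  rw [Finset.inter_self] at h
  omega

theorem degree_pos {f t : Finset (Fin N)} (ht : t ∈ K) (hf : f ⊆ t) : 1 ≤ degree K f := by
  unfold degree
  exact Finset.card_pos.mpr ⟨t, Finset.mem_filter.mpr ⟨ht, hf⟩⟩

theorem inter_mem (hcard : ∀ t ∈ K, t.card = 4) {s t : Finset (Fin N)} (hs : s ∈ K) (ht : t ∈ K)
    (h : (s ∩ t).card = 3) : s ∩ t ∈ interiorFaces K 3 := by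
  rw [mem_interiorFaces, mem_faces]
  refine ⟨⟨h, s, hs, Finset.inter_subset_left⟩, ?_⟩
  intro g hg hsub
  rw [mem_faces] at hg
  have hgeq : s ∩ t = g := Finset.eq_of_subset_of_card_le hsub (by rw [hg.1, h])
  rw [← hgeq]
  have h2 : 2 ≤ degree K (s ∩ t) := by
    unfold degree
    have : ({s, t} : Finset (Finset (Fin N))) ⊆ K.filter (fun u => s ∩ t ⊆ u) := by
      intro u hu
      rw [Finset.mem_insert, Finset.mem_singleton] at hu
      rcases hu with rfl | rfl
      · exact Finset.mem_filter.mpr ⟨hs, Finset.inter_subset_left⟩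
      · exact Finset.mem_filter.mpr ⟨ht, Finset.inter_subset_right⟩
    have h3 := Finset.card_le_card this
    rw [Finset.card_pair (ne_of_adj (hcard s hs) h)] at h3
    exact h3
  omega

/-- The two tetrahedra at an interior triangle. -/
theorem exists_pair (hcard : ∀ t ∈ K, t.card = 4) (htwo : ∀ f ∈ faces K 3, degree K f ≤ 2)
    {f : Finset (Fin N)} (hf : f ∈ interiorFaces K 3) :
    ∃ s t, s ∈ K ∧ t ∈ K ∧ enc s < enc t ∧ s ∩ t = f ∧ ∀ u ∈ K, f ⊆ u → u = s ∨ u = t := by
  rw [mem_interiorFaces] at hf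
  obtain ⟨hf1, hf2⟩ := hf
  have hle := htwo f hf1
  have hne := hf2 f hf1 (Finset.Subset.refl f)
  have hpos : 1 ≤ degree K f := by
    obtain ⟨-, t, ht, hft⟩ := mem_faces.mp hf1
    exact degree_pos ht hft
  have hdeg : degree K f = 2 := by omega
  obtain ⟨s, t, hst, he⟩ := Finset.card_eq_two.mp hdeg
  have hs : s ∈ K.filter (fun u => f ⊆ u) := by rw [he]; simp
  have ht : t ∈ K.filter (fun u => f ⊆ u) := by rw [he]; simp
  rw [Finset.mem_filter] at hs ht
  have hall : ∀ u ∈ K, f ⊆ u → u = s ∨ u = t := by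
    intro u hu hfu
    have : u ∈ K.filter (fun u => f ⊆ u) := Finset.mem_filter.mpr ⟨hu, hfu⟩
    rw [he] at this
    simpa using this
  have hint : s ∩ t = f := by
    symm
    refine Finset.eq_of_subset_of_card_le (Finset.subset_inter hs.2 ht.2) ?_
    rw [(mem_faces.mp hf1).1]
    by_contra hlt
    have h4 : (s ∩ t).card ≤ 4 := by
      rw [← hcard s hs.1]; exact Finset.card_le_card Finset.inter_subset_left
    have h4' : (s ∩ t).card = 4 := by omega
    have e1 : s ∩ t = s := Finset.eq_of_subset_of_card_le Finset.inter_subset_left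
      (by rw [h4', hcard s hs.1])
    have e2 : s ∩ t = t := Finset.eq_of_subset_of_card_le Finset.inter_subset_right
      (by rw [h4', hcard t ht.1])
    exact hst (e1.symm.trans e2)
  rcases lt_trichotomy (enc s) (enc t) with h | h | h
  · exact ⟨s, t, hs.1, ht.1, h, hint, hall⟩
  · exact absurd (enc_inj h) hst
  · exact ⟨t, s, ht.1, hs.1, h, by rw [Finset.inter_comm]; exact hint,
      fun u hu hfu => (hall u hu hfu).symm⟩

/-- Extension by zero of the data on interior triangles. -/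
noncomputable def ext (K : Finset (Finset (Fin N))) (d : ℕ) :
    (interiorFaces K 3 → restrictTotalDegree (Fin 3) ℝ d) →ₗ[ℝ]
      (Finset (Fin N) → MvPolynomial (Fin 3) ℝ) where
  toFun q f := if h : f ∈ interiorFaces K 3 then (q ⟨f, h⟩).1 else 0
  map_add' q q' := by
    funext f
    by_cases h : f ∈ interiorFaces K 3
    · simp only [dif_pos h, Pi.add_apply, Submodule.coe_add]
    · simp only [dif_neg h, Pi.add_apply, add_zero]
  map_smul' c q := by
    funext f
    by_cases h : f ∈ interiorFaces K 3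
    · simp only [dif_pos h, Pi.smul_apply, Submodule.coe_smul, RingHom.id_apply]
    · simp only [dif_neg h, Pi.smul_apply, smul_zero]

theorem ext_apply {d : ℕ} (q : interiorFaces K 3 → restrictTotalDegree (Fin 3) ℝ d)
    {f : Finset (Fin N)} (hf : f ∈ interiorFaces K 3) : ext K d q f = (q ⟨f, hf⟩).1 := dif_pos hf

theorem ext_mem {d : ℕ} (q : interiorFaces K 3 → restrictTotalDegree (Fin 3) ℝ d)
    (f : Finset (Fin N)) : (ext K d q f).totalDegree ≤ d := by
  by_cases hf : f ∈ interiorFaces K 3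
  · rw [ext_apply q hf]
    exact (mem_restrictTotalDegree _ _ _).mp (q ⟨f, hf⟩).2
  · have : ext K d q f = 0 := dif_neg hf
    rw [this]; simp

/-- The 1-cochain of the data. -/
noncomputable def wq (K : Finset (Finset (Fin N))) (p : Fin N → Fin 3 → ℝ) (r d : ℕ)
    (s t : Finset (Fin N)) :
    (interiorFaces K 3 → restrictTotalDegree (Fin 3) ℝ d) →ₗ[ℝ] MvPolynomial (Fin 3) ℝ :=
  sg s t • (LinearMap.mulLeft ℝ (lf p (s ∩ t) ^ (r + 1)) ∘ₗ LinearMap.proj (s ∩ t) ∘ₗ ext K d)

theorem wq_apply (r d : ℕ) (s t : Finset (Fin N))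
    (q : interiorFaces K 3 → restrictTotalDegree (Fin 3) ℝ d) :
    wq K p r d s t q = sg s t • (lf p (s ∩ t) ^ (r + 1) * ext K d q (s ∩ t)) := rfl

theorem wq_neg (r d : ℕ) (s t : Finset (Fin N))
    (q : interiorFaces K 3 → restrictTotalDegree (Fin 3) ℝ d) :
    wq K p r d s t q = - wq K p r d t s q := by
  rw [wq_apply, wq_apply, Finset.inter_comm t s, sg_neg s t, neg_smul]

/-- The closing conditions at the interior edges. -/
noncomputable def PT (K : Finset (Finset (Fin N))) (cyc : Finset (Fin N) → ℕ → Finset (Fin N))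
    (p : Fin N → Fin 3 → ℝ) (r d : ℕ) :
    (interiorFaces K 3 → restrictTotalDegree (Fin 3) ℝ d) →ₗ[ℝ]
      (interiorFaces K 2 → MvPolynomial (Fin 3) ℝ) :=
  LinearMap.pi fun e => ∑ i ∈ Finset.range (degree K e.1),
    wq K p r d (cyc e.1 i) (cyc e.1 (i + 1))

theorem PT_apply (r d : ℕ) (q : interiorFaces K 3 → restrictTotalDegree (Fin 3) ℝ d)
    (e : interiorFaces K 2) : PT K cyc p r d q e = ∑ i ∈ Finset.range (degree K e.1),
      wq K p r d (cyc e.1 i) (cyc e.1 (i + 1)) q := by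
  unfold PT
  rw [LinearMap.pi_apply, LinearMap.sum_apply]

theorem lf_deg (f : Finset (Fin N)) : (lf p f).totalDegree ≤ 1 := by
  unfold lf
  split_ifs with h
  · exact totalDegree_pl _ _ _
  · simp

theorem lf_vanish {f : Finset (Fin N)} (hf : f.card = 3) {i : Fin N} (hi : i ∈ f) :
    eval (p i) (lf p f) = 0 := by
  unfold lf
  rw [dif_pos hf]
  obtain ⟨j, rfl⟩ : ∃ j, f.orderEmbOfFin hf j = i := by
    have := Finset.range_orderEmbOfFin f hf
    have h2 : i ∈ Set.range (f.orderEmbOfFin hf) := by rw [this]; exact_mod_cast hi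
    exact h2
  fin_cases j
  · simp only [Fin.zero_eta]
    rw [eval_pl_sub, dt_eq]; simp
  · simp only [Fin.mk_one]
    rw [eval_pl_sub, dt_eq]; ring
  · change eval (p (f.orderEmbOfFin hf 2)) _ = 0
    rw [eval_pl_sub, dt_eq]; ring

theorem lf_eval_ne (hp : Realises K p) {f t : Finset (Fin N)} (hf : f.card = 3) (ht : t ∈ K)
    (hft : f ⊆ t) {i : Fin N} (hi : i ∈ t) (hif : i ∉ f) : eval (p i) (lf p f) ≠ 0 := by
  unfold lf
  rw [dif_pos hf, eval_pl_sub]
  have hm : ∀ j, f.orderEmbOfFin hf j ∈ f := fun j => Finset.orderEmbOfFin_mem f hf j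
  have hinj := (f.orderEmbOfFin hf).injective
  have hne : ∀ a b : Fin 3, a ≠ b → f.orderEmbOfFin hf a ≠ f.orderEmbOfFin hf b :=
    fun a b hab h => hab (hinj h)
  have hni : ∀ j, f.orderEmbOfFin hf j ≠ i := fun j h => hif (h ▸ hm j)
  have := isUnit_cols (affInd4 hp ht (hft (hm 0)) (hft (hm 1)) (hft (hm 2)) hi
    (hne 0 1 (by decide)) (hne 0 2 (by decide)) (hni 0) (hne 1 2 (by decide)) (hni 1) (hni 2))
  exact this.ne_zero

theorem lf_ne_zero (hp : Realises K p) {f t : Finset (Fin N)} (hf : f.card = 3) (ht : t ∈ K)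
    (hft : f ⊆ t) : lf p f ≠ 0 := by
  have hns : ¬ t ⊆ f := by
    intro h
    have := Finset.card_le_card h
    rw [hp.card t ht] at this
    omega
  obtain ⟨i, hi, hif⟩ := Finset.not_subset.mp hns
  intro h
  apply lf_eval_ne hp hf ht hft hi hif
  rw [h, map_zero]

end Pool.Agent.Lib.MP_d2a91d_an
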