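import Pool.Agent.Lib.MP_d2a91d_an.Gen

namespace Pool.Agent.Lib.MP_d2a91d_an

open MvPolynomial

variable {N : ℕ} {K : Finset (Finset (Fin N))} {p : Fin N → Fin 3 → ℝ}
  {cyc : Finset (Fin N) → ℕ → Finset (Fin N)}

/-- Pieces with their quotients. -/
def RR (r k d : ℕ) (K : Finset (Finset (Fin N))) (p : Fin N → Fin 3 → ℝ) :
    Submodule ℝ ((K → MvPolynomial (Fin 3) ℝ) ×
      (interiorFaces K 3 → restrictTotalDegree (Fin 3) ℝ d)) where
  carrier := {x | (∀ t, (x.1 t).totalDegree ≤ k) ∧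
    ∀ s t : K, (s.1 ∩ t.1).card = 3 → x.1 t - x.1 s = wq K p r d s.1 t.1 x.2}
  zero_mem' := ⟨fun t => by simp, fun s t _ => by simp⟩
  add_mem' := by
    rintro x y ⟨hx, hx'⟩ ⟨hy, hy'⟩
    refine ⟨fun t => (totalDegree_add _ _).trans (max_le (hx t) (hy t)), fun s t h => ?_⟩
    rw [Prod.snd_add, map_add, ← hx' s t h, ← hy' s t h, Prod.fst_add, Pi.add_apply, Pi.add_apply]
    ring
  smul_mem' := by
    rintro c x ⟨hx, hx'⟩
    refine ⟨fun t => (totalDegree_smul_le _ _).trans (hx t), fun s t h => ?_⟩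
    rw [Prod.smul_snd, map_smul, ← hx' s t h, Prod.smul_fst, Pi.smul_apply, Pi.smul_apply,
      smul_sub]

/-- The projection of `RR` to `SP` is bijective. -/
theorem finrank_RR_eq_SP (hp : Realises K p) (hcyc : Nice K cyc) (r k d : ℕ)
    (hk : k = d + (r + 1)) :
    Module.finrank ℝ (RR r k d K p) = Module.finrank ℝ (SP r k K p) := by
  have hdvd : ∀ x ∈ RR r k d K p, x.1 ∈ SP r k K p := by
    rintro x ⟨h1, h2⟩
    refine ⟨h1, fun s t h => ?_⟩
    rw [h2 s t h, wq_apply, smul_eq_C_mul]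
    exact Dvd.dvd.mul_left (dvd_mul_right _ _) _
  let f : RR r k d K p →ₗ[ℝ] SP r k K p :=
    ((LinearMap.fst ℝ _ _).restrict hdvd)
  have hf : ∀ x : RR r k d K p, (f x).1 = x.1.1 := fun x => rfl
  have hinj : Function.Injective f := by
    intro x y hxy
    have h1 : x.1.1 = y.1.1 := by rw [← hf x, ← hf y, hxy]
    have h2 : x.1.2 = y.1.2 := by
      funext g
      obtain ⟨s, t, hs, ht, hlt, hst, -⟩ := exists_pair hp.card hcyc.two g.2
      have hc : (s ∩ t).card = 3 := by
        rw [hst]; exact (mem_faces.mp (mem_interiorFaces.mp g.2).1).1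
      have e1 := x.2.2 ⟨s, hs⟩ ⟨t, ht⟩ hc
      have e2 := y.2.2 ⟨s, hs⟩ ⟨t, ht⟩ hc
      rw [h1, e2, wq_apply, wq_apply, sg_lt hlt, one_smul, one_smul] at e1
      have hl := lf_ne_zero (p := p) hp hc hs Finset.inter_subset_left
      have e3 := mul_left_cancel₀ (pow_ne_zero _ hl) e1
      have hmem := inter_mem hp.card hs ht hc
      rw [ext_apply _ hmem, ext_apply _ hmem] at e3
      have hg : (⟨s ∩ t, hmem⟩ : interiorFaces K 3) = g := Subtype.ext hst
      rw [hg] at e3
      exact (Subtype.ext e3).symm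
    exact Subtype.ext (Prod.ext h1 h2)
  have hsurj : Function.Surjective f := by
    rintro ⟨P, hP1, hP2⟩
    have hq : ∀ g : interiorFaces K 3, ∃ q : restrictTotalDegree (Fin 3) ℝ d,
        ∀ s t : K, s.1 ∩ t.1 = g.1 → enc s.1 < enc t.1 →
          P t - P s = lf p g.1 ^ (r + 1) * q.1 := by
      intro g
      obtain ⟨s, t, hs, ht, hlt, hst, hall⟩ := exists_pair hp.card hcyc.two g.2
      have hc : (s ∩ t).card = 3 := by
        rw [hst]; exact (mem_faces.mp (mem_interiorFaces.mp g.2).1).1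
      have hd := hP2 ⟨s, hs⟩ ⟨t, ht⟩ hc
      have hl0 := lf_ne_zero (p := p) hp hc hs Finset.inter_subset_left
      obtain ⟨i, hi⟩ : (s ∩ t).Nonempty := by
        rw [← Finset.card_pos, hc]; norm_num
      have hl := totalDegree_eq_one (lf_deg (p := p) (s ∩ t)) (lf_vanish hc hi) hl0
      obtain ⟨q, hq, he⟩ := exists_quot (d := d) hl hd (by
        rw [← hk]; exact (totalDegree_sub _ _).trans (max_le (hP1 _) (hP1 _)))
      refine ⟨⟨q, hq⟩, ?_⟩
      intro s' t' hst' hlt'
      have hs' := hall s'.1 s'.2 (by rw [← hst']; exact Finset.inter_subset_left)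
      have ht' := hall t'.1 t'.2 (by rw [← hst']; exact Finset.inter_subset_right)
      have e1 : s' = ⟨s, hs⟩ ∧ t' = ⟨t, ht⟩ := by
        rcases hs' with h | h <;> rcases ht' with h' | h'
        · rw [h, h'] at hlt'; exact absurd hlt' (lt_irrefl _)
        · exact ⟨Subtype.ext h, Subtype.ext h'⟩
        · rw [h, h'] at hlt'; exact absurd hlt' hlt.le.not_gt
        · rw [h, h'] at hlt'; exact absurd hlt' (lt_irrefl _)
      rw [e1.1, e1.2, ← hst]
      exact he
    choose q hq using hq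
    refine ⟨⟨(P, q), hP1, ?_⟩, rfl⟩
    intro s t hc
    have hmem := inter_mem hp.card s.2 t.2 hc
    have hne := ne_of_adj (hp.card s.1 s.2) hc
    rcases lt_trichotomy (enc s.1) (enc t.1) with h | h | h
    · change P t - P s = wq K p r d s.1 t.1 q
      rw [wq_apply, sg_lt h, one_smul, ext_apply _ hmem]
      exact hq ⟨_, hmem⟩ s t rfl h
    · exact absurd (enc_inj h) hne
    · change P t - P s = wq K p r d s.1 t.1 q
      rw [wq_neg, wq_apply, sg_lt h, one_smul]
      have hmem' : t.1 ∩ s.1 ∈ interiorFaces K 3 := by rw [Finset.inter_comm]; exact hmem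
      rw [ext_apply _ hmem', ← hq ⟨_, hmem'⟩ t s rfl h]
      ring
  exact (LinearEquiv.ofBijective f ⟨hinj, hsurj⟩).finrank_eq

/-- The pieces, extended by zero. -/
noncomputable def exK (P : K → MvPolynomial (Fin 3) ℝ) (t : Finset (Fin N)) :
    MvPolynomial (Fin 3) ℝ := if h : t ∈ K then P ⟨t, h⟩ else 0

/-- Data of pieces are closed. -/
theorem mem_ker_of_RR (hcyc : Nice K cyc) {r k d : ℕ}
    {x : (K → MvPolynomial (Fin 3) ℝ) × (interiorFaces K 3 → restrictTotalDegree (Fin 3) ℝ d)}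
    (hx : x ∈ RR r k d K p) : x.2 ∈ LinearMap.ker (PT K cyc p r d) := by
  rw [LinearMap.mem_ker]
  funext e
  rw [PT_apply]
  have hmem : ∀ i ≤ degree K e.1, cyc e.1 i ∈ K := by
    intro i hi
    rcases hi.lt_or_eq with h | h
    · exact (hcyc.mem e.1 e.2 i h).1
    · rw [h, hcyc.close e.1 e.2]
      exact (hcyc.mem e.1 e.2 0 (by have := hcyc.three e.1 e.2; omega)).1
  have h1 : ∀ i ∈ Finset.range (degree K e.1),
      wq K p r d (cyc e.1 i) (cyc e.1 (i + 1)) x.2 =
        exK x.1 (cyc e.1 (i + 1)) - exK x.1 (cyc e.1 i) := by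
    intro i hi
    rw [Finset.mem_range] at hi
    have m1 := hmem i hi.le
    have m2 := hmem (i + 1) hi
    have := hx.2 ⟨_, m1⟩ ⟨_, m2⟩ (hcyc.adj e.1 e.2 i hi)
    rw [← this]
    unfold exK
    rw [dif_pos m1, dif_pos m2]
  rw [Finset.sum_congr rfl h1, Finset.sum_range_sub (fun i => exK x.1 (cyc e.1 i)),
    hcyc.close e.1 e.2, sub_self]
  rfl

theorem const_of_chain (hcyc : Nice K cyc) (P : K → MvPolynomial (Fin 3) ℝ)
    (h : ∀ s t : K, (s.1 ∩ t.1).card = 3 → P t = P s) (s t : K) : P s = P t := by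
  have hchain := hcyc.star s.1 s.2 t.1 t.2
  have key : ∀ b, Relation.ReflTransGen
      (fun a b => b ∈ K ∧ (a ∩ b).card = 3 ∧ s.1 ∩ t.1 ⊆ b) s.1 b →
      ∃ hb : b ∈ K, P ⟨b, hb⟩ = P s := by
    intro b hb
    induction hb with
    | refl => exact ⟨s.2, rfl⟩
    | tail _ hbc ih =>
      obtain ⟨hb', e⟩ := ih
      exact ⟨hbc.1, (h ⟨_, hb'⟩ ⟨_, hbc.1⟩ hbc.2.1).trans e⟩
  obtain ⟨ht, e⟩ := key t.1 hchain
  exact e.symm

/-- The dimension of the algebraic spline space. -/
theorem finrank_SP (hp : Realises K p) (hne : K.Nonempty) (hcyc : Nice K cyc) (r k d : ℕ)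
    (hk : k = d + (r + 1)) :
    Module.finrank ℝ (SP r k K p) = Module.finrank ℝ (restrictTotalDegree (Fin 3) ℝ k) +
      Module.finrank ℝ (LinearMap.ker (PT K cyc p r d)) := by
  rw [← finrank_RR_eq_SP hp hcyc r k d hk]
  obtain ⟨t0, ht0⟩ := hne
  -- the map to the first piece and the data
  let f : RR r k d K p →ₗ[ℝ]
      (restrictTotalDegree (Fin 3) ℝ k × LinearMap.ker (PT K cyc p r d)) :=
    { toFun := fun x => (⟨x.1.1 ⟨t0, ht0⟩, (mem_restrictTotalDegree _ _ _).mpr (x.2.1 _)⟩,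
        ⟨x.1.2, mem_ker_of_RR hcyc x.2⟩)
      map_add' := fun x y => rfl
      map_smul' := fun c x => rfl }
  have hinj : Function.Injective f := by
    intro x y hxy
    have h1 : x.1.1 ⟨t0, ht0⟩ = y.1.1 ⟨t0, ht0⟩ := congrArg (fun z => z.1.1) hxy
    have h2 : x.1.2 = y.1.2 := congrArg (fun z => z.2.1) hxy
    have h3 : x.1.1 = y.1.1 := by
      funext t
      have := const_of_chain hcyc (fun t => x.1.1 t - y.1.1 t) (fun s t hc => by
        have e1 := x.2.2 s t hc
        have e2 := y.2.2 s t hc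
        rw [h2] at e1
        show x.1.1 t - y.1.1 t = x.1.1 s - y.1.1 s
        linear_combination e1 - e2) t ⟨t0, ht0⟩
      have h4 : x.1.1 t - y.1.1 t = x.1.1 ⟨t0, ht0⟩ - y.1.1 ⟨t0, ht0⟩ := this
      rw [h1, sub_self] at h4
      exact sub_eq_zero.mp h4
    exact Subtype.ext (Prod.ext h3 h2)
  have hsurj : Function.Surjective f := by
    rintro ⟨P0, ⟨q, hq⟩⟩
    have hw : ∀ s t : Finset (Fin N),
        (wq K p r d s t q) ∈ restrictTotalDegree (Fin 3) ℝ k := by
      intro s t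
      rw [wq_apply]
      refine Submodule.smul_mem _ _ ?_
      rw [mem_restrictTotalDegree]
      refine (totalDegree_mul _ _).trans ?_
      have h1 : (lf p (s ∩ t) ^ (r + 1)).totalDegree ≤ (r + 1) * 1 :=
        (totalDegree_pow _ _).trans (Nat.mul_le_mul_left _ (lf_deg _))
      have h2 := ext_mem q (s ∩ t)
      omega
    obtain ⟨u, hu⟩ := hcyc.exact (restrictTotalDegree (Fin 3) ℝ k)
      (fun s t => ⟨wq K p r d s t q, hw s t⟩)
      (fun s t => Subtype.ext (wq_neg r d s t q))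
      (fun e he => by
        have := congrFun (LinearMap.mem_ker.mp hq) ⟨e, he⟩
        rw [PT_apply] at this
        refine Subtype.ext ?_
        rw [AddSubmonoidClass.coe_finsetSum]
        exact this)
    refine ⟨⟨(fun t => (u t.1).1 - (u t0).1 + P0.1, q), ?_, ?_⟩, ?_⟩
    · intro t
      have h1 := (mem_restrictTotalDegree _ _ _).mp (u t.1).2
      have h2 := (mem_restrictTotalDegree _ _ _).mp (u t0).2
      have h3 := (mem_restrictTotalDegree _ _ _).mp P0.2
      exact (totalDegree_add _ _).trans (max_le ((totalDegree_sub _ _).trans (max_le h1 h2)) h3)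
    · intro s t hc
      have := congrArg Subtype.val (hu s.1 s.2 t.1 t.2 hc)
      change wq K p r d s.1 t.1 q = (u t.1).1 - (u s.1).1 at this
      change ((u t.1).1 - (u t0).1 + P0.1) - ((u s.1).1 - (u t0).1 + P0.1) = _
      rw [this]
      ring
    · refine Prod.ext (Subtype.ext ?_) (Subtype.ext rfl)
      change (u t0).1 - (u t0).1 + P0.1 = P0.1
      ring
  rw [(LinearEquiv.ofBijective f ⟨hinj, hsurj⟩).finrank_eq]
  have hfree : Module.Free ℝ (LinearMap.ker (PT K cyc p r d)) :=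
    @Module.Free.of_divisionRing ℝ _ _ (Submodule.addCommGroup _) _
  rw [Module.finrank_prod]

end Pool.Agent.Lib.MP_d2a91d_an
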