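import Pool.Agent.Lib.MP_d2a91d_an.Gen2

namespace Pool.Agent.Lib.MP_d2a91d_an

open MvPolynomial

variable {N : ℕ} {K : Finset (Finset (Fin N))} {p : Fin N → Fin 3 → ℝ}
  {cyc : Finset (Fin N) → ℕ → Finset (Fin N)}

/-- The triangles around an interior edge. -/
def fi (cyc : Finset (Fin N) → ℕ → Finset (Fin N)) (e : Finset (Fin N)) (i : ℕ) :
    Finset (Fin N) := cyc e i ∩ cyc e (i + 1)

/-- The planes around an interior edge. -/
noncomputable def le (K : Finset (Finset (Fin N))) (cyc : Finset (Fin N) → ℕ → Finset (Fin N))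
    (p : Fin N → Fin 3 → ℝ) (e : Finset (Fin N)) :
    Fin (degree K e) → MvPolynomial (Fin 3) ℝ := fun i => lf p (fi cyc e i)

theorem cyc_mem (hcyc : Nice K cyc) {e : Finset (Fin N)} (he : e ∈ interiorFaces K 2) {i : ℕ}
    (hi : i ≤ degree K e) : cyc e i ∈ K ∧ e ⊆ cyc e i := by
  rcases hi.lt_or_eq with h | h
  · exact hcyc.mem e he i h
  · rw [h, hcyc.close e he]
    exact hcyc.mem e he 0 (by have := hcyc.three e he; omega)

theorem fi_card (hcyc : Nice K cyc) {e : Finset (Fin N)} (he : e ∈ interiorFaces K 2) {i : ℕ}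
    (hi : i < degree K e) : (fi cyc e i).card = 3 := hcyc.adj e he i hi

theorem sub_fi (hcyc : Nice K cyc) {e : Finset (Fin N)} (he : e ∈ interiorFaces K 2) {i : ℕ}
    (hi : i < degree K e) : e ⊆ fi cyc e i :=
  Finset.subset_inter (cyc_mem hcyc he hi.le).2 (cyc_mem hcyc he hi).2

theorem fi_mem (hcard : ∀ t ∈ K, t.card = 4) (hcyc : Nice K cyc) {e : Finset (Fin N)}
    (he : e ∈ interiorFaces K 2) {i : ℕ} (hi : i < degree K e) :
    fi cyc e i ∈ interiorFaces K 3 :=
  inter_mem hcard (cyc_mem hcyc he hi.le).1 (cyc_mem hcyc he hi).1 (hcyc.adj e he i hi)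

theorem fi_inj (hcard : ∀ t ∈ K, t.card = 4) (hcyc : Nice K cyc) {e : Finset (Fin N)}
    (he : e ∈ interiorFaces K 2) {i j : ℕ} (hi : i < degree K e) (hj : j < degree K e)
    (h : fi cyc e i = fi cyc e j) : i = j := by
  have main : ∀ i j, i < j → j < degree K e → fi cyc e i = fi cyc e j → False := by
    intro i j hij hj h
    have hi : i < degree K e := hij.trans hj
    obtain ⟨s, t, hs, ht, hlt, hst, hall⟩ := exists_pair hcard hcyc.two (fi_mem hcard hcyc he hi)
    have a1 := hall _ (cyc_mem hcyc he hi.le).1 Finset.inter_subset_left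
    have a2 := hall _ (cyc_mem hcyc he hi).1 Finset.inter_subset_right
    have a3 := hall (cyc e j) (cyc_mem hcyc he hj.le).1
      (by rw [h]; exact Finset.inter_subset_left)
    have a4 := hall (cyc e (j + 1)) (cyc_mem hcyc he hj).1
      (by rw [h]; exact Finset.inter_subset_right)
    have n1 : cyc e i ≠ cyc e (i + 1) :=
      ne_of_adj (hcard _ (cyc_mem hcyc he hi.le).1) (hcyc.adj e he i hi)
    have n2 : cyc e j ≠ cyc e (j + 1) :=
      ne_of_adj (hcard _ (cyc_mem hcyc he hj.le).1) (hcyc.adj e he j hj)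
    have n3 : cyc e i ≠ cyc e j := fun hc => absurd (hcyc.inj e he i j hi hj hc) hij.ne
    have n4 : cyc e (i + 1) = cyc e j := by
      rcases a1 with h1 | h1 <;> rcases a2 with h2 | h2 <;> rcases a3 with h3 | h3
      · exact absurd (h1.trans h2.symm) n1
      · exact absurd (h1.trans h2.symm) n1
      · exact absurd (h1.trans h3.symm) n3
      · exact h2.trans h3.symm
      · exact h2.trans h3.symm
      · exact absurd (h1.trans h3.symm) n3
      · exact absurd (h1.trans h2.symm) n1
      · exact absurd (h1.trans h2.symm) n1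
    have n5 : i + 1 = j := hcyc.inj e he _ _ (by omega) hj n4
    have n6 : cyc e (j + 1) = cyc e i := by
      rcases a1 with h1 | h1 <;> rcases a3 with h3 | h3 <;> rcases a4 with h4 | h4
      · exact h4.trans h1.symm
      · exact absurd (h1.trans h3.symm) n3
      · exact h4.trans h1.symm
      · exact absurd (h3.trans h4.symm) n2
      · exact absurd (h3.trans h4.symm) n2
      · exact h4.trans h1.symm
      · exact absurd (h1.trans h3.symm) n3
      · exact h4.trans h1.symm
    have h3 := hcyc.three e he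
    rcases Nat.lt_or_ge (j + 1) (degree K e) with hlt' | hge
    · have := hcyc.inj e he _ _ hlt' hi n6
      omega
    · have hj1 : j + 1 = degree K e := by omega
      rw [hj1, hcyc.close e he] at n6
      have := hcyc.inj e he 0 i (by omega) hi n6
      omega
  rcases lt_trichotomy i j with h' | h' | h'
  · exact (main i j h' hj h).elim
  · exact h'
  · exact (main j i h' hi h.symm).elim

/-- Every tetrahedron at an interior edge occurs in its cycle. -/
theorem cyc_surj (hcyc : Nice K cyc) {e : Finset (Fin N)} (he : e ∈ interiorFaces K 2)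
    {t : Finset (Fin N)} (ht : t ∈ K) (het : e ⊆ t) : ∃ i < degree K e, cyc e i = t := by
  have hsub : (Finset.range (degree K e)).image (cyc e) ⊆ K.filter (fun t => e ⊆ t) := by
    intro u hu
    obtain ⟨i, hi, rfl⟩ := Finset.mem_image.mp hu
    rw [Finset.mem_range] at hi
    exact Finset.mem_filter.mpr (hcyc.mem e he i hi)
  have hcard : (Finset.range (degree K e)).card = degree K e := Finset.card_range _
  have himg : ((Finset.range (degree K e)).image (cyc e)).card = degree K e := by
    rw [Finset.card_image_of_injOn, hcard]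
    intro i hi j hj hij
    rw [Finset.mem_coe, Finset.mem_range] at hi hj
    exact hcyc.inj e he i j hi hj hij
  have heq := Finset.eq_of_subset_of_card_le hsub (by rw [himg]; exact le_rfl)
  have : t ∈ (Finset.range (degree K e)).image (cyc e) := by
    rw [heq]; exact Finset.mem_filter.mpr ⟨ht, het⟩
  obtain ⟨i, hi, h⟩ := Finset.mem_image.mp this
  exact ⟨i, Finset.mem_range.mp hi, h⟩

/-- Every triangle at an interior edge occurs in its cycle. -/
theorem fi_surj (hcard : ∀ t ∈ K, t.card = 4) (hcyc : Nice K cyc) {e : Finset (Fin N)}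
    (he : e ∈ interiorFaces K 2) {f : Finset (Fin N)} (hf : f ∈ faces K 3) (hef : e ⊆ f) :
    ∃ i < degree K e, fi cyc e i = f := by
  obtain ⟨hf3, t, ht, hft⟩ := mem_faces.mp hf
  have he2 : e.card = 2 := (mem_faces.mp (mem_interiorFaces.mp he).1).1
  obtain ⟨i, hi, hit⟩ := cyc_surj hcyc he ht (hef.trans hft)
  have h3 := hcyc.three e he
  -- the previous index
  obtain ⟨j, hj, hjt, hji⟩ : ∃ j < degree K e, cyc e (j + 1) = t ∧ j ≠ i := by
    rcases Nat.eq_zero_or_pos i with h0 | h0
    · refine ⟨degree K e - 1, by omega, ?_, by omega⟩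
      have : degree K e - 1 + 1 = degree K e := by omega
      rw [this, hcyc.close e he, ← hit, h0]
    · refine ⟨i - 1, by omega, ?_, by omega⟩
      have : i - 1 + 1 = i := by omega
      rw [this, hit]
  have g1 : fi cyc e i ⊆ t := by rw [← hit]; exact Finset.inter_subset_left
  have g2 : fi cyc e j ⊆ t := by rw [← hjt]; exact Finset.inter_subset_right
  have hne : fi cyc e j ≠ fi cyc e i := fun hc => hji (fi_inj hcard hcyc he hj hi hc)
  -- a triangle between `e` and `t` is `insert x e`
  have hform : ∀ g : Finset (Fin N), e ⊆ g → g ⊆ t → g.card = 3 →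
      ∃ x ∈ t \ e, g = insert x e := by
    intro g heg hgt hg
    have h1 : (g \ e).card = 1 := by
      rw [Finset.card_sdiff_of_subset heg, hg, he2]
    obtain ⟨x, hx⟩ := Finset.card_eq_one.mp h1
    have hxg : x ∈ g \ e := by rw [hx]; simp
    rw [Finset.mem_sdiff] at hxg
    refine ⟨x, Finset.mem_sdiff.mpr ⟨hgt hxg.1, hxg.2⟩, ?_⟩
    have : g = e ∪ (g \ e) := (Finset.union_sdiff_of_subset heg).symm
    rw [this, hx]
    ext y; simp
  have ht2 : (t \ e).card = 2 := by
    rw [Finset.card_sdiff_of_subset (hef.trans hft), hcard t ht, he2]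
  obtain ⟨x, y, hxy, hte⟩ := Finset.card_eq_two.mp ht2
  obtain ⟨a, ha, hfa⟩ := hform f hef hft hf3
  obtain ⟨b, hb, hfb⟩ := hform _ (sub_fi hcyc he hi) g1 (fi_card hcyc he hi)
  obtain ⟨c, hc, hfc⟩ := hform _ (sub_fi hcyc he hj) g2 (fi_card hcyc he hj)
  rw [hte, Finset.mem_insert, Finset.mem_singleton] at ha hb hc
  have hbc : c ≠ b := fun h => hne (by rw [hfc, hfb, h])
  have : a = b ∨ a = c := by
    rcases ha with rfl | rfl <;> rcases hb with rfl | rfl <;> rcases hc with rfl | rfl
    all_goals first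
      | exact Or.inl rfl
      | exact Or.inr rfl
      | exact absurd rfl hbc
  rcases this with h | h
  · exact ⟨i, hi, by rw [hfb, hfa, h]⟩
  · exact ⟨j, hj, by rw [hfc, hfa, h]⟩

theorem le_deg (e : Finset (Fin N)) (i : Fin (degree K e)) :
    (le K cyc p e i).totalDegree ≤ 1 := lf_deg _

theorem le_vanish (hcyc : Nice K cyc) {e : Finset (Fin N)} (he : e ∈ interiorFaces K 2)
    (i : Fin (degree K e)) {v : Fin N} (hv : v ∈ e) : eval (p v) (le K cyc p e i) = 0 :=
  lf_vanish (fi_card hcyc he i.2) (sub_fi hcyc he i.2 hv)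

theorem le_ne_zero (hp : Realises K p) (hcyc : Nice K cyc) {e : Finset (Fin N)}
    (he : e ∈ interiorFaces K 2) (i : Fin (degree K e)) : le K cyc p e i ≠ 0 :=
  lf_ne_zero hp (fi_card hcyc he i.2) (cyc_mem hcyc he i.2.le).1 Finset.inter_subset_left

/-- The two end points of an interior edge. -/
theorem exists_ends (hp : Realises K p) {e : Finset (Fin N)} (he : e ∈ interiorFaces K 2) :
    ∃ u ∈ e, ∃ v ∈ e, p u ≠ p v := by
  obtain ⟨he2, t, ht, het⟩ := mem_faces.mp (mem_interiorFaces.mp he).1
  obtain ⟨u, v, huv, rfl⟩ := Finset.card_eq_two.mp he2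
  refine ⟨u, by simp, v, by simp, fun h => huv ?_⟩
  have hu : u ∈ t := het (by simp)
  have hv : v ∈ t := het (by simp)
  have := (hp.nondeg t ht).injective (a₁ := ⟨u, hu⟩) (a₂ := ⟨v, hv⟩) h
  exact congrArg Subtype.val this

/-- The value of the closing condition, through `Phi`. -/
theorem PT_eq_Phi (hcard : ∀ t ∈ K, t.card = 4) (hcyc : Nice K cyc) (r d : ℕ)
    (q : interiorFaces K 3 → restrictTotalDegree (Fin 3) ℝ d) (e : interiorFaces K 2) :
    PT K cyc p r d q e = Phi r d (le K cyc p e.1) (fun i =>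
      sg (cyc e.1 i) (cyc e.1 (i + 1)) •
        q ⟨fi cyc e.1 i, fi_mem hcard hcyc e.2 i.2⟩) := by
  rw [PT_apply, Phi_apply, Finset.sum_range]
  refine Finset.sum_congr rfl fun i _ => ?_
  rw [wq_apply]
  have := ext_apply q (fi_mem hcard hcyc e.2 i.2)
  unfold fi at this
  rw [this]
  unfold le fi
  rw [Submodule.coe_smul, mul_smul_comm]

/-- The map from the range of the closing conditions to the product of the ranges. -/
noncomputable def toProd (hcard : ∀ t ∈ K, t.card = 4) (hcyc : Nice K cyc)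
    (p : Fin N → Fin 3 → ℝ) (r d : ℕ) :
    LinearMap.range (PT K cyc p r d) →ₗ[ℝ]
      (∀ e : interiorFaces K 2, LinearMap.range (Phi r d (le K cyc p e.1))) where
  toFun x e := ⟨x.1 e, by
    obtain ⟨q, hq⟩ := x.2
    rw [← hq, PT_eq_Phi hcard hcyc]
    exact LinearMap.mem_range_self _ _⟩
  map_add' x y := rfl
  map_smul' c x := rfl

theorem toProd_inj (hcard : ∀ t ∈ K, t.card = 4) (hcyc : Nice K cyc)
    (p : Fin N → Fin 3 → ℝ) (r d : ℕ) : Function.Injective (toProd hcard hcyc p r d) := by
  intro x y hxy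
  refine Subtype.ext ?_
  funext e
  exact congrArg Subtype.val (congrFun hxy e)

theorem finrank_range_PT_le (hcard : ∀ t ∈ K, t.card = 4) (hcyc : Nice K cyc)
    (p : Fin N → Fin 3 → ℝ) (r d : ℕ) :
    Module.finrank ℝ (LinearMap.range (PT K cyc p r d)) ≤
      ∑ e : interiorFaces K 2, Module.finrank ℝ (LinearMap.range (Phi r d (le K cyc p e.1))) := by
  have := LinearMap.finrank_le_finrank_of_injective (toProd_inj hcard hcyc p r d)
  rwa [Module.finrank_pi_fintype] at this

theorem finrank_ker_PT (K : Finset (Finset (Fin N)))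
    (cyc : Finset (Fin N) → ℕ → Finset (Fin N)) (p : Fin N → Fin 3 → ℝ) (r d : ℕ) :
    Module.finrank ℝ (LinearMap.ker (PT K cyc p r d)) +
      Module.finrank ℝ (LinearMap.range (PT K cyc p r d)) =
      (interiorFaces K 3).card * Module.finrank ℝ (restrictTotalDegree (Fin 3) ℝ d) := by
  rw [add_comm, LinearMap.finrank_range_add_finrank_ker, Module.finrank_pi_fintype]
  simp

/-- (1) The lower bound. -/
theorem part_one (hL1 : StL1) (hp : Realises K p) (hne : K.Nonempty) (hcyc : Nice K cyc)
    (r k d : ℕ) (hk : k = d + (r + 1)) :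
    Module.finrank ℝ (restrictTotalDegree (Fin 3) ℝ k) +
      (interiorFaces K 3).card * Module.finrank ℝ (restrictTotalDegree (Fin 3) ℝ d) ≤
    Module.finrank ℝ (SP r k K p) + ∑ e ∈ interiorFaces K 2, lam (degree K e) r d := by
  have h1 := finrank_SP hp hne hcyc r k d hk
  have h2 := finrank_ker_PT K cyc p r d
  have h3 := finrank_range_PT_le hp.card hcyc p r d
  have h4 : ∑ e : interiorFaces K 2,
      Module.finrank ℝ (LinearMap.range (Phi r d (le K cyc p e.1))) ≤
      ∑ e ∈ interiorFaces K 2, lam (degree K e) r d := by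
    rw [← Finset.sum_coe_sort (interiorFaces K 2) (fun e => lam (degree K e) r d)]
    refine Finset.sum_le_sum fun e _ => ?_
    obtain ⟨u, hu, v, hv, huv⟩ := exists_ends hp e.2
    exact hL1 _ r d _ (p u) (p v) huv (fun i => le_deg _ _)
      (fun i => ⟨le_vanish hcyc e.2 i hu, le_vanish hcyc e.2 i hv⟩)
  omega

end Pool.Agent.Lib.MP_d2a91d_an
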