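import Pool.Agent.Lib.MP_d2a91d_an.Gen3
import Pool.Agent.Lib.MP_d2a91d_an.ClaimX

namespace Pool.Agent.Lib.MP_d2a91d_an

open MvPolynomial

variable {N : ℕ} {K : Finset (Finset (Fin N))} {p : Fin N → Fin 3 → ℝ}
  {cyc : Finset (Fin N) → ℕ → Finset (Fin N)}

/-- No triangle contains two interior edges. -/
def Sep (K : Finset (Finset (Fin N))) : Prop :=
  ∀ f ∈ faces K 3, ∀ e ∈ interiorFaces K 2, ∀ e' ∈ interiorFaces K 2, e ⊆ f → e' ⊆ f → e = e'

theorem sg_mul_self {s t : Finset (Fin N)} (h : s ≠ t) : sg s t * sg s t = 1 := by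
  rcases sg_ne h with h' | h' <;> rw [h'] <;> norm_num

/-- If no triangle contains two interior edges, the closing conditions are independent. -/
theorem toProd_surj (hcard : ∀ t ∈ K, t.card = 4) (hcyc : Nice K cyc) (hsep : Sep K)
    (p : Fin N → Fin 3 → ℝ) (r d : ℕ) : Function.Surjective (toProd hcard hcyc p r d) := by
  classical
  intro y
  have hx : ∀ e : interiorFaces K 2, ∃ x, Phi r d (le K cyc p e.1) x = (y e).1 :=
    fun e => (y e).2
  choose x hx using hx
  let Y : Finset (Fin N) → ℕ → restrictTotalDegree (Fin 3) ℝ d := fun e i =>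
    if h : ∃ he : e ∈ interiorFaces K 2, i < degree K e then x ⟨e, h.choose⟩ ⟨i, h.choose_spec⟩
    else 0
  have hY : ∀ (e : interiorFaces K 2) (i : Fin (degree K e.1)), Y e.1 i = x e i := by
    intro e i
    have h : ∃ he : e.1 ∈ interiorFaces K 2, i.1 < degree K e.1 := ⟨e.2, i.2⟩
    exact dif_pos h
  let q : interiorFaces K 3 → restrictTotalDegree (Fin 3) ℝ d := fun f =>
    if h : ∃ ei : Finset (Fin N) × ℕ, ei.1 ∈ interiorFaces K 2 ∧ ei.2 < degree K ei.1 ∧
        fi cyc ei.1 ei.2 = f.1 then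
      sg (cyc h.choose.1 h.choose.2) (cyc h.choose.1 (h.choose.2 + 1)) •
        Y h.choose.1 h.choose.2
    else 0
  have hq : ∀ (e : interiorFaces K 2) (i : Fin (degree K e.1)),
      q ⟨fi cyc e.1 i, fi_mem hcard hcyc e.2 i.2⟩ =
        sg (cyc e.1 i) (cyc e.1 (i + 1)) • x e i := by
    intro e i
    have h : ∃ ei : Finset (Fin N) × ℕ, ei.1 ∈ interiorFaces K 2 ∧ ei.2 < degree K ei.1 ∧
        fi cyc ei.1 ei.2 = fi cyc e.1 i := ⟨(e.1, i.1), e.2, i.2, rfl⟩
    have h1 : q ⟨fi cyc e.1 i, fi_mem hcard hcyc e.2 i.2⟩ =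
      sg (cyc h.choose.1 h.choose.2) (cyc h.choose.1 (h.choose.2 + 1)) •
        Y h.choose.1 h.choose.2 := dif_pos h
    have key : ∀ ei : Finset (Fin N) × ℕ, ei.1 ∈ interiorFaces K 2 ∧ ei.2 < degree K ei.1 ∧
        fi cyc ei.1 ei.2 = fi cyc e.1 i → ei.1 = e.1 ∧ ei.2 = i.1 := by
      rintro ⟨a, b⟩ ⟨k1, k2, k3⟩
      have k4 : a = e.1 := by
        refine hsep (fi cyc e.1 i) (mem_interiorFaces.mp (fi_mem hcard hcyc e.2 i.2)).1 _
          k1 _ e.2 ?_ (sub_fi hcyc e.2 i.2)
        have := sub_fi hcyc k1 k2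
        rwa [k3] at this
      refine ⟨k4, ?_⟩
      change b < degree K a at k2
      change fi cyc a b = _ at k3
      rw [k4] at k2 k3
      exact fi_inj hcard hcyc e.2 k2 i.2 k3
    obtain ⟨h2, h3⟩ := key h.choose h.choose_spec
    rw [h1, h2, h3, hY]
  refine ⟨⟨PT K cyc p r d q, LinearMap.mem_range_self _ _⟩, ?_⟩
  funext e
  refine Subtype.ext ?_
  change PT K cyc p r d q e = (y e).1
  rw [PT_eq_Phi hcard hcyc, ← hx e]
  congr 1
  funext i
  rw [hq e i, smul_smul, sg_mul_self, one_smul]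
  exact ne_of_adj (hcard _ (cyc_mem hcyc e.2 i.2.le).1) (hcyc.adj e.1 e.2 i.1 i.2)

theorem finrank_range_PT_eq (hcard : ∀ t ∈ K, t.card = 4) (hcyc : Nice K cyc) (hsep : Sep K)
    (p : Fin N → Fin 3 → ℝ) (r d : ℕ) :
    Module.finrank ℝ (LinearMap.range (PT K cyc p r d)) =
      ∑ e : interiorFaces K 2, Module.finrank ℝ (LinearMap.range (Phi r d (le K cyc p e.1))) := by
  have := (LinearEquiv.ofBijective (toProd hcard hcyc p r d)
    ⟨toProd_inj hcard hcyc p r d, toProd_surj hcard hcyc hsep p r d⟩).finrank_eq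
  rwa [Module.finrank_pi_fintype] at this

/-- The planes at an interior edge are pairwise distinct. -/
def DistinctAt (K : Finset (Finset (Fin N))) (p : Fin N → Fin 3 → ℝ) (e : Finset (Fin N)) : Prop :=
  ∀ f ∈ faces K 3, ∀ g ∈ faces K 3, e ⊆ f → e ⊆ g → f ≠ g →
    AffineIndependent ℝ (fun i : (f ∪ g : Finset (Fin N)) => p i)

/-- Two triangles in different planes have non-proportional equations. -/
theorem lf_not_prop {f g : Finset (Fin N)} (hf : f.card = 3) (hg : g.card = 3) (hfg : f ≠ g)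
    (h : AffineIndependent ℝ (fun i : (f ∪ g : Finset (Fin N)) => p i)) :
    ¬ ∃ c c' : ℝ, c ≠ 0 ∧ c • lf p f = c' • lf p g := by
  rintro ⟨c, c', hc, he⟩
  have hns : ¬ g ⊆ f := by
    intro hs
    exact hfg (Finset.eq_of_subset_of_card_le hs (by rw [hf, hg])).symm
  obtain ⟨v, hv, hvf⟩ := Finset.not_subset.mp hns
  have h1 : eval (p v) (lf p f) ≠ 0 := by
    unfold lf
    rw [dif_pos hf, eval_pl_sub]
    have hm : ∀ j, f.orderEmbOfFin hf j ∈ f := fun j => Finset.orderEmbOfFin_mem f hf j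
    have hinj := (f.orderEmbOfFin hf).injective
    have hne : ∀ a b : Fin 3, a ≠ b → f.orderEmbOfFin hf a ≠ f.orderEmbOfFin hf b :=
      fun a b hab h => hab (hinj h)
    have hni : ∀ j, f.orderEmbOfFin hf j ≠ v := fun j h => hvf (h ▸ hm j)
    have hmu : ∀ j, f.orderEmbOfFin hf j ∈ f ∪ g := fun j => Finset.mem_union_left _ (hm j)
    have hvu : v ∈ f ∪ g := Finset.mem_union_right _ hv
    have hinj4 : Function.Injective
        (![⟨_, hmu 0⟩, ⟨_, hmu 1⟩, ⟨_, hmu 2⟩, ⟨v, hvu⟩] : Fin 4 → (f ∪ g : Finset (Fin N))) := by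
      intro a b hab
      have hab' := congrArg Subtype.val hab
      have n01 := hne 0 1 (by decide)
      have n02 := hne 0 2 (by decide)
      have n12 := hne 1 2 (by decide)
      have n03 := hni 0
      have n13 := hni 1
      have n23 := hni 2
      fin_cases a <;> fin_cases b <;> first
        | rfl
        | (exfalso; first
            | exact n01 hab' | exact n02 hab' | exact n03 hab' | exact n12 hab' | exact n13 hab'
            | exact n23 hab' | exact n01 hab'.symm | exact n02 hab'.symm | exact n03 hab'.symm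
            | exact n12 hab'.symm | exact n13 hab'.symm | exact n23 hab'.symm)
    have h4 := h.comp_embedding ⟨_, hinj4⟩
    have h5 : AffineIndependent ℝ ![p (f.orderEmbOfFin hf 0), p (f.orderEmbOfFin hf 1),
        p (f.orderEmbOfFin hf 2), p v] := by
      convert h4 using 1
      funext i
      fin_cases i <;> rfl
    exact (isUnit_cols h5).ne_zero
  have h2 := congrArg (eval (p v)) he
  rw [smul_eval, smul_eval, lf_vanish hg hv, mul_zero] at h2
  exact (mul_ne_zero hc h1) h2

/-- (2) Equality. -/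
theorem part_two (hL3 : StL3) (hp : Realises K p) (hne : K.Nonempty) (hcyc : Nice K cyc)
    (hsep : Sep K) (hdist : ∀ e ∈ interiorFaces K 2, DistinctAt K p e)
    (r k d : ℕ) (hk : k = d + (r + 1)) :
    Module.finrank ℝ (restrictTotalDegree (Fin 3) ℝ k) +
      (interiorFaces K 3).card * Module.finrank ℝ (restrictTotalDegree (Fin 3) ℝ d) =
    Module.finrank ℝ (SP r k K p) + ∑ e ∈ interiorFaces K 2, lam (degree K e) r d := by
  have h1 := finrank_SP hp hne hcyc r k d hk
  have h2 := finrank_ker_PT K cyc p r d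
  have h3 := finrank_range_PT_eq hp.card hcyc hsep p r d
  have h4 : ∑ e : interiorFaces K 2,
      Module.finrank ℝ (LinearMap.range (Phi r d (le K cyc p e.1))) =
      ∑ e ∈ interiorFaces K 2, lam (degree K e) r d := by
    rw [← Finset.sum_coe_sort (interiorFaces K 2) (fun e => lam (degree K e) r d)]
    refine Finset.sum_congr rfl fun e _ => ?_
    obtain ⟨u, hu, v, hv, huv⟩ := exists_ends hp e.2
    refine hL3 _ r d _ (p u) (p v) huv (fun i => le_deg _ _)
      (fun i => ⟨le_vanish hcyc e.2 i hu, le_vanish hcyc e.2 i hv⟩) ?_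
      (fun i => le_ne_zero hp hcyc e.2 i)
    rintro ⟨i, j, hij, c, c', hc, he⟩
    have hfij : fi cyc e.1 i ≠ fi cyc e.1 j := fun h =>
      hij (Fin.ext (fi_inj hp.card hcyc e.2 i.2 j.2 h))
    exact lf_not_prop (fi_card hcyc e.2 i.2) (fi_card hcyc e.2 j.2) hfij
      (hdist e.1 e.2 _ (mem_interiorFaces.mp (fi_mem hp.card hcyc e.2 i.2)).1 _
        (mem_interiorFaces.mp (fi_mem hp.card hcyc e.2 j.2)).1 (sub_fi hcyc e.2 i.2)
        (sub_fi hcyc e.2 j.2) hfij) ⟨c, c', hc, he⟩
  omega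

/-- Leading parts at a common zero of the planes. -/
theorem leading {n r d : ℕ} {l : Fin n → MvPolynomial (Fin 3) ℝ} {x0 : Fin 3 → ℝ}
    (hl : ∀ i, (l i).totalDegree ≤ 1) (h0 : ∀ i, eval x0 (l i) = 0)
    (x : Fin n → restrictTotalDegree (Fin 3) ℝ d) (c : Fin n → ℝ)
    (h : Phi r d l x = ∑ i, C (c i) * l i ^ (r + 1)) :
    ∑ i, C (eval x0 (x i).1 - c i) * l i ^ (r + 1) = 0 := by
  refine MvPolynomial.funext fun y => ?_
  rw [map_zero, map_sum]
  have hline : ∀ (i : Fin n) (s : ℝ), eval (x0 + s • (y - x0)) (l i) = s * eval y (l i) := by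
    intro i s
    have : x0 + s • (y - x0) = (1 - s) • x0 + s • y := by module
    rw [this, eval_comb (hl i) x0 y (by ring), h0 i]
    ring
  have key := zero_of_pow_mul (r + 1)
    (fun s => ∑ i, (eval (x0 + s • (y - x0)) (x i).1 - c i) * eval y (l i) ^ (r + 1))
    (by
      refine continuous_finsetSum _ fun i _ => ?_
      exact ((continuous_line _ _ _).sub continuous_const).mul continuous_const)
    (by
      intro s
      have h1 := congrArg (eval (x0 + s • (y - x0))) h
      rw [Phi_apply, map_sum, map_sum] at h1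
      simp only [map_mul, map_pow, eval_C, hline] at h1
      rw [Finset.mul_sum]
      rw [← sub_eq_zero, ← Finset.sum_sub_distrib] at h1
      rw [← h1]
      refine Finset.sum_congr rfl fun i _ => ?_
      ring)
  simp only [zero_smul, add_zero] at key
  simp only [map_mul, map_pow, eval_C]
  exact key

end Pool.Agent.Lib.MP_d2a91d_an
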