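import Pool.Agent.Lib.MP_d2a91d_an.Gen4

namespace Pool.Agent.Lib.MP_d2a91d_an

open MvPolynomial

variable {N : ℕ} {K : Finset (Finset (Fin N))} {p : Fin N → Fin 3 → ℝ}
  {cyc : Finset (Fin N) → ℕ → Finset (Fin N)}

/-- Two planes at the edge `e` are proportional. -/
def PropAt (K : Finset (Finset (Fin N))) (cyc : Finset (Fin N) → ℕ → Finset (Fin N))
    (p : Fin N → Fin 3 → ℝ) (e : Finset (Fin N)) : Prop :=
  ∃ i j : Fin (degree K e), i ≠ j ∧ ∃ c c' : ℝ, c ≠ 0 ∧ c • le K cyc p e i = c' • le K cyc p e j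

/-- The value at a common vertex of the datum of a triangle is read off at an edge. -/
theorem coeff_at (hL4 : StL4) (hp : Realises K p) (hcyc : Nice K cyc) {r d : ℕ}
    (e : interiorFaces K 2) (hdeg : degree K e.1 ≤ r + 2) (hn : ¬ PropAt K cyc p e.1)
    {v : Fin N} (hv : v ∈ e.1) (q : interiorFaces K 3 → restrictTotalDegree (Fin 3) ℝ d)
    (c : Fin (degree K e.1) → ℝ)
    (h : PT K cyc p r d q e = ∑ i, C (c i) * le K cyc p e.1 i ^ (r + 1)) (i : Fin (degree K e.1)) :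
    sg (cyc e.1 i) (cyc e.1 (i + 1)) *
      eval (p v) (q ⟨fi cyc e.1 i, fi_mem hp.card hcyc e.2 i.2⟩).1 = c i := by
  rw [PT_eq_Phi hp.card hcyc] at h
  have h1 := leading (fun i => le_deg e.1 i) (fun i => le_vanish hcyc e.2 i hv) _ c h
  obtain ⟨a, ha, b, hb, hab⟩ := exists_ends hp e.2
  have h2 := hL4 _ r (le K cyc p e.1) (p a) (p b) hab (fun i => le_deg _ _)
    (fun i => ⟨le_vanish hcyc e.2 i ha, le_vanish hcyc e.2 i hb⟩) hdeg hn
    (fun i => le_ne_zero hp hcyc e.2 i) _ h1 i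
  rw [Submodule.coe_smul, smul_eval] at h2
  exact sub_eq_zero.mp h2

/-- With two interior edges in a triangle the closing conditions are dependent. -/
theorem toProd_not_surj (hL4 : StL4) (hp : Realises K p) (hcyc : Nice K cyc) (r d : ℕ)
    (e e' : interiorFaces K 2) (hee : e ≠ e') {g : Finset (Fin N)} (hg : g ∈ faces K 3)
    (heg : e.1 ⊆ g) (heg' : e'.1 ⊆ g) (hde : degree K e.1 ≤ r + 2) (hde' : degree K e'.1 ≤ r + 2)
    (hn : ¬ PropAt K cyc p e.1) (hn' : ¬ PropAt K cyc p e'.1) :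
    ¬ Function.Surjective (toProd hp.card hcyc p r d) := by
  classical
  intro hs
  obtain ⟨i0, hi0, hfi⟩ := fi_surj hp.card hcyc e.2 hg heg
  obtain ⟨j0, hj0, hfj⟩ := fi_surj hp.card hcyc e'.2 hg heg'
  have hone : (C 1 : MvPolynomial (Fin 3) ℝ) ∈ restrictTotalDegree (Fin 3) ℝ d := by
    rw [mem_restrictTotalDegree, totalDegree_C]; omega
  -- the target
  let y : ∀ a : interiorFaces K 2, LinearMap.range (Phi r d (le K cyc p a.1)) := fun a =>
    ⟨Phi r d (le K cyc p a.1) (fun i =>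
      if a = e ∧ (i : ℕ) = i0 then ⟨C 1, hone⟩ else 0), LinearMap.mem_range_self _ _⟩
  obtain ⟨⟨x, q, rfl⟩, hx⟩ := hs y
  have hPT : ∀ a : interiorFaces K 2, PT K cyc p r d q a = ∑ i : Fin (degree K a.1),
      C (if a = e ∧ (i : ℕ) = i0 then (1 : ℝ) else 0) * le K cyc p a.1 i ^ (r + 1) := by
    intro a
    have h1 : PT K cyc p r d q a = (y a).1 := congrArg Subtype.val (congrFun hx a)
    rw [h1]
    change Phi r d (le K cyc p a.1) _ = _
    rw [Phi_apply]
    refine Finset.sum_congr rfl fun i _ => ?_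
    by_cases hc : a = e ∧ (i : ℕ) = i0
    · rw [if_pos hc, if_pos hc]; ring
    · rw [if_neg hc, if_neg hc, C_0, zero_mul]
      change _ * (0 : MvPolynomial (Fin 3) ℝ) = 0
      rw [mul_zero]
  -- a common vertex
  obtain ⟨v, hv⟩ : (e.1 ∩ e'.1).Nonempty := by
    rw [← Finset.card_pos]
    have c1 : e.1.card = 2 := (mem_faces.mp (mem_interiorFaces.mp e.2).1).1
    have c2 : e'.1.card = 2 := (mem_faces.mp (mem_interiorFaces.mp e'.2).1).1
    have c3 : g.card = 3 := (mem_faces.mp hg).1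
    have c4 := Finset.card_union_add_card_inter e.1 e'.1
    have c5 := Finset.card_le_card (Finset.union_subset heg heg')
    omega
  rw [Finset.mem_inter] at hv
  have k1 := coeff_at hL4 hp hcyc e hde hn hv.1 q _ (hPT e) ⟨i0, hi0⟩
  have k2 := coeff_at hL4 hp hcyc e' hde' hn' hv.2 q _ (hPT e') ⟨j0, hj0⟩
  rw [if_pos ⟨rfl, rfl⟩] at k1
  rw [if_neg (fun h => hee h.1.symm)] at k2
  have hgm : g ∈ interiorFaces K 3 := by rw [← hfi]; exact fi_mem hp.card hcyc e.2 hi0
  have m1 : (⟨fi cyc e.1 (⟨i0, hi0⟩ : Fin (degree K e.1)), fi_mem hp.card hcyc e.2 hi0⟩ :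
    interiorFaces K 3) = ⟨g, hgm⟩ := Subtype.ext hfi
  have m2 : (⟨fi cyc e'.1 (⟨j0, hj0⟩ : Fin (degree K e'.1)), fi_mem hp.card hcyc e'.2 hj0⟩ :
    interiorFaces K 3) = ⟨g, hgm⟩ := Subtype.ext hfj
  rw [m1] at k1
  rw [m2] at k2
  have n2 : cyc e'.1 j0 ≠ cyc e'.1 (j0 + 1) :=
    ne_of_adj (hp.card _ (cyc_mem hcyc e'.2 hj0.le).1) (hcyc.adj e'.1 e'.2 j0 hj0)
  have k3 : eval (p v) (q ⟨g, hgm⟩).1 = 0 := by
    rcases mul_eq_zero.mp k2 with h | h
    · rcases sg_ne n2 with h' | h'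
      · rw [h'] at h; norm_num at h
      · rw [h'] at h; norm_num at h
    · exact h
  rw [k3, mul_zero] at k1
  exact zero_ne_one k1

instance finite_Phi {n : ℕ} (r d : ℕ) (l : Fin n → MvPolynomial (Fin 3) ℝ) :
    Module.Finite ℝ (LinearMap.range (Phi r d l)) := inferInstance

theorem finrank_lt_of_not_surj {A B : Type} [AddCommGroup A] [AddCommGroup B] [Module ℝ A]
    [Module ℝ B] [Module.Finite ℝ B] (f : A →ₗ[ℝ] B) (hf : Function.Injective f)
    (hs : ¬ Function.Surjective f) : Module.finrank ℝ A < Module.finrank ℝ B := by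
  rw [← LinearMap.finrank_range_of_inj hf]
  refine Submodule.finrank_lt ?_
  intro h
  exact hs (LinearMap.range_eq_top.mp h)

/-- (3) Strictness. -/
theorem part_three (hL1 : StL1) (hL2 : StL2) (hL4 : StL4) (hp : Realises K p) (hne : K.Nonempty)
    (hcyc : Nice K cyc) (r k d : ℕ) (hk : k = d + (r + 1)) {e e' g : Finset (Fin N)}
    (he : e ∈ interiorFaces K 2) (he' : e' ∈ interiorFaces K 2) (hee : e ≠ e')
    (hg : g ∈ faces K 3) (heg : e ⊆ g) (heg' : e' ⊆ g) (hde : degree K e ≤ r + 2)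
    (hde' : degree K e' ≤ r + 2) :
    Module.finrank ℝ (restrictTotalDegree (Fin 3) ℝ k) +
      (interiorFaces K 3).card * Module.finrank ℝ (restrictTotalDegree (Fin 3) ℝ d) <
    Module.finrank ℝ (SP r k K p) + ∑ e ∈ interiorFaces K 2, lam (degree K e) r d := by
  have h1 := finrank_SP hp hne hcyc r k d hk
  have h2 := finrank_ker_PT K cyc p r d
  have hle : ∀ e : interiorFaces K 2,
      Module.finrank ℝ (LinearMap.range (Phi r d (le K cyc p e.1))) ≤ lam (degree K e.1) r d := by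
    intro e
    obtain ⟨u, hu, v, hv, huv⟩ := exists_ends hp e.2
    exact hL1 _ r d _ (p u) (p v) huv (fun i => le_deg _ _)
      (fun i => ⟨le_vanish hcyc e.2 i hu, le_vanish hcyc e.2 i hv⟩)
  have hlt : ∀ e : interiorFaces K 2, degree K e.1 ≤ r + 2 → PropAt K cyc p e.1 →
      Module.finrank ℝ (LinearMap.range (Phi r d (le K cyc p e.1))) < lam (degree K e.1) r d := by
    intro e hd hP
    obtain ⟨u, hu, v, hv, huv⟩ := exists_ends hp e.2
    exact hL2 _ r d _ (p u) (p v) huv (fun i => le_deg _ _)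
      (fun i => ⟨le_vanish hcyc e.2 i hu, le_vanish hcyc e.2 i hv⟩) hd hP
  have hsum : Module.finrank ℝ (LinearMap.range (PT K cyc p r d)) <
      ∑ e : interiorFaces K 2, lam (degree K e.1) r d := by
    by_cases hA : ∃ a : interiorFaces K 2, degree K a.1 ≤ r + 2 ∧ PropAt K cyc p a.1
    · obtain ⟨a, ha, hP⟩ := hA
      refine (finrank_range_PT_le hp.card hcyc p r d).trans_lt ?_
      exact Finset.sum_lt_sum (fun b _ => hle b) ⟨a, Finset.mem_univ _, hlt a ha hP⟩
    · have hn : ∀ a : interiorFaces K 2, degree K a.1 ≤ r + 2 → ¬ PropAt K cyc p a.1 :=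
        fun a ha hP => hA ⟨a, ha, hP⟩
      have hns := toProd_not_surj hL4 hp hcyc r d ⟨e, he⟩ ⟨e', he'⟩
        (fun h => hee (congrArg Subtype.val h)) hg heg heg' hde hde' (hn ⟨e, he⟩ hde)
        (hn ⟨e', he'⟩ hde')
      have := finrank_lt_of_not_surj _ (toProd_inj hp.card hcyc p r d) hns
      rw [Module.finrank_pi_fintype] at this
      exact this.trans_le (Finset.sum_le_sum fun b _ => hle b)
  rw [Finset.sum_coe_sort (interiorFaces K 2) (fun e => lam (degree K e) r d)] at hsum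
  omega

end Pool.Agent.Lib.MP_d2a91d_an
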