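import Pool.Agent.Lib.MP_d2a91d_an.Stmts

/-!
# Rows RN, RA: explicit realisations, checked over the integers
-/

set_option autoImplicit false

namespace Pool.Agent.Lib.MP_d2a91d_an.Real_42

/-- an affine function with integer coefficients -/
def lz (c : ℤ × ℤ × ℤ × ℤ) (v : Fin 3 → ℤ) : ℤ :=
  c.2.2.2 + c.1 * v 0 + c.2.1 * v 1 + c.2.2.1 * v 2

/-- the same over the reals -/
def lr (c : ℤ × ℤ × ℤ × ℤ) (x : Fin 3 → ℝ) : ℝ :=
  (c.2.2.2 : ℝ) + (c.1 : ℝ) * x 0 + (c.2.1 : ℝ) * x 1 + (c.2.2.1 : ℝ) * x 2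

theorem lr_cast (c : ℤ × ℤ × ℤ × ℤ) (v : Fin 3 → ℤ) :
    lr c (fun j => (v j : ℝ)) = (lz c v : ℝ) := by
  unfold lr lz
  push_cast
  ring

theorem lr_comb (c : ℤ × ℤ × ℤ × ℤ) {a b : ℝ} (hab : a + b = 1) (x y : Fin 3 → ℝ) :
    lr c (a • x + b • y) = a * lr c x + b * lr c y := by
  have hb : b = 1 - a := by linarith
  subst hb
  unfold lr
  simp only [Pi.add_apply, Pi.smul_apply, smul_eq_mul]
  ring

theorem lr_sum (c : ℤ × ℤ × ℤ × ℤ) {ι : Type*} (s : Finset ι) (w : ι → ℝ)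
    (q : ι → Fin 3 → ℝ) (h0 : ∑ i ∈ s, w i = 0) (h1 : ∑ i ∈ s, w i • q i = 0) :
    ∑ i ∈ s, w i * lr c (q i) = 0 := by
  have h2 : ∀ j : Fin 3, ∑ i ∈ s, w i * q i j = 0 := by
    intro j
    have := congrFun h1 j
    rw [Finset.sum_apply] at this
    simpa using this
  have h3 : ∑ i ∈ s, w i * lr c (q i) = (c.2.2.2 : ℝ) * ∑ i ∈ s, w i +
      (c.1 : ℝ) * ∑ i ∈ s, w i * q i 0 + (c.2.1 : ℝ) * ∑ i ∈ s, w i * q i 1 +
      (c.2.2.1 : ℝ) * ∑ i ∈ s, w i * q i 2 := by
    rw [Finset.mul_sum, Finset.mul_sum, Finset.mul_sum, Finset.mul_sum,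
      ← Finset.sum_add_distrib, ← Finset.sum_add_distrib, ← Finset.sum_add_distrib]
    refine Finset.sum_congr rfl fun i _ => ?_
    unfold lr
    ring
  rw [h3, h0, h2, h2, h2]
  ring

variable {N : ℕ}

/-- separation -/
theorem meet_sub (p : Fin N → Fin 3 → ℝ) (t t' : Finset (Fin N)) (c : ℤ × ℤ × ℤ × ℤ)
    (h1 : ∀ i ∈ t, 0 ≤ lr c (p i)) (h2 : ∀ i ∈ t, i ∉ t' → 0 < lr c (p i))
    (h3 : ∀ i ∈ t', lr c (p i) ≤ 0) : tet p t ∩ tet p t' ⊆ tet p (t ∩ t') := by
  rintro x ⟨hx, hx'⟩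
  have hC : Convex ℝ (tet p (t ∩ t')) := convex_convexHull ℝ _
  -- `x` is in `{0 ≤ f} ∩ ({0 < f} ∪ tet)`
  have hA : tet p t ⊆ {y | 0 ≤ lr c y ∧ (0 < lr c y ∨ y ∈ tet p (t ∩ t'))} := by
    unfold tet
    refine convexHull_min ?_ ?_
    · rintro _ ⟨i, hi, rfl⟩
      have hi' : i ∈ t := by exact_mod_cast hi
      refine ⟨h1 i hi', ?_⟩
      by_cases hit : i ∈ t'
      · right
        exact subset_convexHull ℝ _ ⟨i, by exact_mod_cast Finset.mem_inter.mpr ⟨hi', hit⟩, rfl⟩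
      · exact Or.inl (h2 i hi' hit)
    · rintro y ⟨hy0, hy⟩ z ⟨hz0, hz⟩ a b ha hb hab
      refine ⟨?_, ?_⟩
      · rw [lr_comb c hab]
        positivity
      · rcases eq_or_lt_of_le ha with ha0 | ha0
        · have hb1 : b = 1 := by linarith
          rw [← ha0, hb1, zero_smul, one_smul, zero_add]
          exact hz
        · rcases eq_or_lt_of_le hb with hb0 | hb0
          · have ha1 : a = 1 := by linarith
            rw [← hb0, ha1, zero_smul, one_smul, add_zero]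
            exact hy
          · rcases hy with hy | hy
            · left
              rw [lr_comb c hab]
              have : 0 < a * lr c y := mul_pos ha0 hy
              have h' : 0 ≤ b * lr c z := mul_nonneg hb hz0
              linarith
            · rcases hz with hz | hz
              · left
                rw [lr_comb c hab]
                have : 0 < b * lr c z := mul_pos hb0 hz
                have h' : 0 ≤ a * lr c y := mul_nonneg ha hy0
                linarith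
              · right
                exact hC hy hz ha hb hab
  have hB : tet p t' ⊆ {y | lr c y ≤ 0} := by
    unfold tet
    refine convexHull_min ?_ ?_
    · rintro _ ⟨i, hi, rfl⟩
      exact h3 i (by exact_mod_cast hi)
    · intro y hy z hz a b ha hb hab
      show lr c (a • y + b • z) ≤ 0
      rw [lr_comb c hab]
      have h4 : a * lr c y ≤ 0 := mul_nonpos_of_nonneg_of_nonpos ha hy
      have h5 : b * lr c z ≤ 0 := mul_nonpos_of_nonneg_of_nonpos hb hz
      linarith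
  have h6 := hA hx
  have h7 : lr c x ≤ 0 := hB hx'
  rcases h6.2 with h8 | h8
  · linarith
  · exact h8

theorem tet_mono' (p : Fin N → Fin 3 → ℝ) {s t : Finset (Fin N)} (h : s ⊆ t) :
    tet p s ⊆ tet p t := convexHull_mono (Set.image_mono (by exact_mod_cast h))

/-- The conditions over the integers. -/
theorem realises_of_int (K : Finset (Finset (Fin N))) (z : Fin N → Fin 3 → ℤ)
    (L : List (ℤ × ℤ × ℤ × ℤ)) (hcard : ∀ t ∈ K, t.card = 4)
    (hbar : ∀ t ∈ K, ∀ i ∈ t, ∃ c ∈ L, lz c (z i) ≠ 0 ∧ ∀ j ∈ t, j ≠ i → lz c (z j) = 0)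
    (hsep : ∀ t ∈ K, ∀ t' ∈ K, t = t' ∨ ∃ c ∈ L,
      ((∀ i ∈ t, 0 ≤ lz c (z i)) ∧ (∀ i ∈ t, i ∉ t' → 0 < lz c (z i)) ∧
        ∀ i ∈ t', lz c (z i) ≤ 0) ∨
      ((∀ i ∈ t', 0 ≤ lz c (z i)) ∧ (∀ i ∈ t', i ∉ t → 0 < lz c (z i)) ∧
        ∀ i ∈ t, lz c (z i) ≤ 0)) :
    Realises K (fun i j => (z i j : ℝ)) := by
  classical
  refine ⟨hcard, ?_, ?_⟩
  · intro t ht
    rw [affineIndependent_iff]
    intro s w h0 h1 e he
    obtain ⟨c, _, hc, hc'⟩ := hbar t ht e.1 e.2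
    have h2 := lr_sum c s w (fun i : t => (fun j => (z i j : ℝ))) h0 h1
    rw [Finset.sum_eq_single e] at h2
    · rw [lr_cast] at h2
      rcases mul_eq_zero.mp h2 with h3 | h3
      · exact h3
      · exact absurd (by exact_mod_cast h3) hc
    · intro j _ hj
      rw [lr_cast, hc' j.1 j.2 (fun h => hj (Subtype.ext h)), Int.cast_zero, mul_zero]
    · intro h; exact absurd he h
  · intro t ht t' ht'
    apply Set.Subset.antisymm
    · rcases hsep t ht t' ht' with h | ⟨c, _, h | h⟩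
      · subst h
        rw [Finset.inter_self]
        exact Set.inter_subset_left
      · apply meet_sub _ t t' c
        · intro i hi; rw [lr_cast]; exact_mod_cast h.1 i hi
        · intro i hi hi'; rw [lr_cast]; exact_mod_cast h.2.1 i hi hi'
        · intro i hi; rw [lr_cast]; exact_mod_cast h.2.2 i hi
      · rw [Set.inter_comm, Finset.inter_comm]
        apply meet_sub _ t' t c
        · intro i hi; rw [lr_cast]; exact_mod_cast h.1 i hi
        · intro i hi hi'; rw [lr_cast]; exact_mod_cast h.2.1 i hi hi'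
        · intro i hi; rw [lr_cast]; exact_mod_cast h.2.2 i hi
    · exact Set.subset_inter (tet_mono' _ Finset.inter_subset_left)
        (tet_mono' _ Finset.inter_subset_right)

/-- integer positions -/
def zN : Fin 7 → Fin 3 → ℤ :=
  ![![1, 0, 0], ![0, 1, 0], ![0, 0, 0], ![0, 0, 1], ![1, 2, -1], ![-1, 1, 0], ![-1, -1, 0]]

def zA : Fin 7 → Fin 3 → ℤ :=
  ![![0, 0, 1], ![1, 1, 0], ![0, 0, 0], ![3, 0, 0], ![0, 3, 0], ![-1, -1, 0], ![2, 2, 1]]

def LN : List (ℤ × ℤ × ℤ × ℤ) :=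
  [(0, 0, 1, 0), (-1, -1, -1, 1), (-1, -1, -2, 1), (1, 0, 0, 0), (0, 1, 0, 0), (1, 1, 0, 0),
   (-1, 1, 0, 0), (0, 1, 1, -1), (0, 1, 2, 0), (1, -2, 1, -1), (1, -1, 0, 0), (1, 0, -1, 1),
   (1, 0, 1, 0), (1, 1, 1, -1), (1, 1, 2, -1), (2, 1, 2, -2)]

def LA : List (ℤ × ℤ × ℤ × ℤ) :=
  [(1, -1, 0, 0), (-1, -2, -3, 3), (-2, -1, -3, 3), (0, 1, 0, 0), (1, 0, 0, 0), (1, 1, 3, -3),
   (-1, -1, -3, 3), (0, 0, 1, 0), (1, -4, 3, -3), (1, -1, -3, 3), (1, -1, 3, -3),
   (1, 1, -1, -3), (1, 2, 3, -3), (2, 1, 3, -3), (4, -1, -3, 3)]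

theorem posN_eq : posN = fun i j => (zN i j : ℝ) := by
  funext i j
  fin_cases i <;> fin_cases j <;> simp [posN, zN]

theorem posA_eq : posA = fun i j => (zA i j : ℝ) := by
  funext i j
  fin_cases i <;> fin_cases j <;> simp [posA, zA]

/-- (RN) -/
theorem stRN_42 : StRN := by
  unfold StRN
  rw [posN_eq]
  exact realises_of_int KN zN LN (by decide +kernel) (by decide +kernel) (by decide +kernel)

/-- (RA) -/
theorem stRA_42 : StRA := by
  unfold StRA
  rw [posA_eq]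
  exact realises_of_int KA zA LA (by decide +kernel) (by decide +kernel) (by decide +kernel)

end Pool.Agent.Lib.MP_d2a91d_an.Real_42
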