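import Pool.Agent.Lib.MP_d2a91d_an.DimA
import Pool.Agent.Lib.MP_d2a91d_an.Real_42

namespace Pool.Agent.Lib.MP_d2a91d_an

open MvPolynomial Set

theorem finite_spline {N : ℕ} (r k : ℕ) (K : Finset (Finset (Fin N))) (p : Fin N → Fin 3 → ℝ)
    (h : Realises K p) : Module.Finite ℝ (Spline r k K p) := by
  have hle : Spline r k K p ≤ LinearMap.range (glue K p ∘ₗ
      (LinearMap.pi fun t : K => (Submodule.subtype (restrictTotalDegree (Fin 3) ℝ k)) ∘ₗ
        (LinearMap.proj t : (K → restrictTotalDegree (Fin 3) ℝ k) →ₗ[ℝ] _))) := by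
    intro s hs
    obtain ⟨P, hPdeg, hPs, -, -⟩ := stG3 N r k K p h s hs
    refine ⟨fun t => ⟨P t, (mem_restrictTotalDegree _ _ _).mpr (hPdeg t)⟩, ?_⟩
    rw [← hPs]
    rfl
  exact Submodule.finiteDimensional_of_le hle

/-- Splines on `KA` from their data. -/
noncomputable def fA (r k d : ℕ) (p : Fin 7 → Fin 3 → ℝ) :
    (restrictTotalDegree (Fin 3) ℝ k × restrictTotalDegree (Fin 3) ℝ d ×
      LinearMap.ker (Psi r d p)) →ₗ[ℝ] (Fin 6 → MvPolynomial (Fin 3) ℝ) where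
  toFun v := ![v.1.1,
    v.1.1 + L p 1 2 ^ (r + 1) * (v.2.2.1 0).1,
    v.1.1 + L p 1 2 ^ (r + 1) * (v.2.2.1 0).1 + L p 1 4 ^ (r + 1) * (v.2.2.1 1).1,
    v.1.1 - L p 2 3 ^ (r + 1) * (v.2.2.1 3).1,
    v.1.1 - L p 2 3 ^ (r + 1) * (v.2.2.1 3).1 - L p 2 5 ^ (r + 1) * (v.2.2.1 4).1,
    v.1.1 + L p 1 2 ^ (r + 1) * (v.2.2.1 0).1 + L p 1 4 ^ (r + 1) * (v.2.2.1 1).1 +
      L p 3 4 ^ (r + 1) * v.2.1.1]
  map_add' v w := by
    funext j
    fin_cases j <;> simp <;> ring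
  map_smul' c v := by
    funext j
    fin_cases j <;> simp [smul_add, smul_sub]

theorem L_ne_zero {p : Fin 7 → Fin 3 → ℝ} (h : Realises KA p) {t : Finset (Fin 7)} (ht : t ∈ KA)
    {i j k : Fin 7} (h0 : 0 ∈ t) (hi : i ∈ t) (hj : j ∈ t) (hk : k ∈ t) (h0i : 0 ≠ i)
    (h0j : 0 ≠ j) (h0k : 0 ≠ k) (hij : i ≠ j) (hik : i ≠ k) (hjk : j ≠ k) :
    L p j k ≠ 0 := by
  intro hz
  have h1 := dt_ne h ht h0 hi hj hk h0i h0j h0k hij hik hjk
  apply h1
  have : eval (p i) (L p j k) = 0 := by rw [hz, map_zero]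
  unfold L at this
  rw [eval_pl_sub] at this
  exact this

theorem L_ne {p : Fin 7 → Fin 3 → ℝ} (h : Realises KA p) :
    L p 1 2 ≠ 0 ∧ L p 1 3 ≠ 0 ∧ L p 1 4 ≠ 0 ∧ L p 2 3 ≠ 0 ∧ L p 2 4 ≠ 0 ∧ L p 2 5 ≠ 0 ∧
      L p 3 4 ≠ 0 := by
  refine ⟨?_, ?_, ?_, ?_, ?_, ?_, ?_⟩
  · exact L_ne_zero h (t := {0, 1, 2, 3}) (i := 3) (by decide +kernel) (by decide) (by decide)
      (by decide) (by decide) (by decide) (by decide) (by decide) (by decide) (by decide)
      (by decide)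
  · exact L_ne_zero h (t := {0, 1, 2, 3}) (i := 2) (by decide +kernel) (by decide) (by decide)
      (by decide) (by decide) (by decide) (by decide) (by decide) (by decide) (by decide)
      (by decide)
  · exact L_ne_zero h (t := {0, 1, 2, 4}) (i := 2) (by decide +kernel) (by decide) (by decide)
      (by decide) (by decide) (by decide) (by decide) (by decide) (by decide) (by decide)
      (by decide)
  · exact L_ne_zero h (t := {0, 1, 2, 3}) (i := 1) (by decide +kernel) (by decide) (by decide)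
      (by decide) (by decide) (by decide) (by decide) (by decide) (by decide) (by decide)
      (by decide)
  · exact L_ne_zero h (t := {0, 1, 2, 4}) (i := 1) (by decide +kernel) (by decide) (by decide)
      (by decide) (by decide) (by decide) (by decide) (by decide) (by decide) (by decide)
      (by decide)
  · exact L_ne_zero h (t := {0, 2, 3, 5}) (i := 3) (by decide +kernel) (by decide) (by decide)
      (by decide) (by decide) (by decide) (by decide) (by decide) (by decide) (by decide)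
      (by decide)
  · exact L_ne_zero h (t := {0, 1, 3, 4}) (i := 1) (by decide +kernel) (by decide) (by decide)
      (by decide) (by decide) (by decide) (by decide) (by decide) (by decide) (by decide)
      (by decide)

theorem fA_injective {p : Fin 7 → Fin 3 → ℝ} (h : Realises KA p) (r k d : ℕ) :
    Function.Injective (fA r k d p) := by
  rintro ⟨P, g, ⟨q, hq⟩⟩ ⟨P', g', ⟨q', hq'⟩⟩ hv
  obtain ⟨n12, n13, n14, n23, n24, n25, n34⟩ := L_ne h
  have v0 : P.1 = P'.1 := congrFun hv 0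
  have v1 : P.1 + L p 1 2 ^ (r + 1) * (q 0).1 = P'.1 + L p 1 2 ^ (r + 1) * (q' 0).1 :=
    congrFun hv 1
  have v2 : P.1 + L p 1 2 ^ (r + 1) * (q 0).1 + L p 1 4 ^ (r + 1) * (q 1).1 =
      P'.1 + L p 1 2 ^ (r + 1) * (q' 0).1 + L p 1 4 ^ (r + 1) * (q' 1).1 := congrFun hv 2
  have v3 : P.1 - L p 2 3 ^ (r + 1) * (q 3).1 = P'.1 - L p 2 3 ^ (r + 1) * (q' 3).1 :=
    congrFun hv 3
  have v4 : P.1 - L p 2 3 ^ (r + 1) * (q 3).1 - L p 2 5 ^ (r + 1) * (q 4).1 =
      P'.1 - L p 2 3 ^ (r + 1) * (q' 3).1 - L p 2 5 ^ (r + 1) * (q' 4).1 := congrFun hv 4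
  have v5 : P.1 + L p 1 2 ^ (r + 1) * (q 0).1 + L p 1 4 ^ (r + 1) * (q 1).1 +
      L p 3 4 ^ (r + 1) * g.1 = P'.1 + L p 1 2 ^ (r + 1) * (q' 0).1 +
      L p 1 4 ^ (r + 1) * (q' 1).1 + L p 3 4 ^ (r + 1) * g'.1 := congrFun hv 5
  have w1 := Psi_fst r d p q
  have w2 := Psi_snd r d p q
  rw [LinearMap.mem_ker.mp hq] at w1 w2
  change 0 = _ at w1
  change 0 = _ at w2
  have w1' := Psi_fst r d p q'
  have w2' := Psi_snd r d p q'
  rw [LinearMap.mem_ker.mp hq'] at w1' w2'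
  change 0 = _ at w1'
  change 0 = _ at w2'
  have key : ∀ {l x y : MvPolynomial (Fin 3) ℝ}, l ≠ 0 → l ^ (r + 1) * x = l ^ (r + 1) * y →
      x = y := fun hl hx => mul_left_cancel₀ (pow_ne_zero _ hl) hx
  have q0 : (q 0).1 = (q' 0).1 := key n12 (by linear_combination v1 - v0)
  have q1 : (q 1).1 = (q' 1).1 := key n14 (by linear_combination v2 - v1)
  have q3 : (q 3).1 = (q' 3).1 := key n23 (by linear_combination v0 - v3)
  have q4 : (q 4).1 = (q' 4).1 := key n25 (by linear_combination v3 - v4)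
  have hg : g.1 = g'.1 := key n34 (by linear_combination v5 - v2)
  have q2 : (q 2).1 = (q' 2).1 := by
    refine key n13 ?_
    rw [q0, q1] at w1
    linear_combination w1' - w1
  have q5 : (q 5).1 = (q' 5).1 := by
    refine key n24 ?_
    rw [q0, q3, q4] at w2
    linear_combination w2' - w2
  have hq0 : q = q' := by
    funext i
    fin_cases i
    · exact Subtype.ext q0
    · exact Subtype.ext q1
    · exact Subtype.ext q2
    · exact Subtype.ext q3
    · exact Subtype.ext q4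
    · exact Subtype.ext q5
  have hP0 : P = P' := Subtype.ext v0
  have hg0 : g = g' := Subtype.ext hg
  subst hq0 hP0 hg0
  rfl

theorem fA_spline {p : Fin 7 → Fin 3 → ℝ} (h : Realises KA p) (r k d : ℕ) (hk : k = d + (r + 1))
    (v : restrictTotalDegree (Fin 3) ℝ k × restrictTotalDegree (Fin 3) ℝ d ×
      LinearMap.ker (Psi r d p)) :
    gl KA TA p (fA r k d p v) ∈ Spline r k KA p ∧
      ∀ t : KA, ∀ x ∈ tet p t.1, gl KA TA p (fA r k d p v) x =
        eval x (fA r k d p v (idx TA t.1)) := by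
  obtain ⟨P, g, ⟨q, hq⟩⟩ := v
  set F := fA r k d p (P, g, ⟨q, hq⟩) with hF
  have w1 := Psi_fst r d p q
  have w2 := Psi_snd r d p q
  rw [LinearMap.mem_ker.mp hq] at w1 w2
  change 0 = _ at w1
  change 0 = _ at w2
  have F0 : F 0 = P.1 := rfl
  have F1 : F 1 = P.1 + L p 1 2 ^ (r + 1) * (q 0).1 := rfl
  have F2 : F 2 = P.1 + L p 1 2 ^ (r + 1) * (q 0).1 + L p 1 4 ^ (r + 1) * (q 1).1 := rfl
  have F3 : F 3 = P.1 - L p 2 3 ^ (r + 1) * (q 3).1 := rfl
  have F4 : F 4 = P.1 - L p 2 3 ^ (r + 1) * (q 3).1 - L p 2 5 ^ (r + 1) * (q 4).1 := rfl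
  have F5 : F 5 = P.1 + L p 1 2 ^ (r + 1) * (q 0).1 + L p 1 4 ^ (r + 1) * (q 1).1 +
      L p 3 4 ^ (r + 1) * g.1 := rfl
  have hdeg : ∀ (l : MvPolynomial (Fin 3) ℝ) (a : restrictTotalDegree (Fin 3) ℝ d),
      l.totalDegree ≤ 1 → (l ^ (r + 1) * a.1).totalDegree ≤ k := by
    intro l a hl
    refine (totalDegree_mul _ _).trans ?_
    have h1 := (mem_restrictTotalDegree _ _ _).mp a.2
    have h2 : (l ^ (r + 1)).totalDegree ≤ (r + 1) * 1 :=
      (totalDegree_pow _ _).trans (Nat.mul_le_mul_left _ hl)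
    omega
  have hPk := (mem_restrictTotalDegree _ _ _).mp P.2
  have ha : ∀ {a b : MvPolynomial (Fin 3) ℝ}, a.totalDegree ≤ k → b.totalDegree ≤ k →
      (a + b).totalDegree ≤ k := fun h1 h2 => (totalDegree_add _ _).trans (max_le h1 h2)
  have hs : ∀ {a b : MvPolynomial (Fin 3) ℝ}, a.totalDegree ≤ k → b.totalDegree ≤ k →
      (a - b).totalDegree ≤ k := fun h1 h2 => (totalDegree_sub _ _).trans (max_le h1 h2)
  have hFdeg : ∀ i, (F i).totalDegree ≤ k := by
    intro i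
    fin_cases i
    · exact hPk
    · exact ha hPk (hdeg _ _ (L_deg _ _ _))
    · exact ha (ha hPk (hdeg _ _ (L_deg _ _ _))) (hdeg _ _ (L_deg _ _ _))
    · exact hs hPk (hdeg _ _ (L_deg _ _ _))
    · exact hs (hs hPk (hdeg _ _ (L_deg _ _ _))) (hdeg _ _ (L_deg _ _ _))
    · exact ha (ha (ha hPk (hdeg _ _ (L_deg _ _ _))) (hdeg _ _ (L_deg _ _ _)))
        (hdeg _ _ (L_deg _ _ _))
  -- the divisibility relation between two places
  let D : Fin 6 → Fin 6 → Prop := fun i j => ∃ l : MvPolynomial (Fin 3) ℝ,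
    (∀ x ∈ tet p (TA i ∩ TA j), eval x l = 0) ∧ l ^ (r + 1) ∣ F i - F j
  have hsym : ∀ i j, D i j → D j i := by
    rintro i j ⟨l, h1, h2⟩
    refine ⟨l, ?_, ?_⟩
    · rw [Finset.inter_comm]; exact h1
    · rw [← neg_sub]; exact h2.neg_right
  have hL : ∀ (g : Finset (Fin 7)) (j k : Fin 7), (∀ i ∈ g, i = 0 ∨ i = j ∨ i = k) →
      ∀ x ∈ tet p g, eval x (L p j k) = 0 := by
    intro g j k hg
    refine vanish_tet p g (L_deg _ _ _) fun i hi => ?_
    rcases hg i hi with rfl | rfl | rfl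
    · exact pl_fst _ _ _
    · exact pl_snd _ _ _
    · exact pl_trd _ _ _
  have D01 : D 0 1 := ⟨L p 1 2, hL _ _ _ (by decide +kernel), ⟨-(q 0).1, by
    rw [F0, F1]; ring⟩⟩
  have D12 : D 1 2 := ⟨L p 1 4, hL _ _ _ (by decide +kernel), ⟨-(q 1).1, by
    rw [F1, F2]; ring⟩⟩
  have D02 : D 0 2 := ⟨L p 1 3, hL _ _ _ (by decide +kernel), ⟨(q 2).1, by
    rw [F0, F2]; linear_combination w1⟩⟩
  have D03 : D 0 3 := ⟨L p 2 3, hL _ _ _ (by decide +kernel), ⟨(q 3).1, by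
    rw [F0, F3]; ring⟩⟩
  have D34 : D 3 4 := ⟨L p 2 5, hL _ _ _ (by decide +kernel), ⟨(q 4).1, by
    rw [F3, F4]; ring⟩⟩
  have D14 : D 1 4 := ⟨L p 2 4, hL _ _ _ (by decide +kernel), ⟨-(q 5).1, by
    rw [F1, F4]; linear_combination -w2⟩⟩
  have D25 : D 2 5 := ⟨L p 3 4, hL _ _ _ (by decide +kernel), ⟨-g.1, by
    rw [F2, F5]; ring⟩⟩
  have hD : ∀ i j : Fin 6, (TA i ∩ TA j).card = 3 → D i j := by
    have hlist : ∀ i j : Fin 6, (TA i ∩ TA j).card = 3 →
        (i, j) ∈ ({(0, 1), (1, 2), (0, 2), (0, 3), (3, 4), (1, 4), (2, 5), (1, 0), (2, 1), (2, 0),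
          (3, 0), (4, 3), (4, 1), (5, 2)} : Finset (Fin 6 × Fin 6)) := by decide +kernel
    intro i j hij
    have := hlist i j hij
    simp only [Finset.mem_insert, Finset.mem_singleton, Prod.mk.injEq] at this
    rcases this with ⟨rfl, rfl⟩ | ⟨rfl, rfl⟩ | ⟨rfl, rfl⟩ | ⟨rfl, rfl⟩ | ⟨rfl, rfl⟩ |
      ⟨rfl, rfl⟩ | ⟨rfl, rfl⟩ | ⟨rfl, rfl⟩ | ⟨rfl, rfl⟩ | ⟨rfl, rfl⟩ | ⟨rfl, rfl⟩ |
      ⟨rfl, rfl⟩ | ⟨rfl, rfl⟩ | ⟨rfl, rfl⟩
    · exact D01
    · exact D12
    · exact D02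
    · exact D03
    · exact D34
    · exact D14
    · exact D25
    · exact hsym _ _ D01
    · exact hsym _ _ D12
    · exact hsym _ _ D02
    · exact hsym _ _ D03
    · exact hsym _ _ D34
    · exact hsym _ _ D14
    · exact hsym _ _ D25
  rw [gl_apply]
  refine G2_42.stG2_42 7 r k KA p h starConn_KA (fun t : KA => F (idx TA t.1))
    (fun t => hFdeg _) ?_
  intro t t' hc
  have e1 := TA_idx t.1 t.2
  have e2 := TA_idx t'.1 t'.2
  have := hD (idx TA t.1) (idx TA t'.1) (by rw [e1, e2]; exact hc)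
  obtain ⟨l, h1, h2⟩ := this
  rw [e1, e2] at h1
  exact ⟨l, h1, h2⟩

/-- The lower bound for the dimension at every position realising `KA`. -/
theorem lower {p : Fin 7 → Fin 3 → ℝ} (h : Realises KA p) (m k d : ℕ)
    (hk : k = d + (m + 2 + 1)) :
    Module.finrank ℝ (restrictTotalDegree (Fin 3) ℝ k) +
        7 * Module.finrank ℝ (restrictTotalDegree (Fin 3) ℝ d) + 1 ≤
    Module.finrank ℝ (Spline (m + 2) k KA p) +
      Module.finrank ℝ (LinearMap.range (Phi (m + 2) d lA)) +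
      Module.finrank ℝ (LinearMap.range (Phi (m + 2) d lB)) := by
  have := finite_spline (m + 2) k KA p h
  set f : (restrictTotalDegree (Fin 3) ℝ k × restrictTotalDegree (Fin 3) ℝ d ×
      LinearMap.ker (Psi (m + 2) d p)) →ₗ[ℝ] Spline (m + 2) k KA p :=
    LinearMap.codRestrict _ (gl KA TA p ∘ₗ fA (m + 2) k d p)
      (fun v => (fA_spline h (m + 2) k d hk v).1) with hf
  have hinj : Function.Injective f := by
    intro v w hvw
    have hv' : gl KA TA p (fA (m + 2) k d p v) = gl KA TA p (fA (m + 2) k d p w) :=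
      congrArg Subtype.val hvw
    have h0 : (fun t : KA => (fA (m + 2) k d p v - fA (m + 2) k d p w) (idx TA t.1)) = 0 := by
      refine stG1 7 KA p h _ fun t x hx => ?_
      rw [← gl_apply, map_sub, hv', sub_self]
      rfl
    have h1 : fA (m + 2) k d p v = fA (m + 2) k d p w := by
      funext j
      have := congrFun h0 ⟨TA j, TA_mem j⟩
      simp only [idx_TA] at this
      exact sub_eq_zero.mp this
    exact fA_injective h _ _ _ h1
  have h1 := LinearMap.finrank_le_finrank_of_injective hinj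
  have := freeSub d (LinearMap.ker (Psi (m + 2) d p))
  rw [finrank_three] at h1
  have h2 : Module.finrank ℝ (LinearMap.ker (Psi (m + 2) d p)) +
      Module.finrank ℝ (LinearMap.range (Psi (m + 2) d p)) =
      6 * Module.finrank ℝ (restrictTotalDegree (Fin 3) ℝ d) := by
    rw [← finrank_pi_eq, ← LinearMap.finrank_range_add_finrank_ker (Psi (m + 2) d p), add_comm]
  have h3 := rank_Psi h m d
  omega

/-- The comparison of the generic dimensions. -/
theorem genDim_lt (r k : ℕ) (hr : 2 ≤ r) (hk : r + 1 ≤ k) : genDim r k KN < genDim r k KA := by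
  obtain ⟨m, rfl⟩ : ∃ m, r = m + 2 := ⟨r - 2, by omega⟩
  obtain ⟨d, hd⟩ : ∃ d, k = d + (m + 2 + 1) := ⟨k - (m + 2 + 1), by omega⟩
  have hup := upper Real_42.stRN_42 (m + 2) k d hd
  have hne : {n | ∃ p : Fin 7 → Fin 3 → ℝ, Realises KA p ∧
      n = Module.finrank ℝ (Spline (m + 2) k KA p)}.Nonempty := ⟨_, posA, Real_42.stRA_42, rfl⟩
  obtain ⟨p, hp, he⟩ := Nat.sInf_mem hne
  have hlow := lower hp m k d hd
  have h1 : genDim (m + 2) k KN ≤ Module.finrank ℝ (Spline (m + 2) k KN posN) :=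
    Nat.sInf_le ⟨posN, Real_42.stRN_42, rfl⟩
  have h2 : genDim (m + 2) k KA = Module.finrank ℝ (Spline (m + 2) k KA p) := he
  omega

end Pool.Agent.Lib.MP_d2a91d_an
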