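import Pool.Agent.Lib.MP_d2a91d_an.Stmts2
import Pool.Agent.Lib.MP_d2a91d_an.G2_42

/-!
# Row S: the spline space and the algebraic space have the same dimension
-/

set_option autoImplicit false

namespace Pool.Agent.Lib.MP_d2a91d_an.S_42

open MvPolynomial

variable {N r k : ℕ} {K : Finset (Finset (Fin N))} {p : Fin N → Fin 3 → ℝ}

/-- the tetrahedra containing the meet of two given ones are connected through triangles -/
def Chained {N : ℕ} (K : Finset (Finset (Fin N))) : Prop :=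
  ∀ t ∈ K, ∀ t' ∈ K, Relation.ReflTransGen
    (fun a b => b ∈ K ∧ (a ∩ b).card = 3 ∧ t ∩ t' ⊆ b) t t'

/-- equality of jets along a chain -/
theorem jets_chain {P : K → MvPolynomial (Fin 3) ℝ}
    (hdiv : ∀ t t' : K, (t.1 ∩ t'.1).card = 3 → ∃ l : MvPolynomial (Fin 3) ℝ,
      (∀ x ∈ tet p (t.1 ∩ t'.1), eval x l = 0) ∧ l ^ (r + 1) ∣ P t - P t')
    {g t : Finset (Fin N)} (ht : t ∈ K) (hgt : g ⊆ t) {x : Fin 3 → ℝ} (hx : x ∈ tet p g)
    {m : ℕ} (hm : m ≤ r) {b : Finset (Fin N)}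
    (hc : Relation.ReflTransGen (fun a b => b ∈ K ∧ (a ∩ b).card = 3 ∧ g ⊆ b) t b) :
    ∃ hb : b ∈ K, g ⊆ b ∧
      iteratedFDeriv ℝ m (G2_42.pe (P ⟨t, ht⟩)) x = iteratedFDeriv ℝ m (G2_42.pe (P ⟨b, hb⟩)) x := by
  induction hc with
  | refl => exact ⟨ht, hgt, rfl⟩
  | tail _ hstep ih =>
    rename_i c d _
    obtain ⟨hcK, hgc, he⟩ := ih
    obtain ⟨hdK, hcard, hgd⟩ := hstep
    refine ⟨hdK, hgd, ?_⟩
    obtain ⟨l, hl, hd⟩ := hdiv ⟨c, hcK⟩ ⟨d, hdK⟩ hcard
    rw [he]
    exact G2_42.jet_eq (hl x (G2_42.tet_mono p (Finset.subset_inter hgc hgd) hx)) hd hm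

theorem jets (hR : Realises K p) (hC : Chained K) {P : K → MvPolynomial (Fin 3) ℝ}
    (hdiv : ∀ t t' : K, (t.1 ∩ t'.1).card = 3 → ∃ l : MvPolynomial (Fin 3) ℝ,
      (∀ x ∈ tet p (t.1 ∩ t'.1), eval x l = 0) ∧ l ^ (r + 1) ∣ P t - P t')
    {t t' : K} {x : Fin 3 → ℝ} (hx : x ∈ tet p t.1) (hx' : x ∈ tet p t'.1)
    {m : ℕ} (hm : m ≤ r) :
    iteratedFDeriv ℝ m (G2_42.pe (P t)) x = iteratedFDeriv ℝ m (G2_42.pe (P t')) x := by
  have hg : x ∈ tet p (t.1 ∩ t'.1) := by
    rw [← hR.meet t.1 t.2 t'.1 t'.2]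
    exact ⟨hx, hx'⟩
  obtain ⟨hb, _, he⟩ := jets_chain hdiv t.2 Finset.inter_subset_left hg hm
    (hC t.1 t.2 t'.1 t'.2)
  exact he

/-- gluing, with chains of any length -/
theorem glueing (hR : Realises K p) (hC : Chained K) (P : K → MvPolynomial (Fin 3) ℝ)
    (hdeg : ∀ t, (P t).totalDegree ≤ k)
    (hdiv : ∀ t t' : K, (t.1 ∩ t'.1).card = 3 → ∃ l : MvPolynomial (Fin 3) ℝ,
      (∀ x ∈ tet p (t.1 ∩ t'.1), eval x l = 0) ∧ l ^ (r + 1) ∣ P t - P t') :
    glue K p P ∈ Spline r k K p ∧ ∀ t : K, ∀ x ∈ tet p t.1, glue K p P x = eval x (P t) := by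
  classical
  -- values
  have hval : ∀ t : K, ∀ x ∈ tet p t.1, glue K p P x = eval x (P t) := by
    intro t x hx
    have hex : ∃ t : K, x ∈ tet p t.1 := ⟨t, hx⟩
    show (if h : ∃ t : K, x ∈ tet p t.1 then eval x (P h.choose) else 0) = _
    rw [dif_pos hex]
    have h := jets hR hC hdiv hex.choose_spec hx (Nat.zero_le r)
    have h' := congrArg (fun z => z (fun _ => 0)) h
    simpa [G2_42.pe] using h'
  refine ⟨⟨?_, ?_, ?_⟩, hval⟩
  · intro x hx
    show (if h : ∃ t : K, x ∈ tet p t.1 then eval x (P h.choose) else 0) = _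
    rw [dif_neg]
    rintro ⟨t, ht⟩
    apply hx
    unfold Omega
    rw [Set.mem_iUnion₂]
    exact ⟨t.1, t.2, ht⟩
  · -- the Taylor series
    by_cases hK : Nonempty K
    swap
    · have hO : Omega K p = ∅ := by
        unfold Omega
        rw [Set.eq_empty_iff_forall_notMem]
        intro x hx
        rw [Set.mem_iUnion₂] at hx
        obtain ⟨t, ht, _⟩ := hx
        exact hK ⟨⟨t, ht⟩⟩
      rw [hO]
      exact contDiffOn_empty
    let tx : (Fin 3 → ℝ) → K := fun x =>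
      if h : ∃ t : K, x ∈ tet p t.1 then h.choose else hK.some
    have htx : ∀ t : K, ∀ x ∈ tet p t.1, x ∈ tet p (tx x).1 := by
      intro t x hx
      have hex : ∃ t : K, x ∈ tet p t.1 := ⟨t, hx⟩
      show x ∈ tet p (if h : ∃ t : K, x ∈ tet p t.1 then h.choose else hK.some).1
      rw [dif_pos hex]
      exact hex.choose_spec
    let q : (Fin 3 → ℝ) → FormalMultilinearSeries ℝ (Fin 3 → ℝ) ℝ := fun x m =>
      iteratedFDeriv ℝ m (G2_42.pe (P (tx x))) x
    have hq : ∀ t : K, ∀ x ∈ tet p t.1, ∀ m ≤ r,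
        q x m = iteratedFDeriv ℝ m (G2_42.pe (P t)) x := by
      intro t x hx m hm
      exact jets hR hC hdiv (htx t x hx) hx hm
    have hmem : ∀ x ∈ Omega K p, ∃ t : K, x ∈ tet p t.1 := by
      intro x hx
      unfold Omega at hx
      rw [Set.mem_iUnion₂] at hx
      obtain ⟨t, ht, hx⟩ := hx
      exact ⟨⟨t, ht⟩, hx⟩
    have hser : HasFTaylorSeriesUpToOn (r : WithTop ℕ∞) (glue K p P) q (Omega K p) := by
      refine ⟨?_, ?_, ?_⟩
      · intro x hx
        obtain ⟨t, ht⟩ := hmem x hx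
        rw [hval t x ht, hq t x ht 0 (Nat.zero_le r)]
        rfl
      · intro m hm x hx
        have hm' : m < r := by exact_mod_cast hm
        apply G2_42.within_union
        intro t ht
        by_cases hxt : x ∈ tet p t
        · have hsr : HasFTaylorSeriesUpTo ((m + 1 : ℕ) : WithTop ℕ∞) (G2_42.pe (P ⟨t, ht⟩))
              (ftaylorSeries ℝ (G2_42.pe (P ⟨t, ht⟩))) :=
            contDiff_iff_ftaylorSeries.mp (G2_42.pe_contDiff _ _)
          have hfd := hsr.fderiv m (by exact_mod_cast Nat.lt_succ_self m) x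
          have e : (q x m.succ) = iteratedFDeriv ℝ m.succ (G2_42.pe (P ⟨t, ht⟩)) x :=
            hq ⟨t, ht⟩ x hxt m.succ hm'
          rw [e]
          refine HasFDerivWithinAt.congr
            (f := fun y => iteratedFDeriv ℝ m (G2_42.pe (P ⟨t, ht⟩)) y)
            hfd.hasFDerivWithinAt ?_ ?_
          · intro y hy
            exact hq ⟨t, ht⟩ y hy m hm'.le
          · exact hq ⟨t, ht⟩ x hxt m hm'.le
        · apply HasFDerivWithinAt.of_notMem_closure
          rw [(G2_42.tet_closed p t).closure_eq]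
          exact hxt
      · intro m hm x hx
        have hm' : m ≤ r := by exact_mod_cast hm
        apply G2_42.cont_union
        intro t ht
        by_cases hxt : x ∈ tet p t
        · have hc : Continuous (fun y => iteratedFDeriv ℝ m (G2_42.pe (P ⟨t, ht⟩)) y) :=
            (G2_42.pe_contDiff (P ⟨t, ht⟩) m).continuous_iteratedFDeriv le_rfl
          refine ContinuousWithinAt.congr
            (f := fun y => iteratedFDeriv ℝ m (G2_42.pe (P ⟨t, ht⟩)) y)
            hc.continuousWithinAt ?_ ?_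
          · intro y hy
            exact hq ⟨t, ht⟩ y hy m hm'
          · exact hq ⟨t, ht⟩ x hxt m hm'
        · rw [← (G2_42.tet_closed p t).closure_eq] at hxt
          unfold ContinuousWithinAt
          rw [notMem_closure_iff_nhdsWithin_eq_bot.mp hxt]
          exact Filter.tendsto_bot
    exact hser.contDiffOn
  · intro t ht
    exact ⟨P ⟨t, ht⟩, hdeg _, fun x hx => hval ⟨t, ht⟩ x hx⟩

/-! ## The plane of a face -/

theorem orderEmb_mem {N : ℕ} (f : Finset (Fin N)) (h : f.card = 3) (i : Fin 3) :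
    f.orderEmbOfFin h i ∈ f := Finset.orderEmbOfFin_mem f h i

theorem totalDegree_lf (p : Fin N → Fin 3 → ℝ) (f : Finset (Fin N)) :
    (lf p f).totalDegree ≤ 1 := by
  unfold lf
  split
  · exact totalDegree_pl _ _ _
  · simp

theorem eval_pl_self (a b c : Fin 3 → ℝ) :
    eval a (pl a b c) = 0 ∧ eval b (pl a b c) = 0 ∧ eval c (pl a b c) = 0 := by
  refine ⟨?_, ?_, ?_⟩
  · rw [eval_pl_sub, dt_eq]; simp
  · rw [eval_pl_sub, dt_eq]; ring
  · rw [eval_pl_sub, dt_eq]; ring

theorem exists_index {f : Finset (Fin N)} (h : f.card = 3) {i : Fin N} (hi : i ∈ f) :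
    i = f.orderEmbOfFin h 0 ∨ i = f.orderEmbOfFin h 1 ∨ i = f.orderEmbOfFin h 2 := by
  have : i ∈ Set.range (f.orderEmbOfFin h) := by
    rw [Finset.range_orderEmbOfFin]; exact hi
  obtain ⟨j, rfl⟩ := this
  fin_cases j
  · exact Or.inl rfl
  · exact Or.inr (Or.inl rfl)
  · exact Or.inr (Or.inr rfl)

theorem eval_lf (p : Fin N → Fin 3 → ℝ) (f : Finset (Fin N)) :
    ∀ i ∈ f, eval (p i) (lf p f) = 0 := by
  intro i hi
  unfold lf
  split
  · rename_i h
    obtain ⟨h0, h1, h2⟩ := eval_pl_self (p (f.orderEmbOfFin h 0)) (p (f.orderEmbOfFin h 1))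
      (p (f.orderEmbOfFin h 2))
    rcases exists_index h hi with e | e | e
    · rw [e]; exact h0
    · rw [e]; exact h1
    · rw [e]; exact h2
  · simp

theorem lf_ne_zero (hR : Realises K p) {t f : Finset (Fin N)} (ht : t ∈ K) (hf : f ⊆ t)
    (hc : f.card = 3) : lf p f ≠ 0 := by
  intro h0
  obtain ⟨i3, hi3, hi3'⟩ : ∃ i ∈ t, i ∉ f := by
    by_contra hcon
    push Not at hcon
    have := Finset.card_le_card hcon
    rw [hR.card t ht] at this
    omega
  unfold lf at h0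
  rw [dif_pos hc] at h0
  have m0 := orderEmb_mem f hc 0
  have m1 := orderEmb_mem f hc 1
  have m2 := orderEmb_mem f hc 2
  have hne : ∀ i ∈ f, i ≠ i3 := fun i hi he => hi3' (he ▸ hi)
  have inj := (f.orderEmbOfFin hc).injective
  have hA := isUnit_cols (affInd4 hR ht (hf m0) (hf m1) (hf m2) hi3
    (fun e => absurd (inj e) (by decide)) (fun e => absurd (inj e) (by decide)) (hne _ m0)
    (fun e => absurd (inj e) (by decide)) (hne _ m1) (hne _ m2))
  have := eval_pl (p (f.orderEmbOfFin hc 0)) (p (f.orderEmbOfFin hc 1))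
    (p (f.orderEmbOfFin hc 2)) (p i3)
  rw [h0, map_zero] at this
  rw [← this] at hA
  exact not_isUnit_zero hA

/-! ## The isomorphism -/

theorem glue_mem_spline (hR : Realises K p) (hC : Chained K) {P : K → MvPolynomial (Fin 3) ℝ}
    (hP : P ∈ SP r k K p) :
    glue K p P ∈ Spline r k K p ∧ ∀ t : K, ∀ x ∈ tet p t.1, glue K p P x = eval x (P t) := by
  refine glueing hR hC P hP.1 ?_
  intro t t' hcard
  refine ⟨lf p (t.1 ∩ t'.1), vanish_tet p _ (totalDegree_lf p _) (eval_lf p _), ?_⟩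
  have h := hP.2 t t' hcard
  rw [← dvd_neg, neg_sub] at h
  exact h

/-- (S) -/
theorem stS_42 : StS := by
  intro N r k K p hR hC
  symm
  have hmap : ∀ P ∈ SP r k K p, glue K p P ∈ Spline r k K p := fun P hP =>
    (glue_mem_spline hR hC hP).1
  refine LinearEquiv.finrank_eq (LinearEquiv.ofBijective ((glue K p).restrict hmap) ⟨?_, ?_⟩)
  · rw [← LinearMap.ker_eq_bot, LinearMap.ker_eq_bot']
    rintro ⟨P, hP⟩ h0
    have h0' : glue K p P = 0 := congrArg Subtype.val h0
    apply Subtype.ext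
    show P = 0
    apply stG1 N K p hR P
    intro t x _
    rw [h0']
    rfl
  · rintro ⟨s, hs⟩
    obtain ⟨P, hdeg, hglue, _, hdiv⟩ := stG3 N r k K p hR s hs
    refine ⟨⟨P, hdeg, ?_⟩, Subtype.ext hglue⟩
    intro a b hcard
    have h := hdiv a b hcard (lf p (a.1 ∩ b.1))
      (lf_ne_zero hR a.2 Finset.inter_subset_left hcard) (totalDegree_lf p _)
      (fun i hi => eval_lf p _ i hi)
    rw [← dvd_neg, neg_sub] at h
    exact h

end Pool.Agent.Lib.MP_d2a91d_an.S_42
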