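import Pool.Agent.Lib.MP_d2a91d_an.Gen5
import Pool.Agent.Lib.MP_d2a91d_an.S_42
import Pool.Agent.Lib.MP_d2a91d_an.Lower

namespace Pool.Agent.Lib.MP_d2a91d_an

open MvPolynomial

variable {N : ℕ} {K : Finset (Finset (Fin N))} {p : Fin N → Fin 3 → ℝ}
  {cyc : Finset (Fin N) → ℕ → Finset (Fin N)}

/-- The generic dimension is attained. -/
theorem genDim_spec (r k : ℕ) (h : ∃ p, Realises K p) :
    ∃ p, Realises K p ∧ genDim r k K = Module.finrank ℝ (Spline r k K p) := by
  obtain ⟨p, hp⟩ := h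
  have := Nat.sInf_mem (s := {d | ∃ p : Fin N → Fin 3 → ℝ, Realises K p ∧
    d = Module.finrank ℝ (Spline r k K p)}) ⟨_, p, hp, rfl⟩
  exact this

theorem genDim_le (r k : ℕ) (hp : Realises K p) :
    genDim r k K ≤ Module.finrank ℝ (Spline r k K p) := Nat.sInf_le ⟨p, hp, rfl⟩

/-- (1) at every position. -/
theorem pos_one (hL0 : StL0) (hL1 : StL1) (hne : K.Nonempty) (hcyc : Nice K cyc)
    (r d : ℕ) (hp : Realises K p) :
    (d + r + 4).choose 3 + (interiorFaces K 3).card * (d + 3).choose 3 ≤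
      Module.finrank ℝ (Spline r (d + r + 1) K p) +
        ∑ e ∈ interiorFaces K 2, lam (degree K e) r d := by
  have := part_one hL1 hp hne hcyc r (d + r + 1) d rfl
  rw [hL0, hL0, ← S_42.stS_42 N r (d + r + 1) K p hp hcyc.star] at this
  exact this

/-- (2) at a position with distinct planes. -/
theorem pos_two (hL0 : StL0) (hL3 : StL3) (hne : K.Nonempty) (hcyc : Nice K cyc)
    (hsep : Sep K) (r d : ℕ) (hp : Realises K p)
    (hdist : ∀ e ∈ interiorFaces K 2, DistinctAt K p e) :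
    (d + r + 4).choose 3 + (interiorFaces K 3).card * (d + 3).choose 3 =
      Module.finrank ℝ (Spline r (d + r + 1) K p) +
        ∑ e ∈ interiorFaces K 2, lam (degree K e) r d := by
  have := part_two hL3 hp hne hcyc hsep hdist r (d + r + 1) d rfl
  rw [hL0, hL0, ← S_42.stS_42 N r (d + r + 1) K p hp hcyc.star] at this
  exact this

/-- (3) at every position. -/
theorem pos_three (hL0 : StL0) (hL1 : StL1) (hL2 : StL2) (hL4 : StL4) (hne : K.Nonempty)
    (hcyc : Nice K cyc) (r d : ℕ) (hp : Realises K p) {e e' g : Finset (Fin N)}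
    (he : e ∈ interiorFaces K 2) (he' : e' ∈ interiorFaces K 2) (hee : e ≠ e')
    (hg : g ∈ faces K 3) (heg : e ⊆ g) (heg' : e' ⊆ g) (hde : degree K e ≤ r + 2)
    (hde' : degree K e' ≤ r + 2) :
    (d + r + 4).choose 3 + (interiorFaces K 3).card * (d + 3).choose 3 <
      Module.finrank ℝ (Spline r (d + r + 1) K p) +
        ∑ e ∈ interiorFaces K 2, lam (degree K e) r d := by
  have := part_three hL1 hL2 hL4 hp hne hcyc r (d + r + 1) d rfl he he' hee hg heg heg' hde hde'
  rw [hL0, hL0, ← S_42.stS_42 N r (d + r + 1) K p hp hcyc.star] at this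
  exact this

/-- The generic dimension: lower bound. -/
theorem gen_one (hL0 : StL0) (hL1 : StL1) (hne : K.Nonempty) (hcyc : Nice K cyc)
    (r d : ℕ) (h : ∃ p, Realises K p) :
    (d + r + 4).choose 3 + (interiorFaces K 3).card * (d + 3).choose 3 ≤
      genDim r (d + r + 1) K + ∑ e ∈ interiorFaces K 2, lam (degree K e) r d := by
  obtain ⟨p, hp, hg⟩ := genDim_spec r (d + r + 1) h
  rw [hg]
  exact pos_one hL0 hL1 hne hcyc r d hp

/-- The generic dimension: equality. -/
theorem gen_two (hL0 : StL0) (hL1 : StL1) (hL3 : StL3) (hne : K.Nonempty) (hcyc : Nice K cyc)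
    (hsep : Sep K) (r d : ℕ)
    (h : ∃ p, Realises K p ∧ ∀ e ∈ interiorFaces K 2, DistinctAt K p e) :
    (d + r + 4).choose 3 + (interiorFaces K 3).card * (d + 3).choose 3 =
      genDim r (d + r + 1) K + ∑ e ∈ interiorFaces K 2, lam (degree K e) r d := by
  obtain ⟨p, hp, hd⟩ := h
  have h1 := gen_one hL0 hL1 hne hcyc r d ⟨p, hp⟩
  have h2 := pos_two hL0 hL3 hne hcyc hsep r d hp hd
  have h3 := genDim_le r (d + r + 1) hp
  omega

/-- The generic dimension: strictness. -/
theorem gen_three (hL0 : StL0) (hL1 : StL1) (hL2 : StL2) (hL4 : StL4) (hne : K.Nonempty)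
    (hcyc : Nice K cyc) (r d : ℕ) (h : ∃ p, Realises K p) {e e' g : Finset (Fin N)}
    (he : e ∈ interiorFaces K 2) (he' : e' ∈ interiorFaces K 2) (hee : e ≠ e')
    (hg : g ∈ faces K 3) (heg : e ⊆ g) (heg' : e' ⊆ g) (hde : degree K e ≤ r + 2)
    (hde' : degree K e' ≤ r + 2) :
    (d + r + 4).choose 3 + (interiorFaces K 3).card * (d + 3).choose 3 <
      genDim r (d + r + 1) K + ∑ e ∈ interiorFaces K 2, lam (degree K e) r d := by
  obtain ⟨p, hp, hg'⟩ := genDim_spec r (d + r + 1) h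
  rw [hg']
  exact pos_three hL0 hL1 hL2 hL4 hne hcyc r d hp he he' hee hg heg heg' hde hde'

end Pool.Agent.Lib.MP_d2a91d_an
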