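import Pool.Agent.Lib.MP_d2a91d_an.Stmts4

/-!
Row P2 of MP_d2a91d (helper42): the products of homogenised polynomials form a basis.
-/

set_option autoImplicit false

namespace Pool.Agent.Lib.MP_d2a91d_an.P2_42

open MvPolynomial

theorem hg_eq (v : Fin 3) (u : Polynomial ℝ) (s : ℕ) :
    hg v u s = C (u.coeff s) * X v ^ s +
      ∑ k ∈ Finset.range s, C (u.coeff k) * X v ^ k * X 2 ^ (s - k) := by
  unfold hg
  rw [Finset.sum_range_succ, add_comm]
  simp

theorem totalDegree_hg (v : Fin 3) (u : Polynomial ℝ) (s : ℕ) : (hg v u s).totalDegree ≤ s := by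
  unfold hg
  refine totalDegree_finsetSum_le fun k hk => ?_
  have hk' : k ≤ s := by have := Finset.mem_range.mp hk; omega
  refine (totalDegree_mul _ _).trans ?_
  have h1 : (C (u.coeff k) * X v ^ k : MvPolynomial (Fin 3) ℝ).totalDegree ≤ k := by
    refine (totalDegree_mul _ _).trans ?_
    rw [totalDegree_C, totalDegree_X_pow, zero_add]
  have h2 : (X 2 ^ (s - k) : MvPolynomial (Fin 3) ℝ).totalDegree ≤ s - k := by
    rw [totalDegree_X_pow]
  omega

/-- the triangular step -/
theorem step (S : Submodule ℝ (MvPolynomial (Fin 3) ℝ)) (v : Fin 3) (u : ℕ → Polynomial ℝ)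
    (hu : ∀ s, u s ≠ 0 ∧ (u s).natDegree = s) (q : MvPolynomial (Fin 3) ℝ) (N : ℕ)
    (h : ∀ s c, s + c ≤ N → X 2 ^ c * hg v (u s) s * q ∈ S) :
    ∀ s c, s + c ≤ N → X 2 ^ c * X v ^ s * q ∈ S := by
  intro s
  induction s using Nat.strong_induction_on with
  | _ s ih =>
    intro c hsc
    have hl : (u s).coeff s ≠ 0 := by
      have h1 := Polynomial.leadingCoeff_ne_zero.mpr (hu s).1
      rwa [Polynomial.leadingCoeff, (hu s).2] at h1
    have e1 : X 2 ^ c * hg v (u s) s * q = (u s).coeff s • (X 2 ^ c * X v ^ s * q) +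
        ∑ k ∈ Finset.range s, (u s).coeff k • (X 2 ^ (c + (s - k)) * X v ^ k * q) := by
      rw [hg_eq, mul_add, add_mul, Finset.mul_sum, Finset.sum_mul]
      congr 1
      · rw [MvPolynomial.smul_eq_C_mul]; ring
      · refine Finset.sum_congr rfl fun k _ => ?_
        rw [MvPolynomial.smul_eq_C_mul, pow_add]; ring
    have e2 : X 2 ^ c * X v ^ s * q = ((u s).coeff s)⁻¹ • (X 2 ^ c * hg v (u s) s * q -
        ∑ k ∈ Finset.range s, (u s).coeff k • (X 2 ^ (c + (s - k)) * X v ^ k * q)) := by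
      rw [e1, add_sub_cancel_right, smul_smul, inv_mul_cancel₀ hl, one_smul]
    rw [e2]
    exact S.smul_mem _ (S.sub_mem (h s c hsc) (S.sum_mem fun k hk => S.smul_mem _
      (ih k (Finset.mem_range.mp hk) _ (by have := Finset.mem_range.mp hk; omega))))

/-- the exponent vector attached to an index -/
noncomputable def ex (d : ℕ) (x : I3 d) : Fin 3 →₀ ℕ :=
  Finsupp.single 2 (x.1.2.2 : ℕ) + Finsupp.single 1 (x.1.1 : ℕ) + Finsupp.single 0 (x.1.2.1 : ℕ)

theorem ex_inj (d : ℕ) : Function.Injective (ex d) := by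
  intro x y hxy
  have h0 := DFunLike.congr_fun hxy 0
  have h1 := DFunLike.congr_fun hxy 1
  have h2 := DFunLike.congr_fun hxy 2
  simp [ex] at h0 h1 h2
  rcases x with ⟨⟨a, b, c⟩, hx⟩
  rcases y with ⟨⟨a', b', c'⟩, hy⟩
  simp only at h0 h1 h2
  have e0 : b = b' := Fin.ext h0
  have e1 : a = a' := Fin.ext h1
  have e2 : c = c' := Fin.ext h2
  subst e0 e1 e2
  rfl

theorem monomial_eq (e : Fin 3 →₀ ℕ) :
    (monomial e (1 : ℝ)) = X 2 ^ (e 2) * X 1 ^ (e 1) * X 0 ^ (e 0) := by
  rw [MvPolynomial.monomial_eq, Finsupp.prod_fintype _ _ (by intro i; simp), Fin.prod_univ_three]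
  simp
  ring

theorem mem_span_mon (d : ℕ) (S : Submodule ℝ (MvPolynomial (Fin 3) ℝ))
    (h : ∀ e : Fin 3 →₀ ℕ, e 0 + e 1 + e 2 ≤ d → monomial e (1 : ℝ) ∈ S) :
    restrictTotalDegree (Fin 3) ℝ d ≤ S := by
  intro p hp
  rw [mem_restrictTotalDegree] at hp
  rw [p.as_sum]
  refine S.sum_mem fun e he => ?_
  have h1 : monomial e (coeff e p) = coeff e p • monomial e (1 : ℝ) := by
    rw [smul_monomial]; simp
  rw [h1]
  refine S.smul_mem _ (h e ?_)
  have h2 := le_totalDegree he
  rw [Finsupp.sum_fintype _ _ (by intro i; rfl), Fin.sum_univ_three] at h2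
  omega

theorem finrank_rtd (d : ℕ) :
    Module.finrank ℝ (restrictTotalDegree (Fin 3) ℝ d) = Fintype.card (I3 d) := by
  have hli : LinearIndependent ℝ (fun x : I3 d => monomial (ex d x) (1 : ℝ)) := by
    have h1 := (basisMonomials (Fin 3) ℝ).linearIndependent.comp (ex d) (ex_inj d)
    have h2 : (fun x : I3 d => monomial (ex d x) (1 : ℝ)) =
        (basisMonomials (Fin 3) ℝ) ∘ ex d := by
      funext x
      simp
    rw [h2]
    exact h1
  have hspan : Submodule.span ℝ (Set.range fun x : I3 d => monomial (ex d x) (1 : ℝ)) =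
      restrictTotalDegree (Fin 3) ℝ d := by
    apply le_antisymm
    · rw [Submodule.span_le]
      rintro _ ⟨x, rfl⟩
      show monomial (ex d x) (1 : ℝ) ∈ restrictTotalDegree (Fin 3) ℝ d
      rw [mem_restrictTotalDegree, totalDegree_monomial _ one_ne_zero,
        Finsupp.sum_fintype _ _ (by intro i; rfl), Fin.sum_univ_three]
      have := x.2
      simp [ex]
      omega
    · apply mem_span_mon
      intro e he
      apply Submodule.subset_span
      refine ⟨⟨(⟨e 1, by omega⟩, ⟨e 0, by omega⟩, ⟨e 2, by omega⟩), by simp; omega⟩, ?_⟩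
      have hx : ex d ⟨(⟨e 1, by omega⟩, ⟨e 0, by omega⟩, ⟨e 2, by omega⟩), by simp; omega⟩ = e := by
        ext i
        fin_cases i <;> simp [ex]
      show monomial (ex d _) (1 : ℝ) = monomial e 1
      rw [hx]
  rw [← hspan, finrank_span_eq_card hli]

/-- Row P2. -/
theorem stP2_42 : StP2 := by
  intro d u u' hu hu'
  have hle : Submodule.span ℝ (Set.range (bb d u u')) ≤ restrictTotalDegree (Fin 3) ℝ d := by
    rw [Submodule.span_le]
    rintro _ ⟨x, rfl⟩
    show bb d u u' x ∈ restrictTotalDegree (Fin 3) ℝ d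
    rw [mem_restrictTotalDegree]
    unfold bb
    have h1 := totalDegree_hg 1 (u x.1.1) x.1.1
    have h2 := totalDegree_hg 0 (u' x.1.2.1) x.1.2.1
    have h3 : (X 2 ^ (x.1.2.2 : ℕ) : MvPolynomial (Fin 3) ℝ).totalDegree = x.1.2.2 := by
      rw [totalDegree_X_pow]
    have h4 := x.2
    refine (totalDegree_mul _ _).trans ?_
    refine (Nat.add_le_add_right (totalDegree_mul _ _) _).trans ?_
    omega
  have hge : restrictTotalDegree (Fin 3) ℝ d ≤ Submodule.span ℝ (Set.range (bb d u u')) := by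
    set S := Submodule.span ℝ (Set.range (bb d u u')) with hS
    have hbb : ∀ s t c : ℕ, s + t + c ≤ d →
        X 2 ^ c * hg 1 (u s) s * hg 0 (u' t) t ∈ S := by
      intro s t c h
      apply Submodule.subset_span
      exact ⟨⟨(⟨s, by omega⟩, ⟨t, by omega⟩, ⟨c, by omega⟩), h⟩, rfl⟩
    have h1 : ∀ s t c : ℕ, s + t + c ≤ d → X 2 ^ c * X 0 ^ t * hg 1 (u s) s ∈ S := by
      intro s t c h
      refine step S 0 u' hu' (hg 1 (u s) s) (d - s) ?_ t c (by omega)
      intro t' c' h'
      have := hbb s t' c' (by omega)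
      rwa [mul_right_comm] at this
    have h2 : ∀ s t c : ℕ, s + t + c ≤ d → X 2 ^ c * X 1 ^ s * X 0 ^ t ∈ S := by
      intro s t c h
      refine step S 1 u hu (X 0 ^ t) (d - t) ?_ s c (by omega)
      intro s' c' h'
      have := h1 s' t c' (by omega)
      rwa [mul_right_comm] at this
    apply mem_span_mon
    intro e he
    rw [monomial_eq]
    exact h2 (e 1) (e 0) (e 2) (by omega)
  have heq : Submodule.span ℝ (Set.range (bb d u u')) = restrictTotalDegree (Fin 3) ℝ d :=
    le_antisymm hle hge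
  refine ⟨?_, heq⟩
  rw [linearIndependent_iff_card_eq_finrank_span, Set.finrank, heq, finrank_rtd]

end Pool.Agent.Lib.MP_d2a91d_an.P2_42
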