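import Pool.Agent.Lib.MP_d2a91d_an.Stmts4

/-!
# Row P3: normal form of two pencils with a common plane
-/

set_option autoImplicit false

namespace Pool.Agent.Lib.MP_d2a91d_an.P3_32

open MvPolynomial

/-- The normal form of one pencil. -/
theorem form (τ : MvPolynomial (Fin 3) ℝ ≃ₐ[ℝ] MvPolynomial (Fin 3) ℝ) {n : ℕ}
    (l : Fin n → MvPolynomial (Fin 3) ℝ) (i : Fin n) (v : Fin 3) (hi : τ (l i) = X 2)
    (hform : ∀ k, ∃ c1 c2 : ℝ, τ (l k) = C c1 * X v + C c2 * X 2)
    (hdist : ¬ ∃ i j : Fin n, i ≠ j ∧ ∃ c c' : ℝ, c ≠ 0 ∧ c • l i = c' • l j) :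
    ∃ α β : Fin n → ℝ,
      (∀ k, k ≠ i → α k ≠ 0 ∧ τ (l k) = C (α k) * (X v - C (β k) * X 2)) ∧
      (∀ k k', k ≠ i → k' ≠ i → β k = β k' → k = k') := by
  choose c1 c2 hc using hform
  have h1 : ∀ k, k ≠ i → c1 k ≠ 0 := by
    intro k hk h0
    apply hdist
    refine ⟨k, i, hk, 1, c2 k, one_ne_zero, ?_⟩
    apply τ.injective
    rw [one_smul, map_smul, hi, hc k, h0, C_0, zero_mul, zero_add, smul_eq_C_mul]
  have h2 : ∀ k, k ≠ i → τ (l k) = C (c1 k) * (X v - C (-(c2 k) / c1 k) * X 2) := by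
    intro k hk
    have h3 : C (c1 k) * C (-(c2 k) / c1 k) = (C (-(c2 k)) : MvPolynomial (Fin 3) ℝ) := by
      rw [← C_mul]
      congr 1
      field_simp [h1 k hk]
    rw [hc k, mul_sub, ← mul_assoc, h3, C_neg]
    ring
  refine ⟨c1, fun k => -(c2 k) / c1 k, fun k hk => ⟨h1 k hk, h2 k hk⟩, ?_⟩
  intro k k' hk hk' hβ
  by_contra hne
  apply hdist
  refine ⟨k, k', hne, c1 k', c1 k, h1 k' hk', ?_⟩
  apply τ.injective
  have hβ' : -(c2 k) / c1 k = -(c2 k') / c1 k' := hβ
  rw [map_smul, map_smul, h2 k hk, h2 k' hk', hβ', smul_eq_C_mul, smul_eq_C_mul]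
  ring

/-- (P3) -/
theorem stP3_32 : StP3 := by
  intro n n' l l' i j a b b' hl hl' _ _ hij hind
  -- the common plane
  have hLa : eval a (l i) = 0 := (hl.van i).1
  have hLb : eval b (l i) = 0 := (hl.van i).2
  have hLb' : eval b' (l i) = 0 := by rw [hij]; exact (hl'.van j).2
  -- a vector on which it is `1`
  obtain ⟨w, hw⟩ : ∃ w : Fin 3 → ℝ, eval (a + w) (l i) = 1 := by
    obtain ⟨y, hy⟩ : ∃ y : Fin 3 → ℝ, eval y (l i) ≠ 0 := by
      by_contra h
      push Not at h
      exact hl.ne i (MvPolynomial.funext fun y => by rw [h y, map_zero])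
    refine ⟨(eval y (l i))⁻¹ • (y - a), ?_⟩
    have h1 : a + (eval y (l i))⁻¹ • (y - a) =
        (1 - (eval y (l i))⁻¹) • a + (eval y (l i))⁻¹ • y := by module
    rw [h1, eval_comb (hl.deg i) a y (by ring), hLa, mul_zero, zero_add, inv_mul_cancel₀ hy]
  -- values in the new coordinates
  have hev : ∀ (L : MvPolynomial (Fin 3) ℝ), L.totalDegree ≤ 1 → eval a L = 0 → ∀ x : Fin 3 → ℝ,
      eval (a + (cols (b - a) (b' - a) w).mulVec x) L =
        x 0 * eval b L + x 1 * eval b' L + x 2 * eval (a + w) L := by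
    intro L hL hLa x
    have key : ∀ z : Fin 3 → ℝ, eval z L = eval 0 L +
        ∑ i, (eval (Pi.single i 1) L - eval 0 L) * z i := by
      intro z
      conv_lhs => rw [eq_of_totalDegree_le_one L hL]
      simp
    rw [cols_mulVec, key, key b, key b', key (a + w)]
    rw [key a] at hLa
    simp only [Fin.sum_univ_three, Pi.add_apply, Pi.smul_apply, smul_eq_mul, Pi.sub_apply] at hLa ⊢
    linear_combination (1 - x 0 - x 1 - x 2) * hLa
  have hdet : (cols (b - a) (b' - a) w).det ≠ 0 := by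
    intro h0
    obtain ⟨v, hv0, hv⟩ := Matrix.exists_mulVec_eq_zero_iff.mpr h0
    have h1 := hev (l i) (hl.deg i) hLa v
    rw [hv, add_zero, hLa, hLb, hLb', hw] at h1
    have hv2 : v 2 = 0 := by linarith
    rw [cols_mulVec, hv2, zero_smul, add_zero] at hv
    rw [affineIndependent_iff] at hind
    have h2 := hind Finset.univ ![-(v 0) - v 1, v 0, v 1]
      (by
        rw [Fin.sum_univ_three]
        show -(v 0) - v 1 + v 0 + v 1 = 0
        ring) (by
        rw [Fin.sum_univ_three]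
        show (-(v 0) - v 1) • a + v 0 • b + v 1 • b' = 0
        rw [← hv]
        module)
    have h3 : v 0 = 0 := h2 1 (Finset.mem_univ _)
    have h4 : v 1 = 0 := h2 2 (Finset.mem_univ _)
    apply hv0
    funext k
    fin_cases k
    · exact h3
    · exact h4
    · exact hv2
  have hA : IsUnit (cols (b - a) (b' - a) w).det := isUnit_iff_ne_zero.mpr hdet
  -- the linear forms in the new coordinates
  have hτ : ∀ (L : MvPolynomial (Fin 3) ℝ), L.totalDegree ≤ 1 → eval a L = 0 →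
      affE a (cols (b - a) (b' - a) w) hA L =
        C (eval b L) * X 0 + C (eval b' L) * X 1 + C (eval (a + w) L) * X 2 := by
    intro L hL hLa
    refine MvPolynomial.funext fun x => ?_
    rw [affE_apply, eval_aff, hev L hL hLa x]
    simp only [map_add, map_mul, eval_C, eval_X]
    ring
  have hi : affE a (cols (b - a) (b' - a) w) hA (l i) = X 2 := by
    rw [hτ (l i) (hl.deg i) hLa, hLb, hLb', hw]
    simp
  obtain ⟨α, β, h1, h2⟩ := form (affE a (cols (b - a) (b' - a) w) hA) l i 1 hi (fun k =>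
    ⟨eval b' (l k), eval (a + w) (l k), by
      rw [hτ (l k) (hl.deg k) (hl.van k).1, (hl.van k).2]
      simp⟩) hl.dist
  obtain ⟨α', β', h1', h2'⟩ := form (affE a (cols (b - a) (b' - a) w) hA) l' j 0
    (by rw [← hij]; exact hi) (fun k =>
    ⟨eval b (l' k), eval (a + w) (l' k), by
      rw [hτ (l' k) (hl'.deg k) (hl'.van k).1, (hl'.van k).2]
      simp⟩) hl'.dist
  exact ⟨a, cols (b - a) (b' - a) w, hA, α, β, α', β', hi, h1, h1', h2, h2'⟩

end Pool.Agent.Lib.MP_d2a91d_an.P3_32
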