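import Pool.Agent.Lib.MP_d2a91d_an.P1_79

/-!
Assembly of row P of MP_d2a91d (helper79).
-/

set_option autoImplicit false

namespace Pool.Agent.Lib.MP_d2a91d_an.H79

open MvPolynomial

/-! Homogenisation. -/

theorem eval_hg (v : Fin 3) (g : Polynomial ℝ) {m : ℕ} (hm : g.natDegree ≤ m) {x : Fin 3 → ℝ}
    (hx : x 2 ≠ 0) : eval x (hg v g m) = x 2 ^ m * g.eval (x v / x 2) := by
  unfold hg
  rw [map_sum, Polynomial.eval_eq_sum_range' (Nat.lt_succ_of_le hm), Finset.mul_sum]
  refine Finset.sum_congr rfl fun k hk => ?_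
  rw [Finset.mem_range] at hk
  rw [map_mul, map_mul, map_pow, map_pow, eval_C, eval_X, eval_X, div_pow]
  have h1 : x 2 ^ m = x 2 ^ (m - k) * x 2 ^ k := by
    rw [← pow_add]
    congr 1
    omega
  rw [h1]
  field_simp

theorem totalDegree_hg (v : Fin 3) (g : Polynomial ℝ) (m : ℕ) : (hg v g m).totalDegree ≤ m := by
  unfold hg
  refine totalDegree_finsetSum_le fun k hk => ?_
  rw [Finset.mem_range] at hk
  refine (totalDegree_mul _ _).trans ?_
  have h1 := (totalDegree_mul (C (g.coeff k)) (X v ^ k : MvPolynomial (Fin 3) ℝ))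
  rw [totalDegree_C, totalDegree_X_pow] at h1
  rw [totalDegree_X_pow]
  omega

/-- The homogenised identity. -/
theorem hg_identity (v : Fin 3) {m : ℕ} (p : Fin m → ℝ) (r s c : ℕ) (u : Polynomial ℝ)
    (hu : u.natDegree ≤ s) (g : Fin m → Polynomial ℝ) (hg' : ∀ k, (g k).natDegree ≤ s + c)
    (hs : ∑ k, (Polynomial.X - Polynomial.C (p k)) ^ (r + 1) * g k = u) :
    (X 2 : MvPolynomial (Fin 3) ℝ) ^ (r + 1) * (X 2 ^ c * hg v u s) =
      ∑ k, (X v - C (p k) * X 2) ^ (r + 1) * hg v (g k) (s + c) := by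
  have h2 : (X 2 : MvPolynomial (Fin 3) ℝ) ≠ 0 := X_ne_zero 2
  apply mul_left_cancel₀ h2
  refine MvPolynomial.funext fun x => ?_
  have e : ∀ P : MvPolynomial (Fin 3) ℝ, eval x (X 2 * P) = x 2 * eval x P := fun P => by
    rw [map_mul, eval_X]
  rw [e, e]
  by_cases hx : x 2 = 0
  · rw [hx, zero_mul, zero_mul]
  · congr 1
    rw [map_mul, map_pow, map_mul, map_pow, eval_X, eval_hg v u hu hx, map_sum, ← hs,
      Polynomial.eval_finsetSum, Finset.mul_sum, Finset.mul_sum, Finset.mul_sum]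
    refine Finset.sum_congr rfl fun k _ => ?_
    rw [map_mul, map_pow, map_sub, map_mul, eval_X, eval_X, eval_C, eval_hg v (g k) (hg' k) hx,
      Polynomial.eval_mul, Polynomial.eval_pow, Polynomial.eval_sub, Polynomial.eval_X,
      Polynomial.eval_C]
    have h3 : x v - p k * x 2 = x 2 * (x v / x 2 - p k) := by
      field_simp
    rw [h3, mul_pow, pow_add (x 2) s c]
    ring

/-- Membership in `entry`. -/
theorem mem_entry {m r d s t c : ℕ} (v : Fin 3) (L : Fin (m + 1) → MvPolynomial (Fin 3) ℝ)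
    (i : Fin (m + 1)) (α β : Fin (m + 1) → ℝ) (hi : L i = X 2)
    (hk : ∀ k, k ≠ i → α k ≠ 0 ∧ L k = C (α k) * (X v - C (β k) * X 2))
    (P : MvPolynomial (Fin 3) ℝ) (hP : P.totalDegree ≤ t) (hd : s + t + c ≤ d)
    (u : Polynomial ℝ) (hu : u.natDegree ≤ s) (g : Fin m → Polynomial ℝ)
    (hg' : ∀ k, (g k).natDegree ≤ s + c)
    (hs : ∑ k, (Polynomial.X - Polynomial.C (β (i.succAbove k))) ^ (r + 1) * g k = u)
    (Q : restrictTotalDegree (Fin 3) ℝ d)
    (hQ : (Q : MvPolynomial (Fin 3) ℝ) = X 2 ^ c * hg v u s * P) :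
    Q ∈ entry r d L i := by
  have hdeg : ∀ k, (C (-((α (i.succAbove k)) ^ (r + 1))⁻¹) * hg v (g k) (s + c) * P) ∈
      restrictTotalDegree (Fin 3) ℝ d := by
    intro k
    rw [mem_restrictTotalDegree]
    refine (totalDegree_mul _ _).trans ?_
    have h1 := totalDegree_mul (C (-((α (i.succAbove k)) ^ (r + 1))⁻¹)) (hg v (g k) (s + c))
    rw [totalDegree_C] at h1
    have h2 := totalDegree_hg v (g k) (s + c)
    omega
  refine ⟨i.insertNth Q (fun k => ⟨_, hdeg k⟩), ?_, ?_⟩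
  · rw [SetLike.mem_coe, LinearMap.mem_ker, Phi_apply, Fin.sum_univ_succAbove _ i,
      Fin.insertNth_apply_same, hQ, hi]
    have h1 := hg_identity v (fun k => β (i.succAbove k)) r s c u hu g hg' hs
    have h2 : (X 2 : MvPolynomial (Fin 3) ℝ) ^ (r + 1) * (X 2 ^ c * hg v u s * P) =
        (∑ k, (X v - C (β (i.succAbove k)) * X 2) ^ (r + 1) * hg v (g k) (s + c)) * P := by
      rw [← h1]
      ring
    rw [h2, Finset.sum_mul, ← Finset.sum_add_distrib]
    refine Finset.sum_eq_zero fun k _ => ?_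
    rw [Fin.insertNth_apply_succAbove]
    obtain ⟨h3, h4⟩ := hk _ (i.succAbove_ne k)
    rw [h4, mul_pow]
    have h5 : (C (α (i.succAbove k)) : MvPolynomial (Fin 3) ℝ) ^ (r + 1) *
        C (-((α (i.succAbove k)) ^ (r + 1))⁻¹) = -1 := by
      rw [← C_pow, ← C_mul, mul_neg, mul_inv_cancel₀ (pow_ne_zero _ h3), C_neg, C_1]
    change _ + C (α (i.succAbove k)) ^ (r + 1) * (X v - C (β (i.succAbove k)) * X 2) ^ (r + 1) *
      (C (-((α (i.succAbove k)) ^ (r + 1))⁻¹) * hg v (g k) (s + c) * P) = 0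
    linear_combination ((X v - C (β (i.succAbove k)) * X 2) ^ (r + 1) * hg v (g k) (s + c) * P) * h5
  · rw [LinearMap.proj_apply, Fin.insertNth_apply_same]

/-! Dimension of `entry`. -/

/-- Insertion of `0`. -/
noncomputable def ins (d : ℕ) {m : ℕ} (i : Fin (m + 1)) :
    (Fin m → restrictTotalDegree (Fin 3) ℝ d) →ₗ[ℝ]
      (Fin (m + 1) → restrictTotalDegree (Fin 3) ℝ d) where
  toFun q := i.insertNth 0 q
  map_add' q q' := by
    funext k
    refine Fin.succAboveCases i ?_ (fun k => ?_) k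
    · rw [Pi.add_apply, Fin.insertNth_apply_same, Fin.insertNth_apply_same,
        Fin.insertNth_apply_same, add_zero]
    · rw [Pi.add_apply, Fin.insertNth_apply_succAbove, Fin.insertNth_apply_succAbove,
        Fin.insertNth_apply_succAbove, Pi.add_apply]
  map_smul' c q := by
    funext k
    refine Fin.succAboveCases i ?_ (fun k => ?_) k
    · rw [Pi.smul_apply, Fin.insertNth_apply_same, Fin.insertNth_apply_same, smul_zero]
    · rw [Pi.smul_apply, Fin.insertNth_apply_succAbove, Fin.insertNth_apply_succAbove,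
        Pi.smul_apply, RingHom.id_apply]

theorem ins_same (d : ℕ) {m : ℕ} (i : Fin (m + 1))
    (q : Fin m → restrictTotalDegree (Fin 3) ℝ d) : ins d i q i = 0 :=
  Fin.insertNth_apply_same (α := fun _ => restrictTotalDegree (Fin 3) ℝ d) i 0 q

theorem ins_succAbove (d : ℕ) {m : ℕ} (i : Fin (m + 1))
    (q : Fin m → restrictTotalDegree (Fin 3) ℝ d) (k : Fin m) : ins d i q (i.succAbove k) = q k :=
  Fin.insertNth_apply_succAbove (α := fun _ => restrictTotalDegree (Fin 3) ℝ d) i 0 q k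

theorem ins_injective (d : ℕ) {m : ℕ} (i : Fin (m + 1)) : Function.Injective (ins d i) := by
  intro q q' h
  funext k
  rw [← ins_succAbove d i q k, h, ins_succAbove]

theorem Phi_ins (r d : ℕ) {m : ℕ} (l : Fin (m + 1) → MvPolynomial (Fin 3) ℝ) (i : Fin (m + 1))
    (q : Fin m → restrictTotalDegree (Fin 3) ℝ d) :
    Phi r d l (ins d i q) = Phi r d (fun k => l (i.succAbove k)) q := by
  rw [Phi_apply, Phi_apply, Fin.sum_univ_succAbove _ i, ins_same]
  simp only [ins_succAbove]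
  rw [ZeroMemClass.coe_zero, mul_zero, zero_add]

theorem finrank_entry (r d : ℕ) {m : ℕ} (l : Fin (m + 1) → MvPolynomial (Fin 3) ℝ)
    (i : Fin (m + 1)) :
    Module.finrank ℝ (entry r d l i) + Module.finrank ℝ (LinearMap.range (Phi r d l)) =
      Module.finrank ℝ (restrictTotalDegree (Fin 3) ℝ d) +
        Module.finrank ℝ (LinearMap.range (Phi r d (fun k => l (i.succAbove k)))) := by
  have h1 := rank_restrict (LinearMap.proj (R := ℝ)
    (φ := fun _ : Fin (m + 1) => restrictTotalDegree (Fin 3) ℝ d) i) (LinearMap.ker (Phi r d l))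
  have h2 := LinearMap.finrank_range_add_finrank_ker (Phi r d l)
  have h3 := LinearMap.finrank_range_add_finrank_ker (Phi r d (fun k => l (i.succAbove k)))
  rw [Module.finrank_pi_fintype, Finset.sum_const, Finset.card_univ, Fintype.card_fin,
    smul_eq_mul] at h2 h3
  have h4 : (LinearMap.ker (Phi r d (fun k => l (i.succAbove k)))).map (ins d i) =
      LinearMap.ker (LinearMap.proj (R := ℝ)
        (φ := fun _ : Fin (m + 1) => restrictTotalDegree (Fin 3) ℝ d) i) ⊓
        LinearMap.ker (Phi r d l) := by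
    apply le_antisymm
    · rintro _ ⟨q, hq, rfl⟩
      refine ⟨?_, ?_⟩
      · rw [SetLike.mem_coe, LinearMap.mem_ker, LinearMap.proj_apply, ins_same]
      · rw [SetLike.mem_coe, LinearMap.mem_ker, Phi_ins]
        exact hq
    · rintro q ⟨hq1, hq2⟩
      rw [SetLike.mem_coe, LinearMap.mem_ker, LinearMap.proj_apply] at hq1
      rw [SetLike.mem_coe, LinearMap.mem_ker] at hq2
      have h5 : ins d i (fun k => q (i.succAbove k)) = q := by
        funext k
        refine Fin.succAboveCases i ?_ (fun k => ?_) k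
        · rw [ins_same, hq1]
        · rw [ins_succAbove]
      refine ⟨fun k => q (i.succAbove k), ?_, h5⟩
      rw [SetLike.mem_coe, LinearMap.mem_ker, ← Phi_ins, h5]
      exact hq2
  have h5 := (Submodule.equivMapOfInjective (ins d i) (ins_injective d i)
    (LinearMap.ker (Phi r d (fun k => l (i.succAbove k))))).finrank_eq
  rw [h4] at h5
  change Module.finrank ℝ (entry r d l i) + _ = _ at h1
  rw [Nat.succ_mul] at h2
  omega

/-! Transport. -/

/-- the change of coordinates on the polynomials of bounded degree -/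
noncomputable def affR (d : ℕ) (o : Fin 3 → ℝ) (A : Matrix (Fin 3) (Fin 3) ℝ)
    (hA : IsUnit A.det) :
    restrictTotalDegree (Fin 3) ℝ d ≃ₗ[ℝ] restrictTotalDegree (Fin 3) ℝ d where
  toFun P := ⟨affE o A hA P, by
    rw [mem_restrictTotalDegree]
    exact (totalDegree_aff_le _ _ _).trans ((mem_restrictTotalDegree _ _ _).1 P.2)⟩
  invFun P := ⟨(affE o A hA).symm P, by
    rw [mem_restrictTotalDegree]
    exact (totalDegree_affE_symm_le _ _ _ _).trans ((mem_restrictTotalDegree _ _ _).1 P.2)⟩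
  left_inv P := Subtype.ext (AlgEquiv.symm_apply_apply _ _)
  right_inv P := Subtype.ext (AlgEquiv.apply_symm_apply _ _)
  map_add' P Q := Subtype.ext (map_add (affE o A hA) _ _)
  map_smul' c P := Subtype.ext (map_smul (affE o A hA) _ _)

theorem entry_affE (r d : ℕ) {n : ℕ} (l : Fin n → MvPolynomial (Fin 3) ℝ) (i : Fin n)
    (o : Fin 3 → ℝ) (A : Matrix (Fin 3) (Fin 3) ℝ) (hA : IsUnit A.det) :
    entry r d (fun k => affE o A hA (l k)) i =
      (entry r d l i).map (affR d o A hA : restrictTotalDegree (Fin 3) ℝ d →ₗ[ℝ] _) := by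
  apply le_antisymm
  · rintro _ ⟨q, hq, rfl⟩
    rw [SetLike.mem_coe, LinearMap.mem_ker, Phi_apply] at hq
    refine ⟨(affR d o A hA).symm (q i), ⟨fun k => (affR d o A hA).symm (q k), ?_, rfl⟩, ?_⟩
    · rw [SetLike.mem_coe, LinearMap.mem_ker, Phi_apply]
      apply (affE o A hA).injective
      rw [map_sum, map_zero, ← hq]
      refine Finset.sum_congr rfl fun k _ => ?_
      rw [map_mul, map_pow]
      congr 1
      exact AlgEquiv.apply_symm_apply _ _
    · exact (affR d o A hA).apply_symm_apply (q i)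
  · rintro _ ⟨_, ⟨q, hq, rfl⟩, rfl⟩
    rw [SetLike.mem_coe, LinearMap.mem_ker, Phi_apply] at hq
    refine ⟨fun k => affR d o A hA (q k), ?_, rfl⟩
    rw [SetLike.mem_coe, LinearMap.mem_ker, Phi_apply, ← map_zero (affE o A hA), ← hq, map_sum]
    refine Finset.sum_congr rfl fun k _ => ?_
    rw [map_mul, map_pow]
    rfl

/-! Counting. -/

/-- the index as a triple of natural numbers -/
def nat3 (d : ℕ) (x : I3 d) : ℕ × ℕ × ℕ := ((x.1.1 : ℕ), (x.1.2.1 : ℕ), (x.1.2.2 : ℕ))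

theorem nat3_injective (d : ℕ) : Function.Injective (nat3 d) := by
  rintro ⟨⟨a, b, c⟩, h⟩ ⟨⟨a', b', c'⟩, h'⟩ hx
  unfold nat3 at hx
  simp only [Prod.mk.injEq] at hx
  obtain ⟨h1, h2, h3⟩ := hx
  apply Subtype.ext
  exact Prod.ext (Fin.ext h1) (Prod.ext (Fin.ext h2) (Fin.ext h3))

/-- the triples -/
abbrev box (d : ℕ) : Finset (ℕ × ℕ × ℕ) :=
  Finset.range (d + 1) ×ˢ Finset.range (d + 1) ×ˢ Finset.range (d + 1)

theorem card_I3 (d : ℕ) (Q : ℕ × ℕ × ℕ → Prop) [DecidablePred Q] :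
    ((box d).filter (fun x => x.1 + x.2.1 + x.2.2 ≤ d ∧ Q x)).card =
      (Finset.univ.filter (fun x : I3 d => Q (nat3 d x))).card := by
  rw [← Finset.card_image_of_injective (Finset.univ.filter (fun x : I3 d => Q (nat3 d x)))
    (nat3_injective d)]
  congr 1
  ext x
  rw [Finset.mem_filter, Finset.mem_image, Finset.mem_product, Finset.mem_product,
    Finset.mem_range, Finset.mem_range, Finset.mem_range]
  constructor
  · rintro ⟨⟨h1, h2, h3⟩, h4, h5⟩
    exact ⟨⟨⟨⟨x.1, h1⟩, ⟨x.2.1, h2⟩, ⟨x.2.2, h3⟩⟩, h4⟩, Finset.mem_filter.2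
      ⟨Finset.mem_univ _, h5⟩, rfl⟩
  · rintro ⟨y, hy, rfl⟩
    exact ⟨⟨y.1.1.2, y.1.2.1.2, y.1.2.2.2⟩, y.2, (Finset.mem_filter.1 hy).2⟩

theorem card_swap (d : ℕ) (Q : ℕ × ℕ × ℕ → Prop) [DecidablePred Q] :
    ((box d).filter (fun x => x.1 + x.2.1 + x.2.2 ≤ d ∧ Q (x.2.1, x.1, x.2.2))).card =
      ((box d).filter (fun x => x.1 + x.2.1 + x.2.2 ≤ d ∧ Q x)).card := by
  refine Finset.card_nbij' (fun x => (x.2.1, x.1, x.2.2)) (fun x => (x.2.1, x.1, x.2.2)) ?_ ?_
    (fun x _ => rfl) (fun x _ => rfl)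
  · intro x hx
    simp only [Finset.coe_filter, Finset.mem_product, Finset.mem_range, Set.mem_ofPred_eq] at hx ⊢
    refine ⟨⟨hx.1.2.1, hx.1.1, hx.1.2.2⟩, ?_, hx.2.2⟩
    have := hx.2.1
    omega
  · intro x hx
    simp only [Finset.coe_filter, Finset.mem_product, Finset.mem_range, Set.mem_ofPred_eq] at hx ⊢
    refine ⟨⟨hx.1.2.1, hx.1.1, hx.1.2.2⟩, ?_, hx.2.2⟩
    have := hx.2.1
    omega

theorem finrank_sp {ι V : Type*} [AddCommGroup V] [Module ℝ V] {f : ι → V}
    (hf : LinearIndependent ℝ f) (S : Finset ι) :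
    Module.finrank ℝ (Submodule.span ℝ (f '' (S : Set ι))) = S.card := by
  have h := finrank_span_eq_card (hf.comp (Subtype.val : S → ι) Subtype.val_injective)
  rw [Fintype.card_coe] at h
  rw [← h, Set.image_eq_range]
  rfl

theorem finrank_entry_pencil (h4 : StP4) {m r d : ℕ} (hm : 3 ≤ m + 1)
    (l : Fin (m + 1) → MvPolynomial (Fin 3) ℝ) (i : Fin (m + 1)) {a b : Fin 3 → ℝ} (hab : a ≠ b)
    (h : Pencil l a b) :
    Module.finrank ℝ (entry r d l i) + ((box d).filter (fun x => x.1 + x.2.1 + x.2.2 ≤ d ∧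
      (m + 1 - 2) * (x.1 + x.2.2 + 1) + x.1 ≤ r)).card =
      Module.finrank ℝ (restrictTotalDegree (Fin 3) ℝ d) := by
  have h1 := finrank_entry r d l i
  have h2 := L3 (m + 1) r d l a b hab h.deg h.van h.dist h.ne
  have h3 := L3 m r d (fun k => l (i.succAbove k)) a b hab (fun k => h.deg _) (fun k => h.van _)
    (by
      rintro ⟨k, k', hkk, c, c', hc, he⟩
      exact h.dist ⟨_, _, fun hs => hkk (Fin.succAbove_right_injective hs), c, c', hc, he⟩)
    (fun k => h.ne _)
  have h5 := h4 (m + 1) r d hm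
  rw [Nat.add_sub_cancel m 1] at h5
  rw [h2, h3, h5] at h1
  unfold box
  omega

/-- the condition of the first pencil -/
abbrev Q1 (m r : ℕ) (x : ℕ × ℕ × ℕ) : Prop := (m + 1 - 2) * (x.1 + x.2.2 + 1) + x.1 ≤ r

/-- the condition of the second pencil -/
abbrev Q2 (m r : ℕ) (x : ℕ × ℕ × ℕ) : Prop := (m + 1 - 2) * (x.2.1 + x.2.2 + 1) + x.2.1 ≤ r

/-- Row P from the rows P2, P3, P4. -/
theorem stP_of (h2 : StP2) (h3 : StP3) (h4 : StP4) : StP := by
  intro n n' r d l l' i j a b b' hl hl' hn hn' hij hab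
  obtain ⟨o, A, hA, α, β, α', β', hLi, hL, hL', hβ, hβ'⟩ :=
    h3 n n' l l' i j a b b' hl hl' (by omega) (by omega) hij hab
  have hne : a ≠ b := by
    intro h
    have h1 : (0 : Fin 3) = 1 := hab.injective (a₁ := 0) (a₂ := 1) h
    exact absurd h1 (by decide)
  have hne' : a ≠ b' := by
    intro h
    have h1 : (0 : Fin 3) = 2 := hab.injective (a₁ := 0) (a₂ := 2) h
    exact absurd h1 (by decide)
  obtain ⟨m, rfl⟩ : ∃ m, n = m + 1 := ⟨n - 1, by omega⟩
  obtain ⟨m', rfl⟩ : ∃ m', n' = m' + 1 := ⟨n' - 1, by omega⟩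
  have hm1 : m + 1 - 2 = m - 1 := by omega
  have hm1' : m' + 1 - 2 = m' - 1 := by omega
  have hp : Function.Injective fun k : Fin m => β (i.succAbove k) := fun k k' h =>
    Fin.succAbove_right_injective (hβ _ _ (i.succAbove_ne k) (i.succAbove_ne k') h)
  have hp' : Function.Injective fun k : Fin m' => β' (j.succAbove k) := fun k k' h =>
    Fin.succAbove_right_injective (hβ' _ _ (j.succAbove_ne k) (j.succAbove_ne k') h)
  choose u hu hus hug using fun s => exists_u (by omega : 1 ≤ m) hp r s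
  choose u' hu' hus' hug' using fun s => exists_u (by omega : 1 ≤ m') hp' r s
  obtain ⟨hLI, hspan⟩ := h2 d u u' (fun s => ⟨hu s, hus s⟩) (fun s => ⟨hu' s, hus' s⟩)
  have hmem : ∀ x, bb d u u' x ∈ restrictTotalDegree (Fin 3) ℝ d := fun x => by
    rw [← hspan]
    exact Submodule.subset_span ⟨x, rfl⟩
  have hD : Module.finrank ℝ (restrictTotalDegree (Fin 3) ℝ d) =
      (Finset.univ : Finset (I3 d)).card := by
    rw [← hspan, Finset.card_univ]
    exact finrank_span_eq_card hLI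
  let f : I3 d → restrictTotalDegree (Fin 3) ℝ d := fun x => ⟨bb d u u' x, hmem x⟩
  have hf : LinearIndependent ℝ f :=
    LinearIndependent.of_comp (Submodule.subtype _) hLI
  -- transport
  have ht : Module.finrank ℝ (entry r d l i ⊔ entry r d l' j : Submodule ℝ _) =
      Module.finrank ℝ (entry r d (fun k => affE o A hA (l k)) i ⊔
        entry r d (fun k => affE o A hA (l' k)) j : Submodule ℝ _) := by
    rw [entry_affE, entry_affE, ← Submodule.map_sup]
    exact ((affR d o A hA).finrank_map_eq _).symm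
  have hE1 : Module.finrank ℝ (entry r d (fun k => affE o A hA (l k)) i) +
      (Finset.univ.filter (fun x : I3 d => Q1 m r (nat3 d x))).card =
        (Finset.univ : Finset (I3 d)).card := by
    rw [← hD, ← finrank_entry_pencil (r := r) (d := d) h4 hn l i hne hl, entry_affE,
      (affR d o A hA).finrank_map_eq]
    exact congrArg _ (card_I3 d (Q1 m r)).symm
  have hE2 : Module.finrank ℝ (entry r d (fun k => affE o A hA (l' k)) j) +
      (Finset.univ.filter (fun x : I3 d => Q2 m' r (nat3 d x))).card =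
        (Finset.univ : Finset (I3 d)).card := by
    rw [← hD, ← finrank_entry_pencil (r := r) (d := d) h4 hn' l' j hne' hl', entry_affE,
      (affR d o A hA).finrank_map_eq]
    exact congrArg _ ((card_I3 d (Q2 m' r)).symm.trans (card_swap d (Q1 m' r)))
  have hle1 : Submodule.span ℝ (f '' (Finset.univ.filter (fun x : I3 d => ¬ Q1 m r (nat3 d x)) :
      Finset (I3 d))) ≤ entry r d (fun k => affE o A hA (l k)) i := by
    rw [Submodule.span_le]
    rintro _ ⟨x, hx, rfl⟩
    have hx1 : ¬ Q1 m r (nat3 d x) := (Finset.mem_filter.1 hx).2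
    have hx2 : r + 1 ≤ (m - 1) * ((x.1.1 : ℕ) + (x.1.2.2 : ℕ) + 1) + (x.1.1 : ℕ) := by
      change ¬ (m + 1 - 2) * ((x.1.1 : ℕ) + (x.1.2.2 : ℕ) + 1) + (x.1.1 : ℕ) ≤ r at hx1
      rw [hm1] at hx1
      omega
    obtain ⟨g, hg', hgs⟩ := hug (x.1.1 : ℕ) ((x.1.1 : ℕ) + (x.1.2.2 : ℕ)) (by omega) hx2
    exact mem_entry 1 _ i α β hLi hL (hg 0 (u' (x.1.2.1 : ℕ)) (x.1.2.1 : ℕ))
      (totalDegree_hg _ _ _) x.2 (u (x.1.1 : ℕ)) (hus _).le g hg' hgs _ rfl
  have hle2 : Submodule.span ℝ (f '' (Finset.univ.filter (fun x : I3 d => ¬ Q2 m' r (nat3 d x)) :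
      Finset (I3 d))) ≤ entry r d (fun k => affE o A hA (l' k)) j := by
    rw [Submodule.span_le]
    rintro _ ⟨x, hx, rfl⟩
    have hx1 : ¬ Q2 m' r (nat3 d x) := (Finset.mem_filter.1 hx).2
    have hx2 : r + 1 ≤ (m' - 1) * ((x.1.2.1 : ℕ) + (x.1.2.2 : ℕ) + 1) + (x.1.2.1 : ℕ) := by
      change ¬ (m' + 1 - 2) * ((x.1.2.1 : ℕ) + (x.1.2.2 : ℕ) + 1) + (x.1.2.1 : ℕ) ≤ r at hx1
      rw [hm1'] at hx1
      omega
    obtain ⟨g, hg', hgs⟩ := hug' (x.1.2.1 : ℕ) ((x.1.2.1 : ℕ) + (x.1.2.2 : ℕ)) (by omega) hx2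
    refine mem_entry 0 _ j α' β' (by rw [← hij]; exact hLi) hL' (hg 1 (u (x.1.1 : ℕ)) (x.1.1 : ℕ))
      (totalDegree_hg _ _ _) ?_ (u' (x.1.2.1 : ℕ)) (hus' _).le g hg' hgs _ ?_
    · have := x.2
      omega
    · change X 2 ^ (x.1.2.2 : ℕ) * hg 1 (u x.1.1) x.1.1 * hg 0 (u' x.1.2.1) x.1.2.1 = _
      ring
  have hc1 := Finset.card_filter_add_card_filter_not (s := (Finset.univ : Finset (I3 d)))
    (fun x : I3 d => Q1 m r (nat3 d x))
  have hc2 := Finset.card_filter_add_card_filter_not (s := (Finset.univ : Finset (I3 d)))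
    (fun x : I3 d => Q2 m' r (nat3 d x))
  have he1 := Submodule.eq_of_le_of_finrank_eq hle1 (by rw [finrank_sp hf]; omega)
  have he2 := Submodule.eq_of_le_of_finrank_eq hle2 (by rw [finrank_sp hf]; omega)
  have hmu : mu (m + 1) (m' + 1) r d =
      (Finset.univ.filter (fun x : I3 d => Q1 m r (nat3 d x) ∧ Q2 m' r (nat3 d x))).card :=
    card_I3 d (fun x => Q1 m r x ∧ Q2 m' r x)
  have hc3 := Finset.card_filter_add_card_filter_not (s := (Finset.univ : Finset (I3 d)))
    (fun x : I3 d => Q1 m r (nat3 d x) ∧ Q2 m' r (nat3 d x))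
  rw [ht, ← he1, ← he2, ← Submodule.span_union, ← Set.image_union, ← Finset.coe_union,
    finrank_sp hf, hmu, hD, ← Finset.filter_or]
  simp only [not_and_or] at hc3
  omega

end Pool.Agent.Lib.MP_d2a91d_an.H79
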