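import Pool.Agent.Lib.MP_d2a91d_an.Stmts7
import Pool.Agent.Lib.MP_d2a91d_an.P_79
import Pool.Agent.Lib.MP_d2a91d_an.P2_42
import Pool.Agent.Lib.MP_d2a91d_an.P3_32

/-!
# (K) Everything of order `2 r` at the common point is a sum of two entries
-/

set_option autoImplicit false

namespace Pool.Agent.Lib.MP_d2a91d_an.K79

open MvPolynomial H79

theorem eval_hg_smul (w : Fin 3) (u : Polynomial ℝ) (m : ℕ) (v : Fin 3 → ℝ) (s : ℝ) :
    eval (s • v) (hg w u m) = s ^ m * eval v (hg w u m) := by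
  unfold hg
  rw [map_sum, map_sum, Finset.mul_sum]
  refine Finset.sum_congr rfl fun k hk => ?_
  rw [Finset.mem_range] at hk
  have h1 : s ^ m = s ^ k * s ^ (m - k) := by
    rw [← pow_add]
    congr 1
    omega
  simp only [map_mul, map_pow, eval_C, eval_X, Pi.smul_apply, smul_eq_mul, mul_pow]
  rw [h1]
  ring

/-- the degree of an index -/
def dg {d : ℕ} (x : I3 d) : ℕ := (x.1.1 : ℕ) + x.1.2.1 + x.1.2.2

theorem eval_bb_smul (d : ℕ) (u u' : ℕ → Polynomial ℝ) (x : I3 d) (v : Fin 3 → ℝ) (s : ℝ) :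
    eval (s • v) (bb d u u' x) = s ^ dg x * eval v (bb d u u' x) := by
  unfold bb dg
  rw [map_mul, map_mul, map_pow, map_mul, map_mul, map_pow, eval_hg_smul, eval_hg_smul, eval_X,
    eval_X, Pi.smul_apply, smul_eq_mul, mul_pow, pow_add, pow_add]
  ring

theorem coeff_zero {d L : ℕ} (u u' : ℕ → Polynomial ℝ) (hLI : LinearIndependent ℝ (bb d u u'))
    (c : I3 d → ℝ) (Q : MvPolynomial (Fin 3) ℝ) (hQ : Q = ∑ x, c x • bb d u u' x)
    (hord : ∀ v : Fin 3 → ℝ, ∃ G : Polynomial ℝ, ∀ s : ℝ, eval (s • v) Q = s ^ L * G.eval s)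
    (x : I3 d) (hx : dg x < L) : c x = 0 := by
  classical
  have h1 : ∑ y : I3 d, (if dg x = dg y then c y else 0) • bb d u u' y = 0 := by
    refine MvPolynomial.funext fun v => ?_
    obtain ⟨G, hG⟩ := hord v
    have h2 : (∑ y : I3 d, Polynomial.C (c y * eval v (bb d u u' y)) * Polynomial.X ^ dg y) =
        Polynomial.X ^ L * G := by
      refine Polynomial.funext fun s => ?_
      rw [Polynomial.eval_mul, Polynomial.eval_pow, Polynomial.eval_X, ← hG, hQ, map_sum,
        Polynomial.eval_finsetSum]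
      refine Finset.sum_congr rfl fun y _ => ?_
      rw [smul_eval, eval_bb_smul, Polynomial.eval_mul, Polynomial.eval_C, Polynomial.eval_pow,
        Polynomial.eval_X]
      ring
    have h3 := congrArg (fun P => Polynomial.coeff P (dg x)) h2
    simp only [Polynomial.finsetSum_coeff, Polynomial.coeff_C_mul_X_pow,
      Polynomial.coeff_X_pow_mul', if_neg (not_le.2 hx)] at h3
    rw [map_sum, map_zero]
    refine Eq.trans (Finset.sum_congr rfl fun y _ => ?_) h3
    rw [smul_eval]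
    by_cases h : dg x = dg y
    · rw [if_pos h, if_pos h]
    · rw [if_neg h, if_neg h, zero_mul]
  have h4 := Fintype.linearIndependent_iff.1 hLI _ h1 x
  rwa [if_pos rfl] at h4

theorem key {m m' r d : ℕ} (hm : 1 ≤ m) (hm' : 1 ≤ m') (hmm : ¬ (m = 1 ∧ m' = 1))
    (l : Fin (m + 1) → MvPolynomial (Fin 3) ℝ) (l' : Fin (m' + 1) → MvPolynomial (Fin 3) ℝ)
    (i : Fin (m + 1)) (j : Fin (m' + 1)) (a b b' : Fin 3 → ℝ) (hl : Pencil l a b)
    (hl' : Pencil l' a b') (hij : l i = l' j) (hab : AffineIndependent ℝ ![a, b, b'])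
    (q : restrictTotalDegree (Fin 3) ℝ d) (hq : Ord a (2 * r) q.1) :
    q ∈ entry r d l i ⊔ entry r d l' j := by
  obtain ⟨o, A, hA, α, β, α', β', hLi, hL, hL', hβ, hβ'⟩ :=
    P3_32.stP3_32 (m + 1) (m' + 1) l l' i j a b b' hl hl' (by omega) (by omega) hij hab
  have hp : Function.Injective fun k : Fin m => β (i.succAbove k) := fun k k' h =>
    Fin.succAbove_right_injective (hβ _ _ (i.succAbove_ne k) (i.succAbove_ne k') h)
  have hp' : Function.Injective fun k : Fin m' => β' (j.succAbove k) := fun k k' h =>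
    Fin.succAbove_right_injective (hβ' _ _ (j.succAbove_ne k) (j.succAbove_ne k') h)
  choose u hu hus hug using fun s => exists_u hm hp r s
  choose u' hu' hus' hug' using fun s => exists_u hm' hp' r s
  obtain ⟨hLI, hspan⟩ := P2_42.stP2_42 d u u' (fun s => ⟨hu s, hus s⟩) (fun s => ⟨hu' s, hus' s⟩)
  have hmem : ∀ x, bb d u u' x ∈ restrictTotalDegree (Fin 3) ℝ d := fun x => by
    rw [← hspan]
    exact Submodule.subset_span ⟨x, rfl⟩
  -- the new coordinates of `a` are `0`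
  obtain ⟨x0, hx0⟩ : ∃ x0 : Fin 3 → ℝ, o + A.mulVec x0 = a := by
    refine ⟨A⁻¹.mulVec (a - o), ?_⟩
    rw [Matrix.mulVec_mulVec, Matrix.mul_nonsing_inv A hA, Matrix.one_mulVec, add_sub_cancel]
  have hev : ∀ P, eval x0 (affE o A hA P) = eval a P := fun P => by
    rw [affE_apply, eval_aff, hx0]
  have hx2 : x0 2 = 0 := by
    have h := hev (l i)
    rw [hLi, eval_X, (hl.van i).1] at h
    exact h
  have hx1 : x0 1 = 0 := by
    have hk := hL _ (i.succAbove_ne ⟨0, hm⟩)
    have h := hev (l (i.succAbove ⟨0, hm⟩))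
    rw [hk.2, (hl.van _).1, map_mul, map_sub, map_mul, eval_C, eval_C, eval_X, eval_X, hx2,
      mul_zero, sub_zero] at h
    exact (mul_eq_zero.1 h).resolve_left hk.1
  have hx00 : x0 0 = 0 := by
    have hk := hL' _ (j.succAbove_ne ⟨0, hm'⟩)
    have h := hev (l' (j.succAbove ⟨0, hm'⟩))
    rw [hk.2, (hl'.van _).1, map_mul, map_sub, map_mul, eval_C, eval_C, eval_X, eval_X, hx2,
      mul_zero, sub_zero] at h
    exact (mul_eq_zero.1 h).resolve_left hk.1
  have hxz : x0 = 0 := by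
    funext k
    fin_cases k
    · exact hx00
    · exact hx1
    · exact hx2
  rw [hxz, Matrix.mulVec_zero, add_zero] at hx0
  -- the expansion of the transformed polynomial
  obtain ⟨c, hc⟩ : ∃ c : I3 d → ℝ, ∑ x, c x • bb d u u' x = (affR d o A hA q : MvPolynomial _ ℝ) := by
    have h1 : (affR d o A hA q : MvPolynomial (Fin 3) ℝ) ∈
        Submodule.span ℝ (Set.range (bb d u u')) := by
      rw [hspan]
      exact (affR d o A hA q).2
    exact (Submodule.mem_span_range_iff_exists_fun ℝ).1 h1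
  have hord : ∀ v : Fin 3 → ℝ, ∃ G : Polynomial ℝ, ∀ s : ℝ,
      eval (s • v) (affR d o A hA q : MvPolynomial (Fin 3) ℝ) = s ^ (2 * r) * G.eval s := by
    intro v
    obtain ⟨G, hG⟩ := hq (A.mulVec v)
    refine ⟨G, fun s => ?_⟩
    rw [← hG s]
    change eval (s • v) (affE o A hA q.1) = _
    rw [affE_apply, eval_aff, Matrix.mulVec_smul, hx0]
  have hzero := coeff_zero u u' hLI c _ hc.symm hord
  -- each term is in one of the entries
  have hterm : ∀ x : I3 d, c x • (⟨bb d u u' x, hmem x⟩ : restrictTotalDegree (Fin 3) ℝ d) ∈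
      entry r d (fun k => affE o A hA (l k)) i ⊔ entry r d (fun k => affE o A hA (l' k)) j := by
    intro x
    by_cases hx : dg x < 2 * r
    · rw [hzero x hx, zero_smul]
      exact Submodule.zero_mem _
    · refine Submodule.smul_mem _ _ ?_
      have hx' : 2 * r ≤ (x.1.1 : ℕ) + x.1.2.1 + x.1.2.2 := not_lt.1 hx
      rcases Nat.lt_or_ge r ((m - 1) * ((x.1.1 : ℕ) + (x.1.2.2 : ℕ) + 1) + (x.1.1 : ℕ)) with h | h
      · refine Submodule.mem_sup_left ?_
        obtain ⟨g, hg', hgs⟩ := hug (x.1.1 : ℕ) ((x.1.1 : ℕ) + (x.1.2.2 : ℕ)) (by omega) h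
        exact mem_entry 1 _ i α β hLi hL (hg 0 (u' (x.1.2.1 : ℕ)) (x.1.2.1 : ℕ))
          (H79.totalDegree_hg _ _ _) x.2 (u (x.1.1 : ℕ)) (hus _).le g hg' hgs _ rfl
      · refine Submodule.mem_sup_right ?_
        have h' : r + 1 ≤ (m' - 1) * ((x.1.2.1 : ℕ) + (x.1.2.2 : ℕ) + 1) + (x.1.2.1 : ℕ) := by
          by_contra hcon
          have hc2 : (m' - 1) * ((x.1.2.1 : ℕ) + (x.1.2.2 : ℕ) + 1) + (x.1.2.1 : ℕ) ≤ r := by
            omega
          rcases Nat.lt_or_ge 1 m with hm2 | hm2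
          · have h3 : 1 * ((x.1.1 : ℕ) + (x.1.2.2 : ℕ) + 1) ≤
                (m - 1) * ((x.1.1 : ℕ) + (x.1.2.2 : ℕ) + 1) :=
              Nat.mul_le_mul_right _ (by omega)
            have h4 := Nat.le_add_left (x.1.2.1 : ℕ)
              ((m' - 1) * ((x.1.2.1 : ℕ) + (x.1.2.2 : ℕ) + 1))
            omega
          · have hm2' : 1 < m' := by
              rcases Nat.lt_or_ge 1 m' with h5 | h5
              · exact h5
              · exact absurd ⟨by omega, by omega⟩ hmm
            have h3 : 1 * ((x.1.2.1 : ℕ) + (x.1.2.2 : ℕ) + 1) ≤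
                (m' - 1) * ((x.1.2.1 : ℕ) + (x.1.2.2 : ℕ) + 1) :=
              Nat.mul_le_mul_right _ (by omega)
            have h4 := Nat.le_add_left (x.1.1 : ℕ)
              ((m - 1) * ((x.1.1 : ℕ) + (x.1.2.2 : ℕ) + 1))
            omega
        obtain ⟨g, hg', hgs⟩ := hug' (x.1.2.1 : ℕ) ((x.1.2.1 : ℕ) + (x.1.2.2 : ℕ)) (by omega) h'
        refine mem_entry 0 _ j α' β' (by rw [← hij]; exact hLi) hL'
          (hg 1 (u (x.1.1 : ℕ)) (x.1.1 : ℕ))
          (H79.totalDegree_hg _ _ _) ?_ (u' (x.1.2.1 : ℕ)) (hus' _).le g hg' hgs _ ?_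
        · have := x.2
          omega
        · change X 2 ^ (x.1.2.2 : ℕ) * hg 1 (u x.1.1) x.1.1 * hg 0 (u' x.1.2.1) x.1.2.1 = _
          ring
  have hsum : affR d o A hA q =
      ∑ x, c x • (⟨bb d u u' x, hmem x⟩ : restrictTotalDegree (Fin 3) ℝ d) := by
    apply Subtype.ext
    rw [← hc, Submodule.coe_sum]
    rfl
  have hin : affR d o A hA q ∈ entry r d (fun k => affE o A hA (l k)) i ⊔
      entry r d (fun k => affE o A hA (l' k)) j := by
    rw [hsum]
    exact Submodule.sum_mem _ fun x _ => hterm x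
  rw [entry_affE, entry_affE, ← Submodule.map_sup] at hin
  obtain ⟨q', hq', hqq⟩ := hin
  have : q' = q := (affR d o A hA).injective hqq
  rwa [← this]

/-- extension by zero along `σ` -/
noncomputable def ext {m n d : ℕ} (σ : Fin m → Fin n)
    (q : Fin m → restrictTotalDegree (Fin 3) ℝ d) : Fin n → restrictTotalDegree (Fin 3) ℝ d :=
  fun i => ∑ j, if σ j = i then q j else 0

theorem ext_zero {m n d : ℕ} (σ : Fin m → Fin n)
    (q : Fin m → restrictTotalDegree (Fin 3) ℝ d) (i : Fin n) (hi : ∀ j, σ j ≠ i) :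
    ext σ q i = 0 := by
  unfold ext
  exact Finset.sum_eq_zero fun j _ => if_neg (hi j)

theorem ext_apply {m n d : ℕ} (σ : Fin m → Fin n) (hσ : Function.Injective σ)
    (q : Fin m → restrictTotalDegree (Fin 3) ℝ d) (j : Fin m) : ext σ q (σ j) = q j := by
  unfold ext
  rw [Finset.sum_eq_single j (fun j' _ h => if_neg fun h' => h (hσ h'))
    (fun h => absurd (Finset.mem_univ _) h), if_pos rfl]

theorem Phi_ext {m n d : ℕ} (r : ℕ) (l : Fin n → MvPolynomial (Fin 3) ℝ) (σ : Fin m → Fin n)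
    (q : Fin m → restrictTotalDegree (Fin 3) ℝ d) :
    Phi r d l (ext σ q) = Phi r d (fun j => l (σ j)) q := by
  rw [Phi_apply, Phi_apply]
  have h : ∀ i, l i ^ (r + 1) * ((ext σ q i : restrictTotalDegree (Fin 3) ℝ d) :
      MvPolynomial (Fin 3) ℝ) =
      ∑ j, if σ j = i then l (σ j) ^ (r + 1) * (q j : MvPolynomial (Fin 3) ℝ) else 0 := by
    intro i
    unfold ext
    rw [Submodule.coe_sum, Finset.mul_sum]
    refine Finset.sum_congr rfl fun j _ => ?_
    by_cases hj : σ j = i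
    · rw [if_pos hj, if_pos hj, hj]
    · rw [if_neg hj, if_neg hj, Submodule.coe_zero, mul_zero]
  rw [Finset.sum_congr rfl fun i _ => h i, Finset.sum_comm]
  refine Finset.sum_congr rfl fun j _ => ?_
  rw [Finset.sum_ite_eq Finset.univ (σ j), if_pos (Finset.mem_univ _)]

theorem Pencil.sub {m n : ℕ} {l : Fin n → MvPolynomial (Fin 3) ℝ} {a b : Fin 3 → ℝ}
    (h : Pencil l a b) (σ : Fin m → Fin n) (hσ : Function.Injective σ) :
    Pencil (fun k => l (σ k)) a b where
  deg k := h.deg _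
  van k := h.van _
  dist := by
    rintro ⟨i, j, hij, c, c', hc, he⟩
    exact h.dist ⟨σ i, σ j, fun h' => hij (hσ h'), c, c', hc, he⟩
  ne k := h.ne _

/-- (K) -/
theorem stK_79 : StK := by
  intro n n' r d l l' i j a b b' I I' hl hl' hij hab hi hj hI hI' hnot q hq
  obtain ⟨m, hm⟩ : ∃ m, I.card = m + 1 := ⟨I.card - 1, by omega⟩
  obtain ⟨m', hm'⟩ : ∃ m', I'.card = m' + 1 := ⟨I'.card - 1, by omega⟩
  have hinj := (I.orderEmbOfFin hm).injective
  have hinj' := (I'.orderEmbOfFin hm').injective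
  obtain ⟨i0, hi0⟩ : ∃ i0, I.orderEmbOfFin hm i0 = i := by
    have h : i ∈ Set.range (I.orderEmbOfFin hm) := by
      rw [Finset.range_orderEmbOfFin]
      exact hi
    exact h
  obtain ⟨j0, hj0⟩ : ∃ j0, I'.orderEmbOfFin hm' j0 = j := by
    have h : j ∈ Set.range (I'.orderEmbOfFin hm') := by
      rw [Finset.range_orderEmbOfFin]
      exact hj
    exact h
  have h := key (m := m) (m' := m') (r := r) (d := d) (by omega) (by omega) (by omega)
    (fun k => l (I.orderEmbOfFin hm k)) (fun k => l' (I'.orderEmbOfFin hm' k)) i0 j0 a b b'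
    (Pencil.sub hl _ hinj) (Pencil.sub hl' _ hinj') (by rw [hi0, hj0, hij]) hab q hq
  obtain ⟨_, ⟨k, hk, rfl⟩, _, ⟨k', hk', rfl⟩, hsum⟩ := Submodule.mem_sup.1 h
  refine ⟨ext (I.orderEmbOfFin hm) k, ext (I'.orderEmbOfFin hm') k', ?_, ?_, ?_, ?_, ?_⟩
  · rw [Phi_ext]
    exact hk
  · rw [Phi_ext]
    exact hk'
  · intro p hp
    exact ext_zero _ _ _ fun p' h' => hp (h' ▸ I.orderEmbOfFin_mem hm p')
  · intro p hp
    exact ext_zero _ _ _ fun p' h' => hp (h' ▸ I'.orderEmbOfFin_mem hm' p')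
  · rw [← hsum, ← hi0, ← hj0, ext_apply _ hinj, ext_apply _ hinj']
    rfl

end Pool.Agent.Lib.MP_d2a91d_an.K79
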