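import Pool.Agent.Lib.MP_d2a91d_an.Stmts4

/-!
Row P4 of MP_d2a91d (helper83): the counting lemma.
-/

set_option autoImplicit false

namespace Pool.Agent.Lib.MP_d2a91d_an.H83

/-- The numbers `s < A` with `B + s ≤ r`. -/
theorem card_aux83 (A B r : ℕ) :
    ((Finset.range A).filter (fun s => B + s ≤ r)).card = min A (r + 1 - B) := by
  have h : (Finset.range A).filter (fun s => B + s ≤ r) =
      Finset.range (min A (r + 1 - B)) := by
    ext s
    simp only [Finset.mem_filter, Finset.mem_range, lt_min_iff]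
    omega
  rw [h, Finset.card_range]

/-- The triples `(s, t, c)`, sorted by `m = s + c`. -/
theorem card_triples83 (n r d : ℕ) :
    ((Finset.range (d + 1) ×ˢ Finset.range (d + 1) ×ˢ Finset.range (d + 1)).filter
      (fun x => x.1 + x.2.1 + x.2.2 ≤ d ∧ (n - 2) * (x.1 + x.2.2 + 1) + x.1 ≤ r)).card =
    ∑ m ∈ Finset.range (d + 1), (d - m + 1) *
      ((Finset.range (m + 1)).filter (fun s => (n - 2) * (m + 1) + s ≤ r)).card := by
  have h1 : ∑ m ∈ Finset.range (d + 1), (d - m + 1) *
      ((Finset.range (m + 1)).filter (fun s => (n - 2) * (m + 1) + s ≤ r)).card =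
      ((Finset.range (d + 1)).sigma (fun m => Finset.range (d - m + 1) ×ˢ
        (Finset.range (m + 1)).filter (fun s => (n - 2) * (m + 1) + s ≤ r))).card := by
    rw [Finset.card_sigma]
    refine Finset.sum_congr rfl fun m _ => ?_
    rw [Finset.card_product, Finset.card_range]
  rw [h1]
  refine Finset.card_bij (fun x _ => (⟨x.1 + x.2.2, (x.2.1, x.1)⟩ : (_ : ℕ) × (ℕ × ℕ))) ?_ ?_ ?_
  · rintro ⟨s, t, c⟩ hx
    simp only [Finset.mem_filter, Finset.mem_product, Finset.mem_range] at hx
    simp only [Finset.mem_sigma, Finset.mem_product, Finset.mem_filter, Finset.mem_range]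
    obtain ⟨-, h2, h3⟩ := hx
    exact ⟨by omega, by omega, by omega, h3⟩
  · rintro ⟨s, t, c⟩ _ ⟨s', t', c'⟩ _ h
    simp only [Sigma.mk.injEq, heq_eq_eq, Prod.mk.injEq] at h
    obtain ⟨h2, h3, h4⟩ := h
    simp only [Prod.mk.injEq]
    exact ⟨h4, h3, by omega⟩
  · rintro ⟨m, t, s⟩ hx
    simp only [Finset.mem_sigma, Finset.mem_product, Finset.mem_filter, Finset.mem_range] at hx
    obtain ⟨h2, h3, h4, h5⟩ := hx
    refine ⟨(s, t, m - s), ?_, ?_⟩
    · simp only [Finset.mem_filter, Finset.mem_product, Finset.mem_range]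
      have h6 : s + (m - s) = m := by omega
      rw [h6]
      exact ⟨⟨by omega, by omega, by omega⟩, by omega, h5⟩
    · have h6 : s + (m - s) = m := by omega
      simp only [h6]

/-- Row P4. -/
theorem P4_83 : StP4 := by
  intro n r d hn
  rw [card_triples83 n r d]
  unfold lam
  rw [← Finset.sum_add_distrib]
  refine Finset.sum_congr rfl fun m _ => ?_
  rw [← Nat.mul_add, card_aux83]
  congr 1
  obtain ⟨k, rfl⟩ : ∃ k, n = k + 3 := ⟨n - 3, by omega⟩
  have e1 : k + 3 - 1 = k + 2 := by omega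
  have e2 : k + 3 - 2 = k + 1 := by omega
  rw [e1, e2]
  have e3 : (k + 2) * (m + 1) = (k + 1) * (m + 1) + (m + 1) := by ring
  have e4 : (k + 3) * (m + 1) = (k + 1) * (m + 1) + 2 * (m + 1) := by ring
  rw [e3, e4]
  generalize (k + 1) * (m + 1) = B
  omega

end Pool.Agent.Lib.MP_d2a91d_an.H83
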