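import Pool.Agent.Lib.MP_d2a91d_an.P_79
import Pool.Agent.Lib.MP_d2a91d_an.P2_42
import Pool.Agent.Lib.MP_d2a91d_an.P3_32
import Pool.Agent.Lib.MP_d2a91d_an.P4_83

set_option autoImplicit false

namespace Pool.Agent.Lib.MP_d2a91d_an

/-- Row P. -/
theorem stP : StP := H79.stP_of P2_42.stP2_42 P3_32.stP3_32 H83.P4_83

end Pool.Agent.Lib.MP_d2a91d_an
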