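import Pool.Agent.Lib.MP_d2a91d_an.Stmts7
import Pool.Agent.Lib.MP_d2a91d_an.Coord
import Pool.Agent.Lib.MP_d2a91d_an.DimN

/-!
MP_d2a91d, row T: truncation of relations between planes through a point.
-/

namespace Pool.Agent.Lib.MP_d2a91d_an.T_42

open MvPolynomial

/-- translation -/
noncomputable def tr (a : Fin 3 → ℝ) :
    MvPolynomial (Fin 3) ℝ →ₐ[ℝ] MvPolynomial (Fin 3) ℝ := aff a 1

theorem eval_tr (a x : Fin 3 → ℝ) (P : MvPolynomial (Fin 3) ℝ) :
    eval x (tr a P) = eval (a + x) P := by
  unfold tr
  rw [eval_aff, Matrix.one_mulVec]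

theorem tr_tr (a : Fin 3 → ℝ) (P : MvPolynomial (Fin 3) ℝ) : tr (-a) (tr a P) = P := by
  refine MvPolynomial.funext fun x => ?_
  rw [eval_tr, eval_tr, add_neg_cancel_left]

theorem tr_tr' (a : Fin 3 → ℝ) (P : MvPolynomial (Fin 3) ℝ) : tr a (tr (-a) P) = P := by
  refine MvPolynomial.funext fun x => ?_
  rw [eval_tr, eval_tr, neg_add_cancel_left]

theorem totalDegree_tr (a : Fin 3 → ℝ) (P : MvPolynomial (Fin 3) ℝ) :
    (tr a P).totalDegree ≤ P.totalDegree := totalDegree_aff_le _ _ _

/-- the value of a homogeneous polynomial on a line through the origin -/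
theorem eval_smul_of_homogeneous {P : MvPolynomial (Fin 3) ℝ} {m : ℕ} (h : P.IsHomogeneous m)
    (s : ℝ) (v : Fin 3 → ℝ) : eval (s • v) P = s ^ m * eval v P := by
  rw [eval_eq, eval_eq, Finset.mul_sum]
  refine Finset.sum_congr rfl fun d hd => ?_
  have hdeg : ∑ i ∈ d.support, d i = m := by
    have := h (mem_support_iff.mp hd)
    rw [Finsupp.weight_apply, Finsupp.sum] at this
    simpa using this
  have : ∏ i ∈ d.support, (s • v) i ^ d i = s ^ m * ∏ i ∈ d.support, v i ^ d i := by
    rw [← hdeg, ← Finset.prod_pow_eq_pow_sum, ← Finset.prod_mul_distrib]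
    refine Finset.prod_congr rfl fun i _ => ?_
    rw [Pi.smul_apply, smul_eq_mul, mul_pow]
  rw [this]
  ring

/-- an affine form that vanishes at the origin is homogeneous -/
theorem homogeneous_one {P : MvPolynomial (Fin 3) ℝ} (hd : P.totalDegree ≤ 1)
    (h0 : eval 0 P = 0) : P.IsHomogeneous 1 := by
  rw [eq_of_totalDegree_le_one P hd, h0, map_zero, zero_add]
  refine IsHomogeneous.sum _ _ _ fun i _ => ?_
  exact isHomogeneous_C_mul_X _ _

/-- the part of degree less than `L` -/
noncomputable def lowp (L : ℕ) (P : MvPolynomial (Fin 3) ℝ) : MvPolynomial (Fin 3) ℝ :=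
  ∑ s ∈ Finset.range L, homogeneousComponent s P

theorem totalDegree_hc (s : ℕ) (P : MvPolynomial (Fin 3) ℝ) :
    (homogeneousComponent s P).totalDegree ≤ min s P.totalDegree := by
  refine le_min (homogeneousComponent_isHomogeneous s P).totalDegree_le ?_
  by_cases h : P.totalDegree < s
  · rw [homogeneousComponent_eq_zero s P h]
    simp
  · exact (homogeneousComponent_isHomogeneous s P).totalDegree_le.trans (not_lt.mp h)

theorem totalDegree_lowp (L : ℕ) (P : MvPolynomial (Fin 3) ℝ) :
    (lowp L P).totalDegree ≤ min L P.totalDegree := by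
  refine totalDegree_finsetSum_le fun s hs => ?_
  refine (totalDegree_hc s P).trans ?_
  have := Finset.mem_range.mp hs
  omega

theorem hc_sum {ι : Type*} (T : Finset ι) (f : ι → MvPolynomial (Fin 3) ℝ) (s : ℕ) :
    homogeneousComponent s (∑ i ∈ T, f i) = ∑ i ∈ T, homogeneousComponent s (f i) :=
  map_sum _ _ _

/-- components of a product with a homogeneous polynomial -/
theorem hc_mul {Q : MvPolynomial (Fin 3) ℝ} {m : ℕ} (hQ : Q.IsHomogeneous m)
    (P : MvPolynomial (Fin 3) ℝ) (s : ℕ) :
    homogeneousComponent (m + s) (Q * P) = Q * homogeneousComponent s P := by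
  have hP := sum_homogeneousComponent P
  conv_lhs => rw [← hP, Finset.mul_sum, hc_sum]
  have h1 : ∀ i, homogeneousComponent (m + s) (Q * homogeneousComponent i P) =
      if i = s then Q * homogeneousComponent s P else 0 := by
    intro i
    have hm : Q * homogeneousComponent i P ∈ homogeneousSubmodule (Fin 3) ℝ (m + i) :=
      hQ.mul (homogeneousComponent_isHomogeneous i P)
    rw [homogeneousComponent_of_mem hm]
    by_cases h : i = s
    · subst h
      simp
    · rw [if_neg (by omega), if_neg h]
  rw [Finset.sum_congr rfl fun i _ => h1 i, Finset.sum_ite_eq' _ s]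
  split_ifs with h
  · rfl
  · rw [Finset.mem_range, not_lt] at h
    rw [homogeneousComponent_eq_zero s P (by omega), mul_zero]

theorem ord_high (L : ℕ) (P : MvPolynomial (Fin 3) ℝ) (v : Fin 3 → ℝ) :
    ∃ G : Polynomial ℝ, ∀ s : ℝ, eval (s • v) (P - lowp L P) = s ^ L * G.eval s := by
  refine ⟨∑ i ∈ Finset.range (P.totalDegree + 1), if L ≤ i then
    Polynomial.C (eval v (homogeneousComponent i P)) * Polynomial.X ^ (i - L) else 0, ?_⟩
  intro s
  have h1 : P - lowp L P = ∑ i ∈ Finset.range (P.totalDegree + 1),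
      (if L ≤ i then homogeneousComponent i P else 0) := by
    have hlow : lowp L P = ∑ i ∈ Finset.range (P.totalDegree + 1),
        (if L ≤ i then 0 else homogeneousComponent i P) := by
      unfold lowp
      have e : ∀ M, L ≤ M → ∑ s ∈ Finset.range L, homogeneousComponent s P =
          ∑ i ∈ Finset.range M, (if L ≤ i then 0 else homogeneousComponent i P) := by
        intro M hM
        rw [← Finset.sum_subset (Finset.range_mono hM)]
        · refine Finset.sum_congr rfl fun i hi => ?_
          rw [if_neg (by have := Finset.mem_range.mp hi; omega)]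
        · intro i _ hi
          rw [Finset.mem_range, not_lt] at hi
          rw [if_pos hi]
      rw [e (max L (P.totalDegree + 1)) (le_max_left _ _),
        ← Finset.sum_subset (Finset.range_mono (le_max_right L (P.totalDegree + 1)))]
      intro i _ hi
      rw [Finset.mem_range, not_lt] at hi
      rw [homogeneousComponent_eq_zero i P (by omega)]
      simp
    rw [hlow, sub_eq_iff_eq_add, ← Finset.sum_add_distrib]
    refine (sum_homogeneousComponent P).symm.trans (Finset.sum_congr rfl fun i _ => ?_)
    split_ifs <;> simp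
  rw [h1, map_sum, Polynomial.eval_finsetSum, Finset.mul_sum]
  refine Finset.sum_congr rfl fun i _ => ?_
  split_ifs with h
  · rw [eval_smul_of_homogeneous (homogeneousComponent_isHomogeneous i P), Polynomial.eval_mul,
      Polynomial.eval_C, Polynomial.eval_pow, Polynomial.eval_X]
    have : s ^ i = s ^ L * s ^ (i - L) := by rw [← pow_add]; congr 1; omega
    rw [this]
    ring
  · simp

end Pool.Agent.Lib.MP_d2a91d_an.T_42

namespace Pool.Agent.Lib.MP_d2a91d_an

open MvPolynomial T_42

theorem stT_42 : StT := by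
  intro n r d L l a hl ha k hk
  rw [Phi_apply] at hk
  -- the low parts
  have hdeg : ∀ i, (tr (-a) (lowp L (tr a (k i).1))).totalDegree ≤
      min L (k i).1.totalDegree := by
    intro i
    refine (totalDegree_tr _ _).trans ((totalDegree_lowp _ _).trans ?_)
    have := totalDegree_tr a (k i).1
    omega
  have hkd : ∀ i, (k i).1.totalDegree ≤ d := fun i =>
    (mem_restrictTotalDegree _ _ _).mp (k i).2
  let k0 : Fin n → restrictTotalDegree (Fin 3) ℝ d := fun i =>
    ⟨tr (-a) (lowp L (tr a (k i).1)), (mem_restrictTotalDegree _ _ _).mpr (by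
      have := hdeg i
      have := hkd i
      omega)⟩
  have hΛ : ∀ i, (tr a (l i)).IsHomogeneous 1 := by
    intro i
    refine homogeneous_one ((totalDegree_tr _ _).trans (hl i)) ?_
    rw [eval_tr, add_zero]
    exact ha i
  have hrel : ∑ i, tr a (l i) ^ (r + 1) * tr a (k i).1 = 0 := by
    have := congrArg (tr a) hk
    rw [map_sum, map_zero] at this
    rw [← this]
    refine Finset.sum_congr rfl fun i _ => ?_
    rw [map_mul, map_pow]
  have hcomp : ∀ s, ∑ i, tr a (l i) ^ (r + 1) * homogeneousComponent s (tr a (k i).1) = 0 := by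
    intro s
    have := congrArg (homogeneousComponent (1 * (r + 1) + s)) hrel
    rw [hc_sum, map_zero] at this
    rw [← this]
    refine Finset.sum_congr rfl fun i _ => ?_
    rw [hc_mul ((hΛ i).pow (r + 1))]
  have h0 : Phi r d l k0 = 0 := by
    rw [Phi_apply]
    have h1 : ∑ i, tr a (l i) ^ (r + 1) * lowp L (tr a (k i).1) = 0 := by
      unfold lowp
      have : ∀ i, tr a (l i) ^ (r + 1) * ∑ s ∈ Finset.range L,
          homogeneousComponent s (tr a (k i).1) = ∑ s ∈ Finset.range L,
          tr a (l i) ^ (r + 1) * homogeneousComponent s (tr a (k i).1) := fun i =>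
        Finset.mul_sum _ _ _
      rw [Finset.sum_congr rfl fun i _ => this i, Finset.sum_comm]
      exact Finset.sum_eq_zero fun s _ => hcomp s
    have h2 := congrArg (tr (-a)) h1
    rw [map_sum, map_zero] at h2
    rw [← h2]
    refine Finset.sum_congr rfl fun i _ => ?_
    rw [map_mul, map_pow, tr_tr]
  refine ⟨k0, k - k0, (add_sub_cancel _ _).symm, h0, ?_, fun i => (hdeg i).trans (min_le_left _ _),
    ?_⟩
  · rw [map_sub, h0, sub_zero, Phi_apply]
    exact hk
  · intro i v
    obtain ⟨G, hG⟩ := ord_high L (tr a (k i).1) v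
    refine ⟨G, fun s => ?_⟩
    rw [← hG s]
    have e : ((k - k0) i).1 = tr (-a) (tr a (k i).1 - lowp L (tr a (k i).1)) := by
      rw [map_sub, tr_tr]
      rfl
    rw [e, eval_tr]
    rw [neg_add_cancel_left]

end Pool.Agent.Lib.MP_d2a91d_an
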