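import Pool.Agent.Lib.MP_d2a91d_an.Stmts8
import Pool.Agent.Lib.MP_d2a91d_an.K_79
import Pool.Agent.Lib.MP_d2a91d_an.PP_79
import Pool.Agent.Lib.MP_d2a91d_an.T_42
import Pool.Agent.Lib.MP_d2a91d_an.F_83

/-!
# (TR) Three pencils with a common plane, through the three sides of a triangle
-/

set_option autoImplicit false

namespace Pool.Agent.Lib.MP_d2a91d_an.Tri79

open MvPolynomial T_42

/-- `q` is the `i`-th entry of a relation with entries of total degree at most `d`. -/
def Ent (r : ℕ) {n : ℕ} (l : Fin n → MvPolynomial (Fin 3) ℝ) (i : Fin n) (d : ℕ)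
    (q : MvPolynomial (Fin 3) ℝ) : Prop :=
  ∃ k : Fin n → MvPolynomial (Fin 3) ℝ, (∀ j, (k j).totalDegree ≤ d) ∧
    ∑ j, l j ^ (r + 1) * k j = 0 ∧ k i = q

theorem mem_iff {n : ℕ} (r d : ℕ) (l : Fin n → MvPolynomial (Fin 3) ℝ) (i : Fin n)
    (q : restrictTotalDegree (Fin 3) ℝ d) : q ∈ entry r d l i ↔ Ent r l i d q.1 := by
  constructor
  · rintro ⟨k, hk, rfl⟩
    rw [SetLike.mem_coe, LinearMap.mem_ker, Phi_apply] at hk
    exact ⟨fun j => (k j).1, fun j => (mem_restrictTotalDegree _ _ _).1 (k j).2, hk, rfl⟩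
  · rintro ⟨k, hk, hs, hi⟩
    refine ⟨fun j => ⟨k j, (mem_restrictTotalDegree _ _ _).2 (hk j)⟩, ?_, Subtype.ext hi⟩
    rw [SetLike.mem_coe, LinearMap.mem_ker, Phi_apply]
    exact hs

section basic

variable {n r d d' : ℕ} {l : Fin n → MvPolynomial (Fin 3) ℝ} {i : Fin n}
  {p q P : MvPolynomial (Fin 3) ℝ}

theorem Ent.mem (hp : Ent r l i d p) : p ∈ restrictTotalDegree (Fin 3) ℝ d := by
  obtain ⟨k, h1, h2, rfl⟩ := hp
  exact (mem_restrictTotalDegree _ _ _).2 (h1 i)

theorem Ent.zero : Ent r l i d 0 := ⟨0, by simp, by simp, rfl⟩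

theorem Ent.add (hp : Ent r l i d p) (hq : Ent r l i d q) : Ent r l i d (p + q) := by
  obtain ⟨k, h1, h2, rfl⟩ := hp
  obtain ⟨k', h1', h2', rfl⟩ := hq
  refine ⟨k + k', fun j => (totalDegree_add _ _).trans (max_le (h1 j) (h1' j)), ?_, rfl⟩
  simp only [Pi.add_apply, mul_add, Finset.sum_add_distrib, h2, h2', add_zero]

theorem Ent.mul (hp : Ent r l i d p) (h : P.totalDegree + d ≤ d') : Ent r l i d' (P * p) := by
  obtain ⟨k, h1, h2, rfl⟩ := hp
  refine ⟨fun j => P * k j, fun j => (totalDegree_mul _ _).trans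
    ((Nat.add_le_add_left (h1 j) _).trans h), ?_, rfl⟩
  have h3 : ∀ j, l j ^ (r + 1) * (P * k j) = P * (l j ^ (r + 1) * k j) := fun j => by ring
  simp only [h3, ← Finset.mul_sum, h2, mul_zero]

theorem Ent.smul (c : ℝ) (hp : Ent r l i d p) : Ent r l i d (c • p) := by
  rw [smul_eq_C_mul]
  exact hp.mul (by rw [totalDegree_C, zero_add])

theorem Ent.neg (hp : Ent r l i d p) : Ent r l i d (-p) := by
  have := hp.smul (-1)
  rwa [neg_one_smul] at this

theorem Ent.map (τ : MvPolynomial (Fin 3) ℝ →ₐ[ℝ] MvPolynomial (Fin 3) ℝ)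
    (hτ : ∀ P, (τ P).totalDegree ≤ P.totalDegree) (hp : Ent r l i d p) :
    Ent r (fun k => τ (l k)) i d (τ p) := by
  obtain ⟨k, h1, h2, rfl⟩ := hp
  refine ⟨fun j => τ (k j), fun j => (hτ _).trans (h1 j), ?_, rfl⟩
  rw [← map_zero τ, ← h2, map_sum]
  exact Finset.sum_congr rfl fun j _ => by rw [map_mul, map_pow]

end basic

/-! Forms in two polynomials. -/

/-- forms of degree `N` in `A`, `B` -/
noncomputable def FF (A B : MvPolynomial (Fin 3) ℝ) (N : ℕ) : Submodule ℝ (MvPolynomial (Fin 3) ℝ) :=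
  Submodule.span ℝ {q | ∃ i j : ℕ, i + j = N ∧ q = A ^ i * B ^ j}

theorem FF.mulA {A B q : MvPolynomial (Fin 3) ℝ} {N : ℕ} (hq : q ∈ FF A B N) :
    A * q ∈ FF A B (N + 1) := by
  unfold FF at hq
  induction hq using Submodule.span_induction with
  | mem x hx =>
    obtain ⟨i, j, hij, rfl⟩ := hx
    exact Submodule.subset_span ⟨i + 1, j, by omega, by ring⟩
  | zero => rw [mul_zero]; exact Submodule.zero_mem _
  | add x y _ _ hx hy => rw [mul_add]; exact Submodule.add_mem _ hx hy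
  | smul a x _ hx => rw [mul_smul_comm]; exact Submodule.smul_mem _ _ hx

theorem FF.mulB {A B q : MvPolynomial (Fin 3) ℝ} {N : ℕ} (hq : q ∈ FF A B N) :
    B * q ∈ FF A B (N + 1) := by
  unfold FF at hq
  induction hq using Submodule.span_induction with
  | mem x hx =>
    obtain ⟨i, j, hij, rfl⟩ := hx
    exact Submodule.subset_span ⟨i, j + 1, by omega, by ring⟩
  | zero => rw [mul_zero]; exact Submodule.zero_mem _
  | add x y _ _ hx hy => rw [mul_add]; exact Submodule.add_mem _ hx hy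
  | smul a x _ hx => rw [mul_smul_comm]; exact Submodule.smul_mem _ _ hx

theorem FF.mul {A B q : MvPolynomial (Fin 3) ℝ} {N : ℕ} (x y : ℝ) (hq : q ∈ FF A B N) :
    (C x * A + C y * B) * q ∈ FF A B (N + 1) := by
  have h : (C x * A + C y * B) * q = x • (A * q) + y • (B * q) := by
    rw [smul_eq_C_mul, smul_eq_C_mul]
    ring
  rw [h]
  exact Submodule.add_mem _ (Submodule.smul_mem _ _ (FF.mulA hq))
    (Submodule.smul_mem _ _ (FF.mulB hq))

theorem FF.one (A B : MvPolynomial (Fin 3) ℝ) : (1 : MvPolynomial (Fin 3) ℝ) ∈ FF A B 0 :=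
  Submodule.subset_span ⟨0, 0, rfl, by simp⟩

theorem FF.pow_mul {A B q : MvPolynomial (Fin 3) ℝ} {N : ℕ} (x y : ℝ) (hq : q ∈ FF A B N)
    (s : ℕ) : (C x * A + C y * B) ^ s * q ∈ FF A B (N + s) := by
  induction s with
  | zero => rwa [pow_zero, one_mul]
  | succ s ih =>
    rw [pow_succ', mul_assoc]
    exact FF.mul x y ih

theorem FF.split {A B q : MvPolynomial (Fin 3) ℝ} (hA : A.totalDegree ≤ 1)
    (hB : B.totalDegree ≤ 1) {N r : ℕ} (hN : 2 * r + 1 ≤ N) (hq : q ∈ FF A B N) :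
    ∃ g1 g2 : MvPolynomial (Fin 3) ℝ, g1.totalDegree + r + 1 ≤ N ∧ g2.totalDegree + r + 1 ≤ N ∧
      q = A ^ (r + 1) * g1 + B ^ (r + 1) * g2 := by
  have hdeg : ∀ a b : ℕ, (A ^ a * B ^ b).totalDegree ≤ a + b := fun a b => by
    refine (totalDegree_mul _ _).trans (add_le_add ?_ ?_)
    · exact (totalDegree_pow _ _).trans (by nlinarith)
    · exact (totalDegree_pow _ _).trans (by nlinarith)
  unfold FF at hq
  induction hq using Submodule.span_induction with
  | mem x hx =>
    obtain ⟨i, j, hij, rfl⟩ := hx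
    rcases Nat.lt_or_ge r i with h | h
    · refine ⟨A ^ (i - (r + 1)) * B ^ j, 0, ?_, ?_, ?_⟩
      · have := hdeg (i - (r + 1)) j
        omega
      · rw [totalDegree_zero]
        omega
      · rw [mul_zero, add_zero, ← mul_assoc, ← pow_add]
        congr 2
        omega
    · refine ⟨0, A ^ i * B ^ (j - (r + 1)), ?_, ?_, ?_⟩
      · rw [totalDegree_zero]
        omega
      · have := hdeg i (j - (r + 1))
        omega
      · rw [mul_zero, zero_add, mul_left_comm, ← pow_add]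
        congr 2
        omega
  | zero =>
    refine ⟨0, 0, ?_, ?_, by simp⟩
    · rw [totalDegree_zero]
      omega
    · rw [totalDegree_zero]
      omega
  | add x y _ _ hx hy =>
    obtain ⟨g1, g2, h1, h2, rfl⟩ := hx
    obtain ⟨g1', g2', h1', h2', rfl⟩ := hy
    refine ⟨g1 + g1', g2 + g2', ?_, ?_, by ring⟩
    · have := totalDegree_add g1 g1'
      omega
    · have := totalDegree_add g2 g2'
      omega
  | smul a x _ hx =>
    obtain ⟨g1, g2, h1, h2, rfl⟩ := hx
    refine ⟨a • g1, a • g2, ?_, ?_, ?_⟩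
    · have := totalDegree_smul_le a g1
      omega
    · have := totalDegree_smul_le a g2
      omega
    · rw [smul_add, mul_smul_comm, mul_smul_comm]

/-- Everything that vanishes to order `r` along the line of the pencil is an entry. -/
theorem ent_pow {n r d s c : ℕ} (L : Fin n → MvPolynomial (Fin 3) ℝ) (i : Fin n)
    {W Z : MvPolynomial (Fin 3) ℝ} (hW : W.totalDegree ≤ 1) (hZ : Z.totalDegree ≤ 1)
    {α β : Fin n → ℝ} (hi : L i = Z)
    (hL : ∀ k, k ≠ i → α k ≠ 0 ∧ L k = C (α k) * (W - C (β k) * Z))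
    (hβ : ∀ k k', k ≠ i → k' ≠ i → β k = β k' → k = k') (hn : 3 ≤ n) (hs : r ≤ s + c)
    (P : MvPolynomial (Fin 3) ℝ) (hP : P.totalDegree + s + c ≤ d) :
    Ent r L i d (W ^ s * Z ^ c * P) := by
  obtain ⟨k1, hk1, k2, hk2, h12⟩ : ∃ k1 ∈ Finset.univ.erase i, ∃ k2 ∈ Finset.univ.erase i,
      k1 ≠ k2 := by
    refine Finset.one_lt_card.1 ?_
    rw [Finset.card_erase_of_mem (Finset.mem_univ _), Finset.card_univ, Fintype.card_fin]
    omega
  have hk1 := Finset.ne_of_mem_erase hk1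
  have hk2 := Finset.ne_of_mem_erase hk2
  obtain ⟨hα1, hL1⟩ := hL k1 hk1
  obtain ⟨hα2, hL2⟩ := hL k2 hk2
  have hδ : β k2 - β k1 ≠ 0 := fun h => h12 (hβ _ _ hk1 hk2 (by linarith))
  have hdg : ∀ x : ℝ, (W - C x * Z).totalDegree ≤ 1 := fun x => by
    refine (totalDegree_sub _ _).trans (max_le hW ?_)
    refine (totalDegree_mul _ _).trans ?_
    rw [totalDegree_C]
    omega
  set A := W - C (β k1) * Z with hA
  set B := W - C (β k2) * Z with hB
  have hZe : Z = C ((β k2 - β k1)⁻¹) * A + C (-(β k2 - β k1)⁻¹) * B := by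
    have h : C ((β k2 - β k1)⁻¹) * C (β k2 - β k1) = (1 : MvPolynomial (Fin 3) ℝ) := by
      rw [← C_mul, inv_mul_cancel₀ hδ, C_1]
    rw [hA, hB, C_neg]
    rw [C_sub] at h
    linear_combination (-Z) * h
  have hWe : W = C (1 + β k1 * (β k2 - β k1)⁻¹) * A + C (-(β k1 * (β k2 - β k1)⁻¹)) * B := by
    have h : W = A + C (β k1) * Z := by
      rw [hA]
      ring
    conv_lhs => rw [h, hZe]
    rw [C_add, C_neg, C_neg, C_mul, C_1]
    ring
  have hF : Z ^ (r + 1 + c) * (W ^ s * 1) ∈ FF A B (0 + s + (r + 1 + c)) := by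
    have h1 := FF.pow_mul (1 + β k1 * (β k2 - β k1)⁻¹) (-(β k1 * (β k2 - β k1)⁻¹)) (FF.one A B) s
    rw [← hWe] at h1
    have h2 := FF.pow_mul ((β k2 - β k1)⁻¹) (-(β k2 - β k1)⁻¹) h1 (r + 1 + c)
    rwa [← hZe] at h2
  obtain ⟨g1, g2, hg1, hg2, hg⟩ := FF.split (hdg _) (hdg _) (r := r) (by omega) hF
  have hd1 : ∀ (x : ℝ) (g : MvPolynomial (Fin 3) ℝ), g.totalDegree ≤ s + c →
      (C x * g * P).totalDegree ≤ d := fun x g hg => by
    refine (totalDegree_mul _ _).trans ?_
    have := totalDegree_mul (C x) g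
    rw [totalDegree_C] at this
    omega
  have hd2 : (W ^ s * Z ^ c * P).totalDegree ≤ d := by
    refine (totalDegree_mul _ _).trans ?_
    have h1 := totalDegree_mul (W ^ s) (Z ^ c)
    have h2 : (W ^ s).totalDegree ≤ s := (totalDegree_pow _ _).trans (by nlinarith)
    have h3 : (Z ^ c).totalDegree ≤ c := (totalDegree_pow _ _).trans (by nlinarith)
    omega
  refine ⟨fun j => (if j = i then W ^ s * Z ^ c * P else 0) +
    (if j = k1 then C (-((α k1) ^ (r + 1))⁻¹) * g1 * P else 0) +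
    (if j = k2 then C (-((α k2) ^ (r + 1))⁻¹) * g2 * P else 0), fun j => ?_, ?_, ?_⟩
  · refine (totalDegree_add _ _).trans (max_le ((totalDegree_add _ _).trans (max_le ?_ ?_)) ?_)
    · split_ifs
      · exact hd2
      · rw [totalDegree_zero]
        exact Nat.zero_le _
    · split_ifs
      · exact hd1 _ _ (by omega)
      · rw [totalDegree_zero]
        exact Nat.zero_le _
    · split_ifs
      · exact hd1 _ _ (by omega)
      · rw [totalDegree_zero]
        exact Nat.zero_le _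
  · simp only [mul_add, Finset.sum_add_distrib, mul_ite, mul_zero, Finset.sum_ite_eq',
      Finset.mem_univ, if_true]
    rw [hi, hL1, hL2, mul_pow, mul_pow]
    have h5 : (C (α k1) : MvPolynomial (Fin 3) ℝ) ^ (r + 1) * C (-((α k1) ^ (r + 1))⁻¹) = -1 := by
      rw [← C_pow, ← C_mul, mul_neg, mul_inv_cancel₀ (pow_ne_zero _ hα1), C_neg, C_1]
    have h6 : (C (α k2) : MvPolynomial (Fin 3) ℝ) ^ (r + 1) * C (-((α k2) ^ (r + 1))⁻¹) = -1 := by
      rw [← C_pow, ← C_mul, mul_neg, mul_inv_cancel₀ (pow_ne_zero _ hα2), C_neg, C_1]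
    have h7 : Z ^ (r + 1 + c) = Z ^ (r + 1) * Z ^ c := pow_add _ _ _
    rw [h7, ← hA, ← hB] at hg
    linear_combination P * hg + (A ^ (r + 1) * g1 * P) * h5 + (B ^ (r + 1) * g2 * P) * h6
  · simp only [if_true, if_neg hk1.symm, if_neg hk2.symm, add_zero]

/-! Truncation. -/

/-- the part of degree at most `N` about `p` -/
noncomputable def TT (p : Fin 3 → ℝ) (N : ℕ) (q : MvPolynomial (Fin 3) ℝ) :
    MvPolynomial (Fin 3) ℝ := tr (-p) (lowp (N + 1) (tr p q))

theorem lowp_add (N : ℕ) (P Q : MvPolynomial (Fin 3) ℝ) :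
    lowp N (P + Q) = lowp N P + lowp N Q := by
  unfold lowp
  rw [← Finset.sum_add_distrib]
  exact Finset.sum_congr rfl fun s _ => map_add _ _ _

theorem TT_add (p : Fin 3 → ℝ) (N : ℕ) (P Q : MvPolynomial (Fin 3) ℝ) :
    TT p N (P + Q) = TT p N P + TT p N Q := by
  unfold TT
  rw [map_add, lowp_add, map_add]

theorem totalDegree_lowp_succ (N : ℕ) (P : MvPolynomial (Fin 3) ℝ) :
    (lowp (N + 1) P).totalDegree ≤ N := by
  unfold lowp
  refine totalDegree_finsetSum_le fun s hs => ?_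
  refine (totalDegree_hc s P).trans ?_
  have := Finset.mem_range.mp hs
  omega

theorem totalDegree_TT (p : Fin 3 → ℝ) (N : ℕ) (q : MvPolynomial (Fin 3) ℝ) :
    (TT p N q).totalDegree ≤ N :=
  (totalDegree_tr _ _).trans (totalDegree_lowp_succ _ _)

theorem lowp_eq {N : ℕ} {P : MvPolynomial (Fin 3) ℝ} (h : P.totalDegree ≤ N) :
    lowp (N + 1) P = P := by
  unfold lowp
  conv_rhs => rw [← sum_homogeneousComponent P]
  symm
  refine Finset.sum_subset (Finset.range_mono (by omega)) fun s _ hs => ?_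
  rw [Finset.mem_range, not_lt] at hs
  exact homogeneousComponent_eq_zero s P (by omega)

theorem TT_eq {p : Fin 3 → ℝ} {N : ℕ} {q : MvPolynomial (Fin 3) ℝ} (h : q.totalDegree ≤ N) :
    TT p N q = q := by
  unfold TT
  rw [lowp_eq ((totalDegree_tr _ _).trans h), tr_tr]

theorem Ent.trunc {n r d : ℕ} {l : Fin n → MvPolynomial (Fin 3) ℝ} {i : Fin n}
    {q : MvPolynomial (Fin 3) ℝ} (p : Fin 3 → ℝ) (hl : ∀ k, (l k).totalDegree ≤ 1)
    (hp : ∀ k, eval p (l k) = 0) (N : ℕ) (hq : Ent r l i d q) : Ent r l i N (TT p N q) := by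
  obtain ⟨k, -, h2, rfl⟩ := hq
  refine ⟨fun j => TT p N (k j), fun j => totalDegree_TT _ _ _, ?_, rfl⟩
  have hΛ : ∀ i, (tr p (l i)).IsHomogeneous 1 := by
    intro i
    refine homogeneous_one ((totalDegree_tr _ _).trans (hl i)) ?_
    rw [eval_tr, add_zero]
    exact hp i
  have hrel : ∑ i, tr p (l i) ^ (r + 1) * tr p (k i) = 0 := by
    have := congrArg (tr p) h2
    rw [map_sum, map_zero] at this
    rw [← this]
    refine Finset.sum_congr rfl fun i _ => ?_
    rw [map_mul, map_pow]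
  have hcomp : ∀ s, ∑ i, tr p (l i) ^ (r + 1) * homogeneousComponent s (tr p (k i)) = 0 := by
    intro s
    have := congrArg (homogeneousComponent (1 * (r + 1) + s)) hrel
    rw [hc_sum, map_zero] at this
    rw [← this]
    refine Finset.sum_congr rfl fun i _ => ?_
    rw [hc_mul ((hΛ i).pow (r + 1))]
  have h1 : ∑ i, tr p (l i) ^ (r + 1) * lowp (N + 1) (tr p (k i)) = 0 := by
    unfold lowp
    have : ∀ i, tr p (l i) ^ (r + 1) * ∑ s ∈ Finset.range (N + 1),
        homogeneousComponent s (tr p (k i)) = ∑ s ∈ Finset.range (N + 1),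
        tr p (l i) ^ (r + 1) * homogeneousComponent s (tr p (k i)) := fun i =>
      Finset.mul_sum _ _ _
    rw [Finset.sum_congr rfl fun i _ => this i, Finset.sum_comm]
    exact Finset.sum_eq_zero fun s _ => hcomp s
  have h2 := congrArg (tr (-p)) h1
  rw [map_sum, map_zero] at h2
  rw [← h2]
  refine Finset.sum_congr rfl fun i _ => ?_
  rw [map_mul, map_pow, tr_tr]
  rfl

/-! Partition of unity. -/

/-- forms of degree `N` in `A`, `B`, `D` -/
noncomputable def GG (A B D : MvPolynomial (Fin 3) ℝ) (N : ℕ) : Submodule ℝ (MvPolynomial (Fin 3) ℝ) :=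
  Submodule.span ℝ {q | ∃ i j k : ℕ, i + j + k = N ∧ q = A ^ i * B ^ j * D ^ k}

theorem GG.mul {A B D q : MvPolynomial (Fin 3) ℝ} {N : ℕ} (hq : q ∈ GG A B D N) :
    (A + B + D) * q ∈ GG A B D (N + 1) := by
  unfold GG at hq
  induction hq using Submodule.span_induction with
  | mem x hx =>
    obtain ⟨i, j, k, hij, rfl⟩ := hx
    have h : (A + B + D) * (A ^ i * B ^ j * D ^ k) = A ^ (i + 1) * B ^ j * D ^ k +
        A ^ i * B ^ (j + 1) * D ^ k + A ^ i * B ^ j * D ^ (k + 1) := by ring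
    rw [h]
    refine Submodule.add_mem _ (Submodule.add_mem _ ?_ ?_) ?_
    · exact Submodule.subset_span ⟨i + 1, j, k, by omega, rfl⟩
    · exact Submodule.subset_span ⟨i, j + 1, k, by omega, rfl⟩
    · exact Submodule.subset_span ⟨i, j, k + 1, by omega, rfl⟩
  | zero => rw [mul_zero]; exact Submodule.zero_mem _
  | add x y _ _ hx hy => rw [mul_add]; exact Submodule.add_mem _ hx hy
  | smul a x _ hx => rw [mul_smul_comm]; exact Submodule.smul_mem _ _ hx

theorem GG.one {A B D : MvPolynomial (Fin 3) ℝ} (h : A + B + D = 1) (N : ℕ) :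
    (1 : MvPolynomial (Fin 3) ℝ) ∈ GG A B D N := by
  induction N with
  | zero => exact Submodule.subset_span ⟨0, 0, 0, rfl, by simp⟩
  | succ N ih =>
    have := GG.mul ih
    rwa [h, one_mul] at this

theorem GG.split {A B D q : MvPolynomial (Fin 3) ℝ} (hA : A.totalDegree ≤ 1)
    (hB : B.totalDegree ≤ 1) (hD : D.totalDegree ≤ 1) {N r : ℕ} (hr : r ≤ N)
    (hN : 3 * r ≤ N + 2) (hq : q ∈ GG A B D N) :
    ∃ a b c : MvPolynomial (Fin 3) ℝ, a.totalDegree + r ≤ N ∧ b.totalDegree + r ≤ N ∧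
      c.totalDegree + r ≤ N ∧ q = A ^ r * a + B ^ r * b + D ^ r * c := by
  have hdeg : ∀ a b c : ℕ, (A ^ a * B ^ b * D ^ c).totalDegree ≤ a + b + c := fun a b c => by
    refine (totalDegree_mul _ _).trans (add_le_add ((totalDegree_mul _ _).trans
      (add_le_add ?_ ?_)) ?_)
    · exact (totalDegree_pow _ _).trans (by nlinarith)
    · exact (totalDegree_pow _ _).trans (by nlinarith)
    · exact (totalDegree_pow _ _).trans (by nlinarith)
  have h0 : (0 : MvPolynomial (Fin 3) ℝ).totalDegree + r ≤ N := by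
    rw [totalDegree_zero]
    omega
  unfold GG at hq
  induction hq using Submodule.span_induction with
  | mem x hx =>
    obtain ⟨i, j, k, hij, rfl⟩ := hx
    rcases Nat.lt_or_ge i r with h | h
    · rcases Nat.lt_or_ge j r with h' | h'
      · refine ⟨0, 0, A ^ i * B ^ j * D ^ (k - r), h0, h0, ?_, ?_⟩
        · have := hdeg i j (k - r)
          omega
        · have h1 : D ^ k = D ^ r * D ^ (k - r) := by
            rw [← pow_add]
            congr 1
            omega
          rw [h1]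
          ring
      · refine ⟨0, A ^ i * B ^ (j - r) * D ^ k, 0, h0, ?_, h0, ?_⟩
        · have := hdeg i (j - r) k
          omega
        · have h1 : B ^ j = B ^ r * B ^ (j - r) := by
            rw [← pow_add]
            congr 1
            omega
          rw [h1]
          ring
    · refine ⟨A ^ (i - r) * B ^ j * D ^ k, 0, 0, ?_, h0, h0, ?_⟩
      · have := hdeg (i - r) j k
        omega
      · have h1 : A ^ i = A ^ r * A ^ (i - r) := by
          rw [← pow_add]
          congr 1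
          omega
        rw [h1]
        ring
  | zero => exact ⟨0, 0, 0, h0, h0, h0, by simp⟩
  | add x y _ _ hx hy =>
    obtain ⟨a, b, c, h1, h2, h3, rfl⟩ := hx
    obtain ⟨a', b', c', h1', h2', h3', rfl⟩ := hy
    refine ⟨a + a', b + b', c + c', ?_, ?_, ?_, by ring⟩
    · have := totalDegree_add a a'
      omega
    · have := totalDegree_add b b'
      omega
    · have := totalDegree_add c c'
      omega
  | smul t x _ hx =>
    obtain ⟨a, b, c, h1, h2, h3, rfl⟩ := hx
    refine ⟨t • a, t • b, t • c, ?_, ?_, ?_, ?_⟩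
    · have := totalDegree_smul_le t a
      omega
    · have := totalDegree_smul_le t b
      omega
    · have := totalDegree_smul_le t c
      omega
    · rw [smul_add, smul_add, mul_smul_comm, mul_smul_comm, mul_smul_comm]

/-! The core. -/

section core

variable {n n' n'' r d : ℕ} {l : Fin n → MvPolynomial (Fin 3) ℝ}
  {l' : Fin n' → MvPolynomial (Fin 3) ℝ} {l'' : Fin n'' → MvPolynomial (Fin 3) ℝ}
  {i : Fin n} {j : Fin n'} {k : Fin n''}

/-- the sum of the first entries and the common ones of the others -/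
def SS (r d : ℕ) {n n' n'' : ℕ} (l : Fin n → MvPolynomial (Fin 3) ℝ)
    (l' : Fin n' → MvPolynomial (Fin 3) ℝ) (l'' : Fin n'' → MvPolynomial (Fin 3) ℝ)
    (i : Fin n) (j : Fin n') (k : Fin n'') (q : MvPolynomial (Fin 3) ℝ) : Prop :=
  ∃ s t, Ent r l i d s ∧ Ent r l' j d t ∧ Ent r l'' k d t ∧ q = s + t

theorem SS.zero : SS r d l l' l'' i j k 0 := ⟨0, 0, Ent.zero, Ent.zero, Ent.zero, by simp⟩

theorem SS.add {p q : MvPolynomial (Fin 3) ℝ} (hp : SS r d l l' l'' i j k p)
    (hq : SS r d l l' l'' i j k q) : SS r d l l' l'' i j k (p + q) := by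
  obtain ⟨s, t, h1, h2, h3, rfl⟩ := hp
  obtain ⟨s', t', h1', h2', h3', rfl⟩ := hq
  exact ⟨s + s', t + t', h1.add h1', h2.add h2', h3.add h3', by ring⟩

theorem SS.smul {p : MvPolynomial (Fin 3) ℝ} (c : ℝ) (hp : SS r d l l' l'' i j k p) :
    SS r d l l' l'' i j k (c • p) := by
  obtain ⟨s, t, h1, h2, h3, rfl⟩ := hp
  exact ⟨c • s, c • t, h1.smul c, h2.smul c, h3.smul c, smul_add _ _ _⟩

/-- reducible to degree at most `N` -/
def Red (r d : ℕ) {n n' n'' : ℕ} (l : Fin n → MvPolynomial (Fin 3) ℝ)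
    (l' : Fin n' → MvPolynomial (Fin 3) ℝ) (l'' : Fin n'' → MvPolynomial (Fin 3) ℝ)
    (i : Fin n) (j : Fin n') (k : Fin n'') (N : ℕ) (q : MvPolynomial (Fin 3) ℝ) : Prop :=
  ∃ p e, p.totalDegree ≤ N ∧ SS r d l l' l'' i j k e ∧ q = p + e

theorem Red.zero {N : ℕ} : Red r d l l' l'' i j k N 0 :=
  ⟨0, 0, by rw [totalDegree_zero]; exact Nat.zero_le _, SS.zero, by simp⟩

theorem Red.add {N : ℕ} {p q : MvPolynomial (Fin 3) ℝ} (hp : Red r d l l' l'' i j k N p)
    (hq : Red r d l l' l'' i j k N q) : Red r d l l' l'' i j k N (p + q) := by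
  obtain ⟨s, t, h1, h2, rfl⟩ := hp
  obtain ⟨s', t', h1', h2', rfl⟩ := hq
  exact ⟨s + s', t + t', (totalDegree_add _ _).trans (max_le h1 h1'), h2.add h2', by ring⟩

theorem Red.smul {N : ℕ} {p : MvPolynomial (Fin 3) ℝ} (c : ℝ)
    (hp : Red r d l l' l'' i j k N p) : Red r d l l' l'' i j k N (c • p) := by
  obtain ⟨s, t, h1, h2, rfl⟩ := hp
  exact ⟨c • s, c • t, (totalDegree_smul_le _ _).trans h1, h2.smul c, smul_add _ _ _⟩

variable {hA hB hC Z : MvPolynomial (Fin 3) ℝ}

/-- Reduction of a monomial. -/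
theorem red_mono (hr : 1 ≤ r) (hd : 3 * r ≤ d + 1) (dA : hA.totalDegree ≤ 1)
    (dB : hB.totalDegree ≤ 1) (dC : hC.totalDegree ≤ 1) (dZ : Z.totalDegree ≤ 1)
    (hsum : hA + hB + hC = 1)
    (E1 : ∀ (s c : ℕ) (P : MvPolynomial (Fin 3) ℝ), r ≤ s + c → P.totalDegree + s + c ≤ d →
      Ent r l i d (hC ^ s * Z ^ c * P))
    (E2 : ∀ P : MvPolynomial (Fin 3) ℝ, P.totalDegree + r ≤ d → Ent r l' j d (hA ^ r * P))
    (E3 : ∀ P : MvPolynomial (Fin 3) ℝ, P.totalDegree + r ≤ d → Ent r l'' k d (hB ^ r * P))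
    (a b c : ℕ) (habc : a + b + c ≤ d) :
    Red r d l l' l'' i j k (3 * r - 2) (hA ^ a * hC ^ b * Z ^ c) := by
  have pw : ∀ {A : MvPolynomial (Fin 3) ℝ} (s : ℕ), A.totalDegree ≤ 1 →
      (A ^ s).totalDegree ≤ s := fun s h => (totalDegree_pow _ _).trans (by nlinarith)
  rcases Nat.lt_or_ge (b + c) r with hbc | hbc
  · set e := 2 * r - 1 - b - c with he
    set M : Polynomial ℝ := Polynomial.X ^ r * (Polynomial.X - Polynomial.C 1) ^ e with hM
    have hMm : M.Monic := (Polynomial.monic_X.pow r).mul ((Polynomial.monic_X_sub_C 1).pow e)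
    have hMd : M.natDegree = r + e := by
      rw [hM, Polynomial.Monic.natDegree_mul (Polynomial.monic_X.pow r)
        ((Polynomial.monic_X_sub_C 1).pow e), Polynomial.natDegree_pow, Polynomial.natDegree_X,
        Polynomial.natDegree_pow, Polynomial.natDegree_X_sub_C]
      ring
    have hM1 : M ≠ 1 := by
      intro h
      rw [h, Polynomial.natDegree_one] at hMd
      omega
    set Q := (Polynomial.X ^ a : Polynomial ℝ) /ₘ M with hQ
    set R := (Polynomial.X ^ a : Polynomial ℝ) %ₘ M with hR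
    have hRd : R.natDegree < r + e := by
      rw [← hMd]
      exact Polynomial.natDegree_modByMonic_lt _ hMm hM1
    have hQd : Q.natDegree = a - (r + e) := by
      rw [hQ, Polynomial.natDegree_divByMonic _ hMm, hMd, Polynomial.natDegree_X_pow]
    have hdiv : R + M * Q = Polynomial.X ^ a := Polynomial.modByMonic_add_div _ _
    have hdiv' : hA ^ a = Polynomial.aeval hA R +
        hA ^ r * (hA - 1) ^ e * Polynomial.aeval hA Q := by
      have := congrArg (Polynomial.aeval hA) hdiv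
      rw [map_add, map_mul, hM, map_mul, map_pow, map_pow, map_pow, map_sub, Polynomial.aeval_X,
        Polynomial.aeval_C, map_one] at this
      exact this.symm
    have hQt := F83.totalDegree_aeval_le Q hA dA
    have hRt := F83.totalDegree_aeval_le R hA dA
    set q := Polynomial.aeval hA Q with hq
    set p := Polynomial.aeval hA R with hp
    have hF : (hA - 1) ^ e * 1 ∈ FF hB hC (0 + e) := by
      have h1 := FF.pow_mul (-1) (-1) (FF.one hB hC) e
      have h2 : (C (-1) * hB + C (-1) * hC : MvPolynomial (Fin 3) ℝ) = hA - 1 := by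
        rw [← hsum, C_neg, C_1]
        ring
      rwa [h2] at h1
    rw [mul_one, zero_add] at hF
    have key : ∀ g ∈ FF hB hC e, SS r d l l' l'' i j k (hA ^ r * g * q * hC ^ b * Z ^ c) := by
      intro g hg
      unfold FF at hg
      induction hg using Submodule.span_induction with
      | mem x hx =>
        obtain ⟨s, t, hst, rfl⟩ := hx
        rcases Nat.lt_or_ge (t + b + c) r with h | h
        · have hE2 := E2 (hB ^ s * hC ^ (t + b) * Z ^ c * q) (by
            have h1 := totalDegree_mul (hB ^ s * hC ^ (t + b) * Z ^ c) q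
            have h2 := totalDegree_mul (hB ^ s * hC ^ (t + b)) (Z ^ c)
            have h3 := totalDegree_mul (hB ^ s) (hC ^ (t + b))
            have h4 := pw s dB
            have h5 := pw (t + b) dC
            have h6 := pw c dZ
            omega)
          have hE3 := E3 (hB ^ (s - r) * hC ^ (t + b) * Z ^ c * q * hA ^ r) (by
            have h0 := totalDegree_mul (hB ^ (s - r) * hC ^ (t + b) * Z ^ c * q) (hA ^ r)
            have h1 := totalDegree_mul (hB ^ (s - r) * hC ^ (t + b) * Z ^ c) q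
            have h2 := totalDegree_mul (hB ^ (s - r) * hC ^ (t + b)) (Z ^ c)
            have h3 := totalDegree_mul (hB ^ (s - r)) (hC ^ (t + b))
            have h4 := pw (s - r) dB
            have h5 := pw (t + b) dC
            have h6 := pw c dZ
            have h7 := pw r dA
            omega)
          have hBs : hB ^ s = hB ^ r * hB ^ (s - r) := by
            rw [← pow_add]
            congr 1
            omega
          refine ⟨0, hA ^ r * (hB ^ s * hC ^ (t + b) * Z ^ c * q), Ent.zero, hE2, ?_, ?_⟩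
          · have h1 : hA ^ r * (hB ^ s * hC ^ (t + b) * Z ^ c * q) =
                hB ^ r * (hB ^ (s - r) * hC ^ (t + b) * Z ^ c * q * hA ^ r) := by
              rw [hBs]
              ring
            rw [h1]
            exact hE3
          · rw [pow_add hC t b]
            ring
        · have hE1 := E1 (t + b) c (hA ^ r * hB ^ s * q) (by omega) (by
            have h1 := totalDegree_mul (hA ^ r * hB ^ s) q
            have h2 := totalDegree_mul (hA ^ r) (hB ^ s)
            have h3 := pw r dA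
            have h4 := pw s dB
            omega)
          refine ⟨_, 0, hE1, Ent.zero, Ent.zero, ?_⟩
          rw [pow_add hC t b]
          ring
      | zero =>
        simp only [mul_zero, zero_mul]
        exact SS.zero
      | add x y _ _ hx hy =>
        have h : hA ^ r * (x + y) * q * hC ^ b * Z ^ c = hA ^ r * x * q * hC ^ b * Z ^ c +
            hA ^ r * y * q * hC ^ b * Z ^ c := by ring
        rw [h]
        exact hx.add hy
      | smul t x _ hx =>
        have h : hA ^ r * (t • x) * q * hC ^ b * Z ^ c =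
            t • (hA ^ r * x * q * hC ^ b * Z ^ c) := by
          rw [smul_eq_C_mul, smul_eq_C_mul]
          ring
        rw [h]
        exact hx.smul t
    refine ⟨p * hC ^ b * Z ^ c, _, ?_, key _ hF, ?_⟩
    · have h1 := totalDegree_mul (p * hC ^ b) (Z ^ c)
      have h2 := totalDegree_mul p (hC ^ b)
      have h3 := pw b dC
      have h4 := pw c dZ
      omega
    · rw [hdiv']
      ring
  · refine ⟨0, hA ^ a * hC ^ b * Z ^ c, ?_, ?_, by simp⟩
    · rw [totalDegree_zero]
      exact Nat.zero_le _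
    · refine ⟨hA ^ a * hC ^ b * Z ^ c, 0, ?_, Ent.zero, Ent.zero, by simp⟩
      have h1 := E1 b c (hA ^ a) hbc (by
        have := pw a dA
        omega)
      have h2 : hC ^ b * Z ^ c * hA ^ a = hA ^ a * hC ^ b * Z ^ c := by ring
      rwa [h2] at h1

/-- The core statement, `r` positive. -/
theorem core (hr : 1 ≤ r) (hd : 6 * r ≤ d) (dA : hA.totalDegree ≤ 1)
    (dB : hB.totalDegree ≤ 1) (dC : hC.totalDegree ≤ 1) (dZ : Z.totalDegree ≤ 1)
    (hsum : hA + hB + hC = 1)
    (hspan : ∀ q : MvPolynomial (Fin 3) ℝ, q.totalDegree ≤ d →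
      q ∈ Submodule.span ℝ {p | ∃ a b c : ℕ, a + b + c ≤ d ∧ p = hA ^ a * hC ^ b * Z ^ c})
    (E1 : ∀ (s c : ℕ) (P : MvPolynomial (Fin 3) ℝ), r ≤ s + c → P.totalDegree + s + c ≤ d →
      Ent r l i d (hC ^ s * Z ^ c * P))
    (E2 : ∀ P : MvPolynomial (Fin 3) ℝ, P.totalDegree + r ≤ d → Ent r l' j d (hA ^ r * P))
    (E3 : ∀ P : MvPolynomial (Fin 3) ℝ, P.totalDegree + r ≤ d → Ent r l'' k d (hB ^ r * P))
    (x y : Fin 3 → ℝ) (dl : ∀ m, (l m).totalDegree ≤ 1) (dl' : ∀ m, (l' m).totalDegree ≤ 1)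
    (dl'' : ∀ m, (l'' m).totalDegree ≤ 1) (hx : ∀ m, eval x (l m) = 0)
    (hx' : ∀ m, eval x (l' m) = 0) (hy : ∀ m, eval y (l m) = 0) (hy' : ∀ m, eval y (l'' m) = 0)
    (q : MvPolynomial (Fin 3) ℝ) (hq : q.totalDegree ≤ d) :
    (∃ s t u, Ent r l i d s ∧ Ent r l' j d t ∧ Ent r l'' k d u ∧ q = s + t + u) ∧
    ((∃ s t, Ent r l i d s ∧ Ent r l' j d t ∧ q = s + t) →
      (∃ s t, Ent r l i d s ∧ Ent r l'' k d t ∧ q = s + t) → SS r d l l' l'' i j k q) := by
  have hred : Red r d l l' l'' i j k (3 * r - 2) q := by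
    have h := hspan q hq
    clear hq
    induction h using Submodule.span_induction with
    | mem x hx =>
      obtain ⟨a, b, c, habc, rfl⟩ := hx
      exact red_mono hr (by omega) dA dB dC dZ hsum E1 E2 E3 a b c habc
    | zero => exact Red.zero
    | add x y _ _ hx hy => exact hx.add hy
    | smul t x _ hx => exact hx.smul t
  obtain ⟨p, e, hp, he, hqe⟩ := hred
  obtain ⟨a, b, c, ha, hb, hc, habc⟩ := GG.split dA dB dC (r := r) (N := 3 * r - 2) (by omega)
    (by omega) (GG.one hsum (3 * r - 2))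
  have pw : ∀ {A : MvPolynomial (Fin 3) ℝ} (s : ℕ), A.totalDegree ≤ 1 →
      (A ^ s).totalDegree ≤ s := fun s h => (totalDegree_pow _ _).trans (by nlinarith)
  have hpp : p = p * hA ^ r * a + p * hB ^ r * b + p * hC ^ r * c := by
    have : p = p * (hA ^ r * a + hB ^ r * b + hC ^ r * c) := by rw [← habc, mul_one]
    conv_lhs => rw [this]
    ring
  have hc1 : Ent r l i d (p * hC ^ r * c) := by
    have h1 := E1 r 0 (c * p) (by omega) (by
      have := totalDegree_mul c p
      omega)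
    have h2 : hC ^ r * Z ^ 0 * (c * p) = p * hC ^ r * c := by ring
    rwa [h2] at h1
  obtain ⟨s0, t0, hs0, ht0, ht0', rfl⟩ := he
  refine ⟨?_, ?_⟩
  · refine ⟨p * hC ^ r * c + s0, p * hA ^ r * a + t0, p * hB ^ r * b, hc1.add hs0, ?_, ?_, ?_⟩
    · refine Ent.add ?_ ht0
      have h1 := E2 (p * a) (by
        have := totalDegree_mul p a
        omega)
      have h2 : hA ^ r * (p * a) = p * hA ^ r * a := by ring
      rwa [h2] at h1
    · have h1 := E3 (p * b) (by
        have := totalDegree_mul p b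
        omega)
      have h2 : hB ^ r * (p * b) = p * hB ^ r * b := by ring
      rwa [h2] at h1
    · rw [hqe]
      linear_combination hpp
  · rintro ⟨s1, t1, hs1, ht1, hq1⟩ ⟨s2, t2, hs2, ht2, hq2⟩
    -- the truncations
    have e1 : p = TT x (3 * r - 2) (s1 + -s0) + TT x (3 * r - 2) (t1 + -t0) := by
      rw [← TT_add, ← TT_eq (p := x) hp]
      congr 1
      linear_combination hq1 - hqe
    have e2 : p = TT y (3 * r - 2) (s2 + -s0) + TT y (3 * r - 2) (t2 + -t0) := by
      rw [← TT_add, ← TT_eq (p := y) hp]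
      congr 1
      linear_combination hq2 - hqe
    have f1 := (hs1.add hs0.neg).trunc x dl hx (3 * r - 2)
    have f2 := (ht1.add ht0.neg).trunc x dl' hx' (3 * r - 2)
    have f3 := (hs2.add hs0.neg).trunc y dl hy (3 * r - 2)
    have f4 := (ht2.add ht0'.neg).trunc y dl'' hy' (3 * r - 2)
    set a1 := TT x (3 * r - 2) (s1 + -s0)
    set a2 := TT x (3 * r - 2) (t1 + -t0)
    set a3 := TT y (3 * r - 2) (s2 + -s0)
    set a4 := TT y (3 * r - 2) (t2 + -t0)
    have hA1 := totalDegree_mul (hA ^ r) a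
    have hB1 := totalDegree_mul (hB ^ r) b
    have hAr := pw r dA
    have hBr := pw r dB
    have g1 : Ent r l i d (hB ^ r * b * a1) := f1.mul (by omega)
    have g2 : Ent r l' j d (hB ^ r * b * a2) := f2.mul (by omega)
    have g3 : Ent r l i d (hA ^ r * a * a3) := f3.mul (by omega)
    have g4 : Ent r l'' k d (hA ^ r * a * a4) := f4.mul (by omega)
    have da2 : a2.totalDegree ≤ 3 * r - 2 := totalDegree_TT _ _ _
    have da4 : a4.totalDegree ≤ 3 * r - 2 := totalDegree_TT _ _ _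
    have g5 : Ent r l'' k d (hB ^ r * b * a2) := by
      rw [mul_assoc]
      refine E3 _ ?_
      have := totalDegree_mul b a2
      omega
    have g6 : Ent r l' j d (hA ^ r * a * a4) := by
      rw [mul_assoc]
      refine E2 _ ?_
      have := totalDegree_mul a a4
      omega
    refine ⟨hB ^ r * b * a1 + hA ^ r * a * a3 + p * hC ^ r * c + s0,
      hB ^ r * b * a2 + hA ^ r * a * a4 + t0, ((g1.add g3).add hc1).add hs0, (g2.add g6).add ht0,
      (g5.add g4).add ht0', ?_⟩
    rw [hqe]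
    linear_combination hpp + (hB ^ r * b) * e1 + (hA ^ r * a) * e2

end core

/-! Coordinates. -/

/-- The monomials in the new affine functions. -/
theorem mem_span_mono {d : ℕ} {u v : ℝ} (hu : u ≠ 0) (hv : v ≠ 0) (q : MvPolynomial (Fin 3) ℝ)
    (hq : q.totalDegree ≤ d) :
    q ∈ Submodule.span ℝ {p : MvPolynomial (Fin 3) ℝ | ∃ a b c : ℕ, a + b + c ≤ d ∧
      p = (C u * X 0) ^ a * (C v * X 1) ^ b * X 2 ^ c} := by
  rw [← MvPolynomial.support_sum_monomial_coeff q]
  refine Submodule.sum_mem _ fun m hm => ?_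
  have hdeg : m 0 + m 1 + m 2 ≤ d := by
    have h := le_totalDegree hm
    rw [Finsupp.sum_fintype _ _ (fun _ => rfl), Fin.sum_univ_three] at h
    exact h.trans hq
  have h : monomial m (coeff m q) = (coeff m q * (u⁻¹) ^ m 0 * (v⁻¹) ^ m 1) •
      ((C u * X 0) ^ m 0 * (C v * X 1) ^ m 1 * X 2 ^ m 2 : MvPolynomial (Fin 3) ℝ) := by
    have h1 : (C (u⁻¹) : MvPolynomial (Fin 3) ℝ) ^ m 0 * C u ^ m 0 = 1 := by
      rw [← mul_pow, ← C_mul, inv_mul_cancel₀ hu, C_1, one_pow]
    have h2 : (C (v⁻¹) : MvPolynomial (Fin 3) ℝ) ^ m 1 * C v ^ m 1 = 1 := by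
      rw [← mul_pow, ← C_mul, inv_mul_cancel₀ hv, C_1, one_pow]
    rw [monomial_eq, Finsupp.prod_fintype _ _ (fun _ => pow_zero _), Fin.prod_univ_three,
      smul_eq_C_mul, C_mul, C_mul, C_pow, C_pow, mul_pow, mul_pow]
    linear_combination (-(C (coeff m q) * X 0 ^ m 0 * X 1 ^ m 1 * X 2 ^ m 2) *
      (C (v⁻¹) ^ m 1 * C v ^ m 1)) * h1 - (C (coeff m q) * X 0 ^ m 0 * X 1 ^ m 1 * X 2 ^ m 2) * h2
  rw [h]
  exact Submodule.smul_mem _ _ (Submodule.subset_span ⟨_, _, _, hdeg, rfl⟩)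

theorem Ent.affE_iff (o : Fin 3 → ℝ) (A : Matrix (Fin 3) (Fin 3) ℝ) (hA : IsUnit A.det)
    {n r d : ℕ} {l : Fin n → MvPolynomial (Fin 3) ℝ} {i : Fin n} {q : MvPolynomial (Fin 3) ℝ} :
    Ent r (fun m => affE o A hA (l m)) i d (affE o A hA q) ↔ Ent r l i d q := by
  constructor
  · intro h
    have h1 := Ent.map ((affE o A hA).symm : MvPolynomial (Fin 3) ℝ →ₐ[ℝ] _)
      (fun P => totalDegree_affE_symm_le o A hA P) h
    have h2 : ∀ P, ((affE o A hA).symm : MvPolynomial (Fin 3) ℝ →ₐ[ℝ] _) (affE o A hA P) = P :=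
      fun P => AlgEquiv.symm_apply_apply _ _
    simp only [h2] at h1
    exact h1
  · intro h
    exact Ent.map (aff o A) (fun P => totalDegree_aff_le o A P) h

theorem symm {n : ℕ} {l : Fin n → MvPolynomial (Fin 3) ℝ} {a b : Fin 3 → ℝ}
    (h : Pencil l a b) : Pencil l b a where
  deg := h.deg
  van m := (h.van m).symm
  dist := h.dist
  ne := h.ne

/-- The normal form of one pencil. -/
theorem form {n : ℕ} (L : Fin n → MvPolynomial (Fin 3) ℝ) (i : Fin n)
    (W : MvPolynomial (Fin 3) ℝ) (hi : L i = X 2)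
    (hform : ∀ k, ∃ c1 c2 : ℝ, L k = C c1 * W + C c2 * X 2)
    (hdist : ¬ ∃ i j : Fin n, i ≠ j ∧ ∃ c c' : ℝ, c ≠ 0 ∧ c • L i = c' • L j) :
    ∃ α β : Fin n → ℝ,
      (∀ k, k ≠ i → α k ≠ 0 ∧ L k = C (α k) * (W - C (β k) * X 2)) ∧
      (∀ k k', k ≠ i → k' ≠ i → β k = β k' → k = k') := by
  choose c1 c2 hc using hform
  have h1 : ∀ k, k ≠ i → c1 k ≠ 0 := by
    intro k hk h0
    apply hdist
    refine ⟨k, i, hk, 1, c2 k, one_ne_zero, ?_⟩
    rw [one_smul, hi, hc k, h0, C_0, zero_mul, zero_add, smul_eq_C_mul]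
  have h2 : ∀ k, k ≠ i → L k = C (c1 k) * (W - C (-(c2 k) / c1 k) * X 2) := by
    intro k hk
    have h3 : C (c1 k) * C (-(c2 k) / c1 k) = (C (-(c2 k)) : MvPolynomial (Fin 3) ℝ) := by
      rw [← C_mul]
      congr 1
      field_simp [h1 k hk]
    rw [hc k, mul_sub, ← mul_assoc, h3, C_neg]
    ring
  refine ⟨c1, fun k => -(c2 k) / c1 k, fun k hk => ⟨h1 k hk, h2 k hk⟩, ?_⟩
  intro k k' hk hk' hβ
  by_contra hne
  apply hdist
  refine ⟨k, k', hne, c1 k', c1 k, h1 k' hk', ?_⟩
  have hβ' : -(c2 k) / c1 k = -(c2 k') / c1 k' := hβ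
  rw [h2 k hk, h2 k' hk', hβ', smul_eq_C_mul, smul_eq_C_mul]
  ring

/-- The distributivity and the sum. -/
theorem tri {n n' n'' r d : ℕ} {l : Fin n → MvPolynomial (Fin 3) ℝ}
    {l' : Fin n' → MvPolynomial (Fin 3) ℝ} {l'' : Fin n'' → MvPolynomial (Fin 3) ℝ}
    {i : Fin n} {j : Fin n'} {k : Fin n''} {a b c : Fin 3 → ℝ}
    (h1 : Pencil l a b) (h2 : Pencil l' b c) (h3 : Pencil l'' a c) (hn : 3 ≤ n) (hn' : 3 ≤ n')
    (hn'' : 3 ≤ n'') (hij : l i = l' j) (hik : l i = l'' k) (habc : AffineIndependent ℝ ![b, a, c])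
    (hd : 6 * r ≤ d) (q : MvPolynomial (Fin 3) ℝ) (hq : q.totalDegree ≤ d) :
    (∃ s t u, Ent r l i d s ∧ Ent r l' j d t ∧ Ent r l'' k d u ∧ q = s + t + u) ∧
    ((∃ s t, Ent r l i d s ∧ Ent r l' j d t ∧ q = s + t) →
      (∃ s t, Ent r l i d s ∧ Ent r l'' k d t ∧ q = s + t) → SS r d l l' l'' i j k q) := by
  obtain ⟨o, A, hA, α, β, α', β', hLi, hL, hL', hβ, hβ'⟩ :=
    P3_32.stP3_32 n n' l l' i j b a c (symm h1) h2 (by omega) (by omega) hij habc
  -- the new coordinates of the points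
  have hpt : ∀ p : Fin 3 → ℝ, ∃ x : Fin 3 → ℝ, o + A.mulVec x = p := fun p => by
    refine ⟨A⁻¹.mulVec (p - o), ?_⟩
    rw [Matrix.mulVec_mulVec, Matrix.mul_nonsing_inv A hA, Matrix.one_mulVec, add_sub_cancel]
  obtain ⟨xa, hxa⟩ := hpt a
  obtain ⟨xb, hxb⟩ := hpt b
  obtain ⟨xc, hxc⟩ := hpt c
  have hev : ∀ (x p : Fin 3 → ℝ), o + A.mulVec x = p → ∀ P, eval x (affE o A hA P) = eval p P :=
    fun x p hx P => by rw [affE_apply, eval_aff, hx]
  have eA := hev xa a hxa
  have eB := hev xb b hxb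
  have eC := hev xc c hxc
  have hex : ∀ (m : ℕ) (i : Fin m), 3 ≤ m → ∃ i' : Fin m, i' ≠ i := fun m i hm => by
    have : Nontrivial (Fin m) := Fin.nontrivial_iff_two_le.2 (by omega)
    exact exists_ne i
  obtain ⟨i', hi'⟩ := hex n i hn
  obtain ⟨j', hj'⟩ := hex n' j hn'
  obtain ⟨hαi, hLi'⟩ := hL i' hi'
  obtain ⟨hαj, hLj'⟩ := hL' j' hj'
  have xa2 : xa 2 = 0 := by
    have h := eA (l i)
    rwa [hLi, eval_X, (h1.van i).1] at h
  have xb2 : xb 2 = 0 := by
    have h := eB (l i)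
    rwa [hLi, eval_X, (h1.van i).2] at h
  have xc2 : xc 2 = 0 := by
    have h := eC (l i)
    rwa [hLi, eval_X, hij, (h2.van j).2] at h
  have x1 : ∀ (x p : Fin 3 → ℝ), eval x (affE o A hA (l i')) = eval p (l i') → x 2 = 0 →
      eval p (l i') = 0 → x 1 = 0 := by
    intro x p h h0 hp
    rw [hLi', hp, map_mul, map_sub, map_mul, eval_C, eval_C, eval_X, eval_X, h0, mul_zero,
      sub_zero] at h
    exact (mul_eq_zero.1 h).resolve_left hαi
  have x0 : ∀ (x p : Fin 3 → ℝ), eval x (affE o A hA (l' j')) = eval p (l' j') → x 2 = 0 →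
      eval p (l' j') = 0 → x 0 = 0 := by
    intro x p h h0 hp
    rw [hLj', hp, map_mul, map_sub, map_mul, eval_C, eval_C, eval_X, eval_X, h0, mul_zero,
      sub_zero] at h
    exact (mul_eq_zero.1 h).resolve_left hαj
  have xa1 : xa 1 = 0 := x1 xa a (eA _) xa2 (h1.van _).1
  have xb1 : xb 1 = 0 := x1 xb b (eB _) xb2 (h1.van _).2
  have xb0 : xb 0 = 0 := x0 xb b (eB _) xb2 (h2.van _).1
  have xc0 : xc 0 = 0 := x0 xc c (eC _) xc2 (h2.van _).2
  have hinj := habc.injective
  have xa0 : xa 0 ≠ 0 := by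
    intro h
    have hab : xa = xb := by
      funext m
      fin_cases m
      · exact h.trans xb0.symm
      · exact xa1.trans xb1.symm
      · exact xa2.trans xb2.symm
    have hab' : b = a := by rw [← hxa, ← hxb, hab]
    have h01 : (0 : Fin 3) = 1 := hinj (a₁ := 0) (a₂ := 1) hab'
    exact absurd h01 (by decide)
  have xc1 : xc 1 ≠ 0 := by
    intro h
    have hcb : xc = xb := by
      funext m
      fin_cases m
      · exact xc0.trans xb0.symm
      · exact h.trans xb1.symm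
      · exact xc2.trans xb2.symm
    have hcb' : b = c := by rw [← hxc, ← hxb, hcb]
    have h02 : (0 : Fin 3) = 2 := hinj (a₁ := 0) (a₂ := 2) hcb'
    exact absurd h02 (by decide)
  have xbz : xb = 0 := by
    funext m
    fin_cases m
    · exact xb0
    · exact xb1
    · exact xb2
  -- the third pencil
  have hLk : affE o A hA (l'' k) = X 2 := by rw [← hik]; exact hLi
  have hform : ∀ m, ∃ c1 c2 : ℝ, affE o A hA (l'' m) =
      C c1 * (1 - C (xa 0)⁻¹ * X 0 - C (xc 1)⁻¹ * X 1) + C c2 * X 2 := by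
    intro m
    have hdeg : (affE o A hA (l'' m)).totalDegree ≤ 1 :=
      (totalDegree_aff_le o A _).trans (h3.deg m)
    have ha := eA (l'' m)
    have hc := eC (l'' m)
    rw [(h3.van m).1] at ha
    rw [(h3.van m).2] at hc
    obtain ⟨p0, p1, p2, p3, he⟩ : ∃ p0 p1 p2 p3 : ℝ, affE o A hA (l'' m) =
        C p0 + C p1 * X 0 + C p2 * X 1 + C p3 * X 2 := by
      have he := eq_of_totalDegree_le_one _ hdeg
      rw [Fin.sum_univ_three, ← add_assoc, ← add_assoc] at he
      exact ⟨_, _, _, _, he⟩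
    rw [he] at ha hc ⊢
    simp only [map_add, map_mul, eval_C, eval_X, xa1, xa2, xc0, xc2,
      mul_zero, add_zero] at ha hc
    refine ⟨p0, p3, ?_⟩
    have e1 : p1 = -(p0 * (xa 0)⁻¹) := by
      field_simp
      linarith
    have e2 : p2 = -(p0 * (xc 1)⁻¹) := by
      field_simp
      linarith
    rw [e1, e2, C_neg, C_neg, C_mul, C_mul]
    ring
  obtain ⟨α'', β'', hL'', hβ''⟩ := form (fun m => affE o A hA (l'' m)) k
    (1 - C (xa 0)⁻¹ * X 0 - C (xc 1)⁻¹ * X 1) hLk hform (by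
      rintro ⟨m, m', hm, c, c', hc, he⟩
      refine h3.dist ⟨m, m', hm, c, c', hc, ?_⟩
      apply (affE o A hA).injective
      rw [map_smul, map_smul]
      exact he)
  have dX : ∀ (t : ℝ) (v : Fin 3), (C t * X v : MvPolynomial (Fin 3) ℝ).totalDegree ≤ 1 :=
    fun t v => by
      refine (totalDegree_mul _ _).trans ?_
      rw [totalDegree_C, totalDegree_X]
  have dB : (1 - C (xa 0)⁻¹ * X 0 - C (xc 1)⁻¹ * X 1 : MvPolynomial (Fin 3) ℝ).totalDegree ≤ 1 := by
    refine (totalDegree_sub _ _).trans (max_le ((totalDegree_sub _ _).trans (max_le ?_ (dX _ _)))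
      (dX _ _))
    rw [totalDegree_one]
    exact Nat.zero_le _
  have dZ : ∀ v : Fin 3, (X v : MvPolynomial (Fin 3) ℝ).totalDegree ≤ 1 := fun v => by
    rw [totalDegree_X]
  have dC : ∀ (t : ℝ) (s : ℕ) (P : MvPolynomial (Fin 3) ℝ),
      (C t ^ s * P).totalDegree ≤ P.totalDegree := fun t s P => by
    refine (totalDegree_mul _ _).trans ?_
    rw [← C_pow, totalDegree_C, zero_add]
  have E1 : ∀ (s c : ℕ) (P : MvPolynomial (Fin 3) ℝ), r ≤ s + c → P.totalDegree + s + c ≤ d →
      Ent r (fun m => affE o A hA (l m)) i d ((C (xc 1)⁻¹ * X 1) ^ s * X 2 ^ c * P) := by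
    intro s c P hs hP
    have h := ent_pow (r := r) (d := d) (s := s) (c := c) (fun m => affE o A hA (l m)) i (dZ 1)
      (dZ 2) hLi hL hβ hn hs (C (xc 1)⁻¹ ^ s * P) (by
        have := dC (xc 1)⁻¹ s P
        omega)
    have e : X 1 ^ s * X 2 ^ c * (C (xc 1)⁻¹ ^ s * P) =
        ((C (xc 1)⁻¹ * X 1) ^ s * X 2 ^ c * P : MvPolynomial (Fin 3) ℝ) := by
      rw [mul_pow]
      ring
    rwa [e] at h
  have E2 : ∀ P : MvPolynomial (Fin 3) ℝ, P.totalDegree + r ≤ d →
      Ent r (fun m => affE o A hA (l' m)) j d ((C (xa 0)⁻¹ * X 0) ^ r * P) := by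
    intro P hP
    have h := ent_pow (r := r) (d := d) (s := r) (c := 0) (fun m => affE o A hA (l' m)) j (dZ 0)
      (dZ 2) (by rw [← hij]; exact hLi) hL' hβ' hn' le_rfl (C (xa 0)⁻¹ ^ r * P) (by
        have := dC (xa 0)⁻¹ r P
        omega)
    have e : X 0 ^ r * X 2 ^ 0 * (C (xa 0)⁻¹ ^ r * P) =
        ((C (xa 0)⁻¹ * X 0) ^ r * P : MvPolynomial (Fin 3) ℝ) := by
      rw [mul_pow]
      ring
    rwa [e] at h
  have E3 : ∀ P : MvPolynomial (Fin 3) ℝ, P.totalDegree + r ≤ d →
      Ent r (fun m => affE o A hA (l'' m)) k d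
        ((1 - C (xa 0)⁻¹ * X 0 - C (xc 1)⁻¹ * X 1) ^ r * P) := by
    intro P hP
    have h := ent_pow (r := r) (d := d) (s := r) (c := 0) (fun m => affE o A hA (l'' m)) k dB
      (dZ 2) hLk hL'' hβ'' hn'' le_rfl P (by omega)
    rwa [pow_zero, mul_one] at h
  have dq : (affE o A hA q).totalDegree ≤ d := (totalDegree_aff_le o A q).trans hq
  have key : (∃ s t u, Ent r (fun m => affE o A hA (l m)) i d s ∧
      Ent r (fun m => affE o A hA (l' m)) j d t ∧ Ent r (fun m => affE o A hA (l'' m)) k d u ∧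
      affE o A hA q = s + t + u) ∧
    ((∃ s t, Ent r (fun m => affE o A hA (l m)) i d s ∧
      Ent r (fun m => affE o A hA (l' m)) j d t ∧ affE o A hA q = s + t) →
      (∃ s t, Ent r (fun m => affE o A hA (l m)) i d s ∧
      Ent r (fun m => affE o A hA (l'' m)) k d t ∧ affE o A hA q = s + t) →
      SS r d (fun m => affE o A hA (l m)) (fun m => affE o A hA (l' m))
        (fun m => affE o A hA (l'' m)) i j k (affE o A hA q)) := by
    rcases Nat.eq_zero_or_pos r with hr | hr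
    · have h := E1 0 0 (affE o A hA q) (by omega) (by omega)
      rw [pow_zero, pow_zero, one_mul, one_mul] at h
      exact ⟨⟨_, 0, 0, h, Ent.zero, Ent.zero, by simp⟩, fun _ _ =>
        ⟨_, 0, h, Ent.zero, Ent.zero, by simp⟩⟩
    · refine core hr hd (dX _ _) dB (dX _ _) (dZ 2) (by ring)
        (fun p hp => mem_span_mono (inv_ne_zero xa0) (inv_ne_zero xc1) p hp) E1 E2 E3 xb xa
        (fun m => (totalDegree_aff_le o A _).trans (h1.deg m))
        (fun m => (totalDegree_aff_le o A _).trans (h2.deg m))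
        (fun m => (totalDegree_aff_le o A _).trans (h3.deg m))
        (fun m => (eB _).trans (h1.van m).2) (fun m => (eB _).trans (h2.van m).1)
        (fun m => (eA _).trans (h1.van m).1) (fun m => (eA _).trans (h3.van m).1) _ dq
  have inv : ∀ P, affE o A hA ((affE o A hA).symm P) = P := fun P =>
    AlgEquiv.apply_symm_apply _ _
  refine ⟨?_, ?_⟩
  · obtain ⟨s, t, u, hs, ht, hu, he⟩ := key.1
    rw [← inv s] at hs
    rw [← inv t] at ht
    rw [← inv u] at hu
    refine ⟨_, _, _, (Ent.affE_iff o A hA).1 hs, (Ent.affE_iff o A hA).1 ht,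
      (Ent.affE_iff o A hA).1 hu, ?_⟩
    apply (affE o A hA).injective
    rw [map_add, map_add, inv, inv, inv, he]
  · rintro ⟨s, t, hs, ht, he⟩ ⟨s', t', hs', ht', he'⟩
    obtain ⟨s1, t1, g1, g2, g3, g4⟩ := key.2
      ⟨_, _, (Ent.affE_iff o A hA).2 hs, (Ent.affE_iff o A hA).2 ht, by rw [he, map_add]⟩
      ⟨_, _, (Ent.affE_iff o A hA).2 hs', (Ent.affE_iff o A hA).2 ht', by rw [he', map_add]⟩
    rw [← inv s1] at g1
    rw [← inv t1] at g2 g3
    refine ⟨_, _, (Ent.affE_iff o A hA).1 g1, (Ent.affE_iff o A hA).1 g2,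
      (Ent.affE_iff o A hA).1 g3, ?_⟩
    apply (affE o A hA).injective
    rw [map_add, inv, inv, g4]

/-- (TR) -/
theorem stTR_79 : StTR := by
  intro n n' n'' r d l l' l'' i j k a b c h1 h2 h3 hn hn' hn'' hij hik habc hd
  have hbac : AffineIndependent ℝ ![b, a, c] := by
    have h := habc.comp_embedding (Equiv.swap (0 : Fin 3) 1).toEmbedding
    convert h using 1
    funext m
    fin_cases m <;> rfl
  have hcba : AffineIndependent ℝ ![c, b, a] := by
    have h := habc.comp_embedding (Equiv.swap (0 : Fin 3) 2).toEmbedding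
    convert h using 1
    funext m
    fin_cases m <;> rfl
  have P12 := stP n n' r d l l' i j b a c (symm h1) h2 hn hn' hij hbac
  have P13 := stP n n'' r d l l'' i k a b c h1 h3 hn hn'' hik habc
  have P23 := stP n' n'' r d l' l'' j k c b a (symm h2) (symm h3) hn' hn'' (hij ▸ hik) hcba
  have htri := fun (q : restrictTotalDegree (Fin 3) ℝ d) =>
    tri h1 h2 h3 hn hn' hn'' hij hik hbac hd q.1 ((mem_restrictTotalDegree _ _ _).1 q.2)
  have hdist : (entry r d l i ⊔ entry r d l' j) ⊓ (entry r d l i ⊔ entry r d l'' k) =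
      entry r d l i ⊔ (entry r d l' j ⊓ entry r d l'' k) := by
    apply le_antisymm
    · intro q hq
      obtain ⟨hq1, hq2⟩ := Submodule.mem_inf.1 hq
      obtain ⟨s1, hs1, t1, ht1, e1⟩ := Submodule.mem_sup.1 hq1
      obtain ⟨s2, hs2, t2, ht2, e2⟩ := Submodule.mem_sup.1 hq2
      obtain ⟨s, t, g1, g2, g3, g4⟩ := (htri q).2
        ⟨s1.1, t1.1, (mem_iff _ _ _ _ _).1 hs1, (mem_iff _ _ _ _ _).1 ht1, by rw [← e1]; rfl⟩
        ⟨s2.1, t2.1, (mem_iff _ _ _ _ _).1 hs2, (mem_iff _ _ _ _ _).1 ht2, by rw [← e2]; rfl⟩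
      have ds := g1.mem
      have dt := g2.mem
      refine Submodule.mem_sup.2 ⟨⟨s, ds⟩, (mem_iff _ _ _ _ _).2 g1, ⟨t, dt⟩,
        ⟨(mem_iff _ _ _ _ _).2 g2, (mem_iff _ _ _ _ _).2 g3⟩, Subtype.ext g4.symm⟩
    · exact le_inf (sup_le_sup_left inf_le_left _) (sup_le_sup_left inf_le_right _)
  have htop : (entry r d l i ⊔ entry r d l' j) ⊔ (entry r d l i ⊔ entry r d l'' k) = ⊤ := by
    rw [eq_top_iff]
    intro q _
    obtain ⟨s, t, u, g1, g2, g3, g4⟩ := (htri q).1
    have e : q = (⟨s, g1.mem⟩ : restrictTotalDegree (Fin 3) ℝ d) + ⟨t, g2.mem⟩ + ⟨u, g3.mem⟩ :=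
      Subtype.ext g4
    rw [e]
    refine Submodule.add_mem _ (Submodule.add_mem _ ?_ ?_) ?_
    · exact Submodule.mem_sup_left (Submodule.mem_sup_left ((mem_iff _ _ _ _ _).2 g1))
    · exact Submodule.mem_sup_left (Submodule.mem_sup_right ((mem_iff _ _ _ _ _).2 g2))
    · exact Submodule.mem_sup_right (Submodule.mem_sup_right ((mem_iff _ _ _ _ _).2 g3))
  have c1 := Submodule.finrank_sup_add_finrank_inf_eq (entry r d l i ⊔ entry r d l' j)
    (entry r d l i ⊔ entry r d l'' k)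
  have c2 := Submodule.finrank_sup_add_finrank_inf_eq (entry r d l i)
    (entry r d l' j ⊓ entry r d l'' k)
  have c3 := Submodule.finrank_sup_add_finrank_inf_eq (entry r d l' j) (entry r d l'' k)
  rw [htop, finrank_top, hdist] at c1
  rw [← inf_assoc] at c2
  omega

end Pool.Agent.Lib.MP_d2a91d_an.Tri79
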