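import Pool.Agent.Lib.MP_d2a91d_an.Stmts10
import Pool.Agent.Lib.MP_d2a91d_an.Tri_79

/-!
# (K3) Three pencils on the sides of a triangle, relations supported on parts
-/

set_option autoImplicit false

namespace Pool.Agent.Lib.MP_d2a91d_an.K379

open MvPolynomial

/-- a sub-pencil with its marked plane -/
theorem exists_sub {n : ℕ} (I : Finset (Fin n)) (i : Fin n) (hi : i ∈ I) (hI : 3 ≤ I.card) :
    ∃ (m : ℕ) (σ : Fin (m + 1) → Fin n) (i0 : Fin (m + 1)), 2 ≤ m ∧ Function.Injective σ ∧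
      σ i0 = i ∧ ∀ k, σ k ∈ I := by
  obtain ⟨m, hm⟩ : ∃ m, I.card = m + 1 := ⟨I.card - 1, by omega⟩
  obtain ⟨i0, hi0⟩ : ∃ i0, I.orderEmbOfFin hm i0 = i := by
    have h : i ∈ Set.range (I.orderEmbOfFin hm) := by
      rw [Finset.range_orderEmbOfFin]
      exact hi
    exact h
  exact ⟨m, I.orderEmbOfFin hm, i0, by omega, (I.orderEmbOfFin hm).injective, hi0,
    fun k => I.orderEmbOfFin_mem hm k⟩

/-- a relation from an entry of a sub-pencil -/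
theorem exists_rel {m n r d : ℕ} {l : Fin n → MvPolynomial (Fin 3) ℝ} {I : Finset (Fin n)}
    {σ : Fin (m + 1) → Fin n} (hσ : Function.Injective σ) (hI : ∀ k, σ k ∈ I) {i : Fin n}
    {i0 : Fin (m + 1)} (hi : σ i0 = i) (s : restrictTotalDegree (Fin 3) ℝ d)
    (hs : s ∈ entry r d (fun k => l (σ k)) i0) :
    ∃ x : Fin n → restrictTotalDegree (Fin 3) ℝ d, Phi r d l x = 0 ∧ (∀ m, m ∉ I → x m = 0) ∧
      x i = s := by
  obtain ⟨k, hk, rfl⟩ := hs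
  refine ⟨K79.ext σ k, ?_, fun p hp => K79.ext_zero _ _ _ fun p' h' => hp (h' ▸ hI p'), ?_⟩
  · rw [K79.Phi_ext]
    exact hk
  · rw [← hi, K79.ext_apply _ hσ]
    rfl

/-- (K3) -/
theorem stK3_79 : StK3 := by
  intro n n' n'' r d l l' l'' i j k a b c I I' I'' h1 h2 h3 hij hik habc hi hj hk hI hI' hI'' hd
    q qa qb
  obtain ⟨m, σ, i0, hm, hσ, hi0, hσI⟩ := exists_sub I i hi hI
  obtain ⟨m', σ', j0, hm', hσ', hj0, hσI'⟩ := exists_sub I' j hj hI'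
  obtain ⟨m'', σ'', k0, hm'', hσ'', hk0, hσI''⟩ := exists_sub I'' k hk hI''
  have g1 := K79.Pencil.sub h1 σ hσ
  have g2 := K79.Pencil.sub h2 σ' hσ'
  have g3 := K79.Pencil.sub h3 σ'' hσ''
  have e12 : l (σ i0) = l' (σ' j0) := by rw [hi0, hj0, hij]
  have e13 : l (σ i0) = l'' (σ'' k0) := by rw [hi0, hk0, hik]
  have hbac : AffineIndependent ℝ ![b, a, c] := by
    have h := habc.comp_embedding (Equiv.swap (0 : Fin 3) 1).toEmbedding
    convert h using 1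
    funext m
    fin_cases m <;> rfl
  have k1 := K79.key (m := m) (m' := m') (r := r) (d := d) (by omega) (by omega) (by omega)
    (fun k => l (σ k)) (fun k => l' (σ' k)) i0 j0 b a c (Tri79.symm g1) g2 e12 hbac q qb
  have k2 := K79.key (m := m) (m' := m'') (r := r) (d := d) (by omega) (by omega) (by omega)
    (fun k => l (σ k)) (fun k => l'' (σ'' k)) i0 k0 a b c g1 g3 e13 habc q qa
  obtain ⟨s1, hs1, t1, ht1, q1⟩ := Submodule.mem_sup.1 k1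
  obtain ⟨s2, hs2, t2, ht2, q2⟩ := Submodule.mem_sup.1 k2
  obtain ⟨s, t, f1, f2, f3, f4⟩ := (Tri79.tri g1 g2 g3 (by omega) (by omega) (by omega) e12 e13
    hbac hd q.1 ((mem_restrictTotalDegree _ _ _).1 q.2)).2
    ⟨s1.1, t1.1, (Tri79.mem_iff _ _ _ _ _).1 hs1, (Tri79.mem_iff _ _ _ _ _).1 ht1, by
      rw [← q1]
      rfl⟩
    ⟨s2.1, t2.1, (Tri79.mem_iff _ _ _ _ _).1 hs2, (Tri79.mem_iff _ _ _ _ _).1 ht2, by
      rw [← q2]
      rfl⟩
  obtain ⟨x, x1, x2, x3⟩ := exists_rel (r := r) (l := l) hσ hσI hi0 ⟨s, f1.mem⟩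
    ((Tri79.mem_iff _ _ _ _ _).2 f1)
  obtain ⟨y, y1, y2, y3⟩ := exists_rel (r := r) (l := l') hσ' hσI' hj0 ⟨t, f2.mem⟩
    ((Tri79.mem_iff _ _ _ _ _).2 f2)
  obtain ⟨z, z1, z2, z3⟩ := exists_rel (r := r) (l := l'') hσ'' hσI'' hk0 ⟨t, f3.mem⟩
    ((Tri79.mem_iff _ _ _ _ _).2 f3)
  refine ⟨x, y, z, x1, y1, z1, x2, y2, z2, ?_, y3.trans z3.symm⟩
  rw [x3, y3]
  exact Subtype.ext f4

end Pool.Agent.Lib.MP_d2a91d_an.K379
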