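import Pool.Agent.Lib.MP_d2a91d_an.Stmts6
import Pool.Agent.Lib.MP_d2a91d_an.Adj2

namespace Pool.Agent.Lib.MP_d2a91d_an

open MvPolynomial

variable {N : ℕ} {K : Finset (Finset (Fin N))} {p : Fin N → Fin 3 → ℝ}
  {cyc : Finset (Fin N) → ℕ → Finset (Fin N)}

theorem PTB_apply (B : Finset (Finset (Fin N))) (r d : ℕ)
    (q : interiorFaces K 3 → restrictTotalDegree (Fin 3) ℝ d)
    (e : B) : PTB K cyc p r d B q e = ∑ i ∈ Finset.range (degree K e.1),
      wq K p r d (cyc e.1 i) (cyc e.1 (i + 1)) q := by
  unfold PTB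
  rw [LinearMap.pi_apply, LinearMap.sum_apply]

theorem PTB_eq_Phi (hcard : ∀ t ∈ K, t.card = 4) (hcyc : Nice K cyc)
    {B : Finset (Finset (Fin N))} (hB : B ⊆ interiorFaces K 2) (r d : ℕ)
    (q : interiorFaces K 3 → restrictTotalDegree (Fin 3) ℝ d) (e : B) :
    PTB K cyc p r d B q e = Phi r d (le K cyc p e.1) (fun i =>
      sg (cyc e.1 i) (cyc e.1 (i + 1)) •
        q ⟨fi cyc e.1 i, fi_mem hcard hcyc (hB e.2) i.2⟩) := by
  have h1 := PT_eq_Phi (p := p) hcard hcyc r d q ⟨e.1, hB e.2⟩
  rw [PTB_apply]
  rw [PT_apply] at h1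
  exact h1

/-- Adding an edge with enough free triangles. -/
theorem rank_insert (hZ1 : StZ1) (hp : WR K p) (hcyc : Nice K cyc)
    {B : Finset (Finset (Fin N))} (hB : B ⊆ interiorFaces K 2) {e : Finset (Fin N)}
    (he : e ∈ interiorFaces K 2) (hd : DistinctAt K p e) (r d : ℕ)
    (T : Finset (Finset (Fin N))) (hT : ∀ f ∈ T, f ∈ faces K 3 ∧ e ⊆ f ∧ ∀ e' ∈ B, ¬ e' ⊆ f)
    (hTc : min (r + 2) (degree K e) ≤ T.card) :
    Module.finrank ℝ (LinearMap.range (PTB K cyc p r d (insert e B))) =
      Module.finrank ℝ (LinearMap.range (PTB K cyc p r d B)) + lam (degree K e) r d := by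
  classical
  have hcard := hp.card
  have hB' : insert e B ⊆ interiorFaces K 2 := Finset.insert_subset he hB
  set F := PTB K cyc p r d (insert e B) with hF
  set G := PTB K cyc p r d B with hG
  let e0 : (insert e B : Finset (Finset (Fin N))) := ⟨e, Finset.mem_insert_self e B⟩
  let L : (interiorFaces K 3 → restrictTotalDegree (Fin 3) ℝ d) →ₗ[ℝ]
    MvPolynomial (Fin 3) ℝ := LinearMap.proj e0 ∘ₗ F
  have hL : ∀ q, L q = F q e0 := fun q => rfl
  have hLPhi : ∀ q, L q = Phi r d (le K cyc p e) (fun i =>
      sg (cyc e i) (cyc e (i + 1)) • q ⟨fi cyc e i, fi_mem hcard hcyc he i.2⟩) := fun q =>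
    PTB_eq_Phi hcard hcyc hB' r d q e0
  have hGF : ∀ q (b : B), G q b = F q ⟨b.1, Finset.mem_insert_of_mem b.2⟩ := fun q b => by
    rw [hG, hF, PTB_apply, PTB_apply]
  have hker : LinearMap.ker L ⊓ LinearMap.ker G = LinearMap.ker F := by
    ext q
    rw [Submodule.mem_inf, LinearMap.mem_ker, LinearMap.mem_ker, LinearMap.mem_ker]
    constructor
    · rintro ⟨h1, h2⟩
      funext b
      rcases Finset.mem_insert.mp b.2 with hb | hb
      · have : b = e0 := Subtype.ext hb
        rw [this]
        exact h1
      · have h3 := congrFun h2 ⟨b.1, hb⟩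
        rw [hGF] at h3
        exact h3
    · intro h
      refine ⟨by rw [hL, h]; rfl, ?_⟩
      funext b
      rw [hGF, h]
      rfl
  have hmap : (LinearMap.ker G).map L = LinearMap.range (Phi r d (le K cyc p e)) := by
    apply le_antisymm
    · rintro _ ⟨q, -, rfl⟩
      rw [hLPhi]
      exact LinearMap.mem_range_self _ _
    · rintro _ ⟨x, rfl⟩
      -- the indices of the free triangles
      let I : Finset (Fin (degree K e)) := Finset.univ.filter (fun i => fi cyc e i ∈ T)
      have hI : T.card ≤ I.card := by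
        refine Finset.card_le_card_of_surjOn (fun i => fi cyc e i) ?_
        intro f hf
        rw [Finset.mem_coe] at hf
        obtain ⟨i, hi, hfi⟩ := fi_surj hcard hcyc he (hT f hf).1 (hT f hf).2.1
        refine ⟨⟨i, hi⟩, ?_, hfi⟩
        rw [Finset.mem_coe]
        refine Finset.mem_filter.mpr ⟨Finset.mem_univ _, ?_⟩
        change fi cyc e i ∈ T
        rw [hfi]
        exact hf
      obtain ⟨u, hu, v, hv, huv⟩ := exists_ends_w hp he
      obtain ⟨y, hy, hyx⟩ := hZ1 _ r d (le K cyc p e) (p u) (p v) huv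
        (pencil_w hp hcyc he hd hu hv) I (hTc.trans hI) x
      let q : interiorFaces K 3 → restrictTotalDegree (Fin 3) ℝ d := fun f =>
        if h : ∃ i : Fin (degree K e), fi cyc e i = f.1 then
          ss cyc e h.choose • y h.choose
        else 0
      have hq : ∀ i : Fin (degree K e), q ⟨fi cyc e i, fi_mem hcard hcyc he i.2⟩ =
          ss cyc e i • y i := by
        intro i
        have h : ∃ j : Fin (degree K e), fi cyc e j = fi cyc e i := ⟨i, rfl⟩
        have h1 : q ⟨fi cyc e i, fi_mem hcard hcyc he i.2⟩ =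
          ss cyc e h.choose • y h.choose := dif_pos h
        have h2 : h.choose = i := Fin.ext (fi_inj hcard hcyc he h.choose.2 i.2 h.choose_spec)
        rw [h1, h2]
      -- outside the free triangles the datum vanishes
      have hq0 : ∀ f : interiorFaces K 3, f.1 ∉ T → q f = 0 := by
        intro f hf
        by_cases h : ∃ i : Fin (degree K e), fi cyc e i = f.1
        · have h1 : q f = ss cyc e h.choose • y h.choose := dif_pos h
          have h2 : h.choose ∉ I := by
            intro hc
            apply hf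
            have := (Finset.mem_filter.mp hc).2
            rw [← h.choose_spec]
            exact this
          rw [h1, hy _ h2, smul_zero]
        · exact dif_neg h
      refine ⟨q, ?_, ?_⟩
      · rw [SetLike.mem_coe, LinearMap.mem_ker]
        funext b
        rw [hG, PTB_eq_Phi hcard hcyc hB]
        have : (fun i : Fin (degree K b.1) => sg (cyc b.1 i) (cyc b.1 (i + 1)) •
            q ⟨fi cyc b.1 i, fi_mem hcard hcyc (hB b.2) i.2⟩) = 0 := by
          funext i
          rw [hq0 _ (fun hc => (hT _ hc).2.2 b.1 b.2 (sub_fi hcyc (hB b.2) i.2)), smul_zero]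
          rfl
        rw [this, map_zero]
        rfl
      · rw [hLPhi, ← hyx]
        congr 1
        funext i
        rw [hq i]
        change ss cyc e i • (ss cyc e i • y i) = y i
        rw [smul_smul, ss_mul hcard hcyc ⟨e, he⟩ i, one_smul]
  have a1 := H79.rank_restrict L (LinearMap.ker G)
  rw [hmap, hker] at a1
  have a2 := LinearMap.finrank_range_add_finrank_ker F
  have a3 := LinearMap.finrank_range_add_finrank_ker G
  obtain ⟨u, hu, v, hv, huv⟩ := exists_ends_w hp he
  have hpen := pencil_w hp hcyc he hd hu hv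
  have a4 := H79.L3 _ r d _ (p u) (p v) huv hpen.deg hpen.van hpen.dist hpen.ne
  omega

/-- Peeling: the rank at all interior edges. -/
theorem rank_peel (hZ1 : StZ1) (hp : WR K p) (hcyc : Nice K cyc)
    (hdist : ∀ e ∈ interiorFaces K 2, DistinctAt K p e)
    {A : Finset (Finset (Fin N))} (hA : A ⊆ interiorFaces K 2) (lv : Finset (Fin N) → ℕ)
    (r d : ℕ)
    (hfree : ∀ e ∈ interiorFaces K 2, e ∉ A → min (r + 2) (degree K e) ≤
      ((faces K 3).filter (fun f => e ⊆ f ∧ ∀ e' ∈ interiorFaces K 2, e' ⊆ f → e' = e ∨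
        (e' ∉ A ∧ lv e' < lv e))).card) :
    Module.finrank ℝ (LinearMap.range (PT K cyc p r d)) =
      Module.finrank ℝ (LinearMap.range (PTB K cyc p r d A)) +
        ∑ e ∈ interiorFaces K 2 \ A, lam (degree K e) r d := by
  classical
  have key : ∀ s : Finset (Finset (Fin N)), s ⊆ interiorFaces K 2 \ A →
      Module.finrank ℝ (LinearMap.range (PTB K cyc p r d (s ∪ A))) =
        Module.finrank ℝ (LinearMap.range (PTB K cyc p r d A)) +
          ∑ e ∈ s, lam (degree K e) r d := by
    intro s
    induction s using Finset.induction_on_min_value lv with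
    | empty =>
      intro _
      rw [Finset.empty_union, Finset.sum_empty, add_zero]
    | insert a s ha hmin ih =>
      intro hs
      have ha' := hs (Finset.mem_insert_self a s)
      rw [Finset.mem_sdiff] at ha'
      have hs' : s ⊆ interiorFaces K 2 \ A := fun x hx => hs (Finset.mem_insert_of_mem hx)
      rw [Finset.insert_union, Finset.sum_insert ha]
      rw [rank_insert hZ1 hp hcyc (B := s ∪ A) ?_ ha'.1 (hdist a ha'.1) r d
        ((faces K 3).filter (fun f => a ⊆ f ∧ ∀ e' ∈ interiorFaces K 2, e' ⊆ f → e' = a ∨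
          (e' ∉ A ∧ lv e' < lv a))) ?_ (hfree a ha'.1 ha'.2), ih hs']
      · ring
      · intro x hx
        rcases Finset.mem_union.mp hx with h | h
        · exact (Finset.mem_sdiff.mp (hs' h)).1
        · exact hA h
      · intro f hf
        obtain ⟨hf3, haf, hall⟩ := Finset.mem_filter.mp hf
        refine ⟨hf3, haf, fun e' he' hef => ?_⟩
        rcases Finset.mem_union.mp he' with h | h
        · rcases hall e' (Finset.mem_sdiff.mp (hs' h)).1 hef with h1 | h1
          · exact ha (h1 ▸ h)
          · exact absurd (hmin e' h) (not_le.mpr h1.2)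
        · rcases hall e' (hA h) hef with h1 | h1
          · exact ha'.2 (h1 ▸ h)
          · exact h1.1 h
  have := key (interiorFaces K 2 \ A) (Finset.Subset.refl _)
  rw [Finset.sdiff_union_of_subset hA] at this
  exact this

end Pool.Agent.Lib.MP_d2a91d_an
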