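import Pool.Agent.Lib.MP_d2a91d_an.Stmts10
import Pool.Agent.Lib.MP_d2a91d_an.Peel

namespace Pool.Agent.Lib.MP_d2a91d_an

open MvPolynomial

variable {N : ℕ} {K : Finset (Finset (Fin N))} {p : Fin N → Fin 3 → ℝ}
  {cyc : Finset (Fin N) → ℕ → Finset (Fin N)}

/-- Peeling: the rank at all interior edges. -/
theorem rank_peel_in (hZ1 : StZ1) (hp : WR K p) (hcyc : Nice K cyc)
    {S : Finset (Finset (Fin N))} (hS : S ⊆ interiorFaces K 2)
    (hdist : ∀ e ∈ S, DistinctAt K p e)
    {A : Finset (Finset (Fin N))} (hA : A ⊆ S) (lv : Finset (Fin N) → ℕ)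
    (r d : ℕ)
    (hfree : ∀ e ∈ S, e ∉ A → min (r + 2) (degree K e) ≤
      ((faces K 3).filter (fun f => e ⊆ f ∧ ∀ e' ∈ S, e' ⊆ f → e' = e ∨
        (e' ∉ A ∧ lv e' < lv e))).card) :
    Module.finrank ℝ (LinearMap.range (PTB K cyc p r d S)) =
      Module.finrank ℝ (LinearMap.range (PTB K cyc p r d A)) +
        ∑ e ∈ S \ A, lam (degree K e) r d := by
  classical
  have key : ∀ s : Finset (Finset (Fin N)), s ⊆ S \ A →
      Module.finrank ℝ (LinearMap.range (PTB K cyc p r d (s ∪ A))) =
        Module.finrank ℝ (LinearMap.range (PTB K cyc p r d A)) +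
          ∑ e ∈ s, lam (degree K e) r d := by
    intro s
    induction s using Finset.induction_on_min_value lv with
    | empty =>
      intro _
      rw [Finset.empty_union, Finset.sum_empty, add_zero]
    | insert a s ha hmin ih =>
      intro hs
      have ha' := hs (Finset.mem_insert_self a s)
      rw [Finset.mem_sdiff] at ha'
      have hs' : s ⊆ S \ A := fun x hx => hs (Finset.mem_insert_of_mem hx)
      rw [Finset.insert_union, Finset.sum_insert ha]
      rw [rank_insert hZ1 hp hcyc (B := s ∪ A) ?_ (hS ha'.1) (hdist a ha'.1) r d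
        ((faces K 3).filter (fun f => a ⊆ f ∧ ∀ e' ∈ S, e' ⊆ f → e' = a ∨
          (e' ∉ A ∧ lv e' < lv a))) ?_ (hfree a ha'.1 ha'.2), ih hs']
      · ring
      · intro x hx
        rcases Finset.mem_union.mp hx with h | h
        · exact hS (Finset.mem_sdiff.mp (hs' h)).1
        · exact hS (hA h)
      · intro f hf
        obtain ⟨hf3, haf, hall⟩ := Finset.mem_filter.mp hf
        refine ⟨hf3, haf, fun e' he' hef => ?_⟩
        rcases Finset.mem_union.mp he' with h | h
        · rcases hall e' (Finset.mem_sdiff.mp (hs' h)).1 hef with h1 | h1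
          · exact ha (h1 ▸ h)
          · exact absurd (hmin e' h) (not_le.mpr h1.2)
        · rcases hall e' (hA h) hef with h1 | h1
          · exact ha'.2 (h1 ▸ h)
          · exact h1.1 h
  have := key (S \ A) (Finset.Subset.refl _)
  rw [Finset.sdiff_union_of_subset hA] at this
  exact this

theorem stLP_95 (hZ1 : StZ1) : StLP := fun _ _ _ _ r d _ _ lv hp hcyc hS hC hdist hfree =>
  rank_peel_in hZ1 hp hcyc hS hdist hC lv r d hfree

end Pool.Agent.Lib.MP_d2a91d_an
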