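import Pool.Agent.Lib.MP_d2a91d_an.Stmts2
import Pool.Agent.Lib.MP_d2a91d_an.Block79
import Pool.Agent.Lib.MP_d2a91d_an.R4_79

/-!
Rows L0 - L4 of MP_d2a91d (helper79).
-/

set_option autoImplicit false

namespace Pool.Agent.Lib.MP_d2a91d_an.H79

open MvPolynomial

/-- Row L1. -/
theorem L1 : StL1 := by
  intro n r d l a b hab hl hv
  obtain ⟨A, hA, u, w, huw⟩ := exists_lin l hab hl hv
  rw [finrank_affE r d l a A hA, funext huw, finrank_Phi]
  unfold lam
  refine Finset.sum_le_sum fun m _ => Nat.mul_le_mul_left _ ?_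
  exact finrank_phi_le (r + 1) u w m

theorem lin_smul (c a b : ℝ) : c • lin a b = lin (c * a) (c * b) := by
  unfold lin
  rw [smul_add, smul_eq_C_mul, smul_eq_C_mul, C_mul, C_mul, mul_assoc, mul_assoc]

theorem lin_inj {a b a' b' : ℝ} (h : lin a b = lin a' b') : a = a' ∧ b = b' := by
  have h0 := congrArg (eval (Pi.single 0 1)) h
  have h1 := congrArg (eval (Pi.single 1 1)) h
  simp [lin] at h0 h1
  exact ⟨h0, h1⟩

/-- Row L2. -/
theorem L2 : StL2 := by
  intro n r d l a b hab hl hv hn ⟨i, j, hij, c, c', hc, h⟩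
  obtain ⟨A, hA, u, w, huw⟩ := exists_lin l hab hl hv
  have h1 : lin (c * u i) (c * w i) = lin (c' * u j) (c' * w j) := by
    rw [← lin_smul, ← lin_smul, ← huw i, ← huw j, ← map_smul, ← map_smul, h]
  obtain ⟨h2, h3⟩ := lin_inj h1
  rw [finrank_affE r d l a A hA, funext huw, finrank_Phi]
  unfold lam
  refine Finset.sum_lt_sum (fun m _ => Nat.mul_le_mul_left _ ?_) ⟨0, by simp, ?_⟩
  · exact finrank_phi_le (r + 1) u w m
  · refine Nat.mul_lt_mul_of_pos_left ?_ (by omega)
    refine lt_of_lt_of_le (finrank_phi_zero_lt (r + 1) u w hij hc h2 h3) ?_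
    refine le_min (by omega) (by omega)

/-- A shear makes all first coefficients nonzero. -/
theorem exists_shear {n : ℕ} (u w : Fin n → ℝ) (h : ∀ i, u i ≠ 0 ∨ w i ≠ 0) :
    ∃ κ : ℝ, ∀ i, u i + κ * w i ≠ 0 := by
  obtain ⟨κ, hκ⟩ := Infinite.exists_notMem_finset (Finset.univ.image fun i => -(u i) / w i)
  refine ⟨κ, fun i hi => ?_⟩
  by_cases hw : w i = 0
  · rw [hw, mul_zero, add_zero] at hi
    rcases h i with h1 | h1
    · exact h1 hi
    · exact h1 hw
  · apply hκ
    rw [Finset.mem_image]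
    refine ⟨i, Finset.mem_univ _, ?_⟩
    rw [div_eq_iff hw]
    linarith

/-- Normal form of distinct planes through a line. -/
theorem exists_lin' {n : ℕ} (l : Fin n → MvPolynomial (Fin 3) ℝ) {a b : Fin 3 → ℝ} (hab : a ≠ b)
    (hl : ∀ i, (l i).totalDegree ≤ 1) (hv : ∀ i, eval a (l i) = 0 ∧ eval b (l i) = 0)
    (hne : ¬ ∃ i j : Fin n, i ≠ j ∧ ∃ c c' : ℝ, c ≠ 0 ∧ c • l i = c' • l j)
    (h0 : ∀ i, l i ≠ 0) :
    ∃ (o : Fin 3 → ℝ) (A : Matrix (Fin 3) (Fin 3) ℝ) (hA : IsUnit A.det) (α β : Fin n → ℝ),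
      (∀ i, affE o A hA (l i) = lin (α i) (β i)) ∧ (∀ i, α i ≠ 0) ∧
      Function.Injective fun i => -(β i) / α i := by
  obtain ⟨A, hA, u, w, huw⟩ := exists_lin l hab hl hv
  have huw0 : ∀ i, u i ≠ 0 ∨ w i ≠ 0 := by
    intro i
    by_contra hcon
    push Not at hcon
    have h1 := huw i
    rw [hcon.1, hcon.2] at h1
    unfold lin at h1
    rw [C_0, zero_mul, zero_mul, add_zero] at h1
    exact h0 i ((EmbeddingLike.map_eq_zero_iff (f := affE a A hA)).1 h1)
  obtain ⟨κ, hκ⟩ := exists_shear u w huw0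
  have hB : IsUnit (!![1, 0, 0; κ, 1, 0; 0, 0, 1] : Matrix (Fin 3) (Fin 3) ℝ).det := by
    rw [Matrix.det_fin_three]
    simp
  have hAB : IsUnit (A * !![1, 0, 0; κ, 1, 0; 0, 0, 1]).det := by
    rw [Matrix.det_mul]
    exact hA.mul hB
  have key : ∀ i, affE (a + A.mulVec 0) (A * !![1, 0, 0; κ, 1, 0; 0, 0, 1]) hAB (l i) =
      lin (u i + κ * w i) (w i) := by
    intro i
    rw [affE_apply, ← aff_comp]
    have h1 : aff a A (l i) = lin (u i) (w i) := huw i
    rw [h1]
    refine MvPolynomial.funext fun x => ?_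
    rw [eval_aff]
    simp [lin, dotProduct, Fin.sum_univ_three]
    ring
  refine ⟨_, _, hAB, fun i => u i + κ * w i, w, key, hκ, ?_⟩
  intro i j hij
  by_contra hne'
  apply hne
  refine ⟨i, j, hne', u j + κ * w j, u i + κ * w i, hκ j, ?_⟩
  have h2 : -(w i) * (u j + κ * w j) = -(w j) * (u i + κ * w i) := by
    have h3 : -(w i) / (u i + κ * w i) = -(w j) / (u j + κ * w j) := hij
    rwa [div_eq_div_iff (hκ i) (hκ j)] at h3
  apply (affE (a + A.mulVec 0) (A * !![1, 0, 0; κ, 1, 0; 0, 0, 1]) hAB).injective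
  rw [map_smul, map_smul, key, key, lin_smul, lin_smul]
  congr 1
  · ring
  · linarith

/-- Row L3. -/
theorem L3 : StL3 := by
  intro n r d l a b hab hl hv hne h0
  obtain ⟨o, A, hA, α, β, hαβ, hα, hp⟩ := exists_lin' l hab hl hv hne h0
  rw [finrank_affE r d l o A hA, funext hαβ, finrank_Phi]
  unfold lam
  refine Finset.sum_congr rfl fun m _ => ?_
  have hm : m + (r + 1) + 1 = m + r + 2 := by omega
  rw [finrank_phi_eq (r + 1) α β hα hp m, hm]

/-- Row L4. -/
theorem L4 : StL4 := by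
  intro n r l a b hab hl hv hn hne h0 c hc
  obtain ⟨o, A, hA, α, β, hαβ, hα, hp⟩ := exists_lin' l hab hl hv hne h0
  have h1 := congrArg (affE o A hA) hc
  rw [map_sum, map_zero] at h1
  have hCc : ∀ z : ℝ, affE o A hA (C z) = C z := by
    intro z
    rw [affE_apply]
    unfold aff
    rw [aeval_C]
    rfl
  have h2 := congrArg (comp (0 + (r + 1)) 0) h1
  rw [map_sum, map_zero] at h2
  have h3 : ∀ z : ℝ, comp 0 0 (C z) = Polynomial.C z := by
    intro z
    change comp 0 0 (monomial 0 z) = _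
    rw [comp_monomial, if_pos (by simp)]
    simp
  have h4 := inj_one hp (m := 0) (s := r + 1) (by omega)
    (fun i => Polynomial.C (α i ^ (r + 1)) * Polynomial.C (c i)) (fun i => by
      rw [← Polynomial.C_mul, Polynomial.natDegree_C]) (by
      rw [← h2]
      refine Finset.sum_congr rfl fun i _ => ?_
      rw [map_mul (affE o A hA), map_pow (affE o A hA), hCc, hαβ, mul_comm (C (c i)), comp_mul, h3]
      have h5 : (Polynomial.C (α i) * Polynomial.X + Polynomial.C (β i) : Polynomial ℝ) =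
          Polynomial.C (α i) * (Polynomial.X - Polynomial.C (-(β i) / α i)) := by
        rw [mul_sub, ← Polynomial.C_mul, mul_div_cancel₀ _ (hα i), Polynomial.C_neg,
          sub_neg_eq_add]
      rw [h5, mul_pow, Polynomial.C_pow]
      ring)
  intro i
  have h6 := (mul_eq_zero.1 (h4 i)).resolve_left
    (Polynomial.C_ne_zero.2 (pow_ne_zero _ (hα i)))
  exact Polynomial.C_eq_zero.1 h6

/-- Row L0. -/
theorem L0 : StL0 := by
  intro d
  -- multiplication by `X 0`
  let l : Fin 1 → MvPolynomial (Fin 3) ℝ := fun _ => lin 1 0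
  have h1 := finrank_Phi 0 d (n := 1) (fun _ => 1) (fun _ => 0)
  have hα : ∀ i : Fin 1, (fun _ => (1 : ℝ)) i ≠ 0 := fun i => one_ne_zero
  have hp : Function.Injective fun i : Fin 1 => -((fun _ => (0 : ℝ)) i) / (fun _ => (1 : ℝ)) i :=
    fun i j _ => Subsingleton.elim i j
  have hinj : Function.Injective (Phi 0 d (fun _ : Fin 1 => lin 1 0)) := by
    rw [injective_iff_map_eq_zero]
    intro q hq
    rw [Phi_apply, Fin.sum_univ_one] at hq
    funext i
    rw [Subsingleton.elim i 0]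
    apply Subtype.ext
    refine (mul_eq_zero.1 hq).resolve_left (pow_ne_zero _ ?_)
    intro h2
    have h3 := congrArg (eval (Pi.single 0 1)) h2
    simp [lin] at h3
  rw [LinearMap.finrank_range_of_inj hinj, Module.finrank_pi_fintype, Fin.sum_univ_one] at h1
  rw [h1]
  have h2 : ∀ m, (d - m + 1) * Module.finrank ℝ (LinearMap.range
      (phi (0 + 1) (fun _ : Fin 1 => (1 : ℝ)) (fun _ => 0) m)) = (d - m + 1) * (m + 1) := by
    intro m
    rw [finrank_phi_eq (0 + 1) (fun _ : Fin 1 => (1 : ℝ)) (fun _ => 0) hα hp m]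
    congr 1
    omega
  rw [Finset.sum_congr rfl fun m _ => h2 m]
  clear h2 hinj hp hα h1 l
  induction d with
  | zero => simp
  | succ d ih =>
    rw [Finset.sum_range_succ]
    have h3 : ∑ m ∈ Finset.range (d + 1), (d + 1 - m + 1) * (m + 1) =
        ∑ m ∈ Finset.range (d + 1), (d - m + 1) * (m + 1) +
          ∑ m ∈ Finset.range (d + 1), (m + 1) := by
      rw [← Finset.sum_add_distrib]
      refine Finset.sum_congr rfl fun m hm => ?_
      rw [Finset.mem_range] at hm
      have : d + 1 - m = d - m + 1 := by omega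
      rw [this]
      ring
    rw [h3, ih]
    have h4 : ∀ k : ℕ, ∑ m ∈ Finset.range k, (m + 1) = (k + 1).choose 2 := by
      intro k
      induction k with
      | zero => rfl
      | succ k ihk =>
        rw [Finset.sum_range_succ, ihk, Nat.choose_succ_succ' (k + 1) 1, Nat.choose_one_right]
        ring
    rw [h4]
    have h5 : (d + 1 + 3).choose 3 = (d + 3).choose 2 + (d + 3).choose 3 := by
      rw [show d + 1 + 3 = (d + 3) + 1 by ring, Nat.choose_succ_succ' (d + 3) 2]
    have h6 : (d + 3).choose 2 = (d + 2).choose 1 + (d + 2).choose 2 := by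
      rw [show d + 3 = (d + 2) + 1 by ring, Nat.choose_succ_succ' (d + 2) 1]
    rw [h5, h6, Nat.choose_one_right]
    have h7 : d + 1 + 1 = d + 2 := rfl
    rw [h7]
    have h8 : d + 1 - (d + 1) = 0 := Nat.sub_self _
    rw [h8]
    ring

end Pool.Agent.Lib.MP_d2a91d_an.H79
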