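import Pool.Agent.Lib.MP_d2a91d_an.Stmts10
import Pool.Agent.Lib.MP_d2a91d_an.Chain4

namespace Pool.Agent.Lib.MP_d2a91d_an.Loc

open MvPolynomial

variable {N : ℕ} {K A : Finset (Finset (Fin N))} {p : Fin N → Fin 3 → ℝ}
  {cyc : Finset (Fin N) → ℕ → Finset (Fin N)} {r d : ℕ}

/-- The triangles at `e` without another edge of `A`. -/
def free (K A : Finset (Finset (Fin N))) (e : Finset (Fin N)) : Finset (Finset (Fin N)) :=
  (faces K 3).filter (fun f => e ⊆ f ∧ ∀ e' ∈ A, e' ⊆ f → e' = e)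

/-- Enough free triangles. -/
structure FF (K A : Finset (Finset (Fin N))) : Prop where
  one : ∀ e ∈ A, 1 ≤ (free K A e).card
  three : ∀ e ∈ A, ∀ e' ∈ partnersIn K A e, 3 ≤ (free K A e).card + (free K A e').card
  two : ∀ f ∈ faces K 3, 3 ≤ (A.filter (fun e => e ⊆ f)).card → ∀ e ∈ A, e ⊆ f →
    2 ≤ (free K A e).card

theorem FF.mono (h : FF K A) {B : Finset (Finset (Fin N))} (hB : B ⊆ A) : FF K B := by
  have hf : ∀ e, free K A e ⊆ free K B e := by
    intro e f hf
    obtain ⟨h1, h2, h3⟩ := Finset.mem_filter.mp hf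
    exact Finset.mem_filter.mpr ⟨h1, h2, fun e' he' => h3 e' (hB he')⟩
  have hp : ∀ e, partnersIn K B e ⊆ partnersIn K A e := fun e =>
    Finset.filter_subset_filter _ hB
  refine ⟨fun e he => (h.one e (hB he)).trans (Finset.card_le_card (hf e)), ?_, ?_⟩
  · intro e he e' he'
    have h1 := h.three e (hB he) e' (hp e he')
    have h2 := Finset.card_le_card (hf e)
    have h3 := Finset.card_le_card (hf e')
    omega
  · intro f hf' hc e he hef
    exact (h.two f hf' (hc.trans (Finset.card_le_card (Finset.filter_subset_filter _ hB))) e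
      (hB he) hef).trans (Finset.card_le_card (hf e))

/-- The value at one pair. -/
noncomputable def val (ψ : Module.Dual ℝ (Z2_42.VA K A d)) (e : A) (i : Fin (degree K e.1)) :
    restrictTotalDegree (Fin 3) ℝ d →ₗ[ℝ] ℝ :=
  ψ ∘ₗ LinearMap.single ℝ (fun e : A => Fin (degree K e.1) →
    restrictTotalDegree (Fin 3) ℝ d) e ∘ₗ
    LinearMap.single ℝ (fun _ : Fin (degree K e.1) => restrictTotalDegree (Fin 3) ℝ d) i

theorem val_apply (ψ : Module.Dual ℝ (Z2_42.VA K A d)) (e : A) (i : Fin (degree K e.1))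
    (q : restrictTotalDegree (Fin 3) ℝ d) : val ψ e i q = ψ (Pi.single e (Pi.single i q)) := rfl

theorem eq_sum (ψ : Module.Dual ℝ (Z2_42.VA K A d)) (w : Z2_42.VA K A d) :
    ψ w = ∑ e, ∑ i, val ψ e i (w e i) := by
  classical
  conv_lhs => rw [← Finset.univ_sum_single w, map_sum]
  refine Finset.sum_congr rfl fun e _ => ?_
  conv_lhs => rw [← Finset.univ_sum_single (w e)]
  have : (Pi.single e (∑ i, Pi.single i (w e i)) : Z2_42.VA K A d) =
      ∑ i, Pi.single e (Pi.single i (w e i)) :=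
    map_sum (LinearMap.single ℝ (fun e : A => Fin (degree K e.1) →
      restrictTotalDegree (Fin 3) ℝ d) e) _ _
  rw [this, map_sum]
  rfl

/-- (V2) Relations are killed. -/
theorem rel_zero {ψ : Module.Dual ℝ (Z2_42.VA K A d)} (hψ : ψ ∈ BB K A cyc p r d) (e : A)
    (k : Fin (degree K e.1) → restrictTotalDegree (Fin 3) ℝ d)
    (hk : Phi r d (le K cyc p e.1) k = 0) : ∑ i, val ψ e i (k i) = 0 := by
  classical
  unfold BB at hψ
  rw [Submodule.mem_dualAnnihilator] at hψ
  have h1 : (Pi.single e k : Z2_42.VA K A d) ∈ LinearMap.ker (Z2_42.PhiAll K A cyc p r d) := by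
    rw [LinearMap.mem_ker]
    funext e'
    rw [Z2_42.PhiAll_apply]
    by_cases he : e' = e
    · subst he
      rw [Pi.single_eq_same, hk]
      rfl
    · rw [Pi.single_eq_of_ne he, map_zero]
      rfl
  have h2 := hψ _ (Submodule.mem_sup_right h1)
  rw [eq_sum, Finset.sum_eq_single e] at h2
  · rw [Pi.single_eq_same] at h2
    exact h2
  · intro e' _ he'
    rw [Pi.single_eq_of_ne he']
    exact Finset.sum_eq_zero fun i _ => map_zero _
  · exact fun h => absurd (Finset.mem_univ _) h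

/-- The value at a triangle. -/
noncomputable def W (ψ : Module.Dual ℝ (Z2_42.VA K A d))
    (cyc : Finset (Fin N) → ℕ → Finset (Fin N)) (f : Finset (Fin N)) (e : A)
    (z : restrictTotalDegree (Fin 3) ℝ d) : ℝ :=
  ∑ i : Fin (degree K e.1), if fi cyc e.1 i = f then ss cyc e.1 i * val ψ e i z else 0

theorem W_eq (hA : A ⊆ interiorFaces K 2) (hcard : ∀ t ∈ K, t.card = 4) (hcyc : Nice K cyc)
    (ψ : Module.Dual ℝ (Z2_42.VA K A d)) {f : Finset (Fin N)} {e : A}
    {i : Fin (degree K e.1)} (hi : fi cyc e.1 i = f) (z : restrictTotalDegree (Fin 3) ℝ d) :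
    W ψ cyc f e z = ss cyc e.1 i * val ψ e i z := by
  unfold W
  rw [Finset.sum_eq_single i]
  · rw [if_pos hi]
  · intro j _ hj
    rw [if_neg]
    intro h
    exact hj (Fin.ext (fi_inj hcard hcyc (hA e.2) j.2 i.2 (h.trans hi.symm)))
  · exact fun h => absurd (Finset.mem_univ _) h

theorem W_zero (hA : A ⊆ interiorFaces K 2) (hcyc : Nice K cyc)
    (ψ : Module.Dual ℝ (Z2_42.VA K A d)) {f : Finset (Fin N)} {e : A} (he : ¬ e.1 ⊆ f)
    (z : restrictTotalDegree (Fin 3) ℝ d) : W ψ cyc f e z = 0 := by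
  unfold W
  refine Finset.sum_eq_zero fun i _ => ?_
  rw [if_neg]
  rintro rfl
  exact he (sub_fi hcyc (hA e.2) i.2)

/-- (V3) The values at a triangle sum to zero. -/
theorem sum_W {ψ : Module.Dual ℝ (Z2_42.VA K A d)} (hψ : ψ ∈ BB K A cyc p r d)
    {f : Finset (Fin N)} (hf : f ∈ interiorFaces K 3) (z : restrictTotalDegree (Fin 3) ℝ d) :
    ∑ e : A, W ψ cyc f e z = 0 := by
  classical
  unfold BB at hψ
  rw [Submodule.mem_dualAnnihilator] at hψ
  have h2 := hψ _ (Submodule.mem_sup_left (LinearMap.mem_range_self (GG K A cyc d)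
    (Pi.single ⟨f, hf⟩ z)))
  rw [eq_sum] at h2
  rw [← h2]
  refine Finset.sum_congr rfl fun e _ => ?_
  unfold W
  refine Finset.sum_congr rfl fun i _ => ?_
  have h3 : GG K A cyc d (Pi.single ⟨f, hf⟩ z) e i = ss cyc e.1 i •
      (if fi cyc e.1 i = f then z else 0) := by
    unfold GG
    rw [LinearMap.pi_apply, LinearMap.pi_apply, LinearMap.smul_apply]
    congr 1
    by_cases h : fi cyc e.1 i ∈ interiorFaces K 3
    · rw [dif_pos h, LinearMap.proj_apply]
      by_cases h' : fi cyc e.1 i = f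
      · rw [if_pos h']
        have : (⟨fi cyc e.1 i, h⟩ : interiorFaces K 3) = ⟨f, hf⟩ := Subtype.ext h'
        rw [this, Pi.single_eq_same]
      · rw [if_neg h', Pi.single_eq_of_ne]
        intro h''
        exact h' (congrArg Subtype.val h'')
    · rw [dif_neg h, LinearMap.zero_apply, if_neg]
      rintro rfl
      exact h hf
  rw [h3]
  split_ifs with h
  · rw [map_smul, smul_eq_mul]
  · rw [smul_zero, map_zero]

theorem ss_ne (hA : A ⊆ interiorFaces K 2) (hcard : ∀ t ∈ K, t.card = 4) (hcyc : Nice K cyc)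
    (e : A) (i : Fin (degree K e.1)) : ss cyc e.1 i ≠ 0 := by
  intro h
  have := Z2_42.ss_mul hA hcard hcyc e i
  rw [h, mul_zero] at this
  exact zero_ne_one this

/-- (V3a) A free triangle. -/
theorem val_free (hA : A ⊆ interiorFaces K 2) (hcard : ∀ t ∈ K, t.card = 4) (hcyc : Nice K cyc)
    {ψ : Module.Dual ℝ (Z2_42.VA K A d)} (hψ : ψ ∈ BB K A cyc p r d) (e : A)
    (i : Fin (degree K e.1)) (h : ∀ e' ∈ A, e' ⊆ fi cyc e.1 i → e' = e.1)
    (z : restrictTotalDegree (Fin 3) ℝ d) : val ψ e i z = 0 := by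
  have h1 := sum_W hψ (fi_mem hcard hcyc (hA e.2) i.2) z
  rw [Finset.sum_eq_single e] at h1
  · rw [W_eq hA hcard hcyc ψ (i := i) rfl] at h1
    exact (mul_eq_zero.mp h1).resolve_left (ss_ne hA hcard hcyc e i)
  · intro e' _ he'
    exact W_zero hA hcyc ψ (fun hc => he' (Subtype.ext (h e'.1 e'.2 hc))) z
  · exact fun h => absurd (Finset.mem_univ _) h

/-- (V3b) A triangle with two edges of `A`. -/
theorem val_two (hA : A ⊆ interiorFaces K 2) (hcard : ∀ t ∈ K, t.card = 4) (hcyc : Nice K cyc)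
    {ψ : Module.Dual ℝ (Z2_42.VA K A d)} (hψ : ψ ∈ BB K A cyc p r d) (e e' : A)
    (hne : e ≠ e') (i : Fin (degree K e.1)) (j : Fin (degree K e'.1))
    (hij : fi cyc e.1 i = fi cyc e'.1 j)
    (h : ∀ e'' ∈ A, e'' ⊆ fi cyc e.1 i → e'' = e.1 ∨ e'' = e'.1)
    (z : restrictTotalDegree (Fin 3) ℝ d) :
    ss cyc e.1 i * val ψ e i z + ss cyc e'.1 j * val ψ e' j z = 0 := by
  have h1 := sum_W hψ (fi_mem hcard hcyc (hA e.2) i.2) z
  rw [Fintype.sum_eq_add e e' hne] at h1
  · rw [W_eq hA hcard hcyc ψ (i := i) rfl, W_eq hA hcard hcyc ψ (i := j) hij.symm] at h1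
    exact h1
  · rintro e'' ⟨h2, h3⟩
    refine W_zero hA hcyc ψ (fun hc => ?_) z
    rcases h e''.1 e''.2 hc with h4 | h4
    · exact h2 (Subtype.ext h4)
    · exact h3 (Subtype.ext h4)

/-- (V3c) A triangle with three edges of `A`. -/
theorem val_three (hA : A ⊆ interiorFaces K 2) (hcard : ∀ t ∈ K, t.card = 4)
    (hcyc : Nice K cyc)
    {ψ : Module.Dual ℝ (Z2_42.VA K A d)} (hψ : ψ ∈ BB K A cyc p r d) (e e' e'' : A)
    (hne : e ≠ e') (hne' : e' ≠ e'') (hne'' : e ≠ e'')
    (i : Fin (degree K e.1)) (j : Fin (degree K e'.1)) (k : Fin (degree K e''.1))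
    (hij : fi cyc e.1 i = fi cyc e'.1 j) (hik : fi cyc e.1 i = fi cyc e''.1 k)
    (h : ∀ e3 ∈ A, e3 ⊆ fi cyc e.1 i → e3 = e.1 ∨ e3 = e'.1 ∨ e3 = e''.1)
    (z : restrictTotalDegree (Fin 3) ℝ d) :
    ss cyc e.1 i * val ψ e i z + ss cyc e'.1 j * val ψ e' j z +
      ss cyc e''.1 k * val ψ e'' k z = 0 := by
  classical
  have h1 := sum_W hψ (fi_mem hcard hcyc (hA e.2) i.2) z
  rw [← Finset.sum_subset (Finset.subset_univ ({e, e', e''} : Finset A)),
    Finset.sum_insert, Finset.sum_pair hne', W_eq hA hcard hcyc ψ (i := i) rfl,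
    W_eq hA hcard hcyc ψ (i := j) hij.symm, W_eq hA hcard hcyc ψ (i := k) hik.symm] at h1
  · rw [← h1]
    ring
  · rw [Finset.mem_insert, Finset.mem_singleton]
    rintro (h' | h')
    · exact hne h'
    · exact hne'' h'
  · intro e3 _ he3
    rw [Finset.mem_insert, Finset.mem_insert, Finset.mem_singleton] at he3
    push Not at he3
    refine W_zero hA hcyc ψ (fun hc => ?_) z
    rcases h e3.1 e3.2 hc with h4 | h4 | h4
    · exact he3.1 (Subtype.ext h4)
    · exact he3.2.1 (Subtype.ext h4)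
    · exact he3.2.2 (Subtype.ext h4)

/-- The triangle through an edge. -/
theorem exists_c (hA : A ⊆ interiorFaces K 2) (hcard : ∀ t ∈ K, t.card = 4)
    (hcyc : Nice K cyc) (e : A) (i : Fin (degree K e.1)) {a b : Fin N} (ha : a ∈ e.1)
    (hb : b ∈ e.1) (hab : a ≠ b) : ∃ c, c ≠ a ∧ c ≠ b ∧ e.1 = {a, b} ∧
      fi cyc e.1 i = {a, b, c} := by
  have h1 : ({a, b} : Finset (Fin N)) = e.1 := Finset.eq_of_subset_of_card_le
    (by
      intro y hy
      rw [Finset.mem_insert, Finset.mem_singleton] at hy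
      rcases hy with rfl | rfl
      · exact ha
      · exact hb) (by rw [card_edge (hA e.2), Finset.card_pair hab])
  have hs := sub_fi hcyc (hA e.2) i.2
  have hc3 := (mem_faces.mp (mem_interiorFaces.mp (fi_mem hcard hcyc (hA e.2) i.2)).1).1
  obtain ⟨c, hc, hce⟩ : ∃ c ∈ fi cyc e.1 i, c ∉ e.1 := by
    by_contra hcon
    push Not at hcon
    have := Finset.card_le_card (show fi cyc e.1 i ⊆ e.1 from hcon)
    rw [hc3, card_edge (hA e.2)] at this
    omega
  have n1 : c ≠ a := fun h => hce (h ▸ ha)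
  have n2 : c ≠ b := fun h => hce (h ▸ hb)
  refine ⟨c, n1, n2, h1.symm, ?_⟩
  refine (Finset.eq_of_subset_of_card_le ?_ ?_).symm
  · intro y hy
    rw [Finset.mem_insert, Finset.mem_insert, Finset.mem_singleton] at hy
    rcases hy with rfl | rfl | rfl
    · exact hs ha
    · exact hs hb
    · exact hc
  · rw [hc3, Finset.card_insert_of_notMem, Finset.card_pair n2.symm]
    rw [Finset.mem_insert, Finset.mem_singleton]
    rintro (h | h)
    · exact hab h
    · exact n1 h.symm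

/-- The edges of a triangle. -/
theorem two_sub {e' : Finset (Fin N)} {a b c : Fin N} (h2 : e'.card = 2)
    (hs : e' ⊆ {a, b, c}) : e' = {a, b} ∨ e' = {a, c} ∨ e' = {b, c} := by
  obtain ⟨x, y, hxy, rfl⟩ := Finset.card_eq_two.mp h2
  have hx := hs (Finset.mem_insert_self x _)
  have hy := hs (Finset.mem_insert_of_mem (Finset.mem_singleton_self y))
  rw [Finset.mem_insert, Finset.mem_insert, Finset.mem_singleton] at hx hy
  rcases hx with rfl | rfl | rfl <;> rcases hy with rfl | rfl | rfl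
  · exact absurd rfl hxy
  · exact Or.inl rfl
  · exact Or.inr (Or.inl rfl)
  · exact Or.inl (Finset.pair_comm _ _)
  · exact absurd rfl hxy
  · exact Or.inr (Or.inr rfl)
  · exact Or.inr (Or.inl (Finset.pair_comm _ _))
  · exact Or.inr (Or.inr (Finset.pair_comm _ _))
  · exact absurd rfl hxy

end Pool.Agent.Lib.MP_d2a91d_an.Loc
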