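import Pool.Agent.Lib.MP_d2a91d_an.Loc

namespace Pool.Agent.Lib.MP_d2a91d_an.Loc

open MvPolynomial

variable {N : ℕ} {K A : Finset (Finset (Fin N))} {p : Fin N → Fin 3 → ℝ}
  {cyc : Finset (Fin N) → ℕ → Finset (Fin N)} {r d : ℕ}

/-- The index `i` and the indices of the free triangles. -/
noncomputable def II (K A : Finset (Finset (Fin N)))
    (cyc : Finset (Fin N) → ℕ → Finset (Fin N)) (e : A) (i : Fin (degree K e.1)) :
    Finset (Fin (degree K e.1)) := by
  classical
  exact insert i (Finset.univ.filter (fun m => ∀ e' ∈ A, e' ⊆ fi cyc e.1 m → e' = e.1))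

theorem mem_II {e : A} {i m : Fin (degree K e.1)} : m ∈ II K A cyc e i ↔
    m = i ∨ ∀ e' ∈ A, e' ⊆ fi cyc e.1 m → e' = e.1 := by
  unfold II
  rw [Finset.mem_insert, Finset.mem_filter]
  simp

theorem card_II (hA : A ⊆ interiorFaces K 2) (hcard : ∀ t ∈ K, t.card = 4) (hcyc : Nice K cyc)
    (e : A) (i : Fin (degree K e.1))
    (h : ¬ ∀ e' ∈ A, e' ⊆ fi cyc e.1 i → e' = e.1) :
    (free K A e.1).card + 1 ≤ (II K A cyc e i).card := by
  classical
  unfold II
  rw [Finset.card_insert_of_notMem]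
  · refine Nat.add_le_add_right ?_ 1
    refine Finset.card_le_card_of_surjOn (fun m => fi cyc e.1 m) ?_
    intro f hf
    rw [Finset.mem_coe] at hf
    obtain ⟨h1, h2, h3⟩ := Finset.mem_filter.mp hf
    obtain ⟨m, hm, hfm⟩ := fi_surj hcard hcyc (hA e.2) h1 h2
    refine ⟨⟨m, hm⟩, ?_, hfm⟩
    rw [Finset.mem_coe]
    refine Finset.mem_filter.mpr ⟨Finset.mem_univ _, ?_⟩
    intro e' he' hs
    apply h3 e' he'
    have : fi cyc e.1 ((⟨m, hm⟩ : Fin (degree K e.1)) : ℕ) = f := hfm
    rwa [this] at hs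
  · intro hc
    exact h (Finset.mem_filter.mp hc).2

/-- Relations supported on `II` kill the entry. -/
theorem kill_II (hA : A ⊆ interiorFaces K 2) (hcard : ∀ t ∈ K, t.card = 4) (hcyc : Nice K cyc)
    {ψ : Module.Dual ℝ (Z2_42.VA K A d)} (hψ : ψ ∈ BB K A cyc p r d) (e : A)
    (i : Fin (degree K e.1)) (k : Fin (degree K e.1) → restrictTotalDegree (Fin 3) ℝ d)
    (hk : Phi r d (le K cyc p e.1) k = 0) (hz : ∀ m, m ∉ II K A cyc e i → k m = 0) :
    val ψ e i (k i) = 0 := by
  have h1 := rel_zero hψ e k hk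
  rw [Finset.sum_eq_single i] at h1
  · exact h1
  · intro m _ hm
    by_cases h : m ∈ II K A cyc e i
    · rcases mem_II.mp h with h' | h'
      · exact absurd h' hm
      · exact val_free hA hcard hcyc hψ e m h' _
    · rw [hz m h, map_zero]
  · exact fun h => absurd (Finset.mem_univ _) h

/-- (K12) -/
theorem kill1 (hK : StK) (hA : A ⊆ interiorFaces K 2) (hp : WR K p) (hcyc : Nice K cyc)
    (hdist : ∀ e ∈ A, DistinctAt K p e) (hFF : FF K A)
    {ψ : Module.Dual ℝ (Z2_42.VA K A d)} (hψ : ψ ∈ BB K A cyc p r d) (e : A)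
    (i : Fin (degree K e.1)) {a b : Fin N} (ha : a ∈ e.1) (hb : b ∈ e.1) (hab : a ≠ b)
    (hno : ∀ e' ∈ A, e' ≠ e.1 → a ∈ e' → ¬ e' ⊆ fi cyc e.1 i)
    (z : restrictTotalDegree (Fin 3) ℝ d) (hz : Ord (p b) (2 * r) z.1) :
    val ψ e i z = 0 := by
  classical
  have hcard := hp.card
  obtain ⟨c, hca, hcb, heab, hfabc⟩ := exists_c hA hcard hcyc e i ha hb hab
  have hfi := fi_mem hcard hcyc (hA e.2) i.2
  have hfaces := (mem_interiorFaces.mp hfi).1
  obtain ⟨hf3, t, ht, hft⟩ := mem_faces.mp hfaces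
  by_cases hbc : ({b, c} : Finset (Fin N)) ∈ A
  · have hsub : ({b, c} : Finset (Fin N)) ⊆ fi cyc e.1 i := by
      rw [hfabc]
      exact Finset.subset_insert _ _
    obtain ⟨j, hj, hfj⟩ := fi_surj hcard hcyc (hA hbc) hfaces hsub
    let e' : A := ⟨{b, c}, hbc⟩
    have hne : e.1 ≠ ({b, c} : Finset (Fin N)) := by
      intro h
      have : a ∈ ({b, c} : Finset (Fin N)) := h ▸ ha
      rw [Finset.mem_insert, Finset.mem_singleton] at this
      rcases this with h | h
      · exact hab h
      · exact hca h.symm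
    have hne' : e ≠ e' := fun h => hne (congrArg Subtype.val h)
    have honly : ∀ e3 ∈ A, e3 ⊆ fi cyc e.1 i → e3 = e.1 ∨ e3 = e'.1 := by
      intro e3 he3 hs
      rw [hfabc] at hs
      rcases two_sub (card_edge (hA he3)) hs with h | h | h
      · left
        rw [h, heab]
      · exfalso
        refine hno e3 he3 ?_ ?_ ?_
        · rw [h, heab]
          intro h'
          have : c ∈ ({a, b} : Finset (Fin N)) := h' ▸ (by simp)
          rw [Finset.mem_insert, Finset.mem_singleton] at this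
          rcases this with h | h
          · exact hca h
          · exact hcb h
        · rw [h]
          simp
        · rw [h, hfabc]
          intro y hy
          rw [Finset.mem_insert, Finset.mem_singleton] at hy
          rcases hy with rfl | rfl <;> simp
      · exact Or.inr h
    have hfree : ¬ ∀ e3 ∈ A, e3 ⊆ fi cyc e.1 i → e3 = e.1 := fun h =>
      hne (h _ hbc hsub).symm
    have hfree' : ¬ ∀ e3 ∈ A, e3 ⊆ fi cyc e'.1 ((⟨j, hj⟩ : Fin (degree K e'.1)) : ℕ) →
        e3 = e'.1 := fun h => hne (h _ e.2 (by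
          have : fi cyc e'.1 ((⟨j, hj⟩ : Fin (degree K e'.1)) : ℕ) = fi cyc e.1 i := hfj
          rw [this]
          exact sub_fi hcyc (hA e.2) i.2))
    have c1 := card_II hA hcard hcyc e i hfree
    have c2 := card_II hA hcard hcyc e' ⟨j, hj⟩ hfree'
    have o1 := hFF.one e.1 e.2
    have o2 := hFF.one e'.1 e'.2
    have o3 := hFF.three e.1 e.2 e'.1 (Finset.mem_filter.mpr ⟨hbc, hne, _, hfaces,
      sub_fi hcyc (hA e.2) i.2, hsub⟩)
    obtain ⟨k, k', hk, hk', hz1, hz2, hzz⟩ := hK _ _ r d (le K cyc p e.1) (le K cyc p e'.1) i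
      ⟨j, hj⟩ (p b) (p a) (p c) (II K A cyc e i) (II K A cyc e' ⟨j, hj⟩)
      (pencil_w hp hcyc (hA e.2) (hdist _ e.2) hb ha)
      (pencil_w hp hcyc (hA hbc) (hdist _ hbc) (by simp) (by simp))
      (by
        unfold le
        rw [show fi cyc e'.1 ((⟨j, hj⟩ : Fin (degree K e'.1)) : ℕ) = fi cyc e.1 i from hfj])
      (affInd3_w hp ht (hft (by rw [hfabc]; simp)) (hft (by rw [hfabc]; simp))
        (hft (by rw [hfabc]; simp)) hab.symm hcb.symm hca.symm)
      (mem_II.mpr (Or.inl rfl)) (mem_II.mpr (Or.inl rfl)) (by omega) (by omega) (by omega) z hz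
    have v1 := kill_II hA hcard hcyc hψ e i k hk hz1
    have v2 := kill_II hA hcard hcyc hψ e' ⟨j, hj⟩ k' hk' hz2
    have v3 := val_two hA hcard hcyc hψ e e' hne' i ⟨j, hj⟩ hfj.symm honly (k' ⟨j, hj⟩)
    rw [v2, mul_zero, add_zero] at v3
    rw [hzz, map_add, v1, (mul_eq_zero.mp v3).resolve_left (ss_ne hA hcard hcyc e i), add_zero]
  · refine val_free hA hcard hcyc hψ e i ?_ z
    intro e3 he3 hs
    by_contra hne
    have hs' := hs
    rw [hfabc] at hs'
    rcases two_sub (card_edge (hA he3)) hs' with h | h | h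
    · exact hne (h.trans heab.symm)
    · exact hno e3 he3 hne (by rw [h]; simp) hs
    · exact hbc (h ▸ he3)

/-- (K) Everything of high order at both ends is killed. -/
theorem kill (hK : StK) (hK3 : StK3) (hA : A ⊆ interiorFaces K 2) (hp : WR K p)
    (hcyc : Nice K cyc)
    (hdist : ∀ e ∈ A, DistinctAt K p e) (hFF : FF K A) (hd : 6 * r ≤ d)
    {ψ : Module.Dual ℝ (Z2_42.VA K A d)} (hψ : ψ ∈ BB K A cyc p r d) (e : A)
    (i : Fin (degree K e.1)) {a b : Fin N} (ha : a ∈ e.1) (hb : b ∈ e.1) (hab : a ≠ b)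
    (z : restrictTotalDegree (Fin 3) ℝ d) (hza : Ord (p a) (2 * r) z.1)
    (hzb : Ord (p b) (2 * r) z.1) :
    val ψ e i z = 0 := by
  classical
  have hcard := hp.card
  obtain ⟨c, hca, hcb, heab, hfabc⟩ := exists_c hA hcard hcyc e i ha hb hab
  have hfi := fi_mem hcard hcyc (hA e.2) i.2
  have hfaces := (mem_interiorFaces.mp hfi).1
  obtain ⟨hf3, t, ht, hft⟩ := mem_faces.mp hfaces
  by_cases hac : ({a, c} : Finset (Fin N)) ∈ A
  · by_cases hbc : ({b, c} : Finset (Fin N)) ∈ A
    · have hsub : ({b, c} : Finset (Fin N)) ⊆ fi cyc e.1 i := by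
        rw [hfabc]
        exact Finset.subset_insert _ _
      have hsub' : ({a, c} : Finset (Fin N)) ⊆ fi cyc e.1 i := by
        rw [hfabc]
        intro y hy
        rw [Finset.mem_insert, Finset.mem_singleton] at hy
        rcases hy with rfl | rfl <;> simp
      obtain ⟨j, hj, hfj⟩ := fi_surj hcard hcyc (hA hbc) hfaces hsub
      obtain ⟨k, hk, hfk⟩ := fi_surj hcard hcyc (hA hac) hfaces hsub'
      let e' : A := ⟨{b, c}, hbc⟩
      let e'' : A := ⟨{a, c}, hac⟩
      have n1 : e.1 ≠ e'.1 := by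
        intro (h : e.1 = ({b, c} : Finset (Fin N)))
        have : a ∈ ({b, c} : Finset (Fin N)) := h ▸ ha
        rw [Finset.mem_insert, Finset.mem_singleton] at this
        rcases this with h | h
        · exact hab h
        · exact hca h.symm
      have n2 : e.1 ≠ e''.1 := by
        intro (h : e.1 = ({a, c} : Finset (Fin N)))
        have : b ∈ ({a, c} : Finset (Fin N)) := h ▸ hb
        rw [Finset.mem_insert, Finset.mem_singleton] at this
        rcases this with h | h
        · exact hab h.symm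
        · exact hcb h.symm
      have n3 : e'.1 ≠ e''.1 := by
        intro (h : ({b, c} : Finset (Fin N)) = ({a, c} : Finset (Fin N)))
        have : b ∈ ({a, c} : Finset (Fin N)) := h ▸ (Finset.mem_insert_self b {c})
        rw [Finset.mem_insert, Finset.mem_singleton] at this
        rcases this with h | h
        · exact hab h.symm
        · exact hcb h.symm
      have honly : ∀ e3 ∈ A, e3 ⊆ fi cyc e.1 i → e3 = e.1 ∨ e3 = e'.1 ∨ e3 = e''.1 := by
        intro e3 he3 hs
        rw [hfabc] at hs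
        rcases two_sub (card_edge (hA he3)) hs with h | h | h
        · left
          rw [h, heab]
        · exact Or.inr (Or.inr h)
        · exact Or.inr (Or.inl h)
      have hthree' : 3 ≤ (A.filter (fun e3 => e3 ⊆ fi cyc e.1 i)).card := by
        have hs3 : ({e.1, e'.1, e''.1} : Finset (Finset (Fin N))) ⊆
            A.filter (fun e3 => e3 ⊆ fi cyc e.1 i) := by
          intro y hy
          rw [Finset.mem_insert, Finset.mem_insert, Finset.mem_singleton] at hy
          rcases hy with rfl | rfl | rfl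
          · exact Finset.mem_filter.mpr ⟨e.2, sub_fi hcyc (hA e.2) i.2⟩
          · exact Finset.mem_filter.mpr ⟨hbc, hsub⟩
          · exact Finset.mem_filter.mpr ⟨hac, hsub'⟩
        have := Finset.card_le_card hs3
        rwa [Finset.card_insert_of_notMem (by
          rw [Finset.mem_insert, Finset.mem_singleton]
          rintro (h | h)
          · exact n1 h
          · exact n2 h), Finset.card_pair n3] at this
      have f1 := hFF.two _ hfaces hthree' e.1 e.2 (sub_fi hcyc (hA e.2) i.2)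
      have f2 := hFF.two _ hfaces hthree' e'.1 hbc hsub
      have f3 := hFF.two _ hfaces hthree' e''.1 hac hsub'
      have hfj' : fi cyc e'.1 ((⟨j, hj⟩ : Fin (degree K e'.1)) : ℕ) = fi cyc e.1 i := hfj
      have hfk' : fi cyc e''.1 ((⟨k, hk⟩ : Fin (degree K e''.1)) : ℕ) = fi cyc e.1 i := hfk
      have g1 : ¬ ∀ e3 ∈ A, e3 ⊆ fi cyc e.1 i → e3 = e.1 := fun h =>
        n1 (h _ hbc hsub).symm
      have g2 : ¬ ∀ e3 ∈ A, e3 ⊆ fi cyc e'.1 ((⟨j, hj⟩ : Fin (degree K e'.1)) : ℕ) →
          e3 = e'.1 := fun h => n1 (h _ e.2 (by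
            rw [hfj']
            exact sub_fi hcyc (hA e.2) i.2))
      have g3 : ¬ ∀ e3 ∈ A, e3 ⊆ fi cyc e''.1 ((⟨k, hk⟩ : Fin (degree K e''.1)) : ℕ) →
          e3 = e''.1 := fun h => n2 (h _ e.2 (by
            rw [hfk']
            exact sub_fi hcyc (hA e.2) i.2))
      have c1 := card_II hA hcard hcyc e i g1
      have c2 := card_II hA hcard hcyc e' ⟨j, hj⟩ g2
      have c3 := card_II hA hcard hcyc e'' ⟨k, hk⟩ g3
      obtain ⟨x, y, w, hx, hy, hw, zx, zy, zw, hq, hyw⟩ := hK3 _ _ _ r d (le K cyc p e.1)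
        (le K cyc p e'.1) (le K cyc p e''.1) i ⟨j, hj⟩ ⟨k, hk⟩ (p a) (p b) (p c)
        (II K A cyc e i) (II K A cyc e' ⟨j, hj⟩) (II K A cyc e'' ⟨k, hk⟩)
        (pencil_w hp hcyc (hA e.2) (hdist _ e.2) ha hb)
        (pencil_w hp hcyc (hA hbc) (hdist _ hbc) (by simp) (by simp))
        (pencil_w hp hcyc (hA hac) (hdist _ hac) (by simp) (by simp))
        (by
          unfold le
          rw [hfj'])
        (by
          unfold le
          rw [hfk'])
        (affInd3_w hp ht (hft (by rw [hfabc]; simp)) (hft (by rw [hfabc]; simp))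
          (hft (by rw [hfabc]; simp)) hab hca.symm hcb.symm)
        (mem_II.mpr (Or.inl rfl)) (mem_II.mpr (Or.inl rfl)) (mem_II.mpr (Or.inl rfl))
        (by omega) (by omega) (by omega) hd z hza hzb
      have v1 := kill_II hA hcard hcyc hψ e i x hx zx
      have v2 := kill_II hA hcard hcyc hψ e' ⟨j, hj⟩ y hy zy
      have v3 := kill_II hA hcard hcyc hψ e'' ⟨k, hk⟩ w hw zw
      have v4 := val_three hA hcard hcyc hψ e e' e'' (fun h => n1 (congrArg Subtype.val h))
        (fun h => n3 (congrArg Subtype.val h)) (fun h => n2 (congrArg Subtype.val h)) i ⟨j, hj⟩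
        ⟨k, hk⟩ hfj'.symm hfk'.symm honly (y ⟨j, hj⟩)
      rw [v2, mul_zero, add_zero, hyw, v3, mul_zero, add_zero] at v4
      rw [hq, map_add, v1, hyw, (mul_eq_zero.mp v4).resolve_left (ss_ne hA hcard hcyc e i),
        add_zero]
    · refine kill1 hK hA hp hcyc hdist hFF hψ e i hb ha hab.symm ?_ z hza
      intro e3 he3 hne hbe hs
      rw [hfabc] at hs
      rcases two_sub (card_edge (hA he3)) hs with h | h | h
      · exact hne (h.trans heab.symm)
      · rw [h, Finset.mem_insert, Finset.mem_singleton] at hbe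
        rcases hbe with h' | h'
        · exact hab h'.symm
        · exact hcb h'.symm
      · exact hbc (h ▸ he3)
  · refine kill1 hK hA hp hcyc hdist hFF hψ e i ha hb hab ?_ z hzb
    intro e3 he3 hne hae hs
    rw [hfabc] at hs
    rcases two_sub (card_edge (hA he3)) hs with h | h | h
    · exact hne (h.trans heab.symm)
    · exact hac (h ▸ he3)
    · rw [h, Finset.mem_insert, Finset.mem_singleton] at hae
      rcases hae with h' | h'
      · exact hab h'
      · exact hca h'.symm

end Pool.Agent.Lib.MP_d2a91d_an.Loc
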