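import Pool.Agent.Lib.MP_d2a91d_an.Loc2

namespace Pool.Agent.Lib.MP_d2a91d_an.Loc

open MvPolynomial

variable {N : ℕ} {K A : Finset (Finset (Fin N))} {p : Fin N → Fin 3 → ℝ}
  {cyc : Finset (Fin N) → ℕ → Finset (Fin N)} {r d : ℕ}

/-- The edges at a vertex. -/
def Av (A : Finset (Finset (Fin N))) (v : Fin N) : Finset (Finset (Fin N)) :=
  A.filter (fun e => v ∈ e)

theorem Av_sub (A : Finset (Finset (Fin N))) (v : Fin N) : Av A v ⊆ A := Finset.filter_subset _ _

theorem mem_Av {v : Fin N} {e : Finset (Fin N)} : e ∈ Av A v ↔ e ∈ A ∧ v ∈ e :=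
  Finset.mem_filter

/-- The cut-off maps. -/
structure Cuts (K A : Finset (Finset (Fin N))) (cyc : Finset (Fin N) → ℕ → Finset (Fin N))
    (p : Fin N → Fin 3 → ℝ) (r d : ℕ)
    (cut : Fin N → Finset (Fin N) → (restrictTotalDegree (Fin 3) ℝ d →ₗ[ℝ]
      restrictTotalDegree (Fin 3) ℝ d)) : Prop where
  far : ∀ e ∈ A, ∀ v ∈ e, ∀ w ∈ e, v ≠ w → ∀ q, Ord (p w) (2 * r) (cut v e q).1
  near : ∀ e ∈ A, ∀ v ∈ e, ∀ q, Ord (p v) (2 * r) (q - cut v e q).1
  rel : ∀ e ∈ A, ∀ v ∈ e, ∀ k : Fin (degree K e) → restrictTotalDegree (Fin 3) ℝ d,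
    Phi r d (le K cyc p e) k = 0 → Phi r d (le K cyc p e) (fun i => cut v e (k i)) = 0

theorem ne_of_edge (hA : A ⊆ interiorFaces K 2) (hp : WR K p) {e : Finset (Fin N)} (he : e ∈ A)
    {v w : Fin N} (hv : v ∈ e) (hw : w ∈ e) (hvw : v ≠ w) : p v ≠ p w := by
  obtain ⟨t, ht, het⟩ : ∃ t ∈ K, e ⊆ t := (mem_faces.mp (mem_interiorFaces.mp (hA he)).1).2
  intro h
  have h1 := (hp.nondeg t ht).injective (a₁ := ⟨v, het hv⟩) (a₂ := ⟨w, het hw⟩) h
  exact hvw (congrArg Subtype.val h1)

theorem exists_cut (hTL : StTL) (hF : StF) (hA : A ⊆ interiorFaces K 2) (hp : WR K p)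
    (hcyc : Nice K cyc) (hdist : ∀ e ∈ A, DistinctAt K p e) (hd : 6 * r ≤ d)
    (v : Fin N) (e : Finset (Fin N)) :
    ∃ c : restrictTotalDegree (Fin 3) ℝ d →ₗ[ℝ] restrictTotalDegree (Fin 3) ℝ d,
      e ∈ A → v ∈ e → (∀ w ∈ e, v ≠ w → ∀ q, Ord (p w) (2 * r) (c q).1) ∧
        (∀ q, Ord (p v) (2 * r) (q - c q).1) ∧
        (∀ k : Fin (degree K e) → restrictTotalDegree (Fin 3) ℝ d,
          Phi r d (le K cyc p e) k = 0 → Phi r d (le K cyc p e) (fun i => c (k i)) = 0) := by
  by_cases h : e ∈ A ∧ v ∈ e
  · obtain ⟨he, hv⟩ := h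
    obtain ⟨w, hw, hwv⟩ := Finset.exists_mem_ne
      (by rw [card_edge (hA he)]; norm_num) v (s := e)
    have hpen := pencil_w hp hcyc (hA he) (hdist _ he) hv hw
    obtain ⟨T, hTd, hTo, hTr⟩ := hTL (p v) (2 * r)
    obtain ⟨φ, hφd, hφw, hφv⟩ := hF (p v) (p w) (2 * r) (ne_of_edge hA hp he hv hw hwv.symm)
    have hdeg : ∀ q : restrictTotalDegree (Fin 3) ℝ d,
        (LinearMap.mulLeft ℝ φ ∘ₗ T ∘ₗ Submodule.subtype _) q ∈
          restrictTotalDegree (Fin 3) ℝ d := by
      intro q
      rw [mem_restrictTotalDegree]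
      change (φ * T q.1).totalDegree ≤ d
      refine (totalDegree_mul _ _).trans ?_
      have := hTd q.1
      omega
    refine ⟨LinearMap.codRestrict _ (LinearMap.mulLeft ℝ φ ∘ₗ T ∘ₗ Submodule.subtype _) hdeg,
      fun _ _ => ⟨?_, ?_, ?_⟩⟩
    · intro w' hw' hvw' q
      have : w' = w := by
        by_contra hne
        have c4 : ({v, w', w} : Finset (Fin N)).card = 3 := by
          rw [Finset.card_insert_of_notMem, Finset.card_pair hne]
          rw [Finset.mem_insert, Finset.mem_singleton]
          rintro (h | h)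
          · exact hvw' h
          · exact hwv h.symm
        have c5 : ({v, w', w} : Finset (Fin N)) ⊆ e := by
          intro z hz
          rw [Finset.mem_insert, Finset.mem_insert, Finset.mem_singleton] at hz
          rcases hz with rfl | rfl | rfl
          · exact hv
          · exact hw'
          · exact hw
        have c6 := Finset.card_le_card c5
        rw [card_edge (hA he)] at c6
        omega
      rw [this]
      exact Chain.ord_mul hφw _
    · intro q
      have h1 : q.1 - φ * T q.1 = (q.1 - T q.1) + -((φ - 1) * T q.1) := by ring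
      change Ord (p v) (2 * r) (q.1 - φ * T q.1)
      rw [h1]
      exact Chain.ord_add (hTo q.1) (Chain.ord_neg (Chain.ord_mul hφv _))
    · intro k hk
      rw [Phi_apply] at hk ⊢
      have h1 := hTr _ r (le K cyc p e) hpen.deg (fun i => (hpen.van i).1) (fun i => (k i).1) hk
      have : ∑ i, le K cyc p e i ^ (r + 1) * (φ * T (k i).1) =
          φ * ∑ i, le K cyc p e i ^ (r + 1) * T (k i).1 := by
        rw [Finset.mul_sum]
        exact Finset.sum_congr rfl fun i _ => by ring
      change ∑ i, le K cyc p e i ^ (r + 1) * (φ * T (k i).1) = 0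
      rw [this, h1, mul_zero]
  · exact ⟨0, fun h1 h2 => absurd ⟨h1, h2⟩ h⟩

theorem exists_cuts (hTL : StTL) (hF : StF) (hA : A ⊆ interiorFaces K 2) (hp : WR K p)
    (hcyc : Nice K cyc) (hdist : ∀ e ∈ A, DistinctAt K p e) (hd : 6 * r ≤ d) :
    ∃ cut, Cuts K A cyc p r d cut := by
  choose c hc using fun v e => exists_cut hTL hF hA hp hcyc hdist hd v e
  exact ⟨c, fun e he v hv => (hc v e he hv).1, fun e he v hv => (hc v e he hv).2.1,
    fun e he v hv => (hc v e he hv).2.2⟩

theorem exists_y (hTL : StTL) (hF3 : StF3) (hd : 6 * r ≤ d) {a b c : Fin 3 → ℝ}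
    (haff : AffineIndependent ℝ ![a, b, c]) (z : restrictTotalDegree (Fin 3) ℝ d) :
    ∃ y : restrictTotalDegree (Fin 3) ℝ d, Ord a (2 * r) (z - y).1 ∧ Ord b (2 * r) y.1 ∧
      Ord c (2 * r) y.1 := by
  obtain ⟨T, hTd, hTo, -⟩ := hTL a (2 * r)
  obtain ⟨φ, hφd, hφb, hφc, hφa⟩ := hF3 a b c (2 * r) haff
  have hdeg : φ * T z.1 ∈ restrictTotalDegree (Fin 3) ℝ d := by
    rw [mem_restrictTotalDegree]
    refine (totalDegree_mul _ _).trans ?_
    have := hTd z.1
    omega
  refine ⟨⟨_, hdeg⟩, ?_, Chain.ord_mul hφb _, Chain.ord_mul hφc _⟩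
  have h1 : z.1 - φ * T z.1 = (z.1 - T z.1) + -((φ - 1) * T z.1) := by ring
  change Ord a (2 * r) (z.1 - φ * T z.1)
  rw [h1]
  exact Chain.ord_add (hTo z.1) (Chain.ord_neg (Chain.ord_mul hφa _))

section Maps

variable (K A)

/-- Restriction to the edges at `v`. -/
def res (v : Fin N) (d : ℕ) : Z2_42.VA K A d →ₗ[ℝ] Z2_42.VA K (Av A v) d where
  toFun w e i := w ⟨e.1, Av_sub A v e.2⟩ i
  map_add' _ _ := rfl
  map_smul' _ _ := rfl

variable (cut : Fin N → Finset (Fin N) → (restrictTotalDegree (Fin 3) ℝ d →ₗ[ℝ]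
      restrictTotalDegree (Fin 3) ℝ d))

/-- The cut-off extension. -/
noncomputable def CC (v : Fin N) : Z2_42.VA K (Av A v) d →ₗ[ℝ] Z2_42.VA K A d where
  toFun w e i := if h : v ∈ e.1 then cut v e.1 (w ⟨e.1, mem_Av.mpr ⟨e.2, h⟩⟩ i) else 0
  map_add' w w' := by
    funext e i
    by_cases h : v ∈ e.1
    · simp only [dif_pos h, Pi.add_apply, map_add]
    · simp only [dif_neg h, Pi.add_apply, add_zero]
  map_smul' c w := by
    funext e i
    by_cases h : v ∈ e.1
    · simp only [dif_pos h, Pi.smul_apply, map_smul, RingHom.id_apply]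
    · simp only [dif_neg h, Pi.smul_apply, smul_zero, RingHom.id_apply]

end Maps

theorem CC_apply (cut : Fin N → Finset (Fin N) → (restrictTotalDegree (Fin 3) ℝ d →ₗ[ℝ]
      restrictTotalDegree (Fin 3) ℝ d)) (v : Fin N) (w : Z2_42.VA K (Av A v) d) (e : A)
    (i : Fin (degree K e.1)) : CC K A cut v w e i = if h : v ∈ e.1 then
      cut v e.1 (w ⟨e.1, mem_Av.mpr ⟨e.2, h⟩⟩ i) else 0 := rfl

/-- Restriction of functionals. -/
theorem res_mem {v : Fin N} {ψ : Module.Dual ℝ (Z2_42.VA K (Av A v) d)}
    (hψ : ψ ∈ BB K (Av A v) cyc p r d) : ψ ∘ₗ res K A v d ∈ BB K A cyc p r d := by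
  unfold BB at hψ ⊢
  rw [Submodule.mem_dualAnnihilator] at hψ ⊢
  intro w hw
  obtain ⟨w1, ⟨q, rfl⟩, w2, hw2, rfl⟩ := Submodule.mem_sup.mp hw
  rw [map_add]
  have h1 : (ψ ∘ₗ res K A v d) (GG K A cyc d q) = 0 :=
    hψ _ (Submodule.mem_sup_left ⟨q, rfl⟩)
  have h2 : (ψ ∘ₗ res K A v d) w2 = 0 := by
    refine hψ _ (Submodule.mem_sup_right ?_)
    rw [LinearMap.mem_ker] at hw2 ⊢
    funext e
    exact congrFun hw2 ⟨e.1, Av_sub A v e.2⟩
  rw [h1, h2, add_zero]

/-- The cut-off of a functional. -/
theorem cut_mem (hK : StK) (hK3 : StK3) (hTL : StTL) (hF3 : StF3) (hA : A ⊆ interiorFaces K 2)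
    (hp : WR K p) (hcyc : Nice K cyc)
    (hdist : ∀ e ∈ A, DistinctAt K p e) (hFF : FF K A) (hd : 6 * r ≤ d)
    {cut : Fin N → Finset (Fin N) → (restrictTotalDegree (Fin 3) ℝ d →ₗ[ℝ]
      restrictTotalDegree (Fin 3) ℝ d)} (hcut : Cuts K A cyc p r d cut)
    {ψ : Module.Dual ℝ (Z2_42.VA K A d)} (hψ : ψ ∈ BB K A cyc p r d) (v : Fin N) :
    ψ ∘ₗ CC K A cut v ∈ BB K (Av A v) cyc p r d := by
  classical
  have hcard := hp.card
  have hψ' := hψ
  unfold BB at hψ' ⊢
  rw [Submodule.mem_dualAnnihilator] at hψ' ⊢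
  intro w hw
  obtain ⟨w1, ⟨q, rfl⟩, w2, hw2, rfl⟩ := Submodule.mem_sup.mp hw
  rw [map_add]
  have h2 : (ψ ∘ₗ CC K A cut v) w2 = 0 := by
    refine hψ' _ (Submodule.mem_sup_right ?_)
    rw [LinearMap.mem_ker] at hw2 ⊢
    funext e
    rw [Z2_42.PhiAll_apply]
    by_cases h : v ∈ e.1
    · have h3 := congrFun hw2 ⟨e.1, mem_Av.mpr ⟨e.2, h⟩⟩
      have h4 := hcut.rel e.1 e.2 v h (w2 ⟨e.1, mem_Av.mpr ⟨e.2, h⟩⟩) h3
      have h5 : CC K A cut v w2 e = fun i => cut v e.1 (w2 ⟨e.1, mem_Av.mpr ⟨e.2, h⟩⟩ i) := by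
        funext i
        rw [CC_apply, dif_pos h]
      rw [h5]
      exact h4
    · have h5 : CC K A cut v w2 e = 0 := by
        funext i
        rw [CC_apply, dif_neg h]
        rfl
      rw [h5, map_zero]
      rfl
  have h1 : (ψ ∘ₗ CC K A cut v) (GG K (Av A v) cyc d q) = 0 := by
    have hlin : (ψ ∘ₗ CC K A cut v) ∘ₗ GG K (Av A v) cyc d = 0 := by
      refine LinearMap.pi_ext fun f z => ?_
      rw [LinearMap.zero_apply]
      have e1 : ((ψ ∘ₗ CC K A cut v) ∘ₗ GG K (Av A v) cyc d) (Pi.single f z) =
          ∑ e : A, (if v ∈ e.1 then W ψ cyc f.1 e (cut v e.1 z) else 0) := by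
        change ψ (CC K A cut v (GG K (Av A v) cyc d (Pi.single f z))) = _
        rw [eq_sum]
        refine Finset.sum_congr rfl fun e _ => ?_
        by_cases h : v ∈ e.1
        · rw [if_pos h]
          unfold W
          refine Finset.sum_congr rfl fun i _ => ?_
          rw [CC_apply, dif_pos h]
          have h3 : GG K (Av A v) cyc d (Pi.single f z) ⟨e.1, mem_Av.mpr ⟨e.2, h⟩⟩ i =
              ss cyc e.1 i • (if fi cyc e.1 i = f.1 then z else 0) := by
            unfold GG
            rw [LinearMap.pi_apply, LinearMap.pi_apply, LinearMap.smul_apply]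
            congr 1
            by_cases h : fi cyc e.1 i ∈ interiorFaces K 3
            · rw [dif_pos h, LinearMap.proj_apply]
              by_cases h' : fi cyc e.1 i = f.1
              · rw [if_pos h']
                have : (⟨fi cyc e.1 i, h⟩ : interiorFaces K 3) = f := Subtype.ext h'
                rw [this, Pi.single_eq_same]
              · rw [if_neg h', Pi.single_eq_of_ne]
                intro h''
                exact h' (congrArg Subtype.val h'')
            · rw [dif_neg h, LinearMap.zero_apply, if_neg]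
              intro h'
              exact h (h' ▸ f.2)
          rw [h3]
          split_ifs with h4
          · rw [map_smul, map_smul, smul_eq_mul]
          · rw [smul_zero, map_zero, map_zero]
        · rw [if_neg h]
          refine Finset.sum_eq_zero fun i _ => ?_
          rw [CC_apply, dif_neg h, map_zero]
      rw [e1]
      -- the triangle
      have hff := (mem_interiorFaces.mp f.2).1
      obtain ⟨hf3, t, ht, hft⟩ := mem_faces.mp hff
      by_cases hvf : v ∈ f.1
      · obtain ⟨b, c, hbc, hvb, hvc, hf⟩ : ∃ b c : Fin N, b ≠ c ∧ v ≠ b ∧ v ≠ c ∧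
            f.1 = {v, b, c} := by
          have h4 : (f.1.erase v).card = 2 := by
            rw [Finset.card_erase_of_mem hvf, hf3]
          obtain ⟨b, c, hbc, h5⟩ := Finset.card_eq_two.mp h4
          refine ⟨b, c, hbc, ?_, ?_, ?_⟩
          · rintro rfl
            have : v ∈ f.1.erase v := h5 ▸ (by simp)
            exact Finset.notMem_erase v f.1 this
          · rintro rfl
            have : v ∈ f.1.erase v := h5 ▸ (by simp)
            exact Finset.notMem_erase v f.1 this
          · rw [← h5, Finset.insert_erase hvf]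
        have hvt : v ∈ t := hft hvf
        have hbt : b ∈ t := hft (by rw [hf]; simp)
        have hct : c ∈ t := hft (by rw [hf]; simp)
        have haff := affInd3_w hp ht hvt hbt hct hvb hvc hbc
        have sb : ({v, b} : Finset (Fin N)) ⊆ f.1 := by
          rw [hf]
          intro y hy
          rw [Finset.mem_insert, Finset.mem_singleton] at hy
          rcases hy with rfl | rfl <;> simp
        have sc : ({v, c} : Finset (Fin N)) ⊆ f.1 := by
          rw [hf]
          intro y hy
          rw [Finset.mem_insert, Finset.mem_singleton] at hy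
          rcases hy with rfl | rfl <;> simp
        -- a single edge at `v`
        have single : ∀ b c : Fin N, b ≠ c → v ≠ b → v ≠ c → f.1 = {v, b, c} →
            ∀ hb : ({v, b} : Finset (Fin N)) ∈ A, ({v, c} : Finset (Fin N)) ∉ A →
            W ψ cyc f.1 ⟨{v, b}, hb⟩ (cut v {v, b} z) = 0 := by
          intro b c hbc hvb hvc hf hb hc
          have sb : ({v, b} : Finset (Fin N)) ⊆ f.1 := by
            rw [hf]
            intro y hy
            rw [Finset.mem_insert, Finset.mem_singleton] at hy
            rcases hy with rfl | rfl <;> simp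
          obtain ⟨i, hi, hfi⟩ := fi_surj hcard hcyc (hA hb) hff sb
          rw [W_eq hA hcard hcyc ψ (e := ⟨{v, b}, hb⟩) (i := ⟨i, hi⟩) hfi]
          rw [kill1 hK hA hp hcyc hdist hFF hψ ⟨{v, b}, hb⟩ ⟨i, hi⟩ (a := v) (b := b)
            (by simp) (by simp) hvb ?_ _ (hcut.far _ hb v (by simp) b (by simp) hvb z), mul_zero]
          intro e' he' hne hve' hs
          have hs' : e' ⊆ {v, b, c} := by
            have : fi cyc ({v, b} : Finset (Fin N)) i = {v, b, c} := hfi.trans hf
            rw [← this]
            exact hs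
          rcases two_sub (card_edge (hA he')) hs' with h | h | h
          · exact hne h
          · exact hc (h ▸ he')
          · rw [h, Finset.mem_insert, Finset.mem_singleton] at hve'
            rcases hve' with h' | h'
            · exact hvb h'
            · exact hvc h'
        have other : ∀ e : A, e.1 ≠ {v, b} → e.1 ≠ {v, c} →
            (if v ∈ e.1 then W ψ cyc f.1 e (cut v e.1 z) else 0) = 0 := by
          intro e n1 n2
          by_cases h : v ∈ e.1
          · rw [if_pos h]
            refine W_zero hA hcyc ψ (fun hs => ?_) _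
            rw [hf] at hs
            rcases two_sub (card_edge (hA e.2)) hs with h' | h' | h'
            · exact n1 h'
            · exact n2 h'
            · rw [h', Finset.mem_insert, Finset.mem_singleton] at h
              rcases h with h | h
              · exact hvb h
              · exact hvc h
          · rw [if_neg h]
        have hne2 : ({v, b} : Finset (Fin N)) ≠ {v, c} := by
          intro h
          have : b ∈ ({v, c} : Finset (Fin N)) := h ▸ (by simp)
          rw [Finset.mem_insert, Finset.mem_singleton] at this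
          rcases this with h | h
          · exact hvb h.symm
          · exact hbc h
        by_cases hb : ({v, b} : Finset (Fin N)) ∈ A
        · by_cases hc : ({v, c} : Finset (Fin N)) ∈ A
          · have hnee : (⟨{v, b}, hb⟩ : A) ≠ ⟨{v, c}, hc⟩ := fun h =>
              hne2 (congrArg Subtype.val h)
            obtain ⟨y, hy1, hy2, hy3⟩ := exists_y hTL hF3 hd haff z
            obtain ⟨i, hi, hfi⟩ := fi_surj hcard hcyc (hA hb) hff sb
            obtain ⟨j, hj, hfj⟩ := fi_surj hcard hcyc (hA hc) hff sc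
            have w1 : W ψ cyc f.1 ⟨{v, b}, hb⟩ (cut v {v, b} z) =
                W ψ cyc f.1 ⟨{v, b}, hb⟩ y := by
              rw [W_eq hA hcard hcyc ψ (e := ⟨{v, b}, hb⟩) (i := ⟨i, hi⟩) hfi,
                W_eq hA hcard hcyc ψ (e := ⟨{v, b}, hb⟩) (i := ⟨i, hi⟩) hfi]
              congr 1
              rw [← sub_eq_zero, ← map_sub]
              refine kill hK hK3 hA hp hcyc hdist hFF hd hψ ⟨{v, b}, hb⟩ ⟨i, hi⟩ (a := v)
                (b := b) (by simp) (by simp) hvb _ ?_ ?_
              · have h6 : (cut v {v, b} z - y).1 = (z - y).1 + -(z - cut v {v, b} z).1 := by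
                  change (cut v {v, b} z).1 - y.1 = (z.1 - y.1) + -(z.1 - (cut v {v, b} z).1)
                  ring
                rw [h6]
                exact Chain.ord_add hy1 (Chain.ord_neg (hcut.near _ hb v (by simp) z))
              · have h6 : (cut v {v, b} z - y).1 = (cut v {v, b} z).1 + -y.1 := by
                  change (cut v {v, b} z).1 - y.1 = _
                  ring
                rw [h6]
                exact Chain.ord_add (hcut.far _ hb v (by simp) b (by simp) hvb z)
                  (Chain.ord_neg hy2)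
            have w2 : W ψ cyc f.1 ⟨{v, c}, hc⟩ (cut v {v, c} z) =
                W ψ cyc f.1 ⟨{v, c}, hc⟩ y := by
              rw [W_eq hA hcard hcyc ψ (e := ⟨{v, c}, hc⟩) (i := ⟨j, hj⟩) hfj,
                W_eq hA hcard hcyc ψ (e := ⟨{v, c}, hc⟩) (i := ⟨j, hj⟩) hfj]
              congr 1
              rw [← sub_eq_zero, ← map_sub]
              refine kill hK hK3 hA hp hcyc hdist hFF hd hψ ⟨{v, c}, hc⟩ ⟨j, hj⟩ (a := v)
                (b := c) (by simp) (by simp) hvc _ ?_ ?_
              · have h6 : (cut v {v, c} z - y).1 = (z - y).1 + -(z - cut v {v, c} z).1 := by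
                  change (cut v {v, c} z).1 - y.1 = (z.1 - y.1) + -(z.1 - (cut v {v, c} z).1)
                  ring
                rw [h6]
                exact Chain.ord_add hy1 (Chain.ord_neg (hcut.near _ hc v (by simp) z))
              · have h6 : (cut v {v, c} z - y).1 = (cut v {v, c} z).1 + -y.1 := by
                  change (cut v {v, c} z).1 - y.1 = _
                  ring
                rw [h6]
                exact Chain.ord_add (hcut.far _ hc v (by simp) c (by simp) hvc z)
                  (Chain.ord_neg hy3)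
            rw [Fintype.sum_eq_add ⟨{v, b}, hb⟩ ⟨{v, c}, hc⟩ hnee (fun e he =>
              other e (fun h => he.1 (Subtype.ext h)) (fun h => he.2 (Subtype.ext h))),
              if_pos (by simp), if_pos (by simp), w1, w2]
            have w3 := sum_W hψ f.2 y
            rw [Fintype.sum_eq_add ⟨{v, b}, hb⟩ ⟨{v, c}, hc⟩ hnee] at w3
            · exact w3
            · intro e he
              by_cases hs : e.1 ⊆ f.1
              · have hs' := hs
                rw [hf] at hs'
                rcases two_sub (card_edge (hA e.2)) hs' with h' | h' | h'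
                · exact absurd (Subtype.ext h') he.1
                · exact absurd (Subtype.ext h') he.2
                · obtain ⟨k, hk, hfk⟩ := fi_surj hcard hcyc (hA e.2) hff hs
                  rw [W_eq hA hcard hcyc ψ (i := ⟨k, hk⟩) hfk,
                    kill hK hK3 hA hp hcyc hdist hFF hd hψ e ⟨k, hk⟩ (a := b)
                    (b := c) (by rw [h']; simp) (by rw [h']; simp) hbc _ hy2 hy3, mul_zero]
              · exact W_zero hA hcyc ψ hs _
          · rw [Fintype.sum_eq_single (⟨{v, b}, hb⟩ : A)]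
            · rw [if_pos (by simp)]
              exact single b c hbc hvb hvc hf hb hc
            · intro e he
              exact other e (fun h => he (Subtype.ext h)) (fun h => hc (h ▸ e.2))
        · by_cases hc : ({v, c} : Finset (Fin N)) ∈ A
          · rw [Fintype.sum_eq_single (⟨{v, c}, hc⟩ : A)]
            · rw [if_pos (by simp)]
              exact single c b hbc.symm hvc hvb (by rw [hf, Finset.pair_comm b c]) hc hb
            · intro e he
              exact other e (fun h => hb (h ▸ e.2)) (fun h => he (Subtype.ext h))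
          · exact Finset.sum_eq_zero fun e _ => other e (fun h => hb (h ▸ e.2))
              (fun h => hc (h ▸ e.2))
      · refine Finset.sum_eq_zero fun e _ => ?_
        by_cases h : v ∈ e.1
        · rw [if_pos h]
          exact W_zero hA hcyc ψ (fun hs => hvf (hs h)) _
        · rw [if_neg h]
    exact LinearMap.congr_fun hlin q
  rw [h1, h2, add_zero]

end Pool.Agent.Lib.MP_d2a91d_an.Loc
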