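import Pool.Agent.Lib.MP_d2a91d_an.Loc3

namespace Pool.Agent.Lib.MP_d2a91d_an.Loc

open MvPolynomial

variable {N : ℕ} {K A : Finset (Finset (Fin N))} {p : Fin N → Fin 3 → ℝ}
  {cyc : Finset (Fin N) → ℕ → Finset (Fin N)} {r d : ℕ}

theorem free_dual {V : Type*} [AddCommGroup V] [Module ℝ V]
    (S : Submodule ℝ (Module.Dual ℝ V)) : Module.Free ℝ S := by
  apply Module.Free.of_basis (Module.Basis.ofVectorSpace ℝ S)

/-- Two functionals with the same values. -/
theorem ext_val {ψ ψ' : Module.Dual ℝ (Z2_42.VA K A d)}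
    (h : ∀ e i q, val ψ e i q = val ψ' e i q) : ψ = ψ' := by
  refine LinearMap.ext fun w => ?_
  rw [eq_sum ψ w, eq_sum ψ' w]
  exact Finset.sum_congr rfl fun e _ => Finset.sum_congr rfl fun i _ => h e i _

theorem val_res {v : Fin N} (ψ : Module.Dual ℝ (Z2_42.VA K (Av A v) d)) (e : A)
    (i : Fin (degree K e.1)) (q : restrictTotalDegree (Fin 3) ℝ d) (hv : v ∈ e.1) :
    val (ψ ∘ₗ res K A v d) e i q = val ψ ⟨e.1, mem_Av.mpr ⟨e.2, hv⟩⟩ i q := by
  classical
  rw [val_apply, val_apply, LinearMap.comp_apply]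
  congr 1
  funext e'
  by_cases h : e' = ⟨e.1, mem_Av.mpr ⟨e.2, hv⟩⟩
  · subst h
    rw [Pi.single_eq_same]
    exact Pi.single_eq_same (M := fun e : A => Fin (degree K e.1) →
      restrictTotalDegree (Fin 3) ℝ d) e (Pi.single i q)
  · rw [Pi.single_eq_of_ne h]
    change (Pi.single e (Pi.single i q) : Z2_42.VA K A d) ⟨e'.1, _⟩ = _
    rw [Pi.single_eq_of_ne]
    intro h'
    have h'' := congrArg Subtype.val h'
    exact h (Subtype.ext h'')

theorem val_res_zero {v : Fin N} (ψ : Module.Dual ℝ (Z2_42.VA K (Av A v) d)) (e : A)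
    (i : Fin (degree K e.1)) (q : restrictTotalDegree (Fin 3) ℝ d) (hv : v ∉ e.1) :
    val (ψ ∘ₗ res K A v d) e i q = 0 := by
  classical
  rw [val_apply, LinearMap.comp_apply]
  have : res K A v d (Pi.single e (Pi.single i q)) = 0 := by
    funext e'
    change (Pi.single e (Pi.single i q) : Z2_42.VA K A d) ⟨e'.1, _⟩ = _
    rw [Pi.single_eq_of_ne]
    · rfl
    · intro h'
      apply hv
      rw [← congrArg Subtype.val h']
      exact (mem_Av.mp e'.2).2
  rw [this, map_zero]

theorem val_cut (cut : Fin N → Finset (Fin N) → (restrictTotalDegree (Fin 3) ℝ d →ₗ[ℝ]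
      restrictTotalDegree (Fin 3) ℝ d)) {v : Fin N} (ψ : Module.Dual ℝ (Z2_42.VA K A d))
    (e : A) (i : Fin (degree K e.1)) (q : restrictTotalDegree (Fin 3) ℝ d) (hv : v ∈ e.1) :
    val (ψ ∘ₗ CC K A cut v) ⟨e.1, mem_Av.mpr ⟨e.2, hv⟩⟩ i q = val ψ e i (cut v e.1 q) := by
  classical
  rw [val_apply, val_apply, LinearMap.comp_apply]
  congr 1
  funext e'
  by_cases h : e' = e
  · subst h
    rw [Pi.single_eq_same]
    funext j
    rw [CC_apply, dif_pos hv, Pi.single_eq_same]
    by_cases hj : j = i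
    · subst hj
      rw [Pi.single_eq_same, Pi.single_eq_same]
    · rw [Pi.single_eq_of_ne hj, Pi.single_eq_of_ne hj, map_zero]
  · rw [Pi.single_eq_of_ne h]
    funext j
    rw [CC_apply]
    by_cases hv' : v ∈ e'.1
    · rw [dif_pos hv', Pi.single_eq_of_ne]
      · rw [Pi.zero_apply, map_zero]
      · intro h'
        have h'' := congrArg Subtype.val h'
        exact h (Subtype.ext h'')
    · rw [dif_neg hv']
      rfl

/-- The defect is the sum of the defects at the vertices. -/
theorem finrank_loc (hK : StK) (hK3 : StK3) (hTL : StTL) (hF : StF) (hF3 : StF3)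
    (hA : A ⊆ interiorFaces K 2) (hp : WR K p) (hcyc : Nice K cyc)
    (hdist : ∀ e ∈ A, DistinctAt K p e) (hFF : FF K A) (hd : 6 * r ≤ d) :
    Module.finrank ℝ (BB K A cyc p r d) =
      ∑ v : Fin N, Module.finrank ℝ (BB K (Av A v) cyc p r d) := by
  classical
  obtain ⟨cut, hcut⟩ := exists_cuts (cyc := cyc) hTL hF hA hp hcyc hdist hd
  have hends : ∀ e : A, ∃ a b : Fin N, a ∈ e.1 ∧ b ∈ e.1 ∧ a ≠ b ∧ e.1 = {a, b} := by
    intro e
    obtain ⟨a, b, hab, he⟩ := Finset.card_eq_two.mp (card_edge (hA e.2))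
    exact ⟨a, b, by rw [he]; simp, by rw [he]; simp, hab, he⟩
  have i1 : ∀ v : Fin N, Module.Free ℝ (BB K (Av A v) cyc p r d) := fun v =>
    free_dual _
  have i2 : ∀ v : Fin N, Module.Finite ℝ (BB K (Av A v) cyc p r d) := fun v =>
    inferInstance
  rw [← Module.finrank_pi_fintype]
  apply le_antisymm
  · -- the cut-off
    let F : BB K A cyc p r d →ₗ[ℝ] (∀ v : Fin N, BB K (Av A v) cyc p r d) :=
      { toFun := fun ψ v => ⟨ψ.1 ∘ₗ CC K A cut v,
          cut_mem hK hK3 hTL hF3 hA hp hcyc hdist hFF hd hcut ψ.2 v⟩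
        map_add' := fun ψ ψ' => by
          funext v
          exact Subtype.ext (LinearMap.add_comp _ _ _)
        map_smul' := fun c ψ => by
          funext v
          exact Subtype.ext (LinearMap.smul_comp _ _ _) }
    refine LinearMap.finrank_le_finrank_of_injective (f := F) ?_
    rw [injective_iff_map_eq_zero]
    intro ψ hψ
    apply Subtype.ext
    refine ext_val fun e i q => ?_
    obtain ⟨a, b, ha, hb, hab, -⟩ := hends e
    have h0 : ∀ v, ∀ hv : v ∈ e.1, val ψ.1 e i (cut v e.1 q) = 0 := by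
      intro v hv
      have h1 : ψ.1 ∘ₗ CC K A cut v = 0 := congrArg Subtype.val (congrFun hψ v)
      rw [← val_cut cut ψ.1 e i q hv, h1, val_apply]
      rfl
    have h1 : q = cut a e.1 q + cut b e.1 q + (q - cut a e.1 q - cut b e.1 q) := by abel
    have h2 : val ψ.1 e i (q - cut a e.1 q - cut b e.1 q) = 0 := by
      refine kill hK hK3 hA hp hcyc hdist hFF hd ψ.2 e i ha hb hab _ ?_ ?_
      · have h6 : (q - cut a e.1 q - cut b e.1 q).1 = (q - cut a e.1 q).1 +
            -(cut b e.1 q).1 := by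
          change q.1 - (cut a e.1 q).1 - (cut b e.1 q).1 = (q.1 - (cut a e.1 q).1) + _
          ring
        rw [h6]
        exact Chain.ord_add (hcut.near _ e.2 a ha q)
          (Chain.ord_neg (hcut.far _ e.2 b hb a ha hab.symm q))
      · have h6 : (q - cut a e.1 q - cut b e.1 q).1 = (q - cut b e.1 q).1 +
            -(cut a e.1 q).1 := by
          change q.1 - (cut a e.1 q).1 - (cut b e.1 q).1 = (q.1 - (cut b e.1 q).1) + _
          ring
        rw [h6]
        exact Chain.ord_add (hcut.near _ e.2 b hb q)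
          (Chain.ord_neg (hcut.far _ e.2 a ha b hb hab q))
    have h3 : val (0 : Module.Dual ℝ (Z2_42.VA K A d)) e i q = 0 := rfl
    rw [h1, map_add, map_add, h0 a ha, h0 b hb, h2, add_zero, add_zero]
    exact h3.symm
  · -- the sum
    let G : (∀ v : Fin N, BB K (Av A v) cyc p r d) →ₗ[ℝ] BB K A cyc p r d :=
      { toFun := fun ψ => ⟨∑ v, (ψ v).1 ∘ₗ res K A v d,
          Submodule.sum_mem _ fun v _ => res_mem (ψ v).2⟩
        map_add' := fun ψ ψ' => by
          apply Subtype.ext
          change ∑ v, ((ψ v).1 + (ψ' v).1) ∘ₗ res K A v d = _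
          simp only [LinearMap.add_comp, Finset.sum_add_distrib]
          rfl
        map_smul' := fun c ψ => by
          apply Subtype.ext
          change ∑ v, (c • (ψ v).1) ∘ₗ res K A v d = c • ∑ v, (ψ v).1 ∘ₗ res K A v d
          rw [Finset.smul_sum]
          rfl }
    refine LinearMap.finrank_le_finrank_of_injective (f := G) ?_
    rw [injective_iff_map_eq_zero]
    intro ψ hψ
    have hψ0 : ∑ v, (ψ v).1 ∘ₗ res K A v d = 0 := congrArg Subtype.val hψ
    have hsum : ∀ (e : A) (i : Fin (degree K e.1)) (q : restrictTotalDegree (Fin 3) ℝ d)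
        (a b : Fin N) (ha : a ∈ e.1) (hb : b ∈ e.1), a ≠ b → e.1 = {a, b} →
        val (ψ a).1 ⟨e.1, mem_Av.mpr ⟨e.2, ha⟩⟩ i q +
          val (ψ b).1 ⟨e.1, mem_Av.mpr ⟨e.2, hb⟩⟩ i q = 0 := by
      intro e i q a b ha hb hab he
      have h1 : ∑ v, val ((ψ v).1 ∘ₗ res K A v d) e i q = 0 := by
        have := LinearMap.congr_fun hψ0 (Pi.single e (Pi.single i q))
        rw [LinearMap.sum_apply] at this
        exact this
      rw [Fintype.sum_eq_add a b hab] at h1
      · rw [val_res _ e i q ha, val_res _ e i q hb] at h1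
        exact h1
      · rintro v ⟨hva, hvb⟩
        apply val_res_zero
        rw [he, Finset.mem_insert, Finset.mem_singleton]
        rintro (h | h)
        · exact hva h
        · exact hvb h
    -- a local functional kills everything of high order at its vertex
    have hlocal : ∀ (e : A) (i : Fin (degree K e.1)) (q : restrictTotalDegree (Fin 3) ℝ d)
        (a b : Fin N) (ha : a ∈ e.1) (hb : b ∈ e.1), a ≠ b →
        Ord (p a) (2 * r) q.1 →
        val (ψ a).1 ⟨e.1, mem_Av.mpr ⟨e.2, ha⟩⟩ i q = 0 := by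
      intro e i q a b ha hb hab hq
      refine kill1 hK ((Av_sub A a).trans hA) hp hcyc
        (fun e' he' => hdist e' (Av_sub A a he')) (hFF.mono (Av_sub A a)) (ψ a).2
        ⟨e.1, mem_Av.mpr ⟨e.2, ha⟩⟩ i hb ha hab.symm ?_ q hq
      intro e' he' hne hbe hs
      apply hne
      have hae := (mem_Av.mp he').2
      have k1 : ({a, b} : Finset (Fin N)) = e' := Finset.eq_of_subset_of_card_le (by
        intro y hy
        rw [Finset.mem_insert, Finset.mem_singleton] at hy
        rcases hy with rfl | rfl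
        · exact hae
        · exact hbe) (by rw [card_edge (hA (Av_sub A a he')), Finset.card_pair hab])
      have k2 : ({a, b} : Finset (Fin N)) = e.1 := Finset.eq_of_subset_of_card_le (by
        intro y hy
        rw [Finset.mem_insert, Finset.mem_singleton] at hy
        rcases hy with rfl | rfl
        · exact ha
        · exact hb) (by rw [card_edge (hA e.2), Finset.card_pair hab])
      exact k1.symm.trans k2
    funext v
    apply Subtype.ext
    refine ext_val fun e i q => ?_
    have heA := Av_sub A v e.2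
    have hve := (mem_Av.mp e.2).2
    obtain ⟨b, hb, hbv⟩ := Finset.exists_mem_ne
      (by rw [card_edge (hA heA)]; norm_num) v (s := e.1)
    have hset : e.1 = {v, b} := by
      refine (Finset.eq_of_subset_of_card_le (by
        intro y hy
        rw [Finset.mem_insert, Finset.mem_singleton] at hy
        rcases hy with rfl | rfl
        · exact hve
        · exact hb) (by rw [card_edge (hA heA), Finset.card_pair hbv.symm])).symm
    have h1 : q = (q - cut v e.1 q) + cut v e.1 q := by abel
    have h2 := hlocal ⟨e.1, heA⟩ i (q - cut v e.1 q) v b hve hb hbv.symm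
      (hcut.near _ heA v hve q)
    have h3 := hsum ⟨e.1, heA⟩ i (cut v e.1 q) v b hve hb hbv.symm hset
    have h4 := hlocal ⟨e.1, heA⟩ i (cut v e.1 q) b v hb hve hbv
      (hcut.far _ heA v hve b hb hbv.symm q)
    rw [h4, add_zero] at h3
    have h5 : val (ψ v).1 e i q = 0 := by
      rw [h1, map_add]
      have h2' : val (ψ v).1 e i (q - cut v e.1 q) = 0 := h2
      have h3' : val (ψ v).1 e i (cut v e.1 q) = 0 := h3
      rw [h2', h3', add_zero]
    rw [h5]
    rfl

end Pool.Agent.Lib.MP_d2a91d_an.Loc
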