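import Pool.Agent.Lib.MP_d2a91d_an.Loc4
import Pool.Agent.Lib.MP_d2a91d_an.Chain5

namespace Pool.Agent.Lib.MP_d2a91d_an.Loc

open MvPolynomial

variable {N : ℕ} {K A : Finset (Finset (Fin N))} {p : Fin N → Fin 3 → ℝ}
  {cyc : Finset (Fin N) → ℕ → Finset (Fin N)} {r d : ℕ}

/-- Two free triangles at every edge are enough. -/
theorem FF_of_two (h : ∀ e ∈ A, 2 ≤ (free K A e).card) : FF K A := by
  refine ⟨fun e he => ?_, fun e he e' he' => ?_, fun f _ _ e he _ => h e he⟩
  · have := h e he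
    omega
  · have h1 := h e he
    have h2 := h e' (Finset.mem_filter.mp he').1
    omega

/-- The triangles at `e`. -/
theorem card_free (hcard : ∀ t ∈ K, t.card = 4) (hcyc : Nice K cyc)
    {e : Finset (Fin N)} (he : e ∈ interiorFaces K 2) :
    ((faces K 3).filter (fun f => e ⊆ f)).card = degree K e := by
  classical
  apply le_antisymm (Chain.card_tri_le hcard hcyc he)
  have h1 : ((Finset.range (degree K e)).image (fun i => fi cyc e i)).card = degree K e := by
    rw [Finset.card_image_of_injOn, Finset.card_range]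
    intro i hi j hj hij
    exact fi_inj hcard hcyc he (Finset.mem_range.mp (Finset.mem_coe.mp hi))
      (Finset.mem_range.mp (Finset.mem_coe.mp hj)) hij
  conv_lhs => rw [← h1]
  apply Finset.card_le_card
  intro f hf
  obtain ⟨i, hi, rfl⟩ := Finset.mem_image.mp hf
  have hi' := Finset.mem_range.mp hi
  exact Finset.mem_filter.mpr ⟨(mem_interiorFaces.mp (fi_mem hcard hcyc he hi')).1,
    sub_fi hcyc he hi'⟩

/-- One neighbour at each end, and no two adjacent edges of degree three. -/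
theorem FF_of_chain (hcard : ∀ t ∈ K, t.card = 4) (hcyc : Nice K cyc)
    (hA : A ⊆ interiorFaces K 2)
    (h1 : ∀ e ∈ A, ∀ v ∈ e, ((partnersIn K A e).filter (fun e' => v ∈ e')).card ≤ 1)
    (h3 : ∀ e ∈ A, ∀ e' ∈ partnersIn K A e, ¬ (degree K e = 3 ∧ degree K e' = 3)) :
    FF K A := by
  classical
  -- the triangles that are not free
  have key : ∀ e ∈ A, ∀ T : Finset (Finset (Fin N)),
      (∀ f ∈ faces K 3, e ⊆ f → f ∉ free K A e → f ∈ T) → degree K e ≤
        (free K A e).card + T.card := by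
    intro e he T hT
    rw [← card_free hcard hcyc (hA he)]
    refine (Finset.card_le_card ?_).trans (Finset.card_union_le (free K A e) T)
    intro f hf
    obtain ⟨h4, h5⟩ := Finset.mem_filter.mp hf
    by_cases h6 : f ∈ free K A e
    · exact Finset.mem_union_left _ h6
    · exact Finset.mem_union_right _ (hT f h4 h5 h6)
  have hnf : ∀ e ∈ A, ∀ f ∈ faces K 3, e ⊆ f → f ∉ free K A e →
      ∃ e' ∈ partnersIn K A e, e' ⊆ f ∧ ∃ v ∈ e, v ∈ e' := by
    intro e he f hf hef hn
    have : ¬ ∀ e' ∈ A, e' ⊆ f → e' = e := fun h => hn (Finset.mem_filter.mpr ⟨hf, hef, h⟩)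
    push Not at this
    obtain ⟨e', he', hs, hne⟩ := this
    refine ⟨e', Finset.mem_filter.mpr ⟨he', hne.symm, f, hf, hef, hs⟩, hs, ?_⟩
    exact Chain.common (mem_faces.mp hf).1 (card_edge (hA he)) (card_edge (hA he')) hef hs
  have huniq : ∀ e ∈ A, ∀ v ∈ e, ∀ e' ∈ partnersIn K A e, ∀ e'' ∈ partnersIn K A e, v ∈ e' →
      v ∈ e'' → e' = e'' := fun e he v hv e' he' e'' he'' hv' hv'' =>
    Finset.card_le_one.mp (h1 e he v hv) e' (Finset.mem_filter.mpr ⟨he', hv'⟩) e''
      (Finset.mem_filter.mpr ⟨he'', hv''⟩)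
  have hun : ∀ e ∈ A, ∀ e' ∈ partnersIn K A e, ∀ f ∈ faces K 3, e ⊆ f → e' ⊆ f → f = e ∪ e' := by
    intro e he e' he' f hf h4 h5
    exact (union_eq (card_edge (hA he)) (card_edge (hA (Finset.mem_filter.mp he').1))
      (mem_faces.mp hf).1 (Finset.mem_filter.mp he').2.1 h4 h5).symm
  -- at most two are not free
  have htwo : ∀ e ∈ A, degree K e ≤ (free K A e).card + 2 := by
    intro e he
    obtain ⟨a, b, hab, heab⟩ := Finset.card_eq_two.mp (card_edge (hA he))
    have hT : ((faces K 3).filter (fun f => e ⊆ f ∧ f ∉ free K A e)).card ≤ 2 := by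
      by_contra hc
      push Not at hc
      obtain ⟨f1, f2, f3, m1, m2, m3, n12, n13, n23⟩ := Finset.two_lt_card_iff.mp hc
      obtain ⟨p1, q1, s1⟩ := Finset.mem_filter.mp m1
      obtain ⟨p2, q2, s2⟩ := Finset.mem_filter.mp m2
      obtain ⟨p3, q3, s3⟩ := Finset.mem_filter.mp m3
      obtain ⟨e1, g1, t1, v1, w1, x1⟩ := hnf e he f1 p1 q1 s1
      obtain ⟨e2, g2, t2, v2, w2, x2⟩ := hnf e he f2 p2 q2 s2
      obtain ⟨e3, g3, t3, v3, w3, x3⟩ := hnf e he f3 p3 q3 s3
      have u1 := hun e he e1 g1 f1 p1 q1 t1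
      have u2 := hun e he e2 g2 f2 p2 q2 t2
      have u3 := hun e he e3 g3 f3 p3 q3 t3
      have c12 : v1 ≠ v2 := fun h => n12 (by
        rw [u1, u2, huniq e he v1 w1 e1 g1 e2 g2 x1 (h ▸ x2)])
      have c13 : v1 ≠ v3 := fun h => n13 (by
        rw [u1, u3, huniq e he v1 w1 e1 g1 e3 g3 x1 (h ▸ x3)])
      have c23 : v2 ≠ v3 := fun h => n23 (by
        rw [u2, u3, huniq e he v2 w2 e2 g2 e3 g3 x2 (h ▸ x3)])
      have c5 : ({v1, v2, v3} : Finset (Fin N)) ⊆ e := by
        intro z hz
        rw [Finset.mem_insert, Finset.mem_insert, Finset.mem_singleton] at hz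
        rcases hz with rfl | rfl | rfl
        · exact w1
        · exact w2
        · exact w3
      have c6 := Finset.card_le_card c5
      rw [card_edge (hA he), Finset.card_insert_of_notMem (by
        rw [Finset.mem_insert, Finset.mem_singleton]
        rintro (h | h)
        · exact c12 h
        · exact c13 h), Finset.card_pair c23] at c6
      omega
    have := key e he ((faces K 3).filter (fun f => e ⊆ f ∧ f ∉ free K A e))
      (fun f hf h4 h5 => Finset.mem_filter.mpr ⟨hf, h4, h5⟩)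
    omega
  refine ⟨fun e he => ?_, fun e he e' he' => ?_, fun f hf hc e he hef => ?_⟩
  · have h4 := htwo e he
    have h5 := hcyc.three e (hA he)
    omega
  · have he'A := (Finset.mem_filter.mp he').1
    have h4 := htwo e he
    have h5 := hcyc.three e (hA he)
    have h6 := htwo e' he'A
    have h7 := hcyc.three e' (hA he'A)
    have h8 := h3 e he e' he'
    omega
  · -- a triangle with three edges: the only one that is not free
    have hone : ((faces K 3).filter (fun f => e ⊆ f ∧ f ∉ free K A e)).card ≤ 1 := by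
      rw [Finset.card_le_one]
      have hall : ∀ f' ∈ (faces K 3).filter (fun f => e ⊆ f ∧ f ∉ free K A e), f' = f := by
        intro f' hf'
        obtain ⟨p1, q1, s1⟩ := Finset.mem_filter.mp hf'
        obtain ⟨e1, g1, t1, v1, w1, x1⟩ := hnf e he f' p1 q1 s1
        -- an edge of `f` at `v1` in `A`, different from `e`
        obtain ⟨b1, b2, m1, m2, hb⟩ : ∃ b1 b2, b1 ∈ (A.filter (fun e => e ⊆ f)).erase e ∧
            b2 ∈ (A.filter (fun e => e ⊆ f)).erase e ∧ b1 ≠ b2 := by
          have : 1 < ((A.filter (fun e => e ⊆ f)).erase e).card := by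
            rw [Finset.card_erase_of_mem (Finset.mem_filter.mpr ⟨he, hef⟩)]
            omega
          obtain ⟨b1, b2, m1, m2, hb⟩ := Finset.one_lt_card_iff.mp this
          exact ⟨b1, b2, m1, m2, hb⟩
        rw [Finset.mem_erase, Finset.mem_filter] at m1 m2
        have hv : v1 ∈ b1 ∨ v1 ∈ b2 := Chain.third (mem_faces.mp hf).1 (hef w1)
          (card_edge (hA m1.2.1)) (card_edge (hA m2.2.1)) m1.2.2 m2.2.2 hb
        have hcase : ∀ b, b ≠ e → b ∈ A → b ⊆ f → v1 ∈ b → f' = f := by
          intro b n1 n2 n3 n4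
          have hbp : b ∈ partnersIn K A e := Finset.mem_filter.mpr ⟨n2, n1.symm, f, hf, hef, n3⟩
          have : e1 = b := huniq e he v1 w1 e1 g1 b hbp x1 n4
          rw [hun e he e1 g1 f' p1 q1 t1, hun e he b hbp f hf hef n3, this]
        rcases hv with hv | hv
        · exact hcase b1 m1.1 m1.2.1 m1.2.2 hv
        · exact hcase b2 m2.1 m2.2.1 m2.2.2 hv
      intro x hx y hy
      rw [hall x hx, hall y hy]
    have h4 := key e he ((faces K 3).filter (fun f => e ⊆ f ∧ f ∉ free K A e))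
      (fun f hf h4 h5 => Finset.mem_filter.mpr ⟨hf, h4, h5⟩)
    have h5 := hcyc.three e (hA he)
    omega

/-- The rank at a set with local cores. -/
theorem rank_local (hK : StK) (hK3 : StK3) (hTL : StTL) (hF : StF) (hF3 : StF3)
    (hR1 : StR1) (hLP : StLP) (hZ2 : StZ2)
    (hA : A ⊆ interiorFaces K 2) (hp : WR K p) (hcyc : Nice K cyc)
    (hdist : ∀ e ∈ A, DistinctAt K p e) (hFF : FF K A) (hd : 6 * r ≤ d)
    (C : Fin N → Finset (Finset (Fin N))) (lvl : Fin N → Finset (Fin N) → ℕ)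
    (hC : ∀ v, C v ⊆ Av A v) (hCm : ∀ v, ∀ e ∈ C v, (partnersIn K (C v) e).card ≤ 1)
    (hloc : ∀ v, ∀ e ∈ Av A v, e ∉ C v → min (r + 2) (degree K e) ≤
      ((faces K 3).filter (fun f => e ⊆ f ∧ ∀ e' ∈ Av A v, e' ⊆ f → e' = e ∨
        (e' ∉ C v ∧ lvl v e' < lvl v e))).card) :
    2 * Module.finrank ℝ (LinearMap.range (PTB K cyc p r d A)) +
      ∑ v : Fin N, ∑ e ∈ C v, ∑ e' ∈ partnersIn K (C v) e,
        mu (degree K e) (degree K e') r d =
    2 * ∑ e ∈ A, lam (degree K e) r d := by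
  have hv : ∀ v : Fin N, 2 * Module.finrank ℝ (BB K (Av A v) cyc p r d) =
      ∑ e ∈ C v, ∑ e' ∈ partnersIn K (C v) e, mu (degree K e) (degree K e') r d := by
    intro v
    have hAv := (Av_sub A v).trans hA
    have hdv : ∀ e ∈ Av A v, DistinctAt K p e := fun e he => hdist e (Av_sub A v he)
    have a1 := hR1 N K cyc p r d (Av A v) hp hcyc hAv hdv
    have a2 := hLP N K cyc p r d (Av A v) (C v) (lvl v) hp hcyc hAv (hC v) hdv (hloc v)
    have a3 := hZ2 N K cyc p r d (C v) hp hcyc ((hC v).trans hAv)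
      (fun e he => hdv e (hC v he)) (hCm v)
    have a4 := Finset.sum_sdiff (hC v) (f := fun e => lam (degree K e) r d)
    beta_reduce at a4
    omega
  have b1 := hR1 N K cyc p r d A hp hcyc hA hdist
  have b2 := finrank_loc hK hK3 hTL hF hF3 hA hp hcyc hdist hFF hd
  have b3 : ∑ v : Fin N, ∑ e ∈ C v, ∑ e' ∈ partnersIn K (C v) e,
      mu (degree K e) (degree K e') r d =
      2 * ∑ v : Fin N, Module.finrank ℝ (BB K (Av A v) cyc p r d) := by
    rw [Finset.mul_sum]
    exact Finset.sum_congr rfl fun v _ => (hv v).symm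
  rw [b3, ← b2]
  omega

end Pool.Agent.Lib.MP_d2a91d_an.Loc
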