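import Pool.Agent.Lib.MP_d2a91d_an.Loc5

namespace Pool.Agent.Lib.MP_d2a91d_an.Loc

open MvPolynomial

/-- All the rows. -/
structure Rows : Prop where
  K : StK
  K3 : StK3
  TL : StTL
  F : StF
  F3 : StF3
  R1 : StR1
  LP : StLP
  Z2 : StZ2
  Z1 : StZ1

variable {N : ℕ} {K A : Finset (Finset (Fin N))} {p : Fin N → Fin 3 → ℝ}
  {cyc : Finset (Fin N) → ℕ → Finset (Fin N)} {r d : ℕ}

/-- The combinatorial hypotheses. -/
structure Hyp (K A : Finset (Finset (Fin N))) (r : ℕ) (lv : Finset (Fin N) → ℕ)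
    (C : Fin N → Finset (Finset (Fin N))) (lvl : Fin N → Finset (Fin N) → ℕ) : Prop where
  sub : A ⊆ interiorFaces K 2
  peel : ∀ e ∈ interiorFaces K 2, e ∉ A → min (r + 2) (degree K e) ≤
      ((faces K 3).filter (fun f => e ⊆ f ∧ ∀ e' ∈ interiorFaces K 2, e' ⊆ f → e' = e ∨
        (e' ∉ A ∧ lv e' < lv e))).card
  ff : FF K A
  C_sub : ∀ v, C v ⊆ Av A v
  C_one : ∀ v, ∀ e ∈ C v, (partnersIn K (C v) e).card ≤ 1
  loc : ∀ v, ∀ e ∈ Av A v, e ∉ C v → min (r + 2) (degree K e) ≤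
      ((faces K 3).filter (fun f => e ⊆ f ∧ ∀ e' ∈ Av A v, e' ⊆ f → e' = e ∨
        (e' ∉ C v ∧ lvl v e' < lvl v e))).card

variable {lv : Finset (Fin N) → ℕ} {C : Fin N → Finset (Finset (Fin N))}
  {lvl : Fin N → Finset (Fin N) → ℕ}

theorem rank_loc (R : Rows) (H : Hyp K A r lv C lvl) (hp : WR K p) (hcyc : Nice K cyc)
    (hdist : ∀ e ∈ interiorFaces K 2, DistinctAt K p e) (hd : 6 * r ≤ d) :
    2 * Module.finrank ℝ (LinearMap.range (PT K cyc p r d)) +
      ∑ v : Fin N, ∑ e ∈ C v, ∑ e' ∈ partnersIn K (C v) e,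
        mu (degree K e) (degree K e') r d =
    2 * ∑ e ∈ interiorFaces K 2, lam (degree K e) r d := by
  have h2 := rank_peel R.Z1 hp hcyc hdist H.sub lv r d H.peel
  have h3 := rank_local R.K R.K3 R.TL R.F R.F3 R.R1 R.LP R.Z2 H.sub hp hcyc
    (fun e he => hdist e (H.sub he)) H.ff hd C lvl H.C_sub H.C_one H.loc
  have h4 := Finset.sum_sdiff H.sub (f := fun e => lam (degree K e) r d)
  rw [h2, ← h4]
  omega

theorem rank_loc_le (R : Rows) (H : Hyp K A r lv C lvl) (hcard : ∀ t ∈ K, t.card = 4)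
    (hcyc : Nice K cyc) (p : Fin N → Fin 3 → ℝ) (hd : 6 * r ≤ d) :
    2 * Module.finrank ℝ (LinearMap.range (PT K cyc p r d)) +
      ∑ v : Fin N, ∑ e ∈ C v, ∑ e' ∈ partnersIn K (C v) e,
        mu (degree K e) (degree K e') r d ≤
    2 * ∑ e ∈ interiorFaces K 2, lam (degree K e) r d := by
  have e1 := U79.stU1_79 N K cyc p (mc N) r d
  have e2 : ∀ᶠ s in nhdsWithin (0 : ℝ) {0}ᶜ, ∀ t ∈ K,
      AffineIndependent ℝ (fun i : t => ln p (mc N) s i) := by
    rw [Filter.eventually_all_finset]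
    intro t ht
    exact U2_42.stU2_42 N t p (mc N) ((wr_mc U5_42.stU5_42 hcard).nondeg t ht)
  have e3 : ∀ᶠ s in nhdsWithin (0 : ℝ) {0}ᶜ, ∀ e ∈ interiorFaces K 2, ∀ f ∈ faces K 3,
      ∀ g ∈ faces K 3, e ⊆ f → e ⊆ g → f ≠ g →
        AffineIndependent ℝ (fun i : (f ∪ g : Finset (Fin N)) => ln p (mc N) s i) := by
    rw [Filter.eventually_all_finset]
    intro e he
    rw [Filter.eventually_all_finset]
    intro f hf
    rw [Filter.eventually_all_finset]
    intro g hg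
    by_cases h : e ⊆ f ∧ e ⊆ g ∧ f ≠ g
    · filter_upwards [U2_42.stU2_42 N (f ∪ g) p (mc N)
        (dist_mc U5_42.stU5_42 e he f hf g hg h.1 h.2.1 h.2.2)] with s hs
      exact fun _ _ _ => hs
    · exact Filter.Eventually.of_forall fun s h1 h2 h3 => absurd ⟨h1, h2, h3⟩ h
  obtain ⟨s, k1, k2, k3⟩ := (e1.and (e2.and e3)).exists
  have h4 := rank_loc R H (p := ln p (mc N) s) ⟨hcard, k2⟩ hcyc k3 hd
  omega

/-- The exact dimension at every realisation with distinct planes. -/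
theorem pos_loc (R : Rows) (H : Hyp K A r lv C lvl) (hne : K.Nonempty) (hcyc : Nice K cyc)
    (hd : 6 * r ≤ d) (hp : Realises K p)
    (hdist : ∀ e ∈ interiorFaces K 2, DistinctAt K p e) :
    2 * (Module.finrank ℝ (Spline r (d + r + 1) K p) +
        ∑ e ∈ interiorFaces K 2, lam (degree K e) r d) =
      2 * ((d + r + 4).choose 3 + (interiorFaces K 3).card * (d + 3).choose 3) +
        ∑ v : Fin N, ∑ e ∈ C v, ∑ e' ∈ partnersIn K (C v) e,
          mu (degree K e) (degree K e') r d := by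
  have a3 := dim_rank hne hcyc r d hp
  have a4 := rank_loc R H hp.wr hcyc hdist hd
  omega

/-- The exact generic dimension. -/
theorem gen_loc (hU4a : StU4a) (hU4b : StU4b) (R : Rows) (H : Hyp K A r lv C lvl)
    (hne : K.Nonempty) (hcyc : Nice K cyc) (hd : 6 * r ≤ d) (h : ∃ p, Realises K p) :
    2 * (genDim r (d + r + 1) K + ∑ e ∈ interiorFaces K 2, lam (degree K e) r d) =
      2 * ((d + r + 4).choose 3 + (interiorFaces K 3).card * (d + 3).choose 3) +
        ∑ v : Fin N, ∑ e ∈ C v, ∑ e' ∈ partnersIn K (C v) e,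
          mu (degree K e) (degree K e') r d := by
  obtain ⟨p1, hp1, hd1⟩ := exists_distinct U2_42.stU2_42 hU4a hU4b U5_42.stU5_42 h
  obtain ⟨p0, hp0, hg⟩ := genDim_spec r (d + r + 1) h
  have a1 := dim_rank hne hcyc r d hp0
  have a2 := rank_loc_le R H hp0.card hcyc p0 hd
  have a3 := pos_loc R H hne hcyc hd hp1 hd1
  have a5 := genDim_le r (d + r + 1) hp1
  rw [← hg] at a1
  omega

end Pool.Agent.Lib.MP_d2a91d_an.Loc
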