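import Pool.Agent.Lib.MP_d2a91d_an.L_79
import Pool.Agent.Lib.MP_d2a91d_an.DefsMu

namespace Pool.Agent.Lib.MP_d2a91d_an

open MvPolynomial

/-- The possible `i`-th entries of the relations: `{q_i : ∑ l_j^(r+1) q_j = 0}`. -/
noncomputable def entry (r d : ℕ) {n : ℕ} (l : Fin n → MvPolynomial (Fin 3) ℝ) (i : Fin n) :
    Submodule ℝ (restrictTotalDegree (Fin 3) ℝ d) :=
  (LinearMap.ker (Phi r d l)).map (LinearMap.proj i)

/-- The planes `l i` contain the line through `a`, `b`, are pairwise different and nonzero. -/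
structure Pencil {n : ℕ} (l : Fin n → MvPolynomial (Fin 3) ℝ) (a b : Fin 3 → ℝ) : Prop where
  deg : ∀ i, (l i).totalDegree ≤ 1
  van : ∀ i, eval a (l i) = 0 ∧ eval b (l i) = 0
  dist : ¬ ∃ i j : Fin n, i ≠ j ∧ ∃ c c' : ℝ, c ≠ 0 ∧ c • l i = c' • l j
  ne : ∀ i, l i ≠ 0

/-- (P) MAIN ROW. Two pencils with a common plane, through two lines that meet in `a`. -/
def StP : Prop := ∀ (n n' r d : ℕ) (l : Fin n → MvPolynomial (Fin 3) ℝ)
  (l' : Fin n' → MvPolynomial (Fin 3) ℝ) (i : Fin n) (j : Fin n') (a b b' : Fin 3 → ℝ),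
  Pencil l a b → Pencil l' a b' → 3 ≤ n → 3 ≤ n' → l i = l' j →
  AffineIndependent ℝ ![a, b, b'] →
  Module.finrank ℝ (restrictTotalDegree (Fin 3) ℝ d) =
    Module.finrank ℝ (entry r d l i ⊔ entry r d l' j : Submodule ℝ _) + mu n n' r d

/-! Sub-rows of (P). -/

/-- The homogeneous form of `u` (of degree `s`) in the variables `X v`, `X 2`. -/
noncomputable def hg (v : Fin 3) (u : Polynomial ℝ) (s : ℕ) : MvPolynomial (Fin 3) ℝ :=
  ∑ k ∈ Finset.range (s + 1), C (u.coeff k) * X v ^ k * X 2 ^ (s - k)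

/-- the index set -/
abbrev I3 (d : ℕ) : Type := {x : Fin (d + 1) × Fin (d + 1) × Fin (d + 1) //
  (x.1 : ℕ) + x.2.1 + x.2.2 ≤ d}

/-- the elements `z^c U_s(y,z) U'_t(x,z)` -/
noncomputable def bb (d : ℕ) (u u' : ℕ → Polynomial ℝ) (x : I3 d) : MvPolynomial (Fin 3) ℝ :=
  X 2 ^ (x.1.2.2 : ℕ) * hg 1 (u x.1.1) x.1.1 * hg 0 (u' x.1.2.1) x.1.2.1

/-- (P2) They form a basis of the polynomials of total degree at most `d`. -/
def StP2 : Prop := ∀ (d : ℕ) (u u' : ℕ → Polynomial ℝ),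
  (∀ s, u s ≠ 0 ∧ (u s).natDegree = s) → (∀ s, u' s ≠ 0 ∧ (u' s).natDegree = s) →
  LinearIndependent ℝ (bb d u u') ∧
    Submodule.span ℝ (Set.range (bb d u u')) = restrictTotalDegree (Fin 3) ℝ d

/-- (P3) Normal form of two pencils. -/
def StP3 : Prop := ∀ (n n' : ℕ) (l : Fin n → MvPolynomial (Fin 3) ℝ)
  (l' : Fin n' → MvPolynomial (Fin 3) ℝ) (i : Fin n) (j : Fin n') (a b b' : Fin 3 → ℝ),
  Pencil l a b → Pencil l' a b' → 2 ≤ n → 2 ≤ n' → l i = l' j →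
  AffineIndependent ℝ ![a, b, b'] →
  ∃ (o : Fin 3 → ℝ) (A : Matrix (Fin 3) (Fin 3) ℝ) (hA : IsUnit A.det) (α β : Fin n → ℝ)
    (α' β' : Fin n' → ℝ),
    affE o A hA (l i) = X 2 ∧
    (∀ k, k ≠ i → α k ≠ 0 ∧ affE o A hA (l k) = C (α k) * (X 1 - C (β k) * X 2)) ∧
    (∀ k, k ≠ j → α' k ≠ 0 ∧ affE o A hA (l' k) = C (α' k) * (X 0 - C (β' k) * X 2)) ∧
    (∀ k k', k ≠ i → k' ≠ i → β k = β k' → k = k') ∧
    (∀ k k', k ≠ j → k' ≠ j → β' k = β' k' → k = k')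

/-- (P4) Counting. -/
def StP4 : Prop := ∀ (n r d : ℕ), 3 ≤ n →
  lam n r d = lam (n - 1) r d +
    ((Finset.range (d + 1) ×ˢ Finset.range (d + 1) ×ˢ Finset.range (d + 1)).filter
      (fun x => x.1 + x.2.1 + x.2.2 ≤ d ∧ (n - 2) * (x.1 + x.2.2 + 1) + x.1 ≤ r)).card

end Pool.Agent.Lib.MP_d2a91d_an
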