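import Pool.Agent.Lib.MP_d2a91d_an.Gen4
import Pool.Agent.Lib.MP_d2a91d_an.Stmts4

namespace Pool.Agent.Lib.MP_d2a91d_an

open MvPolynomial

variable {N : ℕ} {K : Finset (Finset (Fin N))} {p : Fin N → Fin 3 → ℝ}
  {cyc : Finset (Fin N) → ℕ → Finset (Fin N)}

/-- Every interior edge spans a triangle with at most one other interior edge. -/
def Matched (K : Finset (Finset (Fin N))) : Prop :=
  ∀ e ∈ interiorFaces K 2, ∀ e' ∈ interiorFaces K 2, ∀ e'' ∈ interiorFaces K 2,
    e ≠ e' → e ≠ e'' → (∃ f ∈ faces K 3, e ⊆ f ∧ e' ⊆ f) → (∃ f ∈ faces K 3, e ⊆ f ∧ e'' ⊆ f) →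
    e' = e''

/-- The triangles with two interior edges. -/
def Sh (K : Finset (Finset (Fin N))) : Finset (Finset (Fin N)) :=
  (faces K 3).filter (fun g => ∃ e ∈ interiorFaces K 2, ∃ e' ∈ interiorFaces K 2,
    e ≠ e' ∧ e ⊆ g ∧ e' ⊆ g)

theorem finrank_submodule_pi {ι : Type} [Fintype ι] {M : Type} [AddCommGroup M] [Module ℝ M]
    [Module.Finite ℝ M] (q : ι → Submodule ℝ M) :
    Module.finrank ℝ (Submodule.pi Set.univ q) = ∑ i, Module.finrank ℝ (q i) := by
  let f : Submodule.pi Set.univ q ≃ₗ[ℝ] (∀ i, q i) :=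
    { toFun := fun x i => ⟨x.1 i, x.2 i trivial⟩
      invFun := fun y => ⟨fun i => (y i).1, fun i _ => (y i).2⟩
      left_inv := fun x => rfl
      right_inv := fun y => rfl
      map_add' := fun x y => rfl
      map_smul' := fun c x => rfl }
  rw [f.finrank_eq, Module.finrank_pi_fintype]

/-- The data of the closing map for a family of shared triangles. -/
structure Shared (K : Finset (Finset (Fin N))) (cyc : Finset (Fin N) → ℕ → Finset (Fin N))
    (ι : Type) where
  g : ι → Finset (Fin N)
  E1 : ι → interiorFaces K 2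
  E2 : ι → interiorFaces K 2
  I : ∀ x, Fin (degree K (E1 x).1)
  J : ∀ x, Fin (degree K (E2 x).1)
  ne : ∀ x, E1 x ≠ E2 x
  hI : ∀ x, fi cyc (E1 x).1 (I x) = g x
  hJ : ∀ x, fi cyc (E2 x).1 (J x) = g x
  inj : Function.Injective g
  /-- every triangle with two interior edges occurs, with exactly these edges -/
  all : ∀ (e e' : interiorFaces K 2), e ≠ e' → ∀ (i : Fin (degree K e.1))
    (j : Fin (degree K e'.1)), fi cyc e.1 i = fi cyc e'.1 j →
    ∃ x, (e = E1 x ∧ e' = E2 x ∨ e = E2 x ∧ e' = E1 x) ∧ fi cyc e.1 i = g x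
  /-- an interior edge occurs at most once -/
  once : ∀ x y, (E1 x = E1 y ∨ E1 x = E2 y ∨ E2 x = E2 y) → x = y

/-- the sign of a triangle at an edge -/
noncomputable def ss (cyc : Finset (Fin N) → ℕ → Finset (Fin N)) (e : Finset (Fin N)) (i : ℕ) :
    ℝ := sg (cyc e i) (cyc e (i + 1))

theorem ss_mul (hcard : ∀ t ∈ K, t.card = 4) (hcyc : Nice K cyc) (e : interiorFaces K 2)
    (i : Fin (degree K e.1)) : ss cyc e.1 i * ss cyc e.1 i = 1 :=
  sg_mul_self (ne_of_adj (hcard _ (cyc_mem hcyc e.2 i.2.le).1) (hcyc.adj e.1 e.2 i.1 i.2))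

section

variable (K cyc)

/-- All data. -/
abbrev VA (d : ℕ) : Type := ∀ e : interiorFaces K 2,
  (Fin (degree K e.1) → restrictTotalDegree (Fin 3) ℝ d)

/-- All maps `Phi`. -/
noncomputable def PhiAll (p : Fin N → Fin 3 → ℝ) (r d : ℕ) :
    VA K d →ₗ[ℝ] (interiorFaces K 2 → MvPolynomial (Fin 3) ℝ) :=
  LinearMap.pi fun e => (Phi r d (le K cyc p e.1)) ∘ₗ LinearMap.proj e

/-- The difference map. -/
noncomputable def DD {ι : Type} (S : Shared K cyc ι) (d : ℕ) :
    VA K d →ₗ[ℝ] (ι → restrictTotalDegree (Fin 3) ℝ d) where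
  toFun v x := ss cyc (S.E1 x).1 (S.I x) • v (S.E1 x) (S.I x) -
    ss cyc (S.E2 x).1 (S.J x) • v (S.E2 x) (S.J x)
  map_add' v w := by
    funext x
    simp only [Pi.add_apply, smul_add]
    abel
  map_smul' c v := by
    funext x
    simp only [Pi.smul_apply, RingHom.id_apply, smul_sub, smul_comm c]

theorem DD_apply {ι : Type} (S : Shared K cyc ι) (d : ℕ) (v : VA K d) (x : ι) :
    DD K cyc S d v x = ss cyc (S.E1 x).1 (S.I x) • v (S.E1 x) (S.I x) -
      ss cyc (S.E2 x).1 (S.J x) • v (S.E2 x) (S.J x) := rfl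

theorem PhiAll_apply (p : Fin N → Fin 3 → ℝ) (r d : ℕ) (v : VA K d) (e : interiorFaces K 2) :
    PhiAll K cyc p r d v e = Phi r d (le K cyc p e.1) (v e) := rfl

end

/-- The range of the closing map. -/
theorem range_PT_eq (hcard : ∀ t ∈ K, t.card = 4) (hcyc : Nice K cyc) {ι : Type}
    (S : Shared K cyc ι) (p : Fin N → Fin 3 → ℝ) (r d : ℕ) :
    LinearMap.range (PT K cyc p r d) =
      (LinearMap.ker (DD K cyc S d)).map (PhiAll K cyc p r d) := by
  classical
  apply le_antisymm
  · rintro _ ⟨q, rfl⟩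
    refine ⟨fun e i => ss cyc e.1 i • q ⟨fi cyc e.1 i, fi_mem hcard hcyc e.2 i.2⟩, ?_, ?_⟩
    · rw [SetLike.mem_coe, LinearMap.mem_ker]
      funext x
      rw [DD_apply, smul_smul, smul_smul, ss_mul hcard hcyc, ss_mul hcard hcyc, one_smul,
        one_smul]
      have h1 : (⟨fi cyc (S.E1 x).1 (S.I x), fi_mem hcard hcyc (S.E1 x).2 (S.I x).2⟩ :
          interiorFaces K 3) = ⟨fi cyc (S.E2 x).1 (S.J x), fi_mem hcard hcyc (S.E2 x).2
          (S.J x).2⟩ := Subtype.ext ((S.hI x).trans (S.hJ x).symm)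
      rw [h1, sub_self]
      rfl
    · funext e
      rw [PhiAll_apply, PT_eq_Phi hcard hcyc]
      rfl
  · rintro _ ⟨v, hv, rfl⟩
    rw [SetLike.mem_coe, LinearMap.mem_ker] at hv
    -- two occurrences of a triangle carry the same datum
    have key : ∀ (e e' : interiorFaces K 2) (i : Fin (degree K e.1)) (j : Fin (degree K e'.1)),
        fi cyc e.1 i = fi cyc e'.1 j → ss cyc e.1 i • v e i = ss cyc e'.1 j • v e' j := by
      intro e e' i j hij
      by_cases hee : e = e'
      · subst hee
        have : i = j := Fin.ext (fi_inj hcard hcyc e.2 i.2 j.2 hij)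
        rw [this]
      · obtain ⟨x, hx, hg⟩ := S.all e e' hee i j hij
        have h0 := congrFun hv x
        rw [DD_apply] at h0
        have h1 := sub_eq_zero.mp h0
        rcases hx with ⟨rfl, rfl⟩ | ⟨rfl, rfl⟩
        · have a1 : i = S.I x := Fin.ext (fi_inj hcard hcyc (S.E1 x).2 i.2 (S.I x).2
            (hg.trans (S.hI x).symm))
          have a2 : j = S.J x := Fin.ext (fi_inj hcard hcyc (S.E2 x).2 j.2 (S.J x).2
            (hij.symm.trans (hg.trans (S.hJ x).symm)))
          rw [a1, a2]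
          exact h1
        · have a1 : i = S.J x := Fin.ext (fi_inj hcard hcyc (S.E2 x).2 i.2 (S.J x).2
            (hg.trans (S.hJ x).symm))
          have a2 : j = S.I x := Fin.ext (fi_inj hcard hcyc (S.E1 x).2 j.2 (S.I x).2
            (hij.symm.trans (hg.trans (S.hI x).symm)))
          rw [a1, a2]
          exact h1.symm
    let q : interiorFaces K 3 → restrictTotalDegree (Fin 3) ℝ d := fun f =>
      if h : ∃ ei : (e : interiorFaces K 2) × Fin (degree K e.1), fi cyc ei.1.1 ei.2 = f.1 then
        ss cyc h.choose.1.1 h.choose.2 • v h.choose.1 h.choose.2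
      else 0
    have hq : ∀ (e : interiorFaces K 2) (i : Fin (degree K e.1)),
        q ⟨fi cyc e.1 i, fi_mem hcard hcyc e.2 i.2⟩ = ss cyc e.1 i • v e i := by
      intro e i
      have h : ∃ ei : (e : interiorFaces K 2) × Fin (degree K e.1),
          fi cyc ei.1.1 ei.2 = fi cyc e.1 i := ⟨⟨e, i⟩, rfl⟩
      have h1 : q ⟨fi cyc e.1 i, fi_mem hcard hcyc e.2 i.2⟩ =
        ss cyc h.choose.1.1 h.choose.2 • v h.choose.1 h.choose.2 := dif_pos h
      rw [h1]
      exact key _ _ _ _ h.choose_spec
    refine ⟨q, ?_⟩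
    funext e
    rw [PhiAll_apply, PT_eq_Phi hcard hcyc]
    congr 1
    funext i
    rw [hq e i]
    change ss cyc e.1 i • (ss cyc e.1 i • v e i) = v e i
    rw [smul_smul, ss_mul hcard hcyc, one_smul]

/-- The difference map is surjective. -/
theorem DD_surj (hcard : ∀ t ∈ K, t.card = 4) (hcyc : Nice K cyc) {ι : Type}
    [Fintype ι] (S : Shared K cyc ι) (d : ℕ) : Function.Surjective (DD K cyc S d) := by
  classical
  -- single vectors
  have h1 : ∀ (x : ι) (z : restrictTotalDegree (Fin 3) ℝ d),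
      ∃ v, DD K cyc S d v = Pi.single x z := by
    intro x z
    refine ⟨Pi.single (S.E1 x) (Pi.single (S.I x) (ss cyc (S.E1 x).1 (S.I x) • z)), ?_⟩
    funext y
    rw [DD_apply]
    have e2 : S.E2 y ≠ S.E1 x := by
      intro h
      have := S.once x y (Or.inr (Or.inl h.symm))
      subst this
      exact S.ne x h.symm
    by_cases hxy : y = x
    · subst hxy
      rw [Pi.single_eq_same, Pi.single_eq_same, Pi.single_eq_of_ne e2, Pi.zero_apply, smul_zero,
        sub_zero, smul_smul, ss_mul hcard hcyc, one_smul, Pi.single_eq_same]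
    · have e1 : S.E1 y ≠ S.E1 x := fun h => hxy (S.once y x (Or.inl h))
      rw [Pi.single_eq_of_ne e1, Pi.single_eq_of_ne e2, Pi.zero_apply, Pi.zero_apply, smul_zero,
        smul_zero, sub_zero, Pi.single_eq_of_ne hxy]
  choose w hw using h1
  intro y
  refine ⟨∑ x, w x (y x), ?_⟩
  rw [map_sum]
  simp only [hw]
  exact Finset.univ_sum_single y

/-- The image of the relations. -/
theorem DD_ker (hcard : ∀ t ∈ K, t.card = 4) (hcyc : Nice K cyc) {ι : Type}
    [Fintype ι] (S : Shared K cyc ι) (p : Fin N → Fin 3 → ℝ) (r d : ℕ) :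
    (LinearMap.ker (PhiAll K cyc p r d)).map (DD K cyc S d) =
      Submodule.pi Set.univ (fun x => entry r d (le K cyc p (S.E1 x).1) (S.I x) ⊔
        entry r d (le K cyc p (S.E2 x).1) (S.J x)) := by
  classical
  apply le_antisymm
  · rintro _ ⟨v, hv, rfl⟩
    rw [SetLike.mem_coe, LinearMap.mem_ker] at hv
    intro x _
    have h1 : v (S.E1 x) (S.I x) ∈ entry r d (le K cyc p (S.E1 x).1) (S.I x) :=
      ⟨v (S.E1 x), congrFun hv (S.E1 x), rfl⟩
    have h2 : v (S.E2 x) (S.J x) ∈ entry r d (le K cyc p (S.E2 x).1) (S.J x) :=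
      ⟨v (S.E2 x), congrFun hv (S.E2 x), rfl⟩
    rw [DD_apply]
    exact Submodule.sub_mem _ (Submodule.smul_mem _ _ (Submodule.mem_sup_left h1))
      (Submodule.smul_mem _ _ (Submodule.mem_sup_right h2))
  · -- single vectors
    have h1 : ∀ (x : ι), ∀ z ∈ entry r d (le K cyc p (S.E1 x).1) (S.I x),
        Pi.single x z ∈ (LinearMap.ker (PhiAll K cyc p r d)).map (DD K cyc S d) := by
      rintro x z ⟨k, hk, rfl⟩
      rw [SetLike.mem_coe, LinearMap.mem_ker] at hk
      refine ⟨Pi.single (S.E1 x) (ss cyc (S.E1 x).1 (S.I x) • k), ?_, ?_⟩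
      · rw [SetLike.mem_coe, LinearMap.mem_ker]
        funext e
        rw [PhiAll_apply]
        by_cases he : e = S.E1 x
        · subst he
          rw [Pi.single_eq_same, map_smul, hk, smul_zero]
          rfl
        · rw [Pi.single_eq_of_ne he, map_zero]
          rfl
      · funext y
        rw [DD_apply]
        have e2 : S.E2 y ≠ S.E1 x := by
          intro h
          have := S.once x y (Or.inr (Or.inl h.symm))
          subst this
          exact S.ne x h.symm
        by_cases hxy : y = x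
        · subst hxy
          rw [Pi.single_eq_same, Pi.single_eq_of_ne e2, Pi.zero_apply, smul_zero,
            sub_zero, Pi.smul_apply, smul_smul, ss_mul hcard hcyc, one_smul, Pi.single_eq_same]
          rfl
        · have e1 : S.E1 y ≠ S.E1 x := fun h => hxy (S.once y x (Or.inl h))
          rw [Pi.single_eq_of_ne e1, Pi.single_eq_of_ne e2, Pi.zero_apply, Pi.zero_apply,
            smul_zero, smul_zero, sub_zero, Pi.single_eq_of_ne hxy]
    have h2 : ∀ (x : ι), ∀ z ∈ entry r d (le K cyc p (S.E2 x).1) (S.J x),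
        Pi.single x z ∈ (LinearMap.ker (PhiAll K cyc p r d)).map (DD K cyc S d) := by
      rintro x z ⟨k, hk, rfl⟩
      rw [SetLike.mem_coe, LinearMap.mem_ker] at hk
      refine ⟨Pi.single (S.E2 x) (-(ss cyc (S.E2 x).1 (S.J x) • k)), ?_, ?_⟩
      · rw [SetLike.mem_coe, LinearMap.mem_ker]
        funext e
        rw [PhiAll_apply]
        by_cases he : e = S.E2 x
        · subst he
          rw [Pi.single_eq_same, map_neg, map_smul, hk, smul_zero, neg_zero]
          rfl
        · rw [Pi.single_eq_of_ne he, map_zero]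
          rfl
      · funext y
        rw [DD_apply]
        have e2 : S.E1 y ≠ S.E2 x := by
          intro h
          have := S.once y x (Or.inr (Or.inl h))
          subst this
          exact S.ne y h
        by_cases hxy : y = x
        · subst hxy
          rw [Pi.single_eq_same, Pi.single_eq_of_ne e2, Pi.zero_apply, smul_zero,
            zero_sub, Pi.neg_apply, Pi.smul_apply, smul_neg, neg_neg, smul_smul,
            ss_mul hcard hcyc, one_smul, Pi.single_eq_same]
          rfl
        · have e1 : S.E2 y ≠ S.E2 x := fun h => hxy (S.once y x (Or.inr (Or.inr h)))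
          rw [Pi.single_eq_of_ne e1, Pi.single_eq_of_ne e2, Pi.zero_apply, Pi.zero_apply,
            smul_zero, smul_zero, sub_zero, Pi.single_eq_of_ne hxy]
    intro y hy
    rw [← Finset.univ_sum_single y]
    refine Submodule.sum_mem _ fun x _ => ?_
    obtain ⟨a, ha, b, hb, hab⟩ := Submodule.mem_sup.mp (hy x trivial)
    rw [← hab, Pi.single_add]
    exact Submodule.add_mem _ (h1 x a ha) (h2 x b hb)

/-- The rank of the closing map. -/
theorem rank_shared (hcard : ∀ t ∈ K, t.card = 4) (hcyc : Nice K cyc) {ι : Type}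
    [Fintype ι] (S : Shared K cyc ι) (p : Fin N → Fin 3 → ℝ) (r d : ℕ) :
    Module.finrank ℝ (LinearMap.range (PT K cyc p r d)) +
      ∑ _x : ι, Module.finrank ℝ (restrictTotalDegree (Fin 3) ℝ d) =
    ∑ e : interiorFaces K 2, Module.finrank ℝ (LinearMap.range (Phi r d (le K cyc p e.1))) +
      ∑ x : ι, Module.finrank ℝ (entry r d (le K cyc p (S.E1 x).1) (S.I x) ⊔
        entry r d (le K cyc p (S.E2 x).1) (S.J x) : Submodule ℝ _) := by
  classical
  have a1 := H79.rank_restrict (PhiAll K cyc p r d) (LinearMap.ker (DD K cyc S d))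
  have a2 := H79.rank_restrict (DD K cyc S d) (LinearMap.ker (PhiAll K cyc p r d))
  have a3 := LinearMap.finrank_range_add_finrank_ker (DD K cyc S d)
  have a4 := LinearMap.finrank_range_add_finrank_ker (PhiAll K cyc p r d)
  rw [← range_PT_eq hcard hcyc S p r d] at a1
  rw [DD_ker hcard hcyc S p r d, finrank_submodule_pi] at a2
  rw [LinearMap.range_eq_top.mpr (DD_surj hcard hcyc S d), finrank_top,
    Module.finrank_pi_fintype] at a3
  have a5 : Module.finrank ℝ (LinearMap.range (PhiAll K cyc p r d)) =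
      ∑ e : interiorFaces K 2,
        Module.finrank ℝ (LinearMap.range (Phi r d (le K cyc p e.1))) := by
    have hr : LinearMap.range (PhiAll K cyc p r d) =
        Submodule.pi Set.univ (fun e => LinearMap.range (Phi r d (le K cyc p e.1))) := by
      apply le_antisymm
      · rintro _ ⟨v, rfl⟩ e _
        exact ⟨v e, rfl⟩
      · intro y hy
        choose x hx using fun e => hy e trivial
        exact ⟨x, funext hx⟩
    rw [hr]
    let f : Submodule.pi Set.univ (fun e : interiorFaces K 2 =>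
        LinearMap.range (Phi r d (le K cyc p e.1))) ≃ₗ[ℝ]
        (∀ e : interiorFaces K 2, LinearMap.range (Phi r d (le K cyc p e.1))) :=
      { toFun := fun x i => ⟨x.1 i, x.2 i trivial⟩
        invFun := fun y => ⟨fun i => (y i).1, fun i _ => (y i).2⟩
        left_inv := fun x => rfl
        right_inv := fun y => rfl
        map_add' := fun x y => rfl
        map_smul' := fun c x => rfl }
    rw [f.finrank_eq, Module.finrank_pi_fintype]
  rw [inf_comm] at a2
  rw [a5] at a4
  omega

end Pool.Agent.Lib.MP_d2a91d_an
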