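import Pool.Agent.Lib.MP_d2a91d_an.Match
import Pool.Agent.Lib.MP_d2a91d_an.Gen6

namespace Pool.Agent.Lib.MP_d2a91d_an

open MvPolynomial

variable {N : ℕ} {K : Finset (Finset (Fin N))} {p : Fin N → Fin 3 → ℝ}
  {cyc : Finset (Fin N) → ℕ → Finset (Fin N)}

theorem union_eq {e e' g : Finset (Fin N)} (he : e.card = 2) (he' : e'.card = 2)
    (hg : g.card = 3) (hne : e ≠ e') (h : e ⊆ g) (h' : e' ⊆ g) : e ∪ e' = g := by
  refine Finset.eq_of_subset_of_card_le (Finset.union_subset h h') ?_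
  have c1 := Finset.card_union_add_card_inter e e'
  have c2 : (e ∩ e').card < 2 := by
    by_contra hc
    have c3 : e ∩ e' = e := Finset.eq_of_subset_of_card_le Finset.inter_subset_left
      (by rw [he]; omega)
    have c4 : e ∩ e' = e' := Finset.eq_of_subset_of_card_le Finset.inter_subset_right
      (by rw [he']; omega)
    exact hne (c3.symm.trans c4)
  omega

theorem card_edge {e : Finset (Fin N)} (he : e ∈ interiorFaces K 2) : e.card = 2 :=
  (mem_faces.mp (mem_interiorFaces.mp he).1).1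

/-- The data of the triangles with two interior edges. -/
theorem exists_shared (hcard : ∀ t ∈ K, t.card = 4) (hcyc : Nice K cyc) (hM : Matched K) :
    Nonempty {S : Shared K cyc (Sh K) // ∀ x, S.g x = x.1} := by
  have hdata : ∀ x : Sh K, ∃ (e e' : interiorFaces K 2), e ≠ e' ∧
      (∃ i : Fin (degree K e.1), fi cyc e.1 i = x.1) ∧
      (∃ j : Fin (degree K e'.1), fi cyc e'.1 j = x.1) := by
    rintro ⟨g, hg⟩
    obtain ⟨hg3, e, he, e', he', hne, hs, hs'⟩ := Finset.mem_filter.mp hg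
    obtain ⟨i, hi, hfi⟩ := fi_surj hcard hcyc he hg3 hs
    obtain ⟨j, hj, hfj⟩ := fi_surj hcard hcyc he' hg3 hs'
    exact ⟨⟨e, he⟩, ⟨e', he'⟩, fun h => hne (congrArg Subtype.val h), ⟨⟨i, hi⟩, hfi⟩,
      ⟨⟨j, hj⟩, hfj⟩⟩
  choose E1 E2 hne hI hJ using hdata
  choose I hI using hI
  choose J hJ using hJ
  have s1 : ∀ x, (E1 x).1 ⊆ x.1 := fun x => by
    have := sub_fi hcyc (E1 x).2 (I x).2
    rwa [hI x] at this
  have s2 : ∀ x, (E2 x).1 ⊆ x.1 := fun x => by
    have := sub_fi hcyc (E2 x).2 (J x).2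
    rwa [hJ x] at this
  have hf : ∀ x : Sh K, x.1 ∈ faces K 3 := fun x => (Finset.mem_filter.mp x.2).1
  have hc : ∀ x : Sh K, x.1.card = 3 := fun x => (mem_faces.mp (hf x)).1
  have hne' : ∀ x, (E1 x).1 ≠ (E2 x).1 := fun x h => hne x (Subtype.ext h)
  have hu : ∀ x, (E1 x).1 ∪ (E2 x).1 = x.1 := fun x =>
    union_eq (card_edge (E1 x).2) (card_edge (E2 x).2) (hc x) (hne' x) (s1 x) (s2 x)
  refine ⟨⟨⟨fun x => x.1, E1, E2, I, J, hne, hI, hJ, Subtype.val_injective, ?_, ?_⟩,
    fun x => rfl⟩⟩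
  · intro e e' hee i j hij
    have q1 : e.1 ⊆ fi cyc e.1 i := sub_fi hcyc e.2 i.2
    have q2 : e'.1 ⊆ fi cyc e.1 i := by rw [hij]; exact sub_fi hcyc e'.2 j.2
    have q3 : fi cyc e.1 i ∈ faces K 3 :=
      (mem_interiorFaces.mp (fi_mem hcard hcyc e.2 i.2)).1
    have hee' : e.1 ≠ e'.1 := fun h => hee (Subtype.ext h)
    have q4 : fi cyc e.1 i ∈ Sh K :=
      Finset.mem_filter.mpr ⟨q3, e.1, e.2, e'.1, e'.2, hee', q1, q2⟩
    refine ⟨⟨fi cyc e.1 i, q4⟩, ?_, rfl⟩
    set x : Sh K := ⟨fi cyc e.1 i, q4⟩ with hx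
    by_cases h1 : e = E1 x
    · left
      refine ⟨h1, Subtype.ext ?_⟩
      have := hM e.1 e.2 e'.1 e'.2 (E2 x).1 (E2 x).2 hee' (by rw [h1]; exact hne' x)
        ⟨_, q3, q1, q2⟩ ⟨_, q3, q1, s2 x⟩
      exact this
    · right
      have h1' : e.1 ≠ (E1 x).1 := fun h => h1 (Subtype.ext h)
      have h2 : e'.1 = (E1 x).1 := hM e.1 e.2 e'.1 e'.2 (E1 x).1 (E1 x).2 hee' h1'
        ⟨_, q3, q1, q2⟩ ⟨_, q3, q1, s1 x⟩
      refine ⟨Subtype.ext ?_, Subtype.ext h2⟩
      exact hM e'.1 e'.2 e.1 e.2 (E2 x).1 (E2 x).2 hee'.symm (by rw [h2]; exact hne' x)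
        ⟨_, q3, q2, q1⟩ ⟨_, q3, q2, s2 x⟩
  · intro x y h
    apply Subtype.ext
    rw [← hu x, ← hu y]
    rcases h with h | h | h
    · have h' : (E2 x).1 = (E2 y).1 := hM (E1 x).1 (E1 x).2 _ (E2 x).2 _ (E2 y).2 (hne' x)
        (by rw [h]; exact hne' y) ⟨_, hf x, s1 x, s2 x⟩ ⟨_, hf y, by rw [h]; exact s1 y, s2 y⟩
      rw [h, h']
    · have h' : (E2 x).1 = (E1 y).1 := hM (E1 x).1 (E1 x).2 _ (E2 x).2 _ (E1 y).2 (hne' x)
        (by rw [h]; exact (hne' y).symm) ⟨_, hf x, s1 x, s2 x⟩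
        ⟨_, hf y, by rw [h]; exact s2 y, s1 y⟩
      rw [h, h', Finset.union_comm]
    · have h' : (E1 x).1 = (E1 y).1 := hM (E2 x).1 (E2 x).2 _ (E1 x).2 _ (E1 y).2
        (hne' x).symm (by rw [h]; exact (hne' y).symm) ⟨_, hf x, s2 x, s1 x⟩
        ⟨_, hf y, by rw [h]; exact s2 y, s1 y⟩
      rw [h, h']

theorem mu_symm (n n' r d : ℕ) : mu n n' r d = mu n' n r d := by
  unfold mu
  refine Finset.card_bij (fun x _ => (x.2.1, x.1, x.2.2)) ?_ ?_ ?_
  · rintro ⟨s, t, c⟩ h
    simp only [Finset.mem_filter, Finset.mem_product] at h ⊢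
    refine ⟨⟨h.1.2.1, h.1.1, h.1.2.2⟩, by omega, h.2.2.2, h.2.2.1⟩
  · rintro ⟨s, t, c⟩ _ ⟨s', t', c'⟩ _ h
    simp only [Prod.mk.injEq] at h ⊢
    exact ⟨h.2.1, h.1, h.2.2⟩
  · rintro ⟨s, t, c⟩ h
    simp only [Finset.mem_filter, Finset.mem_product] at h
    refine ⟨(t, s, c), ?_, rfl⟩
    simp only [Finset.mem_filter, Finset.mem_product]
    refine ⟨⟨h.1.2.1, h.1.1, h.1.2.2⟩, by omega, h.2.2.2, h.2.2.1⟩

/-- The sum over ordered pairs is twice the sum over the shared triangles. -/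
theorem sum_pairs (hcard : ∀ t ∈ K, t.card = 4) (hcyc : Nice K cyc)
    (S : Shared K cyc (Sh K)) (F : ℕ → ℕ → ℕ) (hF : ∀ a b, F a b = F b a) :
    ∑ e ∈ interiorFaces K 2, ∑ e' ∈ partners K e, F (degree K e) (degree K e') =
      2 * ∑ x : Sh K, F (degree K (S.E1 x).1) (degree K (S.E2 x).1) := by
  classical
  have hs : ∑ e ∈ interiorFaces K 2, ∑ e' ∈ partners K e, F (degree K e) (degree K e') =
      ∑ y ∈ (interiorFaces K 2).sigma (fun e => partners K e),
        F (degree K y.1) (degree K y.2) := by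
    rw [Finset.sum_sigma]
  have s1 : ∀ x, (S.E1 x).1 ⊆ S.g x := fun x => by
    have := sub_fi hcyc (S.E1 x).2 (S.I x).2
    rwa [S.hI x] at this
  have s2 : ∀ x, (S.E2 x).1 ⊆ S.g x := fun x => by
    have := sub_fi hcyc (S.E2 x).2 (S.J x).2
    rwa [S.hJ x] at this
  have hg : ∀ x, S.g x ∈ faces K 3 := fun x => by
    rw [← S.hI x]
    exact (mem_interiorFaces.mp (fi_mem hcard hcyc (S.E1 x).2 (S.I x).2)).1
  have hne : ∀ x, (S.E1 x).1 ≠ (S.E2 x).1 := fun x h => S.ne x (Subtype.ext h)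
  have hb : ∑ y : Sh K × Bool, (if y.2 then F (degree K (S.E1 y.1).1) (degree K (S.E2 y.1).1)
      else F (degree K (S.E2 y.1).1) (degree K (S.E1 y.1).1)) =
      ∑ y ∈ (interiorFaces K 2).sigma (fun e => partners K e),
        F (degree K y.1) (degree K y.2) := by
    refine Finset.sum_bij (fun y _ => if y.2 then ⟨(S.E1 y.1).1, (S.E2 y.1).1⟩ else
      ⟨(S.E2 y.1).1, (S.E1 y.1).1⟩) ?_ ?_ ?_ ?_
    · rintro ⟨x, b⟩ _
      rw [Finset.mem_sigma]
      cases b
      · refine ⟨(S.E2 x).2, Finset.mem_filter.mpr ⟨(S.E1 x).2, (hne x).symm, S.g x, hg x, ?_⟩⟩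
        exact ⟨s2 x, s1 x⟩
      · refine ⟨(S.E1 x).2, Finset.mem_filter.mpr ⟨(S.E2 x).2, hne x, S.g x, hg x, ?_⟩⟩
        exact ⟨s1 x, s2 x⟩
    · rintro ⟨x, b⟩ _ ⟨y, c⟩ _ h
      cases b <;> cases c
      · have h1 : (S.E2 x).1 = (S.E2 y).1 := congrArg Sigma.fst h
        rw [S.once x y (Or.inr (Or.inr (Subtype.ext h1)))]
      · have h1 : (S.E2 x).1 = (S.E1 y).1 := congrArg Sigma.fst h
        have h2 : (S.E1 x).1 = (S.E2 y).1 := by
          have := congrArg (fun z : (_ : Finset (Fin N)) × Finset (Fin N) => z.2) h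
          exact this
        have hxy := S.once x y (Or.inr (Or.inl (Subtype.ext h2)))
        subst hxy
        exact absurd h1.symm (hne x)
      · have h1 : (S.E1 x).1 = (S.E2 y).1 := congrArg Sigma.fst h
        have hxy := S.once x y (Or.inr (Or.inl (Subtype.ext h1)))
        subst hxy
        exact absurd h1 (hne x)
      · have h1 : (S.E1 x).1 = (S.E1 y).1 := congrArg Sigma.fst h
        rw [S.once x y (Or.inl (Subtype.ext h1))]
    · rintro ⟨e, e'⟩ h
      rw [Finset.mem_sigma] at h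
      obtain ⟨he, h2⟩ := h
      obtain ⟨he', hee, f, hf, hef, hef'⟩ := Finset.mem_filter.mp h2
      obtain ⟨i, hi, hfi⟩ := fi_surj hcard hcyc he hf hef
      obtain ⟨j, hj, hfj⟩ := fi_surj hcard hcyc he' hf hef'
      obtain ⟨x, hx, -⟩ := S.all ⟨e, he⟩ ⟨e', he'⟩ (fun h => hee (congrArg Subtype.val h))
        ⟨i, hi⟩ ⟨j, hj⟩ (hfi.trans hfj.symm)
      rcases hx with ⟨h1, h2⟩ | ⟨h1, h2⟩
      · refine ⟨(x, true), Finset.mem_univ _, ?_⟩
        have k1 : (S.E1 x).1 = e := (congrArg Subtype.val h1).symm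
        have k2 : (S.E2 x).1 = e' := (congrArg Subtype.val h2).symm
        simp only [if_true, k1, k2]
      · refine ⟨(x, false), Finset.mem_univ _, ?_⟩
        have k1 : (S.E2 x).1 = e := (congrArg Subtype.val h1).symm
        have k2 : (S.E1 x).1 = e' := (congrArg Subtype.val h2).symm
        simp only [Bool.false_eq_true, if_false, k1, k2]
    · rintro ⟨x, b⟩ _
      cases b <;> rfl
  rw [hs, ← hb, Fintype.sum_prod_type, Finset.mul_sum]
  refine Finset.sum_congr rfl fun x _ => ?_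
  rw [Fintype.sum_bool]
  simp only [if_true, Bool.false_eq_true, if_false]
  rw [hF (degree K (S.E2 x).1)]
  ring

/-- The planes at an interior edge form a pencil. -/
theorem pencil (hp : Realises K p) (hcyc : Nice K cyc) {e : Finset (Fin N)}
    (he : e ∈ interiorFaces K 2) (hd : DistinctAt K p e) {u v : Fin N} (hu : u ∈ e)
    (hv : v ∈ e) : Pencil (le K cyc p e) (p u) (p v) where
  deg := fun i => le_deg _ _
  van := fun i => ⟨le_vanish hcyc he i hu, le_vanish hcyc he i hv⟩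
  ne := fun i => le_ne_zero hp hcyc he i
  dist := by
    rintro ⟨i, j, hij, c, c', hc, h⟩
    have hfij : fi cyc e i ≠ fi cyc e j := fun h =>
      hij (Fin.ext (fi_inj hp.card hcyc he i.2 j.2 h))
    exact lf_not_prop (fi_card hcyc he i.2) (fi_card hcyc he j.2) hfij
      (hd _ (mem_interiorFaces.mp (fi_mem hp.card hcyc he i.2)).1 _
        (mem_interiorFaces.mp (fi_mem hp.card hcyc he j.2)).1 (sub_fi hcyc he i.2)
        (sub_fi hcyc he j.2) hfij) ⟨c, c', hc, h⟩

/-- Three vertices of a tetrahedron are affinely independent. -/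
theorem affInd3 (hp : Realises K p) {t : Finset (Fin N)} (ht : t ∈ K) {a b c : Fin N}
    (ha : a ∈ t) (hb : b ∈ t) (hc : c ∈ t) (hab : a ≠ b) (hac : a ≠ c) (hbc : b ≠ c) :
    AffineIndependent ℝ ![p a, p b, p c] := by
  have hinj : Function.Injective (![⟨a, ha⟩, ⟨b, hb⟩, ⟨c, hc⟩] : Fin 3 → t) := by
    intro x y hxy
    have hab' := congrArg Subtype.val hxy
    fin_cases x <;> fin_cases y <;> first
      | rfl
      | (exfalso; first
          | exact hab hab' | exact hac hab' | exact hbc hab'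
          | exact hab hab'.symm | exact hac hab'.symm | exact hbc hab'.symm)
  have := (hp.nondeg t ht).comp_embedding ⟨_, hinj⟩
  convert this using 1
  funext i
  fin_cases i <;> rfl

/-- (4) The exact dimension in the matched case. -/
theorem part_four (hP : StP) (hp : Realises K p) (hne : K.Nonempty) (hcyc : Nice K cyc)
    (hM : Matched K) (hdist : ∀ e ∈ interiorFaces K 2, DistinctAt K p e)
    (r k d : ℕ) (hk : k = d + (r + 1)) :
    2 * (Module.finrank ℝ (restrictTotalDegree (Fin 3) ℝ k) +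
      (interiorFaces K 3).card * Module.finrank ℝ (restrictTotalDegree (Fin 3) ℝ d)) +
      ∑ e ∈ interiorFaces K 2, ∑ e' ∈ partners K e, mu (degree K e) (degree K e') r d =
    2 * (Module.finrank ℝ (SP r k K p) + ∑ e ∈ interiorFaces K 2, lam (degree K e) r d) := by
  obtain ⟨⟨S, hS⟩⟩ := exists_shared hp.card hcyc hM
  have h1 := finrank_SP hp hne hcyc r k d hk
  have h2 := finrank_ker_PT K cyc p r d
  have h3 := rank_shared hp.card hcyc S p r d
  have h4 : ∑ e : interiorFaces K 2,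
      Module.finrank ℝ (LinearMap.range (Phi r d (le K cyc p e.1))) =
      ∑ e ∈ interiorFaces K 2, lam (degree K e) r d := by
    rw [← Finset.sum_coe_sort (interiorFaces K 2) (fun e => lam (degree K e) r d)]
    refine Finset.sum_congr rfl fun e _ => ?_
    obtain ⟨u, hu, v, hv, huv⟩ := exists_ends hp e.2
    have hpen := pencil hp hcyc e.2 (hdist e.1 e.2) hu hv
    exact H79.L3 _ r d _ (p u) (p v) huv hpen.deg hpen.van hpen.dist hpen.ne
  have h5 : ∑ _x : Sh K, Module.finrank ℝ (restrictTotalDegree (Fin 3) ℝ d) =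
      ∑ x : Sh K, Module.finrank ℝ (entry r d (le K cyc p (S.E1 x).1) (S.I x) ⊔
        entry r d (le K cyc p (S.E2 x).1) (S.J x) : Submodule ℝ _) +
      ∑ x : Sh K, mu (degree K (S.E1 x).1) (degree K (S.E2 x).1) r d := by
    rw [← Finset.sum_add_distrib]
    refine Finset.sum_congr rfl fun x _ => ?_
    have hg : S.g x ∈ faces K 3 := by
      rw [← S.hI x]
      exact (mem_interiorFaces.mp (fi_mem hp.card hcyc (S.E1 x).2 (S.I x).2)).1
    have s1 : (S.E1 x).1 ⊆ S.g x := by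
      have := sub_fi hcyc (S.E1 x).2 (S.I x).2
      rwa [S.hI x] at this
    have s2 : (S.E2 x).1 ⊆ S.g x := by
      have := sub_fi hcyc (S.E2 x).2 (S.J x).2
      rwa [S.hJ x] at this
    have hne' : (S.E1 x).1 ≠ (S.E2 x).1 := fun h => S.ne x (Subtype.ext h)
    obtain ⟨hg3, t, ht, hgt⟩ := mem_faces.mp hg
    -- the common vertex and the two others
    obtain ⟨v, hv⟩ : ((S.E1 x).1 ∩ (S.E2 x).1).Nonempty := by
      rw [← Finset.card_pos]
      have c1 := card_edge (S.E1 x).2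
      have c2 := card_edge (S.E2 x).2
      have c4 := Finset.card_union_add_card_inter (S.E1 x).1 (S.E2 x).1
      have c5 := Finset.card_le_card (Finset.union_subset s1 s2)
      omega
    rw [Finset.mem_inter] at hv
    obtain ⟨b, hb, hbv⟩ := Finset.exists_mem_ne (by rw [card_edge (S.E1 x).2]; norm_num) v
      (s := (S.E1 x).1)
    obtain ⟨b', hb', hbv'⟩ := Finset.exists_mem_ne (by rw [card_edge (S.E2 x).2]; norm_num) v
      (s := (S.E2 x).1)
    have hbb : b ≠ b' := by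
      rintro rfl
      apply hne'
      have k1 : ({v, b} : Finset (Fin N)) = (S.E1 x).1 :=
        Finset.eq_of_subset_of_card_le (by
          intro y hy
          rw [Finset.mem_insert, Finset.mem_singleton] at hy
          rcases hy with rfl | rfl
          · exact hv.1
          · exact hb) (by rw [card_edge (S.E1 x).2, Finset.card_pair hbv.symm])
      have k2 : ({v, b} : Finset (Fin N)) = (S.E2 x).1 :=
        Finset.eq_of_subset_of_card_le (by
          intro y hy
          rw [Finset.mem_insert, Finset.mem_singleton] at hy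
          rcases hy with rfl | rfl
          · exact hv.2
          · exact hb') (by rw [card_edge (S.E2 x).2, Finset.card_pair hbv.symm])
      exact k1.symm.trans k2
    exact hP _ _ r d _ _ (S.I x) (S.J x) (p v) (p b) (p b')
      (pencil hp hcyc (S.E1 x).2 (hdist _ (S.E1 x).2) hv.1 hb)
      (pencil hp hcyc (S.E2 x).2 (hdist _ (S.E2 x).2) hv.2 hb')
      (hcyc.three _ (S.E1 x).2) (hcyc.three _ (S.E2 x).2)
      (by
        unfold le
        rw [S.hI x, S.hJ x])
      (affInd3 hp ht (hgt (s1 hv.1)) (hgt (s1 hb)) (hgt (s2 hb')) hbv.symm hbv'.symm hbb)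
  have h6 := sum_pairs hp.card hcyc S (fun a b => mu a b r d) (fun a b => mu_symm a b r d)
  rw [h4] at h3
  rw [h6]
  omega

theorem pos_four (hP : StP) (hne : K.Nonempty) (hcyc : Nice K cyc)
    (hM : Matched K) (r d : ℕ) (hp : Realises K p)
    (hdist : ∀ e ∈ interiorFaces K 2, DistinctAt K p e) :
    2 * ((d + r + 4).choose 3 + (interiorFaces K 3).card * (d + 3).choose 3) +
      ∑ e ∈ interiorFaces K 2, ∑ e' ∈ partners K e, mu (degree K e) (degree K e') r d =
    2 * (Module.finrank ℝ (Spline r (d + r + 1) K p) +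
      ∑ e ∈ interiorFaces K 2, lam (degree K e) r d) := by
  have := part_four hP hp hne hcyc hM hdist r (d + r + 1) d rfl
  rw [H79.L0, H79.L0, ← S_42.stS_42 N r (d + r + 1) K p hp hcyc.star] at this
  exact this

end Pool.Agent.Lib.MP_d2a91d_an
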