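import Pool.Agent.Lib.MP_d2a91d_an.Base

namespace Pool.Agent.Lib.MP_d2a91d_an

open MvPolynomial Set

variable {N : ℕ} {K : Finset (Finset (Fin N))} {p : Fin N → Fin 3 → ℝ}

theorem jet_eq (h : Realises K p) {r k : ℕ} {s : (Fin 3 → ℝ) → ℝ} (hs : s ∈ Spline r k K p)
    {t : Finset (Fin N)} (ht : t ∈ K) (P : MvPolynomial (Fin 3) ℝ)
    (hP : ∀ x ∈ tet p t, s x = eval x P) {x : Fin 3 → ℝ} (hx : x ∈ tet p t) {m : ℕ} (hm : m ≤ r) :
    iteratedFDerivWithin ℝ m s (Omega K p) x = iteratedFDeriv ℝ m (fun y => eval y P) x := by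
  have h1 : HasFTaylorSeriesUpToOn (r : WithTop ℕ∞) s (ftaylorSeriesWithin ℝ s (Omega K p))
      (Omega K p) := ContDiffOn.ftaylorSeriesWithin hs.2.1 (uniqueDiffOn_Omega h)
  have h2 : HasFTaylorSeriesUpToOn (r : WithTop ℕ∞) s (ftaylorSeriesWithin ℝ s (Omega K p))
      (tet p t) := h1.mono fun y hy => mem_Omega ht hy
  have h3 := h2.eq_iteratedFDerivWithin_of_uniqueDiffOn (m := m) (by exact_mod_cast hm)
    (uniqueDiffOn_tet h ht) hx
  have h4 : iteratedFDerivWithin ℝ m s (tet p t) x =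
      iteratedFDerivWithin ℝ m (fun y => eval y P) (tet p t) x :=
    iteratedFDerivWithin_congr (fun y hy => hP y hy) hx m
  have h5 : iteratedFDerivWithin ℝ m (fun y => eval y P) (tet p t) x =
      iteratedFDeriv ℝ m (fun y => eval y P) x :=
    iteratedFDerivWithin_eq_iteratedFDeriv (uniqueDiffOn_tet h ht)
      (contDiff_eval P).contDiffAt hx
  exact h3.trans (h4.trans h5)

/-- Vanishing jets along a line. -/
theorem iteratedDeriv_line (P : MvPolynomial (Fin 3) ℝ) (x a : Fin 3 → ℝ) (m : ℕ)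
    (h : iteratedFDeriv ℝ m (fun y => eval y P) x = 0) :
    iteratedDeriv m (fun t : ℝ => eval (x + t • a) P) 0 = 0 := by
  have e : (fun t : ℝ => eval (x + t • a) P) =
      (fun z => (fun y => eval y P) (x + z)) ∘ (ContinuousLinearMap.toSpanSingleton ℝ a) := by
    funext t
    simp [ContinuousLinearMap.toSpanSingleton_apply]
  have hc : ContDiff ℝ (m : WithTop ℕ∞) (fun z => (fun y => eval y P) (x + z)) :=
    (contDiff_eval P).comp (contDiff_const.add contDiff_id)
  have hz : iteratedFDeriv ℝ m (fun z => (fun y => eval y P) (x + z))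
      ((ContinuousLinearMap.toSpanSingleton ℝ a) 0) = 0 := by
    rw [map_zero]
    refine (iteratedFDeriv_comp_add_left (𝕜 := ℝ) (f := fun y => eval y P) m x 0).trans ?_
    rw [add_zero, h]
  rw [iteratedDeriv_eq_iteratedFDeriv, e,
    ContinuousLinearMap.iteratedFDeriv_comp_right _ hc 0 le_rfl, hz]
  simp

theorem iteratedDeriv_poly (G : Polynomial ℝ) (m : ℕ) :
    iteratedDeriv m (fun t : ℝ => Polynomial.eval t G) 0 = (m.factorial : ℝ) * G.coeff m := by
  have h1 : ∀ m, iteratedDeriv m (fun t : ℝ => Polynomial.eval t G) =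
      fun t => Polynomial.eval t (Polynomial.derivative^[m] G) := by
    intro m
    induction m with
    | zero => simp
    | succ m ih =>
      rw [iteratedDeriv_succ, ih]
      funext t
      rw [Polynomial.deriv, Function.iterate_succ_apply']
  rw [h1]
  change Polynomial.eval 0 (Polynomial.derivative^[m] G) = _
  rw [← Polynomial.coeff_zero_eq_eval_zero, Polynomial.coeff_iterate_derivative, zero_add,
    Nat.descFactorial_self, nsmul_eq_mul]

/-- The matrix with the given columns. -/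
def cols (a b c : Fin 3 → ℝ) : Matrix (Fin 3) (Fin 3) ℝ := fun i j => ![a i, b i, c i] j

theorem cols_mulVec (a b c v : Fin 3 → ℝ) :
    (cols a b c).mulVec v = v 0 • a + v 1 • b + v 2 • c := by
  funext i
  simp [cols, Matrix.mulVec, dotProduct, Fin.sum_univ_three]
  ring

/-- Vanishing of the `r`-jet on a triangle gives divisibility by the `(r+1)`-st power. -/
theorem dvd_of_jets (r : ℕ) (D l : MvPolynomial (Fin 3) ℝ) (a0 a1 a2 a3 : Fin 3 → ℝ)
    (hA : IsUnit (cols (a3 - a0) (a1 - a0) (a2 - a0)).det) (hl : l ≠ 0)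
    (hl1 : l.totalDegree ≤ 1) (h0 : eval a0 l = 0) (h1 : eval a1 l = 0) (h2 : eval a2 l = 0)
    (hD : ∀ x ∈ convexHull ℝ {a0, a1, a2}, ∀ m ≤ r, iteratedFDeriv ℝ m (fun y => eval y D) x = 0) :
    l ^ (r + 1) ∣ D := by
  set A := cols (a3 - a0) (a1 - a0) (a2 - a0) with hAdef
  set τ := affE a0 A hA with hτ
  -- step 1: `X 0 ^ (r+1)` divides `τ D`
  have hstep : (X 0 : MvPolynomial (Fin 3) ℝ) ^ (r + 1) ∣ τ D := by
    rw [← map_dvd_iff (finSuccEquiv ℝ 2), map_pow, finSuccEquiv_X_zero, Polynomial.X_pow_dvd_iff]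
    intro m hm
    have hm' : m ≤ r := Nat.lt_succ_iff.mp hm
    refine MvPolynomial.funext_set (fun _ : Fin 2 => Set.Icc (0 : ℝ) (1 / 2))
      (fun _ => Set.Icc_infinite (by norm_num)) fun s hs => ?_
    rw [map_zero]
    set G : Polynomial ℝ := Polynomial.map (eval s) (finSuccEquiv ℝ 2 (τ D)) with hG
    have hGe : ∀ t : ℝ, Polynomial.eval t G =
        eval ((a0 + s 0 • (a1 - a0) + s 1 • (a2 - a0)) + t • (a3 - a0)) D := by
      intro t
      rw [hG, ← eval_eq_eval_mv_eval', hτ, affE_apply, eval_aff, hAdef, cols_mulVec]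
      congr 2
      have e1 : (Fin.cons t s : Fin 3 → ℝ) 0 = t := rfl
      have e2 : (Fin.cons t s : Fin 3 → ℝ) 1 = s 0 := rfl
      have e3 : (Fin.cons t s : Fin 3 → ℝ) 2 = s 1 := rfl
      rw [e1, e2, e3]
      abel
    have hmem : (a0 + s 0 • (a1 - a0) + s 1 • (a2 - a0)) ∈ convexHull ℝ {a0, a1, a2} := by
      have hs0 := hs 0 (Set.mem_univ _)
      have hs1 := hs 1 (Set.mem_univ _)
      have hc := convex_convexHull ℝ ({a0, a1, a2} : Set (Fin 3 → ℝ))
      have m0 : a0 ∈ convexHull ℝ {a0, a1, a2} := subset_convexHull ℝ _ (by simp)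
      have m1 : a1 ∈ convexHull ℝ {a0, a1, a2} := subset_convexHull ℝ _ (by simp)
      have m2 : a2 ∈ convexHull ℝ {a0, a1, a2} := subset_convexHull ℝ _ (by simp)
      have e : (a0 + s 0 • (a1 - a0) + s 1 • (a2 - a0)) =
          ∑ i : Fin 3, (![1 - s 0 - s 1, s 0, s 1] : Fin 3 → ℝ) i •
            (![a0, a1, a2] : Fin 3 → Fin 3 → ℝ) i := by
        rw [Fin.sum_univ_three]
        simp only [Matrix.cons_val_zero, Matrix.cons_val_one, Matrix.cons_val]
        module
      rw [e]
      refine hc.sum_mem (fun i _ => ?_) ?_ (fun i _ => ?_)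
      · fin_cases i <;> simp <;> linarith [hs0.1, hs0.2, hs1.1, hs1.2]
      · rw [Fin.sum_univ_three]
        simp only [Matrix.cons_val_zero, Matrix.cons_val_one, Matrix.cons_val]
        ring
      · fin_cases i <;> simp [m0, m1, m2]
    have hz := iteratedDeriv_line D _ (a3 - a0) m (hD _ hmem m hm')
    have hfun : (fun t : ℝ => eval ((a0 + s 0 • (a1 - a0) + s 1 • (a2 - a0)) + t • (a3 - a0)) D) =
        fun t : ℝ => Polynomial.eval t G := by
      funext t; rw [hGe]
    rw [hfun, iteratedDeriv_poly, mul_eq_zero] at hz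
    rcases hz with hz | hz
    · exact absurd hz (by exact_mod_cast m.factorial_ne_zero)
    · rw [hG, Polynomial.coeff_map] at hz
      exact hz
  -- step 2: `τ l` is a nonzero multiple of `X 0`
  have hτl : τ l = C (eval (Pi.single 0 1) (τ l)) * X 0 := by
    have hdeg : (τ l).totalDegree ≤ 1 := (totalDegree_aff_le _ _ _).trans hl1
    have v0 : eval 0 (τ l) = 0 := by
      rw [hτ, affE_apply, eval_aff, Matrix.mulVec_zero, add_zero, h0]
    have v1 : eval (Pi.single 1 1) (τ l) = 0 := by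
      rw [hτ, affE_apply, eval_aff, hAdef, cols_mulVec]
      simpa using h1
    have v2 : eval (Pi.single 2 1) (τ l) = 0 := by
      rw [hτ, affE_apply, eval_aff, hAdef, cols_mulVec]
      simpa using h2
    have := eq_of_totalDegree_le_one (τ l) hdeg
    rw [Fin.sum_univ_three, v0, v1, v2] at this
    simpa using this
  have hc : eval (Pi.single 0 1) (τ l) ≠ 0 := by
    intro h
    rw [h, C_0, zero_mul] at hτl
    exact hl (by simpa using hτl)
  rw [← map_dvd_iff τ, map_pow, hτl, mul_pow]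
  have hu : IsUnit (C (eval (Pi.single 0 1) (τ l)) ^ (r + 1) : MvPolynomial (Fin 3) ℝ) := by
    refine IsUnit.pow _ ?_
    exact (isUnit_iff_ne_zero.mpr hc).map C
  exact (hu.mul_left_dvd).mpr hstep

end Pool.Agent.Lib.MP_d2a91d_an
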