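import Pool.Agent.Lib.MP_d2a91d_an.Stmts4

/-!
Row P1 of MP_d2a91d (helper79): one variable, `n` finite points and the point at infinity.
-/

set_option autoImplicit false

namespace Pool.Agent.Lib.MP_d2a91d_an.H79

open Polynomial

/-- The operator of the next lemma on polynomials of degree at most `m`. -/
noncomputable def antiOp (a : ℕ) (p : ℝ) : ℝ[X] →ₗ[ℝ] ℝ[X] where
  toFun f := C ((a : ℝ) + 1) * f + (X - C p) * derivative f
  map_add' f g := by
    rw [derivative_add]
    ring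
  map_smul' c f := by
    rw [derivative_smul, RingHom.id_apply, smul_add, mul_smul_comm, mul_smul_comm]

theorem antiOp_apply (a : ℕ) (p : ℝ) (f : ℝ[X]) :
    antiOp a p f = C ((a : ℝ) + 1) * f + (X - C p) * derivative f := rfl

theorem antiOp_natDegree (a : ℕ) (p : ℝ) {m : ℕ} {f : ℝ[X]} (hf : f.natDegree ≤ m) :
    (antiOp a p f).natDegree ≤ m := by
  rw [antiOp_apply]
  refine (natDegree_add_le _ _).trans (max_le ((natDegree_C_mul_le _ _).trans hf) ?_)
  by_cases h0 : derivative f = 0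
  · rw [h0, mul_zero, natDegree_zero]
    exact Nat.zero_le _
  · refine natDegree_mul_le.trans ?_
    rw [natDegree_X_sub_C]
    have h1 : f.natDegree ≠ 0 := by
      intro h2
      apply h0
      rw [eq_C_of_natDegree_eq_zero h2, derivative_C]
    have h2 := natDegree_derivative_lt h1
    omega

theorem antiOp_inj (a : ℕ) (p : ℝ) {f : ℝ[X]} (h : antiOp a p f = 0) : f = 0 := by
  by_contra h0
  have h1 := congrArg (fun z => coeff z f.natDegree) h
  simp only [antiOp_apply, coeff_add, coeff_C_mul, coeff_zero] at h1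
  have h2 : ((X - C p) * derivative f).coeff f.natDegree = (f.natDegree : ℝ) * f.leadingCoeff := by
    rcases Nat.eq_zero_or_pos f.natDegree with hd | hd
    · rw [eq_C_of_natDegree_eq_zero hd, derivative_C, mul_zero, coeff_zero, natDegree_C]
      simp
    · obtain ⟨k, hk⟩ : ∃ k, f.natDegree = k + 1 := ⟨f.natDegree - 1, by omega⟩
      rw [sub_mul, coeff_sub, coeff_C_mul, hk, coeff_X_mul, coeff_derivative, coeff_derivative]
      have h3 : f.coeff (k + 1 + 1) = 0 := coeff_eq_zero_of_natDegree_lt (by omega)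
      rw [h3, leadingCoeff, hk]
      push_cast
      ring
  rw [h2] at h1
  have h3 : ((a : ℝ) + 1 + f.natDegree) * f.leadingCoeff = 0 := by
    rw [leadingCoeff] at h1 ⊢
    linarith
  have h4 : (0 : ℝ) < (a : ℝ) + 1 + f.natDegree := by positivity
  exact h0 (leadingCoeff_eq_zero.1 ((mul_eq_zero.1 h3).resolve_left h4.ne'))

/-- Integration from `p`. -/
theorem exists_anti (a : ℕ) (p : ℝ) {m : ℕ} {g : ℝ[X]} (hg : g.natDegree ≤ m) :
    ∃ g' : ℝ[X], g'.natDegree ≤ m ∧
      derivative ((X - C p) ^ (a + 1) * g') = (X - C p) ^ a * g := by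
  have hfd : FiniteDimensional ℝ (degreeLT ℝ (m + 1)) := finite_degreeLT _
  let F : degreeLT ℝ (m + 1) →ₗ[ℝ] degreeLT ℝ (m + 1) :=
    LinearMap.codRestrict _ ((antiOp a p) ∘ₗ Submodule.subtype _) (fun f =>
      mem_degreeLT_of (antiOp_natDegree a p (natDegree_of_mem f.2)))
  have hinj : Function.Injective F := by
    rw [injective_iff_map_eq_zero]
    intro f hf
    have h1 := congrArg Subtype.val hf
    exact Subtype.ext (antiOp_inj a p h1)
  obtain ⟨g', hg'⟩ := (LinearMap.injective_iff_surjective.1 hinj) ⟨g, mem_degreeLT_of hg⟩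
  refine ⟨g', natDegree_of_mem g'.2, ?_⟩
  have h1 : antiOp a p g' = g := congrArg Subtype.val hg'
  rw [derivative_mul, derivative_X_sub_C_pow, ← h1, antiOp_apply, Nat.add_sub_cancel, pow_succ]
  have h2 : ((a + 1 : ℕ) : ℝ) = (a : ℝ) + 1 := by push_cast; rfl
  rw [h2]
  ring

/-- Repeated integration from `p`. -/
theorem exists_anti_iter (a : ℕ) (p : ℝ) {m : ℕ} : ∀ (s : ℕ) {g : ℝ[X]}, g.natDegree ≤ m →
    ∃ g' : ℝ[X], g'.natDegree ≤ m ∧
      derivative^[s] ((X - C p) ^ (a + s) * g') = (X - C p) ^ a * g := by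
  intro s
  induction s with
  | zero => exact fun {g} hg => ⟨g, hg, rfl⟩
  | succ s ih =>
    intro g hg
    obtain ⟨g1, hg1, h1⟩ := ih hg
    obtain ⟨g2, hg2, h2⟩ := exists_anti (a + s) p hg1
    refine ⟨g2, hg2, ?_⟩
    rw [Function.iterate_succ_apply, ← add_assoc, h2, h1]

/-- Row P1 (with at least one point). -/
theorem P1 {n : ℕ} (hn : 1 ≤ n) {p : Fin n → ℝ} (hp : Function.Injective p) {s m r : ℕ}
    (hsm : s ≤ m) (h : r + 1 ≤ (n - 1) * (m + 1) + s) :
    ∃ (u : ℝ[X]) (g : Fin n → ℝ[X]), u ≠ 0 ∧ u.natDegree = s ∧ (∀ i, (g i).natDegree ≤ m) ∧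
      ∑ i, (X - C (p i)) ^ (r + 1) * g i = u := by
  rcases Nat.lt_or_ge r s with hs | hs
  · let i₀ : Fin n := ⟨0, by omega⟩
    refine ⟨(X - C (p i₀)) ^ s, Pi.single i₀ ((X - C (p i₀)) ^ (s - (r + 1))),
      pow_ne_zero _ (X_sub_C_ne_zero _), ?_, fun i => ?_, ?_⟩
    · rw [natDegree_pow, natDegree_X_sub_C, mul_one]
    · by_cases hi : i = i₀
      · rw [hi, Pi.single_eq_same, natDegree_pow, natDegree_X_sub_C, mul_one]
        omega
      · rw [Pi.single_eq_of_ne hi, natDegree_zero]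
        exact Nat.zero_le _
    · rw [Finset.sum_eq_single i₀]
      · rw [Pi.single_eq_same, ← pow_add]
        congr 1
        omega
      · intro i _ hi
        rw [Pi.single_eq_of_ne hi, mul_zero]
      · intro hcon
        exact absurd (Finset.mem_univ _) hcon
  · obtain ⟨a, ha⟩ : ∃ a, r + 1 = a + s := ⟨r + 1 - s, by omega⟩
    have hdim : m + a + 1 ≤ n * (m + 1) := by
      obtain ⟨n', rfl⟩ : ∃ n', n = n' + 1 := ⟨n - 1, by omega⟩
      rw [Nat.add_sub_cancel] at h
      rw [Nat.succ_mul]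
      omega
    obtain ⟨g, hg, hgs⟩ := surj_one hp hdim (C (s.factorial : ℝ)) (by
      rw [natDegree_C]
      exact Nat.zero_le _)
    choose g' hg' hgd using fun i => exists_anti_iter a (p i) s (hg i)
    have hder : derivative^[s] (∑ i, (X - C (p i)) ^ (r + 1) * g' i) =
        C (s.factorial : ℝ) := by
      rw [iterate_derivative_sum, ← hgs]
      refine Finset.sum_congr rfl fun i _ => ?_
      rw [ha, hgd]
    have hco : ∀ k, ((k + s).descFactorial s) •
        (∑ i, (X - C (p i)) ^ (r + 1) * g' i).coeff (k + s) =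
        if k = 0 then (s.factorial : ℝ) else 0 := by
      intro k
      rw [← coeff_iterate_derivative, hder, coeff_C]
    have hs0 : (∑ i, (X - C (p i)) ^ (r + 1) * g' i).coeff s = 1 := by
      have h1 := hco 0
      rw [zero_add, if_pos rfl, Nat.descFactorial_self, nsmul_eq_mul] at h1
      have h2 : (s.factorial : ℝ) ≠ 0 := by exact_mod_cast Nat.factorial_ne_zero s
      field_simp at h1
      exact h1
    have hne : ∑ i, (X - C (p i)) ^ (r + 1) * g' i ≠ 0 := by
      intro h1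
      rw [h1, coeff_zero] at hs0
      exact zero_ne_one hs0
    refine ⟨_, g', hne, ?_, hg', rfl⟩
    apply le_antisymm
    · rw [natDegree_le_iff_coeff_eq_zero]
      intro N hN
      obtain ⟨k, rfl⟩ : ∃ k, N = k + 1 + s := ⟨N - s - 1, by omega⟩
      have h1 := hco (k + 1)
      rw [if_neg (by omega), nsmul_eq_mul] at h1
      refine (mul_eq_zero.1 h1).resolve_left ?_
      have h2 : (k + 1 + s).descFactorial s ≠ 0 := by
        rw [Ne, Nat.descFactorial_eq_zero_iff_lt]
        omega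
      exact_mod_cast h2
    · apply le_natDegree_of_ne_zero
      rw [hs0]
      exact one_ne_zero

/-- One polynomial of degree `s` for all `M`. -/
theorem exists_u {m : ℕ} (hm : 1 ≤ m) {p : Fin m → ℝ} (hp : Function.Injective p) (r s : ℕ) :
    ∃ u : ℝ[X], u ≠ 0 ∧ u.natDegree = s ∧ ∀ M, s ≤ M → r + 1 ≤ (m - 1) * (M + 1) + s →
      ∃ g : Fin m → ℝ[X], (∀ i, (g i).natDegree ≤ M) ∧
        ∑ i, (X - C (p i)) ^ (r + 1) * g i = u := by
  classical
  by_cases hex : ∃ M, s ≤ M ∧ r + 1 ≤ (m - 1) * (M + 1) + s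
  · obtain ⟨h1, h2⟩ := Nat.find_spec hex
    obtain ⟨u, g, hu, hus, hg, hgu⟩ := P1 hm hp h1 h2
    refine ⟨u, hu, hus, fun M hM hM' => ⟨g, fun i => (hg i).trans ?_, hgu⟩⟩
    exact Nat.find_min' hex ⟨hM, hM'⟩
  · refine ⟨X ^ s, pow_ne_zero _ X_ne_zero, natDegree_X_pow s, fun M hM hM' => ?_⟩
    exact absurd ⟨M, hM, hM'⟩ hex

end Pool.Agent.Lib.MP_d2a91d_an.H79
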