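import Pool.Agent.Lib.MP_d2a91d_an.Stmts3
import Pool.Agent.Lib.MP_d2a91d_an.Real_42

namespace Pool.Agent.Lib.MP_d2a91d_an

theorem realV : Realises KV (fun i j => (zV i j : ℝ)) :=
  Real_42.realises_of_int KV zV sepV (by decide +kernel) (by decide +kernel) (by decide +kernel)

theorem realW : Realises KW (fun i j => (zW i j : ℝ)) :=
  Real_42.realises_of_int KW zW sepW (by decide +kernel) (by decide +kernel) (by decide +kernel)

end Pool.Agent.Lib.MP_d2a91d_an
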