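import Pool.Agent.Lib.MP_d2a91d_an.Stmts3

/-!
# Rows X3, X4: the two complexes are nice
-/

set_option autoImplicit false

namespace Pool.Agent.Lib.MP_d2a91d_an.X34_42

/-- one step of the search for tetrahedra reachable through triangles containing `g` -/
def grow {N : ℕ} (K : Finset (Finset (Fin N))) (g : Finset (Fin N))
    (S : Finset (Finset (Fin N))) : Finset (Finset (Fin N)) :=
  K.filter (fun b => b ∈ S ∨ (g ⊆ b ∧ ∃ a ∈ S, (a ∩ b).card = 3))

theorem chain_of_grow {N : ℕ} {K : Finset (Finset (Fin N))} {g t : Finset (Fin N)} (n : ℕ) :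
    ∀ b ∈ (grow K g)^[n] {t}, Relation.ReflTransGen
      (fun a b => b ∈ K ∧ (a ∩ b).card = 3 ∧ g ⊆ b) t b := by
  induction n with
  | zero =>
    intro b hb
    rw [Function.iterate_zero, id_eq, Finset.mem_singleton] at hb
    rw [hb]
  | succ n ih =>
    intro b hb
    rw [Function.iterate_succ_apply'] at hb
    obtain ⟨hbK, hb | ⟨hg, a, ha, hab⟩⟩ := Finset.mem_filter.mp hb
    · exact ih b hb
    · exact (ih a ha).tail ⟨hbK, hab, hg⟩

theorem int_KV : interiorFaces KV 2 = {{0, 3}, {0, 4}} := by decide +kernel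

theorem int_KW : interiorFaces KW 2 = {{0, 3}, {0, 6}} := by decide +kernel

theorem star_KV : ∀ t ∈ KV, ∀ t' ∈ KV, t' ∈ (grow KV (t ∩ t'))^[5] {t} := by
  decide +kernel

theorem star_KW : ∀ t ∈ KW, ∀ t' ∈ KW, t' ∈ (grow KW (t ∩ t'))^[6] {t} := by
  decide +kernel

/-- the adjacent pairs of `KV`, in one order -/
def pairsV : List (Finset (Fin 9) × Finset (Fin 9)) :=
  [({0, 1, 2, 3}, {0, 1, 2, 4}), ({0, 1, 3, 5}, {0, 1, 2, 3}), ({0, 1, 2, 3}, {0, 2, 3, 6}),
   ({0, 1, 4, 7}, {0, 1, 2, 4}), ({0, 1, 2, 4}, {0, 2, 4, 7}), ({0, 2, 4, 7}, {0, 1, 4, 7}),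
   ({0, 3, 5, 6}, {0, 1, 3, 5}), ({0, 2, 3, 6}, {0, 3, 5, 6}), ({0, 3, 5, 6}, {0, 5, 6, 8})]

theorem pairsV_spec : ∀ s ∈ KV, ∀ t ∈ KV, (s ∩ t).card = 3 → (s, t) ∈ pairsV ∨ (t, s) ∈ pairsV := by
  decide +kernel

/-- the adjacent pairs of `KW`, in one order -/
def pairsW : List (Finset (Fin 9) × Finset (Fin 9)) :=
  [({0, 1, 2, 3}, {0, 1, 2, 4}), ({0, 1, 3, 5}, {0, 1, 2, 3}), ({0, 1, 2, 3}, {0, 2, 3, 6}),
   ({0, 1, 2, 4}, {0, 1, 4, 7}), ({0, 3, 5, 6}, {0, 1, 3, 5}), ({0, 1, 4, 7}, {0, 4, 7, 8}),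
   ({0, 2, 5, 6}, {0, 2, 3, 6}), ({0, 2, 3, 6}, {0, 3, 5, 6}), ({0, 3, 5, 6}, {0, 2, 5, 6})]

theorem pairsW_spec : ∀ s ∈ KW, ∀ t ∈ KW, (s ∩ t).card = 3 → (s, t) ∈ pairsW ∨ (t, s) ∈ pairsW := by
  decide +kernel

theorem exact_V (A : Type) [AddCommGroup A] (w : Finset (Fin 9) → Finset (Fin 9) → A)
    (hw : ∀ s t, w s t = - w t s)
    (hz : ∀ e ∈ interiorFaces KV 2,
      ∑ i ∈ Finset.range (degree KV e), w (cycV e i) (cycV e (i + 1)) = 0) :
    ∃ u : Finset (Fin 9) → A, ∀ s ∈ KV, ∀ t ∈ KV, (s ∩ t).card = 3 → w s t = u t - u s := by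
  have z3 := hz {0, 3} (by rw [int_KV]; decide)
  have z4 := hz {0, 4} (by rw [int_KV]; decide)
  rw [show degree KV {0, 3} = 4 by decide +kernel] at z3
  rw [show degree KV {0, 4} = 3 by decide +kernel] at z4
  simp only [Finset.sum_range_succ, Finset.sum_range_zero, zero_add] at z3 z4
  rw [show cycV {0, 3} 0 = {0, 1, 2, 3} by decide, show cycV {0, 3} 1 = {0, 2, 3, 6} by decide,
    show cycV {0, 3} 2 = {0, 3, 5, 6} by decide,
    show cycV {0, 3} 3 = {0, 1, 3, 5} by decide,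
    show cycV {0, 3} (3 + 1) = {0, 1, 2, 3} by decide] at z3
  rw [show cycV {0, 4} 0 = {0, 1, 2, 4} by decide, show cycV {0, 4} 1 = {0, 2, 4, 7} by decide,
    show cycV {0, 4} 2 = {0, 1, 4, 7} by decide,
    show cycV {0, 4} (2 + 1) = {0, 1, 2, 4} by decide] at z4
  let u : Finset (Fin 9) → A := fun s =>
    if s = {0, 1, 2, 3} then 0
    else if s = {0, 1, 2, 4} then w {0, 1, 2, 3} {0, 1, 2, 4}
    else if s = {0, 2, 3, 6} then w {0, 1, 2, 3} {0, 2, 3, 6}
    else if s = {0, 3, 5, 6} then w {0, 1, 2, 3} {0, 2, 3, 6} + w {0, 2, 3, 6} {0, 3, 5, 6}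
    else if s = {0, 1, 3, 5} then w {0, 1, 2, 3} {0, 2, 3, 6} + w {0, 2, 3, 6} {0, 3, 5, 6}
      + w {0, 3, 5, 6} {0, 1, 3, 5}
    else if s = {0, 2, 4, 7} then w {0, 1, 2, 3} {0, 1, 2, 4} + w {0, 1, 2, 4} {0, 2, 4, 7}
    else if s = {0, 1, 4, 7} then w {0, 1, 2, 3} {0, 1, 2, 4} + w {0, 1, 2, 4} {0, 2, 4, 7}
      + w {0, 2, 4, 7} {0, 1, 4, 7}
    else w {0, 1, 2, 3} {0, 2, 3, 6} + w {0, 2, 3, 6} {0, 3, 5, 6} + w {0, 3, 5, 6} {0, 5, 6, 8}
  have u1 : u {0, 1, 2, 3} = 0 := if_pos rfl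
  have u2 : u {0, 1, 2, 4} = w {0, 1, 2, 3} {0, 1, 2, 4} := by
    show (if _ then _ else _) = _
    rw [if_neg (by decide), if_pos rfl]
  have u3 : u {0, 2, 3, 6} = w {0, 1, 2, 3} {0, 2, 3, 6} := by
    show (if _ then _ else _) = _
    rw [if_neg (by decide), if_neg (by decide), if_pos rfl]
  have u4 : u {0, 3, 5, 6} = w {0, 1, 2, 3} {0, 2, 3, 6} + w {0, 2, 3, 6} {0, 3, 5, 6} := by
    show (if _ then _ else _) = _
    rw [if_neg (by decide), if_neg (by decide), if_neg (by decide), if_pos rfl]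
  have u5 : u {0, 1, 3, 5} = w {0, 1, 2, 3} {0, 2, 3, 6} + w {0, 2, 3, 6} {0, 3, 5, 6}
      + w {0, 3, 5, 6} {0, 1, 3, 5} := by
    show (if _ then _ else _) = _
    rw [if_neg (by decide), if_neg (by decide), if_neg (by decide), if_neg (by decide), if_pos rfl]
  have u6 : u {0, 2, 4, 7} = w {0, 1, 2, 3} {0, 1, 2, 4} + w {0, 1, 2, 4} {0, 2, 4, 7} := by
    show (if _ then _ else _) = _
    rw [if_neg (by decide), if_neg (by decide), if_neg (by decide), if_neg (by decide),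
      if_neg (by decide), if_pos rfl]
  have u7 : u {0, 1, 4, 7} = w {0, 1, 2, 3} {0, 1, 2, 4} + w {0, 1, 2, 4} {0, 2, 4, 7}
      + w {0, 2, 4, 7} {0, 1, 4, 7} := by
    show (if _ then _ else _) = _
    rw [if_neg (by decide), if_neg (by decide), if_neg (by decide), if_neg (by decide),
      if_neg (by decide), if_neg (by decide), if_pos rfl]
  have u8 : u {0, 5, 6, 8} = w {0, 1, 2, 3} {0, 2, 3, 6} + w {0, 2, 3, 6} {0, 3, 5, 6}
      + w {0, 3, 5, 6} {0, 5, 6, 8} := by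
    show (if _ then _ else _) = _
    rw [if_neg (by decide), if_neg (by decide), if_neg (by decide), if_neg (by decide),
      if_neg (by decide), if_neg (by decide), if_neg (by decide)]
  have key : ∀ q ∈ pairsV, w q.1 q.2 = u q.2 - u q.1 := by
    unfold pairsV
    simp only [List.forall_mem_cons]
    refine ⟨?_, ?_, ?_, ?_, ?_, ?_, ?_, ?_, ?_, List.forall_mem_nil _⟩
    · rw [u1, u2]; abel
    · rw [u1, u5, eq_neg_of_add_eq_zero_right z3]; abel
    · rw [u1, u3]; abel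
    · rw [u7, u2, eq_neg_of_add_eq_zero_right z4]; abel
    · rw [u2, u6]; abel
    · rw [u6, u7]; abel
    · rw [u4, u5]; abel
    · rw [u3, u4]; abel
    · rw [u4, u8]; abel
  refine ⟨u, fun s hs t ht hst => ?_⟩
  rcases pairsV_spec s hs t ht hst with h | h
  · exact key (s, t) h
  · rw [hw s t, key (t, s) h]; abel

theorem exact_W (A : Type) [AddCommGroup A] (w : Finset (Fin 9) → Finset (Fin 9) → A)
    (hw : ∀ s t, w s t = - w t s)
    (hz : ∀ e ∈ interiorFaces KW 2,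
      ∑ i ∈ Finset.range (degree KW e), w (cycW e i) (cycW e (i + 1)) = 0) :
    ∃ u : Finset (Fin 9) → A, ∀ s ∈ KW, ∀ t ∈ KW, (s ∩ t).card = 3 → w s t = u t - u s := by
  have z3 := hz {0, 3} (by rw [int_KW]; decide)
  have z6 := hz {0, 6} (by rw [int_KW]; decide)
  rw [show degree KW {0, 3} = 4 by decide +kernel] at z3
  rw [show degree KW {0, 6} = 3 by decide +kernel] at z6
  simp only [Finset.sum_range_succ, Finset.sum_range_zero, zero_add] at z3 z6
  rw [show cycW {0, 3} 0 = {0, 1, 2, 3} by decide, show cycW {0, 3} 1 = {0, 2, 3, 6} by decide,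
    show cycW {0, 3} 2 = {0, 3, 5, 6} by decide,
    show cycW {0, 3} 3 = {0, 1, 3, 5} by decide,
    show cycW {0, 3} (3 + 1) = {0, 1, 2, 3} by decide] at z3
  rw [show cycW {0, 6} 0 = {0, 2, 3, 6} by decide, show cycW {0, 6} 1 = {0, 3, 5, 6} by decide,
    show cycW {0, 6} 2 = {0, 2, 5, 6} by decide,
    show cycW {0, 6} (2 + 1) = {0, 2, 3, 6} by decide] at z6
  let u : Finset (Fin 9) → A := fun s =>
    if s = {0, 1, 2, 3} then 0
    else if s = {0, 1, 2, 4} then w {0, 1, 2, 3} {0, 1, 2, 4}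
    else if s = {0, 2, 3, 6} then w {0, 1, 2, 3} {0, 2, 3, 6}
    else if s = {0, 3, 5, 6} then w {0, 1, 2, 3} {0, 2, 3, 6} + w {0, 2, 3, 6} {0, 3, 5, 6}
    else if s = {0, 1, 3, 5} then w {0, 1, 2, 3} {0, 2, 3, 6} + w {0, 2, 3, 6} {0, 3, 5, 6}
      + w {0, 3, 5, 6} {0, 1, 3, 5}
    else if s = {0, 2, 5, 6} then w {0, 1, 2, 3} {0, 2, 3, 6} + w {0, 2, 3, 6} {0, 3, 5, 6}
      + w {0, 3, 5, 6} {0, 2, 5, 6}
    else if s = {0, 1, 4, 7} then w {0, 1, 2, 3} {0, 1, 2, 4} + w {0, 1, 2, 4} {0, 1, 4, 7}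
    else w {0, 1, 2, 3} {0, 1, 2, 4} + w {0, 1, 2, 4} {0, 1, 4, 7} + w {0, 1, 4, 7} {0, 4, 7, 8}
  have u1 : u {0, 1, 2, 3} = 0 := if_pos rfl
  have u2 : u {0, 1, 2, 4} = w {0, 1, 2, 3} {0, 1, 2, 4} := by
    show (if _ then _ else _) = _
    rw [if_neg (by decide), if_pos rfl]
  have u3 : u {0, 2, 3, 6} = w {0, 1, 2, 3} {0, 2, 3, 6} := by
    show (if _ then _ else _) = _
    rw [if_neg (by decide), if_neg (by decide), if_pos rfl]
  have u4 : u {0, 3, 5, 6} = w {0, 1, 2, 3} {0, 2, 3, 6} + w {0, 2, 3, 6} {0, 3, 5, 6} := by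
    show (if _ then _ else _) = _
    rw [if_neg (by decide), if_neg (by decide), if_neg (by decide), if_pos rfl]
  have u5 : u {0, 1, 3, 5} = w {0, 1, 2, 3} {0, 2, 3, 6} + w {0, 2, 3, 6} {0, 3, 5, 6}
      + w {0, 3, 5, 6} {0, 1, 3, 5} := by
    show (if _ then _ else _) = _
    rw [if_neg (by decide), if_neg (by decide), if_neg (by decide), if_neg (by decide), if_pos rfl]
  have u6 : u {0, 2, 5, 6} = w {0, 1, 2, 3} {0, 2, 3, 6} + w {0, 2, 3, 6} {0, 3, 5, 6}
      + w {0, 3, 5, 6} {0, 2, 5, 6} := by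
    show (if _ then _ else _) = _
    rw [if_neg (by decide), if_neg (by decide), if_neg (by decide), if_neg (by decide),
      if_neg (by decide), if_pos rfl]
  have u7 : u {0, 1, 4, 7} = w {0, 1, 2, 3} {0, 1, 2, 4} + w {0, 1, 2, 4} {0, 1, 4, 7} := by
    show (if _ then _ else _) = _
    rw [if_neg (by decide), if_neg (by decide), if_neg (by decide), if_neg (by decide),
      if_neg (by decide), if_neg (by decide), if_pos rfl]
  have u8 : u {0, 4, 7, 8} = w {0, 1, 2, 3} {0, 1, 2, 4} + w {0, 1, 2, 4} {0, 1, 4, 7}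
      + w {0, 1, 4, 7} {0, 4, 7, 8} := by
    show (if _ then _ else _) = _
    rw [if_neg (by decide), if_neg (by decide), if_neg (by decide), if_neg (by decide),
      if_neg (by decide), if_neg (by decide), if_neg (by decide)]
  have key : ∀ q ∈ pairsW, w q.1 q.2 = u q.2 - u q.1 := by
    unfold pairsW
    simp only [List.forall_mem_cons]
    refine ⟨?_, ?_, ?_, ?_, ?_, ?_, ?_, ?_, ?_, List.forall_mem_nil _⟩
    · rw [u1, u2]; abel
    · rw [u1, u5, eq_neg_of_add_eq_zero_right z3]; abel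
    · rw [u1, u3]; abel
    · rw [u2, u7]; abel
    · rw [u4, u5]; abel
    · rw [u7, u8]; abel
    · rw [u6, u3, eq_neg_of_add_eq_zero_right z6]; abel
    · rw [u3, u4]; abel
    · rw [u4, u6]; abel
  refine ⟨u, fun s hs t ht hst => ?_⟩
  rcases pairsW_spec s hs t ht hst with h | h
  · exact key (s, t) h
  · rw [hw s t, key (t, s) h]; abel

/-- (X3) -/
theorem stX3_42 : StX3 where
  two := by decide +kernel
  three := by rw [int_KV]; decide +kernel
  mem := by rw [int_KV]; decide +kernel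
  inj := by
    have h : ∀ e ∈ ({{0, 3}, {0, 4}} : Finset (Finset (Fin 9))), ∀ i, i < degree KV e →
        ∀ j, j < degree KV e → cycV e i = cycV e j → i = j := by decide +kernel
    rw [int_KV]
    exact fun e he i j hi hj => h e he i hi j hj
  close := by rw [int_KV]; decide +kernel
  adj := by rw [int_KV]; decide +kernel
  star := fun t ht t' ht' => chain_of_grow 5 t' (star_KV t ht t' ht')
  exact := exact_V

/-- (X4) -/
theorem stX4_42 : StX4 where
  two := by decide +kernel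
  three := by rw [int_KW]; decide +kernel
  mem := by rw [int_KW]; decide +kernel
  inj := by
    have h : ∀ e ∈ ({{0, 3}, {0, 6}} : Finset (Finset (Fin 9))), ∀ i, i < degree KW e →
        ∀ j, j < degree KW e → cycW e i = cycW e j → i = j := by decide +kernel
    rw [int_KW]
    exact fun e he i j hi hj => h e he i hi j hj
  close := by rw [int_KW]; decide +kernel
  adj := by rw [int_KW]; decide +kernel
  star := fun t ht t' ht' => chain_of_grow 6 t' (star_KW t ht t' ht')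
  exact := exact_W

end Pool.Agent.Lib.MP_d2a91d_an.X34_42
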