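import Pool.Agent.Lib.MP_d2a91d_an.Gen6
import Pool.Agent.Lib.MP_d2a91d_an.Fin9
import Pool.Agent.Lib.MP_d2a91d_an.X12
import Pool.Agent.Lib.MP_d2a91d_an.X34_42
import Pool.Agent.Lib.MP_d2a91d_an.L_79

namespace Pool.Agent.Lib.MP_d2a91d_an

open MvPolynomial

/-- Affine independence, checked over the integers. -/
theorem affInd_of_int {N : ℕ} (s : Finset (Fin N)) (z : Fin N → Fin 3 → ℤ)
    (L : List (ℤ × ℤ × ℤ × ℤ))
    (hbar : ∀ i ∈ s, ∃ c ∈ L, Real_42.lz c (z i) ≠ 0 ∧ ∀ j ∈ s, j ≠ i →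
      Real_42.lz c (z j) = 0) :
    AffineIndependent ℝ (fun i : s => (fun j => (z i j : ℝ))) := by
  classical
  rw [affineIndependent_iff]
  intro u w h0 h1 e he
  obtain ⟨c, _, hc, hc'⟩ := hbar e.1 e.2
  have h2 := Real_42.lr_sum c u w (fun i : s => (fun j => (z i j : ℝ))) h0 h1
  rw [Finset.sum_eq_single e] at h2
  · rw [Real_42.lr_cast] at h2
    rcases mul_eq_zero.mp h2 with h3 | h3
    · exact h3
    · exact absurd (by exact_mod_cast h3) hc
  · intro j _ hj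
    rw [Real_42.lr_cast, hc' j.1 j.2 (fun h => hj (Subtype.ext h)), Int.cast_zero, mul_zero]
  · intro h; exact absurd he h

/-- Planes for the check of `distV`. -/
def plV : List (ℤ × ℤ × ℤ × ℤ) :=
  [(0, 0, -1, 0), (1, 1, 0, 0), (2, 5, 6, -6), (0, 1, 0, 0), (-1, 1, 0, 0), (-2, 5, -6, 6),
   (-1, 0, 0, 0), (1, 1, 3, -3), (1, 0, -2, 2), (-1, 2, 6, -6), (-5, 2, 6, -6),
   (0, -1, -3, 3), (-1, -2, -6, 6), (2, 1, 6, -6), (1, 0, 3, -3)]

/-- The triangles at the interior edges of `KV`. -/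
theorem at03 : (faces KV 3).filter (fun f => {0, 3} ⊆ f) =
    {{0, 1, 3}, {0, 2, 3}, {0, 3, 5}, {0, 3, 6}} := by rw [fV3]; decide +kernel

theorem at04 : (faces KV 3).filter (fun f => {0, 4} ⊆ f) =
    {{0, 1, 4}, {0, 2, 4}, {0, 4, 7}} := by rw [fV3]; decide +kernel

theorem dist_of {e : Finset (Fin 9)} {F : Finset (Finset (Fin 9))}
    (hF : (faces KV 3).filter (fun f => e ⊆ f) = F)
    (h : ∀ f ∈ F, ∀ g ∈ F, f ≠ g → ∀ i ∈ f ∪ g, ∃ c ∈ plV, Real_42.lz c (zV i) ≠ 0 ∧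
      ∀ j ∈ f ∪ g, j ≠ i → Real_42.lz c (zV j) = 0) :
    DistinctAt KV (fun i j => (zV i j : ℝ)) e := by
  intro f hf g hg hef heg hfg
  have h1 : f ∈ F := by rw [← hF]; exact Finset.mem_filter.mpr ⟨hf, hef⟩
  have h2 : g ∈ F := by rw [← hF]; exact Finset.mem_filter.mpr ⟨hg, heg⟩
  exact affInd_of_int _ zV plV (h f h1 g h2 hfg)

theorem distV : ∀ e ∈ interiorFaces KV 2, DistinctAt KV (fun i j => (zV i j : ℝ)) e := by
  intro e he
  rw [iV2, Finset.mem_insert, Finset.mem_singleton] at he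
  rcases he with rfl | rfl
  · exact dist_of at03 (by decide +kernel)
  · exact dist_of at04 (by decide +kernel)

theorem sepV' : Sep KV := by
  unfold Sep
  rw [fV3, iV2]
  decide +kernel

theorem sum_eq : ∀ r d, ∑ e ∈ interiorFaces KV 2, lam (degree KV e) r d =
    ∑ e ∈ interiorFaces KW 2, lam (degree KW e) r d := by
  intro r d
  have d1 : degree KV {0, 3} = 4 := by decide +kernel
  have d2 : degree KV {0, 4} = 3 := by decide +kernel
  have d3 : degree KW {0, 3} = 4 := by decide +kernel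
  have d4 : degree KW {0, 6} = 3 := by decide +kernel
  rw [iV2, iW2, Finset.sum_pair (by decide), Finset.sum_pair (by decide), d1, d2, d3, d4]

theorem pair_lt (r k : ℕ) (hr : 2 ≤ r) (hk : r + 1 ≤ k) : genDim r k KV < genDim r k KW := by
  obtain ⟨d, rfl⟩ : ∃ d, k = d + r + 1 := ⟨k - (r + 1), by omega⟩
  have h1 := gen_two H79.L0 H79.L1 H79.L3 ⟨{0, 1, 2, 3}, by decide⟩ X34_42.stX3_42 sepV' r d
    ⟨_, realV, distV⟩
  have h2 := gen_three H79.L0 H79.L1 H79.L2 H79.L4 ⟨{0, 1, 2, 3}, by decide⟩ X34_42.stX4_42 r d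
    ⟨_, realW⟩
    (e := {0, 3}) (e' := {0, 6}) (g := {0, 3, 6}) (by rw [iW2]; decide) (by rw [iW2]; decide)
    (by decide) (by rw [fW3]; decide +kernel) (by decide) (by decide)
    (by have : degree KW {0, 3} = 4 := by decide +kernel
        omega)
    (by have : degree KW {0, 6} = 3 := by decide +kernel
        omega)
  have h3 := sum_eq r d
  have h4 : (interiorFaces KV 3).card = (interiorFaces KW 3).card := (cardsVW 3 (by norm_num)).2
  rw [h4] at h1
  omega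

end Pool.Agent.Lib.MP_d2a91d_an
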