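import Pool.Agent.Lib.MP_d2a91d_an.G3

namespace Pool.Agent.Lib.MP_d2a91d_an

open MvPolynomial Set

theorem eval_comb {l : MvPolynomial (Fin 3) ℝ} (hl : l.totalDegree ≤ 1) (x y : Fin 3 → ℝ)
    {a b : ℝ} (hab : a + b = 1) :
    eval (a • x + b • y) l = a * eval x l + b * eval y l := by
  have key : ∀ z : Fin 3 → ℝ, eval z l = eval 0 l +
      ∑ i, (eval (Pi.single i 1) l - eval 0 l) * z i := by
    intro z
    conv_lhs => rw [eq_of_totalDegree_le_one l hl]
    simp
  rw [key (a • x + b • y), key x, key y]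
  simp only [Fin.sum_univ_three, Pi.add_apply, Pi.smul_apply, smul_eq_mul]
  linear_combination -(eval 0 l) * hab

theorem vanish_tet {N : ℕ} (p : Fin N → Fin 3 → ℝ) (g : Finset (Fin N))
    {l : MvPolynomial (Fin 3) ℝ} (hl : l.totalDegree ≤ 1) (h : ∀ i ∈ g, eval (p i) l = 0) :
    ∀ x ∈ tet p g, eval x l = 0 := by
  have hconv : Convex ℝ {x | eval x l = 0} := by
    intro x hx y hy a b _ _ hab
    show eval (a • x + b • y) l = 0
    rw [eval_comb hl x y hab, show eval x l = 0 from hx, show eval y l = 0 from hy]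
    ring
  intro x hx
  refine convexHull_min ?_ hconv hx
  rintro _ ⟨j, hj, rfl⟩
  exact h j hj

/-- The plane through three points. -/
noncomputable def pl (a b c : Fin 3 → ℝ) : MvPolynomial (Fin 3) ℝ :=
  C ((b 1 - a 1) * (c 2 - a 2) - (b 2 - a 2) * (c 1 - a 1)) * (X 0 - C (a 0)) +
  C ((b 2 - a 2) * (c 0 - a 0) - (b 0 - a 0) * (c 2 - a 2)) * (X 1 - C (a 1)) +
  C ((b 0 - a 0) * (c 1 - a 1) - (b 1 - a 1) * (c 0 - a 0)) * (X 2 - C (a 2))

theorem totalDegree_pl (a b c : Fin 3 → ℝ) : (pl a b c).totalDegree ≤ 1 := by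
  have h : ∀ (u v : ℝ) (i : Fin 3), (C u * (X i - C v) : MvPolynomial (Fin 3) ℝ).totalDegree ≤ 1 := by
    intro u v i
    refine (totalDegree_mul _ _).trans ?_
    rw [totalDegree_C, zero_add]
    refine (totalDegree_sub _ _).trans (max_le (by simp) (by simp))
  unfold pl
  exact (totalDegree_add _ _).trans (max_le ((totalDegree_add _ _).trans
    (max_le (h _ _ _) (h _ _ _))) (h _ _ _))

theorem eval_pl (a b c x : Fin 3 → ℝ) :
    eval x (pl a b c) = (cols (x - a) (b - a) (c - a)).det := by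
  unfold pl
  rw [Matrix.det_fin_three]
  simp [cols]
  ring

/-- The determinant of three vectors. -/
def dt (u v w : Fin 3 → ℝ) : ℝ := (cols u v w).det

theorem dt_eq (u v w : Fin 3 → ℝ) : dt u v w =
    u 0 * v 1 * w 2 - u 0 * w 1 * v 2 - v 0 * u 1 * w 2 + v 0 * w 1 * u 2 + w 0 * u 1 * v 2 -
      w 0 * v 1 * u 2 := by
  unfold dt
  rw [Matrix.det_fin_three]
  simp [cols]

theorem eval_pl_add (a b c v : Fin 3 → ℝ) :
    eval (a + v) (pl a b c) = dt v (b - a) (c - a) := by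
  rw [eval_pl, add_sub_cancel_left]; rfl

theorem eval_pl_sub (a b c x : Fin 3 → ℝ) :
    eval x (pl a b c) = dt (x - a) (b - a) (c - a) := eval_pl a b c x

theorem dt_smul_add (u u' v w : Fin 3 → ℝ) (s s' : ℝ) :
    dt (s • u + s' • u') v w = s * dt u v w + s' * dt u' v w := by
  simp only [dt_eq, Pi.add_apply, Pi.smul_apply, smul_eq_mul]
  ring

theorem totalDegree_pow_eq {l : MvPolynomial (Fin 3) ℝ} (hl : l ≠ 0) (n : ℕ) :
    (l ^ n).totalDegree = n * l.totalDegree := by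
  induction n with
  | zero => simp
  | succ n ih =>
    rw [pow_succ, totalDegree_mul_of_isDomain (pow_ne_zero _ hl) hl, ih]
    ring

/-- The exact quotient has the right degree. -/
theorem exists_quot {r d : ℕ} {l D : MvPolynomial (Fin 3) ℝ} (hl : l.totalDegree = 1)
    (hdvd : l ^ (r + 1) ∣ D) (hD : D.totalDegree ≤ d + (r + 1)) :
    ∃ q ∈ restrictTotalDegree (Fin 3) ℝ d, D = l ^ (r + 1) * q := by
  obtain ⟨q, rfl⟩ := hdvd
  refine ⟨q, ?_, rfl⟩
  rw [mem_restrictTotalDegree]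
  by_cases hq : q = 0
  · simp [hq]
  have hl0 : l ≠ 0 := by
    rintro rfl; simp at hl
  rw [totalDegree_mul_of_isDomain (pow_ne_zero _ hl0) hq, totalDegree_pow_eq hl0] at hD
  rw [hl] at hD
  omega

theorem totalDegree_eq_one {l : MvPolynomial (Fin 3) ℝ} (hl : l.totalDegree ≤ 1)
    {x : Fin 3 → ℝ} (hx : eval x l = 0) (h0 : l ≠ 0) : l.totalDegree = 1 := by
  refine le_antisymm hl ?_
  by_contra h
  have h' : l.totalDegree = 0 := by omega
  rw [totalDegree_eq_zero_iff_eq_C] at h'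
  rw [h', eval_C] at hx
  rw [hx] at h'
  exact h0 (by simpa using h')

end Pool.Agent.Lib.MP_d2a91d_an
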