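import Pool.Agent.Lib.MP_d2a91d_an.Stmts10

/-!
MP_d2a91d, row R1: the defect of the closing conditions, through functionals.
-/

namespace Pool.Agent.Lib.MP_d2a91d_an

open MvPolynomial

namespace R1_42

variable {N : ℕ} {K A : Finset (Finset (Fin N))} {p : Fin N → Fin 3 → ℝ}
  {cyc : Finset (Fin N) → ℕ → Finset (Fin N)}

theorem GG_apply (hA : A ⊆ interiorFaces K 2) (hcard : ∀ t ∈ K, t.card = 4)
    (hcyc : Nice K cyc) (d : ℕ) (q : interiorFaces K 3 → restrictTotalDegree (Fin 3) ℝ d)
    (e : A) (i : Fin (degree K e.1)) :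
    GG K A cyc d q e i = ss cyc e.1 i •
      q ⟨fi cyc e.1 i, fi_mem hcard hcyc (hA e.2) i.2⟩ := by
  unfold GG
  rw [LinearMap.pi_apply, LinearMap.pi_apply, LinearMap.smul_apply,
    dif_pos (fi_mem hcard hcyc (hA e.2) i.2), LinearMap.proj_apply]

theorem PTB_comp (hA : A ⊆ interiorFaces K 2) (hcard : ∀ t ∈ K, t.card = 4)
    (hcyc : Nice K cyc) (r d : ℕ) :
    PTB K cyc p r d A = (Z2_42.PhiAll K A cyc p r d) ∘ₗ (GG K A cyc d) := by
  refine LinearMap.ext fun q => ?_
  funext e
  rw [Z2_42.PTB_eq_Phi hA hcard hcyc, LinearMap.comp_apply, Z2_42.PhiAll_apply]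
  congr 1
  funext i
  rw [GG_apply hA hcard hcyc]
  rfl

theorem finrank_range_PhiAll (r d : ℕ) :
    Module.finrank ℝ (LinearMap.range (Z2_42.PhiAll K A cyc p r d)) =
      ∑ e : A, Module.finrank ℝ (LinearMap.range (Phi r d (le K cyc p e.1))) := by
  have hr : LinearMap.range (Z2_42.PhiAll K A cyc p r d) =
      Submodule.pi Set.univ (fun e => LinearMap.range (Phi r d (le K cyc p e.1))) := by
    apply le_antisymm
    · rintro _ ⟨v, rfl⟩ e _
      exact ⟨v e, rfl⟩
    · intro y hy
      choose x hx using fun e => hy e trivial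
      exact ⟨x, funext hx⟩
  rw [hr]
  let f : Submodule.pi Set.univ (fun e : A =>
      LinearMap.range (Phi r d (le K cyc p e.1))) ≃ₗ[ℝ]
      (∀ e : A, LinearMap.range (Phi r d (le K cyc p e.1))) :=
    { toFun := fun x i => ⟨x.1 i, x.2 i trivial⟩
      invFun := fun y => ⟨fun i => (y i).1, fun i _ => (y i).2⟩
      left_inv := fun x => rfl
      right_inv := fun y => rfl
      map_add' := fun x y => rfl
      map_smul' := fun c x => rfl }
  rw [f.finrank_eq, Module.finrank_pi_fintype]

end R1_42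

open R1_42 in
theorem stR1_42 : StR1 := by
  classical
  intro N K cyc p r d A hp hcyc hA hdist
  have h4 : ∑ e : A,
      Module.finrank ℝ (LinearMap.range (Phi r d (le K cyc p e.1))) =
      ∑ e ∈ A, lam (degree K e) r d := by
    rw [← Finset.sum_coe_sort (A) (fun e => lam (degree K e) r d)]
    refine Finset.sum_congr rfl fun e _ => ?_
    obtain ⟨u, hu, v, hv, huv⟩ := exists_ends_w hp (hA e.2)
    have hpen := pencil_w hp hcyc (hA e.2) (hdist e.1 e.2) hu hv
    exact H79.L3 _ r d _ (p u) (p v) huv hpen.deg hpen.van hpen.dist hpen.ne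
  have h5 := finrank_range_PhiAll (K := K) (A := A) (cyc := cyc) (p := p) r d
  rw [h4] at h5
  have a1 := H79.rank_restrict (Z2_42.PhiAll K A cyc p r d) (LinearMap.range (GG K A cyc d))
  have a2 : Module.finrank ℝ (LinearMap.range (PTB K cyc p r d A)) =
      Module.finrank ℝ ((LinearMap.range (GG K A cyc d)).map (Z2_42.PhiAll K A cyc p r d)) := by
    rw [PTB_comp hA hp.card hcyc, LinearMap.range_comp]
  have a3 := LinearMap.finrank_range_add_finrank_ker (Z2_42.PhiAll K A cyc p r d)
  have a4 := Submodule.finrank_sup_add_finrank_inf_eq (LinearMap.range (GG K A cyc d))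
    (LinearMap.ker (Z2_42.PhiAll K A cyc p r d))
  have a5 := Subspace.finrank_add_finrank_dualAnnihilator_eq (LinearMap.range (GG K A cyc d) ⊔
    LinearMap.ker (Z2_42.PhiAll K A cyc p r d))
  rw [inf_comm] at a4
  unfold BB
  omega

end Pool.Agent.Lib.MP_d2a91d_an
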