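import Pool.Agent.Lib.MP_d2a91d_an.Defs

namespace Pool.Agent.Lib.MP_d2a91d_an

open MvPolynomial

/-! Two types. -/

/-- The type with two interior edges that do not lie in a common face. -/
def KN : Finset (Finset (Fin 7)) :=
  {{0, 1, 2, 3}, {0, 1, 2, 4}, {0, 1, 3, 4}, {1, 2, 3, 5}, {2, 3, 5, 6}, {0, 2, 3, 6}}

/-- The type with two interior edges in a common face. -/
def KA : Finset (Finset (Fin 7)) :=
  {{0, 1, 2, 3}, {0, 1, 2, 4}, {0, 1, 3, 4}, {0, 2, 3, 5}, {0, 2, 4, 5}, {0, 3, 4, 6}}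

/-! Rows. -/

/-- The map `(q_i) ↦ ∑ l_i^(r+1) q_i` on polynomials of total degree at most `d`. -/
noncomputable def Phi (r d : ℕ) {n : ℕ} (l : Fin n → MvPolynomial (Fin 3) ℝ) :
    (Fin n → restrictTotalDegree (Fin 3) ℝ d) →ₗ[ℝ] MvPolynomial (Fin 3) ℝ :=
  ∑ i, (LinearMap.mulLeft ℝ (l i ^ (r + 1))) ∘ₗ (Submodule.subtype _) ∘ₗ LinearMap.proj i

/-- `a` and `b` share a triangle. -/
def Adj {N : ℕ} (a b : Finset (Fin N)) : Prop := (a ∩ b).card = 3

/-- One step of a chain of tetrahedra containing `g`. -/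
def Stp {N : ℕ} (g a b : Finset (Fin N)) : Prop := (a = b ∨ (a ∩ b).card = 3) ∧ g ⊆ a ∩ b

/-- Any two tetrahedra are joined by a short chain of adjacent ones containing their meet. -/
def StarConn {N : ℕ} (K : Finset (Finset (Fin N))) : Prop :=
  ∀ t ∈ K, ∀ t' ∈ K, ∃ a ∈ K, ∃ b ∈ K, Stp (t ∩ t') t a ∧ Stp (t ∩ t') a b ∧ Stp (t ∩ t') b t'

open Classical in
/-- The function which is `P t` on the tetrahedron `t` (and `0` outside). -/
noncomputable def glue {N : ℕ} (K : Finset (Finset (Fin N))) (p : Fin N → Fin 3 → ℝ) :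
    (K → MvPolynomial (Fin 3) ℝ) →ₗ[ℝ] ((Fin 3 → ℝ) → ℝ) where
  toFun P x := if h : ∃ t : K, x ∈ tet p t.1 then eval x (P h.choose) else 0
  map_add' P Q := by
    funext x
    by_cases h : ∃ t : K, x ∈ tet p t.1
    · simp only [dif_pos h, Pi.add_apply, map_add]
    · simp only [dif_neg h, Pi.add_apply, add_zero]
  map_smul' c P := by
    funext x
    by_cases h : ∃ t : K, x ∈ tet p t.1
    · simp only [dif_pos h, Pi.smul_apply, smul_eval, smul_eq_mul, RingHom.id_apply]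
    · simp only [dif_neg h, Pi.smul_apply, smul_zero]

/-- (G1) The gluing map is injective. -/
def StG1 : Prop := ∀ (N : ℕ) (K : Finset (Finset (Fin N))) (p : Fin N → Fin 3 → ℝ),
  Realises K p → ∀ P : K → MvPolynomial (Fin 3) ℝ,
    (∀ t : K, ∀ x ∈ tet p t.1, glue K p P x = 0) → P = 0

/-- (G2) Gluing: divisibility across faces gives a spline. -/
def StG2 : Prop := ∀ (N r k : ℕ) (K : Finset (Finset (Fin N))) (p : Fin N → Fin 3 → ℝ),
  Realises K p → StarConn K → ∀ P : K → MvPolynomial (Fin 3) ℝ,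
    (∀ t, (P t).totalDegree ≤ k) →
    (∀ t t' : K, (t.1 ∩ t'.1).card = 3 → ∃ l : MvPolynomial (Fin 3) ℝ,
      (∀ x ∈ tet p (t.1 ∩ t'.1), eval x l = 0) ∧ l ^ (r + 1) ∣ P t - P t') →
    glue K p P ∈ Spline r k K p ∧ ∀ t : K, ∀ x ∈ tet p t.1, glue K p P x = eval x (P t)

/-- (G3) Necessity: the pieces of a spline differ by multiples of `l^(r+1)`. -/
def StG3 : Prop := ∀ (N r k : ℕ) (K : Finset (Finset (Fin N))) (p : Fin N → Fin 3 → ℝ),
  Realises K p → ∀ s ∈ Spline r k K p, ∃ P : K → MvPolynomial (Fin 3) ℝ,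
    (∀ t, (P t).totalDegree ≤ k) ∧ glue K p P = s ∧ (∀ t : K, ∀ x ∈ tet p t.1, s x = eval x (P t)) ∧
    (∀ t t' : K, (t.1 ∩ t'.1).card = 3 → ∀ l : MvPolynomial (Fin 3) ℝ, l ≠ 0 →
      l.totalDegree ≤ 1 → (∀ i ∈ t.1 ∩ t'.1, eval (p i) l = 0) → l ^ (r + 1) ∣ P t - P t')

/-- (R4) Four planes through a line: the rank is largest at the special position. -/
def StR4 : Prop := ∀ (r d : ℕ), 2 ≤ r → ∀ (l : Fin 4 → MvPolynomial (Fin 3) ℝ) (a b : Fin 3 → ℝ),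
  a ≠ b → (∀ i, (l i).totalDegree ≤ 1) → (∀ i, eval a (l i) = 0 ∧ eval b (l i) = 0) →
  Module.finrank ℝ (LinearMap.range (Phi r d l)) ≤
    Module.finrank ℝ (LinearMap.range (Phi r d ![X 1, X 0, X 0 + X 1, X 0 - X 1]))

/-- (R4s) The same, strictly, if two of the four planes coincide. -/
def StR4s : Prop := ∀ (r d : ℕ), 2 ≤ r → ∀ (l : Fin 4 → MvPolynomial (Fin 3) ℝ) (a b : Fin 3 → ℝ),
  a ≠ b → (∀ i, (l i).totalDegree ≤ 1) → (∀ i, eval a (l i) = 0 ∧ eval b (l i) = 0) →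
  (∃ i j : Fin 4, i ≠ j ∧ ∃ c c' : ℝ, c ≠ 0 ∧ c • l i = c' • l j) →
  Module.finrank ℝ (LinearMap.range (Phi r d l)) <
    Module.finrank ℝ (LinearMap.range (Phi r d ![X 1, X 0, X 0 + X 1, X 0 - X 1]))

/-- (R3) Three planes through a line. -/
def StR3 : Prop := ∀ (r d : ℕ) (l : Fin 3 → MvPolynomial (Fin 3) ℝ) (a b : Fin 3 → ℝ),
  a ≠ b → (∀ i, (l i).totalDegree ≤ 1) → (∀ i, eval a (l i) = 0 ∧ eval b (l i) = 0) →
  Module.finrank ℝ (LinearMap.range (Phi r d l)) ≤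
    Module.finrank ℝ (LinearMap.range (Phi r d
      ![X 2, X 0 + X 1 + X 2 - 1, X 0 + X 1 - 1 + 2 * X 2]))

/-- (RN), (RA) explicit realisations. -/
def posN : Fin 7 → Fin 3 → ℝ :=
  ![![1, 0, 0], ![0, 1, 0], ![0, 0, 0], ![0, 0, 1], ![1, 2, -1], ![-1, 1, 0], ![-1, -1, 0]]

def posA : Fin 7 → Fin 3 → ℝ :=
  ![![0, 0, 1], ![1, 1, 0], ![0, 0, 0], ![3, 0, 0], ![0, 3, 0], ![-1, -1, 0], ![2, 2, 1]]

def StRN : Prop := Realises KN posN
def StRA : Prop := Realises KA posA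

theorem starConn_KN : StarConn KN := by unfold StarConn Stp; decide +kernel
theorem starConn_KA : StarConn KA := by unfold StarConn Stp; decide +kernel

end Pool.Agent.Lib.MP_d2a91d_an
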