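import Pool.Agent.Lib.MP_d2a91d_an.Stmts6

/-!
MP_d2a91d_an, row Z2: the rank of the closing conditions at a set `A` of interior edges, each with
at most one partner in `A`. The proofs are those of `Match`, `Match2` and `Weak` with `A` in the
place of the set of all interior edges.
-/

namespace Pool.Agent.Lib.MP_d2a91d_an.Z2_42

open MvPolynomial

variable {N : ℕ} {K A : Finset (Finset (Fin N))} {p : Fin N → Fin 3 → ℝ}
  {cyc : Finset (Fin N) → ℕ → Finset (Fin N)}

/-- Every edge of `A` spans a triangle with at most one other edge of `A`. -/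
def MatchedA (K A : Finset (Finset (Fin N))) : Prop :=
  ∀ e ∈ A, ∀ e' ∈ A, ∀ e'' ∈ A,
    e ≠ e' → e ≠ e'' → (∃ f ∈ faces K 3, e ⊆ f ∧ e' ⊆ f) → (∃ f ∈ faces K 3, e ⊆ f ∧ e'' ⊆ f) →
    e' = e''

/-- The triangles with two edges in `A`. -/
def ShA (K A : Finset (Finset (Fin N))) : Finset (Finset (Fin N)) :=
  (faces K 3).filter (fun g => ∃ e ∈ A, ∃ e' ∈ A, e ≠ e' ∧ e ⊆ g ∧ e' ⊆ g)

theorem PTB_apply (r d : ℕ) (q : interiorFaces K 3 → restrictTotalDegree (Fin 3) ℝ d)
    (e : A) : PTB K cyc p r d A q e = ∑ i ∈ Finset.range (degree K e.1),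
      wq K p r d (cyc e.1 i) (cyc e.1 (i + 1)) q := by
  unfold PTB
  rw [LinearMap.pi_apply, LinearMap.sum_apply]

/-- The value of the closing condition, through `Phi`. -/
theorem PTB_eq_Phi (hA : A ⊆ interiorFaces K 2) (hcard : ∀ t ∈ K, t.card = 4)
    (hcyc : Nice K cyc) (r d : ℕ)
    (q : interiorFaces K 3 → restrictTotalDegree (Fin 3) ℝ d) (e : A) :
    PTB K cyc p r d A q e = Phi r d (le K cyc p e.1) (fun i =>
      sg (cyc e.1 i) (cyc e.1 (i + 1)) •
        q ⟨fi cyc e.1 i, fi_mem hcard hcyc (hA e.2) i.2⟩) := by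
  rw [PTB_apply, Phi_apply, Finset.sum_range]
  refine Finset.sum_congr rfl fun i _ => ?_
  rw [wq_apply]
  have := ext_apply q (fi_mem hcard hcyc (hA e.2) i.2)
  unfold fi at this
  rw [this]
  unfold le fi
  rw [Submodule.coe_smul, mul_smul_comm]

/-- The data of the closing map for a family of shared triangles. -/
structure SharedA (K A : Finset (Finset (Fin N))) (cyc : Finset (Fin N) → ℕ → Finset (Fin N))
    (ι : Type) where
  g : ι → Finset (Fin N)
  E1 : ι → A
  E2 : ι → A
  I : ∀ x, Fin (degree K (E1 x).1)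
  J : ∀ x, Fin (degree K (E2 x).1)
  ne : ∀ x, E1 x ≠ E2 x
  hI : ∀ x, fi cyc (E1 x).1 (I x) = g x
  hJ : ∀ x, fi cyc (E2 x).1 (J x) = g x
  inj : Function.Injective g
  /-- every triangle with two interior edges occurs, with exactly these edges -/
  all : ∀ (e e' : A), e ≠ e' → ∀ (i : Fin (degree K e.1))
    (j : Fin (degree K e'.1)), fi cyc e.1 i = fi cyc e'.1 j →
    ∃ x, (e = E1 x ∧ e' = E2 x ∨ e = E2 x ∧ e' = E1 x) ∧ fi cyc e.1 i = g x
  /-- an interior edge occurs at most once -/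
  once : ∀ x y, (E1 x = E1 y ∨ E1 x = E2 y ∨ E2 x = E2 y) → x = y

theorem ss_mul (hA : A ⊆ interiorFaces K 2) (hcard : ∀ t ∈ K, t.card = 4) (hcyc : Nice K cyc) (e : A)
    (i : Fin (degree K e.1)) : ss cyc e.1 i * ss cyc e.1 i = 1 :=
  sg_mul_self (ne_of_adj (hcard _ (cyc_mem hcyc (hA e.2) i.2.le).1) (hcyc.adj e.1 (hA e.2) i.1 i.2))

section

variable (K A cyc)

/-- All data. -/
abbrev VA (d : ℕ) : Type := ∀ e : A,
  (Fin (degree K e.1) → restrictTotalDegree (Fin 3) ℝ d)

/-- All maps `Phi`. -/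
noncomputable def PhiAll (p : Fin N → Fin 3 → ℝ) (r d : ℕ) :
    VA K A d →ₗ[ℝ] (A → MvPolynomial (Fin 3) ℝ) :=
  LinearMap.pi fun e => (Phi r d (le K cyc p e.1)) ∘ₗ LinearMap.proj e

/-- The difference map. -/
noncomputable def DD {ι : Type} (S : SharedA K A cyc ι) (d : ℕ) :
    VA K A d →ₗ[ℝ] (ι → restrictTotalDegree (Fin 3) ℝ d) where
  toFun v x := ss cyc (S.E1 x).1 (S.I x) • v (S.E1 x) (S.I x) -
    ss cyc (S.E2 x).1 (S.J x) • v (S.E2 x) (S.J x)
  map_add' v w := by
    funext x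
    simp only [Pi.add_apply, smul_add]
    abel
  map_smul' c v := by
    funext x
    simp only [Pi.smul_apply, RingHom.id_apply, smul_sub, smul_comm c]

theorem DD_apply {ι : Type} (S : SharedA K A cyc ι) (d : ℕ) (v : VA K A d) (x : ι) :
    DD K A cyc S d v x = ss cyc (S.E1 x).1 (S.I x) • v (S.E1 x) (S.I x) -
      ss cyc (S.E2 x).1 (S.J x) • v (S.E2 x) (S.J x) := rfl

theorem PhiAll_apply (p : Fin N → Fin 3 → ℝ) (r d : ℕ) (v : VA K A d) (e : A) :
    PhiAll K A cyc p r d v e = Phi r d (le K cyc p e.1) (v e) := rfl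

end

/-- The range of the closing map. -/
theorem range_PT_eq (hA : A ⊆ interiorFaces K 2) (hcard : ∀ t ∈ K, t.card = 4) (hcyc : Nice K cyc) {ι : Type}
    (S : SharedA K A cyc ι) (p : Fin N → Fin 3 → ℝ) (r d : ℕ) :
    LinearMap.range (PTB K cyc p r d A) =
      (LinearMap.ker (DD K A cyc S d)).map (PhiAll K A cyc p r d) := by
  classical
  apply le_antisymm
  · rintro _ ⟨q, rfl⟩
    refine ⟨fun e i => ss cyc e.1 i • q ⟨fi cyc e.1 i, fi_mem hcard hcyc (hA e.2) i.2⟩, ?_, ?_⟩
    · rw [SetLike.mem_coe, LinearMap.mem_ker]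
      funext x
      rw [DD_apply, smul_smul, smul_smul, ss_mul hA hcard hcyc, ss_mul hA hcard hcyc, one_smul,
        one_smul]
      have h1 : (⟨fi cyc (S.E1 x).1 (S.I x), fi_mem hcard hcyc (hA (S.E1 x).2) (S.I x).2⟩ :
          interiorFaces K 3) = ⟨fi cyc (S.E2 x).1 (S.J x), fi_mem hcard hcyc (hA (S.E2 x).2)
          (S.J x).2⟩ := Subtype.ext ((S.hI x).trans (S.hJ x).symm)
      rw [h1, sub_self]
      rfl
    · funext e
      rw [PhiAll_apply, PTB_eq_Phi hA hcard hcyc]
      rfl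
  · rintro _ ⟨v, hv, rfl⟩
    rw [SetLike.mem_coe, LinearMap.mem_ker] at hv
    -- two occurrences of a triangle carry the same datum
    have key : ∀ (e e' : A) (i : Fin (degree K e.1)) (j : Fin (degree K e'.1)),
        fi cyc e.1 i = fi cyc e'.1 j → ss cyc e.1 i • v e i = ss cyc e'.1 j • v e' j := by
      intro e e' i j hij
      by_cases hee : e = e'
      · subst hee
        have : i = j := Fin.ext (fi_inj hcard hcyc (hA e.2) i.2 j.2 hij)
        rw [this]
      · obtain ⟨x, hx, hg⟩ := S.all e e' hee i j hij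
        have h0 := congrFun hv x
        rw [DD_apply] at h0
        have h1 := sub_eq_zero.mp h0
        rcases hx with ⟨rfl, rfl⟩ | ⟨rfl, rfl⟩
        · have a1 : i = S.I x := Fin.ext (fi_inj hcard hcyc (hA (S.E1 x).2) i.2 (S.I x).2
            (hg.trans (S.hI x).symm))
          have a2 : j = S.J x := Fin.ext (fi_inj hcard hcyc (hA (S.E2 x).2) j.2 (S.J x).2
            (hij.symm.trans (hg.trans (S.hJ x).symm)))
          rw [a1, a2]
          exact h1
        · have a1 : i = S.J x := Fin.ext (fi_inj hcard hcyc (hA (S.E2 x).2) i.2 (S.J x).2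
            (hg.trans (S.hJ x).symm))
          have a2 : j = S.I x := Fin.ext (fi_inj hcard hcyc (hA (S.E1 x).2) j.2 (S.I x).2
            (hij.symm.trans (hg.trans (S.hI x).symm)))
          rw [a1, a2]
          exact h1.symm
    let q : interiorFaces K 3 → restrictTotalDegree (Fin 3) ℝ d := fun f =>
      if h : ∃ ei : (e : A) × Fin (degree K e.1), fi cyc ei.1.1 ei.2 = f.1 then
        ss cyc h.choose.1.1 h.choose.2 • v h.choose.1 h.choose.2
      else 0
    have hq : ∀ (e : A) (i : Fin (degree K e.1)),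
        q ⟨fi cyc e.1 i, fi_mem hcard hcyc (hA e.2) i.2⟩ = ss cyc e.1 i • v e i := by
      intro e i
      have h : ∃ ei : (e : A) × Fin (degree K e.1),
          fi cyc ei.1.1 ei.2 = fi cyc e.1 i := ⟨⟨e, i⟩, rfl⟩
      have h1 : q ⟨fi cyc e.1 i, fi_mem hcard hcyc (hA e.2) i.2⟩ =
        ss cyc h.choose.1.1 h.choose.2 • v h.choose.1 h.choose.2 := dif_pos h
      rw [h1]
      exact key _ _ _ _ h.choose_spec
    refine ⟨q, ?_⟩
    funext e
    rw [PhiAll_apply, PTB_eq_Phi hA hcard hcyc]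
    congr 1
    funext i
    rw [hq e i]
    change ss cyc e.1 i • (ss cyc e.1 i • v e i) = v e i
    rw [smul_smul, ss_mul hA hcard hcyc, one_smul]

/-- The difference map is surjective. -/
theorem DD_surj (hA : A ⊆ interiorFaces K 2) (hcard : ∀ t ∈ K, t.card = 4) (hcyc : Nice K cyc) {ι : Type}
    [Fintype ι] (S : SharedA K A cyc ι) (d : ℕ) : Function.Surjective (DD K A cyc S d) := by
  classical
  -- single vectors
  have h1 : ∀ (x : ι) (z : restrictTotalDegree (Fin 3) ℝ d),
      ∃ v, DD K A cyc S d v = Pi.single x z := by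
    intro x z
    refine ⟨Pi.single (S.E1 x) (Pi.single (S.I x) (ss cyc (S.E1 x).1 (S.I x) • z)), ?_⟩
    funext y
    rw [DD_apply]
    have e2 : S.E2 y ≠ S.E1 x := by
      intro h
      have := S.once x y (Or.inr (Or.inl h.symm))
      subst this
      exact S.ne x h.symm
    by_cases hxy : y = x
    · subst hxy
      rw [Pi.single_eq_same, Pi.single_eq_same, Pi.single_eq_of_ne e2, Pi.zero_apply, smul_zero,
        sub_zero, smul_smul, ss_mul hA hcard hcyc, one_smul, Pi.single_eq_same]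
    · have e1 : S.E1 y ≠ S.E1 x := fun h => hxy (S.once y x (Or.inl h))
      rw [Pi.single_eq_of_ne e1, Pi.single_eq_of_ne e2, Pi.zero_apply, Pi.zero_apply, smul_zero,
        smul_zero, sub_zero, Pi.single_eq_of_ne hxy]
  choose w hw using h1
  intro y
  refine ⟨∑ x, w x (y x), ?_⟩
  rw [map_sum]
  simp only [hw]
  exact Finset.univ_sum_single y

/-- The image of the relations. -/
theorem DD_ker (hA : A ⊆ interiorFaces K 2) (hcard : ∀ t ∈ K, t.card = 4) (hcyc : Nice K cyc) {ι : Type}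
    [Fintype ι] (S : SharedA K A cyc ι) (p : Fin N → Fin 3 → ℝ) (r d : ℕ) :
    (LinearMap.ker (PhiAll K A cyc p r d)).map (DD K A cyc S d) =
      Submodule.pi Set.univ (fun x => entry r d (le K cyc p (S.E1 x).1) (S.I x) ⊔
        entry r d (le K cyc p (S.E2 x).1) (S.J x)) := by
  classical
  apply le_antisymm
  · rintro _ ⟨v, hv, rfl⟩
    rw [SetLike.mem_coe, LinearMap.mem_ker] at hv
    intro x _
    have h1 : v (S.E1 x) (S.I x) ∈ entry r d (le K cyc p (S.E1 x).1) (S.I x) :=
      ⟨v (S.E1 x), congrFun hv (S.E1 x), rfl⟩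
    have h2 : v (S.E2 x) (S.J x) ∈ entry r d (le K cyc p (S.E2 x).1) (S.J x) :=
      ⟨v (S.E2 x), congrFun hv (S.E2 x), rfl⟩
    rw [DD_apply]
    exact Submodule.sub_mem _ (Submodule.smul_mem _ _ (Submodule.mem_sup_left h1))
      (Submodule.smul_mem _ _ (Submodule.mem_sup_right h2))
  · -- single vectors
    have h1 : ∀ (x : ι), ∀ z ∈ entry r d (le K cyc p (S.E1 x).1) (S.I x),
        Pi.single x z ∈ (LinearMap.ker (PhiAll K A cyc p r d)).map (DD K A cyc S d) := by
      rintro x z ⟨k, hk, rfl⟩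
      rw [SetLike.mem_coe, LinearMap.mem_ker] at hk
      refine ⟨Pi.single (S.E1 x) (ss cyc (S.E1 x).1 (S.I x) • k), ?_, ?_⟩
      · rw [SetLike.mem_coe, LinearMap.mem_ker]
        funext e
        rw [PhiAll_apply]
        by_cases he : e = S.E1 x
        · subst he
          rw [Pi.single_eq_same, map_smul, hk, smul_zero]
          rfl
        · rw [Pi.single_eq_of_ne he, map_zero]
          rfl
      · funext y
        rw [DD_apply]
        have e2 : S.E2 y ≠ S.E1 x := by
          intro h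
          have := S.once x y (Or.inr (Or.inl h.symm))
          subst this
          exact S.ne x h.symm
        by_cases hxy : y = x
        · subst hxy
          rw [Pi.single_eq_same, Pi.single_eq_of_ne e2, Pi.zero_apply, smul_zero,
            sub_zero, Pi.smul_apply, smul_smul, ss_mul hA hcard hcyc, one_smul, Pi.single_eq_same]
          rfl
        · have e1 : S.E1 y ≠ S.E1 x := fun h => hxy (S.once y x (Or.inl h))
          rw [Pi.single_eq_of_ne e1, Pi.single_eq_of_ne e2, Pi.zero_apply, Pi.zero_apply,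
            smul_zero, smul_zero, sub_zero, Pi.single_eq_of_ne hxy]
    have h2 : ∀ (x : ι), ∀ z ∈ entry r d (le K cyc p (S.E2 x).1) (S.J x),
        Pi.single x z ∈ (LinearMap.ker (PhiAll K A cyc p r d)).map (DD K A cyc S d) := by
      rintro x z ⟨k, hk, rfl⟩
      rw [SetLike.mem_coe, LinearMap.mem_ker] at hk
      refine ⟨Pi.single (S.E2 x) (-(ss cyc (S.E2 x).1 (S.J x) • k)), ?_, ?_⟩
      · rw [SetLike.mem_coe, LinearMap.mem_ker]
        funext e
        rw [PhiAll_apply]
        by_cases he : e = S.E2 x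
        · subst he
          rw [Pi.single_eq_same, map_neg, map_smul, hk, smul_zero, neg_zero]
          rfl
        · rw [Pi.single_eq_of_ne he, map_zero]
          rfl
      · funext y
        rw [DD_apply]
        have e2 : S.E1 y ≠ S.E2 x := by
          intro h
          have := S.once y x (Or.inr (Or.inl h))
          subst this
          exact S.ne y h
        by_cases hxy : y = x
        · subst hxy
          rw [Pi.single_eq_same, Pi.single_eq_of_ne e2, Pi.zero_apply, smul_zero,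
            zero_sub, Pi.neg_apply, Pi.smul_apply, smul_neg, neg_neg, smul_smul,
            ss_mul hA hcard hcyc, one_smul, Pi.single_eq_same]
          rfl
        · have e1 : S.E2 y ≠ S.E2 x := fun h => hxy (S.once y x (Or.inr (Or.inr h)))
          rw [Pi.single_eq_of_ne e1, Pi.single_eq_of_ne e2, Pi.zero_apply, Pi.zero_apply,
            smul_zero, smul_zero, sub_zero, Pi.single_eq_of_ne hxy]
    intro y hy
    rw [← Finset.univ_sum_single y]
    refine Submodule.sum_mem _ fun x _ => ?_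
    obtain ⟨a, ha, b, hb, hab⟩ := Submodule.mem_sup.mp (hy x trivial)
    rw [← hab, Pi.single_add]
    exact Submodule.add_mem _ (h1 x a ha) (h2 x b hb)

/-- The rank of the closing map. -/
theorem rank_shared (hA : A ⊆ interiorFaces K 2) (hcard : ∀ t ∈ K, t.card = 4) (hcyc : Nice K cyc) {ι : Type}
    [Fintype ι] (S : SharedA K A cyc ι) (p : Fin N → Fin 3 → ℝ) (r d : ℕ) :
    Module.finrank ℝ (LinearMap.range (PTB K cyc p r d A)) +
      ∑ _x : ι, Module.finrank ℝ (restrictTotalDegree (Fin 3) ℝ d) =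
    ∑ e : A, Module.finrank ℝ (LinearMap.range (Phi r d (le K cyc p e.1))) +
      ∑ x : ι, Module.finrank ℝ (entry r d (le K cyc p (S.E1 x).1) (S.I x) ⊔
        entry r d (le K cyc p (S.E2 x).1) (S.J x) : Submodule ℝ _) := by
  classical
  have a1 := H79.rank_restrict (PhiAll K A cyc p r d) (LinearMap.ker (DD K A cyc S d))
  have a2 := H79.rank_restrict (DD K A cyc S d) (LinearMap.ker (PhiAll K A cyc p r d))
  have a3 := LinearMap.finrank_range_add_finrank_ker (DD K A cyc S d)
  have a4 := LinearMap.finrank_range_add_finrank_ker (PhiAll K A cyc p r d)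
  rw [← range_PT_eq hA hcard hcyc S p r d] at a1
  rw [DD_ker hA hcard hcyc S p r d, finrank_submodule_pi] at a2
  rw [LinearMap.range_eq_top.mpr (DD_surj hA hcard hcyc S d), finrank_top,
    Module.finrank_pi_fintype] at a3
  have a5 : Module.finrank ℝ (LinearMap.range (PhiAll K A cyc p r d)) =
      ∑ e : A,
        Module.finrank ℝ (LinearMap.range (Phi r d (le K cyc p e.1))) := by
    have hr : LinearMap.range (PhiAll K A cyc p r d) =
        Submodule.pi Set.univ (fun e => LinearMap.range (Phi r d (le K cyc p e.1))) := by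
      apply le_antisymm
      · rintro _ ⟨v, rfl⟩ e _
        exact ⟨v e, rfl⟩
      · intro y hy
        choose x hx using fun e => hy e trivial
        exact ⟨x, funext hx⟩
    rw [hr]
    let f : Submodule.pi Set.univ (fun e : A =>
        LinearMap.range (Phi r d (le K cyc p e.1))) ≃ₗ[ℝ]
        (∀ e : A, LinearMap.range (Phi r d (le K cyc p e.1))) :=
      { toFun := fun x i => ⟨x.1 i, x.2 i trivial⟩
        invFun := fun y => ⟨fun i => (y i).1, fun i _ => (y i).2⟩
        left_inv := fun x => rfl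
        right_inv := fun y => rfl
        map_add' := fun x y => rfl
        map_smul' := fun c x => rfl }
    rw [f.finrank_eq, Module.finrank_pi_fintype]
  rw [inf_comm] at a2
  rw [a5] at a4
  omega

/-- The data of the triangles with two interior edges. -/
theorem exists_shared (hA : A ⊆ interiorFaces K 2) (hcard : ∀ t ∈ K, t.card = 4) (hcyc : Nice K cyc) (hM : MatchedA K A) :
    Nonempty {S : SharedA K A cyc (ShA K A) // ∀ x, S.g x = x.1} := by
  have hdata : ∀ x : ShA K A, ∃ (e e' : A), e ≠ e' ∧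
      (∃ i : Fin (degree K e.1), fi cyc e.1 i = x.1) ∧
      (∃ j : Fin (degree K e'.1), fi cyc e'.1 j = x.1) := by
    rintro ⟨g, hg⟩
    obtain ⟨hg3, e, he, e', he', hne, hs, hs'⟩ := Finset.mem_filter.mp hg
    obtain ⟨i, hi, hfi⟩ := fi_surj hcard hcyc (hA he) hg3 hs
    obtain ⟨j, hj, hfj⟩ := fi_surj hcard hcyc (hA he') hg3 hs'
    exact ⟨⟨e, he⟩, ⟨e', he'⟩, fun h => hne (congrArg Subtype.val h), ⟨⟨i, hi⟩, hfi⟩,
      ⟨⟨j, hj⟩, hfj⟩⟩
  choose E1 E2 hne hI hJ using hdata
  choose I hI using hI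
  choose J hJ using hJ
  have s1 : ∀ x, (E1 x).1 ⊆ x.1 := fun x => by
    have := sub_fi hcyc (hA (E1 x).2) (I x).2
    rwa [hI x] at this
  have s2 : ∀ x, (E2 x).1 ⊆ x.1 := fun x => by
    have := sub_fi hcyc (hA (E2 x).2) (J x).2
    rwa [hJ x] at this
  have hf : ∀ x : ShA K A, x.1 ∈ faces K 3 := fun x => (Finset.mem_filter.mp x.2).1
  have hc : ∀ x : ShA K A, x.1.card = 3 := fun x => (mem_faces.mp (hf x)).1
  have hne' : ∀ x, (E1 x).1 ≠ (E2 x).1 := fun x h => hne x (Subtype.ext h)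
  have hu : ∀ x, (E1 x).1 ∪ (E2 x).1 = x.1 := fun x =>
    union_eq (card_edge (hA (E1 x).2)) (card_edge (hA (E2 x).2)) (hc x) (hne' x) (s1 x) (s2 x)
  refine ⟨⟨⟨fun x => x.1, E1, E2, I, J, hne, hI, hJ, Subtype.val_injective, ?_, ?_⟩,
    fun x => rfl⟩⟩
  · intro e e' hee i j hij
    have q1 : e.1 ⊆ fi cyc e.1 i := sub_fi hcyc (hA e.2) i.2
    have q2 : e'.1 ⊆ fi cyc e.1 i := by rw [hij]; exact sub_fi hcyc (hA e'.2) j.2
    have q3 : fi cyc e.1 i ∈ faces K 3 :=
      (mem_interiorFaces.mp (fi_mem hcard hcyc (hA e.2) i.2)).1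
    have hee' : e.1 ≠ e'.1 := fun h => hee (Subtype.ext h)
    have q4 : fi cyc e.1 i ∈ ShA K A :=
      Finset.mem_filter.mpr ⟨q3, e.1, e.2, e'.1, e'.2, hee', q1, q2⟩
    refine ⟨⟨fi cyc e.1 i, q4⟩, ?_, rfl⟩
    set x : ShA K A := ⟨fi cyc e.1 i, q4⟩ with hx
    by_cases h1 : e = E1 x
    · left
      refine ⟨h1, Subtype.ext ?_⟩
      have := hM e.1 e.2 e'.1 e'.2 (E2 x).1 (E2 x).2 hee' (by rw [h1]; exact hne' x)
        ⟨_, q3, q1, q2⟩ ⟨_, q3, q1, s2 x⟩
      exact this
    · right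
      have h1' : e.1 ≠ (E1 x).1 := fun h => h1 (Subtype.ext h)
      have h2 : e'.1 = (E1 x).1 := hM e.1 e.2 e'.1 e'.2 (E1 x).1 (E1 x).2 hee' h1'
        ⟨_, q3, q1, q2⟩ ⟨_, q3, q1, s1 x⟩
      refine ⟨Subtype.ext ?_, Subtype.ext h2⟩
      exact hM e'.1 e'.2 e.1 e.2 (E2 x).1 (E2 x).2 hee'.symm (by rw [h2]; exact hne' x)
        ⟨_, q3, q2, q1⟩ ⟨_, q3, q2, s2 x⟩
  · intro x y h
    apply Subtype.ext
    rw [← hu x, ← hu y]
    rcases h with h | h | h
    · have h' : (E2 x).1 = (E2 y).1 := hM (E1 x).1 (E1 x).2 _ (E2 x).2 _ (E2 y).2 (hne' x)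
        (by rw [h]; exact hne' y) ⟨_, hf x, s1 x, s2 x⟩ ⟨_, hf y, by rw [h]; exact s1 y, s2 y⟩
      rw [h, h']
    · have h' : (E2 x).1 = (E1 y).1 := hM (E1 x).1 (E1 x).2 _ (E2 x).2 _ (E1 y).2 (hne' x)
        (by rw [h]; exact (hne' y).symm) ⟨_, hf x, s1 x, s2 x⟩
        ⟨_, hf y, by rw [h]; exact s2 y, s1 y⟩
      rw [h, h', Finset.union_comm]
    · have h' : (E1 x).1 = (E1 y).1 := hM (E2 x).1 (E2 x).2 _ (E1 x).2 _ (E1 y).2
        (hne' x).symm (by rw [h]; exact (hne' y).symm) ⟨_, hf x, s2 x, s1 x⟩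
        ⟨_, hf y, by rw [h]; exact s2 y, s1 y⟩
      rw [h, h']

/-- The sum over ordered pairs is twice the sum over the shared triangles. -/
theorem sum_pairs (hA : A ⊆ interiorFaces K 2) (hcard : ∀ t ∈ K, t.card = 4) (hcyc : Nice K cyc)
    (S : SharedA K A cyc (ShA K A)) (F : ℕ → ℕ → ℕ) (hF : ∀ a b, F a b = F b a) :
    ∑ e ∈ A, ∑ e' ∈ partnersIn K A e, F (degree K e) (degree K e') =
      2 * ∑ x : ShA K A, F (degree K (S.E1 x).1) (degree K (S.E2 x).1) := by
  classical
  have hs : ∑ e ∈ A, ∑ e' ∈ partnersIn K A e, F (degree K e) (degree K e') =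
      ∑ y ∈ (A).sigma (fun e => partnersIn K A e),
        F (degree K y.1) (degree K y.2) := by
    rw [Finset.sum_sigma]
  have s1 : ∀ x, (S.E1 x).1 ⊆ S.g x := fun x => by
    have := sub_fi hcyc (hA (S.E1 x).2) (S.I x).2
    rwa [S.hI x] at this
  have s2 : ∀ x, (S.E2 x).1 ⊆ S.g x := fun x => by
    have := sub_fi hcyc (hA (S.E2 x).2) (S.J x).2
    rwa [S.hJ x] at this
  have hg : ∀ x, S.g x ∈ faces K 3 := fun x => by
    rw [← S.hI x]
    exact (mem_interiorFaces.mp (fi_mem hcard hcyc (hA (S.E1 x).2) (S.I x).2)).1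
  have hne : ∀ x, (S.E1 x).1 ≠ (S.E2 x).1 := fun x h => S.ne x (Subtype.ext h)
  have hb : ∑ y : ShA K A × Bool, (if y.2 then F (degree K (S.E1 y.1).1) (degree K (S.E2 y.1).1)
      else F (degree K (S.E2 y.1).1) (degree K (S.E1 y.1).1)) =
      ∑ y ∈ (A).sigma (fun e => partnersIn K A e),
        F (degree K y.1) (degree K y.2) := by
    refine Finset.sum_bij (fun y _ => if y.2 then ⟨(S.E1 y.1).1, (S.E2 y.1).1⟩ else
      ⟨(S.E2 y.1).1, (S.E1 y.1).1⟩) ?_ ?_ ?_ ?_
    · rintro ⟨x, b⟩ _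
      rw [Finset.mem_sigma]
      cases b
      · refine ⟨(S.E2 x).2, Finset.mem_filter.mpr ⟨(S.E1 x).2, (hne x).symm, S.g x, hg x, ?_⟩⟩
        exact ⟨s2 x, s1 x⟩
      · refine ⟨(S.E1 x).2, Finset.mem_filter.mpr ⟨(S.E2 x).2, hne x, S.g x, hg x, ?_⟩⟩
        exact ⟨s1 x, s2 x⟩
    · rintro ⟨x, b⟩ _ ⟨y, c⟩ _ h
      cases b <;> cases c
      · have h1 : (S.E2 x).1 = (S.E2 y).1 := congrArg Sigma.fst h
        rw [S.once x y (Or.inr (Or.inr (Subtype.ext h1)))]
      · have h1 : (S.E2 x).1 = (S.E1 y).1 := congrArg Sigma.fst h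
        have h2 : (S.E1 x).1 = (S.E2 y).1 := by
          have := congrArg (fun z : (_ : Finset (Fin N)) × Finset (Fin N) => z.2) h
          exact this
        have hxy := S.once x y (Or.inr (Or.inl (Subtype.ext h2)))
        subst hxy
        exact absurd h1.symm (hne x)
      · have h1 : (S.E1 x).1 = (S.E2 y).1 := congrArg Sigma.fst h
        have hxy := S.once x y (Or.inr (Or.inl (Subtype.ext h1)))
        subst hxy
        exact absurd h1 (hne x)
      · have h1 : (S.E1 x).1 = (S.E1 y).1 := congrArg Sigma.fst h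
        rw [S.once x y (Or.inl (Subtype.ext h1))]
    · rintro ⟨e, e'⟩ h
      rw [Finset.mem_sigma] at h
      obtain ⟨he, h2⟩ := h
      obtain ⟨he', hee, f, hf, hef, hef'⟩ := Finset.mem_filter.mp h2
      obtain ⟨i, hi, hfi⟩ := fi_surj hcard hcyc (hA he) hf hef
      obtain ⟨j, hj, hfj⟩ := fi_surj hcard hcyc (hA he') hf hef'
      obtain ⟨x, hx, -⟩ := S.all ⟨e, he⟩ ⟨e', he'⟩ (fun h => hee (congrArg Subtype.val h))
        ⟨i, hi⟩ ⟨j, hj⟩ (hfi.trans hfj.symm)
      rcases hx with ⟨h1, h2⟩ | ⟨h1, h2⟩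
      · refine ⟨(x, true), Finset.mem_univ _, ?_⟩
        have k1 : (S.E1 x).1 = e := (congrArg Subtype.val h1).symm
        have k2 : (S.E2 x).1 = e' := (congrArg Subtype.val h2).symm
        simp only [if_true, k1, k2]
      · refine ⟨(x, false), Finset.mem_univ _, ?_⟩
        have k1 : (S.E2 x).1 = e := (congrArg Subtype.val h1).symm
        have k2 : (S.E1 x).1 = e' := (congrArg Subtype.val h2).symm
        simp only [Bool.false_eq_true, if_false, k1, k2]
    · rintro ⟨x, b⟩ _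
      cases b <;> rfl
  rw [hs, ← hb, Fintype.sum_prod_type, Finset.mul_sum]
  refine Finset.sum_congr rfl fun x _ => ?_
  rw [Fintype.sum_bool]
  simp only [if_true, Bool.false_eq_true, if_false]
  rw [hF (degree K (S.E2 x).1)]
  ring

/-- The rank of the closing map in the matched case. -/
theorem rank_four_A (hA : A ⊆ interiorFaces K 2) (hp : WR K p) (hcyc : Nice K cyc)
    (hM : MatchedA K A) (hdist : ∀ e ∈ A, DistinctAt K p e) (r d : ℕ) :
    2 * Module.finrank ℝ (LinearMap.range (PTB K cyc p r d A)) +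
      ∑ e ∈ A, ∑ e' ∈ partnersIn K A e, mu (degree K e) (degree K e') r d =
    2 * ∑ e ∈ A, lam (degree K e) r d := by
  obtain ⟨⟨S, hS⟩⟩ := exists_shared hA hp.card hcyc hM
  have h3 := rank_shared hA hp.card hcyc S p r d
  have h4 : ∑ e : A,
      Module.finrank ℝ (LinearMap.range (Phi r d (le K cyc p e.1))) =
      ∑ e ∈ A, lam (degree K e) r d := by
    rw [← Finset.sum_coe_sort (A) (fun e => lam (degree K e) r d)]
    refine Finset.sum_congr rfl fun e _ => ?_
    obtain ⟨u, hu, v, hv, huv⟩ := exists_ends_w hp (hA e.2)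
    have hpen := pencil_w hp hcyc (hA e.2) (hdist e.1 e.2) hu hv
    exact H79.L3 _ r d _ (p u) (p v) huv hpen.deg hpen.van hpen.dist hpen.ne
  have h5 : ∑ _x : ShA K A, Module.finrank ℝ (restrictTotalDegree (Fin 3) ℝ d) =
      ∑ x : ShA K A, Module.finrank ℝ (entry r d (le K cyc p (S.E1 x).1) (S.I x) ⊔
        entry r d (le K cyc p (S.E2 x).1) (S.J x) : Submodule ℝ _) +
      ∑ x : ShA K A, mu (degree K (S.E1 x).1) (degree K (S.E2 x).1) r d := by
    rw [← Finset.sum_add_distrib]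
    refine Finset.sum_congr rfl fun x _ => ?_
    have hg : S.g x ∈ faces K 3 := by
      rw [← S.hI x]
      exact (mem_interiorFaces.mp (fi_mem hp.card hcyc (hA (S.E1 x).2) (S.I x).2)).1
    have s1 : (S.E1 x).1 ⊆ S.g x := by
      have := sub_fi hcyc (hA (S.E1 x).2) (S.I x).2
      rwa [S.hI x] at this
    have s2 : (S.E2 x).1 ⊆ S.g x := by
      have := sub_fi hcyc (hA (S.E2 x).2) (S.J x).2
      rwa [S.hJ x] at this
    have hne' : (S.E1 x).1 ≠ (S.E2 x).1 := fun h => S.ne x (Subtype.ext h)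
    obtain ⟨hg3, t, ht, hgt⟩ := mem_faces.mp hg
    obtain ⟨v, hv⟩ : ((S.E1 x).1 ∩ (S.E2 x).1).Nonempty := by
      rw [← Finset.card_pos]
      have c1 := card_edge (hA (S.E1 x).2)
      have c2 := card_edge (hA (S.E2 x).2)
      have c4 := Finset.card_union_add_card_inter (S.E1 x).1 (S.E2 x).1
      have c5 := Finset.card_le_card (Finset.union_subset s1 s2)
      omega
    rw [Finset.mem_inter] at hv
    obtain ⟨b, hb, hbv⟩ := Finset.exists_mem_ne (by rw [card_edge (hA (S.E1 x).2)]; norm_num) v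
      (s := (S.E1 x).1)
    obtain ⟨b', hb', hbv'⟩ := Finset.exists_mem_ne (by rw [card_edge (hA (S.E2 x).2)]; norm_num) v
      (s := (S.E2 x).1)
    have hbb : b ≠ b' := by
      rintro rfl
      apply hne'
      have k1 : ({v, b} : Finset (Fin N)) = (S.E1 x).1 :=
        Finset.eq_of_subset_of_card_le (by
          intro y hy
          rw [Finset.mem_insert, Finset.mem_singleton] at hy
          rcases hy with rfl | rfl
          · exact hv.1
          · exact hb) (by rw [card_edge (hA (S.E1 x).2), Finset.card_pair hbv.symm])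
      have k2 : ({v, b} : Finset (Fin N)) = (S.E2 x).1 :=
        Finset.eq_of_subset_of_card_le (by
          intro y hy
          rw [Finset.mem_insert, Finset.mem_singleton] at hy
          rcases hy with rfl | rfl
          · exact hv.2
          · exact hb') (by rw [card_edge (hA (S.E2 x).2), Finset.card_pair hbv.symm])
      exact k1.symm.trans k2
    exact stP _ _ r d _ _ (S.I x) (S.J x) (p v) (p b) (p b')
      (pencil_w hp hcyc (hA (S.E1 x).2) (hdist _ (S.E1 x).2) hv.1 hb)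
      (pencil_w hp hcyc (hA (S.E2 x).2) (hdist _ (S.E2 x).2) hv.2 hb')
      (hcyc.three _ (hA (S.E1 x).2)) (hcyc.three _ (hA (S.E2 x).2))
      (by
        unfold le
        rw [S.hI x, S.hJ x])
      (affInd3_w hp ht (hgt (s1 hv.1)) (hgt (s1 hb)) (hgt (s2 hb')) hbv.symm hbv'.symm hbb)
  have h6 := sum_pairs hA hp.card hcyc S (fun a b => mu a b r d) (fun a b => mu_symm a b r d)
  rw [h4] at h3
  rw [h6]
  omega

end Pool.Agent.Lib.MP_d2a91d_an.Z2_42

namespace Pool.Agent.Lib.MP_d2a91d_an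

theorem stZ2_42 : StZ2 := by
  intro N K cyc p r d A hp hcyc hA hdist hcard
  refine Z2_42.rank_four_A hA hp hcyc ?_ hdist r d
  intro e he e' he' e'' he'' h1 h2 h3 h4
  exact Finset.card_le_one.mp (hcard e he) e' (Finset.mem_filter.mpr ⟨he', h1, h3⟩) e''
    (Finset.mem_filter.mpr ⟨he'', h2, h4⟩)

end Pool.Agent.Lib.MP_d2a91d_an
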