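import Pool.Agent.Lib.MP_d2a91d_an.Stmts7
import Pool.Agent.Lib.MP_d2a91d_an.Z2_42

namespace Pool.Agent.Lib.MP_d2a91d_an

open MvPolynomial

/-- (K3) Three pencils on the sides of a triangle, relations supported on parts. -/
def StK3 : Prop := ∀ (n n' n'' r d : ℕ) (l : Fin n → MvPolynomial (Fin 3) ℝ)
  (l' : Fin n' → MvPolynomial (Fin 3) ℝ) (l'' : Fin n'' → MvPolynomial (Fin 3) ℝ)
  (i : Fin n) (j : Fin n') (k : Fin n'') (a b c : Fin 3 → ℝ)
  (I : Finset (Fin n)) (I' : Finset (Fin n')) (I'' : Finset (Fin n'')),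
  Pencil l a b → Pencil l' b c → Pencil l'' a c → l i = l' j → l i = l'' k →
  AffineIndependent ℝ ![a, b, c] → i ∈ I → j ∈ I' → k ∈ I'' →
  3 ≤ I.card → 3 ≤ I'.card → 3 ≤ I''.card → 6 * r ≤ d →
  ∀ q : restrictTotalDegree (Fin 3) ℝ d, Ord a (2 * r) q.1 → Ord b (2 * r) q.1 →
    ∃ (x : Fin n → restrictTotalDegree (Fin 3) ℝ d)
      (y : Fin n' → restrictTotalDegree (Fin 3) ℝ d)
      (z : Fin n'' → restrictTotalDegree (Fin 3) ℝ d),
      Phi r d l x = 0 ∧ Phi r d l' y = 0 ∧ Phi r d l'' z = 0 ∧ (∀ m, m ∉ I → x m = 0) ∧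
      (∀ m, m ∉ I' → y m = 0) ∧ (∀ m, m ∉ I'' → z m = 0) ∧ q = x i + y j ∧ y j = z k

/-- (TL) Truncation at a point, as one linear map. -/
def StTL : Prop := ∀ (a : Fin 3 → ℝ) (L : ℕ),
  ∃ T : MvPolynomial (Fin 3) ℝ →ₗ[ℝ] MvPolynomial (Fin 3) ℝ,
    (∀ q, (T q).totalDegree ≤ L) ∧ (∀ q, Ord a L (q - T q)) ∧
    ∀ (n r : ℕ) (l : Fin n → MvPolynomial (Fin 3) ℝ), (∀ i, (l i).totalDegree ≤ 1) →
      (∀ i, eval a (l i) = 0) → ∀ q : Fin n → MvPolynomial (Fin 3) ℝ,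
      ∑ i, l i ^ (r + 1) * q i = 0 → ∑ i, l i ^ (r + 1) * T (q i) = 0

/-- (F3) A cut-off polynomial for three points. -/
def StF3 : Prop := ∀ (a b c : Fin 3 → ℝ) (L : ℕ), AffineIndependent ℝ ![a, b, c] →
  ∃ φ : MvPolynomial (Fin 3) ℝ, φ.totalDegree ≤ 2 * L ∧ Ord b L φ ∧ Ord c L φ ∧
    Ord a L (φ - 1)

/-- The data of the triangles, copied to the pairs (edge of `A`, triangle at it). -/
noncomputable def GG {N : ℕ} (K A : Finset (Finset (Fin N)))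
    (cyc : Finset (Fin N) → ℕ → Finset (Fin N)) (d : ℕ) :
    (interiorFaces K 3 → restrictTotalDegree (Fin 3) ℝ d) →ₗ[ℝ] Z2_42.VA K A d :=
  LinearMap.pi fun e => LinearMap.pi fun i => ss cyc e.1 i •
    (if h : fi cyc e.1 i ∈ interiorFaces K 3 then LinearMap.proj ⟨fi cyc e.1 i, h⟩ else 0)

/-- The functionals that kill the copied data and the relations. -/
noncomputable def BB {N : ℕ} (K A : Finset (Finset (Fin N)))
    (cyc : Finset (Fin N) → ℕ → Finset (Fin N)) (p : Fin N → Fin 3 → ℝ) (r d : ℕ) :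
    Submodule ℝ (Module.Dual ℝ (Z2_42.VA K A d)) :=
  (LinearMap.range (GG K A cyc d) ⊔
    LinearMap.ker (Z2_42.PhiAll K A cyc p r d)).dualAnnihilator

/-- (R1) The defect of the closing conditions, through functionals. -/
def StR1 : Prop := ∀ (N : ℕ) (K : Finset (Finset (Fin N)))
  (cyc : Finset (Fin N) → ℕ → Finset (Fin N)) (p : Fin N → Fin 3 → ℝ) (r d : ℕ)
  (A : Finset (Finset (Fin N))), WR K p → Nice K cyc → A ⊆ interiorFaces K 2 →
  (∀ e ∈ A, DistinctAt K p e) →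
  Module.finrank ℝ (BB K A cyc p r d) +
    Module.finrank ℝ (LinearMap.range (PTB K cyc p r d A)) = ∑ e ∈ A, lam (degree K e) r d

/-- (LP) Peeling inside a set `S` of interior edges. -/
def StLP : Prop := ∀ (N : ℕ) (K : Finset (Finset (Fin N)))
  (cyc : Finset (Fin N) → ℕ → Finset (Fin N)) (p : Fin N → Fin 3 → ℝ) (r d : ℕ)
  (S C : Finset (Finset (Fin N))) (lv : Finset (Fin N) → ℕ), WR K p → Nice K cyc →
  S ⊆ interiorFaces K 2 → C ⊆ S → (∀ e ∈ S, DistinctAt K p e) →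
  (∀ e ∈ S, e ∉ C → min (r + 2) (degree K e) ≤
    ((faces K 3).filter (fun f => e ⊆ f ∧ ∀ e' ∈ S, e' ⊆ f → e' = e ∨
      (e' ∉ C ∧ lv e' < lv e))).card) →
  Module.finrank ℝ (LinearMap.range (PTB K cyc p r d S)) =
    Module.finrank ℝ (LinearMap.range (PTB K cyc p r d C)) +
      ∑ e ∈ S \ C, lam (degree K e) r d

end Pool.Agent.Lib.MP_d2a91d_an
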