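import Pool.Agent.Lib.MP_d2a91d_an.Plane
import Pool.Agent.Lib.MP_d2a91d_an.DefsNice

namespace Pool.Agent.Lib.MP_d2a91d_an

open MvPolynomial

/-- The plane of a triangle. -/
noncomputable def lf {N : ℕ} (p : Fin N → Fin 3 → ℝ) (f : Finset (Fin N)) :
    MvPolynomial (Fin 3) ℝ :=
  if h : f.card = 3 then
    pl (p (f.orderEmbOfFin h 0)) (p (f.orderEmbOfFin h 1)) (p (f.orderEmbOfFin h 2)) else 0

/-- Piecewise polynomials with the divisibility relations. -/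
def SP {N : ℕ} (r k : ℕ) (K : Finset (Finset (Fin N))) (p : Fin N → Fin 3 → ℝ) :
    Submodule ℝ (K → MvPolynomial (Fin 3) ℝ) where
  carrier := {P | (∀ t, (P t).totalDegree ≤ k) ∧
    ∀ s t : K, (s.1 ∩ t.1).card = 3 → lf p (s.1 ∩ t.1) ^ (r + 1) ∣ P t - P s}
  zero_mem' := ⟨fun t => by simp, fun s t _ => by simp⟩
  add_mem' := by
    rintro P Q ⟨hP, hP'⟩ ⟨hQ, hQ'⟩
    refine ⟨fun t => (totalDegree_add _ _).trans (max_le (hP t) (hQ t)), fun s t h => ?_⟩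
    have := dvd_add (hP' s t h) (hQ' s t h)
    convert this using 1
    simp only [Pi.add_apply]
    ring
  smul_mem' := by
    rintro c P ⟨hP, hP'⟩
    refine ⟨fun t => (totalDegree_smul_le _ _).trans (hP t), fun s t h => ?_⟩
    have := (hP' s t h).mul_left (C c)
    convert this using 1
    simp only [Pi.smul_apply, smul_eq_C_mul]
    ring

/-! Rows, second part. -/

/-- (L0) -/
def StL0 : Prop := ∀ d : ℕ,
  Module.finrank ℝ (restrictTotalDegree (Fin 3) ℝ d) = (d + 3).choose 3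

/-- (L1) Upper bound for the rank at a line. -/
def StL1 : Prop := ∀ (n r d : ℕ) (l : Fin n → MvPolynomial (Fin 3) ℝ) (a b : Fin 3 → ℝ),
  a ≠ b → (∀ i, (l i).totalDegree ≤ 1) → (∀ i, eval a (l i) = 0 ∧ eval b (l i) = 0) →
  Module.finrank ℝ (LinearMap.range (Phi r d l)) ≤ lam n r d

/-- (L2) Strictly smaller if two planes coincide, `n ≤ r + 2`. -/
def StL2 : Prop := ∀ (n r d : ℕ) (l : Fin n → MvPolynomial (Fin 3) ℝ) (a b : Fin 3 → ℝ),
  a ≠ b → (∀ i, (l i).totalDegree ≤ 1) → (∀ i, eval a (l i) = 0 ∧ eval b (l i) = 0) →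
  n ≤ r + 2 →
  (∃ i j : Fin n, i ≠ j ∧ ∃ c c' : ℝ, c ≠ 0 ∧ c • l i = c' • l j) →
  Module.finrank ℝ (LinearMap.range (Phi r d l)) < lam n r d

/-- (L3) Equality if no two planes coincide. -/
def StL3 : Prop := ∀ (n r d : ℕ) (l : Fin n → MvPolynomial (Fin 3) ℝ) (a b : Fin 3 → ℝ),
  a ≠ b → (∀ i, (l i).totalDegree ≤ 1) → (∀ i, eval a (l i) = 0 ∧ eval b (l i) = 0) →
  (¬ ∃ i j : Fin n, i ≠ j ∧ ∃ c c' : ℝ, c ≠ 0 ∧ c • l i = c' • l j) →
  (∀ i, l i ≠ 0) →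
  Module.finrank ℝ (LinearMap.range (Phi r d l)) = lam n r d

/-- (L4) Independence of the `(r+1)`-st powers of at most `r + 2` planes. -/
def StL4 : Prop := ∀ (n r : ℕ) (l : Fin n → MvPolynomial (Fin 3) ℝ) (a b : Fin 3 → ℝ),
  a ≠ b → (∀ i, (l i).totalDegree ≤ 1) → (∀ i, eval a (l i) = 0 ∧ eval b (l i) = 0) →
  n ≤ r + 2 →
  (¬ ∃ i j : Fin n, i ≠ j ∧ ∃ c c' : ℝ, c ≠ 0 ∧ c • l i = c' • l j) →
  (∀ i, l i ≠ 0) →
  ∀ c : Fin n → ℝ, ∑ i, C (c i) * l i ^ (r + 1) = 0 → ∀ i, c i = 0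

/-- (S) The spline space and the algebraic space have the same dimension. -/
def StS : Prop := ∀ (N r k : ℕ) (K : Finset (Finset (Fin N))) (p : Fin N → Fin 3 → ℝ),
  Realises K p →
  (∀ t ∈ K, ∀ t' ∈ K, Relation.ReflTransGen
    (fun a b => b ∈ K ∧ (a ∩ b).card = 3 ∧ t ∩ t' ⊆ b) t t') →
  Module.finrank ℝ (Spline r k K p) = Module.finrank ℝ (SP r k K p)

end Pool.Agent.Lib.MP_d2a91d_an
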