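import Pool.Agent.Lib.MP_d2a91d_an.Gen

namespace Pool.Agent.Lib.MP_d2a91d_an

open MvPolynomial Filter Topology

/-- Positions whose tetrahedra are nondegenerate (they may overlap). -/
structure WR {N : ℕ} (K : Finset (Finset (Fin N))) (p : Fin N → Fin 3 → ℝ) : Prop where
  card : ∀ t ∈ K, t.card = 4
  nondeg : ∀ t ∈ K, AffineIndependent ℝ (fun i : t => p i)

/-- The point `s` of the line from `p` to `p'`. -/
def ln {N : ℕ} (p p' : Fin N → Fin 3 → ℝ) (s : ℝ) : Fin N → Fin 3 → ℝ :=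
  fun i => p i + s • (p' i - p i)

/-- (U1) The rank of the closing map does not drop near `p`. -/
def StU1 : Prop := ∀ (N : ℕ) (K : Finset (Finset (Fin N)))
  (cyc : Finset (Fin N) → ℕ → Finset (Fin N)) (p p' : Fin N → Fin 3 → ℝ) (r d : ℕ),
  ∀ᶠ s in 𝓝[≠] (0 : ℝ), Module.finrank ℝ (LinearMap.range (PT K cyc p r d)) ≤
    Module.finrank ℝ (LinearMap.range (PT K cyc (ln p p' s) r d))

/-- (U2) Affine independence at `p'` gives affine independence near `p` on the line. -/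
def StU2 : Prop := ∀ (N : ℕ) (u : Finset (Fin N)) (p p' : Fin N → Fin 3 → ℝ),
  AffineIndependent ℝ (fun i : u => p' i) →
  ∀ᶠ s in 𝓝[≠] (0 : ℝ), AffineIndependent ℝ (fun i : u => ln p p' s i)

/-- An affine function. -/
def af (c0 : ℝ) (c x : Fin 3 → ℝ) : ℝ := c0 + c 0 * x 0 + c 1 * x 1 + c 2 * x 2

/-- (U4a) Two tetrahedra of a realisation are separated by a plane through their common
vertices. -/
def StU4a : Prop := ∀ (N : ℕ) (K : Finset (Finset (Fin N))) (p : Fin N → Fin 3 → ℝ),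
  Realises K p → ∀ t ∈ K, ∀ t' ∈ K, ∃ (c0 : ℝ) (c : Fin 3 → ℝ),
    (∀ i ∈ t ∩ t', af c0 c (p i) = 0) ∧ (∀ i ∈ t, i ∉ t' → 0 < af c0 c (p i)) ∧
    (∀ i ∈ t', i ∉ t → af c0 c (p i) < 0)

/-- (U4b) Realisations are stable under small perturbations. -/
def StU4b : Prop := ∀ (N : ℕ) (K : Finset (Finset (Fin N))) (p p' : Fin N → Fin 3 → ℝ),
  Realises K p → (∀ t ∈ K, ∀ t' ∈ K, ∃ (c0 : ℝ) (c : Fin 3 → ℝ),
    (∀ i ∈ t ∩ t', af c0 c (p i) = 0) ∧ (∀ i ∈ t, i ∉ t' → 0 < af c0 c (p i)) ∧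
    (∀ i ∈ t', i ∉ t → af c0 c (p i) < 0)) →
  ∀ᶠ s in 𝓝[≠] (0 : ℝ), Realises K (ln p p' s)

/-- (U5) The moment curve. -/
def StU5 : Prop := ∀ (N : ℕ) (u : Finset (Fin N)), u.card = 4 →
  AffineIndependent ℝ (fun i : u => (![((i : Fin N) : ℝ), ((i : Fin N) : ℝ) ^ 2,
    ((i : Fin N) : ℝ) ^ 3] : Fin 3 → ℝ))

end Pool.Agent.Lib.MP_d2a91d_an
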