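import Pool.Agent.Lib.MP_d2a91d_an.Weak
import Pool.Agent.Lib.MP_d2a91d_an.DefsPeel

namespace Pool.Agent.Lib.MP_d2a91d_an

open MvPolynomial

/-- The closing conditions at the edges of `B`. -/
noncomputable def PTB {N : ℕ} (K : Finset (Finset (Fin N)))
    (cyc : Finset (Fin N) → ℕ → Finset (Fin N)) (p : Fin N → Fin 3 → ℝ) (r d : ℕ)
    (B : Finset (Finset (Fin N))) :
    (interiorFaces K 3 → restrictTotalDegree (Fin 3) ℝ d) →ₗ[ℝ]
      (B → MvPolynomial (Fin 3) ℝ) :=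
  LinearMap.pi fun e => ∑ i ∈ Finset.range (degree K e.1),
    wq K p r d (cyc e.1 i) (cyc e.1 (i + 1))

theorem PTB_all {N : ℕ} (K : Finset (Finset (Fin N)))
    (cyc : Finset (Fin N) → ℕ → Finset (Fin N)) (p : Fin N → Fin 3 → ℝ) (r d : ℕ) :
    PTB K cyc p r d (interiorFaces K 2) = PT K cyc p r d := rfl

/-- (Z1) Enough planes of a pencil give the whole range. -/
def StZ1 : Prop := ∀ (n r d : ℕ) (l : Fin n → MvPolynomial (Fin 3) ℝ) (a b : Fin 3 → ℝ),
  a ≠ b → Pencil l a b → ∀ I : Finset (Fin n), min (r + 2) n ≤ I.card →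
  ∀ x : Fin n → restrictTotalDegree (Fin 3) ℝ d, ∃ y : Fin n → restrictTotalDegree (Fin 3) ℝ d,
    (∀ i, i ∉ I → y i = 0) ∧ Phi r d l y = Phi r d l x

/-- (Z2) The rank at a set `A` of interior edges, each with at most one partner in `A`. -/
def StZ2 : Prop := ∀ (N : ℕ) (K : Finset (Finset (Fin N)))
  (cyc : Finset (Fin N) → ℕ → Finset (Fin N)) (p : Fin N → Fin 3 → ℝ) (r d : ℕ)
  (A : Finset (Finset (Fin N))), WR K p → Nice K cyc → A ⊆ interiorFaces K 2 →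
  (∀ e ∈ A, DistinctAt K p e) → (∀ e ∈ A, (partnersIn K A e).card ≤ 1) →
  2 * Module.finrank ℝ (LinearMap.range (PTB K cyc p r d A)) +
    ∑ e ∈ A, ∑ e' ∈ partnersIn K A e, mu (degree K e) (degree K e') r d =
  2 * ∑ e ∈ A, lam (degree K e) r d

end Pool.Agent.Lib.MP_d2a91d_an
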