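import Pool.Agent.Lib.MP_d2a91d_an.Stmts10
import Pool.Agent.Lib.MP_d2a91d_an.T_42

/-!
MP_d2a91d, row TL: truncation at a point as one linear map.
-/

namespace Pool.Agent.Lib.MP_d2a91d_an

open MvPolynomial T_42

/-- truncation at `a` -/
noncomputable def TL42 (a : Fin 3 → ℝ) (L : ℕ) :
    MvPolynomial (Fin 3) ℝ →ₗ[ℝ] MvPolynomial (Fin 3) ℝ :=
  (tr (-a)).toLinearMap ∘ₗ (∑ s ∈ Finset.range L, homogeneousComponent s) ∘ₗ (tr a).toLinearMap

theorem TL42_apply (a : Fin 3 → ℝ) (L : ℕ) (q : MvPolynomial (Fin 3) ℝ) :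
    TL42 a L q = tr (-a) (lowp L (tr a q)) := by
  unfold TL42 lowp
  simp only [LinearMap.comp_apply, AlgHom.toLinearMap_apply, LinearMap.sum_apply]

theorem stTL_42 : StTL := by
  intro a L
  refine ⟨TL42 a L, ?_, ?_, ?_⟩
  · intro q
    rw [TL42_apply]
    exact (totalDegree_tr _ _).trans ((totalDegree_lowp _ _).trans (min_le_left _ _))
  · intro q v
    obtain ⟨G, hG⟩ := ord_high L (tr a q) v
    refine ⟨G, fun s => ?_⟩
    rw [← hG s, TL42_apply]
    have e : q - tr (-a) (lowp L (tr a q)) = tr (-a) (tr a q - lowp L (tr a q)) := by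
      rw [map_sub, tr_tr]
    rw [e, eval_tr, neg_add_cancel_left]
  · intro n r l hl ha q hq
    have hΛ : ∀ i, (tr a (l i)).IsHomogeneous 1 := by
      intro i
      refine homogeneous_one ((totalDegree_tr _ _).trans (hl i)) ?_
      rw [eval_tr, add_zero]
      exact ha i
    have hrel : ∑ i, tr a (l i) ^ (r + 1) * tr a (q i) = 0 := by
      have := congrArg (tr a) hq
      rw [map_sum, map_zero] at this
      rw [← this]
      refine Finset.sum_congr rfl fun i _ => ?_
      rw [map_mul, map_pow]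
    have hcomp : ∀ s, ∑ i, tr a (l i) ^ (r + 1) * homogeneousComponent s (tr a (q i)) = 0 := by
      intro s
      have := congrArg (homogeneousComponent (1 * (r + 1) + s)) hrel
      rw [hc_sum, map_zero] at this
      rw [← this]
      refine Finset.sum_congr rfl fun i _ => ?_
      rw [hc_mul ((hΛ i).pow (r + 1))]
    have h1 : ∑ i, tr a (l i) ^ (r + 1) * lowp L (tr a (q i)) = 0 := by
      unfold lowp
      have : ∀ i, tr a (l i) ^ (r + 1) * ∑ s ∈ Finset.range L,
          homogeneousComponent s (tr a (q i)) = ∑ s ∈ Finset.range L,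
          tr a (l i) ^ (r + 1) * homogeneousComponent s (tr a (q i)) := fun i =>
        Finset.mul_sum _ _ _
      rw [Finset.sum_congr rfl fun i _ => this i, Finset.sum_comm]
      exact Finset.sum_eq_zero fun s _ => hcomp s
    have h2 := congrArg (tr (-a)) h1
    rw [map_sum, map_zero] at h2
    rw [← h2]
    refine Finset.sum_congr rfl fun i _ => ?_
    rw [TL42_apply, map_mul, map_pow, tr_tr]

end Pool.Agent.Lib.MP_d2a91d_an
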