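import Pool.Agent.Lib.MP_d2a91d_an.Defs

/-!
# Row U4a: two tetrahedra of a realisation are separated by a plane through their common vertices
-/

set_option autoImplicit false

namespace Pool.Agent.Lib.MP_d2a91d_an.U4a_32

/-- Weights of a point of a convex hull. -/
theorem exists_weights {ι E : Type*} [AddCommGroup E] [Module ℝ E] (q : ι → E) (D : Finset ι)
    {x : E} (hx : x ∈ convexHull ℝ (q '' (D : Set ι))) :
    ∃ w : ι → ℝ, (∀ i, 0 ≤ w i) ∧ ∑ i ∈ D, w i = 1 ∧ ∑ i ∈ D, w i • q i = x := by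
  classical
  have hsub : convexHull ℝ (q '' (D : Set ι)) ⊆
      {x | ∃ w : ι → ℝ, (∀ i, 0 ≤ w i) ∧ ∑ i ∈ D, w i = 1 ∧ ∑ i ∈ D, w i • q i = x} := by
    refine convexHull_min ?_ ?_
    · rintro _ ⟨i, hi, rfl⟩
      have hi' : i ∈ D := by exact_mod_cast hi
      refine ⟨fun j => if j = i then 1 else 0, fun j => ?_, ?_, ?_⟩
      · show (0 : ℝ) ≤ if j = i then 1 else 0
        split_ifs <;> norm_num
      · rw [Finset.sum_ite_eq' D i, if_pos hi']
      · simp only [ite_smul, one_smul, zero_smul]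
        rw [Finset.sum_ite_eq' D i, if_pos hi']
    · rintro x ⟨w, hw0, hw1, hwx⟩ y ⟨w', hw0', hw1', hwy⟩ a b ha hb hab
      refine ⟨fun i => a * w i + b * w' i, fun i => ?_, ?_, ?_⟩
      · have h1 := mul_nonneg ha (hw0 i)
        have h2 := mul_nonneg hb (hw0' i)
        linarith
      · rw [Finset.sum_add_distrib, ← Finset.mul_sum, ← Finset.mul_sum, hw1, hw1', mul_one,
          mul_one, hab]
      · rw [← hwx, ← hwy, Finset.smul_sum, Finset.smul_sum, ← Finset.sum_add_distrib]
        refine Finset.sum_congr rfl fun i _ => ?_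
        rw [add_smul, mul_smul, mul_smul]
  exact hsub hx

/-- A continuous linear functional in coordinates. -/
theorem clm_eq (f : (Fin 3 → ℝ) →L[ℝ] ℝ) (x : Fin 3 → ℝ) :
    f x = f (Pi.single 0 1) * x 0 + f (Pi.single 1 1) * x 1 + f (Pi.single 2 1) * x 2 := by
  have hx : x = x 0 • (Pi.single 0 1 : Fin 3 → ℝ) + x 1 • (Pi.single 1 1 : Fin 3 → ℝ) +
      x 2 • (Pi.single 2 1 : Fin 3 → ℝ) := by
    funext k
    fin_cases k <;> simp
  conv_lhs => rw [hx]
  rw [map_add, map_add, map_smul, map_smul, map_smul, smul_eq_mul, smul_eq_mul, smul_eq_mul]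
  ring

variable {N : ℕ}

theorem tet_compact (p : Fin N → Fin 3 → ℝ) (t : Finset (Fin N)) : IsCompact (tet p t) :=
  (t.finite_toSet.image p).isCompact_convexHull ℝ

/-- Affine independence in terms of weights on all indices. -/
theorem aff_ind {p : Fin N → Fin 3 → ℝ} {t : Finset (Fin N)}
    (h : AffineIndependent ℝ (fun i : t => p i)) (w : Fin N → ℝ) (h0 : ∑ i ∈ t, w i = 0)
    (h1 : ∑ i ∈ t, w i • p i = 0) : ∀ i ∈ t, w i = 0 := by
  rw [affineIndependent_iff] at h
  intro i hi
  have h0' : ∑ i ∈ t.attach, w (i : Fin N) = 0 := by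
    rw [Finset.sum_attach t (fun i => w i)]; exact h0
  have h1' : ∑ i ∈ t.attach, w (i : Fin N) • p (i : Fin N) = 0 := by
    rw [Finset.sum_attach t (fun i => w i • p i)]; exact h1
  exact h t.attach (fun i => w i) h0' h1' ⟨i, hi⟩ (Finset.mem_attach _ _)

/-- A small step from a vertex in a direction of the cone stays in the tetrahedron. -/
theorem step_mem (p : Fin N → Fin 3 → ℝ) (t : Finset (Fin N)) (f : Fin N) (hf : f ∈ t)
    (lam : Fin N → ℝ) (hl : ∀ i, 0 ≤ lam i) (ε : ℝ) (hε : 0 ≤ ε)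
    (hε1 : ε * ∑ i ∈ t, lam i ≤ 1) :
    p f + ε • ∑ i ∈ t, lam i • (p i - p f) ∈ tet p t := by
  classical
  have key : p f + ε • ∑ i ∈ t, lam i • (p i - p f) =
      ∑ i ∈ t, (ε * lam i + if i = f then 1 - ε * ∑ k ∈ t, lam k else 0) • p i := by
    simp only [add_smul, ite_smul, zero_smul]
    rw [Finset.sum_add_distrib, Finset.sum_ite_eq' t f, if_pos hf]
    simp only [smul_sub]
    rw [Finset.sum_sub_distrib, ← Finset.sum_smul, smul_sub]
    simp only [mul_smul]
    rw [← Finset.smul_sum]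
    module
  rw [key]
  refine (convex_convexHull ℝ _).sum_mem (fun i _ => ?_) ?_ (fun i hi => ?_)
  · have h1 : 0 ≤ ε * lam i := mul_nonneg hε (hl i)
    split_ifs
    · linarith
    · linarith
  · rw [Finset.sum_add_distrib, Finset.sum_ite_eq' t f, if_pos hf, ← Finset.mul_sum]
    ring
  · exact subset_convexHull ℝ _ ⟨i, by exact_mod_cast hi, rfl⟩

/-- The coordinates of a small step which lies in a face vanish off the face. -/
theorem step_face {p : Fin N → Fin 3 → ℝ} {t F : Finset (Fin N)} (hFt : F ⊆ t)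
    (hind : AffineIndependent ℝ (fun i : t => p i)) (f : Fin N) (hf : f ∈ F)
    (lam : Fin N → ℝ) (ε : ℝ) (hε : 0 < ε)
    (hmem : p f + ε • ∑ i ∈ t, lam i • (p i - p f) ∈ tet p F) :
    ∀ i ∈ t, i ∉ F → lam i = 0 := by
  classical
  obtain ⟨w, hw0, hw1, hwx⟩ := exists_weights p F hmem
  intro i hi hiF
  -- weights on `t`
  have h := aff_ind hind (fun i => ε * lam i + (if i = f then 1 - ε * ∑ k ∈ t, lam k else 0) -
    (if i ∈ F then w i else 0)) ?_ ?_ i hi
  · have hif : i ≠ f := fun h => hiF (h ▸ hf)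
    simp only [hif, hiF, if_false] at h
    have : ε * lam i = 0 := by linarith
    rcases mul_eq_zero.mp this with h' | h'
    · exact absurd h' hε.ne'
    · exact h'
  · have e1 : ∑ i ∈ t, (if i ∈ F then w i else 0) = 1 := by
      rw [← Finset.sum_filter, Finset.filter_mem_eq_inter, Finset.inter_eq_right.mpr hFt, hw1]
    rw [Finset.sum_sub_distrib, Finset.sum_add_distrib, Finset.sum_ite_eq' t f,
      if_pos (hFt hf), ← Finset.mul_sum, e1]
    ring
  · have e1 : ∑ i ∈ t, (if i ∈ F then w i else 0) • p i =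
        p f + ε • ∑ i ∈ t, lam i • (p i - p f) := by
      simp only [ite_smul, zero_smul]
      rw [← Finset.sum_filter, Finset.filter_mem_eq_inter, Finset.inter_eq_right.mpr hFt, hwx]
    simp only [sub_smul, add_smul]
    rw [Finset.sum_sub_distrib, Finset.sum_add_distrib, e1]
    simp only [ite_smul, zero_smul]
    rw [Finset.sum_ite_eq' t f, if_pos (hFt hf)]
    simp only [smul_sub]
    rw [Finset.sum_sub_distrib, ← Finset.sum_smul, smul_sub]
    simp only [mul_smul]
    rw [← Finset.smul_sum]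
    module

/-- The two cones at a common vertex meet only in the span of the common face. -/
theorem disj {K : Finset (Finset (Fin N))} {p : Fin N → Fin 3 → ℝ} (h : Realises K p)
    {t t' : Finset (Fin N)} (ht : t ∈ K) (ht' : t' ∈ K) (f : Fin N) (hf : f ∈ t ∩ t')
    (α γ : Fin N → ℝ) (hα : ∀ i, 0 ≤ α i)
    (hx : ∑ i ∈ t \ t', α i • (p i - p f) - ∑ i ∈ t' \ t, α i • (p i - p f) =
      ∑ k ∈ t ∩ t', γ k • (p k - p f)) :
    (∀ i ∈ t \ t', α i = 0) ∧ ∀ i ∈ t' \ t, α i = 0 := by
  classical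
  obtain ⟨lam, hlam⟩ : ∃ lam : Fin N → ℝ, lam = fun i => if i ∈ t ∩ t' then max (-(γ i)) 0
    else α i := ⟨_, rfl⟩
  obtain ⟨lam', hlam'⟩ : ∃ lam' : Fin N → ℝ, lam' = fun i => if i ∈ t ∩ t' then max (γ i) 0
    else α i := ⟨_, rfl⟩
  have hl : ∀ i, 0 ≤ lam i := by
    intro i
    rw [hlam]
    show 0 ≤ if i ∈ t ∩ t' then max (-(γ i)) 0 else α i
    split_ifs
    · exact le_max_right _ _
    · exact hα i
  have hl' : ∀ i, 0 ≤ lam' i := by
    intro i
    rw [hlam']
    show 0 ≤ if i ∈ t ∩ t' then max (γ i) 0 else α i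
    split_ifs
    · exact le_max_right _ _
    · exact hα i
  have split : ∀ (s s' : Finset (Fin N)) (g : Fin N → (Fin 3 → ℝ)),
      ∑ i ∈ s, g i = ∑ i ∈ s \ s', g i + ∑ i ∈ s ∩ s', g i := by
    intro s s' g
    rw [← Finset.sum_sdiff (Finset.inter_subset_left : s ∩ s' ⊆ s), Finset.sdiff_inter_self_left]
  have e1 : ∑ i ∈ t, lam i • (p i - p f) = ∑ i ∈ t \ t', α i • (p i - p f) +
      ∑ i ∈ t ∩ t', max (-(γ i)) 0 • (p i - p f) := by
    rw [split t t']
    congr 1
    · refine Finset.sum_congr rfl fun i hi => ?_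
      have : i ∉ t ∩ t' := fun h => (Finset.mem_sdiff.mp hi).2 (Finset.mem_inter.mp h).2
      rw [hlam]; simp only [this, if_false]
    · refine Finset.sum_congr rfl fun i hi => ?_
      rw [hlam]; simp only [hi, if_true]
  have e2 : ∑ i ∈ t', lam' i • (p i - p f) = ∑ i ∈ t' \ t, α i • (p i - p f) +
      ∑ i ∈ t ∩ t', max (γ i) 0 • (p i - p f) := by
    rw [split t' t, Finset.inter_comm t' t]
    congr 1
    · refine Finset.sum_congr rfl fun i hi => ?_
      have : i ∉ t ∩ t' := fun h => (Finset.mem_sdiff.mp hi).2 (Finset.mem_inter.mp h).1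
      rw [hlam']; simp only [this, if_false]
    · refine Finset.sum_congr rfl fun i hi => ?_
      rw [hlam']; simp only [hi, if_true]
  have e3 : ∑ k ∈ t ∩ t', γ k • (p k - p f) = ∑ i ∈ t ∩ t', max (γ i) 0 • (p i - p f) -
      ∑ i ∈ t ∩ t', max (-(γ i)) 0 • (p i - p f) := by
    rw [← Finset.sum_sub_distrib]
    refine Finset.sum_congr rfl fun i _ => ?_
    rw [← sub_smul]
    congr 1
    rcases le_total 0 (γ i) with h0 | h0
    · rw [max_eq_left h0, max_eq_right (by linarith)]; ring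
    · rw [max_eq_right h0, max_eq_left (by linarith)]; ring
  have e4 : ∑ i ∈ t, lam i • (p i - p f) = ∑ i ∈ t', lam' i • (p i - p f) := by
    rw [e1, e2]
    rw [e3] at hx
    have h5 := sub_eq_sub_iff_add_eq_add.mp hx
    rw [h5]
    abel
  have hT : 0 ≤ ∑ i ∈ t, lam i := Finset.sum_nonneg fun i _ => hl i
  have hT' : 0 ≤ ∑ i ∈ t', lam' i := Finset.sum_nonneg fun i _ => hl' i
  obtain ⟨ε, hεd⟩ : ∃ ε : ℝ, ε = 1 / (1 + ∑ i ∈ t, lam i + ∑ i ∈ t', lam' i) := ⟨_, rfl⟩
  have hden : 0 < 1 + ∑ i ∈ t, lam i + ∑ i ∈ t', lam' i := by linarith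
  have hε : 0 < ε := by rw [hεd]; positivity
  have hε1 : ε * ∑ i ∈ t, lam i ≤ 1 := by
    rw [hεd, one_div_mul_eq_div, div_le_one hden]; linarith
  have hε2 : ε * ∑ i ∈ t', lam' i ≤ 1 := by
    rw [hεd, one_div_mul_eq_div, div_le_one hden]; linarith
  have m1 := step_mem p t f (Finset.mem_inter.mp hf).1 lam hl ε hε.le hε1
  have m2 := step_mem p t' f (Finset.mem_inter.mp hf).2 lam' hl' ε hε.le hε2
  have m3 : p f + ε • ∑ i ∈ t, lam i • (p i - p f) ∈ tet p (t ∩ t') := by
    rw [← h.meet t ht t' ht']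
    exact ⟨m1, by rw [e4]; exact m2⟩
  have m4 : p f + ε • ∑ i ∈ t', lam' i • (p i - p f) ∈ tet p (t ∩ t') := by
    rw [← e4]; exact m3
  constructor
  · intro i hi
    obtain ⟨hi1, hi2⟩ := Finset.mem_sdiff.mp hi
    have hiF : i ∉ t ∩ t' := fun h => hi2 (Finset.mem_inter.mp h).2
    have := step_face Finset.inter_subset_left (h.nondeg t ht) f hf lam ε hε m3 i hi1 hiF
    rw [hlam] at this
    simpa only [hiF, if_false] using this
  · intro i hi
    obtain ⟨hi1, hi2⟩ := Finset.mem_sdiff.mp hi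
    have hiF : i ∉ t ∩ t' := fun h => hi2 (Finset.mem_inter.mp h).1
    have := step_face Finset.inter_subset_right (h.nondeg t' ht') f hf lam' ε hε m4 i hi1 hiF
    rw [hlam'] at this
    simpa only [hiF, if_false] using this

/-- The separating plane. -/
theorem u4a {K : Finset (Finset (Fin N))} {p : Fin N → Fin 3 → ℝ} (h : Realises K p)
    {t t' : Finset (Fin N)} (ht : t ∈ K) (ht' : t' ∈ K) : ∃ (c0 : ℝ) (c : Fin 3 → ℝ),
    (∀ i ∈ t ∩ t', c0 + c 0 * p i 0 + c 1 * p i 1 + c 2 * p i 2 = 0) ∧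
    (∀ i ∈ t, i ∉ t' → 0 < c0 + c 0 * p i 0 + c 1 * p i 1 + c 2 * p i 2) ∧
    (∀ i ∈ t', i ∉ t → c0 + c 0 * p i 0 + c 1 * p i 1 + c 2 * p i 2 < 0) := by
  classical
  by_cases hF : (t ∩ t').Nonempty
  · obtain ⟨f, hf⟩ := hF
    obtain ⟨q, hq⟩ : ∃ q : Fin N → (Fin 3 → ℝ), q = fun i => if i ∈ t then p i - p f
      else -(p i - p f) := ⟨_, rfl⟩
    obtain ⟨D, hD⟩ : ∃ D : Finset (Fin N), D = (t \ t') ∪ (t' \ t) := ⟨_, rfl⟩
    have hdj : Disjoint (t \ t') (t' \ t) := by
      rw [Finset.disjoint_left]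
      intro i hi hi'
      exact (Finset.mem_sdiff.mp hi).2 (Finset.mem_sdiff.mp hi').1
    have hdisj : Disjoint (convexHull ℝ (q '' (D : Set (Fin N))))
        (Submodule.span ℝ ((fun k => p k - p f) '' ((t ∩ t' : Finset (Fin N)) : Set (Fin N))) :
          Set (Fin 3 → ℝ)) := by
      rw [Set.disjoint_left]
      intro x hx hxW
      obtain ⟨α, hα0, hα1, hαx⟩ := exists_weights q D hx
      obtain ⟨γ, hγ⟩ := (Submodule.mem_span_image_finset_iff_exists_fun' ℝ).mp hxW
      have hsum : ∑ i ∈ t \ t', α i • (p i - p f) - ∑ i ∈ t' \ t, α i • (p i - p f) =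
          ∑ k ∈ t ∩ t', γ k • (p k - p f) := by
        rw [hγ, ← hαx, hD, Finset.sum_union hdj, sub_eq_add_neg, ← Finset.sum_neg_distrib]
        congr 1
        · refine Finset.sum_congr rfl fun i hi => ?_
          rw [hq]; simp only [(Finset.mem_sdiff.mp hi).1, if_true]
        · refine Finset.sum_congr rfl fun i hi => ?_
          rw [hq]; simp only [(Finset.mem_sdiff.mp hi).2, if_false, smul_neg]
      obtain ⟨h1, h2⟩ := disj h ht ht' f hf α γ hα0 hsum
      have h3 : ∑ i ∈ D, α i = 0 := by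
        rw [hD, Finset.sum_union hdj, Finset.sum_eq_zero h1, Finset.sum_eq_zero h2, add_zero]
      rw [hα1] at h3
      exact one_ne_zero h3
    obtain ⟨φ, u, v, hu, huv, hv⟩ := geometric_hahn_banach_compact_closed
      (convex_convexHull ℝ (q '' (D : Set (Fin N))))
      ((D.finite_toSet.image q).isCompact_convexHull ℝ)
      (Submodule.convex (Submodule.span ℝ ((fun k => p k - p f) ''
        ((t ∩ t' : Finset (Fin N)) : Set (Fin N)))))
      (Submodule.closed_of_finiteDimensional _) hdisj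
    have hv0 : v < 0 := by
      have := hv 0 (Submodule.zero_mem _)
      rwa [map_zero] at this
    have hW : ∀ w ∈ Submodule.span ℝ ((fun k => p k - p f) ''
        ((t ∩ t' : Finset (Fin N)) : Set (Fin N))), φ w = 0 := by
      intro w hw
      by_contra hne
      have h1 := hv (((v - 1) / φ w) • w) (Submodule.smul_mem _ _ hw)
      rw [map_smul, smul_eq_mul, div_mul_cancel₀ _ hne] at h1
      linarith
    have haf : ∀ x : Fin 3 → ℝ, φ (p f) + -(φ (Pi.single 0 1)) * x 0 +
        -(φ (Pi.single 1 1)) * x 1 + -(φ (Pi.single 2 1)) * x 2 = -(φ (x - p f)) := by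
      intro x
      rw [map_sub, clm_eq φ x]
      ring
    refine ⟨φ (p f), ![-(φ (Pi.single 0 1)), -(φ (Pi.single 1 1)), -(φ (Pi.single 2 1))],
      ?_, ?_, ?_⟩
    · intro i hi
      refine (haf (p i)).trans ?_
      rw [hW _ (Submodule.subset_span ⟨i, by exact_mod_cast hi, rfl⟩), neg_zero]
    · intro i hi hi'
      have hmem : q i ∈ convexHull ℝ (q '' (D : Set (Fin N))) := by
        refine subset_convexHull ℝ _ ⟨i, ?_, rfl⟩
        rw [hD, Finset.mem_coe, Finset.mem_union, Finset.mem_sdiff]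
        exact Or.inl ⟨hi, hi'⟩
      have h1 := hu _ hmem
      have h2 : q i = p i - p f := by rw [hq]; simp only [hi, if_true]
      rw [h2] at h1
      have h3 := haf (p i)
      have h4 : 0 < -(φ (p i - p f)) := by linarith
      rw [← h3] at h4
      exact h4
    · intro i hi hi'
      have hmem : q i ∈ convexHull ℝ (q '' (D : Set (Fin N))) := by
        refine subset_convexHull ℝ _ ⟨i, ?_, rfl⟩
        rw [hD, Finset.mem_coe, Finset.mem_union, Finset.mem_sdiff, Finset.mem_sdiff]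
        exact Or.inr ⟨hi, hi'⟩
      have h1 := hu _ hmem
      have h2 : q i = -(p i - p f) := by rw [hq]; simp only [hi', if_false]
      rw [h2, map_neg] at h1
      have h3 := haf (p i)
      have h4 : -(φ (p i - p f)) < 0 := by linarith
      rw [← h3] at h4
      exact h4
  · rw [Finset.not_nonempty_iff_eq_empty] at hF
    have hdisj : Disjoint (tet p t') (tet p t) := by
      rw [Set.disjoint_iff_inter_eq_empty, h.meet t' ht' t ht, Finset.inter_comm, hF]
      unfold tet
      simp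
    obtain ⟨φ, u, v, hu, huv, hv⟩ := geometric_hahn_banach_compact_closed
      (convex_convexHull ℝ (p '' (t' : Set (Fin N)))) (tet_compact p t')
      (convex_convexHull ℝ (p '' (t : Set (Fin N)))) (tet_compact p t).isClosed hdisj
    refine ⟨-u, ![φ (Pi.single 0 1), φ (Pi.single 1 1), φ (Pi.single 2 1)], ?_, ?_, ?_⟩
    · intro i hi
      rw [hF] at hi
      exact absurd hi (Finset.notMem_empty i)
    · intro i hi _
      have h1 := hv (p i) (subset_convexHull ℝ _ ⟨i, by exact_mod_cast hi, rfl⟩)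
      rw [clm_eq φ (p i)] at h1
      show 0 < -u + φ (Pi.single 0 1) * p i 0 + φ (Pi.single 1 1) * p i 1 +
        φ (Pi.single 2 1) * p i 2
      linarith
    · intro i hi _
      have h1 := hu (p i) (subset_convexHull ℝ _ ⟨i, by exact_mod_cast hi, rfl⟩)
      rw [clm_eq φ (p i)] at h1
      show -u + φ (Pi.single 0 1) * p i 0 + φ (Pi.single 1 1) * p i 1 +
        φ (Pi.single 2 1) * p i 2 < 0
      linarith

end Pool.Agent.Lib.MP_d2a91d_an.U4a_32
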