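import Pool.Agent.Lib.MP_d2a91d_an.Stmts5
import Pool.Agent.Lib.MP_d2a91d_an.U4a_32

set_option autoImplicit false

namespace Pool.Agent.Lib.MP_d2a91d_an.U4a_32

/-- (U4a) -/
theorem stU4a_32 : StU4a := by
  intro N K p h t ht t' ht'
  exact u4a h ht ht'

end Pool.Agent.Lib.MP_d2a91d_an.U4a_32
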