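import Pool.Agent.Lib.MP_d2a91d_an.Stmts5

/-!
# Row U4b: realisations are stable under small perturbations
-/

set_option autoImplicit false

namespace Pool.Agent.Lib.MP_d2a91d_an.U4b_83

open Filter Topology Matrix

variable {N : ℕ}

theorem af_comb (c0 : ℝ) (c : Fin 3 → ℝ) {a b : ℝ} (hab : a + b = 1) (x y : Fin 3 → ℝ) :
    af c0 c (a • x + b • y) = a * af c0 c x + b * af c0 c y := by
  have hb : b = 1 - a := by linarith
  subst hb
  unfold af
  simp only [Pi.add_apply, Pi.smul_apply, smul_eq_mul]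
  ring

/-- separation -/
theorem meet_sub (p : Fin N → Fin 3 → ℝ) (t t' : Finset (Fin N)) (c0 : ℝ) (c : Fin 3 → ℝ)
    (h1 : ∀ i ∈ t, 0 ≤ af c0 c (p i)) (h2 : ∀ i ∈ t, i ∉ t' → 0 < af c0 c (p i))
    (h3 : ∀ i ∈ t', af c0 c (p i) ≤ 0) : tet p t ∩ tet p t' ⊆ tet p (t ∩ t') := by
  rintro x ⟨hx, hx'⟩
  have hC : Convex ℝ (tet p (t ∩ t')) := convex_convexHull ℝ _
  have hA : tet p t ⊆ {y | 0 ≤ af c0 c y ∧ (0 < af c0 c y ∨ y ∈ tet p (t ∩ t'))} := by
    unfold tet
    refine convexHull_min ?_ ?_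
    · rintro _ ⟨i, hi, rfl⟩
      have hi' : i ∈ t := by exact_mod_cast hi
      refine ⟨h1 i hi', ?_⟩
      by_cases hit : i ∈ t'
      · right
        exact subset_convexHull ℝ _ ⟨i, by exact_mod_cast Finset.mem_inter.mpr ⟨hi', hit⟩, rfl⟩
      · exact Or.inl (h2 i hi' hit)
    · rintro y ⟨hy0, hy⟩ z ⟨hz0, hz⟩ a b ha hb hab
      refine ⟨?_, ?_⟩
      · rw [af_comb c0 c hab]
        positivity
      · rcases eq_or_lt_of_le ha with ha0 | ha0
        · have hb1 : b = 1 := by linarith
          rw [← ha0, hb1, zero_smul, one_smul, zero_add]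
          exact hz
        · rcases eq_or_lt_of_le hb with hb0 | hb0
          · have ha1 : a = 1 := by linarith
            rw [← hb0, ha1, zero_smul, one_smul, add_zero]
            exact hy
          · rcases hy with hy | hy
            · left
              rw [af_comb c0 c hab]
              have : 0 < a * af c0 c y := mul_pos ha0 hy
              have h' : 0 ≤ b * af c0 c z := mul_nonneg hb hz0
              linarith
            · rcases hz with hz | hz
              · left
                rw [af_comb c0 c hab]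
                have : 0 < b * af c0 c z := mul_pos hb0 hz
                have h' : 0 ≤ a * af c0 c y := mul_nonneg ha hy0
                linarith
              · right
                exact hC hy hz ha hb hab
  have hB : tet p t' ⊆ {y | af c0 c y ≤ 0} := by
    unfold tet
    refine convexHull_min ?_ ?_
    · rintro _ ⟨i, hi, rfl⟩
      exact h3 i (by exact_mod_cast hi)
    · intro y hy z hz a b ha hb hab
      show af c0 c (a • y + b • z) ≤ 0
      rw [af_comb c0 c hab]
      have h4 : a * af c0 c y ≤ 0 := mul_nonpos_of_nonneg_of_nonpos ha hy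
      have h5 : b * af c0 c z ≤ 0 := mul_nonpos_of_nonneg_of_nonpos hb hz
      linarith
  have h6 := hA hx
  have h7 : af c0 c x ≤ 0 := hB hx'
  rcases h6.2 with h8 | h8
  · linarith
  · exact h8

/-- the matrix with rows `(1, q j)` -/
def mat (q : Fin 4 → Fin 3 → ℝ) : Matrix (Fin 4) (Fin 4) ℝ :=
  fun j => ![1, q j 0, q j 1, q j 2]

theorem mat_mulVec (q : Fin 4 → Fin 3 → ℝ) (x : Fin 4 → ℝ) (j : Fin 4) :
    (mat q *ᵥ x) j = af (x 0) ![x 1, x 2, x 3] (q j) := by
  simp [mat, Matrix.mulVec, dotProduct, Fin.sum_univ_four, af]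
  ring

theorem det_ne (q : Fin 4 → Fin 3 → ℝ) (h : AffineIndependent ℝ q) : (mat q).det ≠ 0 := by
  intro h0
  obtain ⟨v, hv, hv'⟩ := Matrix.exists_vecMul_eq_zero_iff.mpr h0
  apply hv
  rw [affineIndependent_iff] at h
  have e : ∀ k : Fin 4, ∑ j, v j * mat q j k = 0 := fun k => congrFun hv' k
  have s0 : ∑ j ∈ Finset.univ, v j = 0 := by
    have := e 0
    simpa [mat] using this
  have s1 : ∑ j ∈ Finset.univ, v j • q j = 0 := by
    funext k
    rw [Finset.sum_apply]
    fin_cases k
    · simpa [mat] using e 1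
    · simpa [mat] using e 2
    · simpa [mat] using e 3
  funext j
  exact h Finset.univ v s0 s1 j (Finset.mem_univ j)

theorem cont_ln (p p' : Fin N → Fin 3 → ℝ) (i : Fin N) : Continuous fun s => ln p p' s i := by
  unfold ln
  fun_prop

theorem ln_zero (p p' : Fin N → Fin 3 → ℝ) : ln p p' 0 = p := by
  funext i
  simp [ln]

theorem cont_mat (q : ℝ → Fin 4 → Fin 3 → ℝ) (hq : ∀ j, Continuous fun s => q s j) :
    Continuous fun s => mat (q s) := by
  refine continuous_pi fun j => continuous_pi fun k => ?_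
  have h : ∀ m : Fin 3, Continuous fun s => q s j m := fun m => (continuous_apply m).comp (hq j)
  fin_cases k
  · simpa [mat] using continuous_const
  · simpa [mat] using h 0
  · simpa [mat] using h 1
  · simpa [mat] using h 2

/-- the interpolating affine functions -/
theorem interp (q : ℝ → Fin 4 → Fin 3 → ℝ) (hq : ∀ j, Continuous fun s => q s j)
    (h0 : AffineIndependent ℝ (q 0)) (c0 : ℝ) (c : Fin 3 → ℝ) :
    ∃ x : ℝ → Fin 4 → ℝ, ContinuousAt x 0 ∧ x 0 = ![c0, c 0, c 1, c 2] ∧
      ∀ᶠ s in 𝓝 (0 : ℝ), ∀ j, af (x s 0) ![x s 1, x s 2, x s 3] (q s j) = af c0 c (q 0 j) := by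
  have hm := cont_mat q hq
  have hd : (mat (q 0)).det ≠ 0 := det_ne _ h0
  have hdc : Continuous fun s => (mat (q s)).det := hm.matrix_det
  let y : Fin 4 → ℝ := ![c0, c 0, c 1, c 2]
  let b : Fin 4 → ℝ := mat (q 0) *ᵥ y
  have hb : ∀ j, b j = af c0 c (q 0 j) := by
    intro j
    have := mat_mulVec (q 0) y j
    simp only [b]
    rw [this]
    simp [y, af]
  refine ⟨fun s => ((mat (q s)).det)⁻¹ • ((mat (q s)).adjugate *ᵥ b), ?_, ?_, ?_⟩
  · refine ContinuousAt.smul (hdc.continuousAt.inv₀ hd) ?_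
    exact (hm.matrix_adjugate.matrix_mulVec continuous_const).continuousAt
  · show ((mat (q 0)).det)⁻¹ • ((mat (q 0)).adjugate *ᵥ (mat (q 0) *ᵥ y)) = y
    rw [Matrix.mulVec_mulVec, Matrix.adjugate_mul, Matrix.smul_mulVec, Matrix.one_mulVec, smul_smul,
      inv_mul_cancel₀ hd, one_smul]
  · have hev : ∀ᶠ s in 𝓝 (0 : ℝ), (mat (q s)).det ≠ 0 :=
      hdc.continuousAt.eventually_ne hd
    filter_upwards [hev] with s hs j
    rw [← mat_mulVec, ← hb]
    show (mat (q s) *ᵥ (((mat (q s)).det)⁻¹ • ((mat (q s)).adjugate *ᵥ b))) j = b j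
    rw [Matrix.mulVec_smul, Matrix.mulVec_mulVec, Matrix.mul_adjugate, Matrix.smul_mulVec,
      Matrix.one_mulVec, smul_smul, inv_mul_cancel₀ hs, one_smul]

theorem cont_af : Continuous fun z : (Fin 4 → ℝ) × (Fin 3 → ℝ) =>
    af (z.1 0) ![z.1 1, z.1 2, z.1 3] z.2 := by
  have h : (fun z : (Fin 4 → ℝ) × (Fin 3 → ℝ) => af (z.1 0) ![z.1 1, z.1 2, z.1 3] z.2) =
      fun z => z.1 0 + z.1 1 * z.2 0 + z.1 2 * z.2 1 + z.1 3 * z.2 2 := by
    funext z
    simp [af]
  rw [h]
  fun_prop

/-- (U4b) -/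
theorem stU4b_83 : StU4b := by
  intro N K p p' hR hsep
  refine Filter.Eventually.filter_mono nhdsWithin_le_nhds ?_
  -- nondegeneracy
  have hn : ∀ᶠ s in 𝓝 (0 : ℝ), ∀ t ∈ K, AffineIndependent ℝ (fun i : t => ln p p' s i) := by
    rw [Filter.eventually_all_finset]
    intro t ht
    have hc : Continuous fun s : ℝ => (fun i : t => ln p p' s i) :=
      continuous_pi fun i => cont_ln p p' i
    have ho : IsOpen {f : t → Fin 3 → ℝ | AffineIndependent ℝ f} := isOpen_setOfPred_affineIndependent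
    have h0 : (fun i : t => ln p p' 0 i) ∈ {f : t → Fin 3 → ℝ | AffineIndependent ℝ f} := by
      rw [ln_zero]
      exact hR.nondeg t ht
    exact hc.continuousAt.eventually (ho.mem_nhds h0)
  have hm : ∀ᶠ s in 𝓝 (0 : ℝ), ∀ t ∈ K, ∀ t' ∈ K,
      tet (ln p p' s) t ∩ tet (ln p p' s) t' ⊆ tet (ln p p' s) (t ∩ t') := by
    rw [Filter.eventually_all_finset]
    intro t ht
    rw [Filter.eventually_all_finset]
    intro t' ht'
    obtain ⟨c0, c, hz, hpos, hneg⟩ := hsep t ht t' ht'
    have hcard : Fintype.card t = 4 := by rw [Fintype.card_coe]; exact hR.card t ht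
    let e : Fin 4 ≃ t := (Fintype.equivFinOfCardEq hcard).symm
    obtain ⟨x, hx, hx0, hxs⟩ := interp (fun s j => ln p p' s (e j))
      (fun j => cont_ln p p' (e j)) (by
        simp only [ln_zero]
        exact (hR.nondeg t ht).comp_embedding e.toEmbedding) c0 c
    have hx1 : ∀ i ∈ t', i ∉ t → ∀ᶠ s in 𝓝 (0 : ℝ),
        af (x s 0) ![x s 1, x s 2, x s 3] (ln p p' s i) < 0 := by
      intro i hi hit
      have hc : ContinuousAt (fun s => af (x s 0) ![x s 1, x s 2, x s 3] (ln p p' s i)) 0 := by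
        have h1 : ContinuousAt (fun s => (x s, ln p p' s i)) 0 :=
          hx.prodMk (cont_ln p p' i).continuousAt
        exact ContinuousAt.comp (f := fun s => (x s, ln p p' s i)) cont_af.continuousAt h1
      refine hc.eventually_lt_const ?_
      show af (x 0 0) ![x 0 1, x 0 2, x 0 3] (ln p p' 0 i) < 0
      rw [hx0, ln_zero]
      simpa [af] using hneg i hi hit
    have hx2 : ∀ᶠ s in 𝓝 (0 : ℝ), ∀ i ∈ t', i ∉ t →
        af (x s 0) ![x s 1, x s 2, x s 3] (ln p p' s i) < 0 := by
      rw [Filter.eventually_all_finset]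
      intro i hi
      by_cases hit : i ∈ t
      · exact Filter.Eventually.of_forall fun s h => absurd hit h
      · filter_upwards [hx1 i hi hit] with s hs _
        exact hs
    filter_upwards [hx2, hxs] with s h2 h1
    have h1' : ∀ i ∈ t, af (x s 0) ![x s 1, x s 2, x s 3] (ln p p' s i) = af c0 c (p i) := by
      intro i hi
      have := h1 (e.symm ⟨i, hi⟩)
      simpa [ln_zero] using this
    refine meet_sub _ t t' (x s 0) ![x s 1, x s 2, x s 3] ?_ ?_ ?_
    · intro i hi
      rw [h1' i hi]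
      by_cases hit : i ∈ t'
      · exact (hz i (Finset.mem_inter.mpr ⟨hi, hit⟩)).ge
      · exact (hpos i hi hit).le
    · intro i hi hit
      rw [h1' i hi]
      exact hpos i hi hit
    · intro i hi
      by_cases hit : i ∈ t
      · rw [h1' i hit]
        exact (hz i (Finset.mem_inter.mpr ⟨hit, hi⟩)).le
      · exact (h2 i hi hit).le
  filter_upwards [hn, hm] with s h1 h2
  refine ⟨hR.card, h1, fun t ht t' ht' => Set.Subset.antisymm (h2 t ht t' ht') ?_⟩
  exact Set.subset_inter
    (convexHull_mono (Set.image_mono (by exact_mod_cast Finset.inter_subset_left)))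
    (convexHull_mono (Set.image_mono (by exact_mod_cast Finset.inter_subset_right)))

end Pool.Agent.Lib.MP_d2a91d_an.U4b_83
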