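import Pool.Agent.Lib.MP_d2a91d_an.Match2
import Pool.Agent.Lib.MP_d2a91d_an.Stmts5
import Pool.Agent.Lib.MP_d2a91d_an.PP_79

namespace Pool.Agent.Lib.MP_d2a91d_an

open MvPolynomial

variable {N : ℕ} {K : Finset (Finset (Fin N))} {p : Fin N → Fin 3 → ℝ}
  {cyc : Finset (Fin N) → ℕ → Finset (Fin N)}

theorem Realises.wr (h : Realises K p) : WR K p := ⟨h.card, h.nondeg⟩

theorem affInd4w (h : WR K p) {t : Finset (Fin N)} (ht : t ∈ K) {i0 i1 i2 i3 : Fin N}
    (h0 : i0 ∈ t) (h1 : i1 ∈ t) (h2 : i2 ∈ t) (h3 : i3 ∈ t) (h01 : i0 ≠ i1) (h02 : i0 ≠ i2)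
    (h03 : i0 ≠ i3) (h12 : i1 ≠ i2) (h13 : i1 ≠ i3) (h23 : i2 ≠ i3) :
    AffineIndependent ℝ ![p i0, p i1, p i2, p i3] := by
  have hinj : Function.Injective
      (![⟨i0, h0⟩, ⟨i1, h1⟩, ⟨i2, h2⟩, ⟨i3, h3⟩] : Fin 4 → t) := by
    intro a b hab
    have hab' := congrArg Subtype.val hab
    fin_cases a <;> fin_cases b <;> first
      | rfl
      | (exfalso; simp at hab'; first
          | exact h01 hab' | exact h02 hab' | exact h03 hab' | exact h12 hab' | exact h13 hab'
          | exact h23 hab' | exact h01 hab'.symm | exact h02 hab'.symm | exact h03 hab'.symm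
          | exact h12 hab'.symm | exact h13 hab'.symm | exact h23 hab'.symm)
  have := (h.nondeg t ht).comp_embedding ⟨_, hinj⟩
  convert this using 1
  funext i
  fin_cases i <;> rfl

theorem lf_eval_ne_w (hp : WR K p) {f t : Finset (Fin N)} (hf : f.card = 3) (ht : t ∈ K)
    (hft : f ⊆ t) {i : Fin N} (hi : i ∈ t) (hif : i ∉ f) : eval (p i) (lf p f) ≠ 0 := by
  unfold lf
  rw [dif_pos hf, eval_pl_sub]
  have hm : ∀ j, f.orderEmbOfFin hf j ∈ f := fun j => Finset.orderEmbOfFin_mem f hf j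
  have hinj := (f.orderEmbOfFin hf).injective
  have hne : ∀ a b : Fin 3, a ≠ b → f.orderEmbOfFin hf a ≠ f.orderEmbOfFin hf b :=
    fun a b hab h => hab (hinj h)
  have hni : ∀ j, f.orderEmbOfFin hf j ≠ i := fun j h => hif (h ▸ hm j)
  have := isUnit_cols (affInd4w hp ht (hft (hm 0)) (hft (hm 1)) (hft (hm 2)) hi
    (hne 0 1 (by decide)) (hne 0 2 (by decide)) (hni 0) (hne 1 2 (by decide)) (hni 1) (hni 2))
  exact this.ne_zero

theorem lf_ne_zero_w (hp : WR K p) {f t : Finset (Fin N)} (hf : f.card = 3) (ht : t ∈ K)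
    (hft : f ⊆ t) : lf p f ≠ 0 := by
  have hns : ¬ t ⊆ f := by
    intro h
    have := Finset.card_le_card h
    rw [hp.card t ht] at this
    omega
  obtain ⟨i, hi, hif⟩ := Finset.not_subset.mp hns
  intro h
  apply lf_eval_ne_w hp hf ht hft hi hif
  rw [h, map_zero]

theorem le_ne_zero_w (hp : WR K p) (hcyc : Nice K cyc) {e : Finset (Fin N)}
    (he : e ∈ interiorFaces K 2) (i : Fin (degree K e)) : le K cyc p e i ≠ 0 :=
  lf_ne_zero_w hp (fi_card hcyc he i.2) (cyc_mem hcyc he i.2.le).1 Finset.inter_subset_left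

theorem exists_ends_w (hp : WR K p) {e : Finset (Fin N)} (he : e ∈ interiorFaces K 2) :
    ∃ u ∈ e, ∃ v ∈ e, p u ≠ p v := by
  obtain ⟨he2, t, ht, het⟩ := mem_faces.mp (mem_interiorFaces.mp he).1
  obtain ⟨u, v, huv, rfl⟩ := Finset.card_eq_two.mp he2
  refine ⟨u, by simp, v, by simp, fun h => huv ?_⟩
  have hu : u ∈ t := het (by simp)
  have hv : v ∈ t := het (by simp)
  have := (hp.nondeg t ht).injective (a₁ := ⟨u, hu⟩) (a₂ := ⟨v, hv⟩) h
  exact congrArg Subtype.val this

theorem pencil_w (hp : WR K p) (hcyc : Nice K cyc) {e : Finset (Fin N)}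
    (he : e ∈ interiorFaces K 2) (hd : DistinctAt K p e) {u v : Fin N} (hu : u ∈ e)
    (hv : v ∈ e) : Pencil (le K cyc p e) (p u) (p v) where
  deg := fun i => le_deg _ _
  van := fun i => ⟨le_vanish hcyc he i hu, le_vanish hcyc he i hv⟩
  ne := fun i => le_ne_zero_w hp hcyc he i
  dist := by
    rintro ⟨i, j, hij, c, c', hc, h⟩
    have hfij : fi cyc e i ≠ fi cyc e j := fun h =>
      hij (Fin.ext (fi_inj hp.card hcyc he i.2 j.2 h))
    exact lf_not_prop (fi_card hcyc he i.2) (fi_card hcyc he j.2) hfij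
      (hd _ (mem_interiorFaces.mp (fi_mem hp.card hcyc he i.2)).1 _
        (mem_interiorFaces.mp (fi_mem hp.card hcyc he j.2)).1 (sub_fi hcyc he i.2)
        (sub_fi hcyc he j.2) hfij) ⟨c, c', hc, h⟩

theorem affInd3_w (hp : WR K p) {t : Finset (Fin N)} (ht : t ∈ K) {a b c : Fin N}
    (ha : a ∈ t) (hb : b ∈ t) (hc : c ∈ t) (hab : a ≠ b) (hac : a ≠ c) (hbc : b ≠ c) :
    AffineIndependent ℝ ![p a, p b, p c] := by
  have hinj : Function.Injective (![⟨a, ha⟩, ⟨b, hb⟩, ⟨c, hc⟩] : Fin 3 → t) := by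
    intro x y hxy
    have hab' := congrArg Subtype.val hxy
    fin_cases x <;> fin_cases y <;> first
      | rfl
      | (exfalso; first
          | exact hab hab' | exact hac hab' | exact hbc hab'
          | exact hab hab'.symm | exact hac hab'.symm | exact hbc hab'.symm)
  have := (hp.nondeg t ht).comp_embedding ⟨_, hinj⟩
  convert this using 1
  funext i
  fin_cases i <;> rfl

/-- The rank of the closing map in the matched case. -/
theorem rank_four (hp : WR K p) (hcyc : Nice K cyc)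
    (hM : Matched K) (hdist : ∀ e ∈ interiorFaces K 2, DistinctAt K p e) (r d : ℕ) :
    2 * Module.finrank ℝ (LinearMap.range (PT K cyc p r d)) +
      ∑ e ∈ interiorFaces K 2, ∑ e' ∈ partners K e, mu (degree K e) (degree K e') r d =
    2 * ∑ e ∈ interiorFaces K 2, lam (degree K e) r d := by
  obtain ⟨⟨S, hS⟩⟩ := exists_shared hp.card hcyc hM
  have h3 := rank_shared hp.card hcyc S p r d
  have h4 : ∑ e : interiorFaces K 2,
      Module.finrank ℝ (LinearMap.range (Phi r d (le K cyc p e.1))) =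
      ∑ e ∈ interiorFaces K 2, lam (degree K e) r d := by
    rw [← Finset.sum_coe_sort (interiorFaces K 2) (fun e => lam (degree K e) r d)]
    refine Finset.sum_congr rfl fun e _ => ?_
    obtain ⟨u, hu, v, hv, huv⟩ := exists_ends_w hp e.2
    have hpen := pencil_w hp hcyc e.2 (hdist e.1 e.2) hu hv
    exact H79.L3 _ r d _ (p u) (p v) huv hpen.deg hpen.van hpen.dist hpen.ne
  have h5 : ∑ _x : Sh K, Module.finrank ℝ (restrictTotalDegree (Fin 3) ℝ d) =
      ∑ x : Sh K, Module.finrank ℝ (entry r d (le K cyc p (S.E1 x).1) (S.I x) ⊔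
        entry r d (le K cyc p (S.E2 x).1) (S.J x) : Submodule ℝ _) +
      ∑ x : Sh K, mu (degree K (S.E1 x).1) (degree K (S.E2 x).1) r d := by
    rw [← Finset.sum_add_distrib]
    refine Finset.sum_congr rfl fun x _ => ?_
    have hg : S.g x ∈ faces K 3 := by
      rw [← S.hI x]
      exact (mem_interiorFaces.mp (fi_mem hp.card hcyc (S.E1 x).2 (S.I x).2)).1
    have s1 : (S.E1 x).1 ⊆ S.g x := by
      have := sub_fi hcyc (S.E1 x).2 (S.I x).2
      rwa [S.hI x] at this
    have s2 : (S.E2 x).1 ⊆ S.g x := by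
      have := sub_fi hcyc (S.E2 x).2 (S.J x).2
      rwa [S.hJ x] at this
    have hne' : (S.E1 x).1 ≠ (S.E2 x).1 := fun h => S.ne x (Subtype.ext h)
    obtain ⟨hg3, t, ht, hgt⟩ := mem_faces.mp hg
    obtain ⟨v, hv⟩ : ((S.E1 x).1 ∩ (S.E2 x).1).Nonempty := by
      rw [← Finset.card_pos]
      have c1 := card_edge (S.E1 x).2
      have c2 := card_edge (S.E2 x).2
      have c4 := Finset.card_union_add_card_inter (S.E1 x).1 (S.E2 x).1
      have c5 := Finset.card_le_card (Finset.union_subset s1 s2)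
      omega
    rw [Finset.mem_inter] at hv
    obtain ⟨b, hb, hbv⟩ := Finset.exists_mem_ne (by rw [card_edge (S.E1 x).2]; norm_num) v
      (s := (S.E1 x).1)
    obtain ⟨b', hb', hbv'⟩ := Finset.exists_mem_ne (by rw [card_edge (S.E2 x).2]; norm_num) v
      (s := (S.E2 x).1)
    have hbb : b ≠ b' := by
      rintro rfl
      apply hne'
      have k1 : ({v, b} : Finset (Fin N)) = (S.E1 x).1 :=
        Finset.eq_of_subset_of_card_le (by
          intro y hy
          rw [Finset.mem_insert, Finset.mem_singleton] at hy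
          rcases hy with rfl | rfl
          · exact hv.1
          · exact hb) (by rw [card_edge (S.E1 x).2, Finset.card_pair hbv.symm])
      have k2 : ({v, b} : Finset (Fin N)) = (S.E2 x).1 :=
        Finset.eq_of_subset_of_card_le (by
          intro y hy
          rw [Finset.mem_insert, Finset.mem_singleton] at hy
          rcases hy with rfl | rfl
          · exact hv.2
          · exact hb') (by rw [card_edge (S.E2 x).2, Finset.card_pair hbv.symm])
      exact k1.symm.trans k2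
    exact stP _ _ r d _ _ (S.I x) (S.J x) (p v) (p b) (p b')
      (pencil_w hp hcyc (S.E1 x).2 (hdist _ (S.E1 x).2) hv.1 hb)
      (pencil_w hp hcyc (S.E2 x).2 (hdist _ (S.E2 x).2) hv.2 hb')
      (hcyc.three _ (S.E1 x).2) (hcyc.three _ (S.E2 x).2)
      (by
        unfold le
        rw [S.hI x, S.hJ x])
      (affInd3_w hp ht (hgt (s1 hv.1)) (hgt (s1 hb)) (hgt (s2 hb')) hbv.symm hbv'.symm hbb)
  have h6 := sum_pairs hp.card hcyc S (fun a b => mu a b r d) (fun a b => mu_symm a b r d)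
  rw [h4] at h3
  rw [h6]
  omega

/-- The spline dimension through the rank of the closing map, at every realisation. -/
theorem dim_rank (hne : K.Nonempty) (hcyc : Nice K cyc) (r d : ℕ) (hp : Realises K p) :
    Module.finrank ℝ (Spline r (d + r + 1) K p) +
      Module.finrank ℝ (LinearMap.range (PT K cyc p r d)) =
    (d + r + 4).choose 3 + (interiorFaces K 3).card * (d + 3).choose 3 := by
  have h1 := finrank_SP hp hne hcyc r (d + r + 1) d rfl
  have h2 := finrank_ker_PT K cyc p r d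
  rw [← S_42.stS_42 N r (d + r + 1) K p hp hcyc.star, H79.L0] at h1
  rw [H79.L0] at h2
  have e : (d + r + 4).choose 3 = (d + r + 1 + 3).choose 3 := rfl
  rw [e]
  omega

/-- The rank is largest at a position with distinct planes. -/
theorem rank_le_four (hU1 : StU1) (hU2 : StU2) {p' : Fin N → Fin 3 → ℝ} (hp' : WR K p')
    (hcyc : Nice K cyc) (hM : Matched K) (hdist : ∀ e ∈ interiorFaces K 2, DistinctAt K p' e)
    (p : Fin N → Fin 3 → ℝ) (r d : ℕ) :
    2 * Module.finrank ℝ (LinearMap.range (PT K cyc p r d)) +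
      ∑ e ∈ interiorFaces K 2, ∑ e' ∈ partners K e, mu (degree K e) (degree K e') r d ≤
    2 * ∑ e ∈ interiorFaces K 2, lam (degree K e) r d := by
  have e1 := hU1 N K cyc p p' r d
  have e2 : ∀ᶠ s in nhdsWithin (0 : ℝ) {0}ᶜ, ∀ t ∈ K,
      AffineIndependent ℝ (fun i : t => ln p p' s i) := by
    rw [Filter.eventually_all_finset]
    intro t ht
    exact hU2 N t p p' (hp'.nondeg t ht)
  have e3 : ∀ᶠ s in nhdsWithin (0 : ℝ) {0}ᶜ, ∀ e ∈ interiorFaces K 2, ∀ f ∈ faces K 3,
      ∀ g ∈ faces K 3, e ⊆ f → e ⊆ g → f ≠ g →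
        AffineIndependent ℝ (fun i : (f ∪ g : Finset (Fin N)) => ln p p' s i) := by
    rw [Filter.eventually_all_finset]
    intro e he
    rw [Filter.eventually_all_finset]
    intro f hf
    rw [Filter.eventually_all_finset]
    intro g hg
    by_cases h : e ⊆ f ∧ e ⊆ g ∧ f ≠ g
    · filter_upwards [hU2 N (f ∪ g) p p' (hdist e he f hf g hg h.1 h.2.1 h.2.2)] with s hs
      exact fun _ _ _ => hs
    · exact Filter.Eventually.of_forall fun s h1 h2 h3 => absurd ⟨h1, h2, h3⟩ h
  obtain ⟨s, h1, h2, h3⟩ := (e1.and (e2.and e3)).exists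
  have h4 := rank_four (p := ln p p' s) ⟨hp'.card, h2⟩ hcyc hM h3 r d
  omega

end Pool.Agent.Lib.MP_d2a91d_an
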