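import Pool.Agent.Lib.MP_d2a91d_an.Stmts8

/-!
# Row X: two adjacent interior edges of degree three
-/

set_option autoImplicit false
set_option maxHeartbeats 4000000

namespace Pool.Agent.Lib.MP_d2a91d_an.X_83

variable {N : ℕ} {K : Finset (Finset (Fin N))} {cyc : Finset (Fin N) → ℕ → Finset (Fin N)}

theorem mem_two (hn : Nice K cyc) {f s t u : Finset (Fin N)} (hf : f.card = 3)
    (hs : s ∈ K) (ht : t ∈ K) (hst : s ≠ t) (hfs : f ⊆ s) (hft : f ⊆ t) (hu : u ∈ K)
    (hfu : f ⊆ u) : u = s ∨ u = t := by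
  by_contra hcon
  push Not at hcon
  have h1 : f ∈ faces K 3 := by
    unfold faces
    simp only [Finset.mem_filter, Finset.mem_powersetCard, Finset.subset_univ, true_and]
    exact ⟨hf, s, hs, hfs⟩
  have h2 := hn.two f h1
  have h3 : ({s, t, u} : Finset (Finset (Fin N))) ⊆ K.filter (fun t => f ⊆ t) := by
    intro x hx
    simp only [Finset.mem_insert, Finset.mem_singleton] at hx
    rcases hx with rfl | rfl | rfl
    · simp [hs, hfs]
    · simp [ht, hft]
    · simp [hu, hfu]
  have h4 := Finset.card_le_card h3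
  have h5 : ({s, t, u} : Finset (Finset (Fin N))).card = 3 :=
    Finset.card_eq_three.mpr ⟨s, t, u, hst, fun h => hcon.1 h.symm, fun h => hcon.2 h.symm, rfl⟩
  unfold degree at h2
  omega

theorem third (hn : Nice K cyc) {e s t : Finset (Fin N)} (he : e ∈ interiorFaces K 2)
    (hd : degree K e = 3) (hs : s ∈ K) (ht : t ∈ K) (hst : s ≠ t) (hes : e ⊆ s) (het : e ⊆ t) :
    ∃ u ∈ K, e ⊆ u ∧ u ≠ s ∧ u ≠ t ∧ (u ∩ s).card = 3 ∧ (u ∩ t).card = 3 := by
  have m0 := hn.mem e he 0 (by omega)
  have m1 := hn.mem e he 1 (by omega)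
  have m2 := hn.mem e he 2 (by omega)
  have c3 := hn.close e he
  rw [hd] at c3
  have a0 := hn.adj e he 0 (by omega)
  have a1 := hn.adj e he 1 (by omega)
  have a2 := hn.adj e he 2 (by omega)
  have a0' : (cyc e 0 ∩ cyc e 1).card = 3 := a0
  have a1' : (cyc e 1 ∩ cyc e 2).card = 3 := a1
  have a2' : (cyc e 2 ∩ cyc e 0).card = 3 := by rw [← c3]; exact a2
  have i01 : cyc e 0 ≠ cyc e 1 := fun h => by
    have := hn.inj e he 0 1 (by omega) (by omega) h
    omega
  have i12 : cyc e 1 ≠ cyc e 2 := fun h => by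
    have := hn.inj e he 1 2 (by omega) (by omega) h
    omega
  have i02 : cyc e 0 ≠ cyc e 2 := fun h => by
    have := hn.inj e he 0 2 (by omega) (by omega) h
    omega
  have hsub : ({cyc e 0, cyc e 1, cyc e 2} : Finset (Finset (Fin N))) ⊆
      K.filter (fun t => e ⊆ t) := by
    intro x hx
    simp only [Finset.mem_insert, Finset.mem_singleton] at hx
    rcases hx with rfl | rfl | rfl
    · simpa using m0
    · simpa using m1
    · simpa using m2
  have hcard : ({cyc e 0, cyc e 1, cyc e 2} : Finset (Finset (Fin N))).card = 3 :=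
    Finset.card_eq_three.mpr ⟨_, _, _, i01, i02, i12, rfl⟩
  have heq : ({cyc e 0, cyc e 1, cyc e 2} : Finset (Finset (Fin N))) =
      K.filter (fun t => e ⊆ t) := by
    apply Finset.eq_of_subset_of_card_le hsub
    unfold degree at hd
    omega
  have hs' : s ∈ ({cyc e 0, cyc e 1, cyc e 2} : Finset (Finset (Fin N))) := by
    rw [heq]
    simp [hs, hes]
  have ht' : t ∈ ({cyc e 0, cyc e 1, cyc e 2} : Finset (Finset (Fin N))) := by
    rw [heq]
    simp [ht, het]
  simp only [Finset.mem_insert, Finset.mem_singleton] at hs' ht'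
  have b0 : (cyc e 1 ∩ cyc e 0).card = 3 := by rw [Finset.inter_comm]; exact a0'
  have b1 : (cyc e 2 ∩ cyc e 1).card = 3 := by rw [Finset.inter_comm]; exact a1'
  have b2 : (cyc e 0 ∩ cyc e 2).card = 3 := by rw [Finset.inter_comm]; exact a2'
  rcases hs' with rfl | rfl | rfl <;> rcases ht' with rfl | rfl | rfl
  · exact absurd rfl hst
  · exact ⟨_, m2.1, m2.2, i02.symm, i12.symm, a2', b1⟩
  · exact ⟨_, m1.1, m1.2, i01.symm, i12, b0, a1'⟩
  · exact ⟨_, m2.1, m2.2, i12.symm, i02.symm, b1, a2'⟩
  · exact absurd rfl hst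
  · exact ⟨_, m0.1, m0.2, i01, i02, a0', b2⟩
  · exact ⟨_, m1.1, m1.2, i12, i01.symm, a1', b0⟩
  · exact ⟨_, m0.1, m0.2, i02, i01, b2, a0'⟩
  · exact absurd rfl hst

theorem four (hK : ∀ t ∈ K, t.card = 4) {a b c d : Fin N} (hab : a ≠ b) (hac : a ≠ c)
    (had : a ≠ d) (hbc : b ≠ c) (hbd : b ≠ d) (hcd : c ≠ d) {t : Finset (Fin N)} (ht : t ∈ K)
    (ha : a ∈ t) (hb : b ∈ t) (hc : c ∈ t) (hd : d ∈ t) : t = {a, b, c, d} := by
  symm
  apply Finset.eq_of_subset_of_card_le
  · intro x hx
    simp only [Finset.mem_insert, Finset.mem_singleton] at hx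
    rcases hx with rfl | rfl | rfl | rfl <;> assumption
  · rw [hK t ht, Finset.card_eq_of_equiv_fin (n := 4)]
    exact (Finset.equivFinOfCardEq (by
      rw [Finset.card_insert_of_notMem, Finset.card_insert_of_notMem,
        Finset.card_insert_of_notMem, Finset.card_singleton]
      · simp [hcd]
      · simp [hbc, hbd]
      · simp [hab, hac, had]))

/-- the third tetrahedron at the edge -/
theorem third' (hK : ∀ t ∈ K, t.card = 4) (hn : Nice K cyc) {v b b' p q : Fin N}
    (hvb : v ≠ b) (hvb' : v ≠ b') (hbb' : b ≠ b') (hpv : p ≠ v) (hpb : p ≠ b) (hpb' : p ≠ b')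
    (hqv : q ≠ v) (hqb : q ≠ b) (hqb' : q ≠ b') (hpq : p ≠ q) {t1 t2 : Finset (Fin N)}
    (h1 : t1 ∈ K) (h2 : t2 ∈ K) (e1 : t1 = {v, b, b', p}) (e2 : t2 = {v, b, b', q})
    (h12 : t1 ≠ t2) (he : ({v, b} : Finset (Fin N)) ∈ interiorFaces K 2)
    (hd : degree K {v, b} = 3) : ∃ u ∈ K, u = {v, b, p, q} := by
  have s1 : ({v, b} : Finset (Fin N)) ⊆ t1 := by
    rw [e1]
    intro x hx
    simp only [Finset.mem_insert, Finset.mem_singleton] at hx ⊢
    tauto
  have s2 : ({v, b} : Finset (Fin N)) ⊆ t2 := by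
    rw [e2]
    intro x hx
    simp only [Finset.mem_insert, Finset.mem_singleton] at hx ⊢
    tauto
  obtain ⟨u, hu, heu, hu1, hu2, c1, c2⟩ := third hn he hd h1 h2 h12 s1 s2
  have hv : v ∈ u := heu (by simp)
  have hb : b ∈ u := heu (by simp)
  have hb' : b' ∉ u := by
    intro hb'
    have h3 : ({v, b, b'} : Finset (Fin N)).card = 3 :=
      Finset.card_eq_three.mpr ⟨_, _, _, hvb, hvb', hbb', rfl⟩
    rcases mem_two hn h3 h1 h2 h12 (by rw [e1]; intro x hx; simp at hx ⊢; tauto)
      (by rw [e2]; intro x hx; simp at hx ⊢; tauto) hu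
      (by intro x hx; simp at hx; rcases hx with rfl | rfl | rfl <;> assumption) with h | h
    · exact hu1 h
    · exact hu2 h
  have hp : p ∈ u := by
    by_contra hp
    have : u ∩ t1 ⊆ {v, b} := by
      intro x hx
      rw [e1] at hx
      simp only [Finset.mem_inter, Finset.mem_insert, Finset.mem_singleton] at hx ⊢
      rcases hx with ⟨hx, rfl | rfl | rfl | rfl⟩
      · simp
      · simp
      · exact absurd hx hb'
      · exact absurd hx hp
    have h4 := Finset.card_le_card this
    have h5 : ({v, b} : Finset (Fin N)).card ≤ 2 := Finset.card_le_two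
    omega
  have hq : q ∈ u := by
    by_contra hq
    have : u ∩ t2 ⊆ {v, b} := by
      intro x hx
      rw [e2] at hx
      simp only [Finset.mem_inter, Finset.mem_insert, Finset.mem_singleton] at hx ⊢
      rcases hx with ⟨hx, rfl | rfl | rfl | rfl⟩
      · simp
      · simp
      · exact absurd hx hb'
      · exact absurd hx hq
    have h4 := Finset.card_le_card this
    have h5 : ({v, b} : Finset (Fin N)).card ≤ 2 := Finset.card_le_two
    omega
  exact ⟨u, hu, four hK hvb hpv.symm hqv.symm hpb.symm hqb.symm hpq hu hv hb hp hq⟩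

end X_83

open X_83 in
theorem stX_83 : StX := by
  intro N K cyc hK hn e he e' he' v f hf hne hve hve' hef hef' hd hd'
  have hce : e.card = 2 := by
    have := (Finset.mem_filter.mp he).1
    unfold faces at this
    simp only [Finset.mem_filter, Finset.mem_powersetCard, Finset.subset_univ, true_and] at this
    exact this.1
  have hce' : e'.card = 2 := by
    have := (Finset.mem_filter.mp he').1
    unfold faces at this
    simp only [Finset.mem_filter, Finset.mem_powersetCard, Finset.subset_univ, true_and] at this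
    exact this.1
  have hcf : f.card = 3 ∧ ∃ t ∈ K, f ⊆ t := by
    unfold faces at hf
    simpa only [Finset.mem_filter, Finset.mem_powersetCard, Finset.subset_univ, true_and] using hf
  obtain ⟨b, hvb, rfl⟩ : ∃ b, v ≠ b ∧ e = {v, b} := by
    obtain ⟨x, y, hxy, rfl⟩ := Finset.card_eq_two.mp hce
    simp only [Finset.mem_insert, Finset.mem_singleton] at hve
    rcases hve with rfl | rfl
    · exact ⟨y, hxy, rfl⟩
    · exact ⟨x, hxy.symm, Finset.pair_comm _ _⟩
  obtain ⟨b', hvb', rfl⟩ : ∃ b', v ≠ b' ∧ e' = {v, b'} := by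
    obtain ⟨x, y, hxy, rfl⟩ := Finset.card_eq_two.mp hce'
    simp only [Finset.mem_insert, Finset.mem_singleton] at hve'
    rcases hve' with rfl | rfl
    · exact ⟨y, hxy, rfl⟩
    · exact ⟨x, hxy.symm, Finset.pair_comm _ _⟩
  have hbb' : b ≠ b' := fun h => hne (by rw [h])
  have hvf : v ∈ f := hef (by simp)
  have hbf : b ∈ f := hef (by simp)
  have hbf' : b' ∈ f := hef' (by simp)
  have hf3 : ({v, b, b'} : Finset (Fin N)).card = 3 :=
    Finset.card_eq_three.mpr ⟨_, _, _, hvb, hvb', hbb', rfl⟩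
  have hff : f = {v, b, b'} := by
    symm
    apply Finset.eq_of_subset_of_card_le
    · intro x hx
      simp only [Finset.mem_insert, Finset.mem_singleton] at hx
      rcases hx with rfl | rfl | rfl <;> assumption
    · rw [hf3, hcf.1]
  -- the two tetrahedra at `f`
  have hdf : degree K f = 2 := by
    have h1 := hn.two f hf
    have h2 := (Finset.mem_filter.mp he).2 f hf hef
    have h3 : 0 < degree K f := by
      obtain ⟨t, ht, hft⟩ := hcf.2
      unfold degree
      exact Finset.card_pos.mpr ⟨t, by simp [ht, hft]⟩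
    omega
  obtain ⟨t1, t2, h12, hfil⟩ := Finset.card_eq_two.mp hdf
  have m1 : t1 ∈ K ∧ f ⊆ t1 := by
    have : t1 ∈ K.filter (fun t => f ⊆ t) := by rw [hfil]; simp
    simpa using this
  have m2 : t2 ∈ K ∧ f ⊆ t2 := by
    have : t2 ∈ K.filter (fun t => f ⊆ t) := by rw [hfil]; simp
    simpa using this
  have key : ∀ t ∈ K, f ⊆ t → ∃ p, p ≠ v ∧ p ≠ b ∧ p ≠ b' ∧ t = {v, b, b', p} := by
    intro t ht hft
    have h1 : (t \ f).card = 1 := by
      rw [Finset.card_sdiff_of_subset hft, hK t ht, hcf.1]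
    obtain ⟨p, hp⟩ := Finset.card_eq_one.mp h1
    have h2 : p ∈ t \ f := by rw [hp]; simp
    have h3 := Finset.mem_sdiff.mp h2
    have hpv : p ≠ v := fun h => h3.2 (h ▸ hvf)
    have hpb : p ≠ b := fun h => h3.2 (h ▸ hbf)
    have hpb' : p ≠ b' := fun h => h3.2 (h ▸ hbf')
    exact ⟨p, hpv, hpb, hpb', four hK hvb hvb' hpv.symm hbb' hpb.symm hpb'.symm ht (hft hvf)
      (hft hbf) (hft hbf') h3.1⟩
  obtain ⟨p, hpv, hpb, hpb', e1⟩ := key t1 m1.1 m1.2
  obtain ⟨q, hqv, hqb, hqb', e2⟩ := key t2 m2.1 m2.2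
  have hpq : p ≠ q := fun h => h12 (by rw [e1, e2, h])
  obtain ⟨t3, m3, e3⟩ := third' hK hn hvb hvb' hbb' hpv hpb hpb' hqv hqb hqb' hpq m1.1 m2.1 e1 e2
    h12 he hd
  obtain ⟨t4, m4, e4⟩ := third' hK hn hvb' hvb hbb'.symm hpv hpb' hpb hqv hqb' hqb hpq m1.1 m2.1
    (by rw [e1]; ext x; simp only [Finset.mem_insert, Finset.mem_singleton]; tauto)
    (by rw [e2]; ext x; simp only [Finset.mem_insert, Finset.mem_singleton]; tauto)
    h12 he' hd'
  have c1 : ({v, p, b} : Finset (Fin N)).card = 3 :=
    Finset.card_eq_three.mpr ⟨_, _, _, hpv.symm, hvb, hpb, rfl⟩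
  have c2 : ({v, p, b'} : Finset (Fin N)).card = 3 :=
    Finset.card_eq_three.mpr ⟨_, _, _, hpv.symm, hvb', hpb', rfl⟩
  have c3 : ({v, p, q} : Finset (Fin N)).card = 3 :=
    Finset.card_eq_three.mpr ⟨_, _, _, hpv.symm, hqv.symm, hpq, rfl⟩
  have n13 : t1 ≠ t3 := by
    intro h
    have : b' ∈ t3 := by rw [← h, e1]; simp
    rw [e3] at this
    simp only [Finset.mem_insert, Finset.mem_singleton] at this
    rcases this with h | h | h | h
    · exact hvb' h.symm
    · exact hbb' h.symm
    · exact hpb' h.symm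
    · exact hqb' h.symm
  have n14 : t1 ≠ t4 := by
    intro h
    have : b ∈ t4 := by rw [← h, e1]; simp
    rw [e4] at this
    simp only [Finset.mem_insert, Finset.mem_singleton] at this
    rcases this with h | h | h | h
    · exact hvb h.symm
    · exact hbb' h
    · exact hpb h.symm
    · exact hqb h.symm
  have n34 : t3 ≠ t4 := by
    intro h
    have : b ∈ t4 := by rw [← h, e3]; simp
    rw [e4] at this
    simp only [Finset.mem_insert, Finset.mem_singleton] at this
    rcases this with h | h | h | h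
    · exact hvb h.symm
    · exact hbb' h
    · exact hpb h.symm
    · exact hqb h.symm
  have sub : ∀ {x y z : Fin N} {t : Finset (Fin N)}, x ∈ t → y ∈ t → z ∈ t →
      ({x, y, z} : Finset (Fin N)) ⊆ t := by
    intro x y z t hx hy hz w hw
    simp only [Finset.mem_insert, Finset.mem_singleton] at hw
    rcases hw with rfl | rfl | rfl <;> assumption
  have v1 : v ∈ t1 := by rw [e1]; simp
  have b1 : b ∈ t1 := by rw [e1]; simp
  have b1' : b' ∈ t1 := by rw [e1]; simp
  have p1 : p ∈ t1 := by rw [e1]; simp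
  have v3 : v ∈ t3 := by rw [e3]; simp
  have b3 : b ∈ t3 := by rw [e3]; simp
  have p3 : p ∈ t3 := by rw [e3]; simp
  have q3 : q ∈ t3 := by rw [e3]; simp
  have v4 : v ∈ t4 := by rw [e4]; simp
  have b4 : b' ∈ t4 := by rw [e4]; simp
  have p4 : p ∈ t4 := by rw [e4]; simp
  have q4 : q ∈ t4 := by rw [e4]; simp
  -- members of the three tetrahedra
  have hcl : ∀ a c : Finset (Fin N), (a = t1 ∨ a = t3 ∨ a = t4) → c ∈ K → (a ∩ c).card = 3 →
      v ∈ c → p ∈ c → (c = t1 ∨ c = t3 ∨ c = t4) := by
    intro a c ha hc hac hvc hpc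
    have hva : v ∈ a := by rcases ha with rfl | rfl | rfl <;> assumption
    have hpa : p ∈ a := by rcases ha with rfl | rfl | rfl <;> assumption
    obtain ⟨x, hx, hxv, hxp⟩ : ∃ x ∈ a ∩ c, x ≠ v ∧ x ≠ p := by
      by_contra hcon
      push Not at hcon
      have : a ∩ c ⊆ {v, p} := by
        intro x hx
        simp only [Finset.mem_insert, Finset.mem_singleton]
        by_cases h : x = v
        · exact Or.inl h
        · exact Or.inr (hcon x hx h)
      have h4 := Finset.card_le_card this
      have h5 : ({v, p} : Finset (Fin N)).card ≤ 2 := Finset.card_le_two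
      omega
    have hx' := Finset.mem_inter.mp hx
    have hcases : x = b ∨ x = b' ∨ x = q := by
      rcases ha with rfl | rfl | rfl
      · have := hx'.1
        rw [e1] at this
        simp only [Finset.mem_insert, Finset.mem_singleton] at this
        tauto
      · have := hx'.1
        rw [e3] at this
        simp only [Finset.mem_insert, Finset.mem_singleton] at this
        tauto
      · have := hx'.1
        rw [e4] at this
        simp only [Finset.mem_insert, Finset.mem_singleton] at this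
        tauto
    rcases hcases with rfl | rfl | rfl
    · rcases mem_two hn c1 m1.1 m3 n13 (sub v1 p1 b1) (sub v3 p3 b3) hc (sub hvc hpc hx'.2)
        with h | h
      · exact Or.inl h
      · exact Or.inr (Or.inl h)
    · rcases mem_two hn c2 m1.1 m4 n14 (sub v1 p1 b1') (sub v4 p4 b4) hc (sub hvc hpc hx'.2)
        with h | h
      · exact Or.inl h
      · exact Or.inr (Or.inr h)
    · rcases mem_two hn c3 m3 m4 n34 (sub v3 p3 q3) (sub v4 p4 q4) hc (sub hvc hpc hx'.2)
        with h | h
      · exact Or.inr (Or.inl h)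
      · exact Or.inr (Or.inr h)
  have hall : ∀ t ∈ K, v ∈ t → p ∈ t → (t = t1 ∨ t = t3 ∨ t = t4) := by
    intro t ht hvt hpt
    have hst := hn.star t1 m1.1 t ht
    have hv1 : v ∈ t1 ∩ t := Finset.mem_inter.mpr ⟨v1, hvt⟩
    have hp1 : p ∈ t1 ∩ t := Finset.mem_inter.mpr ⟨p1, hpt⟩
    have gen : ∀ c, Relation.ReflTransGen
        (fun a b => b ∈ K ∧ (a ∩ b).card = 3 ∧ t1 ∩ t ⊆ b) t1 c → (c = t1 ∨ c = t3 ∨ c = t4) := by
      intro c hc
      induction hc with
      | refl => exact Or.inl rfl
      | tail _ hbc ih => exact hcl _ _ ih hbc.1 hbc.2.1 (hbc.2.2 hv1) (hbc.2.2 hp1)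
    exact gen t hst
  have cg : ({v, p} : Finset (Fin N)).card = 2 := Finset.card_pair hpv.symm
  have memf : ∀ {s t : Finset (Fin N)} {m : ℕ}, s.card = m → t ∈ K → s ⊆ t → s ∈ faces K m := by
    intro s t m h1 h2 h3
    unfold faces
    simp only [Finset.mem_filter, Finset.mem_powersetCard, Finset.subset_univ, true_and]
    exact ⟨h1, t, h2, h3⟩
  have sub2 : ∀ {x y : Fin N} {t : Finset (Fin N)}, x ∈ t → y ∈ t →
      ({x, y} : Finset (Fin N)) ⊆ t := by
    intro x y t hx hy w hw
    simp only [Finset.mem_insert, Finset.mem_singleton] at hw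
    rcases hw with rfl | rfl <;> assumption
  refine ⟨{v, p}, ?_, by simp, ?_, ?_, ?_, {v, p, b}, memf c1 m1.1 (sub v1 p1 b1), {v, p, b'},
    memf c2 m1.1 (sub v1 p1 b1'), ?_, sub2 (by simp) (by simp), sub2 (by simp) (by simp),
    sub2 (by simp) (by simp), sub2 (by simp) (by simp)⟩
  · -- interior
    unfold interiorFaces
    rw [Finset.mem_filter]
    refine ⟨memf cg m1.1 (sub2 v1 p1), ?_⟩
    intro f' hf' hgf' h1
    have hcf' : f'.card = 3 ∧ ∃ t ∈ K, f' ⊆ t := by
      unfold faces at hf'
      simpa only [Finset.mem_filter, Finset.mem_powersetCard, Finset.subset_univ, true_and]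
        using hf'
    obtain ⟨hc3, t, ht, hft⟩ := hcf'
    have hvf' : v ∈ f' := hgf' (by simp)
    have hpf' : p ∈ f' := hgf' (by simp)
    obtain ⟨x, hx, hxv, hxp⟩ : ∃ x ∈ f', x ≠ v ∧ x ≠ p := by
      by_contra hcon
      push Not at hcon
      have : f' ⊆ {v, p} := by
        intro x hx
        simp only [Finset.mem_insert, Finset.mem_singleton]
        by_cases h : x = v
        · exact Or.inl h
        · exact Or.inr (hcon x hx h)
      have h4 := Finset.card_le_card this
      have h5 : ({v, p} : Finset (Fin N)).card ≤ 2 := Finset.card_le_two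
      omega
    have hf'e : f' = {v, p, x} := by
      symm
      apply Finset.eq_of_subset_of_card_le (sub hvf' hpf' hx)
      rw [hc3]
      exact (Finset.card_eq_three.mpr ⟨_, _, _, hpv.symm, hxv.symm, hxp.symm, rfl⟩).ge
    have two : ∀ s t : Finset (Fin N), s ∈ K → t ∈ K → s ≠ t → f' ⊆ s → f' ⊆ t → False := by
      intro s t hs ht hst hfs hft
      have h3 : ({s, t} : Finset (Finset (Fin N))) ⊆ K.filter (fun t => f' ⊆ t) := by
        intro y hy
        simp only [Finset.mem_insert, Finset.mem_singleton] at hy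
        rcases hy with rfl | rfl
        · simp [hs, hfs]
        · simp [ht, hft]
      have h4 := Finset.card_le_card h3
      rw [Finset.card_pair hst] at h4
      unfold degree at h1
      omega
    have hcases : x = b ∨ x = b' ∨ x = q := by
      have hxt := hft hx
      rcases hall t ht (hft hvf') (hft hpf') with rfl | rfl | rfl
      · rw [e1] at hxt
        simp only [Finset.mem_insert, Finset.mem_singleton] at hxt
        tauto
      · rw [e3] at hxt
        simp only [Finset.mem_insert, Finset.mem_singleton] at hxt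
        tauto
      · rw [e4] at hxt
        simp only [Finset.mem_insert, Finset.mem_singleton] at hxt
        tauto
    rcases hcases with rfl | rfl | rfl
    · exact two t1 t3 m1.1 m3 n13 (hf'e ▸ sub v1 p1 b1) (hf'e ▸ sub v3 p3 b3)
    · exact two t1 t4 m1.1 m4 n14 (hf'e ▸ sub v1 p1 b1') (hf'e ▸ sub v4 p4 b4)
    · exact two t3 t4 m3 m4 n34 (hf'e ▸ sub v3 p3 q3) (hf'e ▸ sub v4 p4 q4)
  · intro h
    have : p ∈ ({v, b} : Finset (Fin N)) := by rw [← h]; simp
    simp only [Finset.mem_insert, Finset.mem_singleton] at this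
    rcases this with h | h
    · exact hpv h
    · exact hpb h
  · intro h
    have : p ∈ ({v, b'} : Finset (Fin N)) := by rw [← h]; simp
    simp only [Finset.mem_insert, Finset.mem_singleton] at this
    rcases this with h | h
    · exact hpv h
    · exact hpb' h
  · have : K.filter (fun t => ({v, p} : Finset (Fin N)) ⊆ t) = {t1, t3, t4} := by
      ext t
      simp only [Finset.mem_filter, Finset.mem_insert, Finset.mem_singleton]
      constructor
      · rintro ⟨ht, hvt⟩
        exact hall t ht (hvt (by simp)) (hvt (by simp))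
      · rintro (rfl | rfl | rfl)
        · exact ⟨m1.1, sub2 v1 p1⟩
        · exact ⟨m3, sub2 v3 p3⟩
        · exact ⟨m4, sub2 v4 p4⟩
    unfold degree
    rw [this]
    exact Finset.card_eq_three.mpr ⟨_, _, _, n13, n14, n34, rfl⟩
  · intro h
    have : b ∈ ({v, p, b'} : Finset (Fin N)) := by rw [← h]; simp
    simp only [Finset.mem_insert, Finset.mem_singleton] at this
    rcases this with h | h | h
    · exact hvb h.symm
    · exact hpb h.symm
    · exact hbb' h

end Pool.Agent.Lib.MP_d2a91d_an
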