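import Pool.Agent.Lib.MP_d2a91d_an.Stmts6

/-!
# (Z1) Enough planes of a pencil give the whole range
-/

set_option autoImplicit false

namespace Pool.Agent.Lib.MP_d2a91d_an.Z79

open MvPolynomial

theorem lam_eq {m n r d : ℕ} (hmn : m ≤ n) (h : min (r + 2) n ≤ m) : lam m r d = lam n r d := by
  unfold lam
  refine Finset.sum_congr rfl fun k _ => ?_
  rcases le_total n (r + 2) with hn | hn
  · rw [min_eq_right hn] at h
    rw [le_antisymm hmn h]
  · rw [min_eq_left hn] at h
    have h1 : k + r + 2 ≤ (r + 2) * (k + 1) := by nlinarith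
    have h2 : (r + 2) * (k + 1) ≤ m * (k + 1) := Nat.mul_le_mul_right _ h
    have h3 : m * (k + 1) ≤ n * (k + 1) := Nat.mul_le_mul_right _ hmn
    rw [min_eq_left (h1.trans h2), min_eq_left ((h1.trans h2).trans h3)]

/-- extension by zero along `σ` -/
noncomputable def ext {m n d : ℕ} (σ : Fin m → Fin n)
    (q : Fin m → restrictTotalDegree (Fin 3) ℝ d) : Fin n → restrictTotalDegree (Fin 3) ℝ d :=
  fun i => ∑ j, if σ j = i then q j else 0

theorem ext_zero {m n d : ℕ} (σ : Fin m → Fin n)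
    (q : Fin m → restrictTotalDegree (Fin 3) ℝ d) (i : Fin n) (hi : ∀ j, σ j ≠ i) :
    ext σ q i = 0 := by
  unfold ext
  exact Finset.sum_eq_zero fun j _ => if_neg (hi j)

theorem Phi_ext {m n d : ℕ} (r : ℕ) (l : Fin n → MvPolynomial (Fin 3) ℝ) (σ : Fin m → Fin n)
    (q : Fin m → restrictTotalDegree (Fin 3) ℝ d) :
    Phi r d l (ext σ q) = Phi r d (fun j => l (σ j)) q := by
  rw [H79.Phi_apply, H79.Phi_apply]
  have h : ∀ i, l i ^ (r + 1) * ((ext σ q i : restrictTotalDegree (Fin 3) ℝ d) :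
      MvPolynomial (Fin 3) ℝ) =
      ∑ j, if σ j = i then l (σ j) ^ (r + 1) * (q j : MvPolynomial (Fin 3) ℝ) else 0 := by
    intro i
    unfold ext
    rw [Submodule.coe_sum, Finset.mul_sum]
    refine Finset.sum_congr rfl fun j _ => ?_
    by_cases hj : σ j = i
    · rw [if_pos hj, if_pos hj, hj]
    · rw [if_neg hj, if_neg hj, Submodule.coe_zero, mul_zero]
  rw [Finset.sum_congr rfl fun i _ => h i, Finset.sum_comm]
  refine Finset.sum_congr rfl fun j _ => ?_
  rw [Finset.sum_ite_eq Finset.univ (σ j), if_pos (Finset.mem_univ _)]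

/-- (Z1) -/
theorem stZ1_79 : StZ1 := by
  intro n r d l a b hab hP I hI x
  have hcard : I.card ≤ n := by simpa using I.card_le_univ
  set σ : Fin I.card → Fin n := fun j => I.orderEmbOfFin rfl j with hσ
  have hσI : ∀ j, σ j ∈ I := fun j => I.orderEmbOfFin_mem rfl j
  have hinj : Function.Injective σ := fun j j' h => (I.orderEmbOfFin rfl).injective h
  have h1 := H79.L3 n r d l a b hab hP.deg hP.van hP.dist hP.ne
  have h2 := H79.L3 I.card r d (fun j => l (σ j)) a b hab (fun j => hP.deg _) (fun j => hP.van _)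
    (by
      rintro ⟨i, j, hij, c, c', hc, h⟩
      exact hP.dist ⟨σ i, σ j, fun h' => hij (hinj h'), c, c', hc, h⟩)
    (fun j => hP.ne _)
  have hle : LinearMap.range (Phi r d (fun j => l (σ j))) ≤ LinearMap.range (Phi r d l) := by
    rintro _ ⟨q, rfl⟩
    exact ⟨ext σ q, Phi_ext r l σ q⟩
  have heq := Submodule.eq_of_le_of_finrank_eq hle (by rw [h1, h2, lam_eq hcard hI])
  have hx : Phi r d l x ∈ LinearMap.range (Phi r d (fun j => l (σ j))) := by
    rw [heq]
    exact ⟨x, rfl⟩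
  obtain ⟨q, hq⟩ := hx
  refine ⟨ext σ q, fun i hi => ext_zero σ q i fun j h => hi (h ▸ hσI j), ?_⟩
  rw [Phi_ext, hq]

end Pool.Agent.Lib.MP_d2a91d_an.Z79
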